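import Pool.Agent.Lib.MP_263316_co.CB.Spec

/-!
MP_263316_co, part CB: forget the first mark of `β(n,a)` (TASK A1).
-/

set_option autoImplicit false

namespace Pool.Agent.SWD

open Finset Pool.Agent.SWC Pool.Agent.SWB

namespace A1Aux

variable {R : Type} [CommRing R] {N : ℕ}

/-- the weighted sum over `Ico 1 n` in terms of `range a` -/
private theorem wsum (q : R) (n a : ℕ) (h : 2 * a + 2 ≤ n) (G : ℕ → R) :
    ∑ r ∈ Ico 1 n, ((if r ≤ a then q ^ (r - 1) else 0) +
      (if n ≤ r + a then q ^ (2 * a + r - n) else 0)) * G r =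
    ∑ i ∈ range a, (q ^ i * G (i + 1) + q ^ (a + i) * G (n - a + i)) := by
  rw [sum_add_distrib]
  have h1 : ∀ r ∈ Ico 1 n, ((if r ≤ a then q ^ (r - 1) else 0) +
      (if n ≤ r + a then q ^ (2 * a + r - n) else 0)) * G r =
      (if r ≤ a then q ^ (r - 1) * G r else 0) +
        (if n ≤ r + a then q ^ (2 * a + r - n) * G r else 0) := by
    intro r _
    rw [add_mul, ite_mul, ite_mul, zero_mul]
  rw [sum_congr rfl h1, sum_add_distrib, ← sum_filter, ← sum_filter]
  have h2 : (Ico 1 n).filter (fun r => r ≤ a) = Ico 1 (a + 1) := by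
    ext r; simp only [mem_filter, mem_Ico]; omega
  have h3 : (Ico 1 n).filter (fun r => n ≤ r + a) = Ico (n - a) n := by
    ext r; simp only [mem_filter, mem_Ico]; omega
  rw [h2, h3, sum_Ico_eq_sum_range, sum_Ico_eq_sum_range]
  congr 1
  · rw [Nat.add_sub_cancel]
    refine sum_congr rfl fun i _ => ?_
    rw [Nat.add_comm 1 i, Nat.add_sub_cancel]
  · rw [show n - (n - a) = a by omega]
    refine sum_congr rfl fun i _ => ?_
    rw [show 2 * a + (n - a + i) - n = a + i by omega]

private theorem qn_mul (q : R) (m : ℕ) : (1 - q) * qn q m = 1 - q ^ m := by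
  unfold qn
  rw [mul_comm]
  have := geom_sum_mul_neg q m
  exact this

private theorem fh_zero (q : R) (x : Fin N → R) (j : Fin N) : fh q x 0 j = 1 := by
  simp [fh]

end A1Aux

open A1Aux in
/-- TASK A1 -/
theorem t_A1 : S_A1 := by
  intro hOS R _ _ N q hq x n a ha hn j
  have h1q : (1 - q) ≠ 0 := sub_ne_zero.mpr (Ne.symm hq)
  have hO1 : ∀ c, (1 - q) * ∑ i ∈ univ.filter (fun i => i < j), eH q x c i =
      es x c - fh q x c j - eH q x c j := fun c => (hOS R N q x c j).1
  have hO2 : ∀ c, (1 - q) * ∑ i ∈ univ.filter (fun i => j < i), eH q x c i =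
      fh q x c j + q * eH q x c j - q ^ c * es x c := fun c => (hOS R N q x c j).2.1
  -- the two sums
  have hd : dmi (iot q (bt q x n a)) j =
      q * ∑ i ∈ univ.filter (fun i => i < j), bt q x n a i j +
        ∑ i ∈ univ.filter (fun i => j < i), bt q x n a j i := by
    have e1 : ∀ i ∈ (univ : Finset (Fin N)).erase j, iot q (bt q x n a) i j =
        (if i < j then q * bt q x n a i j else 0) + (if j < i then bt q x n a j i else 0) := by
      intro i _
      unfold iot
      by_cases h1 : i < j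
      · have h2 : ¬ j < i := not_lt.mpr h1.le
        rw [if_pos h1, if_pos h1, if_neg h2, add_zero]
      · rw [if_neg h1, if_neg h1, zero_add]
    unfold dmi
    rw [sum_congr rfl e1, sum_erase _ (by simp), sum_add_distrib, ← sum_filter, ← sum_filter,
      mul_sum]
  set E : ℕ → R := fun c => eH q x c j with hE
  set f : ℕ → R := fun c => fh q x c j with hf
  set e : ℕ → R := fun c => es x c with he
  have hEf : ∀ c, E (c + 1) = x j * f c := fun c => eH_eq q x c j
  have hE0 : E 0 = 0 := eH_zero q x j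
  have hf0 : f 0 = 1 := fh_zero q x j
  have he0 : e 0 = 1 := by simp [he, es]
  have hs1 : (1 - q) * ∑ i ∈ univ.filter (fun i => i < j), bt q x n a i j =
      ∑ i ∈ range a, (q ^ i * ((e (i + 1) - f (i + 1) - E (i + 1)) * E (n - (i + 1))) +
        q ^ (a + i) * ((e (n - a + i) - f (n - a + i) - E (n - a + i)) *
          E (n - (n - a + i)))) := by
    rw [← wsum q n a hn (fun r => (e r - f r - E r) * E (n - r))]
    have e1 : ∀ i ∈ univ.filter (fun i : Fin N => i < j), bt q x n a i j =
        ∑ r ∈ Ico 1 n, ((if r ≤ a then q ^ (r - 1) else 0) +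
          (if n ≤ r + a then q ^ (2 * a + r - n) else 0)) * eH q x r i * eH q x (n - r) j := by
      intro i hi
      unfold bt
      rw [if_pos (mem_filter.1 hi).2]
    rw [sum_congr rfl e1, sum_comm, mul_sum]
    refine sum_congr rfl fun r _ => ?_
    rw [← hO1 r, ← sum_mul, ← mul_sum]
    ring
  have hs2 : (1 - q) * ∑ i ∈ univ.filter (fun i => j < i), bt q x n a j i =
      ∑ i ∈ range a, (q ^ i * (E (i + 1) * (f (n - (i + 1)) + q * E (n - (i + 1)) -
          q ^ (n - (i + 1)) * e (n - (i + 1)))) +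
        q ^ (a + i) * (E (n - a + i) * (f (n - (n - a + i)) + q * E (n - (n - a + i)) -
          q ^ (n - (n - a + i)) * e (n - (n - a + i))))) := by
    rw [← wsum q n a hn (fun r => E r * (f (n - r) + q * E (n - r) - q ^ (n - r) * e (n - r)))]
    have e1 : ∀ i ∈ univ.filter (fun i : Fin N => j < i), bt q x n a j i =
        ∑ r ∈ Ico 1 n, ((if r ≤ a then q ^ (r - 1) else 0) +
          (if n ≤ r + a then q ^ (2 * a + r - n) else 0)) * eH q x r j * eH q x (n - r) i := by
      intro i hi
      unfold bt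
      rw [if_pos (mem_filter.1 hi).2]
    rw [sum_congr rfl e1, sum_comm, mul_sum]
    refine sum_congr rfl fun r _ => ?_
    rw [← hO2 (n - r), ← mul_sum]
    ring
  have hL : (1 - q) * dmi (iot q (bt q x n a)) j =
      ∑ i ∈ range a, (q ^ (i + 1) * e (i + 1) * E (n - 1 - i) -
          q ^ (n - 1) * e (n - 1 - i) * E (i + 1) +
        (q ^ (a + i + 1) * e (n - a + i) * E (a - i) - q ^ (2 * a) * e (a - i) * E (n - a + i))) +
      (1 - q ^ (2 * a)) * E n := by
    set P : ℕ → R := fun i => q ^ i * f i * f (n - 1 - i) with hP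
    set Q' : ℕ → R := fun i => q ^ (a + i) * f (n - a + i - 1) * f (a - i) with hQ
    have hT : ∑ i ∈ range a, (x j * (P i - P (i + 1)) + x j * (Q' i - Q' (i + 1))) =
        (1 - q ^ (2 * a)) * E n := by
      rw [sum_add_distrib, ← mul_sum, ← mul_sum, sum_range_sub', sum_range_sub']
      obtain ⟨n', rfl⟩ : ∃ n', n = n' + 1 := ⟨n - 1, by omega⟩
      rw [hEf]
      simp only [hP, hQ]
      rw [show n' + 1 - 1 - 0 = n' by omega, show n' + 1 - 1 - a = n' - a by omega,
        show n' + 1 - a + 0 - 1 = n' - a by omega, show a - 0 = a by omega,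
        show n' + 1 - a + a - 1 = n' by omega, show a - a = 0 by omega, hf0]
      ring
    rw [hd, mul_add, show (1 - q) * (q * ∑ i ∈ univ.filter (fun i => i < j), bt q x n a i j) =
      q * ((1 - q) * ∑ i ∈ univ.filter (fun i => i < j), bt q x n a i j) by ring, hs1, hs2,
      ← hT, mul_sum, ← sum_add_distrib, ← sum_add_distrib]
    refine sum_congr rfl fun i hi => ?_
    have hi' := mem_range.1 hi
    obtain ⟨m, rfl⟩ : ∃ m, n = a + i + 2 + m := ⟨n - (a + i + 2), by omega⟩
    obtain ⟨b, rfl⟩ : ∃ b, a = i + 1 + b := ⟨a - (i + 1), by omega⟩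
    simp only [hP, hQ]
    rw [show i + 1 + b + i + 2 + m - (i + 1) = i + b + 1 + m + 1 by omega,
      show i + 1 + b + i + 2 + m - (i + 1 + b) + i = 2 * i + 1 + m + 1 by omega,
      show i + 1 + b + i + 2 + m - (2 * i + 1 + m + 1) = b + 1 by omega,
      show i + 1 + b + i + 2 + m - 1 - i = i + b + 1 + m + 1 by omega,
      show i + 1 + b - i = b + 1 by omega,
      show i + 1 + b + i + 2 + m - 1 = 2 * i + b + 2 + m by omega,
      show 2 * i + b + 2 + m - (i + 1) = i + b + 1 + m by omega,
      show 2 * i + 1 + m + 1 - 1 = 2 * i + 1 + m by omega,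
      show i + 1 + b + i + 2 + m - (i + 1 + b) + (i + 1) - 1 = 2 * i + 2 + m by omega,
      show i + 1 + b - (i + 1) = b by omega,
      hEf, hEf, hEf, hEf]
    ring
  refine mul_left_cancel₀ h1q ?_
  rw [hL]
  have hR1 : ∑ i ∈ range (a + 1), q ^ i * qn q (2 * a - i) * es x i * eH q x (n - i) j =
      ∑ i ∈ range a, q ^ (i + 1) * qn q (2 * a - (i + 1)) * e (i + 1) * E (n - (i + 1)) +
        qn q (2 * a) * E n := by
    rw [sum_range_succ']
    congr 1
    simp [he, hE, es]
  rw [hR1, mul_add, mul_add, mul_sum, mul_sum]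
  have hx1 : ∑ i ∈ range a, q ^ (n - 1) * e (n - 1 - i) * E (i + 1) =
      ∑ i ∈ range a, q ^ (n - 1) * e (n - a + i) * E (a - i) := by
    rw [← sum_range_reflect]
    refine sum_congr rfl fun i hi => ?_
    have hi' := mem_range.1 hi
    rw [show n - 1 - (a - 1 - i) = n - a + i by omega, show a - 1 - i + 1 = a - i by omega]
  have hx2 : ∑ i ∈ range a, q ^ (2 * a) * e (a - i) * E (n - a + i) =
      ∑ i ∈ range a, q ^ (2 * a) * e (i + 1) * E (n - 1 - i) := by
    rw [← sum_range_reflect]
    refine sum_congr rfl fun i hi => ?_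
    have hi' := mem_range.1 hi
    rw [show a - (a - 1 - i) = i + 1 by omega, show n - a + (a - 1 - i) = n - 1 - i by omega]
  rw [sum_add_distrib, sum_sub_distrib, sum_sub_distrib, hx1, hx2]
  have hy1 : ∑ i ∈ range a, (1 - q) * (q ^ (i + 1) * qn q (2 * a - (i + 1)) * e (i + 1) *
      E (n - (i + 1))) = ∑ i ∈ range a, q ^ (i + 1) * e (i + 1) * E (n - 1 - i) -
        ∑ i ∈ range a, q ^ (2 * a) * e (i + 1) * E (n - 1 - i) := by
    rw [← sum_sub_distrib]
    refine sum_congr rfl fun i hi => ?_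
    have hi' := mem_range.1 hi
    have h2 := qn_mul q (2 * a - (i + 1))
    have h3 : q ^ (2 * a) = q ^ (i + 1) * q ^ (2 * a - (i + 1)) := by
      rw [← pow_add]; congr 1; omega
    rw [show n - (i + 1) = n - 1 - i by omega, h3]
    linear_combination (q ^ (i + 1) * e (i + 1) * E (n - 1 - i)) * h2
  have hy2 : ∑ i ∈ range a, (1 - q) * (q ^ (a + i + 1) * qn q (n - a - 2 - i) *
      es x (n - a + i) * eH q x (a - i) j) =
      ∑ i ∈ range a, q ^ (a + i + 1) * e (n - a + i) * E (a - i) -
        ∑ i ∈ range a, q ^ (n - 1) * e (n - a + i) * E (a - i) := by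
    rw [← sum_sub_distrib]
    refine sum_congr rfl fun i hi => ?_
    have hi' := mem_range.1 hi
    have h2 := qn_mul q (n - a - 2 - i)
    have h3 : q ^ (n - 1) = q ^ (a + i + 1) * q ^ (n - a - 2 - i) := by
      rw [← pow_add]; congr 1; omega
    rw [h3]
    linear_combination (q ^ (a + i + 1) * e (n - a + i) * E (a - i)) * h2
  rw [hy1, hy2, ← mul_assoc, qn_mul q (2 * a)]
  ring

end Pool.Agent.SWD
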