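import Pool.Agent.Lib.MP_263316_co.CB.Spec
import Pool.Agent.Lib.MP_263316_co.RK

/-!
MP_263316_co, part CB: TASK A2 (forget the first mark of `C_n`).
-/

set_option autoImplicit false

namespace Pool.Agent.SWD

open Finset Pool.Agent.SWC Pool.Agent.SWB

namespace A2Aux

/-- exchange of sums inside a set `S` -/
private theorem pc {R : Type} [CommRing R] {N : ℕ} (S : Finset (Fin N)) (r : ℕ)
    (f : Fin N → Finset (Fin N) → R) :
    ∑ k ∈ S, ∑ C ∈ powersetCard r (S.erase k), f k C =
      ∑ C' ∈ powersetCard (r + 1) S, ∑ k ∈ C', f k (C'.erase k) := by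
  rw [Finset.sum_sigma', Finset.sum_sigma']
  refine Finset.sum_bij'
    (fun p _ => (⟨insert p.1 p.2, p.1⟩ : (_ : Finset (Fin N)) × Fin N))
    (fun p _ => (⟨p.2, p.1.erase p.2⟩ : (_ : Fin N) × Finset (Fin N))) ?_ ?_ ?_ ?_ ?_
  · rintro ⟨k, C⟩ h
    simp only [Finset.mem_sigma, Finset.mem_powersetCard] at h
    have hk : k ∉ C := fun h' => Finset.notMem_erase k _ (h.2.1 h')
    simp only [Finset.mem_sigma, Finset.mem_powersetCard, Finset.mem_insert_self, and_true]
    refine ⟨?_, by rw [Finset.card_insert_of_notMem hk, h.2.2]⟩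
    intro i hi
    rcases Finset.mem_insert.1 hi with rfl | hi
    · exact h.1
    · exact Finset.mem_of_mem_erase (h.2.1 hi)
  · rintro ⟨C, k⟩ h
    simp only [Finset.mem_sigma, Finset.mem_powersetCard] at h
    simp only [Finset.mem_sigma, Finset.mem_powersetCard]
    refine ⟨h.1.1 h.2, Finset.erase_subset_erase _ h.1.1, ?_⟩
    rw [Finset.card_erase_of_mem h.2, h.1.2]
    rfl
  · rintro ⟨k, C⟩ h
    simp only [Finset.mem_sigma, Finset.mem_powersetCard] at h
    have hk : k ∉ C := fun h' => Finset.notMem_erase k _ (h.2.1 h')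
    simp only [Finset.erase_insert hk]
  · rintro ⟨C, k⟩ h
    simp only [Finset.mem_sigma, Finset.mem_powersetCard] at h
    simp only [Finset.insert_erase h.2]
  · rintro ⟨k, C⟩ h
    simp only [Finset.mem_sigma, Finset.mem_powersetCard] at h
    have hk : k ∉ C := fun h' => Finset.notMem_erase k _ (h.2.1 h')
    simp only [Finset.erase_insert hk]

/-- product of the weights of the colours smaller than `i` -/
private theorem prod_wq {R : Type} [CommRing R] {N : ℕ} (q : R) (C : Finset (Fin N)) (i : Fin N) :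
    ∏ k ∈ C, wq q k i = q ^ (C.filter (fun k => k < i)).card := by
  simp only [wq]
  rw [Finset.prod_ite, Finset.prod_const, Finset.prod_const_one, mul_one]

/-- the terms of the sum -/
private theorem term {R : Type} [CommRing R] {N : ℕ} (q : R) (x : Fin N → R) (n : ℕ) (i j : Fin N)
    (hij : i ≠ j) : iot q (Cn q x (n + 2)) i j =
      x j * ∑ C ∈ powersetCard n ((univ.erase j).erase i),
        (x i * wq q i j) * (∏ k ∈ C, (x k * wq q k j)) *
          q ^ (C.filter (fun k => k < i)).card := by
  have h2 : 2 ≤ n + 2 := by omega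
  rw [mul_sum]
  rcases lt_or_gt_of_ne hij with h | h
  · rw [iot, if_pos h, Cn, if_pos ⟨h, h2⟩, wq_lt h, Nat.add_sub_cancel, mul_sum, mul_sum,
      Finset.erase_right_comm]
    refine Finset.sum_congr rfl fun C _ => ?_
    rw [← prod_wq, show (∏ k ∈ C, (x k * wq q k i * wq q k j)) =
      (∏ k ∈ C, (x k * wq q k j)) * ∏ k ∈ C, wq q k i by
        rw [← Finset.prod_mul_distrib]
        exact Finset.prod_congr rfl fun k _ => by ring]
    ring
  · rw [iot, if_neg (not_lt_of_gt h), if_pos h, Cn, if_pos ⟨h, h2⟩, wq_ge h.le,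
      Nat.add_sub_cancel, mul_sum]
    refine Finset.sum_congr rfl fun C _ => ?_
    rw [← prod_wq, show (∏ k ∈ C, (x k * wq q k j * wq q k i)) =
      (∏ k ∈ C, (x k * wq q k j)) * ∏ k ∈ C, wq q k i by
        rw [← Finset.prod_mul_distrib]]
    ring

end A2Aux

open A2Aux in
/-- TASK A2 -/
theorem t_A2 : S_A2 := by
  intro R _ N q x n j
  by_cases hn : n < 2
  · have h0 : qn q (n - 1) = 0 := by
      rw [show n - 1 = 0 by omega]
      simp [qn]
    rw [h0, zero_mul]
    unfold dmi
    refine Finset.sum_eq_zero fun i _ => ?_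
    simp only [iot, Cn_small hn, mul_zero, ite_self]
  · obtain ⟨n, rfl⟩ : ∃ k, n = k + 2 := ⟨n - 2, by omega⟩
    unfold dmi
    rw [Finset.sum_congr rfl fun i hi => term q x n i j (Finset.ne_of_mem_erase hi), ← mul_sum,
      pc (univ.erase j) n (fun i C => (x i * wq q i j) * (∏ k ∈ C, (x k * wq q k j)) *
          q ^ (C.filter (fun k => k < i)).card),
      show n + 2 = (n + 1) + 1 from rfl, eH_succ, eh, Nat.add_sub_cancel]
    rw [mul_left_comm (qn q (n + 1)) (x j), mul_sum (powersetCard (n + 1) (univ.erase j)) _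
      (qn q (n + 1))]
    refine congrArg (fun z => x j * z) (Finset.sum_congr rfl fun C hC => ?_)
    have h1 : ∀ i ∈ C, (x i * wq q i j) * (∏ k ∈ C.erase i, (x k * wq q k j)) *
        q ^ ((C.erase i).filter (fun k => k < i)).card =
        (∏ k ∈ C, (x k * wq q k j)) * q ^ (C.filter (fun k => k < i)).card := by
      intro i hi
      rw [Finset.mul_prod_erase C (fun k => x k * wq q k j) hi]
      congr 3
      ext k
      simp only [Finset.mem_filter, Finset.mem_erase]
      constructor
      · exact fun h => ⟨h.1.2, h.2⟩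
      · exact fun h => ⟨⟨ne_of_lt h.2, h.1⟩, h.2⟩
    rw [Finset.sum_congr rfl h1, ← mul_sum, t_RK, (Finset.mem_powersetCard.1 hC).2, mul_comm]
    congr 1
    refine Finset.prod_congr rfl fun k _ => ?_
    unfold wq
    split_ifs <;> ring

end Pool.Agent.SWD
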