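import Pool.Agent.Lib.MP_263316_co.CB.Spec
import Pool.Agent.Lib.MP_263316_co.RK
import Pool.Agent.Lib.MP_263316_co.W1

/-!
MP_263316_co, part CB: TASK A3 (the operator `LL` on `C_n`).
-/

set_option autoImplicit false

namespace Pool.Agent.SWD

open Finset Pool.Agent.SWC Pool.Agent.SWB

namespace A3Aux

/-- exchange of sums inside a set `S` -/
private theorem pc {R : Type} [CommRing R] {N : ℕ} (S : Finset (Fin N)) (r : ℕ)
    (f : Fin N → Finset (Fin N) → R) :
    ∑ k ∈ S, ∑ C ∈ powersetCard r (S.erase k), f k C =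
      ∑ C' ∈ powersetCard (r + 1) S, ∑ k ∈ C', f k (C'.erase k) := by
  rw [Finset.sum_sigma', Finset.sum_sigma']
  refine Finset.sum_bij'
    (fun p _ => (⟨insert p.1 p.2, p.1⟩ : (_ : Finset (Fin N)) × Fin N))
    (fun p _ => (⟨p.2, p.1.erase p.2⟩ : (_ : Fin N) × Finset (Fin N))) ?_ ?_ ?_ ?_ ?_
  · rintro ⟨k, C⟩ h
    simp only [Finset.mem_sigma, Finset.mem_powersetCard] at h
    have hk : k ∉ C := fun h' => Finset.notMem_erase k _ (h.2.1 h')
    simp only [Finset.mem_sigma, Finset.mem_powersetCard, Finset.mem_insert_self, and_true]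
    refine ⟨?_, by rw [Finset.card_insert_of_notMem hk, h.2.2]⟩
    intro i hi
    rcases Finset.mem_insert.1 hi with rfl | hi
    · exact h.1
    · exact Finset.mem_of_mem_erase (h.2.1 hi)
  · rintro ⟨C, k⟩ h
    simp only [Finset.mem_sigma, Finset.mem_powersetCard] at h
    simp only [Finset.mem_sigma, Finset.mem_powersetCard]
    refine ⟨h.1.1 h.2, Finset.erase_subset_erase _ h.1.1, ?_⟩
    rw [Finset.card_erase_of_mem h.2, h.1.2]
    rfl
  · rintro ⟨k, C⟩ h
    simp only [Finset.mem_sigma, Finset.mem_powersetCard] at h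
    have hk : k ∉ C := fun h' => Finset.notMem_erase k _ (h.2.1 h')
    simp only [Finset.erase_insert hk]
  · rintro ⟨C, k⟩ h
    simp only [Finset.mem_sigma, Finset.mem_powersetCard] at h
    simp only [Finset.insert_erase h.2]
  · rintro ⟨k, C⟩ h
    simp only [Finset.mem_sigma, Finset.mem_powersetCard] at h
    have hk : k ∉ C := fun h' => Finset.notMem_erase k _ (h.2.1 h')
    simp only [Finset.erase_insert hk]

/-- product of the weights of the colours smaller than `i` -/
private theorem prod_wq {R : Type} [CommRing R] {N : ℕ} (q : R) (C : Finset (Fin N)) (i : Fin N) :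
    ∏ k ∈ C, wq q k i = q ^ (C.filter (fun k => k < i)).card := by
  simp only [wq]
  rw [Finset.prod_ite, Finset.prod_const, Finset.prod_const_one, mul_one]

/-- the terms of the sum -/
private theorem term {R : Type} [CommRing R] {N : ℕ} (q : R) (x : Fin N → R) (n : ℕ) (i j : Fin N)
    (hij : i ≠ j) : iot q (Cn q x (n + 2)) i j =
      x j * ∑ C ∈ powersetCard n ((univ.erase j).erase i),
        (x i * wq q i j) * (∏ k ∈ C, (x k * wq q k j)) *
          q ^ (C.filter (fun k => k < i)).card := by
  have h2 : 2 ≤ n + 2 := by omega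
  rw [mul_sum]
  rcases lt_or_gt_of_ne hij with h | h
  · rw [iot, if_pos h, Cn, if_pos ⟨h, h2⟩, wq_lt h, Nat.add_sub_cancel, mul_sum, mul_sum,
      Finset.erase_right_comm]
    refine Finset.sum_congr rfl fun C _ => ?_
    rw [← prod_wq, show (∏ k ∈ C, (x k * wq q k i * wq q k j)) =
      (∏ k ∈ C, (x k * wq q k j)) * ∏ k ∈ C, wq q k i by
        rw [← Finset.prod_mul_distrib]
        exact Finset.prod_congr rfl fun k _ => by ring]
    ring
  · rw [iot, if_neg (not_lt_of_gt h), if_pos h, Cn, if_pos ⟨h, h2⟩, wq_ge h.le,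
      Nat.add_sub_cancel, mul_sum]
    refine Finset.sum_congr rfl fun C _ => ?_
    rw [← prod_wq, show (∏ k ∈ C, (x k * wq q k j * wq q k i)) =
      (∏ k ∈ C, (x k * wq q k j)) * ∏ k ∈ C, wq q k i by
        rw [← Finset.prod_mul_distrib]]
    ring

end A3Aux

open A3Aux in
/-- TASK A3 -/
theorem t_A3 : S_A3 := by
  intro R _ N q x n hn j k
  obtain ⟨m, rfl⟩ : ∃ m, n = m + 2 := ⟨n - 2, by omega⟩
  rw [Nat.add_sub_cancel]
  by_cases hjk : j = k
  · subst hjk
    simp [LL, dpl, iot]
  have hkj : k ∈ (univ : Finset (Fin N)).erase j := by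
    rw [mem_erase]
    exact ⟨fun h => hjk h.symm, mem_univ k⟩
  -- the sum over the first mark
  have h1 : ∑ i ∈ (univ.erase j).erase k, iot q (Cn q x (m + 2)) i j * wq q i k =
      x j * ∑ C ∈ powersetCard (m + 1) (univ.erase j),
        (∏ c ∈ C, (x c * wq q c j)) * (q * qn q m +
          (if k ∈ C then 0 else q ^ (C.filter (fun i => i < k)).card)) := by
    have h2 : ∑ i ∈ (univ.erase j).erase k, iot q (Cn q x (m + 2)) i j * wq q i k =
        ∑ i ∈ univ.erase j, iot q (Cn q x (m + 2)) i j * (if i = k then 0 else wq q i k) := by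
      rw [← add_sum_erase _ _ hkj, if_pos rfl, mul_zero, zero_add]
      refine sum_congr rfl fun i hi => ?_
      rw [if_neg (mem_erase.1 hi).1]
    have h3 : ∀ i ∈ univ.erase j, iot q (Cn q x (m + 2)) i j *
        (if i = k then 0 else wq q i k) =
        x j * ∑ C ∈ powersetCard m ((univ.erase j).erase i),
          (x i * wq q i j) * (∏ k ∈ C, (x k * wq q k j)) *
            q ^ (C.filter (fun k => k < i)).card * (if i = k then 0 else wq q i k) := by
      intro i hi
      rw [term q x m i j (ne_of_mem_erase hi), mul_assoc, sum_mul]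
    rw [h2, sum_congr rfl h3, ← mul_sum,
      pc (univ.erase j) m (fun i C => (x i * wq q i j) * (∏ k ∈ C, (x k * wq q k j)) *
            q ^ (C.filter (fun k => k < i)).card * (if i = k then 0 else wq q i k))]
    congr 1
    refine sum_congr rfl fun C hC => ?_
    have h4 : ∀ i ∈ C, (x i * wq q i j) * (∏ k ∈ C.erase i, (x k * wq q k j)) *
        q ^ ((C.erase i).filter (fun k => k < i)).card * (if i = k then 0 else wq q i k) =
        (∏ k ∈ C, (x k * wq q k j)) * (q ^ (C.filter (fun k => k < i)).card *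
          W0Aux.pp q i k) := by
      intro i hi
      rw [Finset.mul_prod_erase C (fun k => x k * wq q k j) hi, mul_assoc]
      congr 2
      congr 2
      ext k
      simp only [Finset.mem_filter, Finset.mem_erase]
      constructor
      · exact fun h => ⟨h.1.2, h.2⟩
      · exact fun h => ⟨⟨ne_of_lt h.2, h.1⟩, h.2⟩
    rw [sum_congr rfl h4, ← mul_sum,
      W1Aux.key t_RK q C m (Finset.mem_powersetCard.1 hC).2 k]
    rfl
  -- the first part
  have h5 : x j * ∑ C ∈ powersetCard (m + 1) (univ.erase j), ∏ c ∈ C, (x c * wq q c j) =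
      eH q x (m + 2) j := by
    rw [eH_succ]
    unfold eh
    congr 1
    refine sum_congr rfl fun C _ => prod_congr rfl fun c _ => ?_
    unfold wq
    split_ifs <;> ring
  -- the second part
  have h6 : x k * wq q j k * (x j * ∑ C ∈ powersetCard (m + 1) (univ.erase j),
        (∏ c ∈ C, (x c * wq q c j)) *
          (if k ∈ C then 0 else q ^ (C.filter (fun i => i < k)).card)) =
      iot q (Cn q x (m + 1 + 2)) j k := by
    rw [term q x (m + 1) j k hjk]
    have h7 : ∑ C ∈ powersetCard (m + 1) (univ.erase j), (∏ c ∈ C, (x c * wq q c j)) *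
          (if k ∈ C then 0 else q ^ (C.filter (fun i => i < k)).card) =
        ∑ C ∈ powersetCard (m + 1) ((univ.erase k).erase j), (∏ c ∈ C, (x c * wq q c j)) *
          q ^ (C.filter (fun i => i < k)).card := by
      rw [Finset.erase_right_comm]
      rw [← sum_subset (powersetCard_mono (erase_subset k (univ.erase j)))]
      · refine sum_congr rfl fun C hC => ?_
        have h8 : k ∉ C := fun h => notMem_erase k _ ((mem_powersetCard.1 hC).1 h)
        rw [if_neg h8]
      · intro C hC hC'
        have h8 : k ∈ C := by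
          by_contra h
          apply hC'
          rw [mem_powersetCard] at hC ⊢
          refine ⟨fun i hi => mem_erase.2 ⟨?_, hC.1 hi⟩, hC.2⟩
          rintro rfl
          exact h hi
        rw [if_pos h8, mul_zero]
    rw [h7, mul_sum, mul_sum, mul_sum]
    refine sum_congr rfl fun C _ => ?_
    rw [← prod_wq, ← prod_wq, prod_mul_distrib, prod_mul_distrib]
    ring
  have h9 : dpl q x (eH q x (m + 2)) j k = eH q x (m + 2) j * (x k * wq q j k) := if_neg hjk
  unfold LL
  rw [if_neg hjk, h1, h9, ← h5, ← h6]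
  simp only [mul_add, sum_add_distrib]
  rw [← sum_mul]
  ring

end Pool.Agent.SWD
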