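import Pool.Agent.Lib.MP_263316_co.CB.Spec

/-!
MP_263316_co, part CB: the operator `LL` on `dpl` (TASK A4).
-/

set_option autoImplicit false

namespace Pool.Agent.SWD

open Finset Pool.Agent.SWC Pool.Agent.SWB

namespace A4Aux

variable {R : Type} [CommRing R] {N : ℕ}

private theorem split1 (q : R) (F : Fin N → R) {j k : Fin N} (h : j < k) :
    ∑ i ∈ (univ.erase j).erase k, F i * wq q i k =
      q * ∑ i ∈ univ.filter (fun i => i < j), F i +
      q * ∑ i ∈ univ.filter (fun i => j < i ∧ i < k), F i +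
      ∑ i ∈ univ.filter (fun i => k < i), F i := by
  rw [mul_sum, mul_sum, sum_filter, sum_filter, sum_filter, ← sum_add_distrib,
    ← sum_add_distrib]
  rw [← sum_subset (subset_univ ((univ.erase j).erase k))]
  · refine sum_congr rfl fun i hi => ?_
    rw [mem_erase, mem_erase] at hi
    rcases lt_trichotomy i k with h1 | h1 | h1
    · rcases lt_trichotomy i j with h2 | h2 | h2
      · rw [wq_lt h1, if_pos h2, if_neg (fun h' => lt_asymm h2 h'.1), if_neg (lt_asymm h1)]
        ring
      · exact absurd h2 hi.2.1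
      · rw [wq_lt h1, if_neg (lt_asymm h2), if_pos ⟨h2, h1⟩, if_neg (lt_asymm h1)]
        ring
    · exact absurd h1 hi.1
    · rw [wq_ge h1.le, if_neg (lt_asymm (h.trans h1)), if_neg (fun h' => lt_asymm h1 h'.2),
        if_pos h1]
      ring
  · intro i _ hi
    have h3 : i = j ∨ i = k := by
      by_contra h'
      rw [not_or] at h'
      exact hi (by simp [h'.1, h'.2])
    rcases h3 with rfl | rfl
    · simp [lt_asymm h]
    · simp [lt_asymm h]

private theorem fh_zero (q : R) (x : Fin N → R) (j : Fin N) : fh q x 0 j = 1 := by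
  simp [fh]

private theorem two (hOS : S_OS) (q : R) (x : Fin N → R) (n : ℕ) {a b : Fin N} (h : a < b) :
    (1 - q) * ∑ i ∈ (univ.erase a).erase b, eH q x n i * wq q i a * wq q i b =
      (q ^ 2 - q ^ n) * es x n + (q - q ^ 2) * fh q x n a + (1 - q) * fh q x n b := by
  rw [split1 q (fun i => eH q x n i * wq q i a) h]
  have e1 : ∑ i ∈ univ.filter (fun i => i < a), eH q x n i * wq q i a =
      q * ∑ i ∈ univ.filter (fun i => i < a), eH q x n i := by
    rw [mul_sum]
    refine sum_congr rfl fun i hi => ?_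
    rw [wq_lt (mem_filter.1 hi).2, mul_comm]
  have e2 : ∑ i ∈ univ.filter (fun i => a < i ∧ i < b), eH q x n i * wq q i a =
      ∑ i ∈ univ.filter (fun i => a < i ∧ i < b), eH q x n i := by
    refine sum_congr rfl fun i hi => ?_
    rw [wq_ge (mem_filter.1 hi).2.1.le, mul_one]
  have e3 : ∑ i ∈ univ.filter (fun i => b < i), eH q x n i * wq q i a =
      ∑ i ∈ univ.filter (fun i => b < i), eH q x n i := by
    refine sum_congr rfl fun i hi => ?_
    rw [wq_ge (h.trans (mem_filter.1 hi).2).le, mul_one]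
  rw [e1, e2, e3]
  have h1 := (hOS R N q x n a).1
  have h2 := (hOS R N q x n a).2.2 b h
  have h3 := (hOS R N q x n b).2.1
  linear_combination q ^ 2 * h1 + q * h2 + h3

private theorem bt1 (q : R) (x : Fin N → R) (n : ℕ) (hn : 1 ≤ n) {a b : Fin N} (h : a < b) :
    bt q x (n + 2) 1 a b = x a * x b * (fh q x n b + q * fh q x n a) := by
  unfold bt
  rw [if_pos h, sum_Ico_succ_top (by omega), ← sum_Ico_consecutive _ (by omega : 1 ≤ 2)
    (by omega : 2 ≤ n + 1)]
  have e1 : ∑ r ∈ Ico 2 (n + 1), ((if r ≤ 1 then q ^ (r - 1) else 0) +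
      (if n + 2 ≤ r + 1 then q ^ (2 * 1 + r - (n + 2)) else 0)) * eH q x r a *
      eH q x (n + 2 - r) b = 0 := by
    refine sum_eq_zero fun r hr => ?_
    rw [mem_Ico] at hr
    rw [if_neg (by omega), if_neg (by omega), add_zero, zero_mul, zero_mul]
  have e2 : n + 2 - 1 = n + 1 := by omega
  have e3 : n + 2 - (n + 1) = 0 + 1 := by omega
  have e4 : 2 * 1 + (n + 1) - (n + 2) = 1 := by omega
  have e5 : Ico 1 2 = {1} := rfl
  rw [e1, e5, sum_singleton, e2, e3, e4, if_pos le_rfl, if_neg (by omega), if_neg (by omega),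
    if_pos (by omega)]
  rw [eH_one, eH_eq, eH_eq, eH_eq, fh_zero]
  simp only [Nat.sub_self, pow_zero, pow_one]
  ring

private theorem Cn2 (q : R) (x : Fin N → R) {a b : Fin N} (h : a < b) :
    Cn q x 2 a b = x a * x b := by
  unfold Cn
  rw [if_pos ⟨h, le_rfl⟩, Nat.sub_self, powersetCard_zero, sum_singleton, prod_empty, mul_one]

private theorem Cn3 (q : R) (x : Fin N → R) {a b : Fin N} (h : a < b) :
    Cn q x 3 a b = x a * x b *
      ∑ i ∈ (univ.erase a).erase b, x i * wq q i a * wq q i b := by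
  unfold Cn
  rw [if_pos ⟨h, by omega⟩, show 3 - 2 = 1 from rfl, powersetCard_one, sum_map]
  congr 1
  refine sum_congr rfl fun i _ => ?_
  simp

end A4Aux

open A4Aux in
/-- TASK A4 -/
theorem t_A4 : S_A4 := by
  intro hOS R _ _ N q hq x j k
  have h1q : (1 - q) ≠ 0 := sub_ne_zero.mpr (Ne.symm hq)
  have hqn : ∀ m : ℕ, (1 - q) * qn q m = 1 - q ^ m := by
    intro m
    unfold qn
    exact mul_neg_geom_sum q m
  have hL : ∀ n : ℕ, j ≠ k → LL q x (dpl q x (eH q x n)) j k =
      x k * wq q j k * (x j * ∑ i ∈ (univ.erase j).erase k,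
        eH q x n i * wq q i j * wq q i k) := by
    intro n hjk
    unfold LL
    rw [if_neg hjk]
    congr 1
    rw [mul_sum]
    refine sum_congr rfl fun i hi => ?_
    have h1 : i ≠ j := (mem_erase.1 (mem_erase.1 hi).2).1
    unfold dpl
    rw [if_neg h1]
    ring
  have hS : ∀ n : ℕ, ∑ i ∈ (univ.erase j).erase k, eH q x n i * wq q i j * wq q i k =
      ∑ i ∈ (univ.erase k).erase j, eH q x n i * wq q i k * wq q i j := by
    intro n
    rw [Finset.erase_right_comm]
    refine sum_congr rfl fun i _ => ?_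
    ring
  rcases lt_trichotomy j k with h | h | h
  · constructor
    · intro n hn
      obtain ⟨m, rfl⟩ : ∃ m, n = m + 2 := ⟨n - 2, by omega⟩
      rw [hL _ h.ne, wq_lt h, Nat.add_sub_cancel]
      unfold iot
      rw [if_pos h, if_pos h, bt1 q x _ (by omega) h, Cn2 q x h]
      apply mul_left_cancel₀ h1q
      have h2 := two hOS q x (m + 2) h
      have h3 := hqn m
      linear_combination x k * q * x j * h2 - q ^ 2 * es x (m + 2) * (q * (x j * x k)) * h3
    · rw [hL _ h.ne, wq_lt h]
      unfold iot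
      rw [if_pos h, Cn3 q x h]
      simp only [eH_one]
      ring
  · subst h
    constructor
    · intro n hn
      simp [LL, iot]
    · simp [LL, iot]
  · constructor
    · intro n hn
      obtain ⟨m, rfl⟩ : ∃ m, n = m + 2 := ⟨n - 2, by omega⟩
      rw [hL _ h.ne', wq_ge h.le, Nat.add_sub_cancel, hS]
      unfold iot
      rw [if_neg (lt_asymm h), if_neg (lt_asymm h), if_pos h, if_pos h,
        bt1 q x _ (by omega) h, Cn2 q x h]
      apply mul_left_cancel₀ h1q
      have h2 := two hOS q x (m + 2) h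
      have h3 := hqn m
      linear_combination x k * x j * h2 - q ^ 2 * es x (m + 2) * (x j * x k) * h3
    · rw [hL _ h.ne', wq_ge h.le, hS]
      unfold iot
      rw [if_neg (lt_asymm h), if_pos h, Cn3 q x h]
      simp only [eH_one]
      ring

end Pool.Agent.SWD
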