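import Pool.Agent.Lib.MP_263316_co.CB.Spec

/-!
MP_263316_co, part CB: the operator `LL` on `beta(n,a)` (TASK A5a).
-/

set_option autoImplicit false

namespace Pool.Agent.SWD

open Finset Pool.Agent.SWC Pool.Agent.SWB

namespace A5aAux

section sums

variable {R : Type} [CommRing R]

private theorem low {n a : ℕ} (h : a + 1 ≤ n) (u G : ℕ → R) :
    ∑ r ∈ Ico 1 n, (if r ≤ a then u r else 0) * G r =
      ∑ i ∈ range a, u (i + 1) * G (i + 1) := by
  rw [← sum_Ico_consecutive _ (by omega : 1 ≤ a + 1) h]
  have e1 : ∑ r ∈ Ico (a + 1) n, (if r ≤ a then u r else 0) * G r = 0 := by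
    refine sum_eq_zero fun r hr => ?_
    rw [mem_Ico] at hr
    rw [if_neg (by omega), zero_mul]
  rw [e1, add_zero, sum_Ico_eq_sum_range, Nat.add_sub_cancel]
  refine sum_congr rfl fun i hi => ?_
  rw [mem_range] at hi
  rw [add_comm 1 i, if_pos (by omega)]

private theorem high {n a : ℕ} (h : a + 1 ≤ n) (u G : ℕ → R) :
    ∑ r ∈ Ico 1 n, (if n ≤ r + a then u r else 0) * G r =
      ∑ i ∈ range a, u (n - a + i) * G (n - a + i) := by
  rw [← sum_Ico_consecutive _ (by omega : 1 ≤ n - a) (by omega : n - a ≤ n)]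
  have e1 : ∑ r ∈ Ico 1 (n - a), (if n ≤ r + a then u r else 0) * G r = 0 := by
    refine sum_eq_zero fun r hr => ?_
    rw [mem_Ico] at hr
    rw [if_neg (by omega), zero_mul]
  have e2 : n - (n - a) = a := by omega
  rw [e1, zero_add, sum_Ico_eq_sum_range, e2]
  refine sum_congr rfl fun i hi => ?_
  rw [if_pos (by omega)]

/-- the coefficient -/
private def W (q : R) (n a r : ℕ) : R :=
  (if r ≤ a then q ^ (r - 1) else 0) + (if n ≤ r + a then q ^ (2 * a + r - n) else 0)

private theorem Wsum {n a : ℕ} (h : 2 * a + 2 ≤ n) (q : R) (G : ℕ → R) :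
    ∑ r ∈ Ico 1 n, W q n a r * G r =
      ∑ i ∈ range a, q ^ i * G (i + 1) + ∑ i ∈ range a, q ^ (a + i) * G (n - a + i) := by
  unfold W
  simp only [add_mul]
  rw [sum_add_distrib, low (by omega) (fun r => q ^ (r - 1)),
    high (by omega) (fun r => q ^ (2 * a + r - n))]
  congr 1
  refine sum_congr rfl fun i hi => ?_
  rw [mem_range] at hi
  have e : 2 * a + (n - a + i) - n = a + i := by omega
  rw [e]

private theorem tel {n a : ℕ} (h : 2 * a + 2 ≤ n) (q y : R) (E f : ℕ → R)
    (hE : ∀ c, E (c + 1) = y * f c) (hf : f 0 = 1) :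
    ∑ r ∈ Ico 1 n, W q n a r * (E r * f (n - r) - q * f r * E (n - r)) =
      (1 - q ^ (2 * a)) * E n := by
  rw [Wsum h]
  have h1 : ∑ i ∈ range a, q ^ i * (E (i + 1) * f (n - (i + 1)) - q * f (i + 1) * E (n - (i + 1))) =
      y * ∑ i ∈ range a, (q ^ i * (f i * f (n - 1 - i)) -
        q ^ (i + 1) * (f (i + 1) * f (n - 1 - (i + 1)))) := by
    rw [mul_sum]
    refine sum_congr rfl fun i hi => ?_
    rw [mem_range] at hi
    have e1 : n - (i + 1) = (n - 1 - (i + 1)) + 1 := by omega
    have e2 : n - 1 - i = n - (i + 1) := by omega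
    rw [e2, hE i]
    have e3 : E (n - (i + 1)) = y * f (n - 1 - (i + 1)) := by
      rw [← hE, ← e1]
    rw [e3]
    ring
  have h2 : ∑ i ∈ range a, q ^ (a + i) * (E (n - a + i) * f (n - (n - a + i)) -
        q * f (n - a + i) * E (n - (n - a + i))) =
      y * ∑ i ∈ range a, (q ^ (a + i) * (f (n - 1 - a + i) * f (a - i)) -
        q ^ (a + (i + 1)) * (f (n - 1 - a + (i + 1)) * f (a - (i + 1)))) := by
    rw [mul_sum]
    refine sum_congr rfl fun i hi => ?_
    rw [mem_range] at hi
    have e1 : n - (n - a + i) = (a - (i + 1)) + 1 := by omega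
    have e2 : n - a + i = (n - 1 - a + i) + 1 := by omega
    have e3 : E (n - (n - a + i)) = y * f (a - (i + 1)) := by
      rw [← hE, ← e1]
    have e4 : E (n - a + i) = y * f (n - 1 - a + i) := by
      rw [← hE, ← e2]
    have e5 : f (n - (n - a + i)) = f (a - i) := by
      congr 1
      omega
    have e6 : f (n - a + i) = f (n - 1 - a + (i + 1)) := by
      rw [e2, add_assoc]
    rw [e3, e4, e5, e6]
    ring
  rw [h1, h2, sum_range_sub' (fun i => q ^ i * (f i * f (n - 1 - i))),
    sum_range_sub' (fun i => q ^ (a + i) * (f (n - 1 - a + i) * f (a - i)))]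
  have e1 : n - 1 - a + a = n - 1 := by omega
  have e2 : E n = y * f (n - 1) := by
    rw [← hE]
    congr 1
    omega
  rw [e1, e2, Nat.sub_self, Nat.sub_zero, Nat.add_zero, Nat.sub_zero, hf, Nat.add_zero]
  ring

private theorem q_pow (q : R) {i k : ℕ} (m : ℕ) (h : m = i + k) :
    (1 - q) * (q ^ i * qn q k) = q ^ i - q ^ m := by
  have h1 : (1 - q) * qn q k = 1 - q ^ k := by
    unfold qn
    exact mul_neg_geom_sum q k
  rw [mul_left_comm, h1, h, pow_add]
  ring

private theorem col {n a : ℕ} (ha : 1 ≤ a) (h : 2 * a + 2 ≤ n) (q : R) (e E : ℕ → R)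
    (he : e 0 = 1) :
    ∑ r ∈ Ico 1 n, W q n a r * (q ^ 2 * e r * E (n - r) - q ^ (n - r) * e (n - r) * E r) +
      (q - q ^ (2 * a)) * E n =
    (1 - q) * (∑ i ∈ range (a + 1), q ^ (i + 1) * qn q (2 * a - i - 1) * e i * E (n - i) +
      ∑ i ∈ range a, q ^ (a + i + 2) * qn q (n - a - 3 - i) * e (n - a + i) * E (a - i)) := by
  rw [Wsum h, mul_add, mul_sum, mul_sum, sum_range_succ']
  have c0 : (1 - q) * (q ^ (0 + 1) * qn q (2 * a - 0 - 1) * e 0 * E (n - 0)) =
      (q - q ^ (2 * a)) * E n := by
    have e1 := q_pow q (i := 0 + 1) (k := 2 * a - 0 - 1) (2 * a) (by omega)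
    rw [he, Nat.sub_zero n]
    linear_combination E n * e1
  have c1 : ∑ i ∈ range a, (1 - q) * (q ^ (i + 1 + 1) * qn q (2 * a - (i + 1) - 1) * e (i + 1) *
      E (n - (i + 1))) =
      ∑ i ∈ range a, q ^ (i + 2) * e (i + 1) * E (n - (i + 1)) -
        ∑ i ∈ range a, q ^ (2 * a) * e (i + 1) * E (n - (i + 1)) := by
    rw [← sum_sub_distrib]
    refine sum_congr rfl fun i hi => ?_
    rw [mem_range] at hi
    have e1 := q_pow q (i := i + 1 + 1) (k := 2 * a - (i + 1) - 1) (2 * a) (by omega)
    linear_combination e (i + 1) * E (n - (i + 1)) * e1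
  have c2 : ∑ i ∈ range a, (1 - q) * (q ^ (a + i + 2) * qn q (n - a - 3 - i) * e (n - a + i) *
      E (a - i)) =
      ∑ i ∈ range a, q ^ (a + i + 2) * e (n - a + i) * E (a - i) -
        ∑ i ∈ range a, q ^ (n - 1) * e (n - a + i) * E (a - i) := by
    rw [← sum_sub_distrib]
    refine sum_congr rfl fun i hi => ?_
    rw [mem_range] at hi
    have e1 := q_pow q (i := a + i + 2) (k := n - a - 3 - i) (n - 1) (by omega)
    linear_combination e (n - a + i) * E (a - i) * e1
  have d1 : ∑ i ∈ range a, q ^ (n - 1) * e (n - a + i) * E (a - i) =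
      ∑ i ∈ range a, q ^ (n - 1) * e (n - (i + 1)) * E (i + 1) := by
    rw [← sum_range_reflect]
    refine sum_congr rfl fun i hi => ?_
    rw [mem_range] at hi
    have e1 : n - a + (a - 1 - i) = n - (i + 1) := by omega
    have e2 : a - (a - 1 - i) = i + 1 := by omega
    rw [e1, e2]
  have d2 : ∑ i ∈ range a, q ^ (2 * a) * e (i + 1) * E (n - (i + 1)) =
      ∑ i ∈ range a, q ^ (2 * a) * e (a - i) * E (n - a + i) := by
    rw [← sum_range_reflect]
    refine sum_congr rfl fun i hi => ?_
    rw [mem_range] at hi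
    have e1 : a - 1 - i + 1 = a - i := by omega
    have e2 : n - (a - i) = n - a + i := by omega
    rw [e1, e2]
  rw [c0, c1, c2, d1, d2]
  have f1 : ∑ i ∈ range a, q ^ i * (q ^ 2 * e (i + 1) * E (n - (i + 1)) -
      q ^ (n - (i + 1)) * e (n - (i + 1)) * E (i + 1)) =
      ∑ i ∈ range a, q ^ (i + 2) * e (i + 1) * E (n - (i + 1)) -
        ∑ i ∈ range a, q ^ (n - 1) * e (n - (i + 1)) * E (i + 1) := by
    rw [← sum_sub_distrib]
    refine sum_congr rfl fun i hi => ?_
    rw [mem_range] at hi
    have e1 : q ^ (n - 1) = q ^ i * q ^ (n - (i + 1)) := by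
      rw [← pow_add]
      congr 1
      omega
    rw [e1]
    ring
  have f2 : ∑ i ∈ range a, q ^ (a + i) * (q ^ 2 * e (n - a + i) * E (n - (n - a + i)) -
      q ^ (n - (n - a + i)) * e (n - (n - a + i)) * E (n - a + i)) =
      ∑ i ∈ range a, q ^ (a + i + 2) * e (n - a + i) * E (a - i) -
        ∑ i ∈ range a, q ^ (2 * a) * e (a - i) * E (n - a + i) := by
    rw [← sum_sub_distrib]
    refine sum_congr rfl fun i hi => ?_
    rw [mem_range] at hi
    have e0 : n - (n - a + i) = a - i := by omega
    have e1 : q ^ (2 * a) = q ^ (a + i) * q ^ (a - i) := by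
      rw [← pow_add]
      congr 1
      omega
    rw [e0, e1]
    ring
  rw [f1, f2]
  ring

end sums

section split

variable {R : Type} [CommRing R] {N : ℕ}

private theorem split1 (q : R) (F : Fin N → R) {j k : Fin N} (h : j < k) :
    ∑ i ∈ (univ.erase j).erase k, F i * wq q i k =
      q * ∑ i ∈ univ.filter (fun i => i < j), F i +
      q * ∑ i ∈ univ.filter (fun i => j < i ∧ i < k), F i +
      ∑ i ∈ univ.filter (fun i => k < i), F i := by
  rw [mul_sum, mul_sum, sum_filter, sum_filter, sum_filter, ← sum_add_distrib,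
    ← sum_add_distrib]
  rw [← sum_subset (subset_univ ((univ.erase j).erase k))]
  · refine sum_congr rfl fun i hi => ?_
    rw [mem_erase, mem_erase] at hi
    rcases lt_trichotomy i k with h1 | h1 | h1
    · rcases lt_trichotomy i j with h2 | h2 | h2
      · rw [wq_lt h1, if_pos h2, if_neg (fun h' => lt_asymm h2 h'.1), if_neg (lt_asymm h1)]
        ring
      · exact absurd h2 hi.2.1
      · rw [wq_lt h1, if_neg (lt_asymm h2), if_pos ⟨h2, h1⟩, if_neg (lt_asymm h1)]
        ring
    · exact absurd h1 hi.1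
    · rw [wq_ge h1.le, if_neg (lt_asymm (h.trans h1)), if_neg (fun h' => lt_asymm h1 h'.2),
        if_pos h1]
      ring
  · intro i _ hi
    have h3 : i = j ∨ i = k := by
      by_contra h'
      rw [not_or] at h'
      exact hi (by simp [h'.1, h'.2])
    rcases h3 with rfl | rfl
    · simp [lt_asymm h]
    · simp [lt_asymm h]

private theorem split2 (q : R) (F : Fin N → R) {j k : Fin N} (h : k < j) :
    ∑ i ∈ (univ.erase j).erase k, F i * wq q i k =
      q * ∑ i ∈ univ.filter (fun i => i < k), F i +
      ∑ i ∈ univ.filter (fun i => k < i ∧ i < j), F i +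
      ∑ i ∈ univ.filter (fun i => j < i), F i := by
  rw [mul_sum, sum_filter, sum_filter, sum_filter, ← sum_add_distrib,
    ← sum_add_distrib]
  rw [← sum_subset (subset_univ ((univ.erase j).erase k))]
  · refine sum_congr rfl fun i hi => ?_
    rw [mem_erase, mem_erase] at hi
    rcases lt_trichotomy i k with h1 | h1 | h1
    · rw [wq_lt h1, if_pos h1, if_neg (fun h' => lt_asymm h1 h'.1),
        if_neg (lt_asymm (h1.trans h))]
      ring
    · exact absurd h1 hi.1
    · rcases lt_trichotomy i j with h2 | h2 | h2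
      · rw [wq_ge h1.le, if_neg (lt_asymm h1), if_pos ⟨h1, h2⟩, if_neg (lt_asymm h2)]
        ring
      · exact absurd h2 hi.2.1
      · rw [wq_ge h1.le, if_neg (lt_asymm h1), if_neg (fun h' => lt_asymm h2 h'.2), if_pos h2]
        ring
  · intro i _ hi
    have h3 : i = j ∨ i = k := by
      by_contra h'
      rw [not_or] at h'
      exact hi (by simp [h'.1, h'.2])
    rcases h3 with rfl | rfl
    · simp [lt_asymm h]
    · simp [lt_asymm h]

private theorem partL (m : ℕ) (q : R) (x : Fin N → R) (s : Finset (Fin N))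
    (w t G : ℕ → R) (h : ∀ r, (1 - q) * ∑ i ∈ s, eH q x r i = t r) :
    (1 - q) * ∑ i ∈ s, ∑ r ∈ Ico 1 m, w r * eH q x r i * G r =
      ∑ r ∈ Ico 1 m, w r * (t r * G r) := by
  rw [sum_comm, mul_sum]
  refine sum_congr rfl fun r _ => ?_
  rw [← h r, ← sum_mul, ← mul_sum]
  ring

private theorem partR (m n : ℕ) (q : R) (x : Fin N → R) (s : Finset (Fin N))
    (w t G : ℕ → R) (h : ∀ r, (1 - q) * ∑ i ∈ s, eH q x r i = t r) :
    (1 - q) * ∑ i ∈ s, ∑ r ∈ Ico 1 m, w r * G r * eH q x (n - r) i =
      ∑ r ∈ Ico 1 m, w r * (G r * t (n - r)) := by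
  rw [sum_comm, mul_sum]
  refine sum_congr rfl fun r _ => ?_
  rw [← h (n - r), ← mul_sum]
  ring

private theorem fh_zero (q : R) (x : Fin N → R) (j : Fin N) : fh q x 0 j = 1 := by
  simp [fh]

private theorem bt_lt {q : R} {x : Fin N → R} {n a : ℕ} {i j : Fin N} (h : i < j) :
    bt q x n a i j = ∑ r ∈ Ico 1 n, W q n a r * eH q x r i * eH q x (n - r) j := if_pos h

private theorem iot_lt {q : R} {f : Fin N → Fin N → R} {i j : Fin N} (h : i < j) :
    iot q f i j = q * f i j := if_pos h

private theorem iot_gt {q : R} {f : Fin N → Fin N → R} {i j : Fin N} (h : j < i) :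
    iot q f i j = f j i := by
  unfold iot
  rw [if_neg (lt_asymm h), if_pos h]

private theorem bn1 {n a : ℕ} (hn : 2 * a + 2 ≤ n) (q : R) (x : Fin N → R) {j k : Fin N}
    (h : j < k) :
    bn q x n a j k = q * x k * ∑ r ∈ Ico 1 n, W q n a r * (eH q x r j * fh q x (n - r) k) +
      q ^ (2 * a + 1) * x k * eH q x n j := by
  unfold bn
  rw [if_pos h, sum_Ico_succ_top (by omega), mul_sum]
  congr 1
  · refine sum_congr rfl fun r hr => ?_
    rw [mem_Ico] at hr
    have e1 : n + 1 - r = n - r + 1 := by omega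
    rw [e1, eH_eq]
    have e2 : (if r ≤ a then q ^ r else 0) + (if n ≤ r + a then q ^ (2 * a + 1 + r - n) else 0) =
        q * W q n a r := by
      unfold W
      rw [mul_add, mul_ite, mul_ite, mul_zero]
      congr 1
      · split_ifs with h1
        · rw [← pow_succ']
          congr 1
          omega
        · rfl
      · split_ifs with h1
        · rw [← pow_succ']
          congr 1
          omega
        · rfl
    rw [e2]
    ring
  · have e1 : n + 1 - n = 0 + 1 := by omega
    have e2 : 2 * a + 1 + n - n = 2 * a + 1 := by omega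
    rw [e1, eH_eq, fh_zero, if_neg (by omega), if_pos (by omega), e2]
    ring

private theorem bn2 {n a : ℕ} (hn : 2 * a + 2 ≤ n) (q : R) (x : Fin N → R) {j k : Fin N}
    (h : k < j) :
    bn q x n a j k = x k * eH q x n j +
      q * x k * ∑ r ∈ Ico 1 n, W q n a r * (fh q x r k * eH q x (n - r) j) := by
  unfold bn
  obtain ⟨m, rfl⟩ : ∃ m, n = m + 1 := ⟨n - 1, by omega⟩
  rw [if_neg (lt_asymm h), if_pos h, sum_Ico_eq_sum_range, Nat.add_sub_cancel,
    ← sum_range_reflect, sum_range_succ', add_comm]
  congr 1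
  · have e1 : 1 + (m + 1 - 1 - 0) = m + 1 := by omega
    have e2 : m + 1 + 1 - (m + 1) = 0 + 1 := by omega
    have e3 : m + 1 - (m + 1) = 0 := by omega
    rw [e1, e2, e3, eH_eq q x 0 k, fh_zero, if_neg (by omega), if_pos (by omega)]
    ring
  · rw [sum_Ico_eq_sum_range, Nat.add_sub_cancel, mul_sum]
    refine sum_congr rfl fun i hi => ?_
    rw [mem_range] at hi
    have e1 : 1 + (m - (i + 1)) = m - i := by omega
    have e2 : m + 1 + 1 - (m - i) = (1 + i) + 1 := by omega
    have e3 : m + 1 - (1 + i) = m - i := by omega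
    rw [e1, e2, e3, eH_eq]
    have e4 : (if m - i ≤ a then q ^ (2 * a + 1 - (m - i)) else 0) +
        (if m + 1 ≤ m - i + a then q ^ (m + 1 - (m - i)) else 0) = q * W q (m + 1) a (1 + i) := by
      unfold W
      rw [mul_add, mul_ite, mul_ite, mul_zero, add_comm]
      congr 1
      · by_cases h1 : 1 + i ≤ a
        · rw [if_pos h1, if_pos (by omega), ← pow_succ']
          congr 1
          omega
        · rw [if_neg h1, if_neg (by omega)]
      · by_cases h1 : m + 1 ≤ 1 + i + a
        · rw [if_pos h1, if_pos (by omega), ← pow_succ']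
          congr 1
          omega
        · rw [if_neg h1, if_neg (by omega)]
    rw [e4]
    ring

end split

end A5aAux

open A5aAux in
theorem t_A5a : S_A5a := by
  intro hOS R _ _ N q hq x n a ha hn j k
  have h1q : (1 - q) ≠ 0 := sub_ne_zero.mpr (Ne.symm hq)
  have he0 : es x 0 = 1 := es_zero' x
  rcases lt_trichotomy j k with h | h | h
  · have hb : LL q x (iot q (bt q x n a)) j k =
        x k * q * (q * (q * ∑ i ∈ univ.filter (fun i => i < j), bt q x n a i j) +
          q * ∑ i ∈ univ.filter (fun i => j < i ∧ i < k), bt q x n a j i +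
          ∑ i ∈ univ.filter (fun i => k < i), bt q x n a j i) := by
      unfold LL
      rw [if_neg h.ne, wq_lt h, split1 q _ h]
      congr 2
      · congr 2
        · rw [mul_sum]
          refine sum_congr rfl fun i hi => ?_
          rw [mem_filter] at hi
          rw [iot_lt hi.2]
        · refine sum_congr rfl fun i hi => ?_
          rw [mem_filter] at hi
          rw [iot_gt hi.2.1]
      · refine sum_congr rfl fun i hi => ?_
        rw [mem_filter] at hi
        rw [iot_gt (h.trans hi.2)]
    have s1 : (1 - q) * ∑ i ∈ univ.filter (fun i => i < j), bt q x n a i j =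
        ∑ r ∈ Ico 1 n, W q n a r * ((es x r - fh q x r j - eH q x r j) * eH q x (n - r) j) := by
      rw [← partL n q x _ (W q n a) _ (fun r => eH q x (n - r) j)
        (fun r => (hOS R N q x r j).1)]
      congr 1
      refine sum_congr rfl fun i hi => ?_
      rw [mem_filter] at hi
      rw [bt_lt hi.2]
    have s2 : (1 - q) * ∑ i ∈ univ.filter (fun i => j < i ∧ i < k), bt q x n a j i =
        ∑ r ∈ Ico 1 n, W q n a r * (eH q x r j * (fh q x (n - r) j + q * eH q x (n - r) j -
          fh q x (n - r) k - eH q x (n - r) k)) := by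
      rw [← partR n n q x _ (W q n a) (fun r => fh q x r j + q * eH q x r j -
          fh q x r k - eH q x r k) (fun r => eH q x r j)
        (fun r => (hOS R N q x r j).2.2 k h)]
      congr 1
      refine sum_congr rfl fun i hi => ?_
      rw [mem_filter] at hi
      rw [bt_lt hi.2.1]
    have s3 : (1 - q) * ∑ i ∈ univ.filter (fun i => k < i), bt q x n a j i =
        ∑ r ∈ Ico 1 n, W q n a r * (eH q x r j * (fh q x (n - r) k + q * eH q x (n - r) k -
          q ^ (n - r) * es x (n - r))) := by
      rw [← partR n n q x _ (W q n a) (fun r => fh q x r k + q * eH q x r k -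
          q ^ r * es x r) (fun r => eH q x r j)
        (fun r => (hOS R N q x r k).2.1)]
      congr 1
      refine sum_congr rfl fun i hi => ?_
      rw [mem_filter] at hi
      rw [bt_lt (h.trans hi.2)]
    have s4 : q * (q * ∑ r ∈ Ico 1 n, W q n a r *
          ((es x r - fh q x r j - eH q x r j) * eH q x (n - r) j)) +
        q * ∑ r ∈ Ico 1 n, W q n a r * (eH q x r j * (fh q x (n - r) j + q * eH q x (n - r) j -
          fh q x (n - r) k - eH q x (n - r) k)) +
        ∑ r ∈ Ico 1 n, W q n a r * (eH q x r j * (fh q x (n - r) k + q * eH q x (n - r) k -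
          q ^ (n - r) * es x (n - r))) =
        ∑ r ∈ Ico 1 n, W q n a r * (q ^ 2 * es x r * eH q x (n - r) j -
          q ^ (n - r) * es x (n - r) * eH q x r j) +
        q * ∑ r ∈ Ico 1 n, W q n a r * (eH q x r j * fh q x (n - r) j -
          q * fh q x r j * eH q x (n - r) j) +
        (1 - q) * ∑ r ∈ Ico 1 n, W q n a r * (eH q x r j * fh q x (n - r) k) := by
      simp only [mul_sum]
      rw [← sum_add_distrib, ← sum_add_distrib, ← sum_add_distrib, ← sum_add_distrib]
      refine sum_congr rfl fun r _ => ?_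
      ring
    have T := tel hn q (x j) (fun r => eH q x r j) (fun r => fh q x r j)
      (fun c => eH_eq q x c j) (fh_zero q x j)
    have C := col ha hn q (fun r => es x r) (fun r => eH q x r j) he0
    have D : ∀ c : ℕ, dpl q x (eH q x c) j k = q * x k * eH q x c j := by
      intro c
      unfold dpl
      rw [if_neg h.ne, wq_lt h]
      ring
    simp only [D]
    have r1 : ∑ i ∈ range (a + 1), q ^ (i + 1) * qn q (2 * a - i - 1) * es x i *
        (q * x k * eH q x (n - i) j) = q * x k * ∑ i ∈ range (a + 1),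
          q ^ (i + 1) * qn q (2 * a - i - 1) * es x i * eH q x (n - i) j := by
      rw [mul_sum]
      refine sum_congr rfl fun i _ => ?_
      ring
    have r2 : ∑ i ∈ range a, q ^ (a + i + 2) * qn q (n - a - 3 - i) * es x (n - a + i) *
        (q * x k * eH q x (a - i) j) = q * x k * ∑ i ∈ range a,
          q ^ (a + i + 2) * qn q (n - a - 3 - i) * es x (n - a + i) * eH q x (a - i) j := by
      rw [mul_sum]
      refine sum_congr rfl fun i _ => ?_
      ring
    apply mul_left_cancel₀ h1q
    rw [r1, r2, hb, bn1 hn q x h]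
    rw [T] at s4
    linear_combination x k * q * (q * q * s1 + q * s2 + s3 + s4 + C)
  · subst h
    simp [LL, bn, dpl]
  · have hb : LL q x (iot q (bt q x n a)) j k =
        x k * (q * (q * ∑ i ∈ univ.filter (fun i => i < k), bt q x n a i j) +
          q * ∑ i ∈ univ.filter (fun i => k < i ∧ i < j), bt q x n a i j +
          ∑ i ∈ univ.filter (fun i => j < i), bt q x n a j i) := by
      unfold LL
      rw [if_neg h.ne', wq_ge h.le, mul_one, split2 q _ h]
      congr 2
      · congr 2
        · rw [mul_sum]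
          refine sum_congr rfl fun i hi => ?_
          rw [mem_filter] at hi
          rw [iot_lt (hi.2.trans h)]
        · rw [mul_sum]
          refine sum_congr rfl fun i hi => ?_
          rw [mem_filter] at hi
          rw [iot_lt hi.2.2]
      · refine sum_congr rfl fun i hi => ?_
        rw [mem_filter] at hi
        rw [iot_gt hi.2]
    have s1 : (1 - q) * ∑ i ∈ univ.filter (fun i => i < k), bt q x n a i j =
        ∑ r ∈ Ico 1 n, W q n a r * ((es x r - fh q x r k - eH q x r k) * eH q x (n - r) j) := by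
      rw [← partL n q x _ (W q n a) _ (fun r => eH q x (n - r) j)
        (fun r => (hOS R N q x r k).1)]
      congr 1
      refine sum_congr rfl fun i hi => ?_
      rw [mem_filter] at hi
      rw [bt_lt (hi.2.trans h)]
    have s2 : (1 - q) * ∑ i ∈ univ.filter (fun i => k < i ∧ i < j), bt q x n a i j =
        ∑ r ∈ Ico 1 n, W q n a r * ((fh q x r k + q * eH q x r k -
          fh q x r j - eH q x r j) * eH q x (n - r) j) := by
      rw [← partL n q x _ (W q n a) _ (fun r => eH q x (n - r) j)
        (fun r => (hOS R N q x r k).2.2 j h)]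
      congr 1
      refine sum_congr rfl fun i hi => ?_
      rw [mem_filter] at hi
      rw [bt_lt hi.2.2]
    have s3 : (1 - q) * ∑ i ∈ univ.filter (fun i => j < i), bt q x n a j i =
        ∑ r ∈ Ico 1 n, W q n a r * (eH q x r j * (fh q x (n - r) j + q * eH q x (n - r) j -
          q ^ (n - r) * es x (n - r))) := by
      rw [← partR n n q x _ (W q n a) (fun r => fh q x r j + q * eH q x r j -
          q ^ r * es x r) (fun r => eH q x r j)
        (fun r => (hOS R N q x r j).2.1)]
      congr 1
      refine sum_congr rfl fun i hi => ?_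
      rw [mem_filter] at hi
      rw [bt_lt hi.2]
    have s4 : q * (q * ∑ r ∈ Ico 1 n, W q n a r *
          ((es x r - fh q x r k - eH q x r k) * eH q x (n - r) j)) +
        q * ∑ r ∈ Ico 1 n, W q n a r * ((fh q x r k + q * eH q x r k -
          fh q x r j - eH q x r j) * eH q x (n - r) j) +
        ∑ r ∈ Ico 1 n, W q n a r * (eH q x r j * (fh q x (n - r) j + q * eH q x (n - r) j -
          q ^ (n - r) * es x (n - r))) =
        ∑ r ∈ Ico 1 n, W q n a r * (q ^ 2 * es x r * eH q x (n - r) j -
          q ^ (n - r) * es x (n - r) * eH q x r j) +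
        ∑ r ∈ Ico 1 n, W q n a r * (eH q x r j * fh q x (n - r) j -
          q * fh q x r j * eH q x (n - r) j) +
        (q - q ^ 2) * ∑ r ∈ Ico 1 n, W q n a r * (fh q x r k * eH q x (n - r) j) := by
      simp only [mul_sum]
      rw [← sum_add_distrib, ← sum_add_distrib, ← sum_add_distrib, ← sum_add_distrib]
      refine sum_congr rfl fun r _ => ?_
      ring
    have T := tel hn q (x j) (fun r => eH q x r j) (fun r => fh q x r j)
      (fun c => eH_eq q x c j) (fh_zero q x j)
    have C := col ha hn q (fun r => es x r) (fun r => eH q x r j) he0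
    have D : ∀ c : ℕ, dpl q x (eH q x c) j k = x k * eH q x c j := by
      intro c
      unfold dpl
      rw [if_neg h.ne', wq_ge h.le]
      ring
    simp only [D]
    have r1 : ∑ i ∈ range (a + 1), q ^ (i + 1) * qn q (2 * a - i - 1) * es x i *
        (x k * eH q x (n - i) j) = x k * ∑ i ∈ range (a + 1),
          q ^ (i + 1) * qn q (2 * a - i - 1) * es x i * eH q x (n - i) j := by
      rw [mul_sum]
      refine sum_congr rfl fun i _ => ?_
      ring
    have r2 : ∑ i ∈ range a, q ^ (a + i + 2) * qn q (n - a - 3 - i) * es x (n - a + i) *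
        (x k * eH q x (a - i) j) = x k * ∑ i ∈ range a,
          q ^ (a + i + 2) * qn q (n - a - 3 - i) * es x (n - a + i) * eH q x (a - i) j := by
      rw [mul_sum]
      refine sum_congr rfl fun i _ => ?_
      ring
    apply mul_left_cancel₀ h1q
    rw [r1, r2, hb, bn2 hn q x h]
    rw [T] at s4
    linear_combination x k * (q * q * s1 + q * s2 + s3 + s4 + C)

end Pool.Agent.SWD
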