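import Pool.Agent.Lib.MP_263316_co.CB.Spec

/-!
MP_263316_co, part CB: the operator `LL` on `b(n,a)` (TASK A5b).
-/

set_option autoImplicit false

namespace Pool.Agent.SWD

open Finset Pool.Agent.SWC Pool.Agent.SWB

namespace A5bAux

section sums

variable {R : Type} [CommRing R]

private theorem spl (n a : ℕ) (hn : 2 * a + 2 ≤ n) (u w G : ℕ → R) :
    ∑ r ∈ Ico 1 (n + 1), ((if r ≤ a then u r else 0) + (if n ≤ r + a then w r else 0)) * G r =
      ∑ i ∈ range a, u (i + 1) * G (i + 1) + ∑ i ∈ range (a + 1), w (n - i) * G (n - i) := by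
  have h1 : ∀ r, ((if r ≤ a then u r else 0) + (if n ≤ r + a then w r else 0)) * G r =
      (if r ≤ a then u r * G r else 0) + (if n ≤ r + a then w r * G r else 0) := by
    intro r
    split_ifs <;> ring
  simp only [h1, sum_add_distrib]
  congr 1
  · rw [← sum_filter, range_eq_Ico, sum_Ico_add' (fun r => u r * G r) 0 a 1]
    refine sum_congr ?_ fun _ _ => rfl
    ext r
    rw [mem_filter, mem_Ico, mem_Ico]
    omega
  · rw [← sum_filter]
    refine sum_nbij' (fun r => n - r) (fun i => n - i) ?_ ?_ ?_ ?_ ?_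
    · intro r hr
      rw [mem_filter, mem_Ico] at hr
      rw [mem_range]
      omega
    · intro i hi
      rw [mem_range] at hi
      rw [mem_filter, mem_Ico]
      omega
    · intro r hr
      rw [mem_filter, mem_Ico] at hr
      omega
    · intro i hi
      rw [mem_range] at hi
      omega
    · intro r hr
      rw [mem_filter, mem_Ico] at hr
      have h2 : n - (n - r) = r := by omega
      rw [h2]

/-- the coefficients below the diagonal -/
private def al (q : R) (n a r : ℕ) : R :=
  (if r ≤ a then q ^ r else 0) + (if n ≤ r + a then q ^ (2 * a + 1 + r - n) else 0)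

/-- the coefficients above the diagonal -/
private def be (q : R) (n a r : ℕ) : R :=
  (if r ≤ a then q ^ (2 * a + 1 - r) else 0) + (if n ≤ r + a then q ^ (n - r) else 0)

private theorem als {n a : ℕ} (hn : 2 * a + 2 ≤ n) (q : R) (G : ℕ → R) :
    ∑ r ∈ Ico 1 (n + 1), al q n a r * G r =
      ∑ i ∈ range a, q ^ (i + 1) * G (i + 1) +
        ∑ i ∈ range (a + 1), q ^ (2 * a + 1 - i) * G (n - i) := by
  unfold al
  rw [spl n a hn (fun r => q ^ r) (fun r => q ^ (2 * a + 1 + r - n))]
  congr 1
  refine sum_congr rfl fun i hi => ?_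
  rw [mem_range] at hi
  have e : 2 * a + 1 + (n - i) - n = 2 * a + 1 - i := by omega
  rw [e]

private theorem bes {n a : ℕ} (hn : 2 * a + 2 ≤ n) (q : R) (G : ℕ → R) :
    ∑ r ∈ Ico 1 (n + 1), be q n a r * G r =
      ∑ i ∈ range a, q ^ (2 * a - i) * G (i + 1) +
        ∑ i ∈ range (a + 1), q ^ i * G (n - i) := by
  unfold be
  rw [spl n a hn (fun r => q ^ (2 * a + 1 - r)) (fun r => q ^ (n - r))]
  congr 1
  · refine sum_congr rfl fun i hi => ?_
    have e : 2 * a + 1 - (i + 1) = 2 * a - i := by omega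
    rw [e]
  · refine sum_congr rfl fun i hi => ?_
    rw [mem_range] at hi
    have e : n - (n - i) = i := by omega
    rw [e]

private theorem zer {n a : ℕ} (hn : 2 * a + 2 ≤ n) (q : R) (E : ℕ → R) :
    q * ∑ r ∈ Ico 1 (n + 1), be q n a r * (E r * E (n + 1 - r)) =
      ∑ r ∈ Ico 1 (n + 1), al q n a r * (E r * E (n + 1 - r)) := by
  rw [als hn q (fun r => E r * E (n + 1 - r)), bes hn q (fun r => E r * E (n + 1 - r)), mul_add,
    sum_range_succ, sum_range_succ, mul_add, mul_sum, mul_sum, ← add_assoc, ← add_assoc]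
  congr 1
  · rw [add_comm]
    congr 1
    · refine sum_congr rfl fun i hi => ?_
      rw [mem_range] at hi
      have e1 : n + 1 - (n - i) = i + 1 := by omega
      have e2 : n + 1 - (i + 1) = n - i := by omega
      rw [e1, e2]
      ring
    · refine sum_congr rfl fun i hi => ?_
      rw [mem_range] at hi
      have e1 : n + 1 - (n - i) = i + 1 := by omega
      have e2 : n + 1 - (i + 1) = n - i := by omega
      have e3 : 2 * a + 1 - i = 2 * a - i + 1 := by omega
      rw [e1, e2, e3]
      ring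
  · have e3 : 2 * a + 1 - a = a + 1 := by omega
    rw [e3]
    ring

private theorem tel {n a : ℕ} (hn : 2 * a + 2 ≤ n) (q y : R) (E f : ℕ → R)
    (hE : ∀ c, E (c + 1) = y * f c) (hf : f 0 = 1) :
    ∑ r ∈ Ico 1 (n + 1), be q n a r * (f r * E (n + 1 - r)) -
      ∑ r ∈ Ico 1 (n + 1), al q n a r * (f r * E (n + 1 - r)) =
      (1 - q ^ (2 * a + 1)) * E (n + 1) := by
  rw [als hn q (fun r => f r * E (n + 1 - r)), bes hn q (fun r => f r * E (n + 1 - r))]
  have h1 : ∑ i ∈ range (a + 1), q ^ i * (f (n - i) * E (n + 1 - (n - i))) =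
      ∑ i ∈ range a, q ^ (i + 1) * (f (i + 1) * E (n + 1 - (i + 1))) + E (n + 1) := by
    have h2 : ∀ i ∈ range (a + 1), q ^ i * (f (n - i) * E (n + 1 - (n - i))) =
        q ^ i * (f i * E (n + 1 - i)) := by
      intro i hi
      rw [mem_range] at hi
      have e1 : n + 1 - (n - i) = i + 1 := by omega
      have e2 : n + 1 - i = (n - i) + 1 := by omega
      rw [e1, e2, hE, hE]
      ring
    rw [sum_congr rfl h2, sum_range_succ', hf, pow_zero, Nat.sub_zero]
    ring
  have h3 : ∑ i ∈ range (a + 1), q ^ (2 * a + 1 - i) * (f (n - i) * E (n + 1 - (n - i))) =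
      ∑ i ∈ range a, q ^ (2 * a - i) * (f (i + 1) * E (n + 1 - (i + 1))) +
        q ^ (2 * a + 1) * E (n + 1) := by
    have h2 : ∀ i ∈ range (a + 1), q ^ (2 * a + 1 - i) * (f (n - i) * E (n + 1 - (n - i))) =
        q ^ (2 * a + 1 - i) * (f i * E (n + 1 - i)) := by
      intro i hi
      rw [mem_range] at hi
      have e1 : n + 1 - (n - i) = i + 1 := by omega
      have e2 : n + 1 - i = (n - i) + 1 := by omega
      rw [e1, e2, hE, hE]
      ring
    rw [sum_congr rfl h2, sum_range_succ', hf, Nat.sub_zero, Nat.sub_zero, one_mul]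
    congr 1
    refine sum_congr rfl fun i hi => ?_
    have e3 : 2 * a + 1 - (i + 1) = 2 * a - i := by omega
    rw [e3]
  rw [h1, h3]
  ring

private theorem q_pow (q : R) {i k : ℕ} (m : ℕ) (h : m = i + k) :
    (1 - q) * (q ^ i * qn q k) = q ^ i - q ^ m := by
  have h1 : (1 - q) * qn q k = 1 - q ^ k := by
    unfold qn
    exact mul_neg_geom_sum q k
  rw [mul_left_comm, h1, h, pow_add]
  ring

private theorem col {n a : ℕ} (hn : 2 * a + 2 ≤ n) (q : R) (e E : ℕ → R)
    (he : e 0 = 1) :
    q * ∑ r ∈ Ico 1 (n + 1), al q n a r * (e r * E (n + 1 - r)) -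
      ∑ r ∈ Ico 1 (n + 1), be q n a r * (q ^ r * e r * E (n + 1 - r)) +
      (q - q ^ (2 * a + 1)) * E (n + 1) =
    (1 - q) * (∑ i ∈ range (a + 1), q ^ (i + 1) * qn q (2 * a - i) * e i * E (n + 1 - i) +
      ∑ i ∈ range (a + 1), q ^ (a + i + 2) * qn q (n - a - 2 - i) * e (n - a + i) *
        E (a + 1 - i)) := by
  rw [als hn q (fun r => e r * E (n + 1 - r)), bes hn q (fun r => q ^ r * e r * E (n + 1 - r)),
    mul_add (1 - q), mul_sum, mul_sum, sum_range_succ' (fun i => (1 - q) * (q ^ (i + 1) *
      qn q (2 * a - i) * e i * E (n + 1 - i)))]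
  have c0 : (1 - q) * (q ^ (0 + 1) * qn q (2 * a - 0) * e 0 * E (n + 1 - 0)) =
      (q - q ^ (2 * a + 1)) * E (n + 1) := by
    have e1 := q_pow q (i := 0 + 1) (k := 2 * a - 0) (2 * a + 1) (by omega)
    rw [he, Nat.sub_zero (n + 1)]
    linear_combination E (n + 1) * e1
  have c1 : ∑ i ∈ range a, (1 - q) * (q ^ (i + 1 + 1) * qn q (2 * a - (i + 1)) * e (i + 1) *
      E (n + 1 - (i + 1))) =
      q * ∑ i ∈ range a, q ^ (i + 1) * (e (i + 1) * E (n + 1 - (i + 1))) -
        ∑ i ∈ range a, q ^ (2 * a - i) * (q ^ (i + 1) * e (i + 1) * E (n + 1 - (i + 1))) := by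
    rw [mul_sum, ← sum_sub_distrib]
    refine sum_congr rfl fun i hi => ?_
    rw [mem_range] at hi
    have e1 := q_pow q (i := i + 1 + 1) (k := 2 * a - (i + 1)) (2 * a + 1) (by omega)
    have e2 : q ^ (2 * a + 1) = q ^ (2 * a - i) * q ^ (i + 1) := by
      rw [← pow_add]
      congr 1
      omega
    rw [e2] at e1
    linear_combination e (i + 1) * E (n + 1 - (i + 1)) * e1
  have c2 : ∑ i ∈ range (a + 1), (1 - q) * (q ^ (a + i + 2) * qn q (n - a - 2 - i) *
      e (n - a + i) * E (a + 1 - i)) =
      q * ∑ i ∈ range (a + 1), q ^ (2 * a + 1 - i) * (e (n - i) * E (n + 1 - (n - i))) -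
        ∑ i ∈ range (a + 1), q ^ i * (q ^ (n - i) * e (n - i) * E (n + 1 - (n - i))) := by
    rw [mul_sum, ← sum_sub_distrib, ← sum_range_reflect]
    refine sum_congr rfl fun i hi => ?_
    rw [mem_range] at hi
    have e1 := q_pow q (i := a + (a + 1 - 1 - i) + 2) (k := n - a - 2 - (a + 1 - 1 - i)) n
      (by omega)
    have e2 : q ^ n = q ^ i * q ^ (n - i) := by
      rw [← pow_add]
      congr 1
      omega
    have e3 : n - a + (a + 1 - 1 - i) = n - i := by omega
    have e4 : a + 1 - (a + 1 - 1 - i) = n + 1 - (n - i) := by omega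
    have e5 : q ^ (a + (a + 1 - 1 - i) + 2) = q * q ^ (2 * a + 1 - i) := by
      rw [← pow_succ']
      congr 1
      omega
    rw [e3, e4]
    rw [e2, e5] at e1
    rw [e5]
    linear_combination e (n - i) * E (n + 1 - (n - i)) * e1
  rw [c0, c1, c2]
  ring

end sums

section split

variable {R : Type} [CommRing R] {N : ℕ}

private theorem split1 (q : R) (F : Fin N → R) {j k : Fin N} (h : j < k) :
    ∑ i ∈ (univ.erase j).erase k, F i * wq q i k =
      q * ∑ i ∈ univ.filter (fun i => i < j), F i +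
      q * ∑ i ∈ univ.filter (fun i => j < i ∧ i < k), F i +
      ∑ i ∈ univ.filter (fun i => k < i), F i := by
  rw [mul_sum, mul_sum, sum_filter, sum_filter, sum_filter, ← sum_add_distrib,
    ← sum_add_distrib]
  rw [← sum_subset (subset_univ ((univ.erase j).erase k))]
  · refine sum_congr rfl fun i hi => ?_
    rw [mem_erase, mem_erase] at hi
    rcases lt_trichotomy i k with h1 | h1 | h1
    · rcases lt_trichotomy i j with h2 | h2 | h2
      · rw [wq_lt h1, if_pos h2, if_neg (fun h' => lt_asymm h2 h'.1), if_neg (lt_asymm h1)]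
        ring
      · exact absurd h2 hi.2.1
      · rw [wq_lt h1, if_neg (lt_asymm h2), if_pos ⟨h2, h1⟩, if_neg (lt_asymm h1)]
        ring
    · exact absurd h1 hi.1
    · rw [wq_ge h1.le, if_neg (lt_asymm (h.trans h1)), if_neg (fun h' => lt_asymm h1 h'.2),
        if_pos h1]
      ring
  · intro i _ hi
    have h3 : i = j ∨ i = k := by
      by_contra h'
      rw [not_or] at h'
      exact hi (by simp [h'.1, h'.2])
    rcases h3 with rfl | rfl
    · simp [lt_asymm h]
    · simp [lt_asymm h]

private theorem split2 (q : R) (F : Fin N → R) {j k : Fin N} (h : k < j) :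
    ∑ i ∈ (univ.erase j).erase k, F i * wq q i k =
      q * ∑ i ∈ univ.filter (fun i => i < k), F i +
      ∑ i ∈ univ.filter (fun i => k < i ∧ i < j), F i +
      ∑ i ∈ univ.filter (fun i => j < i), F i := by
  rw [mul_sum, sum_filter, sum_filter, sum_filter, ← sum_add_distrib,
    ← sum_add_distrib]
  rw [← sum_subset (subset_univ ((univ.erase j).erase k))]
  · refine sum_congr rfl fun i hi => ?_
    rw [mem_erase, mem_erase] at hi
    rcases lt_trichotomy i k with h1 | h1 | h1
    · rw [wq_lt h1, if_pos h1, if_neg (fun h' => lt_asymm h1 h'.1),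
        if_neg (lt_asymm (h1.trans h))]
      ring
    · exact absurd h1 hi.1
    · rcases lt_trichotomy i j with h2 | h2 | h2
      · rw [wq_ge h1.le, if_neg (lt_asymm h1), if_pos ⟨h1, h2⟩, if_neg (lt_asymm h2)]
        ring
      · exact absurd h2 hi.2.1
      · rw [wq_ge h1.le, if_neg (lt_asymm h1), if_neg (fun h' => lt_asymm h2 h'.2), if_pos h2]
        ring
  · intro i _ hi
    have h3 : i = j ∨ i = k := by
      by_contra h'
      rw [not_or] at h'
      exact hi (by simp [h'.1, h'.2])
    rcases h3 with rfl | rfl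
    · simp [lt_asymm h]
    · simp [lt_asymm h]

private theorem partL (m : ℕ) (q : R) (x : Fin N → R) (s : Finset (Fin N))
    (w t G : ℕ → R) (h : ∀ r, (1 - q) * ∑ i ∈ s, eH q x r i = t r) :
    (1 - q) * ∑ i ∈ s, ∑ r ∈ Ico 1 m, w r * eH q x r i * G r =
      ∑ r ∈ Ico 1 m, w r * (t r * G r) := by
  rw [sum_comm, mul_sum]
  refine sum_congr rfl fun r _ => ?_
  rw [← h r, ← sum_mul, ← mul_sum]
  ring

private theorem fh_zero (q : R) (x : Fin N → R) (j : Fin N) : fh q x 0 j = 1 := by
  simp [fh]

private theorem bn_lt {q : R} {x : Fin N → R} {n a : ℕ} {i j : Fin N} (h : i < j) :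
    bn q x n a i j =
      ∑ r ∈ Ico 1 (n + 1), al q n a r * eH q x r i * eH q x (n + 1 - r) j := if_pos h

private theorem bn_gt {q : R} {x : Fin N → R} {n a : ℕ} {i j : Fin N} (h : j < i) :
    bn q x n a i j =
      ∑ r ∈ Ico 1 (n + 1), be q n a r * eH q x r i * eH q x (n + 1 - r) j := by
  unfold bn
  rw [if_neg (lt_asymm h), if_pos h]
  rfl

private theorem iot_lt {q : R} {f : Fin N → Fin N → R} {i j : Fin N} (h : i < j) :
    iot q f i j = q * f i j := if_pos h

private theorem iot_gt {q : R} {f : Fin N → Fin N → R} {i j : Fin N} (h : j < i) :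
    iot q f i j = f j i := by
  unfold iot
  rw [if_neg (lt_asymm h), if_pos h]

private theorem bt1 {n a : ℕ} (hn : 2 * a + 2 ≤ n) (q : R) (x : Fin N → R) {j k : Fin N}
    (h : j < k) :
    bt q x (n + 2) (a + 1) j k =
      x k * ∑ r ∈ Ico 1 (n + 1), be q n a r * (fh q x r k * eH q x (n + 1 - r) j) +
      q ^ (2 * a + 1) * x k * eH q x (n + 1) j := by
  unfold bt
  rw [if_pos h, sum_Ico_eq_sum_range, show n + 2 - 1 = n + 1 by omega,
    ← sum_range_reflect, sum_range_succ']
  congr 1
  · rw [sum_Ico_eq_sum_range, Nat.add_sub_cancel, mul_sum]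
    refine sum_congr rfl fun i hi => ?_
    rw [mem_range] at hi
    have e1 : 1 + (n - (i + 1)) = n - i := by omega
    have e2 : n + 2 - (n - i) = (1 + i) + 1 := by omega
    have e3 : n + 1 - (1 + i) = n - i := by omega
    rw [e1, e2, e3, eH_eq]
    have e4 : (if n - i ≤ a + 1 then q ^ (n - i - 1) else 0) +
        (if n + 2 ≤ n - i + (a + 1) then q ^ (2 * (a + 1) + (n - i) - (n + 2)) else 0) =
        be q n a (1 + i) := by
      unfold be
      rw [add_comm]
      congr 1
      · by_cases h1 : 1 + i ≤ a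
        · rw [if_pos h1, if_pos (by omega)]
          congr 1
          omega
        · rw [if_neg h1, if_neg (by omega)]
      · by_cases h1 : n ≤ 1 + i + a
        · rw [if_pos h1, if_pos (by omega)]
          congr 1
          omega
        · rw [if_neg h1, if_neg (by omega)]
    rw [e4]
    ring
  · have e1 : 1 + (n + 1 - 1 - 0) = n + 1 := by omega
    have e2 : n + 2 - (n + 1) = 0 + 1 := by omega
    have e3 : 2 * (a + 1) + (n + 1) - (n + 2) = 2 * a + 1 := by omega
    rw [e1, e2, e3, eH_eq q x 0 k, fh_zero, if_neg (by omega), if_pos (by omega)]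
    ring

private theorem bt2 {n a : ℕ} (hn : 2 * a + 2 ≤ n) (q : R) (x : Fin N → R) {j k : Fin N}
    (h : k < j) :
    bt q x (n + 2) (a + 1) k j =
      x k * ∑ r ∈ Ico 1 (n + 1), al q n a r * (fh q x r k * eH q x (n + 1 - r) j) +
      x k * eH q x (n + 1) j := by
  unfold bt
  rw [if_pos h, sum_Ico_eq_sum_range, show n + 2 - 1 = n + 1 by omega, sum_range_succ']
  congr 1
  · rw [sum_Ico_eq_sum_range, Nat.add_sub_cancel, mul_sum]
    refine sum_congr rfl fun i hi => ?_
    rw [mem_range] at hi
    have e1 : 1 + (i + 1) = (1 + i) + 1 := by omega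
    have e2 : n + 2 - (1 + i + 1) = n + 1 - (1 + i) := by omega
    rw [e1, e2, eH_eq]
    have e4 : (if 1 + i + 1 ≤ a + 1 then q ^ (1 + i + 1 - 1) else 0) +
        (if n + 2 ≤ 1 + i + 1 + (a + 1) then q ^ (2 * (a + 1) + (1 + i + 1) - (n + 2)) else 0) =
        al q n a (1 + i) := by
      unfold al
      congr 1
      · by_cases h1 : 1 + i ≤ a
        · rw [if_pos h1, if_pos (by omega)]
          congr 1
        · rw [if_neg h1, if_neg (by omega)]
      · by_cases h1 : n ≤ 1 + i + a
        · rw [if_pos h1, if_pos (by omega)]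
          congr 1
          omega
        · rw [if_neg h1, if_neg (by omega)]
    rw [e4]
    ring
  · have e1 : n + 2 - (1 + 0) = n + 1 := by omega
    rw [e1, add_comm 1 0, eH_eq q x 0 k, fh_zero, if_pos (by omega), if_neg (by omega)]
    simp

end split

end A5bAux

open A5bAux in
theorem t_A5b : S_A5b := by
  intro hOS R _ _ N q hq x n a ha hn j k
  have h1q : (1 - q) ≠ 0 := sub_ne_zero.mpr (Ne.symm hq)
  have he0 : es x 0 = 1 := es_zero' x
  have Zr := zer hn q (fun r => eH q x r j)
  have T := tel hn q (x j) (fun r => eH q x r j) (fun r => fh q x r j)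
    (fun c => eH_eq q x c j) (fh_zero q x j)
  have C := col hn q (fun r => es x r) (fun r => eH q x r j) he0
  rcases lt_trichotomy j k with h | h | h
  · have hb : LL q x (bn q x n a) j k =
        x k * q * (q * ∑ i ∈ univ.filter (fun i => i < j), bn q x n a i j +
          q * ∑ i ∈ univ.filter (fun i => j < i ∧ i < k), bn q x n a i j +
          ∑ i ∈ univ.filter (fun i => k < i), bn q x n a i j) := by
      unfold LL
      rw [if_neg h.ne, wq_lt h, split1 q _ h]
    have s1 : (1 - q) * ∑ i ∈ univ.filter (fun i => i < j), bn q x n a i j =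
        ∑ r ∈ Ico 1 (n + 1), al q n a r *
          ((es x r - fh q x r j - eH q x r j) * eH q x (n + 1 - r) j) := by
      rw [← partL (n + 1) q x _ (al q n a) _ (fun r => eH q x (n + 1 - r) j)
        (fun r => (hOS R N q x r j).1)]
      congr 1
      refine sum_congr rfl fun i hi => ?_
      rw [mem_filter] at hi
      rw [bn_lt hi.2]
    have s2 : (1 - q) * ∑ i ∈ univ.filter (fun i => j < i ∧ i < k), bn q x n a i j =
        ∑ r ∈ Ico 1 (n + 1), be q n a r * ((fh q x r j + q * eH q x r j -
          fh q x r k - eH q x r k) * eH q x (n + 1 - r) j) := by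
      rw [← partL (n + 1) q x _ (be q n a) _ (fun r => eH q x (n + 1 - r) j)
        (fun r => (hOS R N q x r j).2.2 k h)]
      congr 1
      refine sum_congr rfl fun i hi => ?_
      rw [mem_filter] at hi
      rw [bn_gt hi.2.1]
    have s3 : (1 - q) * ∑ i ∈ univ.filter (fun i => k < i), bn q x n a i j =
        ∑ r ∈ Ico 1 (n + 1), be q n a r * ((fh q x r k + q * eH q x r k -
          q ^ r * es x r) * eH q x (n + 1 - r) j) := by
      rw [← partL (n + 1) q x _ (be q n a) _ (fun r => eH q x (n + 1 - r) j)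
        (fun r => (hOS R N q x r k).2.1)]
      congr 1
      refine sum_congr rfl fun i hi => ?_
      rw [mem_filter] at hi
      rw [bn_gt (h.trans hi.2)]
    have s4 : q * ∑ r ∈ Ico 1 (n + 1), al q n a r *
          ((es x r - fh q x r j - eH q x r j) * eH q x (n + 1 - r) j) +
        q * ∑ r ∈ Ico 1 (n + 1), be q n a r * ((fh q x r j + q * eH q x r j -
          fh q x r k - eH q x r k) * eH q x (n + 1 - r) j) +
        ∑ r ∈ Ico 1 (n + 1), be q n a r * ((fh q x r k + q * eH q x r k -
          q ^ r * es x r) * eH q x (n + 1 - r) j) =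
        (q * ∑ r ∈ Ico 1 (n + 1), al q n a r * (es x r * eH q x (n + 1 - r) j) -
        ∑ r ∈ Ico 1 (n + 1), be q n a r * (q ^ r * es x r * eH q x (n + 1 - r) j)) +
        q * (∑ r ∈ Ico 1 (n + 1), be q n a r * (fh q x r j * eH q x (n + 1 - r) j) -
          ∑ r ∈ Ico 1 (n + 1), al q n a r * (fh q x r j * eH q x (n + 1 - r) j)) +
        q * (q * ∑ r ∈ Ico 1 (n + 1), be q n a r * (eH q x r j * eH q x (n + 1 - r) j) -
          ∑ r ∈ Ico 1 (n + 1), al q n a r * (eH q x r j * eH q x (n + 1 - r) j)) +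
        (1 - q) * ∑ r ∈ Ico 1 (n + 1), be q n a r * (fh q x r k * eH q x (n + 1 - r) j) := by
      simp only [mul_sum, ← sum_sub_distrib, ← sum_add_distrib]
      refine sum_congr rfl fun r _ => ?_
      ring
    have D : ∀ c : ℕ, dpl q x (eH q x c) j k = q * x k * eH q x c j := by
      intro c
      unfold dpl
      rw [if_neg h.ne, wq_lt h]
      ring
    simp only [D]
    have r1 : ∑ i ∈ range (a + 1), q ^ (i + 1) * qn q (2 * a - i) * es x i *
        (q * x k * eH q x (n + 1 - i) j) = q * x k * ∑ i ∈ range (a + 1),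
          q ^ (i + 1) * qn q (2 * a - i) * es x i * eH q x (n + 1 - i) j := by
      rw [mul_sum]
      refine sum_congr rfl fun i _ => ?_
      ring
    have r2 : ∑ i ∈ range (a + 1), q ^ (a + i + 2) * qn q (n - a - 2 - i) * es x (n - a + i) *
        (q * x k * eH q x (a + 1 - i) j) = q * x k * ∑ i ∈ range (a + 1),
          q ^ (a + i + 2) * qn q (n - a - 2 - i) * es x (n - a + i) *
            eH q x (a + 1 - i) j := by
      rw [mul_sum]
      refine sum_congr rfl fun i _ => ?_
      ring
    apply mul_left_cancel₀ h1q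
    rw [r1, r2, hb, iot_lt h, bt1 hn q x h]
    linear_combination x k * q * (q * s1 + q * s2 + s3 + s4 + C + q * T + q * Zr)
  · subst h
    simp [LL, iot, dpl]
  · have hb : LL q x (bn q x n a) j k =
        x k * (q * ∑ i ∈ univ.filter (fun i => i < k), bn q x n a i j +
          ∑ i ∈ univ.filter (fun i => k < i ∧ i < j), bn q x n a i j +
          ∑ i ∈ univ.filter (fun i => j < i), bn q x n a i j) := by
      unfold LL
      rw [if_neg h.ne', wq_ge h.le, mul_one, split2 q _ h]
    have s1 : (1 - q) * ∑ i ∈ univ.filter (fun i => i < k), bn q x n a i j =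
        ∑ r ∈ Ico 1 (n + 1), al q n a r *
          ((es x r - fh q x r k - eH q x r k) * eH q x (n + 1 - r) j) := by
      rw [← partL (n + 1) q x _ (al q n a) _ (fun r => eH q x (n + 1 - r) j)
        (fun r => (hOS R N q x r k).1)]
      congr 1
      refine sum_congr rfl fun i hi => ?_
      rw [mem_filter] at hi
      rw [bn_lt (hi.2.trans h)]
    have s2 : (1 - q) * ∑ i ∈ univ.filter (fun i => k < i ∧ i < j), bn q x n a i j =
        ∑ r ∈ Ico 1 (n + 1), al q n a r * ((fh q x r k + q * eH q x r k -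
          fh q x r j - eH q x r j) * eH q x (n + 1 - r) j) := by
      rw [← partL (n + 1) q x _ (al q n a) _ (fun r => eH q x (n + 1 - r) j)
        (fun r => (hOS R N q x r k).2.2 j h)]
      congr 1
      refine sum_congr rfl fun i hi => ?_
      rw [mem_filter] at hi
      rw [bn_lt hi.2.2]
    have s3 : (1 - q) * ∑ i ∈ univ.filter (fun i => j < i), bn q x n a i j =
        ∑ r ∈ Ico 1 (n + 1), be q n a r * ((fh q x r j + q * eH q x r j -
          q ^ r * es x r) * eH q x (n + 1 - r) j) := by
      rw [← partL (n + 1) q x _ (be q n a) _ (fun r => eH q x (n + 1 - r) j)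
        (fun r => (hOS R N q x r j).2.1)]
      congr 1
      refine sum_congr rfl fun i hi => ?_
      rw [mem_filter] at hi
      rw [bn_gt hi.2]
    have s4 : q * ∑ r ∈ Ico 1 (n + 1), al q n a r *
          ((es x r - fh q x r k - eH q x r k) * eH q x (n + 1 - r) j) +
        ∑ r ∈ Ico 1 (n + 1), al q n a r * ((fh q x r k + q * eH q x r k -
          fh q x r j - eH q x r j) * eH q x (n + 1 - r) j) +
        ∑ r ∈ Ico 1 (n + 1), be q n a r * ((fh q x r j + q * eH q x r j -
          q ^ r * es x r) * eH q x (n + 1 - r) j) =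
        (q * ∑ r ∈ Ico 1 (n + 1), al q n a r * (es x r * eH q x (n + 1 - r) j) -
        ∑ r ∈ Ico 1 (n + 1), be q n a r * (q ^ r * es x r * eH q x (n + 1 - r) j)) +
        (∑ r ∈ Ico 1 (n + 1), be q n a r * (fh q x r j * eH q x (n + 1 - r) j) -
          ∑ r ∈ Ico 1 (n + 1), al q n a r * (fh q x r j * eH q x (n + 1 - r) j)) +
        (q * ∑ r ∈ Ico 1 (n + 1), be q n a r * (eH q x r j * eH q x (n + 1 - r) j) -
          ∑ r ∈ Ico 1 (n + 1), al q n a r * (eH q x r j * eH q x (n + 1 - r) j)) +
        (1 - q) * ∑ r ∈ Ico 1 (n + 1), al q n a r * (fh q x r k * eH q x (n + 1 - r) j) := by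
      simp only [mul_sum, ← sum_sub_distrib, ← sum_add_distrib]
      refine sum_congr rfl fun r _ => ?_
      ring
    have D : ∀ c : ℕ, dpl q x (eH q x c) j k = x k * eH q x c j := by
      intro c
      unfold dpl
      rw [if_neg h.ne', wq_ge h.le]
      ring
    simp only [D]
    have r1 : ∑ i ∈ range (a + 1), q ^ (i + 1) * qn q (2 * a - i) * es x i *
        (x k * eH q x (n + 1 - i) j) = x k * ∑ i ∈ range (a + 1),
          q ^ (i + 1) * qn q (2 * a - i) * es x i * eH q x (n + 1 - i) j := by
      rw [mul_sum]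
      refine sum_congr rfl fun i _ => ?_
      ring
    have r2 : ∑ i ∈ range (a + 1), q ^ (a + i + 2) * qn q (n - a - 2 - i) * es x (n - a + i) *
        (x k * eH q x (a + 1 - i) j) = x k * ∑ i ∈ range (a + 1),
          q ^ (a + i + 2) * qn q (n - a - 2 - i) * es x (n - a + i) *
            eH q x (a + 1 - i) j := by
      rw [mul_sum]
      refine sum_congr rfl fun i _ => ?_
      ring
    apply mul_left_cancel₀ h1q
    rw [r1, r2, hb, iot_gt h, bt2 hn q x h]
    linear_combination x k * (q * s1 + s2 + s3 + s4 + C + T + Zr)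

end Pool.Agent.SWD
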