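import Pool.Agent.Lib.MP_263316_co.CB.Spec

/-!
MP_263316_co, part CB: first mark forgotten, `b(n,a)` (TASK A6).
-/

set_option autoImplicit false

namespace Pool.Agent.SWD

open Finset Pool.Agent.SWC Pool.Agent.SWB

namespace A6Aux

variable {R : Type} [CommRing R] {N : ℕ}

private theorem qn_mul (q : R) (k : ℕ) : (1 - q) * qn q k = 1 - q ^ k := by
  unfold qn
  exact mul_neg_geom_sum q k

private theorem q_pow (q : R) {i k : ℕ} (m : ℕ) (h : m = i + k) :
    (1 - q) * (q ^ i * qn q k) = q ^ i - q ^ m := by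
  have h1 := qn_mul q k
  rw [mul_left_comm, h1, h, pow_add]
  ring

private theorem fh_zero (q : R) (x : Fin N → R) (j : Fin N) : fh q x 0 j = 1 := by
  simp [fh]

private theorem spl (n a : ℕ) (hn : 2 * a + 2 ≤ n) (u w G : ℕ → R) :
    ∑ r ∈ Ico 1 (n + 1), ((if r ≤ a then u r else 0) + (if n ≤ r + a then w r else 0)) * G r =
      ∑ i ∈ range a, u (i + 1) * G (i + 1) + ∑ i ∈ range (a + 1), w (n - i) * G (n - i) := by
  have h1 : ∀ r, ((if r ≤ a then u r else 0) + (if n ≤ r + a then w r else 0)) * G r =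
      (if r ≤ a then u r * G r else 0) + (if n ≤ r + a then w r * G r else 0) := by
    intro r
    split_ifs <;> ring
  simp only [h1, sum_add_distrib]
  congr 1
  · rw [← sum_filter, range_eq_Ico, sum_Ico_add' (fun r => u r * G r) 0 a 1]
    refine sum_congr ?_ fun _ _ => rfl
    ext r
    rw [mem_filter, mem_Ico, mem_Ico]
    omega
  · rw [← sum_filter]
    refine sum_nbij' (fun r => n - r) (fun i => n - i) ?_ ?_ ?_ ?_ ?_
    · intro r hr
      rw [mem_filter, mem_Ico] at hr
      rw [mem_range]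
      omega
    · intro i hi
      rw [mem_range] at hi
      rw [mem_filter, mem_Ico]
      omega
    · intro r hr
      rw [mem_filter, mem_Ico] at hr
      omega
    · intro i hi
      rw [mem_range] at hi
      omega
    · intro r hr
      rw [mem_filter, mem_Ico] at hr
      have h2 : n - (n - r) = r := by omega
      rw [h2]

private theorem part (n : ℕ) (q : R) (x : Fin N → R) (j : Fin N) (s : Finset (Fin N))
    (w t : ℕ → R) (h : ∀ r, (1 - q) * ∑ i ∈ s, eH q x r i = t r) :
    (1 - q) * ∑ i ∈ s, ∑ r ∈ Ico 1 (n + 1), w r * eH q x r i * eH q x (n + 1 - r) j =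
      ∑ r ∈ Ico 1 (n + 1), w r * (t r * eH q x (n + 1 - r) j) := by
  rw [sum_comm, mul_sum]
  refine sum_congr rfl fun r _ => ?_
  rw [← h r, ← sum_mul, ← mul_sum]
  ring

private theorem dmi_split (F : Fin N → Fin N → R) (j : Fin N) :
    dmi F j = ∑ i ∈ univ.filter (fun i => i < j), F i j +
      ∑ i ∈ univ.filter (fun i => j < i), F i j := by
  unfold dmi
  rw [← sum_union]
  · refine sum_congr ?_ fun _ _ => rfl
    ext i
    rw [mem_erase, mem_union, mem_filter, mem_filter]
    constructor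
    · rintro ⟨h, _⟩
      rcases lt_or_gt_of_ne h with h1 | h1
      · exact Or.inl ⟨mem_univ i, h1⟩
      · exact Or.inr ⟨mem_univ i, h1⟩
    · rintro (⟨_, h⟩ | ⟨_, h⟩)
      · exact ⟨h.ne, mem_univ i⟩
      · exact ⟨h.ne', mem_univ i⟩
  · rw [disjoint_left]
    intro i h1 h2
    exact lt_asymm (mem_filter.1 h1).2 (mem_filter.1 h2).2

private theorem lhs (hOS : S_OS) (q : R) (x : Fin N → R) (n a : ℕ) (hn : 2 * a + 2 ≤ n)
    (j : Fin N) :
    (1 - q) * dmi (bn q x n a) j =
      (∑ i ∈ range a, q ^ (i + 1) * ((es x (i + 1) - fh q x (i + 1) j - eH q x (i + 1) j) *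
          eH q x (n + 1 - (i + 1)) j) +
        ∑ i ∈ range (a + 1), q ^ (2 * a + 1 + (n - i) - n) *
          ((es x (n - i) - fh q x (n - i) j - eH q x (n - i) j) * eH q x (n + 1 - (n - i)) j)) +
      (∑ i ∈ range a, q ^ (2 * a + 1 - (i + 1)) * ((fh q x (i + 1) j + q * eH q x (i + 1) j -
          q ^ (i + 1) * es x (i + 1)) * eH q x (n + 1 - (i + 1)) j) +
        ∑ i ∈ range (a + 1), q ^ (n - (n - i)) * ((fh q x (n - i) j + q * eH q x (n - i) j -
          q ^ (n - i) * es x (n - i)) * eH q x (n + 1 - (n - i)) j)) := by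
  rw [dmi_split, mul_add]
  have h1 : ∑ i ∈ univ.filter (fun i => i < j), bn q x n a i j =
      ∑ i ∈ univ.filter (fun i => i < j), ∑ r ∈ Ico 1 (n + 1),
        ((if r ≤ a then q ^ r else 0) + (if n ≤ r + a then q ^ (2 * a + 1 + r - n) else 0)) *
          eH q x r i * eH q x (n + 1 - r) j := by
    refine sum_congr rfl fun i hi => ?_
    unfold bn
    rw [if_pos (mem_filter.1 hi).2]
  have h2 : ∑ i ∈ univ.filter (fun i => j < i), bn q x n a i j =
      ∑ i ∈ univ.filter (fun i => j < i), ∑ r ∈ Ico 1 (n + 1),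
        ((if r ≤ a then q ^ (2 * a + 1 - r) else 0) + (if n ≤ r + a then q ^ (n - r) else 0)) *
          eH q x r i * eH q x (n + 1 - r) j := by
    refine sum_congr rfl fun i hi => ?_
    unfold bn
    rw [if_neg (lt_asymm (mem_filter.1 hi).2), if_pos (mem_filter.1 hi).2]
  rw [h1, h2, part n q x j _ _ _ (fun r => (hOS R N q x r j).1),
    part n q x j _ _ _ (fun r => (hOS R N q x r j).2.1), spl n a hn, spl n a hn]

end A6Aux

open A6Aux in
theorem t_A6 : S_A6 := by
  intro hOS R _ _ N q hq x n a ha hn j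
  have hq' : (1 - q) ≠ 0 := sub_ne_zero.2 hq.symm
  apply mul_left_cancel₀ hq'
  rw [lhs hOS q x n a hn j, mul_add, mul_sum, mul_sum]
  -- the first sum on the right
  have r1 : ∑ i ∈ range (a + 1), (1 - q) * (q ^ i * qn q (2 * a + 1 - i) * es x i *
      eH q x (n + 1 - i) j) =
      ∑ i ∈ range a, (q ^ (i + 1) - q ^ (2 * a + 1)) * es x (i + 1) * eH q x (n - i) j +
        (1 - q ^ (2 * a + 1)) * eH q x (n + 1) j := by
    rw [sum_range_succ']
    congr 1
    · refine sum_congr rfl fun i hi => ?_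
      rw [mem_range] at hi
      have e1 := q_pow q (i := i + 1) (k := 2 * a + 1 - (i + 1)) (2 * a + 1) (by omega)
      have e2 : n + 1 - (i + 1) = n - i := by omega
      rw [e2, ← e1]
      ring
    · have e1 := q_pow q (i := 0) (k := 2 * a + 1 - 0) (2 * a + 1) (by omega)
      rw [pow_zero] at e1
      rw [← e1, es_zero', pow_zero, Nat.sub_zero (n + 1)]
      ring
  have r2 : ∑ i ∈ range (a + 1), (1 - q) * (q ^ (a + i + 1) * qn q (n - a - 1 - i) *
      es x (n - a + i) * eH q x (a + 1 - i) j) =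
      ∑ i ∈ range (a + 1), (q ^ (2 * a + 1 - i) - q ^ n) * es x (n - i) * eH q x (i + 1) j := by
    rw [← sum_range_reflect]
    refine sum_congr rfl fun i hi => ?_
    rw [mem_range] at hi
    have e1 := q_pow q (i := 2 * a + 1 - i) (k := n - a - 1 - (a + 1 - 1 - i)) n (by omega)
    have e2 : a + (a + 1 - 1 - i) + 1 = 2 * a + 1 - i := by omega
    have e3 : n - a + (a + 1 - 1 - i) = n - i := by omega
    have e4 : a + 1 - (a + 1 - 1 - i) = i + 1 := by omega
    rw [e2, e3, e4, ← e1]
    ring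
  rw [r1, r2]
  -- the terms with two marks
  have Q2 : ∑ i ∈ range (a + 1), (q ^ i - q ^ (2 * a + 1 - i)) * fh q x (n - i) j *
      eH q x (i + 1) j =
      ∑ i ∈ range a, (q ^ (i + 1) - q ^ (2 * a - i)) * fh q x (i + 1) j * eH q x (n - i) j +
        (1 - q ^ (2 * a + 1)) * eH q x (n + 1) j := by
    have h1 : ∀ i ∈ range (a + 1), (q ^ i - q ^ (2 * a + 1 - i)) * fh q x (n - i) j *
        eH q x (i + 1) j = (q ^ i - q ^ (2 * a + 1 - i)) * fh q x i j * eH q x (n - i + 1) j := by
      intro i _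
      rw [eH_eq, eH_eq]
      ring
    rw [sum_congr rfl h1, sum_range_succ']
    congr 1
    · refine sum_congr rfl fun i hi => ?_
      rw [mem_range] at hi
      have e1 : 2 * a + 1 - (i + 1) = 2 * a - i := by omega
      have e2 : n - (i + 1) + 1 = n - i := by omega
      rw [e1, e2]
    · rw [fh_zero, pow_zero, Nat.sub_zero, Nat.sub_zero, mul_one]
  have Q3 : ∑ i ∈ range (a + 1), (q ^ (i + 1) - q ^ (2 * a + 1 - i)) * eH q x (n - i) j *
      eH q x (i + 1) j =
      ∑ i ∈ range a, (q ^ (i + 1) - q ^ (2 * a + 1 - i)) * eH q x (n - i) j *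
        eH q x (i + 1) j := by
    rw [sum_range_succ]
    have e1 : 2 * a + 1 - a = a + 1 := by omega
    rw [e1, sub_self, zero_mul, zero_mul, add_zero]
  have A1 : ∑ i ∈ range a, q ^ (i + 1) * ((es x (i + 1) - fh q x (i + 1) j -
        eH q x (i + 1) j) * eH q x (n + 1 - (i + 1)) j) +
      ∑ i ∈ range a, q ^ (2 * a + 1 - (i + 1)) * ((fh q x (i + 1) j + q * eH q x (i + 1) j -
          q ^ (i + 1) * es x (i + 1)) * eH q x (n + 1 - (i + 1)) j) =
      ∑ i ∈ range a, (q ^ (i + 1) - q ^ (2 * a + 1)) * es x (i + 1) * eH q x (n - i) j -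
        ∑ i ∈ range a, (q ^ (i + 1) - q ^ (2 * a - i)) * fh q x (i + 1) j * eH q x (n - i) j -
        ∑ i ∈ range a, (q ^ (i + 1) - q ^ (2 * a + 1 - i)) * eH q x (n - i) j *
          eH q x (i + 1) j := by
    rw [← sum_add_distrib, ← sum_sub_distrib, ← sum_sub_distrib]
    refine sum_congr rfl fun i hi => ?_
    rw [mem_range] at hi
    have e1 : n + 1 - (i + 1) = n - i := by omega
    have e2 : 2 * a + 1 - (i + 1) = 2 * a - i := by omega
    have e3 : q ^ (2 * a + 1) = q ^ (2 * a - i) * q ^ (i + 1) := by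
      rw [← pow_add]
      congr 1
      omega
    have e4 : q ^ (2 * a + 1 - i) = q ^ (2 * a - i) * q := by
      rw [← pow_succ]
      congr 1
      omega
    rw [e1, e2, e3, e4]
    ring
  have A2 : ∑ i ∈ range (a + 1), q ^ (2 * a + 1 + (n - i) - n) *
          ((es x (n - i) - fh q x (n - i) j - eH q x (n - i) j) * eH q x (n + 1 - (n - i)) j) +
      ∑ i ∈ range (a + 1), q ^ (n - (n - i)) * ((fh q x (n - i) j + q * eH q x (n - i) j -
          q ^ (n - i) * es x (n - i)) * eH q x (n + 1 - (n - i)) j) =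
      ∑ i ∈ range (a + 1), (q ^ (2 * a + 1 - i) - q ^ n) * es x (n - i) * eH q x (i + 1) j +
        ∑ i ∈ range (a + 1), (q ^ i - q ^ (2 * a + 1 - i)) * fh q x (n - i) j *
          eH q x (i + 1) j +
        ∑ i ∈ range (a + 1), (q ^ (i + 1) - q ^ (2 * a + 1 - i)) * eH q x (n - i) j *
          eH q x (i + 1) j := by
    rw [← sum_add_distrib, ← sum_add_distrib, ← sum_add_distrib]
    refine sum_congr rfl fun i hi => ?_
    rw [mem_range] at hi
    have e1 : 2 * a + 1 + (n - i) - n = 2 * a + 1 - i := by omega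
    have e2 : n + 1 - (n - i) = i + 1 := by omega
    have e3 : n - (n - i) = i := by omega
    have e4 : q ^ n = q ^ i * q ^ (n - i) := by
      rw [← pow_add]
      congr 1
      omega
    rw [e1, e2, e3, e4, pow_succ]
    ring
  rw [add_add_add_comm, A1, A2, Q2, Q3]
  ring

end Pool.Agent.SWD
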