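import Pool.Agent.Lib.MP_263316_co.CB.Spec

/-!
MP_263316_co, part CB: task A7 (symmetrization)
-/

set_option autoImplicit false

namespace Pool.Agent.SWD

open Finset Pool.Agent.SWC Pool.Agent.SWB

theorem t_A7 : S_A7 := by
  intro R _ N q x i j
  by_cases hij : i < j
  · have hji : ¬ j < i := not_lt.mpr hij.le
    constructor
    · intro n a ha hn
      have h1 : sg (bn q x n a) i j =
          ∑ r ∈ Ico 1 (n + 1), ((if r ≤ a then q ^ r else 0) +
            (if n ≤ r + a then q ^ (2 * a + 1 + r - n) else 0)) *
              eH q x r i * eH q x (n + 1 - r) j +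
          ∑ r ∈ Ico 1 (n + 1), ((if r ≤ a then q ^ (2 * a + 1 - r) else 0) +
            (if n ≤ r + a then q ^ (n - r) else 0)) *
              eH q x r j * eH q x (n + 1 - r) i := by
        simp only [sg, bn, if_pos hij, if_neg hji]
      have h2 : ∑ r ∈ Ico 1 (n + 1), ((if r ≤ a then q ^ (2 * a + 1 - r) else 0) +
            (if n ≤ r + a then q ^ (n - r) else 0)) *
              eH q x r j * eH q x (n + 1 - r) i =
          ∑ r ∈ Ico 1 (n + 1), ((if n + 1 - r ≤ a then q ^ (2 * a + 1 - (n + 1 - r)) else 0) +
            (if n ≤ n + 1 - r + a then q ^ (n - (n + 1 - r)) else 0)) *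
              eH q x (n + 1 - r) j * eH q x r i := by
        refine Finset.sum_nbij' (fun r => n + 1 - r) (fun r => n + 1 - r) ?_ ?_ ?_ ?_ ?_
        · intro r hr
          simp only [mem_Ico] at hr ⊢
          omega
        · intro r hr
          simp only [mem_Ico] at hr ⊢
          omega
        · intro r hr
          simp only [mem_Ico] at hr
          omega
        · intro r hr
          simp only [mem_Ico] at hr
          omega
        · intro r hr
          simp only [mem_Ico] at hr
          have h3 : n + 1 - (n + 1 - r) = r := by omega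
          rw [h3]
      rw [h1, h2, bt, bt, if_pos hij, if_pos hij, mul_sum, ← sum_add_distrib,
        ← sum_add_distrib]
      refine sum_congr rfl fun r hr => ?_
      simp only [mem_Ico] at hr
      have e1 : (if r ≤ a then q ^ r else 0) = q * (if r ≤ a then q ^ (r - 1) else 0) := by
        split_ifs
        · obtain ⟨s, rfl⟩ := Nat.exists_eq_add_of_le hr.1
          rw [Nat.add_sub_cancel_left, add_comm 1 s, pow_succ]
          ring
        · ring
      have e2 : (if n ≤ r + a then q ^ (2 * a + 1 + r - n) else 0) =
          (if n + 1 ≤ r + (a + 1) then q ^ (2 * (a + 1) + r - (n + 1)) else 0) := by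
        have h3 : n ≤ r + a ↔ n + 1 ≤ r + (a + 1) := by omega
        have h4 : 2 * a + 1 + r - n = 2 * (a + 1) + r - (n + 1) := by omega
        simp only [h3, h4]
      have e3 : (if n + 1 - r ≤ a then q ^ (2 * a + 1 - (n + 1 - r)) else 0) =
          q * (if n + 1 ≤ r + a then q ^ (2 * a + r - (n + 1)) else 0) := by
        have h3 : n + 1 - r ≤ a ↔ n + 1 ≤ r + a := by omega
        simp only [h3]
        split_ifs with h5
        · have h4 : 2 * a + 1 - (n + 1 - r) = 2 * a + r - (n + 1) + 1 := by omega
          rw [h4, pow_succ]
          ring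
        · ring
      have e4 : (if n ≤ n + 1 - r + a then q ^ (n - (n + 1 - r)) else 0) =
          (if r ≤ a + 1 then q ^ (r - 1) else 0) := by
        have h3 : n ≤ n + 1 - r + a ↔ r ≤ a + 1 := by omega
        have h4 : n - (n + 1 - r) = r - 1 := by omega
        simp only [h3, h4]
      rw [e1, e2, e3, e4]
      ring
    · intro c hc
      have h1 : sg (dpl q x (eH q x c)) i j = x i * eH q x c j + q * (eH q x c i * x j) := by
        simp only [sg, dpl, if_pos hij, if_neg (ne_of_lt hij), if_neg (ne_of_gt hij),
          wq_lt hij, wq_ge hij.le]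
        ring
      rw [h1, bt, if_pos hij]
      have h2 : ∀ r ∈ Ico 1 (c + 1), ((if r ≤ 1 then q ^ (r - 1) else 0) +
          (if c + 1 ≤ r + 1 then q ^ (2 * 1 + r - (c + 1)) else 0)) *
            eH q x r i * eH q x (c + 1 - r) j =
          (if r = 1 then x i * eH q x c j else 0) +
            (if r = c then q * (eH q x c i * x j) else 0) := by
        intro r hr
        simp only [mem_Ico] at hr
        have e1 : (if r ≤ 1 then q ^ (r - 1) else 0) * eH q x r i * eH q x (c + 1 - r) j =
            (if r = 1 then x i * eH q x c j else 0) := by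
          by_cases h : r = 1
          · subst h
            rw [if_pos le_rfl, if_pos rfl, eH_one, Nat.add_sub_cancel]
            simp
          · rw [if_neg h, if_neg (by omega), zero_mul, zero_mul]
        have e2 : (if c + 1 ≤ r + 1 then q ^ (2 * 1 + r - (c + 1)) else 0) * eH q x r i *
            eH q x (c + 1 - r) j = (if r = c then q * (eH q x c i * x j) else 0) := by
          by_cases h : r = c
          · subst h
            have h3 : 2 * 1 + r - (r + 1) = 1 := by omega
            rw [if_pos le_rfl, if_pos rfl, Nat.add_sub_cancel_left, eH_one, h3]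
            ring
          · rw [if_neg h, if_neg (by omega), zero_mul, zero_mul]
        rw [add_mul, add_mul, e1, e2]
      rw [sum_congr rfl h2, sum_add_distrib, sum_ite_eq', sum_ite_eq', if_pos, if_pos]
      · exact mem_Ico.mpr ⟨hc, Nat.lt_succ_self c⟩
      · exact mem_Ico.mpr ⟨le_rfl, by omega⟩
  · constructor
    · intro n a _ _
      rw [sg, if_neg hij, bt_of_not hij, bt_of_not hij, mul_zero, add_zero]
    · intro c _
      rw [sg, if_neg hij, bt_of_not hij]

end Pool.Agent.SWD
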