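import Pool.Agent.Lib.MP_263316_co.CB.Spec

/-!
MP_263316_co, part CB: forgetting the first mark of `dpl` (TASK A8).
-/

set_option autoImplicit false

namespace Pool.Agent.SWD

open Finset Pool.Agent.SWC Pool.Agent.SWB

namespace A8Aux

variable {R : Type} [CommRing R] {N : ℕ}

private theorem geom (q : R) (n : ℕ) : (1 - q) * qn q n = 1 - q ^ n := by
  induction n with
  | zero => simp [qn]
  | succ n ih =>
    have h : qn q (n + 1) = qn q n + q ^ n := by simp [qn, sum_range_succ]
    rw [h, mul_add, ih, pow_succ]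
    ring

private theorem dmi_dpl (q : R) (x G : Fin N → R) (j : Fin N) :
    dmi (dpl q x G) j = x j * (q * ∑ i ∈ univ.filter (fun i => i < j), G i +
      ∑ i ∈ univ.filter (fun i => j < i), G i) := by
  have h1 : (univ.erase j : Finset (Fin N)) =
      univ.filter (fun i => i < j) ∪ univ.filter (fun i => j < i) := by
    ext i
    simp only [mem_erase, mem_univ, and_true, mem_union, mem_filter, true_and]
    exact ⟨fun h => lt_or_gt_of_ne h, fun h => h.elim ne_of_lt ne_of_gt⟩
  have h2 : Disjoint (univ.filter (fun i : Fin N => i < j)) (univ.filter (fun i => j < i)) := by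
    rw [disjoint_filter]
    intro i _ h h'
    exact lt_asymm h h'
  unfold dmi
  rw [h1, sum_union h2, mul_add, mul_sum, mul_sum, mul_sum]
  congr 1
  · refine sum_congr rfl fun i hi => ?_
    have h : i < j := (mem_filter.1 hi).2
    simp only [dpl, if_neg h.ne, wq_lt h]
    ring
  · refine sum_congr rfl fun i hi => ?_
    have h : j < i := (mem_filter.1 hi).2
    simp only [dpl, if_neg h.ne', wq_ge h.le]
    ring

end A8Aux

theorem t_A8 : S_A8 := by
  intro hOS R _ _ N q hq x n hn j
  obtain ⟨h1, h2, -⟩ := hOS R N q x n j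
  have hne : (1 - q) ≠ 0 := fun h => hq (sub_eq_zero.1 h).symm
  apply mul_left_cancel₀ hne
  obtain ⟨m, rfl⟩ : ∃ m, n = m + 1 := ⟨n - 1, by omega⟩
  have hg := A8Aux.geom q m
  rw [A8Aux.dmi_dpl, eH_eq, eH_one, Nat.add_sub_cancel]
  have h3 : (1 - q) * (x j * (q * ∑ i ∈ univ.filter (fun i => i < j), eH q x (m + 1) i +
      ∑ i ∈ univ.filter (fun i => j < i), eH q x (m + 1) i)) =
      x j * (q * ((1 - q) * ∑ i ∈ univ.filter (fun i => i < j), eH q x (m + 1) i) +
        (1 - q) * ∑ i ∈ univ.filter (fun i => j < i), eH q x (m + 1) i) := by ring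
  rw [h3, h1, h2]
  linear_combination (- q * es x (m + 1) * x j) * hg

end Pool.Agent.SWD
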