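import Pool.Agent.Lib.MP_263316_co.CB.Spec
import Pool.Agent.Lib.MP_263316_co.KM
import Pool.Agent.Lib.MP_263316_co.PUmul

/-!
MP_263316_co, part CB, task BLK: the block lemma (induction along the graph). (helper72)
-/

set_option autoImplicit false

namespace Pool.Agent.SWD

open Finset Pool.Agent.SWC Pool.Agent.SWB

namespace BLKAux

/-- the conclusion of `S_CL` -/
def CLc : Prop := ∀ (N n d : ℕ) (F : Fin N → Fin N → AN N), F ∈ C2 N n d →
  LL (qq N) (xx N) F ∈ C2 N (n + 1) (d + 2)

/-- the conclusion of `S_SG` -/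
def SGc : Prop := ∀ (N n d : ℕ) (F : Fin N → Fin N → AN N), F ∈ C2 N n d →
  sg F ∈ SC N n (d + 1)

/-- the conclusion of `S_CD` -/
def CDc : Prop := ∀ (N n d : ℕ) (F : Fin N → Fin N → AN N), F ∈ C2 N n d →
  dmi F ∈ MCone N n d

theorem iot_mem {N n d : ℕ} {f : Fin N → Fin N → AN N} (hf : f ∈ SC N n d) :
    iot (qq N) f ∈ C2 N n d :=
  AddSubmonoid.subset_closure (Or.inl (Or.inl ⟨f, hf, rfl⟩))

/-- constants in the cone -/
theorem C_mem {N d : ℕ} {p : Polynomial ℤ} (hp : p ∈ PU d) :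
    (MvPolynomial.C p : AN N) ∈ Cone N 0 d := by
  refine AddSubmonoid.subset_closure ⟨0, p, by simp, hp, ?_⟩
  simp

theorem qf_smul_mem (hCM : S_CM) (N n d l : ℕ) (F : Fin N → Fin N → AN N) (hF : F ∈ C2 N n d) :
    (fun i j => qf (qq N) l * F i j) ∈ C2 N n ((∑ i ∈ range l, i) + d) := by
  have h1 := (hCM N n d 0 (∑ i ∈ range l, i) (MvPolynomial.C (qf (Polynomial.X : Polynomial ℤ) l))
    (C_mem (KMaux.qf_mem t_PUmul l))).2 F hF
  rw [Nat.zero_add] at h1
  rw [KMaux.qf_C]
  exact h1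

theorem two_sum (l : ℕ) : 2 * (∑ i ∈ range l, i) + l = l * l := by
  induction l with
  | zero => simp
  | succ l ih =>
    rw [sum_range_succ]
    nlinarith

/-- consequence of `K5`: the right ends do not move inside a clique with at least four vertices -/
theorem flat (m : ℕ → ℕ) (hm : Monotone m) (a b p r : ℕ) (hap : a ≤ p) (hK : K5 m a b)
    (hr : r ≤ m p) (hrb : r + 1 ≤ b) (hr' : m p ≤ r) :
    ∀ k, p + k + 2 ≤ r → m (p + k) = r := by
  intro k
  induction k with
  | zero => intro _; rw [Nat.add_zero]; omega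
  | succ k ih =>
    intro hk
    have h1 := ih (by omega)
    have h2 : r ≤ m (p + (k + 1)) := by
      have := hm (show p + k ≤ p + (k + 1) by omega)
      omega
    by_contra hne
    have h3 : r + 1 ≤ m (p + (k + 1)) := by omega
    refine hK (p + k) (p + (k + 1)) (p + k + 2) (p + k + 3) (r + 1) (by omega) (by omega)
      (by omega) (by omega) (by omega) hrb ⟨by omega, h3, by omega⟩

/-- the induction claim -/
theorem claim (hGL : S_GL) (hGU : S_GU) (hGE : S_GE) (hGN : S_GN) (hCM : S_CM) (hCL : CLc)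
    (hSG : SGc) (hCD : CDc) (hUC : S_UC) (N : ℕ) (m : ℕ → ℕ) (hm : Monotone m) (a b : ℕ)
    (h1 : ∀ i, a ≤ i → i < b → i + 1 ≤ m i) (h2 : ∀ i, a ≤ i → i + 2 ≤ b → i + 2 ≤ m i)
    (hK : K5 m a b) (c : ℕ) : ∀ e p, b - (p + 1) = e → a < p → p + 1 ≤ b →
      min (m (p - 1)) b = p + 1 →
      TT2 m (qq N) (xx N) (Icc a (p + 1)) a p (eh (qq N) (xx N) c) ∈
        C2 N (c + (p + 2 - a)) (c + eE m (Icc a (p + 1))) →
      TT m (qq N) (xx N) (Icc a b) a b (eh (qq N) (xx N) c) ∈
        MCone N (c + (Icc a b).card) (c + eE m (Icc a b)) := by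
  intro e
  induction e using Nat.strong_induction_on with
  | _ e ih =>
    intro p he hap hpb hmin hF
    rcases Nat.eq_or_lt_of_le hpb with hb | hb
    · -- the end
      rw [← hb, hGE (AN N) N m (qq N) (xx N) a p hap.le (h1 p hap.le (by omega)),
        Nat.card_Icc]
      exact hCD N _ _ _ hF
    · have hmp1 : m (p - 1) = p + 1 := by omega
      have hu : ∀ u, a ≤ u → u < p → m u < p + 2 := by
        intro u _ hup
        have := hm (show u ≤ p - 1 by omega)
        omega
      have h3 : p + 2 ≤ m p := h2 p hap.le (by omega)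
      obtain ⟨-, hGN2, hGN3⟩ := hGN m hm
      rcases Nat.eq_or_lt_of_le (show p + 2 ≤ min (m p) b by omega) with hr | hr
      · -- one new vertex
        refine ih (b - (p + 1 + 1)) (by omega) (p + 1) rfl (by omega) (by omega) ?_ ?_
        · rw [show p + 1 - 1 = p from rfl, ← hr]
        · rw [show p + 1 + 1 = p + 2 from rfl,
            hGL (AN N) N m hm (qq N) (xx N) a p hap.le hu h3, hGN2 a p hap.le hu h3]
          have h4 := hCL N _ _ _ hF
          rw [show c + (p + 1 + 2 - a) = c + (p + 2 - a) + 1 by omega]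
          exact h4
      · -- a new clique
        obtain ⟨l, hl⟩ : ∃ l, min (m p) b = p + l + 3 := ⟨min (m p) b - (p + 3), by omega⟩
        have h4 : p + l + 3 ≤ m p := by omega
        refine ih (b - (p + l + 2 + 1)) (by omega) (p + l + 2) rfl (by omega) (by omega) ?_ ?_
        · rw [show p + l + 2 - 1 = p + (l + 1) by omega, show p + l + 2 + 1 = p + l + 3 from rfl]
          rcases Nat.lt_or_ge (p + l + 3) b with h5 | h5
          · have h6 := flat m hm a b p (p + l + 3) hap.le hK h4 h5 (by omega) (l + 1) (by omega)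
            rw [h6]
            omega
          · have h6 := hm (show p ≤ p + (l + 1) by omega)
            omega
        · rw [show p + l + 2 + 1 = p + l + 3 from rfl,
            hGU (AN N) N m hm (qq N) (xx N) a p l hap.le hu h4]
          have h5 := qf_smul_mem hCM N _ _ l _ (iot_mem (hUC N _ _ l _ (hSG N _ _ _ hF)))
          have h6 := hGN3 a p l hap.le hu h4
          have h7 := two_sum l
          rw [show c + (p + l + 2 + 2 - a) = c + (p + 2 - a) + l + 2 by omega,
            show c + eE m (Icc a (p + l + 3)) =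
              (∑ i ∈ range l, i) + (c + eE m (Icc a (p + 1)) + 1 + 4 * l + 4) by nlinarith]
          exact h5

theorem core (hGS : S_GS) (hGL : S_GL) (hGU : S_GU) (hGE : S_GE) (hGN : S_GN) (hCM : S_CM)
    (hCL : CLc) (hSG : SGc) (hCD : CDc) (hUC : S_UC) (hCW : S_CW) (hKM : S_KM)
    (N : ℕ) (m : ℕ → ℕ) (hm : Monotone m) (a b : ℕ) (hab : a < b)
    (h1 : ∀ i, a ≤ i → i < b → i + 1 ≤ m i) (h2 : ∀ i, a ≤ i → i + 2 ≤ b → i + 2 ≤ m i)
    (hK : K5 m a b) (c : ℕ) :
    TT m (qq N) (xx N) (Icc a b) a b (eh (qq N) (xx N) c) ∈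
      MCone N (c + (Icc a b).card) (c + eE m (Icc a b)) := by
  rcases Nat.lt_or_ge (m a) b with hb | hb
  · -- not a clique
    have h3 : a + 2 ≤ m a := by
      have := h1 a le_rfl hab
      exact h2 a le_rfl (by omega)
    obtain ⟨l, hl⟩ : ∃ l, m a = a + l + 2 := ⟨m a - (a + 2), by omega⟩
    refine claim hGL hGU hGE hGN hCM hCL hSG hCD hUC N m hm a b h1 h2 hK c
      (b - (a + l + 1 + 1)) (a + l + 1) rfl (by omega) (by omega) ?_ ?_
    · rw [show a + l + 1 - 1 = a + l from rfl, show a + l + 1 + 1 = a + l + 2 from rfl,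
        flat m hm a b a (a + l + 2) le_rfl hK hl.ge (by omega) hl.le l le_rfl]
      omega
    · rw [show a + l + 1 + 1 = a + l + 2 from rfl,
        hGS (AN N) N m hm (qq N) (xx N) a l hl.ge]
      have h5 := qf_smul_mem hCM N _ _ l _ (iot_mem (hCW N l c))
      have h6 := (hGN m hm).1 a l hl.ge
      have h7 := two_sum l
      rw [show c + (a + l + 1 + 2 - a) = c + l + 3 by omega,
        show c + eE m (Icc a (a + l + 2)) = (∑ i ∈ range l, i) + (c + 3 * l + 3) by nlinarith]
      exact h5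
  · -- clique
    refine hKM N m hm (Icc a b) a b (by simp [hab.le]) (by simp [hab.le]) hab
      (fun u hu => by simpa using hu) ?_ c
    intro u hu v hv huv
    rw [mem_Icc] at hu hv
    exact hv.2.trans (hb.trans (hm hu.1))

end BLKAux

/-- TASK BLK. The statements `S_CL`, `S_SG`, `S_CD` are implications, therefore their premises are
needed here. -/
theorem t_BLK (hCG : S_CG) (hOS : S_OS) (hA1 : S_A1) (hA2 : S_A2) (hA3 : S_A3) (hA4 : S_A4)
    (hA5a : S_A5a) (hA5b : S_A5b) (hA6 : S_A6) (hA7 : S_A7) (hA8 : S_A8) (hSTR : S_STR)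
    (hEXT : S_EXT) : S_BLK := by
  intro hGS hGL hGU hGE hGN hCM hCL hSG hCD hUC hCW hKM N m hm a b hab h1 h2 hK c
  exact BLKAux.core hGS hGL hGU hGE hGN hCM (hCL hCM hCG hOS hA3 hA4 hA5a hA5b)
    (hSG hCM hCG hOS hA3 hA5a hA7 hSTR hEXT) (hCD hCG hOS hA1 hA2 hA3 hA5a hA6 hA8) hUC hCW hKM
    N m hm a b hab h1 h2 hK c

end Pool.Agent.SWD
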