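import Pool.Agent.Lib.MP_263316_co.CB.Spec
import Pool.Agent.Lib.MP_263316_co.PUmul
import Pool.Agent.Lib.MP_263316_co.Cmul
import Pool.Agent.Lib.MP_263316_co.Msmul

/-!
# MP_263316_co, part CB, module CD: forgetting a mark and the cones
-/

set_option autoImplicit false

namespace Pool.Agent.SWD

open Finset Pool.Agent.SWC Pool.Agent.SWB

namespace CDAux

theorem PU_gen {i k d : ℕ} (h : 2 * i + k = d + 1) : (qX ^ i * Q k : PX) ∈ PU d :=
  AddSubmonoid.subset_closure ⟨i, k, h, rfl⟩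

theorem one_PU : (1 : PX) ∈ PU 0 := by
  have h := PU_gen (i := 0) (k := 1) (d := 0) (by norm_num)
  rwa [pow_zero, one_mul, Q_one] at h

theorem es_zero {R : Type} [CommRing R] {N : ℕ} (x : Fin N → R) : es x 0 = 1 := by
  simp [es]

theorem qq_pow (N i : ℕ) : (qq N) ^ i = MvPolynomial.C (qX ^ i) := by
  rw [map_pow]
  rfl

theorem qq_ne (N : ℕ) : qq N ≠ 1 := by
  intro h
  have h1 : (MvPolynomial.C Polynomial.X : AN N) = MvPolynomial.C 1 := by
    rw [map_one]
    exact h
  have h2 := MvPolynomial.C_injective (Fin N) PX h1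
  have h3 := congrArg (fun p : PX => p.coeff 1) h2
  simp [Polynomial.coeff_one] at h3

theorem dmi_zero {R : Type} [CommRing R] {N : ℕ} : dmi (0 : Fin N → Fin N → R) = 0 := by
  funext j
  simp [dmi]

theorem dmi_sum {R : Type} [CommRing R] {N : ℕ} {ι : Type} (s : Finset ι)
    (F : ι → Fin N → Fin N → R) : dmi (∑ i ∈ s, F i) = ∑ i ∈ s, dmi (F i) := by
  classical
  induction s using Finset.induction_on with
  | empty => rw [Finset.sum_empty, Finset.sum_empty, dmi_zero]
  | insert i s hi ih => rw [Finset.sum_insert hi, Finset.sum_insert hi, dmi_add, ih]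

theorem LL_zero {R : Type} [CommRing R] {N : ℕ} (q : R) (x : Fin N → R) :
    LL q x (0 : Fin N → Fin N → R) = 0 := by
  funext i j
  simp [LL]

theorem dpl_zero {R : Type} [CommRing R] {N : ℕ} (q : R) (x : Fin N → R) :
    dpl q x (0 : Fin N → R) = 0 := by
  funext i j
  simp [dpl]

/-- multiplication with an element of a cone -/
theorem smul_mem {N n d n' d' n'' d'' : ℕ} {u : AN N} {F : Fin N → AN N}
    (hu : u ∈ Cone N n' d') (hF : F ∈ MCone N n d) (h1 : n' + n = n'') (h2 : d' + d = d'') :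
    (fun j => u * F j) ∈ MCone N n'' d'' := by
  subst h1 h2
  exact t_Msmul (t_Cmul t_PUmul) N n d n' d' u F hu hF

/-- the basic elements of the marked cone -/
theorem gen_mem (hCG : S_CG) (N : ℕ) {d n d'' n'' c : ℕ} {p : PX} (hp : p ∈ PU d) (hn : 1 ≤ n)
    (h1 : c + n = n'') (h2 : d + n = d'' + 1) :
    (fun j => MvPolynomial.C p * es (xx N) c * eH (qq N) (xx N) n j) ∈ MCone N n'' d'' := by
  subst h1
  have h := (hCG N d p hp c).2.1 n hn
  have e : d + n - 1 = d'' := by omega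
  rwa [e] at h

/-- `dmi (dpl E_n)` -/
theorem dpl_mem (hCG : S_CG) (hOS : S_OS) (hA8 : S_A8) (N : ℕ) {n : ℕ} (hn : 1 ≤ n) :
    dmi (dpl (qq N) (xx N) (eH (qq N) (xx N) n)) ∈ MCone N (n + 1) n := by
  have e : dmi (dpl (qq N) (xx N) (eH (qq N) (xx N) n)) =
      (fun j => MvPolynomial.C 1 * es (xx N) 0 * eH (qq N) (xx N) (n + 1) j) +
      fun j => MvPolynomial.C (qX ^ 1 * Q (n - 1)) * es (xx N) n * eH (qq N) (xx N) 1 j := by
    funext j
    rw [hA8 hOS (AN N) N (qq N) (qq_ne N) (xx N) n hn j, Pi.add_apply, map_mul, ← qq_pow,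
      ← qn_qq, es_zero, map_one, one_mul, one_mul, pow_one]
  rw [e]
  refine AddSubmonoid.add_mem _ ?_ ?_
  · exact gen_mem hCG N one_PU (by omega) (by omega) (by omega)
  · exact gen_mem hCG N (d := n) (PU_gen (by omega)) le_rfl rfl rfl

/-- the case `iot bt` -/
theorem case1 (hCG : S_CG) (hOS : S_OS) (hA1 : S_A1) (N : ℕ) {n a : ℕ} (ha : 1 ≤ a)
    (hn : 2 * a + 2 ≤ n) :
    dmi (iot (qq N) (bt (qq N) (xx N) n a)) ∈ MCone N n (2 * a + n - 2) := by
  have e : dmi (iot (qq N) (bt (qq N) (xx N) n a)) =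
      (∑ i ∈ range (a + 1), fun j => MvPolynomial.C (qX ^ i * Q (2 * a - i)) *
        es (xx N) i * eH (qq N) (xx N) (n - i) j) +
      ∑ k ∈ range a, fun j => MvPolynomial.C (qX ^ (a + k + 1) * Q (n - a - 2 - k)) *
        es (xx N) (n - a + k) * eH (qq N) (xx N) (a - k) j := by
    funext j
    rw [hA1 hOS (AN N) N (qq N) (qq_ne N) (xx N) n a ha hn j]
    simp only [Pi.add_apply, Finset.sum_apply, qq_pow, qn_qq, map_mul]
  rw [e]
  refine AddSubmonoid.add_mem _ (AddSubmonoid.sum_mem _ fun i hi => ?_)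
    (AddSubmonoid.sum_mem _ fun i hi => ?_)
  · rw [mem_range] at hi
    exact gen_mem hCG N (d := 2 * a + i - 1) (PU_gen (by omega)) (by omega) (by omega) (by omega)
  · rw [mem_range] at hi
    exact gen_mem hCG N (d := a + i + n - 1) (PU_gen (by omega)) (by omega) (by omega) (by omega)

/-- the case `bn` -/
theorem case2 (hCG : S_CG) (hOS : S_OS) (hA6 : S_A6) (N : ℕ) {n a : ℕ} (ha : 1 ≤ a)
    (hn : 2 * a + 2 ≤ n) :
    dmi (bn (qq N) (xx N) n a) ∈ MCone N (n + 1) (2 * a + n) := by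
  have e : dmi (bn (qq N) (xx N) n a) =
      (∑ i ∈ range (a + 1), fun j => MvPolynomial.C (qX ^ i * Q (2 * a + 1 - i)) *
        es (xx N) i * eH (qq N) (xx N) (n + 1 - i) j) +
      ∑ i ∈ range (a + 1), fun j => MvPolynomial.C (qX ^ (a + i + 1) * Q (n - a - 1 - i)) *
        es (xx N) (n - a + i) * eH (qq N) (xx N) (a + 1 - i) j := by
    funext j
    rw [hA6 hOS (AN N) N (qq N) (qq_ne N) (xx N) n a ha hn j]
    simp only [Pi.add_apply, Finset.sum_apply, qq_pow, qn_qq, map_mul]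
  rw [e]
  refine AddSubmonoid.add_mem _ (AddSubmonoid.sum_mem _ fun i hi => ?_)
    (AddSubmonoid.sum_mem _ fun i hi => ?_)
  · rw [mem_range] at hi
    exact gen_mem hCG N (d := 2 * a + i) (PU_gen (by omega)) (by omega) (by omega) (by omega)
  · rw [mem_range] at hi
    exact gen_mem hCG N (d := a + i + n) (PU_gen (by omega)) (by omega) (by omega) (by omega)

/-- the case `LL (iot bt)` -/
theorem case3 (hCG : S_CG) (hOS : S_OS) (hA5 : S_A5a) (hA6 : S_A6) (hA8 : S_A8) (N : ℕ)
    {n a : ℕ} (ha : 1 ≤ a) (hn : 2 * a + 2 ≤ n) :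
    dmi (LL (qq N) (xx N) (iot (qq N) (bt (qq N) (xx N) n a))) ∈
      MCone N (n + 1) (2 * a + n) := by
  have e : LL (qq N) (xx N) (iot (qq N) (bt (qq N) (xx N) n a)) =
      bn (qq N) (xx N) n a +
      ((∑ i ∈ range (a + 1), fun j k => MvPolynomial.C (qX ^ (i + 1) * Q (2 * a - i - 1)) *
          es (xx N) i * dpl (qq N) (xx N) (eH (qq N) (xx N) (n - i)) j k) +
        ∑ i ∈ range a, fun j k => MvPolynomial.C (qX ^ (a + i + 2) * Q (n - a - 3 - i)) *
          es (xx N) (n - a + i) * dpl (qq N) (xx N) (eH (qq N) (xx N) (a - i)) j k) := by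
    funext j k
    rw [hA5 hOS (AN N) N (qq N) (qq_ne N) (xx N) n a ha hn j k]
    simp only [Pi.add_apply, Finset.sum_apply, qq_pow, qn_qq, map_mul]
  rw [e, dmi_add, dmi_add, dmi_sum, dmi_sum]
  refine AddSubmonoid.add_mem _ (case2 hCG hOS hA6 N ha hn)
    (AddSubmonoid.add_mem _ (AddSubmonoid.sum_mem _ fun i hi => ?_)
      (AddSubmonoid.sum_mem _ fun i hi => ?_))
  · rw [mem_range] at hi
    rw [dmi_smul]
    exact smul_mem (hCG N (2 * a + i) _ (PU_gen (by omega)) i).1
      (dpl_mem hCG hOS hA8 N (n := n - i) (by omega)) (by omega) (by omega)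
  · rw [mem_range] at hi
    rw [dmi_smul]
    exact smul_mem (hCG N (a + i + n) _ (PU_gen (by omega)) (n - a + i)).1
      (dpl_mem hCG hOS hA8 N (n := a - i) (by omega)) (by omega) (by omega)

/-- the case `iot Cn` -/
theorem case4 (hCG : S_CG) (hA2 : S_A2) (N : ℕ) {k : ℕ} (hk : 2 ≤ k) :
    dmi (iot (qq N) (Cn (qq N) (xx N) k)) ∈ MCone N k (2 * k - 3) := by
  have e : dmi (iot (qq N) (Cn (qq N) (xx N) k)) =
      fun j => MvPolynomial.C (qX ^ 0 * Q (k - 1)) * es (xx N) 0 * eH (qq N) (xx N) k j := by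
    funext j
    rw [hA2 (AN N) N (qq N) (xx N) k j, map_mul, ← qn_qq, es_zero, pow_zero, map_one, one_mul,
      mul_one]
  rw [e]
  exact gen_mem hCG N (d := k - 2) (PU_gen (by omega)) (by omega) (by omega) (by omega)

/-- the case `LL (iot Cn)` -/
theorem case5 (hCG : S_CG) (hOS : S_OS) (hA2 : S_A2) (hA3 : S_A3) (hA8 : S_A8) (N : ℕ) {k : ℕ}
    (hk : 2 ≤ k) :
    dmi (LL (qq N) (xx N) (iot (qq N) (Cn (qq N) (xx N) k))) ∈ MCone N (k + 1) (2 * k - 1) := by
  have e : LL (qq N) (xx N) (iot (qq N) (Cn (qq N) (xx N) k)) =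
      iot (qq N) (Cn (qq N) (xx N) (k + 1)) +
        fun i j => MvPolynomial.C (qX ^ 1 * Q (k - 2)) * es (xx N) 0 *
          dpl (qq N) (xx N) (eH (qq N) (xx N) k) i j := by
    funext i j
    rw [hA3 (AN N) N (qq N) (xx N) k hk i j, Pi.add_apply, Pi.add_apply, map_mul, ← qq_pow,
      ← qn_qq, es_zero, mul_one, pow_one]
  rw [e, dmi_add, dmi_smul]
  refine AddSubmonoid.add_mem _ ?_ ?_
  · have h := case4 hCG hA2 N (k := k + 1) (by omega)
    have e1 : 2 * (k + 1) - 3 = 2 * k - 1 := by omega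
    rwa [e1] at h
  · exact smul_mem (hCG N (k - 1) _ (PU_gen (by omega)) 0).1
      (dpl_mem hCG hOS hA8 N (n := k) (by omega)) (by omega) (by omega)

end CDAux

open CDAux

theorem t_CD : S_CD := by
  intro hCG hOS hA1 hA2 hA3 hA5 hA6 hA8 N n d F hF
  unfold C2 at hF
  induction hF using AddSubmonoid.closure_induction with
  | zero => rw [dmi_zero]; exact AddSubmonoid.zero_mem _
  | add F G _ _ hF hG => rw [dmi_add]; exact AddSubmonoid.add_mem _ hF hG
  | mem F hF =>
    rcases hF with (⟨f, hf, rfl⟩ | ⟨n', d', hn, hd, f, hf, rfl⟩) | ⟨n', d', hn, hd, G, hG, rfl⟩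
    · unfold SC at hf
      induction hf using AddSubmonoid.closure_induction with
      | zero => rw [dmi_iot_zero, dmi_zero]; exact AddSubmonoid.zero_mem _
      | add f g _ _ hf hg => rw [iot_add, dmi_add]; exact AddSubmonoid.add_mem _ hf hg
      | mem f hf =>
        rcases hf with ⟨n1, d1, n0, a, u, hu, ha, hna, h1, h2, rfl⟩ |
          ⟨n1, d1, k, u, hu, hk, h1, h2, rfl⟩
        · rw [iot_smul, dmi_smul]
          exact smul_mem hu (case1 hCG hOS hA1 N ha hna) (by omega) (by omega)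
        · rw [iot_smul, dmi_smul]
          exact smul_mem hu (case4 hCG hA2 N hk) (by omega) (by omega)
    · unfold SC at hf
      induction hf using AddSubmonoid.closure_induction with
      | zero => rw [dmi_iot_zero, LL_zero, dmi_zero]; exact AddSubmonoid.zero_mem _
      | add f g _ _ hf hg => rw [iot_add, LL_add, dmi_add]; exact AddSubmonoid.add_mem _ hf hg
      | mem f hf =>
        rcases hf with ⟨n1, d1, n0, a, u, hu, ha, hna, h1, h2, rfl⟩ |
          ⟨n1, d1, k, u, hu, hk, h1, h2, rfl⟩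
        · rw [iot_smul, LL_smul, dmi_smul]
          exact smul_mem hu (case3 hCG hOS hA5 hA6 hA8 N ha hna) (by omega) (by omega)
        · rw [iot_smul, LL_smul, dmi_smul]
          exact smul_mem hu (case5 hCG hOS hA2 hA3 hA8 N hk) (by omega) (by omega)
    · unfold MCone at hG
      induction hG using AddSubmonoid.closure_induction with
      | zero => rw [dpl_zero, dmi_zero]; exact AddSubmonoid.zero_mem _
      | add f g _ _ hf hg => rw [dpl_add, dmi_add]; exact AddSubmonoid.add_mem _ hf hg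
      | mem G hG =>
        obtain ⟨n1, d1, c, u, hu, h1, h2, rfl⟩ := hG
        have e5 : eh (qq N) (xx N) c = eH (qq N) (xx N) (c + 1) := by
          funext j
          rw [eH_succ]
        rw [dpl_smul, dmi_smul, e5]
        exact smul_mem hu (dpl_mem hCG hOS hA8 N (by omega)) (by omega) (by omega)

end Pool.Agent.SWD
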