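import Pool.Agent.Lib.MP_263316_co.CB.Spec

/-!
MP_263316_co, CB/CG: elements of the cones.
-/

set_option autoImplicit false

namespace Pool.Agent.SWD

open Finset Pool.Agent.SWC Pool.Agent.SWB

namespace CGAux

theorem cone_mem (N : ℕ) {d : ℕ} {p : PX} (hp : p ∈ PU d) (c : ℕ) :
    MvPolynomial.C p * es (xx N) c ∈ Cone N c d :=
  AddSubmonoid.subset_closure ⟨{c}, p, Multiset.sum_singleton c, hp, by
    rw [Multiset.map_singleton, Multiset.prod_singleton]⟩

theorem X_pow_mul {d : ℕ} {p : PX} (hp : p ∈ PU d) (k : ℕ) : qX ^ k * p ∈ PU (d + 2 * k) := by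
  refine AddSubmonoid.closure_induction (motive := fun p _ => qX ^ k * p ∈ PU (d + 2 * k)) ?_
        ?_ ?_ hp
  · rintro x ⟨i, k', h, rfl⟩
    rw [← mul_assoc, ← pow_add]
    exact AddSubmonoid.subset_closure ⟨k + i, k', by omega, rfl⟩
  · rw [mul_zero]
    exact AddSubmonoid.zero_mem _
  · intro x y _ _ hx hy
    rw [mul_add]
    exact AddSubmonoid.add_mem _ hx hy

theorem prod_mem (N : ℕ) {d : ℕ} {p : PX} (hp : p ∈ PU d) (c c' : ℕ) :
    MvPolynomial.C p * es (xx N) c * es (xx N) c' ∈ Cone N (c + c') d :=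
  AddSubmonoid.subset_closure ⟨{c, c'}, p, by simp, hp, by
    simp [mul_assoc]⟩

end CGAux

theorem t_CG : S_CG := by
  intro N d p hp c
  refine ⟨CGAux.cone_mem N hp c, fun n hn => ?_, fun n hn => ?_, fun n a ha hn => ?_,
    fun n hn => ?_⟩
  · obtain ⟨n, rfl⟩ := Nat.exists_eq_add_of_le' hn
    refine AddSubmonoid.subset_closure ⟨c, d, n, _, CGAux.cone_mem N hp c, by omega, by omega, ?_⟩
    funext j
    rw [eH_succ]
  · exact AddSubmonoid.subset_closure (Or.inr ⟨c, d, n, _, CGAux.cone_mem N hp c, hn, rfl,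
      by omega, rfl⟩)
  · exact AddSubmonoid.subset_closure (Or.inl ⟨c, d, n, a, _, CGAux.cone_mem N hp c, ha, hn, rfl,
      by omega, rfl⟩)
  · have e : (fun i j => MvPolynomial.C p * es (xx N) c * Sn (qq N) (xx N) n i j) =
        ∑ c' ∈ range (n - 1), (fun i j => MvPolynomial.C (qX ^ c' * p) * es (xx N) c *
          es (xx N) c' * Cn (qq N) (xx N) (n - c') i j) := by
      funext i j
      rw [Finset.sum_apply, Finset.sum_apply]
      unfold Sn
      rw [mul_sum]
      refine sum_congr rfl fun c' _ => ?_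
      rw [qq_eq, map_mul, map_pow]
      ring
    rw [e]
    refine AddSubmonoid.sum_mem _ fun c' hc' => ?_
    rw [mem_range] at hc'
    exact AddSubmonoid.subset_closure (Or.inr ⟨c + c', d + 2 * c', n - c', _,
      CGAux.prod_mem N (CGAux.X_pow_mul hp c') c c', by omega, by omega, by omega, rfl⟩)

end Pool.Agent.SWD
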