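import Pool.Agent.Lib.MP_263316_co.CB.SpecB

set_option autoImplicit false
set_option linter.unusedVariables false
set_option linter.unusedSimpArgs false
set_option linter.unusedTactic false
set_option linter.unreachableTactic false

namespace Pool.Agent.SWD

open Finset Pool.Agent.SWC Pool.Agent.SWB

namespace CHBAux

theorem h000 {K : Type} [Field K] (q t u v X Y : K)
    (hq : q ≠ 0) (h1 : 1 - q ≠ 0) (h2 : u - t ≠ 0) (h3 : u - q * t ≠ 0) (h4 : u - q ^ 2 * t ≠ 0)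
    (h5 : q * u - t ≠ 0) (h6 : v - t ≠ 0) (h7 : v - q * t ≠ 0) (h8 : v - q ^ 2 * t ≠ 0)
    (h9 : v - q ^ 3 * t ≠ 0) (h10 : v - u ≠ 0) (h11 : v - q ^ 2 * u ≠ 0) :
    ((v - q * u) / ((1 - q) ^ 2 * (v - u) * (v - q ^ 2 * u) * (q * u - t) * (v - t))) * ((1 + q ^ 2
    * u * X) * (1 + q * v * X)) * ((1 + q ^ 2 * u * Y) * (1 + q * v * Y)) =
    (v - q * u) * ((1 + q ^ 2 * u * X) * (1 + q * v * X)) * ((1 + q ^ 2 * u * Y) * (1 + q * v * Y))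
    / ((1 - q) ^ 2 * (q * u - t) * (v - t) * (v - q ^ 2 * u) * (v - u)) := by
  have g1 : q * u - q ^ 2 * t = q * (u - q * t) := by ring
  have g2 : v - q * (q ^ 2 * t) = v - q ^ 3 * t := by ring
  have g3 : q * u - q * t = q * (u - t) := by ring
  have g4 : v - q * (q * t) = v - q ^ 2 * t := by ring
  have g5 : q * u - q ^ 3 * t = q * (u - q ^ 2 * t) := by ring
  try simp only [g1, g2, g3, g4, g5]
  field_simp
  all_goals ring

theorem h00u {K : Type} [Field K] (q t u v X Y : K)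
    (hq : q ≠ 0) (h1 : 1 - q ≠ 0) (h2 : u - t ≠ 0) (h3 : u - q * t ≠ 0) (h4 : u - q ^ 2 * t ≠ 0)
    (h5 : q * u - t ≠ 0) (h6 : v - t ≠ 0) (h7 : v - q * t ≠ 0) (h8 : v - q ^ 2 * t ≠ 0)
    (h9 : v - q ^ 3 * t ≠ 0) (h10 : v - u ≠ 0) (h11 : v - q ^ 2 * u ≠ 0) :
    -((1 / ((1 - q) ^ 2 * (v - u) * (q * u - t) * (v - q * t))) * ((1 + q ^ 2 * u * X) * (1 + q * v
    * X)) * ((1 + q ^ 2 * u * Y) * (1 + q * v * Y))) + (1 / ((1 - q) * (v - q * t))) * (1 / ((1 - q)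
    * (v - u) * (q * u - (q * t)))) * ((1 + q ^ 2 * u * X) * (1 + q * v * X)) * (q * ((1 + q * u *
    Y) * (1 + q * v * Y))) =
    -(u * ((1 + q * v * X) * (1 + q * v * Y)) * ((1 + q ^ 2 * u * X) * (1 + q * t * Y) / (q * u -
    t)) / ((1 - q) * (v - q * t) * (v - u) * (u - t))) := by
  have g1 : q * u - q ^ 2 * t = q * (u - q * t) := by ring
  have g2 : v - q * (q ^ 2 * t) = v - q ^ 3 * t := by ring
  have g3 : q * u - q * t = q * (u - t) := by ring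
  have g4 : v - q * (q * t) = v - q ^ 2 * t := by ring
  have g5 : q * u - q ^ 3 * t = q * (u - q ^ 2 * t) := by ring
  try simp only [g1, g2, g3, g4, g5]
  field_simp
  all_goals ring

theorem h00v {K : Type} [Field K] (q t u v X Y : K)
    (hq : q ≠ 0) (h1 : 1 - q ≠ 0) (h2 : u - t ≠ 0) (h3 : u - q * t ≠ 0) (h4 : u - q ^ 2 * t ≠ 0)
    (h5 : q * u - t ≠ 0) (h6 : v - t ≠ 0) (h7 : v - q * t ≠ 0) (h8 : v - q ^ 2 * t ≠ 0)
    (h9 : v - q ^ 3 * t ≠ 0) (h10 : v - u ≠ 0) (h11 : v - q ^ 2 * u ≠ 0) :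
    -((1 / ((1 - q) ^ 2 * (v - q ^ 2 * u) * (v - t) * (u - t))) * ((1 + q ^ 2 * u * X) * (1 + q * v
    * X)) * ((1 + q ^ 2 * u * Y) * (1 + q * v * Y))) + (1 / ((1 - q) * q * (u - t))) * (q / ((1 - q)
    * (v - q ^ 2 * u) * (v - (q * t)))) * ((1 + q ^ 2 * u * X) * (1 + q * v * X)) * (q * ((1 + q ^ 2
    * u * Y) * (1 + v * Y))) =
    -(v * ((1 + q ^ 2 * u * X) * (1 + q ^ 2 * u * Y)) * ((1 + q * v * X) * (1 + q * t * Y) / (v -
    t)) / ((1 - q) * (u - t) * (v - q ^ 2 * u) * (v - q * t))) := by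
  have g1 : q * u - q ^ 2 * t = q * (u - q * t) := by ring
  have g2 : v - q * (q ^ 2 * t) = v - q ^ 3 * t := by ring
  have g3 : q * u - q * t = q * (u - t) := by ring
  have g4 : v - q * (q * t) = v - q ^ 2 * t := by ring
  have g5 : q * u - q ^ 3 * t = q * (u - q ^ 2 * t) := by ring
  try simp only [g1, g2, g3, g4, g5]
  field_simp
  all_goals ring

theorem h003 {K : Type} [Field K] (q t u v X Y : K)
    (hq : q ≠ 0) (h1 : 1 - q ≠ 0) (h2 : u - t ≠ 0) (h3 : u - q * t ≠ 0) (h4 : u - q ^ 2 * t ≠ 0)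
    (h5 : q * u - t ≠ 0) (h6 : v - t ≠ 0) (h7 : v - q * t ≠ 0) (h8 : v - q ^ 2 * t ≠ 0)
    (h9 : v - q ^ 3 * t ≠ 0) (h10 : v - u ≠ 0) (h11 : v - q ^ 2 * u ≠ 0) :
    ((v - q * u) / ((1 - q) ^ 2 * (v - u) * (v - q ^ 2 * u) * (u - t) * (v - q * t))) * ((1 + q ^ 2
    * u * X) * (1 + q * v * X)) * ((1 + q ^ 2 * u * Y) * (1 + q * v * Y)) - (1 / ((1 - q) * (v - q *
    t))) * (1 / ((1 - q) * (v - u) * (q * u - (q * t)))) * ((1 + q ^ 2 * u * X) * (1 + q * v * X)) *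
    (q * ((1 + q * u * Y) * (1 + q * v * Y))) - (1 / ((1 - q) * q * (u - t))) * (q / ((1 - q) * (v -
    q ^ 2 * u) * (v - (q * t)))) * ((1 + q ^ 2 * u * X) * (1 + q * v * X)) * (q * ((1 + q ^ 2 * u *
    Y) * (1 + v * Y))) + ((v - q * u) / ((1 - q) ^ 2 * (v - u) * (v - q ^ 2 * u) * (q * u - (q * t))
    * (v - (q * t)))) * ((1 + q ^ 2 * u * X) * (1 + q * v * X)) * (q ^ 2 * ((1 + q * u * Y) * (1 + v
    * Y))) =
    0 := by
  have g1 : q * u - q ^ 2 * t = q * (u - q * t) := by ring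
  have g2 : v - q * (q ^ 2 * t) = v - q ^ 3 * t := by ring
  have g3 : q * u - q * t = q * (u - t) := by ring
  have g4 : v - q * (q * t) = v - q ^ 2 * t := by ring
  have g5 : q * u - q ^ 3 * t = q * (u - q ^ 2 * t) := by ring
  try simp only [g1, g2, g3, g4, g5]
  field_simp
  all_goals ring

theorem h0uu {K : Type} [Field K] (q t u v X Y : K)
    (hq : q ≠ 0) (h1 : 1 - q ≠ 0) (h2 : u - t ≠ 0) (h3 : u - q * t ≠ 0) (h4 : u - q ^ 2 * t ≠ 0)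
    (h5 : q * u - t ≠ 0) (h6 : v - t ≠ 0) (h7 : v - q * t ≠ 0) (h8 : v - q ^ 2 * t ≠ 0)
    (h9 : v - q ^ 3 * t ≠ 0) (h10 : v - u ≠ 0) (h11 : v - q ^ 2 * u ≠ 0) :
    -((1 / ((1 - q) * (v - q * t))) * (1 / ((1 - q) * (v - u) * (q * u - (q * t)))) * ((1 + q ^ 2 *
    u * X) * (1 + q * v * X)) * (q * ((1 + q * u * Y) * (1 + q * v * Y)))) + (1 / ((1 - q) * (v - q
    * t))) * (1 / ((1 - q) * (v - u) * (q * u - (q ^ 2 * t)))) * (q * ((1 + q * u * X) * (1 + q * v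
    * X))) * (q * ((1 + q * u * Y) * (1 + q * v * Y))) =
    -(u * ((1 + q * v * X) * (1 + q * v * Y)) * (q * (1 + q ^ 2 * t * X) * (1 + q * u * Y) / (q * u
    - q ^ 2 * t)) / ((1 - q) * (v - q * t) * (v - u) * (u - t))) := by
  have g1 : q * u - q ^ 2 * t = q * (u - q * t) := by ring
  have g2 : v - q * (q ^ 2 * t) = v - q ^ 3 * t := by ring
  have g3 : q * u - q * t = q * (u - t) := by ring
  have g4 : v - q * (q * t) = v - q ^ 2 * t := by ring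
  have g5 : q * u - q ^ 3 * t = q * (u - q ^ 2 * t) := by ring
  try simp only [g1, g2, g3, g4, g5]
  field_simp
  all_goals ring

theorem h0u3 {K : Type} [Field K] (q t u v X Y : K)
    (hq : q ≠ 0) (h1 : 1 - q ≠ 0) (h2 : u - t ≠ 0) (h3 : u - q * t ≠ 0) (h4 : u - q ^ 2 * t ≠ 0)
    (h5 : q * u - t ≠ 0) (h6 : v - t ≠ 0) (h7 : v - q * t ≠ 0) (h8 : v - q ^ 2 * t ≠ 0)
    (h9 : v - q ^ 3 * t ≠ 0) (h10 : v - u ≠ 0) (h11 : v - q ^ 2 * u ≠ 0) :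
    (1 / ((1 - q) * (v - q * t))) * (1 / ((1 - q) * (v - u) * (q * u - (q * t)))) * ((1 + q ^ 2 * u
    * X) * (1 + q * v * X)) * (q * ((1 + q * u * Y) * (1 + q * v * Y))) - (1 / ((1 - q) ^ 2 * (v -
    u) * (q * u - (q * t)) * (v - q * (q * t)))) * ((1 + q ^ 2 * u * X) * (1 + q * v * X)) * (q ^ 2
    * ((1 + q * u * Y) * (1 + v * Y))) - (1 / ((1 - q) * (v - q * t))) * (1 / ((1 - q) * (v - u) *
    (q * u - (q ^ 2 * t)))) * (q * ((1 + q * u * X) * (1 + q * v * X))) * (q * ((1 + q * u * Y) * (1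
    + q * v * Y))) + (1 / ((1 - q) * (v - q * (q * t)))) * (1 / ((1 - q) * (v - u) * (q * u - (q ^ 2
    * t)))) * (q * ((1 + q * u * X) * (1 + q * v * X))) * (q ^ 2 * ((1 + q * u * Y) * (1 + v * Y))) =
    u * v * ((1 + q ^ 2 * t * X) * (1 + q ^ 2 * t * Y)) * ((1 + q * v * X) * (1 + q * u * Y) / (v -
    u)) / ((u - t) * (u - q * t) * (v - q * t) * (v - q ^ 2 * t)) := by
  have g1 : q * u - q ^ 2 * t = q * (u - q * t) := by ring
  have g2 : v - q * (q ^ 2 * t) = v - q ^ 3 * t := by ring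
  have g3 : q * u - q * t = q * (u - t) := by ring
  have g4 : v - q * (q * t) = v - q ^ 2 * t := by ring
  have g5 : q * u - q ^ 3 * t = q * (u - q ^ 2 * t) := by ring
  try simp only [g1, g2, g3, g4, g5]
  field_simp
  all_goals ring

theorem h0vv {K : Type} [Field K] (q t u v X Y : K)
    (hq : q ≠ 0) (h1 : 1 - q ≠ 0) (h2 : u - t ≠ 0) (h3 : u - q * t ≠ 0) (h4 : u - q ^ 2 * t ≠ 0)
    (h5 : q * u - t ≠ 0) (h6 : v - t ≠ 0) (h7 : v - q * t ≠ 0) (h8 : v - q ^ 2 * t ≠ 0)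
    (h9 : v - q ^ 3 * t ≠ 0) (h10 : v - u ≠ 0) (h11 : v - q ^ 2 * u ≠ 0) :
    -((1 / ((1 - q) * q * (u - t))) * (q / ((1 - q) * (v - q ^ 2 * u) * (v - (q * t)))) * ((1 + q ^
    2 * u * X) * (1 + q * v * X)) * (q * ((1 + q ^ 2 * u * Y) * (1 + v * Y)))) + (1 / ((1 - q) * q *
    (u - t))) * (q / ((1 - q) * (v - q ^ 2 * u) * (v - (q ^ 2 * t)))) * (q * ((1 + q ^ 2 * u * X) *
    (1 + v * X))) * (q * ((1 + q ^ 2 * u * Y) * (1 + v * Y))) =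
    -(v * ((1 + q ^ 2 * u * X) * (1 + q ^ 2 * u * Y)) * (q * (1 + q ^ 2 * t * X) * (1 + v * Y) / (v
    - q ^ 2 * t)) / ((1 - q) * (u - t) * (v - q ^ 2 * u) * (v - q * t))) := by
  have g1 : q * u - q ^ 2 * t = q * (u - q * t) := by ring
  have g2 : v - q * (q ^ 2 * t) = v - q ^ 3 * t := by ring
  have g3 : q * u - q * t = q * (u - t) := by ring
  have g4 : v - q * (q * t) = v - q ^ 2 * t := by ring
  have g5 : q * u - q ^ 3 * t = q * (u - q ^ 2 * t) := by ring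
  try simp only [g1, g2, g3, g4, g5]
  field_simp
  all_goals ring

theorem h0v3 {K : Type} [Field K] (q t u v X Y : K)
    (hq : q ≠ 0) (h1 : 1 - q ≠ 0) (h2 : u - t ≠ 0) (h3 : u - q * t ≠ 0) (h4 : u - q ^ 2 * t ≠ 0)
    (h5 : q * u - t ≠ 0) (h6 : v - t ≠ 0) (h7 : v - q * t ≠ 0) (h8 : v - q ^ 2 * t ≠ 0)
    (h9 : v - q ^ 3 * t ≠ 0) (h10 : v - u ≠ 0) (h11 : v - q ^ 2 * u ≠ 0) :
    (1 / ((1 - q) * q * (u - t))) * (q / ((1 - q) * (v - q ^ 2 * u) * (v - (q * t)))) * ((1 + q ^ 2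
    * u * X) * (1 + q * v * X)) * (q * ((1 + q ^ 2 * u * Y) * (1 + v * Y))) - (1 / ((1 - q) ^ 2 * (v
    - q ^ 2 * u) * (v - (q * t)) * (u - (q * t)))) * ((1 + q ^ 2 * u * X) * (1 + q * v * X)) * (q ^
    2 * ((1 + q * u * Y) * (1 + v * Y))) - (1 / ((1 - q) * q * (u - t))) * (q / ((1 - q) * (v - q ^
    2 * u) * (v - (q ^ 2 * t)))) * (q * ((1 + q ^ 2 * u * X) * (1 + v * X))) * (q * ((1 + q ^ 2 * u
    * Y) * (1 + v * Y))) + (1 / ((1 - q) * q * (u - (q * t)))) * (q / ((1 - q) * (v - q ^ 2 * u) *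
    (v - (q ^ 2 * t)))) * (q * ((1 + q ^ 2 * u * X) * (1 + v * X))) * (q ^ 2 * ((1 + q * u * Y) * (1
    + v * Y))) =
    u * v * ((1 + q ^ 2 * t * X) * (1 + q ^ 2 * t * Y)) * (q * (1 + q ^ 2 * u * X) * (1 + v * Y) /
    (v - q ^ 2 * u)) / ((u - t) * (u - q * t) * (v - q * t) * (v - q ^ 2 * t)) := by
  have g1 : q * u - q ^ 2 * t = q * (u - q * t) := by ring
  have g2 : v - q * (q ^ 2 * t) = v - q ^ 3 * t := by ring
  have g3 : q * u - q * t = q * (u - t) := by ring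
  have g4 : v - q * (q * t) = v - q ^ 2 * t := by ring
  have g5 : q * u - q ^ 3 * t = q * (u - q ^ 2 * t) := by ring
  try simp only [g1, g2, g3, g4, g5]
  field_simp
  all_goals ring

theorem h033 {K : Type} [Field K] (q t u v X Y : K)
    (hq : q ≠ 0) (h1 : 1 - q ≠ 0) (h2 : u - t ≠ 0) (h3 : u - q * t ≠ 0) (h4 : u - q ^ 2 * t ≠ 0)
    (h5 : q * u - t ≠ 0) (h6 : v - t ≠ 0) (h7 : v - q * t ≠ 0) (h8 : v - q ^ 2 * t ≠ 0)
    (h9 : v - q ^ 3 * t ≠ 0) (h10 : v - u ≠ 0) (h11 : v - q ^ 2 * u ≠ 0) :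
    ((v - q * u) / ((1 - q) ^ 2 * (v - u) * (v - q ^ 2 * u) * (u - (q * t)) * (v - q * (q * t)))) *
    ((1 + q ^ 2 * u * X) * (1 + q * v * X)) * (q ^ 2 * ((1 + q * u * Y) * (1 + v * Y))) - (1 / ((1 -
    q) * (v - q * (q * t)))) * (1 / ((1 - q) * (v - u) * (q * u - (q ^ 2 * t)))) * (q * ((1 + q * u
    * X) * (1 + q * v * X))) * (q ^ 2 * ((1 + q * u * Y) * (1 + v * Y))) - (1 / ((1 - q) * q * (u -
    (q * t)))) * (q / ((1 - q) * (v - q ^ 2 * u) * (v - (q ^ 2 * t)))) * (q * ((1 + q ^ 2 * u * X) *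
    (1 + v * X))) * (q ^ 2 * ((1 + q * u * Y) * (1 + v * Y))) + ((v - q * u) / ((1 - q) ^ 2 * (v -
    u) * (v - q ^ 2 * u) * (q * u - (q ^ 2 * t)) * (v - (q ^ 2 * t)))) * (q ^ 2 * ((1 + q * u * X) *
    (1 + v * X))) * (q ^ 2 * ((1 + q * u * Y) * (1 + v * Y))) =
    0 := by
  have g1 : q * u - q ^ 2 * t = q * (u - q * t) := by ring
  have g2 : v - q * (q ^ 2 * t) = v - q ^ 3 * t := by ring
  have g3 : q * u - q * t = q * (u - t) := by ring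
  have g4 : v - q * (q * t) = v - q ^ 2 * t := by ring
  have g5 : q * u - q ^ 3 * t = q * (u - q ^ 2 * t) := by ring
  try simp only [g1, g2, g3, g4, g5]
  field_simp
  all_goals ring

theorem huuu {K : Type} [Field K] (q t u v X Y : K)
    (hq : q ≠ 0) (h1 : 1 - q ≠ 0) (h2 : u - t ≠ 0) (h3 : u - q * t ≠ 0) (h4 : u - q ^ 2 * t ≠ 0)
    (h5 : q * u - t ≠ 0) (h6 : v - t ≠ 0) (h7 : v - q * t ≠ 0) (h8 : v - q ^ 2 * t ≠ 0)
    (h9 : v - q ^ 3 * t ≠ 0) (h10 : v - u ≠ 0) (h11 : v - q ^ 2 * u ≠ 0) :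
    -((1 / ((1 - q) * (v - q * t))) * (1 / ((1 - q) * (v - u) * (q * u - (q ^ 2 * t)))) * (q * ((1 +
    q * u * X) * (1 + q * v * X))) * (q * ((1 + q * u * Y) * (1 + q * v * Y)))) =
    -(q * ((1 + q * v * X) * (1 + q * u * X)) * ((1 + q * v * Y) * (1 + q * u * Y)) / ((1 - q) ^ 2 *
    (v - q * t) * (v - u) * (u - q * t))) := by
  have g1 : q * u - q ^ 2 * t = q * (u - q * t) := by ring
  have g2 : v - q * (q ^ 2 * t) = v - q ^ 3 * t := by ring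
  have g3 : q * u - q * t = q * (u - t) := by ring
  have g4 : v - q * (q * t) = v - q ^ 2 * t := by ring
  have g5 : q * u - q ^ 3 * t = q * (u - q ^ 2 * t) := by ring
  try simp only [g1, g2, g3, g4, g5]
  field_simp
  all_goals ring

theorem huu3 {K : Type} [Field K] (q t u v X Y : K)
    (hq : q ≠ 0) (h1 : 1 - q ≠ 0) (h2 : u - t ≠ 0) (h3 : u - q * t ≠ 0) (h4 : u - q ^ 2 * t ≠ 0)
    (h5 : q * u - t ≠ 0) (h6 : v - t ≠ 0) (h7 : v - q * t ≠ 0) (h8 : v - q ^ 2 * t ≠ 0)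
    (h9 : v - q ^ 3 * t ≠ 0) (h10 : v - u ≠ 0) (h11 : v - q ^ 2 * u ≠ 0) :
    (1 / ((1 - q) * (v - q * t))) * (1 / ((1 - q) * (v - u) * (q * u - (q ^ 2 * t)))) * (q * ((1 + q
    * u * X) * (1 + q * v * X))) * (q * ((1 + q * u * Y) * (1 + q * v * Y))) - (1 / ((1 - q) * (v -
    q * (q * t)))) * (1 / ((1 - q) * (v - u) * (q * u - (q ^ 2 * t)))) * (q * ((1 + q * u * X) * (1
    + q * v * X))) * (q ^ 2 * ((1 + q * u * Y) * (1 + v * Y))) =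
    q * v * ((1 + q * u * X) * (1 + q * u * Y)) * ((1 + q * v * X) * (1 + q ^ 2 * t * Y) / (v - q *
    t)) / ((1 - q) * (u - q * t) * (v - q ^ 2 * t) * (v - u)) := by
  have g1 : q * u - q ^ 2 * t = q * (u - q * t) := by ring
  have g2 : v - q * (q ^ 2 * t) = v - q ^ 3 * t := by ring
  have g3 : q * u - q * t = q * (u - t) := by ring
  have g4 : v - q * (q * t) = v - q ^ 2 * t := by ring
  have g5 : q * u - q ^ 3 * t = q * (u - q ^ 2 * t) := by ring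
  try simp only [g1, g2, g3, g4, g5]
  field_simp
  all_goals ring

theorem hu33 {K : Type} [Field K] (q t u v X Y : K)
    (hq : q ≠ 0) (h1 : 1 - q ≠ 0) (h2 : u - t ≠ 0) (h3 : u - q * t ≠ 0) (h4 : u - q ^ 2 * t ≠ 0)
    (h5 : q * u - t ≠ 0) (h6 : v - t ≠ 0) (h7 : v - q * t ≠ 0) (h8 : v - q ^ 2 * t ≠ 0)
    (h9 : v - q ^ 3 * t ≠ 0) (h10 : v - u ≠ 0) (h11 : v - q ^ 2 * u ≠ 0) :
    (1 / ((1 - q) * (v - q * (q * t)))) * (1 / ((1 - q) * (v - u) * (q * u - (q ^ 2 * t)))) * (q *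
    ((1 + q * u * X) * (1 + q * v * X))) * (q ^ 2 * ((1 + q * u * Y) * (1 + v * Y))) - (1 / ((1 - q)
    ^ 2 * (v - u) * (q * u - (q ^ 2 * t)) * (v - q * (q ^ 2 * t)))) * (q ^ 2 * ((1 + q * u * X) * (1
    + v * X))) * (q ^ 2 * ((1 + q * u * Y) * (1 + v * Y))) =
    q * v * ((1 + q * u * X) * (1 + q * u * Y)) * (q * (1 + q ^ 3 * t * X) * (1 + v * Y) / (v - q ^
    3 * t)) / ((1 - q) * (u - q * t) * (v - q ^ 2 * t) * (v - u)) := by
  have g1 : q * u - q ^ 2 * t = q * (u - q * t) := by ring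
  have g2 : v - q * (q ^ 2 * t) = v - q ^ 3 * t := by ring
  have g3 : q * u - q * t = q * (u - t) := by ring
  have g4 : v - q * (q * t) = v - q ^ 2 * t := by ring
  have g5 : q * u - q ^ 3 * t = q * (u - q ^ 2 * t) := by ring
  try simp only [g1, g2, g3, g4, g5]
  field_simp
  all_goals ring

theorem hvvv {K : Type} [Field K] (q t u v X Y : K)
    (hq : q ≠ 0) (h1 : 1 - q ≠ 0) (h2 : u - t ≠ 0) (h3 : u - q * t ≠ 0) (h4 : u - q ^ 2 * t ≠ 0)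
    (h5 : q * u - t ≠ 0) (h6 : v - t ≠ 0) (h7 : v - q * t ≠ 0) (h8 : v - q ^ 2 * t ≠ 0)
    (h9 : v - q ^ 3 * t ≠ 0) (h10 : v - u ≠ 0) (h11 : v - q ^ 2 * u ≠ 0) :
    -((1 / ((1 - q) * q * (u - t))) * (q / ((1 - q) * (v - q ^ 2 * u) * (v - (q ^ 2 * t)))) * (q *
    ((1 + q ^ 2 * u * X) * (1 + v * X))) * (q * ((1 + q ^ 2 * u * Y) * (1 + v * Y)))) =
    -(q ^ 2 * ((1 + q ^ 2 * u * X) * (1 + v * X)) * ((1 + q ^ 2 * u * Y) * (1 + v * Y)) / ((1 - q) ^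
    2 * (u - t) * (v - q ^ 2 * u) * (v - q ^ 2 * t))) := by
  have g1 : q * u - q ^ 2 * t = q * (u - q * t) := by ring
  have g2 : v - q * (q ^ 2 * t) = v - q ^ 3 * t := by ring
  have g3 : q * u - q * t = q * (u - t) := by ring
  have g4 : v - q * (q * t) = v - q ^ 2 * t := by ring
  have g5 : q * u - q ^ 3 * t = q * (u - q ^ 2 * t) := by ring
  try simp only [g1, g2, g3, g4, g5]
  field_simp
  all_goals ring

theorem hvv3 {K : Type} [Field K] (q t u v X Y : K)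
    (hq : q ≠ 0) (h1 : 1 - q ≠ 0) (h2 : u - t ≠ 0) (h3 : u - q * t ≠ 0) (h4 : u - q ^ 2 * t ≠ 0)
    (h5 : q * u - t ≠ 0) (h6 : v - t ≠ 0) (h7 : v - q * t ≠ 0) (h8 : v - q ^ 2 * t ≠ 0)
    (h9 : v - q ^ 3 * t ≠ 0) (h10 : v - u ≠ 0) (h11 : v - q ^ 2 * u ≠ 0) :
    (1 / ((1 - q) * q * (u - t))) * (q / ((1 - q) * (v - q ^ 2 * u) * (v - (q ^ 2 * t)))) * (q * ((1
    + q ^ 2 * u * X) * (1 + v * X))) * (q * ((1 + q ^ 2 * u * Y) * (1 + v * Y))) - (1 / ((1 - q) * q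
    * (u - (q * t)))) * (q / ((1 - q) * (v - q ^ 2 * u) * (v - (q ^ 2 * t)))) * (q * ((1 + q ^ 2 * u
    * X) * (1 + v * X))) * (q ^ 2 * ((1 + q * u * Y) * (1 + v * Y))) =
    q ^ 3 * u * ((1 + v * X) * (1 + v * Y)) * ((1 + q ^ 2 * u * X) * (1 + q ^ 2 * t * Y) / (q * u -
    q * t)) / ((1 - q) * (v - q ^ 2 * t) * (u - q * t) * (v - q ^ 2 * u)) := by
  have g1 : q * u - q ^ 2 * t = q * (u - q * t) := by ring
  have g2 : v - q * (q ^ 2 * t) = v - q ^ 3 * t := by ring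
  have g3 : q * u - q * t = q * (u - t) := by ring
  have g4 : v - q * (q * t) = v - q ^ 2 * t := by ring
  have g5 : q * u - q ^ 3 * t = q * (u - q ^ 2 * t) := by ring
  try simp only [g1, g2, g3, g4, g5]
  field_simp
  all_goals ring

theorem hv33 {K : Type} [Field K] (q t u v X Y : K)
    (hq : q ≠ 0) (h1 : 1 - q ≠ 0) (h2 : u - t ≠ 0) (h3 : u - q * t ≠ 0) (h4 : u - q ^ 2 * t ≠ 0)
    (h5 : q * u - t ≠ 0) (h6 : v - t ≠ 0) (h7 : v - q * t ≠ 0) (h8 : v - q ^ 2 * t ≠ 0)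
    (h9 : v - q ^ 3 * t ≠ 0) (h10 : v - u ≠ 0) (h11 : v - q ^ 2 * u ≠ 0) :
    (1 / ((1 - q) * q * (u - (q * t)))) * (q / ((1 - q) * (v - q ^ 2 * u) * (v - (q ^ 2 * t)))) * (q
    * ((1 + q ^ 2 * u * X) * (1 + v * X))) * (q ^ 2 * ((1 + q * u * Y) * (1 + v * Y))) - (1 / ((1 -
    q) ^ 2 * (v - q ^ 2 * u) * (v - (q ^ 2 * t)) * (u - (q ^ 2 * t)))) * (q ^ 2 * ((1 + q * u * X) *
    (1 + v * X))) * (q ^ 2 * ((1 + q * u * Y) * (1 + v * Y))) =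
    q ^ 3 * u * ((1 + v * X) * (1 + v * Y)) * (q * (1 + q ^ 3 * t * X) * (1 + q * u * Y) / (q * u -
    q ^ 3 * t)) / ((1 - q) * (v - q ^ 2 * t) * (u - q * t) * (v - q ^ 2 * u)) := by
  have g1 : q * u - q ^ 2 * t = q * (u - q * t) := by ring
  have g2 : v - q * (q ^ 2 * t) = v - q ^ 3 * t := by ring
  have g3 : q * u - q * t = q * (u - t) := by ring
  have g4 : v - q * (q * t) = v - q ^ 2 * t := by ring
  have g5 : q * u - q ^ 3 * t = q * (u - q ^ 2 * t) := by ring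
  try simp only [g1, g2, g3, g4, g5]
  field_simp
  all_goals ring

theorem h333 {K : Type} [Field K] (q t u v X Y : K)
    (hq : q ≠ 0) (h1 : 1 - q ≠ 0) (h2 : u - t ≠ 0) (h3 : u - q * t ≠ 0) (h4 : u - q ^ 2 * t ≠ 0)
    (h5 : q * u - t ≠ 0) (h6 : v - t ≠ 0) (h7 : v - q * t ≠ 0) (h8 : v - q ^ 2 * t ≠ 0)
    (h9 : v - q ^ 3 * t ≠ 0) (h10 : v - u ≠ 0) (h11 : v - q ^ 2 * u ≠ 0) :
    ((v - q * u) / ((1 - q) ^ 2 * (v - u) * (v - q ^ 2 * u) * (u - (q ^ 2 * t)) * (v - q * (q ^ 2 *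
    t)))) * (q ^ 2 * ((1 + q * u * X) * (1 + v * X))) * (q ^ 2 * ((1 + q * u * Y) * (1 + v * Y))) =
    q ^ 4 * (v - q * u) * ((1 + q * u * X) * (1 + v * X)) * ((1 + q * u * Y) * (1 + v * Y)) / ((1 -
    q) ^ 2 * (v - u) * (v - q ^ 2 * u) * (u - q ^ 2 * t) * (v - q ^ 3 * t)) := by
  have g1 : q * u - q ^ 2 * t = q * (u - q * t) := by ring
  have g2 : v - q * (q ^ 2 * t) = v - q ^ 3 * t := by ring
  have g3 : q * u - q * t = q * (u - t) := by ring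
  have g4 : v - q * (q * t) = v - q ^ 2 * t := by ring
  have g5 : q * u - q ^ 3 * t = q * (u - q ^ 2 * t) := by ring
  try simp only [g1, g2, g3, g4, g5]
  field_simp
  all_goals ring

end CHBAux

open CHBAux in
theorem t_CHB : S_CHB := by
  intro K _ q t u v X Y hq h1 h2 h3 h4 h5 h6 h7 h8 h9 h10 h11 a0 au av a3 b0 bu bv b3 c0 cu cv c3
  simp only [rg, si, Matrix.cons_val_zero, Matrix.cons_val_one, Matrix.cons_val, mul_one,
    mul_zero, add_zero]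
  linear_combination a0 * b0 * c0 *
      h000 q t u v X Y hq h1 h2 h3 h4 h5 h6 h7 h8 h9 h10 h11 +
    a0 * b0 * cu *
      h00u q t u v X Y hq h1 h2 h3 h4 h5 h6 h7 h8 h9 h10 h11 +
    a0 * b0 * cv *
      h00v q t u v X Y hq h1 h2 h3 h4 h5 h6 h7 h8 h9 h10 h11 +
    a0 * b0 * c3 *
      h003 q t u v X Y hq h1 h2 h3 h4 h5 h6 h7 h8 h9 h10 h11 +
    a0 * bu * cu *
      h0uu q t u v X Y hq h1 h2 h3 h4 h5 h6 h7 h8 h9 h10 h11 +
    a0 * bu * c3 *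
      h0u3 q t u v X Y hq h1 h2 h3 h4 h5 h6 h7 h8 h9 h10 h11 +
    a0 * bv * cv *
      h0vv q t u v X Y hq h1 h2 h3 h4 h5 h6 h7 h8 h9 h10 h11 +
    a0 * bv * c3 *
      h0v3 q t u v X Y hq h1 h2 h3 h4 h5 h6 h7 h8 h9 h10 h11 +
    a0 * b3 * c3 *
      h033 q t u v X Y hq h1 h2 h3 h4 h5 h6 h7 h8 h9 h10 h11 +
    au * bu * cu *
      huuu q t u v X Y hq h1 h2 h3 h4 h5 h6 h7 h8 h9 h10 h11 +
    au * bu * c3 *
      huu3 q t u v X Y hq h1 h2 h3 h4 h5 h6 h7 h8 h9 h10 h11 +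
    au * b3 * c3 *
      hu33 q t u v X Y hq h1 h2 h3 h4 h5 h6 h7 h8 h9 h10 h11 +
    av * bv * cv *
      hvvv q t u v X Y hq h1 h2 h3 h4 h5 h6 h7 h8 h9 h10 h11 +
    av * bv * c3 *
      hvv3 q t u v X Y hq h1 h2 h3 h4 h5 h6 h7 h8 h9 h10 h11 +
    av * b3 * c3 *
      hv33 q t u v X Y hq h1 h2 h3 h4 h5 h6 h7 h8 h9 h10 h11 +
    a3 * b3 * c3 *
      h333 q t u v X Y hq h1 h2 h3 h4 h5 h6 h7 h8 h9 h10 h11

end Pool.Agent.SWD
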