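import Pool.Agent.Lib.MP_263316_co.CB.SpecB

set_option autoImplicit false
set_option linter.unusedVariables false
set_option linter.unusedSimpArgs false
set_option linter.unusedTactic false
set_option linter.unreachableTactic false

namespace Pool.Agent.SWD

open Finset Pool.Agent.SWC Pool.Agent.SWB

namespace CHCAux

theorem h000 {K : Type} [Field K] (q t s X Y : K)
    (hq : q ≠ 0) (h1 : 1 - q ≠ 0) (h2 : 1 + q ≠ 0) (h3 : s - t ≠ 0) (h4 : s - q * t ≠ 0)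
    (h5 : s - q ^ 2 * t ≠ 0) (h6 : s - q ^ 3 * t ≠ 0) (h7 : q * s - t ≠ 0) :
    (1 / ((1 - q) * (1 - q ^ 2) * (q * s - t) * (s - t))) * (1 + q ^ 2 * s * X) * (1 + q ^ 2 * s *
    Y) =
    ((1 + q ^ 2 * s * X) * (1 + q ^ 2 * s * Y)) / ((1 + q) * (1 - q) ^ 2 * (s - t) * (q * s - t)) := by
  have g1 : q * s - q ^ 2 * t = q * (s - q * t) := by ring
  have g2 : s - q * (q ^ 2 * t) = s - q ^ 3 * t := by ring
  have g3 : q * s - q * t = q * (s - t) := by ring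
  have g4 : s - q * (q * t) = s - q ^ 2 * t := by ring
  have g5 : (1 : K) - q ^ 2 = (1 - q) * (1 + q) := by ring
  simp only [g1, g2, g3, g4, g5]
  field_simp
  all_goals ring

theorem h001 {K : Type} [Field K] (q t s X Y : K)
    (hq : q ≠ 0) (h1 : 1 - q ≠ 0) (h2 : 1 + q ≠ 0) (h3 : s - t ≠ 0) (h4 : s - q * t ≠ 0)
    (h5 : s - q ^ 2 * t ≠ 0) (h6 : s - q ^ 3 * t ≠ 0) (h7 : q * s - t ≠ 0) :
    -((1 / ((1 - q) ^ 2 * (q * s - t) * (s - q * t))) * (1 + q ^ 2 * s * X) * (1 + q ^ 2 * s * Y)) +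
    (1 / ((1 - q) * (s - q * t))) * (1 / ((1 - q) * (q * s - (q * t)))) * (1 + q ^ 2 * s * X) * (q *
    (1 + q * s * Y)) =
    -(s * ((1 + q ^ 2 * s * X) * (1 + q * t * Y) / (q * s - t)) / ((1 - q) * (s - q * t) * (s - t))) := by
  have g1 : q * s - q ^ 2 * t = q * (s - q * t) := by ring
  have g2 : s - q * (q ^ 2 * t) = s - q ^ 3 * t := by ring
  have g3 : q * s - q * t = q * (s - t) := by ring
  have g4 : s - q * (q * t) = s - q ^ 2 * t := by ring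
  have g5 : (1 : K) - q ^ 2 = (1 - q) * (1 + q) := by ring
  simp only [g1, g2, g3, g4, g5]
  field_simp
  all_goals ring

theorem h003 {K : Type} [Field K] (q t s X Y : K)
    (hq : q ≠ 0) (h1 : 1 - q ≠ 0) (h2 : 1 + q ≠ 0) (h3 : s - t ≠ 0) (h4 : s - q * t ≠ 0)
    (h5 : s - q ^ 2 * t ≠ 0) (h6 : s - q ^ 3 * t ≠ 0) (h7 : q * s - t ≠ 0) :
    (1 / ((1 - q) * (1 - q ^ 2) * (s - q * t) * (s - t))) * (1 + q ^ 2 * s * X) * (1 + q ^ 2 * s *
    Y) - (1 / ((1 - q) * (s - q * t))) * (1 / ((1 - q) * (q * s - (q * t)))) * (1 + q ^ 2 * s * X) *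
    (q * (1 + q * s * Y)) + (1 / ((1 - q) * (1 - q ^ 2) * (q * s - (q * t)) * (s - (q * t)))) * (1 +
    q ^ 2 * s * X) * (q ^ 2 * (1 + s * Y)) =
    0 := by
  have g1 : q * s - q ^ 2 * t = q * (s - q * t) := by ring
  have g2 : s - q * (q ^ 2 * t) = s - q ^ 3 * t := by ring
  have g3 : q * s - q * t = q * (s - t) := by ring
  have g4 : s - q * (q * t) = s - q ^ 2 * t := by ring
  have g5 : (1 : K) - q ^ 2 = (1 - q) * (1 + q) := by ring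
  simp only [g1, g2, g3, g4, g5]
  field_simp
  all_goals ring

theorem h011 {K : Type} [Field K] (q t s X Y : K)
    (hq : q ≠ 0) (h1 : 1 - q ≠ 0) (h2 : 1 + q ≠ 0) (h3 : s - t ≠ 0) (h4 : s - q * t ≠ 0)
    (h5 : s - q ^ 2 * t ≠ 0) (h6 : s - q ^ 3 * t ≠ 0) (h7 : q * s - t ≠ 0) :
    -((1 / ((1 - q) * (s - q * t))) * (1 / ((1 - q) * (q * s - (q * t)))) * (1 + q ^ 2 * s * X) * (q
    * (1 + q * s * Y))) + (1 / ((1 - q) * (s - q * t))) * (1 / ((1 - q) * (q * s - (q ^ 2 * t)))) *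
    (q * (1 + q * s * X)) * (q * (1 + q * s * Y)) =
    -(s * (q * (1 + q ^ 2 * t * X) * (1 + q * s * Y) / (q * s - q ^ 2 * t)) / ((1 - q) * (s - q * t)
    * (s - t))) := by
  have g1 : q * s - q ^ 2 * t = q * (s - q * t) := by ring
  have g2 : s - q * (q ^ 2 * t) = s - q ^ 3 * t := by ring
  have g3 : q * s - q * t = q * (s - t) := by ring
  have g4 : s - q * (q * t) = s - q ^ 2 * t := by ring
  have g5 : (1 : K) - q ^ 2 = (1 - q) * (1 + q) := by ring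
  simp only [g1, g2, g3, g4, g5]
  field_simp
  all_goals ring

theorem h013 {K : Type} [Field K] (q t s X Y : K)
    (hq : q ≠ 0) (h1 : 1 - q ≠ 0) (h2 : 1 + q ≠ 0) (h3 : s - t ≠ 0) (h4 : s - q * t ≠ 0)
    (h5 : s - q ^ 2 * t ≠ 0) (h6 : s - q ^ 3 * t ≠ 0) (h7 : q * s - t ≠ 0) :
    (1 / ((1 - q) * (s - q * t))) * (1 / ((1 - q) * (q * s - (q * t)))) * (1 + q ^ 2 * s * X) * (q *
    (1 + q * s * Y)) - (1 / ((1 - q) ^ 2 * (q * s - (q * t)) * (s - q * (q * t)))) * (1 + q ^ 2 * s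
    * X) * (q ^ 2 * (1 + s * Y)) - (1 / ((1 - q) * (s - q * t))) * (1 / ((1 - q) * (q * s - (q ^ 2 *
    t)))) * (q * (1 + q * s * X)) * (q * (1 + q * s * Y)) + (1 / ((1 - q) * (s - q * (q * t)))) * (1
    / ((1 - q) * (q * s - (q ^ 2 * t)))) * (q * (1 + q * s * X)) * (q ^ 2 * (1 + s * Y)) =
    s ^ 2 * ((1 + q ^ 2 * t * X) * (1 + q ^ 2 * t * Y)) / ((s - t) * (s - q * t) ^ 2 * (s - q ^ 2 *
    t)) := by
  have g1 : q * s - q ^ 2 * t = q * (s - q * t) := by ring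
  have g2 : s - q * (q ^ 2 * t) = s - q ^ 3 * t := by ring
  have g3 : q * s - q * t = q * (s - t) := by ring
  have g4 : s - q * (q * t) = s - q ^ 2 * t := by ring
  have g5 : (1 : K) - q ^ 2 = (1 - q) * (1 + q) := by ring
  simp only [g1, g2, g3, g4, g5]
  field_simp
  all_goals ring

theorem h033 {K : Type} [Field K] (q t s X Y : K)
    (hq : q ≠ 0) (h1 : 1 - q ≠ 0) (h2 : 1 + q ≠ 0) (h3 : s - t ≠ 0) (h4 : s - q * t ≠ 0)
    (h5 : s - q ^ 2 * t ≠ 0) (h6 : s - q ^ 3 * t ≠ 0) (h7 : q * s - t ≠ 0) :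
    (1 / ((1 - q) * (1 - q ^ 2) * (s - q * (q * t)) * (s - (q * t)))) * (1 + q ^ 2 * s * X) * (q ^ 2
    * (1 + s * Y)) - (1 / ((1 - q) * (s - q * (q * t)))) * (1 / ((1 - q) * (q * s - (q ^ 2 * t)))) *
    (q * (1 + q * s * X)) * (q ^ 2 * (1 + s * Y)) + (1 / ((1 - q) * (1 - q ^ 2) * (q * s - (q ^ 2 *
    t)) * (s - (q ^ 2 * t)))) * (q ^ 2 * (1 + s * X)) * (q ^ 2 * (1 + s * Y)) =
    0 := by
  have g1 : q * s - q ^ 2 * t = q * (s - q * t) := by ring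
  have g2 : s - q * (q ^ 2 * t) = s - q ^ 3 * t := by ring
  have g3 : q * s - q * t = q * (s - t) := by ring
  have g4 : s - q * (q * t) = s - q ^ 2 * t := by ring
  have g5 : (1 : K) - q ^ 2 = (1 - q) * (1 + q) := by ring
  simp only [g1, g2, g3, g4, g5]
  field_simp
  all_goals ring

theorem h111 {K : Type} [Field K] (q t s X Y : K)
    (hq : q ≠ 0) (h1 : 1 - q ≠ 0) (h2 : 1 + q ≠ 0) (h3 : s - t ≠ 0) (h4 : s - q * t ≠ 0)
    (h5 : s - q ^ 2 * t ≠ 0) (h6 : s - q ^ 3 * t ≠ 0) (h7 : q * s - t ≠ 0) :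
    -((1 / ((1 - q) * (s - q * t))) * (1 / ((1 - q) * (q * s - (q ^ 2 * t)))) * (q * (1 + q * s *
    X)) * (q * (1 + q * s * Y))) =
    -(q * ((1 + q * s * X) * (1 + q * s * Y)) / ((1 - q) ^ 2 * (s - q * t) ^ 2)) := by
  have g1 : q * s - q ^ 2 * t = q * (s - q * t) := by ring
  have g2 : s - q * (q ^ 2 * t) = s - q ^ 3 * t := by ring
  have g3 : q * s - q * t = q * (s - t) := by ring
  have g4 : s - q * (q * t) = s - q ^ 2 * t := by ring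
  have g5 : (1 : K) - q ^ 2 = (1 - q) * (1 + q) := by ring
  simp only [g1, g2, g3, g4, g5]
  field_simp
  all_goals ring

theorem h113 {K : Type} [Field K] (q t s X Y : K)
    (hq : q ≠ 0) (h1 : 1 - q ≠ 0) (h2 : 1 + q ≠ 0) (h3 : s - t ≠ 0) (h4 : s - q * t ≠ 0)
    (h5 : s - q ^ 2 * t ≠ 0) (h6 : s - q ^ 3 * t ≠ 0) (h7 : q * s - t ≠ 0) :
    (1 / ((1 - q) * (s - q * t))) * (1 / ((1 - q) * (q * s - (q ^ 2 * t)))) * (q * (1 + q * s * X))
    * (q * (1 + q * s * Y)) - (1 / ((1 - q) * (s - q * (q * t)))) * (1 / ((1 - q) * (q * s - (q ^ 2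
    * t)))) * (q * (1 + q * s * X)) * (q ^ 2 * (1 + s * Y)) =
    q * s * ((1 + q * s * X) * (1 + q ^ 2 * t * Y) / (s - q * t)) / ((1 - q) * (s - q * t) * (s - q
    ^ 2 * t)) := by
  have g1 : q * s - q ^ 2 * t = q * (s - q * t) := by ring
  have g2 : s - q * (q ^ 2 * t) = s - q ^ 3 * t := by ring
  have g3 : q * s - q * t = q * (s - t) := by ring
  have g4 : s - q * (q * t) = s - q ^ 2 * t := by ring
  have g5 : (1 : K) - q ^ 2 = (1 - q) * (1 + q) := by ring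
  simp only [g1, g2, g3, g4, g5]
  field_simp
  all_goals ring

theorem h133 {K : Type} [Field K] (q t s X Y : K)
    (hq : q ≠ 0) (h1 : 1 - q ≠ 0) (h2 : 1 + q ≠ 0) (h3 : s - t ≠ 0) (h4 : s - q * t ≠ 0)
    (h5 : s - q ^ 2 * t ≠ 0) (h6 : s - q ^ 3 * t ≠ 0) (h7 : q * s - t ≠ 0) :
    (1 / ((1 - q) * (s - q * (q * t)))) * (1 / ((1 - q) * (q * s - (q ^ 2 * t)))) * (q * (1 + q * s
    * X)) * (q ^ 2 * (1 + s * Y)) - (1 / ((1 - q) ^ 2 * (q * s - (q ^ 2 * t)) * (s - q * (q ^ 2 *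
    t)))) * (q ^ 2 * (1 + s * X)) * (q ^ 2 * (1 + s * Y)) =
    q * s * (q * (1 + q ^ 3 * t * X) * (1 + s * Y) / (s - q ^ 3 * t)) / ((1 - q) * (s - q * t) * (s
    - q ^ 2 * t)) := by
  have g1 : q * s - q ^ 2 * t = q * (s - q * t) := by ring
  have g2 : s - q * (q ^ 2 * t) = s - q ^ 3 * t := by ring
  have g3 : q * s - q * t = q * (s - t) := by ring
  have g4 : s - q * (q * t) = s - q ^ 2 * t := by ring
  have g5 : (1 : K) - q ^ 2 = (1 - q) * (1 + q) := by ring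
  simp only [g1, g2, g3, g4, g5]
  field_simp
  all_goals ring

theorem h333 {K : Type} [Field K] (q t s X Y : K)
    (hq : q ≠ 0) (h1 : 1 - q ≠ 0) (h2 : 1 + q ≠ 0) (h3 : s - t ≠ 0) (h4 : s - q * t ≠ 0)
    (h5 : s - q ^ 2 * t ≠ 0) (h6 : s - q ^ 3 * t ≠ 0) (h7 : q * s - t ≠ 0) :
    (1 / ((1 - q) * (1 - q ^ 2) * (s - q * (q ^ 2 * t)) * (s - (q ^ 2 * t)))) * (q ^ 2 * (1 + s *
    X)) * (q ^ 2 * (1 + s * Y)) =
    q ^ 4 * ((1 + s * X) * (1 + s * Y)) / ((1 - q) * (1 - q ^ 2) * (s - q ^ 2 * t) * (s - q ^ 3 *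
    t)) := by
  have g1 : q * s - q ^ 2 * t = q * (s - q * t) := by ring
  have g2 : s - q * (q ^ 2 * t) = s - q ^ 3 * t := by ring
  have g3 : q * s - q * t = q * (s - t) := by ring
  have g4 : s - q * (q * t) = s - q ^ 2 * t := by ring
  have g5 : (1 : K) - q ^ 2 = (1 - q) * (1 + q) := by ring
  simp only [g1, g2, g3, g4, g5]
  field_simp
  all_goals ring

end CHCAux

open CHCAux in
theorem t_CHC : S_CHC := by
  intro K _ q t s X Y hq h1 h2 h3 h4 h5 h6 h7 a0 a1 a3 b0 b1 b3 c0 c1 c3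
  simp only [rg3, si3, Matrix.cons_val_zero, Matrix.cons_val_one, Matrix.cons_val, mul_one,
    mul_zero, add_zero]
  linear_combination a0 * b0 * c0 * h000 q t s X Y hq h1 h2 h3 h4 h5 h6 h7 +
    a0 * b0 * c1 * h001 q t s X Y hq h1 h2 h3 h4 h5 h6 h7 +
    a0 * b0 * c3 * h003 q t s X Y hq h1 h2 h3 h4 h5 h6 h7 +
    a0 * b1 * c1 * h011 q t s X Y hq h1 h2 h3 h4 h5 h6 h7 +
    a0 * b1 * c3 * h013 q t s X Y hq h1 h2 h3 h4 h5 h6 h7 +
    a0 * b3 * c3 * h033 q t s X Y hq h1 h2 h3 h4 h5 h6 h7 +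
    a1 * b1 * c1 * h111 q t s X Y hq h1 h2 h3 h4 h5 h6 h7 +
    a1 * b1 * c3 * h113 q t s X Y hq h1 h2 h3 h4 h5 h6 h7 +
    a1 * b3 * c3 * h133 q t s X Y hq h1 h2 h3 h4 h5 h6 h7 +
    a3 * b3 * c3 * h333 q t s X Y hq h1 h2 h3 h4 h5 h6 h7

end Pool.Agent.SWD
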