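import Pool.Agent.Lib.MP_263316_co.CB.Spec

/-!
MP_263316_co, CB/CL: the operator `LL` preserves the cones.
-/

set_option autoImplicit false

namespace Pool.Agent.SWD

open Finset Pool.Agent.SWC Pool.Agent.SWB

namespace CLAux

theorem qq_ne_one (N : ℕ) : qq N ≠ 1 := by
  intro h
  have h1 : (MvPolynomial.C qX : AN N) = MvPolynomial.C 1 := by rw [map_one]; exact h
  have h2 := MvPolynomial.C_injective (Fin N) PX h1
  have := congrArg (Polynomial.coeff · 1) h2
  simp [qX, Polynomial.coeff_one] at this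

theorem pu {i k d : ℕ} (h : k = 0 ∨ 2 * i + k = d + 1) : qX ^ i * Q k ∈ PU d := by
  rcases h with rfl | h
  · rw [Q_zero, mul_zero]
    exact AddSubmonoid.zero_mem _
  · exact AddSubmonoid.subset_closure ⟨i, k, h, rfl⟩

theorem coef (N i k : ℕ) : qq N ^ i * qn (qq N) k = MvPolynomial.C (qX ^ i * Q k) := by
  rw [qn_qq, qq_eq, map_mul, map_pow]

/-- multiples -/
noncomputable def sm {N : ℕ} (u : AN N) (F : Fin N → Fin N → AN N) : Fin N → Fin N → AN N :=
  fun i j => u * F i j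

theorem LL_sm {N : ℕ} (u : AN N) (F : Fin N → Fin N → AN N) :
    LL (qq N) (xx N) (sm u F) = sm u (LL (qq N) (xx N) F) := LL_smul _ _ u F

theorem LL_zero (N : ℕ) : LL (qq N) (xx N) (0 : Fin N → Fin N → AN N) = 0 := by
  funext j k
  simp [LL]

theorem LL_sum {N : ℕ} (s : Finset ℕ) (F : ℕ → Fin N → Fin N → AN N) :
    LL (qq N) (xx N) (∑ i ∈ s, F i) = ∑ i ∈ s, LL (qq N) (xx N) (F i) := by
  classical
  induction s using Finset.induction_on with
  | empty => rw [sum_empty, sum_empty, LL_zero]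
  | insert a s ha ih => rw [sum_insert ha, sum_insert ha, LL_add, ih]

theorem eH_mem {N c : ℕ} (hc : 1 ≤ c) : eH (qq N) (xx N) c ∈ MCone N c (c - 1) := by
  obtain ⟨c, rfl⟩ := Nat.exists_eq_add_of_le' hc
  refine AddSubmonoid.subset_closure ⟨0, 0, c, 1, ?_, by omega, by omega, ?_⟩
  · refine AddSubmonoid.subset_closure ⟨0, 1, Multiset.sum_zero, ?_, by simp⟩
    exact AddSubmonoid.subset_closure ⟨0, 1, by omega, by simp [qn]⟩
  · funext j
    rw [eH_succ, one_mul]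

theorem dpl_mem {N n d : ℕ} {G : Fin N → AN N} (hG : G ∈ MCone N n d) :
    dpl (qq N) (xx N) G ∈ C2 N (n + 1) (d + 1) :=
  AddSubmonoid.subset_closure (Or.inr ⟨n, d, rfl, rfl, G, hG, rfl⟩)

theorem iot_mem {N n d : ℕ} {f : Fin N → Fin N → AN N} (hf : f ∈ SC N n d) :
    iot (qq N) f ∈ C2 N n d :=
  AddSubmonoid.subset_closure (Or.inl (Or.inl ⟨f, hf, rfl⟩))

theorem LLiot_mem {N n d : ℕ} {f : Fin N → Fin N → AN N} (hf : f ∈ SC N n d) :
    LL (qq N) (xx N) (iot (qq N) f) ∈ C2 N (n + 1) (d + 2) :=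
  AddSubmonoid.subset_closure (Or.inl (Or.inr ⟨n, d, rfl, rfl, f, hf, rfl⟩))

theorem one_pu : (1 : PX) ∈ PU 0 :=
  AddSubmonoid.subset_closure ⟨0, 1, by omega, by simp [qn]⟩

theorem one_cone (N : ℕ) : (1 : AN N) ∈ Cone N 0 0 :=
  AddSubmonoid.subset_closure ⟨0, 1, Multiset.sum_zero, one_pu, by simp⟩

theorem Cn_mem {N k : ℕ} (hk : 2 ≤ k) {d : ℕ} (hd : 2 * k = d + 3) :
    Cn (qq N) (xx N) k ∈ SC N k d :=
  AddSubmonoid.subset_closure (Or.inr ⟨0, 0, k, 1, one_cone N, hk, by omega, by omega, by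
    funext i j
    rw [one_mul]⟩)

theorem bt_mem {N n a d : ℕ} (ha : 1 ≤ a) (hn : 2 * a + 2 ≤ n) (hd : 2 * a + n = d + 2) :
    bt (qq N) (xx N) n a ∈ SC N n d :=
  AddSubmonoid.subset_closure (Or.inl ⟨0, 0, n, a, 1, one_cone N, ha, hn, by omega, by omega, by
    funext i j
    rw [one_mul]⟩)

/-- `LL (dpl E_c)` -/
theorem LLdpl_mem (hM : S_CM) (hG : S_CG) (h0 : S_OS) (h4 : S_A4) {N c : ℕ} (hc : 1 ≤ c) :
    LL (qq N) (xx N) (dpl (qq N) (xx N) (eH (qq N) (xx N) c)) ∈ C2 N (c + 2) (c + 2) := by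
  rcases Nat.lt_or_ge c 2 with h | h
  · obtain rfl : c = 1 := by omega
    have e : LL (qq N) (xx N) (dpl (qq N) (xx N) (eH (qq N) (xx N) 1)) =
        iot (qq N) (Cn (qq N) (xx N) 3) := by
      funext j k
      exact (h4 h0 (AN N) N (qq N) (qq_ne_one N) (xx N) j k).2
    rw [e]
    exact iot_mem (Cn_mem (by omega) (by omega))
  · have e : LL (qq N) (xx N) (dpl (qq N) (xx N) (eH (qq N) (xx N) c)) =
        iot (qq N) (bt (qq N) (xx N) (c + 2) 1) +
          sm (MvPolynomial.C (qX ^ 2 * Q (c - 2)) * es (xx N) c)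
            (iot (qq N) (Cn (qq N) (xx N) 2)) := by
      funext j k
      rw [(h4 h0 (AN N) N (qq N) (qq_ne_one N) (xx N) j k).1 c h, coef]
      rfl
    rw [e]
    refine AddSubmonoid.add_mem _ (iot_mem (bt_mem le_rfl (by omega) (by omega))) ?_
    have hu := (hG N (c + 1) (qX ^ 2 * Q (c - 2)) (pu (by omega)) c).1
    exact (hM N 2 1 c (c + 1) _ hu).2 _ (iot_mem (Cn_mem le_rfl (by omega)))

/-- a coefficient times an element of the cone -/
theorem co_mem (hM : S_CM) (hG : S_CG) {N i k c n d n' d' : ℕ} {F : Fin N → Fin N → AN N}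
    (hF : F ∈ C2 N n d) (hn : n' = c + n) (h : k = 0 ∨ 2 * i + k + d = d' + 1) (hd : d ≤ d') :
    sm (MvPolynomial.C (qX ^ i * Q k) * es (xx N) c) F ∈ C2 N n' d' := by
  subst hn
  obtain ⟨e, rfl⟩ := Nat.exists_eq_add_of_le' hd
  have hu := (hG N e (qX ^ i * Q k) (pu (by omega)) c).1
  exact (hM N n d c e _ hu).2 _ hF

theorem LLLLbt_mem (hM : S_CM) (hG : S_CG) (h0 : S_OS) (h4 : S_A4) (h5 : S_A5a) (h5' : S_A5b)
    {N n a : ℕ} (ha : 1 ≤ a) (hn : 2 * a + 2 ≤ n) :
    LL (qq N) (xx N) (LL (qq N) (xx N) (iot (qq N) (bt (qq N) (xx N) n a))) ∈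
      C2 N (n + 2) (2 * a + n + 2) := by
  have e1 : LL (qq N) (xx N) (iot (qq N) (bt (qq N) (xx N) n a)) = bn (qq N) (xx N) n a +
      (∑ i ∈ range (a + 1), sm (MvPolynomial.C (qX ^ (i + 1) * Q (2 * a - i - 1)) * es (xx N) i)
        (dpl (qq N) (xx N) (eH (qq N) (xx N) (n - i))) +
      ∑ i ∈ range a, sm (MvPolynomial.C (qX ^ (a + i + 2) * Q (n - a - 3 - i)) *
        es (xx N) (n - a + i)) (dpl (qq N) (xx N) (eH (qq N) (xx N) (a - i)))) := by
    funext j k
    rw [h5 h0 (AN N) N (qq N) (qq_ne_one N) (xx N) n a ha hn j k]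
    simp only [Pi.add_apply, Finset.sum_apply, sm, coef]
  have e2 : LL (qq N) (xx N) (bn (qq N) (xx N) n a) =
      iot (qq N) (bt (qq N) (xx N) (n + 2) (a + 1)) +
      (∑ i ∈ range (a + 1), sm (MvPolynomial.C (qX ^ (i + 1) * Q (2 * a - i)) * es (xx N) i)
        (dpl (qq N) (xx N) (eH (qq N) (xx N) (n + 1 - i))) +
      ∑ i ∈ range (a + 1), sm (MvPolynomial.C (qX ^ (a + i + 2) * Q (n - a - 2 - i)) *
        es (xx N) (n - a + i)) (dpl (qq N) (xx N) (eH (qq N) (xx N) (a + 1 - i)))) := by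
    funext j k
    rw [h5' h0 (AN N) N (qq N) (qq_ne_one N) (xx N) n a ha hn j k]
    simp only [Pi.add_apply, Finset.sum_apply, sm, coef]
  rw [e1, LL_add, LL_add, LL_sum, LL_sum, e2]
  refine AddSubmonoid.add_mem _ (AddSubmonoid.add_mem _
    (iot_mem (bt_mem (by omega) (by omega) (by omega)))
    (AddSubmonoid.add_mem _ (AddSubmonoid.sum_mem _ fun i hi => ?_)
      (AddSubmonoid.sum_mem _ fun i hi => ?_)))
    (AddSubmonoid.add_mem _ (AddSubmonoid.sum_mem _ fun i hi => ?_)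
      (AddSubmonoid.sum_mem _ fun i hi => ?_))
  · rw [mem_range] at hi
    exact co_mem hM hG (dpl_mem (eH_mem (by omega))) (by omega) (by omega) (by omega)
  · rw [mem_range] at hi
    exact co_mem hM hG (dpl_mem (eH_mem (by omega))) (by omega) (by omega) (by omega)
  · rw [mem_range] at hi
    rw [LL_sm]
    exact co_mem hM hG (LLdpl_mem hM hG h0 h4 (by omega)) (by omega) (by omega) (by omega)
  · rw [mem_range] at hi
    rw [LL_sm]
    exact co_mem hM hG (LLdpl_mem hM hG h0 h4 (by omega)) (by omega) (by omega) (by omega)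

theorem LLLLCn_mem (hM : S_CM) (hG : S_CG) (h0 : S_OS) (h3 : S_A3) (h4 : S_A4)
    {N k d : ℕ} (hk : 2 ≤ k) (hd : 2 * k + 1 = d) :
    LL (qq N) (xx N) (LL (qq N) (xx N) (iot (qq N) (Cn (qq N) (xx N) k))) ∈
      C2 N (k + 2) d := by
  have e1 : LL (qq N) (xx N) (iot (qq N) (Cn (qq N) (xx N) k)) =
      iot (qq N) (Cn (qq N) (xx N) (k + 1)) +
      sm (MvPolynomial.C (qX ^ 1 * Q (k - 2)) * es (xx N) 0)
        (dpl (qq N) (xx N) (eH (qq N) (xx N) k)) := by
    funext i j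
    rw [h3 (AN N) N (qq N) (xx N) k hk i j]
    have e := coef N 1 (k - 2)
    rw [pow_one] at e
    rw [e]
    simp only [Pi.add_apply, sm, es_zero', mul_one]
  rw [e1, LL_add, LL_sm]
  refine AddSubmonoid.add_mem _ ?_ ?_
  · have := LLiot_mem (N := N) (Cn_mem (N := N) (k := k + 1) (d := 2 * k - 1) (by omega) (by omega))
    have e : 2 * k - 1 + 2 = d := by omega
    rw [e] at this
    exact this
  · exact co_mem hM hG (LLdpl_mem hM hG h0 h4 (by omega)) (by omega) (by omega) (by omega)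

theorem zero_sm {N : ℕ} (u : AN N) : sm u 0 = 0 := by
  funext i j
  simp [sm]

theorem iot_zero (N : ℕ) : iot (qq N) (0 : Fin N → Fin N → AN N) = 0 := dmi_iot_zero _

theorem dpl_zero (N : ℕ) : dpl (qq N) (xx N) 0 = 0 := by
  funext i j
  simp [dpl]

theorem LLLLiot_mem (hM : S_CM) (hG : S_CG) (h0 : S_OS) (h3 : S_A3) (h4 : S_A4) (h5 : S_A5a)
    (h5' : S_A5b) {N n d : ℕ} {f : Fin N → Fin N → AN N} (hf : f ∈ SC N n d) :
    LL (qq N) (xx N) (LL (qq N) (xx N) (iot (qq N) f)) ∈ C2 N (n + 2) (d + 4) := by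
  unfold SC at hf
  induction hf using AddSubmonoid.closure_induction with
  | zero => rw [iot_zero, LL_zero, LL_zero]; exact AddSubmonoid.zero_mem _
  | add a b _ _ ha hb => rw [iot_add, LL_add, LL_add]; exact AddSubmonoid.add_mem _ ha hb
  | mem F hF =>
    rcases hF with ⟨n1, d1, n0, a, v, hv, ha, ha2, hn, hd, rfl⟩ | ⟨n1, d1, k, v, hv, hk, hn, hd, rfl⟩
    · rw [iot_smul, LL_smul, LL_smul]
      have := (hM N _ _ n1 d1 v hv).2 _ (LLLLbt_mem hM hG h0 h4 h5 h5' (N := N) ha ha2)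
      rw [show n1 + (n0 + 2) = n + 2 by omega, show d1 + (2 * a + n0 + 2) = d + 4 by omega] at this
      exact this
    · rw [iot_smul, LL_smul, LL_smul]
      have := (hM N _ _ n1 d1 v hv).2 _ (LLLLCn_mem hM hG h0 h3 h4 (N := N) hk rfl)
      rw [show n1 + (k + 2) = n + 2 by omega, show d1 + (2 * k + 1) = d + 4 by omega] at this
      exact this

theorem LLdplG_mem (hM : S_CM) (hG : S_CG) (h0 : S_OS) (h4 : S_A4) {N n d : ℕ}
    {G : Fin N → AN N} (hGm : G ∈ MCone N n d) :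
    LL (qq N) (xx N) (dpl (qq N) (xx N) G) ∈ C2 N (n + 2) (d + 3) := by
  unfold MCone at hGm
  induction hGm using AddSubmonoid.closure_induction with
  | zero => rw [dpl_zero, LL_zero]; exact AddSubmonoid.zero_mem _
  | add a b _ _ ha hb => rw [dpl_add, LL_add]; exact AddSubmonoid.add_mem _ ha hb
  | mem F hF =>
    obtain ⟨n1, d1, c, v, hv, hn, hd, rfl⟩ := hF
    have e : (fun j => v * eh (qq N) (xx N) c j) = (fun j => v * eH (qq N) (xx N) (c + 1) j) := by
      funext j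
      rw [eH_succ]
    rw [e, dpl_smul, LL_smul]
    have := (hM N _ _ n1 d1 v hv).2 _ (LLdpl_mem hM hG h0 h4 (N := N) (c := c + 1) (by omega))
    rw [show n1 + (c + 1 + 2) = n + 2 by omega, show d1 + (c + 1 + 2) = d + 3 by omega] at this
    exact this

end CLAux

open CLAux in
theorem t_CL : S_CL := by
  intro hM hG h0 h3 h4 h5 h5' N n d F hF
  unfold C2 at hF
  induction hF using AddSubmonoid.closure_induction with
  | zero => rw [LL_zero]; exact AddSubmonoid.zero_mem _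
  | add a b _ _ ha hb => rw [LL_add]; exact AddSubmonoid.add_mem _ ha hb
  | mem F hF =>
    rcases hF with (⟨f, hf, rfl⟩ | ⟨n1, d1, hn, hd, f, hf, rfl⟩) | ⟨n1, d1, hn, hd, G, hGm, rfl⟩
    · exact LLiot_mem hf
    · subst hn
      subst hd
      exact LLLLiot_mem hM hG h0 h3 h4 h5 h5' hf
    · subst hn
      subst hd
      exact LLdplG_mem hM hG h0 h4 hGm

end Pool.Agent.SWD
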