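import Pool.Agent.Lib.MP_263316_co.CB.Spec
import Pool.Agent.Lib.MP_263316_co.PUmul
import Pool.Agent.Lib.MP_263316_co.Cmul
import Pool.Agent.Lib.MP_263316_co.Msmul

/-!
MP_263316_co, CB/CM: products of elements of the cone with two-particle functions.
-/

set_option autoImplicit false

namespace Pool.Agent.SWD

open Finset Pool.Agent.SWC Pool.Agent.SWB

namespace CMAux

theorem zero_smul2 {N : ℕ} (u : AN N) : (fun i j => u * (0 : Fin N → Fin N → AN N) i j) = 0 := by
  funext i j
  simp

theorem add_smul2 {N : ℕ} (u : AN N) (a b : Fin N → Fin N → AN N) :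
    (fun i j => u * (a + b) i j) = (fun i j => u * a i j) + (fun i j => u * b i j) := by
  funext i j
  simp [mul_add]

theorem sc_smul {N n d n' d' : ℕ} {u : AN N} (hu : u ∈ Cone N n' d')
    {f : Fin N → Fin N → AN N} (hf : f ∈ SC N n d) :
    (fun i j => u * f i j) ∈ SC N (n' + n) (d' + d) := by
  have hC := t_Cmul t_PUmul
  unfold SC at hf
  induction hf using AddSubmonoid.closure_induction with
  | zero => rw [zero_smul2]; exact AddSubmonoid.zero_mem _
  | add a b _ _ ha hb => rw [add_smul2]; exact AddSubmonoid.add_mem _ ha hb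
  | mem F hF =>
    rcases hF with ⟨n1, d1, n0, a, v, hv, ha, ha2, hn, hd, rfl⟩ | ⟨n1, d1, k, v, hv, hk, hn, hd, rfl⟩
    · refine AddSubmonoid.subset_closure (Or.inl ⟨n' + n1, d' + d1, n0, a, u * v,
        hC N n' d' n1 d1 u v hu hv, ha, ha2, by omega, by omega, ?_⟩)
      funext i j
      rw [mul_assoc]
    · refine AddSubmonoid.subset_closure (Or.inr ⟨n' + n1, d' + d1, k, u * v,
        hC N n' d' n1 d1 u v hu hv, hk, by omega, by omega, ?_⟩)
      funext i j
      rw [mul_assoc]

theorem c2_smul {N n d n' d' : ℕ} {u : AN N} (hu : u ∈ Cone N n' d')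
    {F : Fin N → Fin N → AN N} (hF : F ∈ C2 N n d) :
    (fun i j => u * F i j) ∈ C2 N (n' + n) (d' + d) := by
  have hM := t_Msmul (t_Cmul t_PUmul)
  unfold C2 at hF
  induction hF using AddSubmonoid.closure_induction with
  | zero => rw [zero_smul2]; exact AddSubmonoid.zero_mem _
  | add a b _ _ ha hb => rw [add_smul2]; exact AddSubmonoid.add_mem _ ha hb
  | mem F hF =>
    rcases hF with (⟨f, hf, rfl⟩ | ⟨n1, d1, hn, hd, f, hf, rfl⟩) | ⟨n1, d1, hn, hd, G, hG, rfl⟩
    · exact AddSubmonoid.subset_closure (Or.inl (Or.inl ⟨_, sc_smul hu hf,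
        (iot_smul _ _ _).symm⟩))
    · refine AddSubmonoid.subset_closure (Or.inl (Or.inr ⟨n' + n1, d' + d1, by omega, by omega,
        _, sc_smul hu hf, ?_⟩))
      rw [iot_smul, LL_smul]
    · refine AddSubmonoid.subset_closure (Or.inr ⟨n' + n1, d' + d1, by omega, by omega,
        _, hM N n1 d1 n' d' u G hu hG, ?_⟩)
      rw [dpl_smul]

end CMAux

theorem t_CM : S_CM := fun _ _ _ _ _ _ hu =>
  ⟨fun _ hf => CMAux.sc_smul hu hf, fun _ hF => CMAux.c2_smul hu hF⟩

end Pool.Agent.SWD
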