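import Pool.Agent.Lib.MP_263316_co.CB.SpecD

/-!
MP_263316_co, CB/CP: positivity of the coefficients of `C`.
-/

set_option autoImplicit false

namespace Pool.Agent.SWD

open Finset Pool.Agent.SWC Pool.Agent.SWB

namespace CPX

theorem pn_neg {F : Type} [Field F] (h : F) (α β : ℤ) : Pn h α β (-1) = 0 := by
  unfold Pn
  simp

theorem gf_neg {F : Type} [Field F] (h : F) (α β : ℤ) : Gf h α β (-1) = 0 := by
  unfold Gf
  simp

theorem xf_pos {F : Type} [Field F] (h : F) {a b l p r : ℤ} (H : max 0 (a - p) ≤ r - b) :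
    Xf h a b l p r = Gf h (a - l - 2) (b - l - 3) (r - b) -
      Gf h (a - l - 2) (b - l - 3) (max 0 (a - p) - 1) := if_pos H

theorem xf_neg {F : Type} [Field F] (h : F) {a b l p r : ℤ} (H : ¬ max 0 (a - p) ≤ r - b) :
    Xf h a b l p r = 0 := if_neg H

end CPX

open CPX in
theorem t_CP : S_CP := by
  intro hSY hPB hPHI hO1 hO2 hO3 hPL hPD F _ h h0 h1 a b l p r ha hab hpr hsum
  obtain ⟨P1, P2, -, -, -, P6⟩ := hPB hSY F h h0 h1
  have posSum : ∀ (n : ℕ) (z : ℤ) (f : ℕ → F), (∀ k, Pos h z (f k)) →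
      Pos h z (∑ k ∈ range n, f k) := fun n z f hf =>
    Finset.sum_induction f (Pos h z) (fun x y hx hy => P2 z x y hx hy) (P1 z) fun k _ => hf k
  have hαβ : (a : ℤ) - l - 2 < (b : ℤ) - l - 3 := by omega
  have hαβ' : -((b : ℤ) - l - 3) < -((a : ℤ) - l - 2) := by omega
  have PD := hPD hSY hPB F h h0 h1
  have ev : Even ((a : ℤ) - b + 2 * l + 1 + 2 * (p + r) - ((a : ℤ) - l - 2) -
      ((b : ℤ) - l - 3)) := ⟨(2 * l : ℤ) + 3 + (p + r) - b, by ring⟩
  have ev' : Even ((a : ℤ) - b + 2 * l + 1 + 2 * (p + r) - -((b : ℤ) - l - 3) -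
      -((a : ℤ) - l - 2)) := ⟨(a : ℤ) - 2 + (p + r), by ring⟩
  -- differences of `Pn`
  have dP : ∀ I J : ℤ, -1 ≤ I → I ≤ J → (0 ≤ J → (a : ℤ) - b - 2 * l - 5 + 2 * (J + b) ≤
      (a : ℤ) - b + 2 * l + 3 + 2 * (p + r)) →
      Pos h ((a : ℤ) - b + 2 * l + 1 + 2 * (p + r))
        (Pn h ((a : ℤ) - l - 2) ((b : ℤ) - l - 3) J -
          Pn h ((a : ℤ) - l - 2) ((b : ℤ) - l - 3) I) := by
    intro I J hI hIJ hb
    exact PD _ _ _ I J hαβ hI hIJ (fun hJ => by have := hb hJ; omega) ev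
  have dN : ∀ I J : ℤ, -1 ≤ I → I ≤ J → (0 ≤ J → J ≤ a - 1) →
      Pos h ((a : ℤ) - b + 2 * l + 1 + 2 * (p + r))
        (Pn h (-((b : ℤ) - l - 3)) (-((a : ℤ) - l - 2)) J -
          Pn h (-((b : ℤ) - l - 3)) (-((a : ℤ) - l - 2)) I) := by
    intro I J hI hIJ hb
    exact PD _ _ _ I J hαβ' hI hIJ (fun hJ => by have := hb hJ; omega) ev'
  have dP0 : ∀ J : ℤ, -1 ≤ J → (0 ≤ J → (a : ℤ) - b - 2 * l - 5 + 2 * (J + b) ≤
      (a : ℤ) - b + 2 * l + 3 + 2 * (p + r)) →
      Pos h ((a : ℤ) - b + 2 * l + 1 + 2 * (p + r))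
        (Pn h ((a : ℤ) - l - 2) ((b : ℤ) - l - 3) J) := by
    intro J hJ hb
    have := dP (-1) J le_rfl hJ hb
    rwa [pn_neg, sub_zero] at this
  have dN0 : ∀ J : ℤ, -1 ≤ J → (0 ≤ J → J ≤ a - 1) →
      Pos h ((a : ℤ) - b + 2 * l + 1 + 2 * (p + r))
        (Pn h (-((b : ℤ) - l - 3)) (-((a : ℤ) - l - 2)) J) := by
    intro J hJ hb
    have := dN (-1) J le_rfl hJ hb
    rwa [pn_neg, sub_zero] at this
  -- the sums `Om` for `q < b`
  have omL : ∀ q : ℕ, q < b → Pos h ((a : ℤ) - b + 2 * l + 1 + 2 * (p + r)) (Om h a b l q) := by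
    intro q hq
    by_cases hqa : q < a
    · rw [hO1 hSY hPHI F h h0 h1 a b l q ha hab hqa]
      have e := (hPL hSY F h h0 h1 _ _ ((a : ℤ) - q - 1) hαβ).2.2.1
      rw [sub_add_cancel] at e
      rw [e]
      exact dN0 _ (by omega) (fun _ => by omega)
    · rw [hO2 hSY F h h0 h1 a b l q ha hab (by omega) hq]
      exact P1 _
  -- `Om + Gf` for `q ≥ b`
  have omR : ∀ q : ℕ, b ≤ q → q ≤ r → Om h a b l q +
      Gf h ((a : ℤ) - l - 2) ((b : ℤ) - l - 3) (q - b) =
        Pn h ((a : ℤ) - l - 2) ((b : ℤ) - l - 3) (q - b) := by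
    intro q hq hqr
    rw [hO3 hSY hPHI F h h0 h1 a b l q ha hab hq (by omega), ← (hPL hSY F h h0 h1 _ _
      ((q : ℤ) - b) hαβ).1]
    ring
  have bd : ∀ q : ℕ, q ≤ r → (a : ℤ) - b - 2 * l - 5 + 2 * ((q : ℤ) - b + b) ≤
      (a : ℤ) - b + 2 * l + 3 + 2 * (p + r) := by
    intro q hq
    omega
  by_cases hrb : r < b
  · -- case A
    have x1 : Xf h a b l p r = 0 := xf_neg h (by omega)
    have x2 : Xf h a b l r p = 0 := xf_neg h (by omega)
    have x3 : Xf h a b l p p = 0 := xf_neg h (by omega)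
    rw [x1, x2, x3, add_zero, add_zero, add_zero]
    split_ifs with hp
    · exact omL p (by omega)
    · exact P2 _ _ _ (omL p (by omega)) (omL r hrb)
  · push Not at hrb
    have hr := omR r hrb le_rfl
    by_cases hpb : p < b
    · rw [if_neg (show ¬ p = r by omega)]
      have x2 : Xf h a b l r p = 0 := xf_neg h (by omega)
      rw [x2, add_zero]
      by_cases hpa : p < a
      · rw [hO1 hSY hPHI F h h0 h1 a b l p ha hab hpa]
        obtain ⟨-, l2, l3, -⟩ := hPL hSY F h h0 h1 _ _ ((a : ℤ) - p - 1) hαβ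
        obtain ⟨-, -, -, l4⟩ := hPL hSY F h h0 h1 _ _ ((r : ℤ) - b) hαβ
        rw [sub_add_cancel] at l2 l3
        by_cases hIJ : (a : ℤ) - p ≤ r - b
        · rw [xf_pos h (by omega), max_eq_right (by omega)]
          have e : Ph2 h ((a : ℤ) - p) ((a : ℤ) - l - 2) ((b : ℤ) - l - 3) + Om h a b l r +
              (Gf h ((a : ℤ) - l - 2) ((b : ℤ) - l - 3) (r - b) -
                Gf h ((a : ℤ) - l - 2) ((b : ℤ) - l - 3) ((a : ℤ) - p - 1)) =
              (Pn h ((a : ℤ) - l - 2) ((b : ℤ) - l - 3) (r - b) -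
                Pn h ((a : ℤ) - l - 2) ((b : ℤ) - l - 3) ((a : ℤ) - p - 1)) +
              ∑ k ∈ range ((a : ℤ) - p).toNat,
                syp h (-((a : ℤ) - l - 2) - ((a : ℤ) - p - 1 - 2 * k)) *
                  syp h ((b : ℤ) - l - 3 + ((a : ℤ) - p - 1 - 2 * k)) := by
            linear_combination hr - l2
          rw [e]
          refine P2 _ _ _ (dP _ _ (by omega) (by omega) fun _ => bd r le_rfl) ?_
          refine posSum _ _ _ fun k => P6 _ _ _ fun _ _ => ⟨by omega, ?_⟩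
          exact ⟨(a : ℤ) - b + l + 1 + (p + r), by ring⟩
        · rw [xf_neg h (by omega), add_zero,
            hO3 hSY hPHI F h h0 h1 a b l r ha hab hrb (by omega), l3, l4]
          have e : Pn h (-((b : ℤ) - l - 3)) (-((a : ℤ) - l - 2)) ((a : ℤ) - p - 1) +
              -(Pn h (-((b : ℤ) - l - 3)) (-((a : ℤ) - l - 2)) ((r : ℤ) - b) -
                ∑ k ∈ range ((r : ℤ) - b + 1).toNat,
                  syp h ((r : ℤ) - b - 2 * k - ((a : ℤ) - l - 2)) *
                    syp h ((b : ℤ) - l - 3 - ((r : ℤ) - b - 2 * k))) =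
              (Pn h (-((b : ℤ) - l - 3)) (-((a : ℤ) - l - 2)) ((a : ℤ) - p - 1) -
                Pn h (-((b : ℤ) - l - 3)) (-((a : ℤ) - l - 2)) ((r : ℤ) - b)) +
              ∑ k ∈ range ((r : ℤ) - b + 1).toNat,
                syp h ((r : ℤ) - b - 2 * k - ((a : ℤ) - l - 2)) *
                  syp h ((b : ℤ) - l - 3 - ((r : ℤ) - b - 2 * k)) := by
            ring
          rw [e]
          refine P2 _ _ _ (dN _ _ (by omega) (by omega) fun _ => by omega) ?_
          refine posSum _ _ _ fun k => P6 _ _ _ fun _ _ => ⟨by omega, ?_⟩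
          exact ⟨(a : ℤ) - b + l + 1 + (p + r), by ring⟩
      · rw [hO2 hSY F h h0 h1 a b l p ha hab (by omega) hpb, xf_pos h (by omega),
          max_eq_left (by omega), zero_add, zero_sub, gf_neg, sub_zero, hr]
        exact dP0 _ (by omega) fun _ => bd r le_rfl
    · push Not at hpb
      have hp := omR p hpb hpr
      have y1 : Xf h a b l p r = Gf h ((a : ℤ) - l - 2) ((b : ℤ) - l - 3) (r - b) := by
        rw [xf_pos h (by omega), max_eq_left (by omega), zero_sub, gf_neg, sub_zero]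
      have y2 : Xf h a b l r p = Gf h ((a : ℤ) - l - 2) ((b : ℤ) - l - 3) (p - b) := by
        rw [xf_pos h (by omega), max_eq_left (by omega), zero_sub, gf_neg, sub_zero]
      have y3 : Xf h a b l p p = Gf h ((a : ℤ) - l - 2) ((b : ℤ) - l - 3) (p - b) := by
        rw [xf_pos h (by omega), max_eq_left (by omega), zero_sub, gf_neg, sub_zero]
      split_ifs with hpr2
      · rw [y3, hp]
        exact dP0 _ (by omega) fun _ => bd p hpr
      · rw [y1, y2]
        have e : Om h a b l p + Om h a b l r + Gf h ((a : ℤ) - l - 2) ((b : ℤ) - l - 3) (r - b) +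
            Gf h ((a : ℤ) - l - 2) ((b : ℤ) - l - 3) (p - b) =
            Pn h ((a : ℤ) - l - 2) ((b : ℤ) - l - 3) (p - b) +
              Pn h ((a : ℤ) - l - 2) ((b : ℤ) - l - 3) (r - b) := by
          linear_combination hp + hr
        rw [e]
        exact P2 _ _ _ (dP0 _ (by omega) fun _ => bd p hpr) (dP0 _ (by omega) fun _ => bd r le_rfl)

end Pool.Agent.SWD
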