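import Pool.Agent.Lib.MP_263316_co.CB.SpecB

/-!
MP_263316_co, part CB2, task PU: the operator `Ug` on a product state as a two-particle sum.
-/

set_option autoImplicit false

namespace Pool.Agent.SWD

open Finset Pool.Agent.SWC Pool.Agent.SWB

namespace PUX

variable {R : Type} [CommRing R] {N : ℕ}

/-- the summand of `PS2` -/
def S2 (n : ℕ) (D0 D1 D3 E F : ℕ → R) (i j : ℕ) : R :=
  (∏ k ∈ range i, D0 k) * E i * (∏ k ∈ Ico (i + 1) j, D1 k) * F j * ∏ k ∈ Ico (j + 1) n, D3 k

/-- the factor of the colour `k` -/
def gf (D0 D1 D3 E F : ℕ → R) (i j k : ℕ) : R :=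
  if k < i then D0 k else if k = i then E k else if k < j then D1 k else if k = j then F k
  else D3 k

theorem prod_gf (D0 D1 D3 E F : ℕ → R) {i j n : ℕ} (hij : i < j) (hj : j < n) :
    ∏ k ∈ range n, gf D0 D1 D3 E F i j k = S2 n D0 D1 D3 E F i j := by
  have h1 : ∏ k ∈ range n, gf D0 D1 D3 E F i j k =
      (∏ k ∈ range i, gf D0 D1 D3 E F i j k) * (gf D0 D1 D3 E F i j i *
        ((∏ k ∈ Ico (i + 1) j, gf D0 D1 D3 E F i j k) * (gf D0 D1 D3 E F i j j *
          ∏ k ∈ Ico (j + 1) n, gf D0 D1 D3 E F i j k))) := by
    rw [← prod_range_mul_prod_Ico _ (show i ≤ n by omega),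
      prod_eq_prod_Ico_succ_bot (show i < n by omega),
      ← prod_Ico_consecutive _ (show i + 1 ≤ j by omega) (show j ≤ n by omega),
      prod_eq_prod_Ico_succ_bot hj]
  have h2 : ∏ k ∈ range i, gf D0 D1 D3 E F i j k = ∏ k ∈ range i, D0 k :=
    prod_congr rfl fun k hk => by
      rw [gf, if_pos (mem_range.1 hk)]
  have h3 : gf D0 D1 D3 E F i j i = E i := by
    rw [gf, if_neg (lt_irrefl i), if_pos rfl]
  have h4 : ∏ k ∈ Ico (i + 1) j, gf D0 D1 D3 E F i j k = ∏ k ∈ Ico (i + 1) j, D1 k :=
    prod_congr rfl fun k hk => by
      rw [mem_Ico] at hk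
      rw [gf, if_neg (by omega), if_neg (by omega), if_pos hk.2]
  have h5 : gf D0 D1 D3 E F i j j = F j := by
    rw [gf, if_neg (by omega), if_neg (by omega), if_neg (lt_irrefl j), if_pos rfl]
  have h6 : ∏ k ∈ Ico (j + 1) n, gf D0 D1 D3 E F i j k = ∏ k ∈ Ico (j + 1) n, D3 k :=
    prod_congr rfl fun k hk => by
      rw [mem_Ico] at hk
      rw [gf, if_neg (by omega), if_neg (by omega), if_neg (by omega), if_neg (by omega)]
  rw [h1, h2, h3, h4, h5, h6, S2]
  ring

theorem PS2_eq (D0 D1 D3 E F : ℕ → R) :
    PS2 N D0 D1 D3 E F = ∑ i : Fin N, ∑ j : Fin N,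
      if i < j then S2 N D0 D1 D3 E F i j else 0 := by
  rw [sum_comm, PS2, Finset.sum_range]
  refine sum_congr rfl fun j _ => ?_
  have h1 : ∑ i ∈ range (j : ℕ), S2 N D0 D1 D3 E F i j =
      ∑ i ∈ range N, if i < (j : ℕ) then S2 N D0 D1 D3 E F i j else 0 := by
    rw [← sum_filter]
    refine sum_congr ?_ fun _ _ => rfl
    ext k
    simp only [mem_range, mem_filter]
    have := j.2
    omega
  have h2 := Finset.sum_range (fun i => if i < (j : ℕ) then S2 N D0 D1 D3 E F i j else 0) (n := N)
  rw [h2] at h1
  exact h1

theorem prod_erase_eq (s : Fin N) (f : Fin N → R) :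
    ∏ k ∈ univ.erase s, f k = ∏ k, if k = s then 1 else f k := by
  rw [← mul_prod_erase univ (fun k => if k = s then 1 else f k) (mem_univ s), if_pos rfl, one_mul]
  exact prod_congr rfl fun k hk => by rw [if_neg (ne_of_mem_erase hk)]

theorem prod_single_eq (s : Fin N) (f : Fin N → R) :
    f s = ∏ k, if k = s then f k else 1 := by
  rw [Fintype.prod_ite_eq']

theorem prod_erase4 (a b c d : Fin N) (f : Fin N → R) :
    ∏ k ∈ (((univ.erase a).erase b).erase c).erase d, f k =
      ∏ k, if k = a ∨ k = b ∨ k = c ∨ k = d then 1 else f k := by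
  have h1 : ∏ k ∈ (((univ.erase a).erase b).erase c).erase d, f k =
      ∏ k ∈ (((univ.erase a).erase b).erase c).erase d,
        (if k = a ∨ k = b ∨ k = c ∨ k = d then 1 else f k) := by
    refine prod_congr rfl fun k hk => ?_
    simp only [mem_erase, mem_univ, and_true] at hk
    rw [if_neg (by tauto)]
  rw [h1]
  refine prod_subset (subset_univ _) fun k _ hk => ?_
  simp only [mem_erase, mem_univ, and_true] at hk
  rw [if_pos (by tauto)]

end PUX

open PUX in
/-- the operator `Ug` on a product state -/
theorem t_PU : S_PU := by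
  intro R _ N X q t y z i' j' hij
  unfold Ug
  rw [if_pos hij]
  congr 1
  rw [PS2_eq]
  -- the summand
  have key : ∀ i j : Fin N, i < j → i ≠ i' → i ≠ j' → j ≠ i' → j ≠ j' →
      pr q (fun k : Fin N => X k) y z i j *
        (wq q i i' * wq q i j' * wq q j i' * wq q j j') *
        ∏ k ∈ (((univ.erase i').erase j').erase i).erase j,
          (1 + t * (X k * (wq q i k * wq q j k * wq q k i' * wq q k j'))) =
      S2 N (fun k => (1 + q * y * X k) * (1 + q * z * X k) * sf q X i' j' 1 t k)
        (fun k => (1 + y * X k) * (1 + q * z * X k) * sf q X i' j' q (q * t) k)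
        (fun k => (1 + y * X k) * (1 + z * X k) * sf q X i' j' (q ^ 2) (q ^ 2 * t) k)
        (em X i' j' (q * z)) (em X i' j' y) i j := by
    intro i j h hi1 hi2 hj1 hj2
    have hv : (i : ℕ) < j := h
    rw [← prod_gf _ _ _ _ _ hv j.2, Finset.prod_range, pr, if_pos h, ph, ph, prod_erase_eq i,
      prod_erase_eq j, prod_erase4,
      prod_single_eq i (fun k : Fin N => X k), prod_single_eq j (fun k : Fin N => X k)]
    have e1 : wq q i i' * wq q i j' * wq q j i' * wq q j j' =
        (∏ k, if k = i' then wq q i k * wq q j k else 1) *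
          ∏ k, if k = j' then wq q i k * wq q j k else 1 := by
      rw [← prod_single_eq i' (fun k => wq q i k * wq q j k),
        ← prod_single_eq j' (fun k => wq q i k * wq q j k)]
      ring
    rw [e1]
    simp only [← prod_mul_distrib]
    refine prod_congr rfl fun k _ => ?_
    have hij' : (i' : ℕ) < j' := hij
    have g1 : (i : ℕ) ≠ i' := fun e => hi1 (Fin.ext e)
    have g2 : (i : ℕ) ≠ j' := fun e => hi2 (Fin.ext e)
    have g3 : (j : ℕ) ≠ i' := fun e => hj1 (Fin.ext e)
    have g4 : (j : ℕ) ≠ j' := fun e => hj2 (Fin.ext e)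
    simp only [Fin.ext_iff, wq, gf, sf, em, wn, Fin.lt_def]
    rcases lt_trichotomy (k : ℕ) i with h1 | h1 | h1
    · -- k < i
      have a1 := eq_false (show ¬ (k : ℕ) = i by omega)
      have a2 := eq_false (show ¬ (k : ℕ) = j by omega)
      have a3 := eq_false (show ¬ (i : ℕ) < k by omega)
      have a4 := eq_false (show ¬ (j : ℕ) < k by omega)
      have a5 := eq_true (show (k : ℕ) < j by omega)
      have a6 := eq_true h1
      by_cases b1 : (k : ℕ) = i'
      · have b2 := eq_false (show ¬ (k : ℕ) = j' by omega)
        have b3 := eq_true b1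
        simp only [a1, a2, a3, a4, a5, a6, b2, b3, or_false, true_or, if_true, if_false]
        ring
      · have b3 := eq_false b1
        by_cases b2 : (k : ℕ) = j'
        · have b4 := eq_true b2
          simp only [a1, a2, a3, a4, a5, a6, b3, b4, or_false, or_true, if_true, if_false]
          ring
        · have b4 := eq_false b2
          simp only [a1, a2, a3, a4, a5, a6, b3, b4, or_false, if_true, if_false]
          ring
    · -- k = i
      have a0 := eq_false (show ¬ (k : ℕ) < i by omega)
      have a1 := eq_true h1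
      have a2 := eq_false (show ¬ (k : ℕ) = j by omega)
      have a5 := eq_true (show (k : ℕ) < j by omega)
      have b1 := eq_false (show ¬ (k : ℕ) = i' by omega)
      have b2 := eq_false (show ¬ (k : ℕ) = j' by omega)
      simp only [a0, a1, a2, a5, b1, b2, or_false, false_or, or_true, true_or, if_true, if_false]
      ring
    · rcases lt_trichotomy (k : ℕ) j with h2 | h2 | h2
      · -- i < k < j
        have a0 := eq_false (show ¬ (k : ℕ) < i by omega)
        have a1 := eq_false (show ¬ (k : ℕ) = i by omega)
        have a2 := eq_false (show ¬ (k : ℕ) = j by omega)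
        have a3 := eq_true h1
        have a4 := eq_false (show ¬ (j : ℕ) < k by omega)
        have a5 := eq_true h2
        by_cases b1 : (k : ℕ) = i'
        · have b2 := eq_false (show ¬ (k : ℕ) = j' by omega)
          have b3 := eq_true b1
          simp only [a0, a1, a2, a3, a4, a5, b2, b3, or_false, true_or, if_true, if_false]
          ring
        · have b3 := eq_false b1
          by_cases b2 : (k : ℕ) = j'
          · have b4 := eq_true b2
            simp only [a0, a1, a2, a3, a4, a5, b3, b4, or_false, or_true, if_true,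
              if_false]
            ring
          · have b4 := eq_false b2
            simp only [a0, a1, a2, a3, a4, a5, b3, b4, or_false, if_true, if_false]
            ring
      · -- k = j
        have a0 := eq_false (show ¬ (k : ℕ) < i by omega)
        have a1 := eq_false (show ¬ (k : ℕ) = i by omega)
        have a2 := eq_true h2
        have a5 := eq_false (show ¬ (k : ℕ) < j by omega)
        have b1 := eq_false (show ¬ (k : ℕ) = i' by omega)
        have b2 := eq_false (show ¬ (k : ℕ) = j' by omega)
        simp only [a0, a1, a2, a5, b1, b2, or_false, false_or, or_true, true_or, if_true, if_false]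
        ring
      · -- k > j
        have a0 := eq_false (show ¬ (k : ℕ) < i by omega)
        have a1 := eq_false (show ¬ (k : ℕ) = i by omega)
        have a2 := eq_false (show ¬ (k : ℕ) = j by omega)
        have a3 := eq_true h1
        have a4 := eq_true h2
        have a5 := eq_false (show ¬ (k : ℕ) < j by omega)
        by_cases b1 : (k : ℕ) = i'
        · have b2 := eq_false (show ¬ (k : ℕ) = j' by omega)
          have b3 := eq_true b1
          simp only [a0, a1, a2, a3, a4, a5, b2, b3, or_false, true_or, if_true, if_false]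
          ring
        · have b3 := eq_false b1
          by_cases b2 : (k : ℕ) = j'
          · have b4 := eq_true b2
            simp only [a0, a1, a2, a3, a4, a5, b3, b4, or_false, or_true, if_true,
              if_false]
            ring
          · have b4 := eq_false b2
            simp only [a0, a1, a2, a3, a4, a5, b3, b4, or_false, if_true, if_false]
            ring
  -- summation
  have hz : ∀ i j : Fin N, (i = i' ∨ i = j' ∨ j = i' ∨ j = j') →
      S2 N (fun k => (1 + q * y * X k) * (1 + q * z * X k) * sf q X i' j' 1 t k)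
        (fun k => (1 + y * X k) * (1 + q * z * X k) * sf q X i' j' q (q * t) k)
        (fun k => (1 + y * X k) * (1 + z * X k) * sf q X i' j' (q ^ 2) (q ^ 2 * t) k)
        (em X i' j' (q * z)) (em X i' j' y) i j = 0 := by
    intro i j h
    rw [S2]
    rcases h with rfl | rfl | rfl | rfl
    · rw [show em X i j' (q * z) i = 0 from if_pos (Or.inl rfl)]; ring
    · rw [show em X i' i (q * z) i = 0 from if_pos (Or.inr rfl)]; ring
    · rw [show em X j j' y j = 0 from if_pos (Or.inl rfl)]; ring
    · rw [show em X i' j y j = 0 from if_pos (Or.inr rfl)]; ring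
  have hsub : ∀ (s : Finset (Fin N)) (f : Fin N → R), (∀ k, k ∉ s → f k = 0) →
      ∑ k, f k = ∑ k ∈ s, f k := fun s f hf =>
    (sum_subset (subset_univ s) fun k _ hk => hf k hk).symm
  rw [hsub ((univ.erase i').erase j')]
  · refine sum_congr rfl fun i hi => ?_
    simp only [mem_erase, mem_univ, and_true] at hi
    rw [hsub (((univ.erase i').erase j').erase i)]
    · refine sum_congr rfl fun j hj => ?_
      simp only [mem_erase, mem_univ, and_true] at hj
      by_cases h : i < j
      · rw [if_pos h, ← key i j h hi.2 hi.1 hj.2.2 hj.2.1]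
      · rw [if_neg h, pr, if_neg h]
        ring
    · intro j hj
      simp only [mem_erase, mem_univ, and_true, not_and, not_not] at hj
      by_cases h : i < j
      · rw [if_pos h]
        refine hz i j ?_
        by_cases h1 : j = j'
        · exact Or.inr (Or.inr (Or.inr h1))
        · exact Or.inr (Or.inr (Or.inl (hj (ne_of_gt h) h1)))
      · rw [if_neg h]
  · intro i hi
    simp only [mem_erase, mem_univ, and_true, not_and, not_not] at hi
    refine sum_eq_zero fun j _ => ?_
    split_ifs
    · refine hz i j ?_
      by_cases h1 : i = j'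
      · exact Or.inr (Or.inl h1)
      · exact Or.inl (hi h1)
    · rfl

end Pool.Agent.SWD
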