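import Pool.Agent.Lib.MP_263316_co.CB.SpecD

/-!
MP_263316_co, part CB4, task CWt: `Wo l` maps `eh c` into the cone. (helper72)
-/

set_option autoImplicit false

namespace Pool.Agent.SWD

open Finset Pool.Agent.SWC Pool.Agent.SWB

namespace CWtAux

/-- sums of `ps` -/
theorem sum_ps {F : Type} [Field F] {h : F} (hSY : S_SY) (h0 : h ≠ 0) (h1 : h ^ 2 ≠ 1) :
    ∀ (n : ℕ) (s : ℤ), s < 2 * n → ∑ i ∈ range n, ps h (s - 2 * i) = syp h (s + 1) := by
  obtain ⟨sy0, sy1, -, -, -, -, -, systep, -⟩ := hSY F h h0 h1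
  intro n
  induction n with
  | zero =>
    intro s hs
    rw [sum_range_zero]
    unfold syp
    rw [if_neg (by push_cast at hs; omega)]
  | succ n ih =>
    intro s hs
    rw [sum_range_succ']
    have h2 : ∑ i ∈ range n, ps h (s - 2 * ((i + 1 : ℕ) : ℤ)) =
        ∑ i ∈ range n, ps h ((s - 2) - 2 * i) := by
      refine sum_congr rfl fun i _ => ?_
      congr 1
      push_cast
      ring
    rw [h2, ih (s - 2) (by push_cast at hs ⊢; omega)]
    have h3 : s - 2 * ((0 : ℕ) : ℤ) = s := by push_cast; ring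
    rw [h3]
    unfold ps syp
    rcases lt_trichotomy s 0 with hs0 | hs0 | hs0
    · rw [if_neg (by omega), if_pos hs0, if_neg (by omega), add_zero]
    · subst hs0
      rw [if_neg (by omega), if_neg (by omega), if_pos rfl, if_pos (by omega), zero_add, zero_add,
        sy1]
    · have h4 := systep s
      rw [if_neg (not_lt.2 hs0.le), if_neg hs0.ne', if_pos (show (0 : ℤ) < s + 1 by omega)]
      by_cases h5 : s = 1
      · subst h5
        rw [if_neg (by omega)]
        rw [show (1 : ℤ) - 1 = 0 by ring, sy0, sub_zero] at h4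
        rw [h4, zero_add]
      · rw [if_pos (by omega), show s - 2 + 1 = s - 1 by ring, ← h4]
        ring

theorem sum_ps' {F : Type} [Field F] {h : F} (hSY : S_SY) (h0 : h ≠ 0) (h1 : h ^ 2 ≠ 1)
    (l c : ℕ) : ∑ c' ∈ Icc 1 (l + 1), ps h (2 * c' + 1 - ((c + l + 3 : ℕ) : ℤ)) * 1 =
      syp h ((l : ℤ) + 1 - c) := by
  have h2 := sum_ps hSY h0 h1 (l + 1) ((l : ℤ) - c) (by push_cast; omega)
  rw [show (l : ℤ) + 1 - c = (l : ℤ) - c + 1 by ring, ← h2]
  refine sum_bij' (fun c' _ => l + 1 - c') (fun i _ => l + 1 - i) ?_ ?_ ?_ ?_ ?_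
  · intro a ha
    rw [mem_Icc] at ha
    rw [mem_range]
    omega
  · intro a ha
    rw [mem_range] at ha
    rw [mem_Icc]
    omega
  · intro a ha
    rw [mem_Icc] at ha
    omega
  · intro a ha
    rw [mem_range] at ha
    omega
  · intro a ha
    rw [mem_Icc] at ha
    rw [mul_one]
    congr 1
    rw [Nat.cast_sub (by omega)]
    push_cast
    ring

theorem syp_add {F : Type} [Field F] {h : F} (hSY : S_SY) (h0 : h ≠ 0) (h1 : h ^ 2 ≠ 1) (x : ℤ) :
    syp h x + sy h (-x) = syp h (-x) := by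
  obtain ⟨sy0, -, syneg, -⟩ := hSY F h h0 h1
  unfold syp
  rcases lt_trichotomy x 0 with hx | hx | hx
  · rw [if_neg (by omega), if_pos (by omega), zero_add]
  · subst hx
    rw [if_neg (by omega), if_neg (by omega), neg_zero, sy0, zero_add]
  · rw [if_pos hx, if_neg (by omega), syneg, add_neg_cancel]

/-- first sum of the closed formula -/
theorem sum1 {F : Type} [Field F] {h : F} (h0 : h ≠ 0) (l : ℕ) (B : ℕ → F) :
    ∑ r ∈ antidiagonal l, (h ^ 2) ^ r.1 * B (r.2 + 1) =
      ∑ c' ∈ Icc 1 (l + 1), h ^ ((2 * l + 2 : ℤ) - 2 * c') * 1 * B c' := by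
  rw [Finset.Nat.sum_antidiagonal_eq_sum_range_succ_mk]
  refine sum_bij' (fun i _ => l + 1 - i) (fun c' _ => l + 1 - c') ?_ ?_ ?_ ?_ ?_
  · intro a ha
    rw [mem_range] at ha
    rw [mem_Icc]
    omega
  · intro a ha
    rw [mem_Icc] at ha
    rw [mem_range]
    omega
  · intro a ha
    rw [mem_range] at ha
    omega
  · intro a ha
    rw [mem_Icc] at ha
    omega
  · intro a ha
    rw [mem_range] at ha
    have h2 : ((2 * l + 2 : ℤ) - 2 * ((l + 1 - a : ℕ) : ℤ)) = ((2 * a : ℕ) : ℤ) := by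
      rw [Nat.cast_sub (by omega)]
      push_cast
      ring
    rw [h2, zpow_natCast, mul_one, pow_mul]
    congr 2
    simp only
    omega

/-- second sum of the closed formula -/
theorem sum2 {F : Type} [Field F] {h : F} (hSY : S_SY) (h0 : h ≠ 0) (h1 : h ^ 2 ≠ 1) (l c : ℕ)
    (e : ℕ → F) (B : ℕ → F) :
    ∑ r ∈ antidiagonal l, ((h ^ 2) ^ (l + 2 + r.1) - (h ^ 2) ^ (c + 1 + r.1)) / (1 - h ^ 2) *
      e (c + 1 + r.1) * B (r.2 + 2) =
      ∑ j ∈ range (c + l + 2), (if j < c + 1 then 0 else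
        h ^ ((l : ℤ) - c + 2 * j) * sy h ((c : ℤ) - l - 1)) * e j * B (c + l + 3 - j) := by
  obtain ⟨-, -, -, -, sydiv, -⟩ := hSY F h h0 h1
  have h2 : range (c + l + 2) = range (c + 1) ∪ (range (l + 1)).image (fun i => c + 1 + i) := by
    ext j
    simp only [mem_range, mem_union, mem_image]
    constructor
    · intro hj
      by_cases hjc : j < c + 1
      · exact Or.inl hjc
      · exact Or.inr ⟨j - (c + 1), by omega, by omega⟩
    · rintro (hj | ⟨i, hi, rfl⟩)
      · omega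
      · omega
  have h3 : Disjoint (range (c + 1)) ((range (l + 1)).image (fun i => c + 1 + i)) := by
    rw [disjoint_left]
    intro j hj hj'
    rw [mem_range] at hj
    rw [mem_image] at hj'
    obtain ⟨i, _, rfl⟩ := hj'
    omega
  rw [h2, sum_union h3, Finset.Nat.sum_antidiagonal_eq_sum_range_succ_mk]
  have h4 : ∑ j ∈ range (c + 1), (if j < c + 1 then 0 else
        h ^ ((l : ℤ) - c + 2 * j) * sy h ((c : ℤ) - l - 1)) * e j * B (c + l + 3 - j) = 0 := by
    refine sum_eq_zero fun j hj => ?_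
    rw [mem_range] at hj
    rw [if_pos hj, zero_mul, zero_mul]
  rw [h4, zero_add, sum_image (fun a _ b _ hab => by simpa using hab)]
  refine sum_congr rfl fun i hi => ?_
  rw [mem_range] at hi
  simp only
  rw [if_neg (by omega), show c + l + 3 - (c + 1 + i) = l - i + 2 by omega]
  congr 2
  have h5 := sydiv ((l + 2 + i : ℕ) : ℤ) ((c + 1 + i : ℕ) : ℤ)
  have h6 : ∀ a : ℕ, h ^ (2 * (a : ℤ)) = (h ^ 2) ^ a := by
    intro a
    rw [← pow_mul, ← zpow_natCast]
    congr 1
  rw [h6, h6] at h5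
  rw [h5]
  congr 2
  · push_cast
    ring
  · push_cast
    ring

end CWtAux

open CWtAux in
/-- TASK CWt. -/
theorem t_CWt : S_CWt := by
  intro hMP hTH hDE hSY hPB hFO hSTR hEXT hW N l c
  obtain ⟨hinj, hq, h0, h1, h2, haev⟩ := hTH N
  obtain ⟨sy0, sy1, syneg, -, -, -, -, -, -⟩ := hSY (FN N) (hN N) h0 h1
  obtain ⟨pb0, -, -, pbsy, -, -⟩ := hPB hSY (FN N) (hN N) h0 h1
  refine hDE hMP hTH N (c + l + 3) (c + 3 * l + 3) _ (fun i j hij => ?_)
    ({0} ×ˢ (Icc 1 (l + 1)).filter (fun c' => 2 * c' + 2 ≤ c + l + 3))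
    ({0} ×ˢ range (c + l + 2))
    (fun _ c' => 1 - if c + l + 3 - 1 - c' ≤ l + 1 then 1 else 0)
    (fun _ j => if j < c + 1 then syp (hN N) ((l : ℤ) + 1 - c)
      else syp (hN N) (-((l : ℤ) + 1 - c))) ?_ ?_ ?_
  · exact if_neg hij
  · rintro ⟨t1, t2⟩ ht
    rw [mem_product, mem_singleton, mem_filter, mem_Icc] at ht
    obtain ⟨ht1, ht2, ht3⟩ := ht
    simp only at ht1 ht2 ht3 ⊢
    subst ht1
    refine ⟨ht2.1, by omega, ?_⟩
    split_ifs with h3
    · rw [sub_self]
      exact pb0 _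
    · rw [sub_zero, ← sy1]
      refine pbsy _ 1 (by omega) ?_ ?_
      · push_cast
        omega
      · push_cast
        exact ⟨(l : ℤ) + 1 - t2, by ring⟩
  · rintro ⟨t1, t2⟩ ht
    rw [mem_product, mem_singleton, mem_range] at ht
    obtain ⟨ht1, ht2⟩ := ht
    simp only at ht1 ht2 ⊢
    subst ht1
    refine ⟨by omega, ?_⟩
    split_ifs with h3
    · unfold syp
      split_ifs with h4
      · refine pbsy _ _ h4.le ?_ ?_
        · push_cast
          omega
        · push_cast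
          exact ⟨(t2 : ℤ), by ring⟩
      · exact pb0 _
    · unfold syp
      split_ifs with h4
      · refine pbsy _ _ h4.le ?_ ?_
        · push_cast
          omega
        · push_cast
          exact ⟨(l : ℤ) + 1 - c + t2, by ring⟩
      · exact pb0 _
  · intro i j hij
    obtain ⟨-, mpeH, -, -, -, -, -, -, -, -, mpWo, -⟩ :=
      hMP (AN N) (FN N) (thN N) N (qq N) (xx N)
    rw [mpWo l (eh (qq N) (xx N) c) i j, hq]
    set h := hN N with hh
    set X : Fin N → FN N := fun k => thN N (xx N k) with hX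
    have h3 : (fun k => thN N (eh (qq N) (xx N) c k)) = eH (h ^ 2) X (c + 1) := by
      funext k
      rw [← eH_succ, mpeH, hq]
    rw [h3, hW (FN N) N (h ^ 2) X (pow_ne_zero 2 h0) (sub_ne_zero.2 (Ne.symm h1)) l (c + 1)
      (by omega) i j hij]
    have hs1 := sum1 (h := h) h0 l (fun a => bt (h ^ 2) X (c + 1 + l + 2) a i j)
    have hs2 := sum2 hSY h0 h1 l c (es X) (fun n => Cn (h ^ 2) X n i j)
    rw [hs1, hs2]
    have hfo := hFO hSTR hEXT (FN N) h h0 N X (l + 1) (c + 1 + l + 2) (2 * l + 2 : ℤ)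
      (fun _ => 1) (by omega) i j hij
    have hM : c + 1 + l + 2 = c + l + 3 := by ring
    rw [hM] at hfo ⊢
    rw [hfo, sum_ps' hSY h0 h1 l c, sum_product, sum_singleton, sum_product, sum_singleton,
      add_assoc]
    congr 1
    · refine sum_congr rfl fun c' _ => ?_
      simp only [es_zero', mul_one, Nat.sub_zero]
      congr 3
      push_cast
      ring
    · unfold Sn
      rw [mul_sum, show c + l + 3 - 1 = c + l + 2 from rfl, ← sum_add_distrib]
      refine sum_congr rfl fun a _ => ?_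
      simp only [es_zero', one_mul, Nat.sub_zero]
      have h4 : h ^ ((2 * l + 2 : ℤ) + 1 - ((c + l + 3 : ℕ) : ℤ)) * (h ^ 2) ^ a =
          h ^ ((l : ℤ) - c + 2 * a) := by
        rw [← pow_mul, ← zpow_natCast, ← zpow_add₀ h0]
        congr 1
        push_cast
        ring
      have h5 : h ^ (((c + 3 * l + 3 : ℕ) : ℤ) + 3 - 2 * (((c + l + 3 : ℕ) : ℤ) - ((0 : ℕ) : ℤ) - a)) =
          h ^ ((l : ℤ) - c + 2 * a) := by
        congr 1
        push_cast
        ring
      rw [h5]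
      have h6 : h ^ ((2 * l + 2 : ℤ) + 1 - ((c + l + 3 : ℕ) : ℤ)) * syp h ((l : ℤ) + 1 - c) *
          ((h ^ 2) ^ a * es X a * Cn (h ^ 2) X (c + l + 3 - a) i j) =
          h ^ ((l : ℤ) - c + 2 * a) * syp h ((l : ℤ) + 1 - c) *
            (es X a * Cn (h ^ 2) X (c + l + 3 - a) i j) := by
        rw [← h4]
        ring
      rw [h6]
      split_ifs with h7
      · ring
      · have h8 := syp_add hSY h0 h1 ((l : ℤ) + 1 - c)
        rw [← h8, show (c : ℤ) - l - 1 = -((l : ℤ) + 1 - c) by ring]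
        ring

end Pool.Agent.SWD
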