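import Pool.Agent.Lib.MP_263316_co.CB.SpecC

set_option autoImplicit false

namespace Pool.Agent.SWD

open Finset Pool.Agent.SWC Pool.Agent.SWB

private theorem mp_es {R R' : Type} [CommRing R] [CommRing R'] (φ : R →+* R') {N : ℕ}
    (x : Fin N → R) (p : ℕ) : φ (es x p) = es (fun k => φ (x k)) p := by
  simp only [es, map_sum, map_prod]

private theorem mp_ite {R R' : Type} [CommRing R] [CommRing R'] (φ : R →+* R') (P : Prop)
    [Decidable P] (a b : R) : φ (if P then a else b) = if P then φ a else φ b := apply_ite φ P a b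

private theorem mp_eh {R R' : Type} [CommRing R] [CommRing R'] (φ : R →+* R') {N : ℕ} (q : R)
    (x : Fin N → R) (c : ℕ) (j : Fin N) :
    φ (eh q x c j) = eh (φ q) (fun k => φ (x k)) c j := by
  simp only [eh, map_sum, map_prod, map_mul, mp_ite]

private theorem mp_eH {R R' : Type} [CommRing R] [CommRing R'] (φ : R →+* R') {N : ℕ} (q : R)
    (x : Fin N → R) (c : ℕ) (j : Fin N) :
    φ (eH q x c j) = eH (φ q) (fun k => φ (x k)) c j := by
  simp only [eH, mp_ite, mp_eh, map_zero]

private theorem mp_wq {R R' : Type} [CommRing R] [CommRing R'] (φ : R →+* R') {N : ℕ} (q : R)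
    (i j : Fin N) : φ (wq q i j) = wq (φ q) i j := by
  simp only [wq, mp_ite, map_one]

private theorem mp_bt {R R' : Type} [CommRing R] [CommRing R'] (φ : R →+* R') {N : ℕ} (q : R)
    (x : Fin N → R) (n a : ℕ) (i j : Fin N) :
    φ (bt q x n a i j) = bt (φ q) (fun k => φ (x k)) n a i j := by
  simp only [bt, map_sum, map_mul, mp_ite, map_add, map_pow, mp_eH, map_zero]

private theorem mp_Cn {R R' : Type} [CommRing R] [CommRing R'] (φ : R →+* R') {N : ℕ} (q : R)
    (x : Fin N → R) (n : ℕ) (i j : Fin N) :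
    φ (Cn q x n i j) = Cn (φ q) (fun k => φ (x k)) n i j := by
  simp only [Cn, map_sum, map_mul, map_prod, mp_ite, mp_wq, map_zero]

theorem t_MP : S_MP := by
  intro R R' _ _ φ N q x
  refine ⟨mp_es φ x, mp_eH φ q x, mp_bt φ q x, mp_Cn φ q x, ?_, ?_, ?_, ?_, ?_, ?_, ?_, ?_, ?_, ?_⟩
  · intro n i j
    simp only [Sn, map_sum, map_mul, map_pow, mp_es, mp_Cn]
  · intro z
    simp only [Ez, map_prod, map_add, map_one, map_mul]
  · intro z i
    simp only [ph, map_prod, map_add, map_one, map_mul, mp_ite]
  · intro t i j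
    simp only [Ct, map_prod, map_add, map_one, map_mul, mp_ite, mp_wq, map_zero]
  · intro y z i j
    simp only [pr, ph, map_prod, map_add, map_one, map_mul, mp_ite, map_zero]
  · intro l f i j
    simp only [UU, map_sum, map_prod, map_mul, mp_ite, mp_wq, map_zero]
  · intro l G i j
    simp only [Wo, map_sum, map_prod, map_mul, mp_ite, mp_wq, map_zero]
  · intro t f i j
    simp only [Ug, map_sum, map_prod, map_mul, map_add, map_one, mp_ite, mp_wq, map_zero]
  · intro t G i j
    simp only [Wg, map_sum, map_prod, map_mul, map_add, map_one, mp_ite, mp_wq, map_zero]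
  · intro w c i j
    simp only [bw, map_sum, map_mul, map_pow, mp_bt]

end Pool.Agent.SWD
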