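import Pool.Agent.Lib.MP_263316_co.CB.SpecC
import Pool.Agent.Lib.MP_263316_co.CB.MP

set_option autoImplicit false

namespace Pool.Agent.SWD

open Finset Pool.Agent.SWC Pool.Agent.SWB

private theorem ds_fh {R R' : Type} [CommRing R] [CommRing R'] (φ : R →+* R') {N : ℕ} (q : R)
    (x : Fin N → R) (c : ℕ) (j : Fin N) :
    φ (fh q x c j) = fh (φ q) (fun k => φ (x k)) c j := by
  have hi : ∀ (P : Prop) [Decidable P] (a b : R),
      φ (if P then a else b) = if P then φ a else φ b := fun P _ a b => apply_ite φ P a b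
  simp only [fh, map_sum, map_prod, map_mul, hi]

private theorem ds_bt {A : Type} [CommRing A] {N : ℕ} (q : A) (x : Fin N → A) (n m : ℕ)
    (i j : Fin N) (hij : i < j) : bt q x (n + 2) (m + 1) i j =
    ∑ p ∈ antidiagonal n, ((if p.1 ≤ m then q ^ p.1 else 0) +
      (if p.2 ≤ m then q ^ (2 * m + 1 - p.2) else 0)) * eH q x (p.1 + 1) i *
        eH q x (p.2 + 1) j := by
  unfold bt
  rw [if_pos hij, sum_Ico_eq_sum_range]
  rw [Finset.Nat.sum_antidiagonal_eq_sum_range_succ_mk]
  refine sum_congr (by congr 1) fun a ha => ?_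
  have ha' : a < n + 1 := by
    rw [mem_range] at ha
    omega
  have h1 : (1 + a ≤ m + 1) ↔ a ≤ m := by omega
  have h2 : (n + 2 ≤ 1 + a + (m + 1)) ↔ n - a ≤ m := by omega
  have h3 : 1 + a - 1 = a := by omega
  have h4 : 2 * (m + 1) + (1 + a) - (n + 2) = 2 * m + 1 - (n - a) := by omega
  have h5 : n + 2 - (1 + a) = n - a + 1 := by omega
  have h6 : 1 + a = a + 1 := by omega
  simp only [h1, h2, h3, h4, h5]
  rw [h6]

private theorem ds_gs {A : Type} [CommRing A] (c : A) :
    (1 - PowerSeries.C c * PowerSeries.X) * gs c = 1 := by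
  ext n
  rcases n with _ | n
  · simp [gs, sub_mul, mul_assoc]
  · rw [sub_mul, one_mul, map_sub, mul_assoc, PowerSeries.coeff_C_mul,
      PowerSeries.coeff_succ_X_mul]
    simp only [gs, PowerSeries.coeff_mk, PowerSeries.coeff_one]
    rw [if_neg (Nat.succ_ne_zero n), pow_succ]
    ring

private theorem ds_G {A : Type} [CommRing A] (c : A) (k : ℕ) :
    PowerSeries.mk (fun m => if k ≤ m then c ^ m else 0) =
      (PowerSeries.C c * PowerSeries.X) ^ k * gs c := by
  ext m
  rw [mul_pow, ← map_pow, mul_assoc, PowerSeries.coeff_C_mul, PowerSeries.coeff_X_pow_mul',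
    PowerSeries.coeff_mk]
  split_ifs with h
  · simp only [gs, PowerSeries.coeff_mk]
    rw [← pow_add]
    congr 1
    omega
  · rw [mul_zero]

private theorem ds_H {A : Type} [CommRing A] (q η : A) (k : ℕ) :
    PowerSeries.mk (fun m => (if k ≤ m then q ^ (2 * m + 1 - k) else 0) * η ^ m) =
      PowerSeries.C q * (PowerSeries.C (q * η) * PowerSeries.X) ^ k * gs (q ^ 2 * η) := by
  ext m
  rw [mul_pow, ← map_pow, mul_assoc, mul_assoc, PowerSeries.coeff_C_mul, PowerSeries.coeff_C_mul,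
    PowerSeries.coeff_X_pow_mul', PowerSeries.coeff_mk]
  split_ifs with h
  · simp only [gs, PowerSeries.coeff_mk]
    obtain ⟨d, rfl⟩ := Nat.exists_eq_add_of_le h
    have h1 : k + d - k = d := by omega
    have h2 : 2 * (k + d) + 1 - k = 1 + k + 2 * d := by omega
    rw [h1, h2, mul_pow, mul_pow, ← pow_mul, pow_add q (1 + k), pow_add q 1 k, pow_one,
      pow_add η]
    ring
  · ring

private theorem ds_sum {P : Type} [CommRing P] (N : ℕ) (g : ℕ × ℕ → P)
    (h1 : ∀ p : ℕ × ℕ, N < p.1 → g p = 0) (h2 : ∀ p : ℕ × ℕ, N < p.2 → g p = 0) :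
    ∑ n ∈ range (2 * N + 1), ∑ p ∈ antidiagonal n, g p =
      ∑ p ∈ range (N + 1) ×ˢ range (N + 1), g p := by
  set s : Finset (ℕ × ℕ) := (range (2 * N + 1) ×ˢ range (2 * N + 1)).filter
    (fun p => p.1 + p.2 < 2 * N + 1) with hs
  have e1 : ∑ p ∈ s, g p = ∑ n ∈ range (2 * N + 1), ∑ p ∈ antidiagonal n, g p := by
    rw [← sum_fiberwise_of_maps_to (t := range (2 * N + 1)) (g := fun p => p.1 + p.2)]
    · refine sum_congr rfl fun n hn => sum_congr ?_ fun _ _ => rfl
      ext p
      rw [mem_range] at hn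
      simp only [hs, mem_filter, mem_product, mem_range, HasAntidiagonal.mem_antidiagonal]
      omega
    · intro p hp
      simp only [hs, mem_filter] at hp
      rw [mem_range]
      exact hp.2
  rw [← e1]
  symm
  refine sum_subset ?_ ?_
  · intro p hp
    simp only [mem_product, mem_range] at hp
    simp only [hs, mem_filter, mem_product, mem_range]
    omega
  · intro p _ hp
    simp only [mem_product, mem_range] at hp
    by_cases h3 : N < p.1
    · exact h1 p h3
    · exact h2 p (by omega)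

theorem t_DSt : S_DSt := by
  intro hES A _ N q x η w i j hij
  have hESA := hES A N q x
  have hz : ∀ c k, N ≤ c → eH q x (c + 1) k = 0 := fun c k hc => hESA.2.2.2.2.1 k (c + 1) (by omega)
  set y : PowerSeries A := PowerSeries.C η * PowerSeries.X with hy
  set Y1 : PowerSeries A := PowerSeries.C (q * η * w) * PowerSeries.X with hY1
  set Y2 : PowerSeries A := PowerSeries.C w with hY2
  have hY1' : Y1 = PowerSeries.C q * y * Y2 := by
    rw [hY1, hy, hY2, map_mul, map_mul]
    ring
  have hph : ∀ (z : PowerSeries A) (k : Fin N),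
      PowerSeries.C (x k) * ph (PowerSeries.C q) (fun k => PowerSeries.C (x k)) z k =
        ∑ c ∈ range (N + 1), PowerSeries.C (eH q x (c + 1) k) * z ^ c := by
    intro z k
    rw [(hES (PowerSeries A) N (PowerSeries.C q) (fun k => PowerSeries.C (x k))).2.2.1, mul_sum]
    refine sum_congr rfl fun c _ => ?_
    rw [eH_eq, map_mul, ds_fh (PowerSeries.C : A →+* PowerSeries A)]
    ring
  have hpr : ∀ (y1 z1 : PowerSeries A), pr (PowerSeries.C q) (fun k => PowerSeries.C (x k)) y1 z1 i j =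
      ∑ p ∈ range (N + 1) ×ˢ range (N + 1), PowerSeries.C (eH q x (p.1 + 1) i) *
        PowerSeries.C (eH q x (p.2 + 1) j) * (y1 ^ p.1 * z1 ^ p.2) := by
    intro y1 z1
    unfold pr
    rw [if_pos hij]
    have : PowerSeries.C (x i) * PowerSeries.C (x j) *
        (ph (PowerSeries.C q) (fun k => PowerSeries.C (x k)) y1 i *
          ph (PowerSeries.C q) (fun k => PowerSeries.C (x k)) z1 j) =
        (PowerSeries.C (x i) * ph (PowerSeries.C q) (fun k => PowerSeries.C (x k)) y1 i) *
        (PowerSeries.C (x j) * ph (PowerSeries.C q) (fun k => PowerSeries.C (x k)) z1 j) := by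
      ring
    rw [this, hph, hph, sum_mul_sum, sum_product]
    refine sum_congr rfl fun a _ => sum_congr rfl fun b _ => ?_
    ring
  have hDS : DS q x η w i j = ∑ n ∈ range (2 * N + 1), ∑ p ∈ antidiagonal n,
      PowerSeries.C (eH q x (p.1 + 1) i) * PowerSeries.C (eH q x (p.2 + 1) j) * Y2 ^ n *
        (PowerSeries.C (q ^ p.1) * (y ^ p.1 * gs η) +
          PowerSeries.C q * (PowerSeries.C (q * η) * PowerSeries.X) ^ p.2 * gs (q ^ 2 * η)) := by
    ext m
    rw [map_sum]
    simp only [DS, bw, PowerSeries.coeff_mk]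
    rw [mul_sum]
    refine sum_congr rfl fun n _ => ?_
    rw [map_sum, ds_bt q x n m i j hij, sum_mul, mul_sum]
    refine sum_congr rfl fun p _ => ?_
    rw [hy, ← ds_G, ← ds_H, hY2, ← map_pow, ← map_mul, ← map_mul, PowerSeries.coeff_C_mul, map_add,
      PowerSeries.coeff_C_mul, PowerSeries.coeff_mk, PowerSeries.coeff_mk]
    split_ifs <;> ring
  have hg1 := ds_gs η
  have hg2 := ds_gs (q ^ 2 * η)
  rw [← hy] at hg1
  have e3 : (1 - PowerSeries.C (q ^ 2 * η) * PowerSeries.X : PowerSeries A) =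
      1 - PowerSeries.C q ^ 2 * y := by
    rw [hy, map_mul, map_pow]
    ring
  have e4 : (PowerSeries.C (q * η) * PowerSeries.X : PowerSeries A) = PowerSeries.C q * y := by
    rw [hy, map_mul]
    ring
  rw [e3] at hg2 ⊢
  rw [hDS, mul_sum]
  have h5 : ∀ n ∈ range (2 * N + 1), (1 - y) * (1 - PowerSeries.C q ^ 2 * y) *
      (∑ p ∈ antidiagonal n,
      PowerSeries.C (eH q x (p.1 + 1) i) * PowerSeries.C (eH q x (p.2 + 1) j) * Y2 ^ n *
        (PowerSeries.C (q ^ p.1) * (y ^ p.1 * gs η) +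
          PowerSeries.C q * (PowerSeries.C (q * η) * PowerSeries.X) ^ p.2 * gs (q ^ 2 * η))) =
      ∑ p ∈ antidiagonal n,
        ((1 - PowerSeries.C q ^ 2 * y) * (PowerSeries.C (eH q x (p.1 + 1) i) *
          PowerSeries.C (eH q x (p.2 + 1) j) * (Y1 ^ p.1 * Y2 ^ p.2)) +
        (1 - y) * (PowerSeries.C q * (PowerSeries.C (eH q x (p.1 + 1) i) *
          PowerSeries.C (eH q x (p.2 + 1) j) * (Y2 ^ p.1 * Y1 ^ p.2)))) := by
    intro n _
    rw [mul_sum]
    refine sum_congr rfl fun p hp => ?_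
    rw [HasAntidiagonal.mem_antidiagonal] at hp
    rw [e4, hY1', ← hp, map_pow]
    have : (1 - y) * (1 - PowerSeries.C q ^ 2 * y) *
        (PowerSeries.C (eH q x (p.1 + 1) i) * PowerSeries.C (eH q x (p.2 + 1) j) *
          Y2 ^ (p.1 + p.2) *
        (PowerSeries.C q ^ p.1 * (y ^ p.1 * gs η) +
          PowerSeries.C q * (PowerSeries.C q * y) ^ p.2 * gs (q ^ 2 * η))) =
        PowerSeries.C (eH q x (p.1 + 1) i) * PowerSeries.C (eH q x (p.2 + 1) j) *
          (Y2 ^ p.1 * Y2 ^ p.2) *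
        ((1 - PowerSeries.C q ^ 2 * y) * (PowerSeries.C q ^ p.1 * y ^ p.1) *
          ((1 - y) * gs η) + (1 - y) * (PowerSeries.C q * (PowerSeries.C q * y) ^ p.2) *
          ((1 - PowerSeries.C q ^ 2 * y) * gs (q ^ 2 * η))) := by
      rw [pow_add]
      ring
    rw [this, hg1, hg2, mul_pow, mul_pow, mul_pow, mul_pow, mul_pow]
    ring
  rw [sum_congr rfl h5, ds_sum N, sum_add_distrib, ← mul_sum, ← mul_sum, ← mul_sum, ← hpr, ← hpr]
  · intro p hp
    rw [hz p.1 i hp.le]
    simp
  · intro p hp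
    rw [hz p.2 j hp.le]
    simp

end Pool.Agent.SWD
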