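import Pool.Agent.Lib.MP_263316_co.CB.SpecC

/-!
MP_263316_co, part CB3, task ES: finite expansions of products.
-/

set_option autoImplicit false

namespace Pool.Agent.SWD

open Finset Pool.Agent.SWC Pool.Agent.SWB

private theorem es_prod_exp {R : Type} [CommRing R] {N : ℕ} (s : Finset (Fin N)) (z : R)
    (y : Fin N → R) (M : ℕ) (hM : s.card ≤ M) :
    ∏ k ∈ s, (1 + z * y k) =
      ∑ m ∈ range (M + 1), (∑ C ∈ powersetCard m s, ∏ k ∈ C, y k) * z ^ m := by
  rw [Finset.prod_one_add, Finset.sum_powerset]
  have h : ∀ m, ∑ C ∈ powersetCard m s, ∏ k ∈ C, z * y k =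
      (∑ C ∈ powersetCard m s, ∏ k ∈ C, y k) * z ^ m := by
    intro m
    rw [Finset.sum_mul]
    refine Finset.sum_congr rfl fun C hC => ?_
    rw [Finset.prod_mul_distrib, Finset.prod_const, (mem_powersetCard.mp hC).2, mul_comm]
  rw [Finset.sum_congr rfl fun m _ => h m]
  refine Finset.sum_subset (fun m hm => ?_) fun m _ hm => ?_
  · rw [mem_range] at hm ⊢
    omega
  · rw [mem_range] at hm
    rw [powersetCard_eq_empty.mpr (by omega)]
    simp

private theorem es_card1 {N : ℕ} (i : Fin N) : (univ.erase i).card = N - 1 := by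
  rw [card_erase_of_mem (mem_univ i), card_univ, Fintype.card_fin]

private theorem es_card2 {N : ℕ} (i j : Fin N) : ((univ.erase i).erase j).card ≤ N - 1 := by
  rw [← es_card1 i]
  exact card_le_card (erase_subset _ _)

private theorem es_fh {R : Type} [CommRing R] {N : ℕ} (q : R) (x : Fin N → R) (i : Fin N) (c : ℕ)
    (hc : N ≤ c) : fh q x c i = 0 := by
  have hi := i.2
  unfold fh
  rw [powersetCard_eq_empty.mpr (by rw [es_card1]; omega)]
  simp

private theorem es_eH {R : Type} [CommRing R] {N : ℕ} (q : R) (x : Fin N → R) (i : Fin N) (c : ℕ)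
    (hc : N < c) : eH q x c i = 0 := by
  obtain ⟨c', rfl⟩ : ∃ c', c = c' + 1 := ⟨c - 1, by omega⟩
  rw [eH_eq, es_fh q x i c' (by omega), mul_zero]

theorem t_ES : S_ES := by
  intro R _ N q x
  refine ⟨fun z => ?_, fun p hp => ?_, fun i z => ?_, es_fh q x, es_eH q x, fun i j t => ?_,
    fun i j m hm => ?_, fun i j n a hn => ?_⟩
  · unfold Ez es
    rw [es_prod_exp univ z x N (by rw [card_univ, Fintype.card_fin])]
  · unfold es
    rw [powersetCard_eq_empty.mpr (by rw [card_univ, Fintype.card_fin]; omega)]
    simp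
  · unfold ph fh
    rw [← es_prod_exp (univ.erase i) z (fun k => if k < i then q * x k else x k) N
      (by rw [es_card1]; omega)]
    refine Finset.prod_congr rfl fun k _ => ?_
    split_ifs <;> ring
  · unfold Ct Cn
    by_cases h : i < j
    · simp only [h, true_and, show ∀ m : ℕ, 2 ≤ m + 2 from fun m => by omega, if_true,
        Nat.add_sub_cancel]
      rw [es_prod_exp ((univ.erase i).erase j) t (fun k => x k * wq q k i * wq q k j) N
        ((es_card2 i j).trans (by omega)), Finset.mul_sum]
      refine Finset.sum_congr rfl fun m _ => ?_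
      ring
    · simp only [h, false_and, if_false, zero_mul, Finset.sum_const_zero]
  · unfold Cn
    by_cases h : i < j ∧ 2 ≤ m + 2
    · rw [if_pos h, powersetCard_eq_empty.mpr
        (by have := es_card2 i j; rw [Nat.add_sub_cancel]; omega)]
      simp
    · rw [if_neg h]
  · unfold bt
    split_ifs with h
    · refine Finset.sum_eq_zero fun r hr => ?_
      rw [mem_Ico] at hr
      rcases lt_or_ge N r with h1 | h1
      · rw [es_eH q x i r h1]
        ring
      · rw [es_eH q x j (n - r) (by omega)]
        ring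
    · rfl

end Pool.Agent.SWD
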