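import Pool.Agent.Lib.MP_263316_co.CB.SpecB

/-!
MP_263316_co, part CB2, EV: products over the three regions.
-/

set_option autoImplicit false

namespace Pool.Agent.SWD

open Finset Pool.Agent.SWC Pool.Agent.SWB

namespace EVX

private theorem split {R : Type} [CommRing R] (g : ℕ → R) {N : ℕ} (i j : Fin N) (h : i < j) :
    ∏ k : Fin N, g k = (∏ k ∈ range i, g k) * g i * (∏ k ∈ Ico (i + 1 : ℕ) j, g k) * g j *
      ∏ k ∈ Ico (j + 1 : ℕ) N, g k := by
  have hij : (i : ℕ) < j := h
  rw [Fin.prod_univ_eq_prod_range g N, ← prod_range_mul_prod_Ico g i.2.le,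
    prod_eq_prod_Ico_succ_bot i.2 g,
    ← prod_Ico_consecutive g (show (i + 1 : ℕ) ≤ j from hij) j.2.le,
    prod_eq_prod_Ico_succ_bot j.2 g]
  ring

private theorem splitI {R : Type} [CommRing R] {N : ℕ} (f : Fin N → R) (g : ℕ → R) (i j : Fin N)
    (h : i < j) (A B C : R) (hf : ∀ k : Fin N, f k = g k)
    (hA : ∏ k ∈ range i, g k = A) (hB : ∏ k ∈ Ico (i + 1 : ℕ) j, g k = B)
    (hC : ∏ k ∈ Ico (j + 1 : ℕ) N, g k = C) :
    ∏ k, f k = A * f i * B * f j * C := by
  rw [prod_congr rfl fun k _ => hf k, split g i j h, hA, hB, hC, hf, hf]

end EVX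

open EVX in
theorem t_EV : S_EV := by
  intro R _ N X q i' j' hij L1 L2 L3 h1 h2 h3
  have hij' : (i' : ℕ) < j' := hij
  refine ⟨fun z => ?_, fun y z => ?_, fun t => ?_⟩
  · rw [Ez]
    exact splitI (fun k : Fin N => 1 + z * X k) (fun k => 1 + z * X k) i' j' hij _ _ _
      (fun _ => rfl) (h1 z).symm (h2 z).symm (h3 z).symm
  · have e1 : ph q (fun k : Fin N => X k) y i' =
        L1 (q * y) * L2 y * (1 + y * X j') * L3 y := by
      have h := splitI (fun k : Fin N => if k = i' then 1 else
          1 + (if k < i' then q * y else y) * X k)
        (fun k => if k = (i' : ℕ) then 1 else 1 + (if k < (i' : ℕ) then q * y else y) * X k)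
        i' j' hij (L1 (q * y)) (L2 y) (L3 y)
        (fun k => by simp only [Fin.ext_iff, Fin.lt_def])
        (by
          rw [h1]
          refine prod_congr rfl fun k hk => ?_
          rw [mem_range] at hk
          rw [if_neg hk.ne, if_pos hk])
        (by
          rw [h2]
          refine prod_congr rfl fun k hk => ?_
          rw [mem_Ico] at hk
          rw [if_neg (by omega), if_neg (by omega)])
        (by
          rw [h3]
          refine prod_congr rfl fun k hk => ?_
          rw [mem_Ico] at hk
          rw [if_neg (by omega), if_neg (by omega)])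
      rw [if_pos rfl, if_neg hij.ne', if_neg (not_lt.2 hij.le), mul_one] at h
      rw [ph, ← h, ← prod_erase univ (a := i') (by rw [if_pos rfl])]
      refine prod_congr rfl fun k hk => ?_
      rw [if_neg (mem_erase.1 hk).1]
    have e2 : ph q (fun k : Fin N => X k) z j' =
        L1 (q * z) * (1 + q * z * X i') * L2 (q * z) * L3 z := by
      have h := splitI (fun k : Fin N => if k = j' then 1 else
          1 + (if k < j' then q * z else z) * X k)
        (fun k => if k = (j' : ℕ) then 1 else 1 + (if k < (j' : ℕ) then q * z else z) * X k)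
        i' j' hij (L1 (q * z)) (L2 (q * z)) (L3 z)
        (fun k => by simp only [Fin.ext_iff, Fin.lt_def])
        (by
          rw [h1]
          refine prod_congr rfl fun k hk => ?_
          rw [mem_range] at hk
          rw [if_neg (by omega), if_pos (by omega)])
        (by
          rw [h2]
          refine prod_congr rfl fun k hk => ?_
          rw [mem_Ico] at hk
          rw [if_neg (by omega), if_pos (by omega)])
        (by
          rw [h3]
          refine prod_congr rfl fun k hk => ?_
          rw [mem_Ico] at hk
          rw [if_neg (by omega), if_neg (by omega)])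
      rw [if_pos rfl, if_neg hij.ne, if_pos hij, mul_one] at h
      rw [ph, ← h, ← prod_erase univ (a := j') (by rw [if_pos rfl])]
      refine prod_congr rfl fun k hk => ?_
      rw [if_neg (mem_erase.1 hk).1]
    rw [pr, if_pos hij, e1, e2]
    ring
  · have h := splitI (fun k : Fin N => if k = i' ∨ k = j' then 1 else
          1 + t * (X k * wq q k i' * wq q k j'))
        (fun k => if k = (i' : ℕ) ∨ k = (j' : ℕ) then 1 else
          1 + t * (X k * (if k < (i' : ℕ) then q else 1) * (if k < (j' : ℕ) then q else 1)))
        i' j' hij (L1 (q ^ 2 * t)) (L2 (q * t)) (L3 t)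
        (fun k => by simp only [Fin.ext_iff, wq, Fin.lt_def])
        (by
          rw [h1]
          refine prod_congr rfl fun k hk => ?_
          rw [mem_range] at hk
          rw [if_neg (by omega), if_pos hk, if_pos (by omega)]
          ring)
        (by
          rw [h2]
          refine prod_congr rfl fun k hk => ?_
          rw [mem_Ico] at hk
          rw [if_neg (by omega), if_neg (by omega), if_pos (by omega)]
          ring)
        (by
          rw [h3]
          refine prod_congr rfl fun k hk => ?_
          rw [mem_Ico] at hk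
          rw [if_neg (by omega), if_neg (by omega), if_neg (by omega)]
          ring)
    rw [if_pos (Or.inl rfl), if_pos (Or.inr rfl), mul_one, mul_one] at h
    rw [Ct, if_pos hij]
    show X i' * X j' * _ = _
    congr 1
    rw [← h, ← prod_erase univ (a := i') (by rw [if_pos (Or.inl rfl)]),
      ← prod_erase (univ.erase i') (a := j') (by rw [if_pos (Or.inr rfl)])]
    refine prod_congr rfl fun k hk => ?_
    rw [mem_erase, mem_erase] at hk
    rw [if_neg (by tauto)]

end Pool.Agent.SWD
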