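import Pool.Agent.Lib.MP_263316_co.CB.Spec

set_option autoImplicit false

namespace Pool.Agent.SWD

open Finset Pool.Agent.SWC Pool.Agent.SWB

/-- Task EXT: extension of `bt n c` to `n ≤ 2 c + 1`. -/
theorem t_EXT : S_EXT := by
  intro hSTR R _ N q x n c i j hn
  by_cases hij : i < j
  · rw [← hSTR R N q x n i j hij]
    unfold bt
    simp only [if_pos hij]
    have e1 : ∀ r : ℕ, 1 ≤ r → q ^ (2 * c + 1 - n) * q ^ (r - 1) = q ^ (2 * c + r - n) := by
      intro r hr
      rw [← pow_add]
      congr 1
      omega
    by_cases hc : c + 1 ≤ n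
    · rw [if_pos hc, mul_sum, mul_sum, ← sum_sub_distrib]
      refine sum_congr rfl fun r hr => ?_
      obtain ⟨h1, h2⟩ := mem_Ico.1 hr
      have e2 := e1 r h1
      by_cases a : r ≤ c
      · by_cases b : n ≤ r + c
        · rw [if_pos a, if_pos b, if_neg (show ¬ r ≤ n - 1 - c by omega),
            if_neg (show ¬ n ≤ r + (n - 1 - c) by omega), ← e2]
          ring
        · rw [if_pos a, if_neg b, if_pos (show r ≤ n - 1 - c by omega),
            if_neg (show ¬ n ≤ r + (n - 1 - c) by omega)]
          ring
      · have b : n ≤ r + c := by omega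
        have e3 : q ^ (2 * c + 1 - n) * q ^ (2 * (n - 1 - c) + r - n) = q ^ (r - 1) := by
          rw [← pow_add]
          congr 1
          omega
        rw [if_neg a, if_pos b, if_neg (show ¬ r ≤ n - 1 - c by omega),
          if_pos (show n ≤ r + (n - 1 - c) by omega), ← e2]
        linear_combination (eH q x r i * eH q x (n - r) j) * e3
    · rw [if_neg hc, sub_zero, mul_sum]
      refine sum_congr rfl fun r hr => ?_
      obtain ⟨h1, h2⟩ := mem_Ico.1 hr
      rw [if_pos (show r ≤ c by omega), if_pos (show n ≤ r + c by omega), ← e1 r h1]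
      ring
  · rw [bt_of_not hij, bt_of_not hij]
    have h : Sn q x n i j = 0 := by
      unfold Sn
      refine sum_eq_zero fun r _ => ?_
      rw [Cn_of_not hij, mul_zero]
    rw [h]
    simp

end Pool.Agent.SWD
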