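import Pool.Agent.Lib.MP_263316_co.CB.SpecD

set_option autoImplicit false

namespace Pool.Agent.SWD

open Finset Pool.Agent.SWC Pool.Agent.SWB

/-- Task F1. -/
theorem t_F1 : S_F1 := by
  intro hSY hR hA hB hC hD F _ h h0 h1 h2 N x l a n ha han hn i j hij
  have q0 : h ^ 2 ≠ 0 := pow_ne_zero _ h0
  have q1 : 1 - h ^ 2 ≠ 0 := sub_ne_zero.2 (Ne.symm h1)
  have e1 := hA hSY F h h0 h1 l a n han (es x) (fun n a => bt (h ^ 2) x n a i j)
  have e2 := hB hSY F h h0 h1 l a n han (es x) (fun n a => bt (h ^ 2) x n a i j)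
  have e3 := hC hSY F h h0 h1 l a n han (by omega) (es x) (fun n a => bt (h ^ 2) x n a i j)
  have e4 := hD hSY F h h0 h1 h2 l a n han (by omega) (es x) (fun n => Cn (h ^ 2) x n i j)
  rw [hR F N (h ^ 2) x q0 q1 h2 l a n ha han hn i j hij]
  beta_reduce at e1 e2 e3 e4
  rw [e1, e2, e3, e4, ← sum_add_distrib, ← sum_add_distrib]
  congr 1
  refine sum_congr rfl fun p _ => ?_
  rw [← sum_add_distrib, ← sum_add_distrib]
  refine sum_congr rfl fun c _ => ?_
  rw [Kf]
  ring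

end Pool.Agent.SWD
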