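import Pool.Agent.Lib.MP_263316_co.CB.SpecD

set_option autoImplicit false

namespace Pool.Agent.SWD

open Finset Pool.Agent.SWC Pool.Agent.SWB

namespace FAAux

variable {F : Type} [Field F]

theorem syp_pos {h : F} {x : ℤ} (hx : 0 < x) : syp h x = sy h x := if_pos hx

theorem syp_npos {h : F} {x : ℤ} (hx : x ≤ 0) : syp h x = 0 := if_neg (not_lt.2 hx)

theorem sq_pow (h : F) (N : ℕ) : (h ^ 2) ^ N = h ^ (2 * (N : ℤ)) := by
  rw [← pow_mul, ← zpow_natCast]
  congr 1

end FAAux

open FAAux in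
theorem t_FA : S_FA := by
  intro hSY F _ h hh hh2 l a n han e B
  obtain ⟨-, -, -, hqn, -, -, -, -, -⟩ := hSY F h hh hh2
  rw [← sum_product' (range (l + n + 1)) (Icc 1 (l + a + 1)) (fun (p c : ℕ) =>
    h ^ (2 * a + 3 * l + 2 + p - 2 * c : ℤ) *
      (syp h (c - a) * syp h (l + 2 + a - p - c)) * e p * B (l + n - p + 2) c)]
  rw [← sum_filter_of_ne (s := range (l + n + 1) ×ˢ Icc 1 (l + a + 1))
    (p := fun y : ℕ × ℕ => a + 1 ≤ y.2 ∧ y.1 + y.2 ≤ l + a + 1)]
  · refine sum_nbij' (fun t => (t.2.2, a + 1 + t.1))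
      (fun y => (y.2 - (a + 1), l + a + 1 - y.1 - y.2, y.1)) ?_ ?_ ?_ ?_ ?_
    · rintro ⟨i, j, p⟩ ht
      rw [mem_tri] at ht
      simp only [mem_filter, mem_product, mem_range, mem_Icc] at ht ⊢
      omega
    · rintro ⟨p, c⟩ hy
      simp only [mem_filter, mem_product, mem_range, mem_Icc] at hy
      rw [mem_tri]
      change c - (a + 1) + (l + a + 1 - p - c) + p = l
      omega
    · rintro ⟨i, j, p⟩ ht
      rw [mem_tri] at ht
      simp only at ht ⊢
      ext <;> simp only <;> omega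
    · rintro ⟨p, c⟩ hy
      simp only [mem_filter, mem_product, mem_range, mem_Icc] at hy
      ext <;> simp only
      omega
    · rintro ⟨i, j, p⟩ ht
      rw [mem_tri] at ht
      simp only at ht ⊢
      have h1 : ((a + 1 + i : ℕ) : ℤ) - a = ((i + 1 : ℕ) : ℤ) := by push_cast; ring
      have h2 : (l : ℤ) + 2 + a - p - ((a + 1 + i : ℕ) : ℤ) = ((j + 1 : ℕ) : ℤ) := by
        have : (l : ℤ) = i + j + p := by exact_mod_cast ht.symm
        push_cast
        rw [this]
        ring
      have h3 : l + n - p + 2 = n + 2 + i + j := by omega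
      rw [h1, h2, syp_pos (by positivity), syp_pos (by positivity), hqn, hqn, sq_pow, h3]
      have h4 : h ^ (2 * (a : ℤ) + 3 * l + 2 + p - 2 * ((a + 1 + i : ℕ) : ℤ)) =
          h ^ (2 * ((2 * p + j : ℕ) : ℤ)) * h ^ (((i + 1 : ℕ) : ℤ) - 1) *
            h ^ (((j + 1 : ℕ) : ℤ) - 1) := by
        rw [← zpow_add₀ hh, ← zpow_add₀ hh]
        congr 1
        have : (l : ℤ) = i + j + p := by exact_mod_cast ht.symm
        push_cast
        rw [this]
        ring
      rw [h4]
      ring
  · rintro ⟨p, c⟩ hy hne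
    simp only [mem_product, mem_range, mem_Icc] at hy
    by_contra hcon
    apply hne
    simp only [not_and_or, not_le] at hcon
    rcases hcon with h1 | h1
    · rw [syp_npos (x := ((c : ℕ) : ℤ) - a) (by omega)]
      ring
    · rw [syp_npos (x := (l : ℤ) + 2 + a - p - c) (by omega)]
      ring

end Pool.Agent.SWD
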