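import Pool.Agent.Lib.MP_263316_co.CB.SpecD

set_option autoImplicit false

namespace Pool.Agent.SWD

open Finset Pool.Agent.SWC Pool.Agent.SWB

namespace FBAux

variable {F : Type} [Field F]

theorem syp_pos {h : F} {x : ℤ} (hx : 0 < x) : syp h x = sy h x := if_pos hx

theorem syp_npos {h : F} {x : ℤ} (hx : x ≤ 0) : syp h x = 0 := if_neg (not_lt.2 hx)

theorem sq_pow (h : F) (N : ℕ) : (h ^ 2) ^ N = h ^ (2 * (N : ℤ)) := by
  rw [← pow_mul, ← zpow_natCast]
  congr 1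

theorem inner (h : F) (h0 : sy h 0 = 0)
    (hsum : ∀ (s : ℤ) (n : ℕ), ∑ i ∈ range n, sy h (s + 2 * i) = sy h n * sy h (s + n - 1))
    (a l p c : ℕ) : (if (p : ℤ) ≤ a then syp h (l + 2 - c) * sy h (2 * a - c - p)
        else syp h (l + 2 + a - c - p) * sy h (a - c)) =
      ∑ i ∈ Ico (p - a) (l + 2 - c), sy h (2 * a - p - l - 1 + 2 * (i : ℤ)) := by
  rw [sum_Ico_eq_sum_range]
  have h1 : ∀ i : ℕ, (2 * (a : ℤ) - p - l - 1 + 2 * ((p - a + i : ℕ) : ℤ)) =
      (2 * (a : ℤ) - p - l - 1 + 2 * ((p - a : ℕ) : ℤ)) + 2 * (i : ℤ) := by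
    intro i
    rw [Nat.cast_add]
    ring
  simp only [h1]
  rw [hsum]
  by_cases hpa : p ≤ a
  · rw [if_pos (by exact_mod_cast hpa), Nat.sub_eq_zero_of_le hpa, Nat.sub_zero]
    by_cases hc : c ≤ l + 1
    · have h2 : ((l + 2 - c : ℕ) : ℤ) = l + 2 - c := by omega
      rw [h2, syp_pos (by omega)]
      congr 2
      push_cast
      ring
    · have h2 : l + 2 - c = 0 := by omega
      rw [h2, syp_npos (by omega), Nat.cast_zero, h0]
      ring
  · rw [if_neg (by exact_mod_cast hpa)]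
    have h3 : ((p - a : ℕ) : ℤ) = p - a := by omega
    by_cases hc : c + p ≤ l + 1 + a
    · have h2 : ((l + 2 - c - (p - a) : ℕ) : ℤ) = l + 2 + a - c - p := by omega
      rw [h2, h3, syp_pos (by omega)]
      congr 2
      ring
    · have h2 : l + 2 - c - (p - a) = 0 := by omega
      rw [h2, syp_npos (by omega), Nat.cast_zero, h0]
      ring

end FBAux

open FBAux in
theorem t_FB : S_FB := by
  intro hSY F _ h hh hh2 l a n han e B
  obtain ⟨h0, -, -, -, hdiff, -, hsum, -, -⟩ := hSY F h hh hh2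
  -- the right-hand side as a triple sum
  have hR : ∑ p ∈ range (l + n + 1), ∑ c ∈ Icc 1 (l + a + 1),
      h ^ (2 * a + 3 * l + 2 + p - 2 * c : ℤ) *
      (if (p : ℤ) ≤ a then syp h (l + 2 - c) * sy h (2 * a - c - p)
        else syp h (l + 2 + a - c - p) * sy h (a - c)) * e p * B (l + n - p + 2) c =
      ∑ y ∈ (range (l + n + 1) ×ˢ Icc 1 (l + a + 1) ×ˢ range (l + 1)).filter
        (fun y : ℕ × ℕ × ℕ => y.1 ≤ a + y.2.2 ∧ y.2.2 + y.2.1 ≤ l + 1),
        h ^ (2 * a + 3 * l + 2 + y.1 - 2 * y.2.1 : ℤ) *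
          sy h (2 * a - y.1 - l - 1 + 2 * (y.2.2 : ℤ)) * e y.1 * B (l + n - y.1 + 2) y.2.1 := by
    rw [sum_filter, sum_product]
    refine sum_congr rfl fun p hp => ?_
    rw [sum_product]
    refine sum_congr rfl fun c hc => ?_
    rw [mem_Icc] at hc
    rw [← sum_filter]
    have h4 : (range (l + 1)).filter (fun i => p ≤ a + i ∧ i + c ≤ l + 1) =
        Ico (p - a) (l + 2 - c) := by
      ext i
      simp only [mem_filter, mem_range, mem_Ico]
      omega
    simp only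
    rw [h4, inner h h0 hsum a l p c, mul_sum, sum_mul, sum_mul]
  rw [hR, sum_sigma']
  refine sum_nbij' (fun x => (x.2.1, x.1.2.2 + 1, x.1.1))
    (fun y => ⟨(y.2.2, l + 1 - y.2.1 - y.2.2, y.2.1 - 1), (y.1, a + y.2.2 - y.1)⟩)
    ?_ ?_ ?_ ?_ ?_
  · rintro ⟨⟨i, j, m⟩, ⟨p, k⟩⟩ hx
    rw [mem_sigma, mem_tri, HasAntidiagonal.mem_antidiagonal] at hx
    simp only [mem_filter, mem_product, mem_range, mem_Icc] at hx ⊢
    omega
  · rintro ⟨p, c, i⟩ hy
    simp only [mem_filter, mem_product, mem_range, mem_Icc] at hy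
    rw [mem_sigma, mem_tri, HasAntidiagonal.mem_antidiagonal]
    simp only
    omega
  · rintro ⟨⟨i, j, m⟩, ⟨p, k⟩⟩ hx
    rw [mem_sigma, mem_tri, HasAntidiagonal.mem_antidiagonal] at hx
    simp only at hx
    have e1 : l + 1 - (m + 1) - i = j := by omega
    have e2 : a + i - p = k := by omega
    have e3 : m + 1 - 1 = m := by omega
    simp only [e1, e2, e3]
  · rintro ⟨p, c, i⟩ hy
    simp only [mem_filter, mem_product, mem_range, mem_Icc] at hy
    have e1 : c - 1 + 1 = c := by omega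
    simp only [e1]
  · rintro ⟨⟨i, j, m⟩, ⟨p, k⟩⟩ hx
    rw [mem_sigma, mem_tri, HasAntidiagonal.mem_antidiagonal] at hx
    simp only at hx ⊢
    obtain ⟨hx1, hx2⟩ := hx
    rw [sq_pow, sq_pow, hdiff]
    have hl : (l : ℤ) = i + j + m := by exact_mod_cast hx1.symm
    have e1 : ((p + m + 1 + i + 2 * j : ℕ) : ℤ) + ((2 * a + 2 * i + j : ℕ) : ℤ) - 1 =
        2 * (a : ℤ) + 3 * l + 2 + p - 2 * ((m + 1 : ℕ) : ℤ) := by
      push_cast
      rw [hl]
      ring
    have e2 : ((2 * a + 2 * i + j : ℕ) : ℤ) - ((p + m + 1 + i + 2 * j : ℕ) : ℤ) =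
        2 * (a : ℤ) - p - l - 1 + 2 * (i : ℤ) := by
      push_cast
      rw [hl]
      ring
    rw [e1, e2]

end Pool.Agent.SWD
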