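import Pool.Agent.Lib.MP_263316_co.CB.SpecD

set_option autoImplicit false

namespace Pool.Agent.SWD

open Finset Pool.Agent.SWC Pool.Agent.SWB

namespace FCAux

variable {F : Type} [Field F]

theorem syp_pos {h : F} {x : ℤ} (hx : 0 < x) : syp h x = sy h x := if_pos hx

theorem syp_npos {h : F} {x : ℤ} (hx : x ≤ 0) : syp h x = 0 := if_neg (not_lt.2 hx)

theorem sq_pow (h : F) (N : ℕ) : (h ^ 2) ^ N = h ^ (2 * (N : ℤ)) := by
  rw [← pow_mul, ← zpow_natCast]
  congr 1

theorem inner (h : F) (h0 : sy h 0 = 0)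
    (hsum : ∀ (s : ℤ) (n : ℕ), ∑ i ∈ range n, sy h (s + 2 * i) = sy h n * sy h (s + n - 1))
    (a l n p c : ℕ) (han : a ≤ n) : (if (n : ℤ) - a ≤ p then
        (if p - ((n : ℤ) - a) ≤ l + 1 - c then
          sy h (p - ((n : ℤ) - a) + 1) * sy h ((n : ℤ) - a - l - 3)
        else syp h (l + 2 - c) * sy h (2 * ((n : ℤ) - a) - 2 - c - p)) else 0) =
      ∑ j ∈ range (min (p + a + 1 - n) (l + 2 - c)),
        sy h (2 * ((n : ℤ) - a) - l - 3 - p + 2 * (j : ℤ)) := by
  rw [hsum]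
  by_cases hp : n ≤ p + a
  · rw [if_pos (by omega)]
    by_cases hc : (p : ℤ) - ((n : ℤ) - a) ≤ l + 1 - c
    · have h1 : min (p + a + 1 - n) (l + 2 - c) = p + a + 1 - n := by omega
      have h2 : ((p + a + 1 - n : ℕ) : ℤ) = p - ((n : ℤ) - a) + 1 := by omega
      rw [if_pos hc, h1, h2]
      congr 2
      ring
    · rw [if_neg hc]
      have h1 : min (p + a + 1 - n) (l + 2 - c) = l + 2 - c := by omega
      rw [h1]
      by_cases hc' : c ≤ l + 1
      · have h2 : ((l + 2 - c : ℕ) : ℤ) = l + 2 - c := by omega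
        rw [h2, syp_pos (by omega)]
        congr 2
        ring
      · have h2 : l + 2 - c = 0 := by omega
        rw [h2, syp_npos (by omega), Nat.cast_zero, h0]
        ring
  · rw [if_neg (by omega)]
    have h1 : min (p + a + 1 - n) (l + 2 - c) = 0 := by omega
    rw [h1, Nat.cast_zero, h0, zero_mul]

end FCAux

open FCAux in
theorem t_FC : S_FC := by
  intro hSY F _ h hh hh2 l a n han hn e B
  obtain ⟨h0, -, -, -, hdiff, -, hsum, -, -⟩ := hSY F h hh hh2
  -- the right-hand side as a triple sum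
  have hR : ∑ p ∈ range (l + n + 1), ∑ c ∈ Icc 1 (l + a + 1),
      h ^ (2 * a + 3 * l + 2 + p - 2 * c : ℤ) *
      (if (n : ℤ) - a ≤ p then (if p - ((n : ℤ) - a) ≤ l + 1 - c then
          sy h (p - ((n : ℤ) - a) + 1) * sy h ((n : ℤ) - a - l - 3)
        else syp h (l + 2 - c) * sy h (2 * ((n : ℤ) - a) - 2 - c - p)) else 0) *
      e p * B (l + n - p + 2) c =
      ∑ y ∈ (range (l + n + 1) ×ˢ Icc 1 (l + a + 1) ×ˢ range (l + 1)).filter
        (fun y : ℕ × ℕ × ℕ => n + y.2.2 ≤ y.1 + a ∧ y.2.2 + y.2.1 ≤ l + 1),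
        h ^ (2 * a + 3 * l + 2 + y.1 - 2 * y.2.1 : ℤ) *
          sy h (2 * ((n : ℤ) - a) - l - 3 - y.1 + 2 * (y.2.2 : ℤ)) * e y.1 *
          B (l + n - y.1 + 2) y.2.1 := by
    rw [sum_filter, sum_product]
    refine sum_congr rfl fun p hp => ?_
    rw [sum_product]
    refine sum_congr rfl fun c hc => ?_
    rw [mem_Icc] at hc
    rw [← sum_filter]
    have h4 : (range (l + 1)).filter (fun j => n + j ≤ p + a ∧ j + c ≤ l + 1) =
        range (min (p + a + 1 - n) (l + 2 - c)) := by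
      ext i
      simp only [mem_filter, mem_range]
      omega
    simp only
    rw [h4, inner h h0 hsum a l n p c han, mul_sum, sum_mul, sum_mul]
  rw [hR, sum_sigma']
  refine sum_nbij' (fun x => (l + n - x.2.1, x.1.2.2 + 1, x.1.2.1))
    (fun y => ⟨(l + 1 - y.2.1 - y.2.2, y.2.2, y.2.1 - 1),
      (l + n - y.1, l + a - y.2.2 - (l + n - y.1))⟩)
    ?_ ?_ ?_ ?_ ?_
  · rintro ⟨⟨i, j, m⟩, ⟨r, k⟩⟩ hx
    rw [mem_sigma, mem_tri, HasAntidiagonal.mem_antidiagonal] at hx
    simp only [mem_filter, mem_product, mem_range, mem_Icc] at hx ⊢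
    omega
  · rintro ⟨p, c, j⟩ hy
    simp only [mem_filter, mem_product, mem_range, mem_Icc] at hy
    rw [mem_sigma, mem_tri, HasAntidiagonal.mem_antidiagonal]
    simp only
    omega
  · rintro ⟨⟨i, j, m⟩, ⟨r, k⟩⟩ hx
    rw [mem_sigma, mem_tri, HasAntidiagonal.mem_antidiagonal] at hx
    simp only at hx
    have e1 : l + 1 - (m + 1) - j = i := by omega
    have e2 : l + n - (l + n - r) = r := by omega
    have e3 : m + 1 - 1 = m := by omega
    have e4 : l + a - j - r = k := by omega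
    simp only [e1, e2, e3, e4]
  · rintro ⟨p, c, i⟩ hy
    simp only [mem_filter, mem_product, mem_range, mem_Icc] at hy
    have e1 : c - 1 + 1 = c := by omega
    have e2 : l + n - (l + n - p) = p := by omega
    simp only [e1, e2]
  · rintro ⟨⟨i, j, m⟩, ⟨r, k⟩⟩ hx
    rw [mem_sigma, mem_tri, HasAntidiagonal.mem_antidiagonal] at hx
    simp only at hx ⊢
    obtain ⟨hx1, hx2⟩ := hx
    rw [sq_pow, sq_pow, hdiff]
    have hl : (l : ℤ) = i + j + m := by exact_mod_cast hx1.symm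
    have hk : (r : ℤ) + k = l + a - j := by omega
    have hr : ((l + n - r : ℕ) : ℤ) = l + n - r := by omega
    have hn1 : ((n - 1 + i + 2 * j : ℕ) : ℤ) = n - 1 + i + 2 * j := by omega
    have hB : l + n - (l + n - r) + 2 = r + 2 := by omega
    have e1 : ((r + 2 + i + 2 * j + 2 * k : ℕ) : ℤ) + ((n - 1 + i + 2 * j : ℕ) : ℤ) - 1 =
        2 * (a : ℤ) + 3 * l + 2 + ((l + n - r : ℕ) : ℤ) - 2 * ((m + 1 : ℕ) : ℤ) := by
      rw [hr, hn1]
      push_cast
      linear_combination 2 * hk - 2 * hl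
    have e2 : ((n - 1 + i + 2 * j : ℕ) : ℤ) - ((r + 2 + i + 2 * j + 2 * k : ℕ) : ℤ) =
        2 * ((n : ℤ) - a) - l - 3 - ((l + n - r : ℕ) : ℤ) + 2 * (j : ℤ) := by
      rw [hr, hn1]
      push_cast
      linear_combination -2 * hk
    rw [e1, e2, hB]

end Pool.Agent.SWD
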