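import Pool.Agent.Lib.MP_263316_co.CB.SpecD

set_option autoImplicit false

namespace Pool.Agent.SWD

open Finset Pool.Agent.SWC Pool.Agent.SWB

namespace FDAux

variable {F : Type} [Field F]

/-- `h^s + h^(-s)` -/
def psi (h : F) (s : ℤ) : F := h ^ s + h ^ (-s)

/-- the terms of the sum over `k` -/
def g (h : F) (α β : ℤ) (k : ℕ) : F :=
  (psi h (2 * k + 1) * psi h (α + β) / (h + h⁻¹) - psi h (α - β)) / (h - h⁻¹) ^ 2

theorem tele1 {h : F} (hh : h ≠ 0) (c : ℤ) (M : ℕ) :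
    (∑ k ∈ range M, psi h (c + 2 * ((M : ℤ) - 1 - 2 * k))) * ((h + h⁻¹) * (h - h⁻¹)) =
      psi h c * (h ^ (2 * M : ℤ) - h ^ (-(2 * M : ℤ))) := by
  have key : ∀ k : ℕ, psi h (c + 2 * ((M : ℤ) - 1 - 2 * k)) * ((h + h⁻¹) * (h - h⁻¹)) =
      (fun k : ℕ => h ^ (c + 2 * M - 4 * k : ℤ) - h ^ (-(c + 2 * M - 4 * k) : ℤ)) k -
      (fun k : ℕ => h ^ (c + 2 * M - 4 * k : ℤ) - h ^ (-(c + 2 * M - 4 * k) : ℤ)) (k + 1) := by
    intro k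
    obtain ⟨E, hE⟩ : ∃ E : ℤ, E = c + 2 * M - 4 * k := ⟨_, rfl⟩
    have e1 : c + 2 * ((M : ℤ) - 1 - 2 * k) = E - 2 := by rw [hE]; ring
    have e2 : c + 2 * (M : ℤ) - 4 * ((k + 1 : ℕ) : ℤ) = E - 4 := by rw [hE]; push_cast; ring
    simp only [e1, e2, ← hE]
    have hx : h ^ E ≠ 0 := zpow_ne_zero _ hh
    unfold psi
    rw [neg_sub, neg_sub, zpow_sub₀ hh, zpow_sub₀ hh, zpow_sub₀ hh, zpow_sub₀ hh, zpow_neg,
      show (2 : ℤ) = ((2 : ℕ) : ℤ) from rfl, show (4 : ℤ) = ((4 : ℕ) : ℤ) from rfl, zpow_natCast,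
      zpow_natCast]
    field_simp
    ring
  rw [sum_mul, sum_congr rfl fun k _ => key k, sum_range_sub']
  have hx : h ^ c ≠ 0 := zpow_ne_zero _ hh
  have hy : h ^ (2 * (M : ℤ)) ≠ 0 := zpow_ne_zero _ hh
  have e0 : c + 2 * (M : ℤ) - 4 * ((0 : ℕ) : ℤ) = c + 2 * M := by push_cast; ring
  have e1 : c + 2 * (M : ℤ) - 4 * (M : ℤ) = c - 2 * M := by ring
  simp only [e0, e1]
  unfold psi
  rw [neg_add, neg_sub, zpow_add₀ hh, zpow_add₀ hh, zpow_sub₀ hh, zpow_sub₀ hh, zpow_neg, zpow_neg]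
  field_simp
  ring

theorem tele2 {h : F} (hh : h ≠ 0) (M : ℕ) :
    (∑ k ∈ range M, psi h (2 * k + 1)) * (h - h⁻¹) =
      h ^ (2 * M : ℤ) - h ^ (-(2 * M : ℤ)) := by
  have key : ∀ k : ℕ, psi h (2 * k + 1) * (h - h⁻¹) =
      (fun k : ℕ => h ^ (2 * k : ℤ) - h ^ (-(2 * k) : ℤ)) (k + 1) -
      (fun k : ℕ => h ^ (2 * k : ℤ) - h ^ (-(2 * k) : ℤ)) k := by
    intro k
    obtain ⟨E, hE⟩ : ∃ E : ℤ, E = 2 * k := ⟨_, rfl⟩
    have e2 : 2 * ((k + 1 : ℕ) : ℤ) = E + 2 := by rw [hE]; push_cast; ring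
    simp only [e2, ← hE]
    have hx : h ^ E ≠ 0 := zpow_ne_zero _ hh
    unfold psi
    rw [neg_add, neg_add, zpow_add₀ hh, zpow_add₀ hh, zpow_add₀ hh, zpow_add₀ hh, zpow_neg,
      zpow_neg, zpow_neg, show (2 : ℤ) = ((2 : ℕ) : ℤ) from rfl, zpow_natCast, zpow_one]
    field_simp
    ring
  rw [sum_mul, sum_congr rfl fun k _ => key k,
    sum_range_sub (fun k : ℕ => h ^ (2 * k : ℤ) - h ^ (-(2 * k) : ℤ)) M]
  simp

theorem delta_ne {h : F} (hh : h ≠ 0) (h1 : h ^ 2 ≠ 1) : h - h⁻¹ ≠ 0 := by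
  intro h0
  apply h1
  have h2 : (h - h⁻¹) * h = 0 := by rw [h0, zero_mul]
  rw [sub_mul, inv_mul_cancel₀ hh] at h2
  linear_combination h2

theorem sigma_ne {h : F} (hh : h ≠ 0) (h1 : 1 + h ^ 2 ≠ 0) : h + h⁻¹ ≠ 0 := by
  intro h0
  apply h1
  have h2 : (h + h⁻¹) * h = 0 := by rw [h0, zero_mul]
  rw [add_mul, inv_mul_cancel₀ hh] at h2
  linear_combination h2

/-- `Gf` as a sum over `k` -/
theorem Gf_eq (hSY : S_SY) {h : F} (hh : h ≠ 0) (h1 : h ^ 2 ≠ 1) (h2 : 1 + h ^ 2 ≠ 0)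
    (α β : ℤ) (M : ℕ) : Gf h α β ((M : ℤ) - 1) = ∑ k ∈ range M, g h α β k := by
  have hd := delta_ne hh h1
  have hs := sigma_ne hh h2
  have hprod := (hSY F h hh h1).2.2.2.2.2.2.2.2
  have hd2 : (h - h⁻¹) ^ 2 ≠ 0 := pow_ne_zero 2 hd
  have hM : ((M : ℤ) - 1 + 1).toNat = M := by rw [sub_add_cancel, Int.toNat_natCast]
  have t1 := tele1 hh (α + β) M
  have t2 := tele2 hh M
  have t3 : ∑ k ∈ range M, psi h (α + β + 2 * ((M : ℤ) - 1 - 2 * k)) =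
      ∑ k ∈ range M, psi h (2 * k + 1) * psi h (α + β) / (h + h⁻¹) := by
    rw [← sum_div, ← sum_mul]
    rw [eq_div_iff hs]
    apply mul_right_cancel₀ hd
    rw [mul_assoc, t1, ← t2]
    ring
  apply mul_right_cancel₀ hd2
  unfold Gf g
  rw [hM, sum_mul, sum_mul]
  have e1 : ∀ k ∈ range M, sy h (α + ((M : ℤ) - 1) - 2 * k) * sy h (β + ((M : ℤ) - 1) - 2 * k) *
      (h - h⁻¹) ^ 2 = psi h (α + β + 2 * ((M : ℤ) - 1 - 2 * k)) - psi h (α - β) := by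
    intro k _
    rw [hprod]
    have a1 : α + ((M : ℤ) - 1) - 2 * k + (β + ((M : ℤ) - 1) - 2 * k) =
        α + β + 2 * ((M : ℤ) - 1 - 2 * k) := by ring
    have a2 : α + ((M : ℤ) - 1) - 2 * k - (β + ((M : ℤ) - 1) - 2 * k) = α - β := by ring
    have a3 : β + ((M : ℤ) - 1) - 2 * k - (α + ((M : ℤ) - 1) - 2 * k) = -(α - β) := by ring
    rw [a1, a2, a3]
    unfold psi
    ring
  have e2 : ∀ k ∈ range M, (psi h (2 * k + 1) * psi h (α + β) / (h + h⁻¹) - psi h (α - β)) /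
      (h - h⁻¹) ^ 2 * (h - h⁻¹) ^ 2 =
      psi h (2 * k + 1) * psi h (α + β) / (h + h⁻¹) - psi h (α - β) := by
    intro k _
    rw [div_mul_cancel₀ _ hd2]
  rw [sum_congr rfl e1, sum_congr rfl e2, sum_sub_distrib, sum_sub_distrib, t3]

theorem Xf_eq (hSY : S_SY) {h : F} (hh : h ≠ 0) (h1 : h ^ 2 ≠ 1) (h2 : 1 + h ^ 2 ≠ 0)
    (a b l p r : ℕ) : Xf h a b l p r =
      ∑ k ∈ Ico (a - p) (r + 1 - b), g h ((a : ℤ) - l - 2) ((b : ℤ) - l - 3) k := by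
  unfold Xf
  by_cases hc : max 0 ((a : ℤ) - p) ≤ (r : ℤ) - b
  · rw [if_pos hc]
    have e1 : (r : ℤ) - b = ((r + 1 - b : ℕ) : ℤ) - 1 := by omega
    have e2 : max 0 ((a : ℤ) - p) = ((a - p : ℕ) : ℤ) := by omega
    rw [e2, e1, Gf_eq hSY hh h1 h2, Gf_eq hSY hh h1 h2, sum_Ico_eq_sub]
    omega
  · rw [if_neg hc, Ico_eq_empty (by omega), sum_empty]

/-- the coefficient -/
theorem coef {h : F} (hh : h ≠ 0) (h1 : h ^ 2 ≠ 1) (h2 : 1 + h ^ 2 ≠ 0)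
    (l a b n i j p k r : ℕ) (hn : 1 ≤ n) (hb : a + b = n) (hp : p + k = a + i)
    (hr : r = b + k + j) :
    ((1 + (h ^ 2) ^ (2 * k + 1)) / (1 + h ^ 2) *
        ((h ^ 2) ^ (n - 1 + j + p) + (h ^ 2) ^ (2 * l + 4 + p + j)) -
      (h ^ 2) ^ (2 * a + l + 2 + i + j) - (h ^ 2) ^ (n + 1 + l + i + j)) / (1 - h ^ 2) ^ 2 =
    h ^ (2 * a - n + 2 * l + 1 + 2 * (p + r) : ℤ) *
      g h ((a : ℤ) - l - 2) ((b : ℤ) - l - 3) k := by
  obtain ⟨A, hA⟩ : ∃ A : ℤ, A = 2 * a - n + 2 * l + 1 + 2 * (p + r) := ⟨_, rfl⟩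
  obtain ⟨u, hu⟩ : ∃ u : F, u = h ^ A := ⟨_, rfl⟩
  obtain ⟨x, hx⟩ : ∃ x : F, x = h ^ (k : ℤ) := ⟨_, rfl⟩
  obtain ⟨v, hv⟩ : ∃ v : F, v = h ^ ((n : ℤ) - 2 * l - 5) := ⟨_, rfl⟩
  obtain ⟨w, hw⟩ : ∃ w : F, w = h ^ (2 * (a : ℤ) + 1 - n) := ⟨_, rfl⟩
  have hx0 : x ≠ 0 := by rw [hx]; exact zpow_ne_zero _ hh
  have hv0 : v ≠ 0 := by rw [hv]; exact zpow_ne_zero _ hh
  have hw0 : w ≠ 0 := by rw [hw]; exact zpow_ne_zero _ hh
  have conv : ∀ s : ℕ, (h ^ 2) ^ s = h ^ (2 * (s : ℤ)) := by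
    intro s
    rw [← pow_mul, ← zpow_natCast]
    push_cast
    rfl
  have hsq : h ^ (2 : ℤ) = h ^ 2 := by
    rw [show (2 : ℤ) = ((2 : ℕ) : ℤ) from rfl, zpow_natCast]
  have c1 : (h ^ 2) ^ (n - 1 + j + p) = u * h ^ 2 * v / x ^ 2 := by
    rw [conv, hu, hv, hx, eq_div_iff (pow_ne_zero 2 (zpow_ne_zero _ hh)), ← hsq, ← zpow_natCast,
      ← zpow_mul, ← zpow_add₀ hh, ← zpow_add₀ hh, ← zpow_add₀ hh]
    congr 1
    push_cast [Nat.cast_sub hn]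
    omega
  have c2 : (h ^ 2) ^ (2 * l + 4 + p + j) = u * h ^ 2 / (x ^ 2 * v) := by
    rw [conv, hu, hv, hx, eq_div_iff (mul_ne_zero (pow_ne_zero 2 (zpow_ne_zero _ hh))
      (zpow_ne_zero _ hh)), ← hsq, ← zpow_natCast,
      ← zpow_mul, ← zpow_add₀ hh, ← zpow_add₀ hh, ← zpow_add₀ hh]
    congr 1
    push_cast
    omega
  have c3 : (h ^ 2) ^ (2 * a + l + 2 + i + j) = u * h ^ 2 * w := by
    rw [conv, hu, hw, ← hsq, ← zpow_add₀ hh, ← zpow_add₀ hh]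
    congr 1
    push_cast
    omega
  have c4 : (h ^ 2) ^ (n + 1 + l + i + j) = u * h ^ 2 / w := by
    rw [conv, hu, hw, eq_div_iff (zpow_ne_zero _ hh), ← hsq, ← zpow_add₀ hh, ← zpow_add₀ hh]
    congr 1
    push_cast
    omega
  have c5 : (h ^ 2) ^ (2 * k + 1) = x ^ 4 * h ^ 2 := by
    rw [conv, hx, ← hsq, ← zpow_natCast, ← zpow_mul, ← zpow_add₀ hh]
    congr 1
    push_cast
    ring
  have c6 : psi h (2 * k + 1) = (x ^ 4 * h ^ 2 + 1) / (x ^ 2 * h) := by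
    have c7 : h ^ (2 * (k : ℤ) + 1) = x ^ 2 * h := by
      rw [zpow_add₀ hh, zpow_one, hx, ← zpow_natCast, ← zpow_mul]
      congr 2
      push_cast
      ring
    unfold psi
    rw [zpow_neg, c7]
    field_simp
  have c7 : psi h ((a : ℤ) - l - 2 + ((b : ℤ) - l - 3)) = (v ^ 2 + 1) / v := by
    have c8 : (a : ℤ) - l - 2 + ((b : ℤ) - l - 3) = (n : ℤ) - 2 * l - 5 := by
      rw [← hb]; push_cast; ring
    unfold psi
    rw [c8, zpow_neg, ← hv]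
    field_simp
  have c8 : psi h ((a : ℤ) - l - 2 - ((b : ℤ) - l - 3)) = (w ^ 2 + 1) / w := by
    have c9 : (a : ℤ) - l - 2 - ((b : ℤ) - l - 3) = 2 * (a : ℤ) + 1 - n := by
      rw [← hb]; push_cast; ring
    unfold psi
    rw [c9, zpow_neg, ← hw]
    field_simp
  have hs : h + h⁻¹ = (1 + h ^ 2) / h := by field_simp; ring
  have hd : h - h⁻¹ = (h ^ 2 - 1) / h := by field_simp
  have h3 : 1 - h ^ 2 ≠ 0 := sub_ne_zero.2 (Ne.symm h1)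
  have h4 : h ^ 2 - 1 ≠ 0 := sub_ne_zero.2 h1
  have h5 : (h ^ 2 - 1) ^ 2 = (1 - h ^ 2) ^ 2 := by ring
  rw [← hA, ← hu, c1, c2, c3, c4, c5]
  unfold g
  rw [c6, c7, c8, hs, hd, div_pow, h5]
  field_simp
  ring

end FDAux

theorem t_FD : S_FD := by
  intro hSY F _ h hh h1 h2 l a n han hn e C
  have hR : ∀ p r : ℕ, h ^ (2 * a - n + 2 * l + 1 + 2 * (p + r) : ℤ) *
      Xf h a ((n : ℤ) - a) l p r * e p * e r * C (l + n - p - r + 2) =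
      ∑ k ∈ Ico (a - p) (r + 1 - (n - a)), h ^ (2 * a - n + 2 * l + 1 + 2 * (p + r) : ℤ) *
        FDAux.g h ((a : ℤ) - l - 2) (((n - a : ℕ) : ℤ) - l - 3) k * e p * e r *
          C (l + n - p - r + 2) := by
    intro p r
    have hb : (n : ℤ) - a = ((n - a : ℕ) : ℤ) := by omega
    rw [hb, FDAux.Xf_eq hSY hh h1 h2, mul_sum, sum_mul, sum_mul, sum_mul]
  rw [sum_congr rfl fun p _ => sum_congr rfl fun r _ => hR p r]
  rw [sum_sigma', sum_sigma', sum_sigma']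
  refine sum_nbij' (fun z : (_ : ℕ × ℕ × ℕ) × (ℕ × ℕ) =>
      (⟨⟨z.2.1, l + n - z.2.1 - z.1.2.2⟩, z.2.2⟩ : (_ : (_ : ℕ) × ℕ) × ℕ))
    (fun z : (_ : (_ : ℕ) × ℕ) × ℕ =>
      (⟨(z.1.1 + z.2 - a, z.1.2 - (n - a) - z.2, l + n - z.1.1 - z.1.2), (z.1.1, z.2)⟩ :
        (_ : ℕ × ℕ × ℕ) × (ℕ × ℕ))) ?_ ?_ ?_ ?_ ?_
  · rintro ⟨⟨i, j, m⟩, ⟨p, k⟩⟩ hz
    simp only [mem_sigma, mem_tri, HasAntidiagonal.mem_antidiagonal, mem_range, mem_Ico] at hz ⊢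
    omega
  · rintro ⟨⟨p, r⟩, k⟩ hz
    simp only [mem_sigma, mem_tri, HasAntidiagonal.mem_antidiagonal, mem_range, mem_Ico] at hz ⊢
    omega
  · rintro ⟨⟨i, j, m⟩, ⟨p, k⟩⟩ hz
    simp only [mem_sigma, mem_tri, HasAntidiagonal.mem_antidiagonal, mem_range, mem_Ico] at hz ⊢
    have e1 : p + k - a = i := by omega
    have e2 : l + n - p - m - (n - a) - k = j := by omega
    have e3 : l + n - p - (l + n - p - m) = m := by omega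
    rw [e1, e2, e3]
  · rintro ⟨⟨p, r⟩, k⟩ hz
    simp only [mem_sigma, mem_tri, HasAntidiagonal.mem_antidiagonal, mem_range, mem_Ico] at hz ⊢
    have e1 : l + n - p - (l + n - p - r) = r := by omega
    rw [e1]
  · rintro ⟨⟨i, j, m⟩, ⟨p, k⟩⟩ hz
    simp only [mem_sigma, mem_tri, HasAntidiagonal.mem_antidiagonal, mem_range, mem_Ico] at hz ⊢
    have hr : l + n - p - m = (n - a) + k + j := by omega
    have e3 : l + n - p - (l + n - p - m) = m := by omega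
    rw [FDAux.coef hh h1 h2 l a (n - a) n i j p k (l + n - p - m) hn (by omega) (by omega) hr, e3]

end Pool.Agent.SWD
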