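import Pool.Agent.Lib.MP_263316_co.CB.SpecD

set_option autoImplicit false

namespace Pool.Agent.SWD

open Finset Pool.Agent.SWC Pool.Agent.SWB

/-- Task FO: folding. -/
theorem t_FO : S_FO := by
  intro hSTR hEXT F _ h h0 N x L M z k hM i j hij
  have hB0 : bt (h ^ 2) x M 0 i j = 0 := by
    unfold bt
    rw [if_pos hij]
    refine sum_eq_zero fun r hr => ?_
    obtain ⟨h1, h2⟩ := mem_Ico.1 hr
    rw [if_neg (by omega), if_neg (by omega)]
    ring
  have hmid : ∀ c, 2 * c + 1 = M → bt (h ^ 2) x M c i j = Sn (h ^ 2) x M i j := by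
    intro c hc
    rw [← hSTR F N (h ^ 2) x M i j hij]
    unfold bt
    rw [if_pos hij]
    refine sum_congr rfl fun r hr => ?_
    obtain ⟨h1, h2⟩ := mem_Ico.1 hr
    by_cases a : r ≤ c
    · rw [if_pos a, if_neg (by omega), add_zero]
    · rw [if_neg a, if_pos (by omega), zero_add, show 2 * c + r - M = r - 1 by omega]
  have hes : ∀ s : ℕ, (h ^ 2) ^ s = h ^ (2 * (s : ℤ)) := by
    intro s
    rw [← pow_mul, ← zpow_natCast]
    push_cast
    rfl
  set S : F := Sn (h ^ 2) x M i j with hS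
  have hcl : ∀ c ∈ Icc 1 L, h ^ (z - 2 * (c : ℤ)) * k c * bt (h ^ 2) x M c i j =
      (if 2 * c + 2 ≤ M then h ^ (z - 2 * (c : ℤ)) * k c * bt (h ^ 2) x M c i j else 0) +
      h ^ (z + 1 - (M : ℤ)) * (ps h (2 * (c : ℤ) + 1 - M) * k c) * S -
      (if M ≤ 2 * c ∧ c + 2 ≤ M then h ^ (z - 2 * ((M - 1 - c : ℕ) : ℤ)) * k c *
        bt (h ^ 2) x M (M - 1 - c) i j else 0) := by
    intro c _
    by_cases c1 : 2 * c + 2 ≤ M
    · rw [if_pos c1, if_neg (by omega), ps, if_pos (by omega)]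
      ring
    · by_cases c2 : 2 * c + 1 = M
      · rw [if_neg c1, if_neg (by omega), ps, if_neg (by omega), if_pos (by omega), hmid c c2,
          show z + 1 - (M : ℤ) = z - 2 * (c : ℤ) by omega]
        ring
      · have c3 : M ≤ 2 * c := by omega
        have E1 : h ^ (z - 2 * (c : ℤ)) =
            h ^ (z + 1 - (M : ℤ)) * h ^ (-(2 * (c : ℤ) + 1 - M)) := by
          rw [← zpow_add₀ h0]
          congr 1
          ring
        have E2 : (h ^ 2) ^ (2 * c + 1 - M) =
            h ^ (2 * (c : ℤ) + 1 - M) * h ^ (2 * (c : ℤ) + 1 - M) := by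
          rw [hes, ← zpow_add₀ h0]
          congr 1
          omega
        have E3 : h ^ (-(2 * (c : ℤ) + 1 - M)) * h ^ (2 * (c : ℤ) + 1 - M) = 1 := by
          rw [← zpow_add₀ h0, neg_add_cancel, zpow_zero]
        have hps : ps h (2 * (c : ℤ) + 1 - M) =
            h ^ (2 * (c : ℤ) + 1 - M) + h ^ (-(2 * (c : ℤ) + 1 - M)) := by
          rw [ps, if_neg (by omega), if_neg (by omega)]
        have hx := hEXT hSTR F N (h ^ 2) x M c i j (by omega)
        rw [← hS, E2] at hx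
        by_cases c4 : c + 2 ≤ M
        · have E4 : h ^ (z - 2 * ((M - 1 - c : ℕ) : ℤ)) =
              h ^ (z + 1 - (M : ℤ)) * h ^ (2 * (c : ℤ) + 1 - M) := by
            rw [← zpow_add₀ h0]
            congr 1
            omega
          rw [if_pos (by omega)] at hx
          rw [if_neg c1, if_pos ⟨c3, c4⟩, hps, hx, E1, E4]
          linear_combination (h ^ (z + 1 - (M : ℤ)) * k c * h ^ (2 * (c : ℤ) + 1 - M) *
            (S - bt (h ^ 2) x M (M - 1 - c) i j)) * E3
        · have hx' : bt (h ^ 2) x M c i j =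
              (1 + h ^ (2 * (c : ℤ) + 1 - M) * h ^ (2 * (c : ℤ) + 1 - M)) * S := by
            rw [hx]
            by_cases c5 : c + 1 ≤ M
            · rw [if_pos c5, show M - 1 - c = 0 by omega, hB0]
              ring
            · rw [if_neg c5, sub_zero]
          rw [if_neg c1, if_neg (by omega), hps, hx', E1]
          linear_combination (h ^ (z + 1 - (M : ℤ)) * k c * h ^ (2 * (c : ℤ) + 1 - M) * S) * E3
  rw [sum_congr rfl hcl, sum_sub_distrib, sum_add_distrib, ← sum_filter]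
  have e2 : ∑ c ∈ Icc 1 L, h ^ (z + 1 - (M : ℤ)) * (ps h (2 * (c : ℤ) + 1 - M) * k c) * S =
      h ^ (z + 1 - (M : ℤ)) * (∑ c ∈ Icc 1 L, ps h (2 * c + 1 - M) * k c) * S := by
    rw [mul_sum, sum_mul]
  have e3 : ∑ c ∈ Icc 1 L, (if M ≤ 2 * c ∧ c + 2 ≤ M then
      h ^ (z - 2 * ((M - 1 - c : ℕ) : ℤ)) * k c * bt (h ^ 2) x M (M - 1 - c) i j else 0) =
      ∑ c ∈ (Icc 1 L).filter (fun c => 2 * c + 2 ≤ M), h ^ (z - 2 * (c : ℤ)) *
        (if M - 1 - c ≤ L then k (M - 1 - c) else 0) * bt (h ^ 2) x M c i j := by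
    have e4 : ∑ c ∈ (Icc 1 L).filter (fun c => 2 * c + 2 ≤ M), h ^ (z - 2 * (c : ℤ)) *
        (if M - 1 - c ≤ L then k (M - 1 - c) else 0) * bt (h ^ 2) x M c i j =
        ∑ c ∈ ((Icc 1 L).filter (fun c => 2 * c + 2 ≤ M)).filter (fun c => M - 1 - c ≤ L),
          h ^ (z - 2 * (c : ℤ)) * k (M - 1 - c) * bt (h ^ 2) x M c i j := by
      rw [sum_filter (fun c => M - 1 - c ≤ L)]
      refine sum_congr rfl fun c _ => ?_
      split_ifs <;> ring
    rw [e4, ← sum_filter]
    refine sum_bij' (fun c _ => M - 1 - c) (fun c _ => M - 1 - c) ?_ ?_ ?_ ?_ ?_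
    · intro c hc
      simp only [mem_filter, mem_Icc] at hc ⊢
      omega
    · intro c hc
      simp only [mem_filter, mem_Icc] at hc ⊢
      omega
    · intro c hc
      simp only [mem_filter, mem_Icc] at hc
      omega
    · intro c hc
      simp only [mem_filter, mem_Icc] at hc
      omega
    · intro c hc
      simp only [mem_filter, mem_Icc] at hc
      rw [show M - 1 - (M - 1 - c) = c by omega]
  rw [e2, e3]
  have e5 : ∑ c ∈ (Icc 1 L).filter (fun c => 2 * c + 2 ≤ M), h ^ (z - 2 * (c : ℤ)) *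
      (k c - if M - 1 - c ≤ L then k (M - 1 - c) else 0) * bt (h ^ 2) x M c i j =
      ∑ c ∈ (Icc 1 L).filter (fun c => 2 * c + 2 ≤ M), h ^ (z - 2 * (c : ℤ)) * k c *
        bt (h ^ 2) x M c i j -
      ∑ c ∈ (Icc 1 L).filter (fun c => 2 * c + 2 ≤ M), h ^ (z - 2 * (c : ℤ)) *
        (if M - 1 - c ≤ L then k (M - 1 - c) else 0) * bt (h ^ 2) x M c i j := by
    rw [← sum_sub_distrib]
    refine sum_congr rfl fun c _ => ?_
    ring
  rw [e5]
  ring

end Pool.Agent.SWD
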