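import Pool.Agent.Lib.MP_263316_co.CB.Spec

/-!
MP_263316_co, part CB: forget the mark at the last vertex but one.
-/

set_option autoImplicit false

namespace Pool.Agent.SWD

open Finset Pool.Agent.SWC Pool.Agent.SWB

theorem t_GE : S_GE := by
  intro R _ N m q x a p hap hpm f
  funext j
  have hp : p ∈ Icc a (p + 1) := by simp; omega
  have hp1 : p + 1 ∈ (Icc a (p + 1)).erase p := by simp; omega
  have hne : ¬ p = p + 1 := by omega
  -- the weights with the mark at `p + 1` only
  set w : ℕ → Fin N → R := fun v k => (if v = a then f k else x k) *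
    (if v = p + 1 then (if k = j then 1 else 0) else 1) with hw
  have h1 : TT m q x (Icc a (p + 1)) a (p + 1) f j = Z m q (Icc a (p + 1)) w := rfl
  have h2 : ∀ i, TT2 m q x (Icc a (p + 1)) a p f i j = Z m q (Icc a (p + 1))
      (fun u k => if u = p then w p k * (if k = i then 1 else 0) else w u k) := by
    intro i
    unfold TT2
    refine Z_congr fun v _ k => ?_
    by_cases hv : v = p
    · subst hv
      simp only [hw, if_true, if_neg hne, mul_one]
    · simp only [hw, if_neg hv, one_mul]
  have h3 : Z m q (Icc a (p + 1)) w = ∑ i, TT2 m q x (Icc a (p + 1)) a p f i j := by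
    have h4 := Z_update_sum (m := m) (q := q) hp (univ : Finset (Fin N)) (fun _ => (1 : R))
      (fun i k => w p k * (if k = i then 1 else 0)) w
    simp only [one_mul] at h4
    simp only [h2]
    rw [← h4]
    refine Z_congr fun v _ k => ?_
    by_cases hv : v = p
    · subst hv
      rw [if_pos rfl, ← Finset.mul_sum]
      simp
    · rw [if_neg hv]
  have h5 : TT2 m q x (Icc a (p + 1)) a p f j j = 0 := by
    unfold TT2
    rw [Z_erase hp]
    refine Finset.sum_eq_zero fun k _ => ?_
    by_cases hk : k = j
    · subst hk
      refine mul_eq_zero_of_right _ (Z_zero hp1 fun k' => ?_)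
      by_cases hk' : k' = k
      · subst hk'
        rw [pw_lt (by omega) hpm]
        simp
      · simp [hk']
    · simp [hk]
  rw [h1, h3]
  unfold dmi
  rw [← Finset.add_sum_erase univ _ (Finset.mem_univ j), h5, zero_add]

end Pool.Agent.SWD
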