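import Pool.Agent.Lib.MP_263316_co.CB.Spec

/-!
MP_263316_co, part CB: one new vertex with two neighbours.
-/

set_option autoImplicit false

namespace Pool.Agent.SWD

open Finset Pool.Agent.SWC Pool.Agent.SWB

namespace GLaux

variable {R : Type} [CommRing R] {N : ℕ}

/-- the weights outside of the vertex `p` -/
private def base (x f : Fin N → R) (a p : ℕ) (j : Fin N) (u : ℕ) (c : Fin N) : R :=
  if u = p + 1 then x c * (if c = j then 1 else 0) else if u = a then f c else x c

/-- the vertex `p` has the colour `i` -/
private noncomputable def H (m : ℕ → ℕ) (q : R) (x f : Fin N → R) (a p : ℕ) (j i : Fin N) : R :=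
  Z m q (Icc a (p + 1)) (fun u c => if u = p then (if c = i then 1 else 0) else
    base x f a p j u c)

private theorem H_self {m : ℕ → ℕ} {q : R} {x f : Fin N → R} {a p : ℕ} (hap : a ≤ p)
    (hp : p + 1 ≤ m p) (j : Fin N) : H m q x f a p j j = 0 := by
  unfold H
  have h1 : p ∈ Icc a (p + 1) := mem_Icc.2 ⟨hap, by omega⟩
  rw [Z_erase h1]
  refine Finset.sum_eq_zero fun c _ => ?_
  by_cases hc : c = j
  · subst hc
    have h2 : p + 1 ∈ (Icc a (p + 1)).erase p := mem_erase.2 ⟨by omega, mem_Icc.2 ⟨by omega, le_rfl⟩⟩
    rw [Z_zero h2, mul_zero]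
    intro k
    have h3 : p + 1 ≠ p := by omega
    rw [if_neg h3, base, if_pos rfl, pw_lt (by omega) hp]
    by_cases hk : k = c
    · rw [if_pos hk, if_pos hk.symm, mul_zero]
    · rw [if_neg hk, mul_zero, zero_mul]
  · rw [if_pos rfl, if_neg hc, zero_mul]

private theorem TT2_eq {m : ℕ → ℕ} {q : R} {x f : Fin N → R} {a p : ℕ} (hap : a ≤ p)
    (i j : Fin N) : TT2 m q x (Icc a (p + 1)) a p f i j =
      (if p = a then f i else x i) * H m q x f a p j i := by
  unfold TT2 H
  have h1 : p ∈ Icc a (p + 1) := mem_Icc.2 ⟨hap, by omega⟩
  have h2 : p ≠ p + 1 := by omega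
  rw [Z_vertex h1, Finset.sum_eq_single i]
  · simp only [if_true, if_neg h2, mul_one]
    congr 1
    refine Z_congr fun u hu c => ?_
    by_cases hup : u = p
    · rw [if_pos hup, if_pos hup]
    · rw [if_neg hup, if_neg hup, base, if_neg hup, one_mul]
      by_cases hu1 : u = p + 1
      · have h3 : u ≠ a := by omega
        rw [if_neg h3, if_pos hu1, if_pos hu1]
      · rw [if_neg hu1, if_neg hu1, mul_one]
  · intro b _ hb
    simp only [if_true, if_neg hb, zero_mul, mul_zero]
  · intro h
    exact absurd (mem_univ _) h

end GLaux

open GLaux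

theorem t_GL : S_GL := by
  intro R _ N m hm q x a p hap hlow hmp f
  funext j k
  have hm1 : p + 2 ≤ m (p + 1) := hmp.trans (hm (by omega))
  have hp : p ∈ Icc a (p + 1) := mem_Icc.2 ⟨hap, by omega⟩
  have hp1 : p + 1 ∈ Icc a (p + 1) := mem_Icc.2 ⟨by omega, le_rfl⟩
  have hp2 : p + 2 ∈ Icc a (p + 2) := mem_Icc.2 ⟨by omega, le_rfl⟩
  have he : (Icc a (p + 2)).erase (p + 2) = Icc a (p + 1) := by
    ext u
    simp only [mem_erase, mem_Icc]
    omega
  -- the left-hand side
  have hL : TT2 m q x (Icc a (p + 2)) a (p + 1) f j k =
      x k * ((∑ i, ((if p = a then f i else x i) * (if i = k then 0 else wq q i k)) *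
        H m q x f a p j i) * (if j = k then 0 else wq q j k)) := by
    unfold TT2
    rw [Z_erase hp2, he, Finset.sum_eq_single k]
    · have e1 : p + 2 ≠ a := by omega
      have e2 : p + 2 ≠ p + 1 := by omega
      simp only [if_neg e1, if_neg e2, if_true, mul_one]
      congr 1
      have e3 : Z m q (Icc a (p + 1)) (fun u k' => (if u = a then f k' else x k') *
          ((if u = p + 1 then (if k' = j then 1 else 0) else 1) *
            (if u = p + 1 + 1 then (if k' = k then 1 else 0) else 1)) * pw m q (p + 2) k u k') =
          Z m q (Icc a (p + 1)) (fun u c => (if u = p then (if p = a then f c else x c) *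
            (if c = k then 0 else wq q c k) else base x f a p j u c) *
              (if u = p + 1 then (if j = k then 0 else wq q j k) else 1)) := by
        refine Z_congr fun u hu c => ?_
        rw [mem_Icc] at hu
        have e4 : u ≠ p + 1 + 1 := by omega
        rw [if_neg e4, mul_one]
        rcases lt_trichotomy u p with h | h | h
        · have e5 : u ≠ p + 1 := by omega
          have e6 : u ≠ p := by omega
          have e7 := hlow u hu.1 h
          rw [if_neg e5, if_neg e5, if_neg e6, mul_one, mul_one, base, if_neg e5,
            pw_of_not (by omega) (by omega), mul_one]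
        · subst h
          have e5 : u ≠ u + 1 := by omega
          rw [if_neg e5, if_neg e5, if_pos rfl, mul_one, mul_one, pw_gt (by omega) hmp]
          congr 1
          by_cases hc : c = k
          · rw [if_pos hc, if_pos hc.symm]
          · rw [if_neg hc, if_neg (fun h => hc h.symm)]
            rfl
        · have e5 : u = p + 1 := by omega
          subst e5
          have e6 : p + 1 ≠ p := by omega
          have e7 : p + 1 ≠ a := by omega
          rw [if_pos rfl, if_pos rfl, if_neg e6, if_neg e7, base, if_pos rfl,
            pw_gt (by omega) hm1]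
          by_cases hc : c = j
          · subst hc
            by_cases hk : c = k
            · rw [if_pos hk, if_pos hk.symm]
            · have hk' : ¬ (k = c) := fun h => hk h.symm
              rw [if_neg hk, if_neg hk']
              rfl
          · rw [if_neg hc, mul_zero, zero_mul, zero_mul]
      rw [e3, Z_scale m q (Icc a (p + 1)) (fun u => if u = p + 1 then (if j = k then 0 else wq q j k)
        else 1), Finset.prod_ite_eq' , if_pos hp1]
      congr 1
      rw [Z_vertex hp]
      refine Finset.sum_congr rfl fun i _ => ?_
      rw [if_pos rfl]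
      congr 1
      refine Z_congr fun u hu c => ?_
      by_cases hup : u = p
      · rw [if_pos hup, if_pos hup]
      · rw [if_neg hup, if_neg hup, if_neg hup]
    · intro b _ hb
      have e1 : p + 2 ≠ p + 1 := by omega
      simp only [if_true, if_neg hb, mul_zero, zero_mul]
    · intro h
      exact absurd (mem_univ _) h
  rw [hL, LL]
  by_cases hjk : j = k
  · rw [if_pos hjk, if_pos hjk, mul_zero, mul_zero]
  · rw [if_neg hjk, if_neg hjk, mul_assoc]
    congr 1
    rw [mul_comm]
    congr 1
    have h1 : ∀ i ∈ (univ.erase j).erase k, TT2 m q x (Icc a (p + 1)) a p f i j * wq q i k =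
        ((if p = a then f i else x i) * (if i = k then 0 else wq q i k)) *
          H m q x f a p j i := by
      intro i hi
      have hik : i ≠ k := (mem_erase.1 hi).1
      rw [TT2_eq hap, if_neg hik]
      ring
    rw [Finset.sum_congr rfl h1, Finset.sum_erase, Finset.sum_erase]
    · rw [H_self hap (by omega), mul_zero]
    · rw [if_pos rfl, mul_zero, zero_mul]

end Pool.Agent.SWD
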