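import Pool.Agent.Lib.MP_263316_co.CB.Spec

set_option autoImplicit false

namespace Pool.Agent.SWD

open Finset Pool.Agent.SWC Pool.Agent.SWB

namespace GNAux

theorem step (m : ℕ → ℕ) (a b : ℕ) (hab : a ≤ b + 1) :
    eE m (Icc a (b + 1)) = eE m (Icc a b) + aL m (Icc a (b + 1)) (b + 1) := by
  have h1 : Icc a (b + 1) = insert (b + 1) (Icc a b) := by
    ext u
    simp only [mem_Icc, mem_insert]
    omega
  have h2 : ∀ v ∈ Icc a b, aL m (Icc a (b + 1)) v = aL m (Icc a b) v := by
    intro v hv
    rw [mem_Icc] at hv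
    unfold aL
    congr 1
    ext u
    simp only [mem_filter, mem_Icc]
    omega
  have h3 : b + 1 ∉ Icc a b := by
    rw [mem_Icc]
    omega
  unfold eE
  rw [← sum_congr rfl h2]
  conv_lhs => rw [show ∑ v ∈ Icc a (b + 1), aL m (Icc a (b + 1)) v =
    ∑ v ∈ insert (b + 1) (Icc a b), aL m (Icc a (b + 1)) v from by rw [← h1]]
  rw [sum_insert h3]
  ring

theorem step' (m : ℕ → ℕ) (hm : Monotone m) (a p b : ℕ) (hap : a ≤ p) (hpb : p ≤ b)
    (h1 : ∀ u, a ≤ u → u < p → m u < b + 1) (h2 : b + 1 ≤ m p) :
    eE m (Icc a (b + 1)) = eE m (Icc a b) + (b + 1 - p) := by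
  rw [step m a b (by omega)]
  congr 1
  unfold aL
  have h3 : (Icc a (b + 1)).filter (fun u => u < b + 1 ∧ b + 1 ≤ m u) = Icc p b := by
    ext u
    simp only [mem_filter, mem_Icc]
    constructor
    · rintro ⟨⟨h4, _⟩, h5, h6⟩
      refine ⟨?_, by omega⟩
      by_contra hlt
      push Not at hlt
      have := h1 u h4 hlt
      omega
    · rintro ⟨h4, h5⟩
      have := hm h4
      omega
  rw [h3, Nat.card_Icc]

theorem one (m : ℕ → ℕ) (a : ℕ) : eE m (Icc a a) = 0 := by
  unfold eE aL
  rw [Icc_self, sum_singleton, card_eq_zero, filter_eq_empty_iff]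
  intro u hu
  rw [mem_singleton] at hu
  omega

end GNAux

open GNAux in
theorem t_GN : S_GN := by
  intro m hm
  refine ⟨?_, ?_, ?_⟩
  · intro a l hl
    have key : ∀ j, j ≤ l + 2 → 2 * eE m (Icc a (a + j)) = (j + 1) * j := by
      intro j
      induction j with
      | zero => intro _; rw [Nat.add_zero, one]
      | succ j ih =>
        intro hj
        have h1 := ih (by omega)
        have h2 := step' m hm a a (a + j) le_rfl (by omega) (fun u _ _ => by omega) (by omega)
        rw [← Nat.add_assoc, h2, Nat.mul_add, h1]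
        have h3 : a + j + 1 - a = j + 1 := by omega
        rw [h3]
        ring
    have := key (l + 2) le_rfl
    rw [← Nat.add_assoc] at this
    rw [this]
  · intro a p hap h1 h2
    have h3 := step' m hm a p (p + 1) hap (by omega) h1 h2
    rw [h3]
    have h4 : p + 1 + 1 - p = 2 := by omega
    rw [h4]
  · intro a p l hap h1 h2
    have key : ∀ j, j ≤ l + 2 →
        2 * eE m (Icc a (p + 1 + j)) = 2 * eE m (Icc a (p + 1)) + j * (j + 3) := by
      intro j
      induction j with
      | zero => intro _; simp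
      | succ j ih =>
        intro hj
        have h3 := ih (by omega)
        have h4 := step' m hm a p (p + 1 + j) hap (by omega)
          (fun u hu hup => by have := h1 u hu hup; omega) (by omega)
        rw [← Nat.add_assoc (p + 1) j 1, h4, Nat.mul_add, h3]
        have h5 : p + 1 + j + 1 - p = j + 2 := by omega
        rw [h5]
        ring
    have h3 := key (l + 2) le_rfl
    have h4 : p + 1 + (l + 2) = p + l + 3 := by omega
    rw [h4] at h3
    rw [h3]
    ring

end Pool.Agent.SWD
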