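import Pool.Agent.Lib.MP_263316_co.CB.Spec
import Pool.Agent.Lib.MP_263316_co.ZK
import Pool.Agent.Lib.MP_263316_co.PC
import Pool.Agent.Lib.MP_263316_co.RK

/-!
MP_263316_co, part CB, task GS (helper48): the first clique with two marks.
-/

set_option autoImplicit false

namespace Pool.Agent.SWD

open Finset Pool.Agent.SWC Pool.Agent.SWB

namespace GSAux

variable {R : Type} [CommRing R] {N : ℕ}

/-- a marked vertex -/
theorem Z_mark {m : ℕ → ℕ} {q : R} {U : Finset ℕ} {v : ℕ} (hv : v ∉ U) (w : ℕ → Fin N → R)
    (c : R) (j : Fin N) (h : ∀ k, w v k = if k = j then c else 0) :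
    Z m q (insert v U) w = c * Z m q U (fun u k' => w u k' * pw m q v j u k') := by
  rw [Z_insert hv, Finset.sum_eq_single j]
  · rw [h j, if_pos rfl]
  · intro k _ hk
    rw [h k, if_neg hk, zero_mul]
  · intro h'
    exact absurd (Finset.mem_univ j) h'

/-- the elementary symmetric function of a weight with small support -/
theorem es_supp (y : Fin N → R) (P : Finset (Fin N)) (h : ∀ r, r ∉ P → y r = 0) (l : ℕ) :
    es y l = ∑ C ∈ powersetCard l P, ∏ r ∈ C, y r := by
  unfold es
  have hsub : powersetCard l P ⊆ powersetCard l (univ : Finset (Fin N)) :=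
    powersetCard_mono (Finset.subset_univ _)
  rw [← Finset.sum_subset hsub]
  intro C hC hC'
  obtain ⟨r, hr, hrP⟩ : ∃ r ∈ C, r ∉ P := by
    by_contra hcon
    push Not at hcon
    exact hC' (mem_powersetCard.2 ⟨hcon, (mem_powersetCard.1 hC).2⟩)
  exact Finset.prod_eq_zero hr (h r hrP)

theorem wq_gt' {q : R} {r j : Fin N} (h : r ≠ j) :
    (if j = r then (0 : R) else if r < j then q else 1) = wq q r j := by
  rw [if_neg (Ne.symm h)]; rfl

theorem wq_lt' {q : R} {r k : Fin N} (h : r ≠ k) :
    (if k = r then (0 : R) else if k < r then q else 1) = wq q k r := by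
  rw [if_neg (Ne.symm h)]; rfl

/-- the sum in `Wo` -/
def Sm (q : R) (x : Fin N → R) (l : ℕ) (f : Fin N → R) (i j : Fin N) : R :=
  ∑ k ∈ (univ.erase i).erase j, f k * (wq q k i * wq q k j) *
        ∑ C ∈ powersetCard l (((univ.erase i).erase j).erase k),
          ∏ r ∈ C, (x r * (wq q r i * wq q r j * wq q k r))

theorem Sm_comm (q : R) (x : Fin N → R) (l : ℕ) (f : Fin N → R) (i j : Fin N) :
    Sm q x l f i j = Sm q x l f j i := by
  unfold Sm
  rw [Finset.erase_right_comm]
  refine Finset.sum_congr rfl fun k _ => ?_
  rw [mul_comm (wq q k i) (wq q k j)]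
  congr 1
  refine Finset.sum_congr rfl fun C _ => Finset.prod_congr rfl fun r _ => ?_
  rw [mul_comm (wq q r i) (wq q r j)]

end GSAux

open GSAux in
theorem t_GS : S_GS := by
  intro R _ N m hm q x a l hl f
  funext i j
  have hadj : ∀ u v : ℕ, a ≤ u → u < v → v ≤ a + l + 2 → v ≤ m u := by
    intro u v h1 _ h3
    exact h3.trans (hl.trans (hm h1))
  have hU : Icc a (a + l + 2) =
      insert (a + l + 2) (insert (a + l + 1) (insert a (Ioo a (a + l + 1)))) := by
    ext v
    simp only [mem_Icc, mem_insert, mem_Ioo]
    omega
  have n1 : ¬ (a + l + 1 = a) := by omega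
  have n2 : ¬ (a + l + 1 = a + l + 1 + 1) := by omega
  have n3 : ¬ (a + l + 2 = a) := by omega
  have n4 : ¬ (a + l + 2 = a + l + 1) := by omega
  have n5 : ¬ (a = a + l + 1) := by omega
  have n6 : ¬ (a = a + l + 1 + 1) := by omega
  unfold TT2
  rw [hU, Z_mark (c := x j) (j := j) (by simp only [mem_insert, mem_Ioo]; omega),
    Z_mark (c := x i * (if j = i then 0 else if i < j then q else 1)) (j := i)
      (by simp only [mem_insert, mem_Ioo]; omega)]
  rotate_left
  · intro k
    rw [pw_gt (by omega) (hadj _ _ (by omega) (by omega) (by omega)), if_neg n1,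
      if_pos (rfl : a + l + 1 = a + l + 1), if_neg n2]
    by_cases hk : k = i
    · subst hk; rw [if_pos rfl, if_pos rfl]; ring
    · rw [if_neg hk, if_neg hk]; ring
  · intro k
    rw [if_neg n3, if_neg n4, if_pos (rfl : a + l + 2 = a + l + 1 + 1)]
    by_cases hk : k = j
    · subst hk; rw [if_pos rfl, if_pos rfl]; ring
    · rw [if_neg hk, if_neg hk]; ring
  have hmain : Z m q (insert a (Ioo a (a + l + 1))) (fun u k' =>
      (if u = a then f k' else x k') *
        ((if u = a + l + 1 then if k' = i then 1 else 0 else 1) *
          if u = a + l + 1 + 1 then if k' = j then 1 else 0 else 1) *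
        pw m q (a + l + 2) j u k' * pw m q (a + l + 1) i u k') =
      qf q l * Sm q x l f i j := by
    rw [Z_insert (by simp only [mem_Ioo]; omega)]
    have hz : ∀ k : Fin N, Z m q (Ioo a (a + l + 1)) (fun u k' =>
        (if u = a then f k' else x k') *
        ((if u = a + l + 1 then if k' = i then 1 else 0 else 1) *
          if u = a + l + 1 + 1 then if k' = j then 1 else 0 else 1) *
        pw m q (a + l + 2) j u k' * pw m q (a + l + 1) i u k' * pw m q a k u k') =
        qf q l * ∑ C ∈ powersetCard l (((univ.erase i).erase j).erase k),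
          ∏ r ∈ C, (x r * (wq q r i * wq q r j * wq q k r)) := by
      intro k
      have hcl : Clq m (Ioo a (a + l + 1)) := by
        intro u hu v hv
        rw [mem_Ioo] at hu hv
        intro huv
        exact hadj u v (by omega) huv (by omega)
      have hc : (Ioo a (a + l + 1)).card = l := by
        rw [Nat.card_Ioo]; omega
      have h1 := t_ZK t_PC t_RK R N m q _ hcl (fun k' => x k' *
        ((if j = k' then 0 else if k' < j then q else 1) *
          (if i = k' then 0 else if k' < i then q else 1) *
          (if k = k' then 0 else if k < k' then q else 1)))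
      rw [hc] at h1
      rw [es_supp _ (((univ.erase i).erase j).erase k)] at h1
      · rw [show (∑ C ∈ powersetCard l (((univ.erase i).erase j).erase k),
          ∏ r ∈ C, (x r * (wq q r i * wq q r j * wq q k r))) =
          ∑ C ∈ powersetCard l (((univ.erase i).erase j).erase k), ∏ r ∈ C, (x r *
          ((if j = r then 0 else if r < j then q else 1) *
          (if i = r then 0 else if r < i then q else 1) *
          (if k = r then 0 else if k < r then q else 1))) from ?_, ← h1]
        · refine Z_congr fun u hu k' => ?_
          rw [mem_Ioo] at hu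
          have n7 : ¬ (u = a) := by omega
          have n8 : ¬ (u = a + l + 1) := by omega
          have n9 : ¬ (u = a + l + 1 + 1) := by omega
          rw [if_neg n7, if_neg n8, if_neg n9,
            pw_gt (by omega) (hadj _ _ (by omega) (by omega) (by omega)),
            pw_gt (by omega) (hadj _ _ (by omega) (by omega) (by omega)),
            pw_lt (by omega) (hadj _ _ (by omega) (by omega) (by omega))]
          ring
        · refine Finset.sum_congr rfl fun C hC => Finset.prod_congr rfl fun r hr => ?_
          have hr' := (mem_powersetCard.1 hC).1 hr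
          simp only [mem_erase, mem_univ, and_true] at hr'
          rw [wq_gt' hr'.2.1, wq_gt' hr'.2.2, wq_lt' hr'.1]
          ring
      · intro r hr
        by_cases hri : i = r
        · rw [if_pos hri]; ring
        · by_cases hrj : j = r
          · rw [if_pos hrj]; ring
          · by_cases hrk : k = r
            · rw [if_pos hrk]; ring
            · exfalso
              apply hr
              simp only [mem_erase, mem_univ, and_true]
              exact ⟨fun h => hrk h.symm, fun h => hrj h.symm, fun h => hri h.symm⟩
    rw [Finset.sum_congr rfl fun k _ => by rw [hz k]]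
    unfold Sm
    rw [Finset.mul_sum]
    rw [← Finset.sum_subset (Finset.subset_univ ((univ.erase i).erase j))]
    · refine Finset.sum_congr rfl fun k hk => ?_
      simp only [mem_erase, mem_univ, and_true] at hk
      rw [if_pos (rfl : a = a), if_neg n5, if_neg n6,
        pw_gt (by omega) (hadj _ _ (by omega) (by omega) (by omega)),
        pw_gt (by omega) (hadj _ _ (by omega) (by omega) (by omega)),
        wq_gt' hk.1, wq_gt' hk.2]
      ring
    · intro k _ hk
      rw [pw_gt (by omega) (hadj _ _ (by omega) (by omega) (by omega)),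
        pw_gt (by omega) (hadj _ _ (by omega) (by omega) (by omega))]
      by_cases hki : i = k
      · rw [if_pos hki]; ring
      · by_cases hkj : j = k
        · rw [if_pos hkj]; ring
        · exfalso
          apply hk
          simp only [mem_erase, mem_univ, and_true]
          exact ⟨fun h => hkj h.symm, fun h => hki h.symm⟩
  rw [hmain]
  unfold iot
  rcases lt_trichotomy i j with h | h | h
  · rw [if_neg h.ne', if_pos h, if_pos h]
    have : Wo q x l f i j = x i * x j * Sm q x l f i j := by
      unfold Wo Sm; rw [if_pos h]
    rw [this]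
    ring
  · subst h
    rw [if_pos rfl, if_neg (lt_irrefl _), if_neg (lt_irrefl _)]
    ring
  · rw [if_neg h.ne, if_neg (not_lt.2 h.le), if_neg (not_lt.2 h.le), if_pos h]
    have : Wo q x l f j i = x j * x i * Sm q x l f j i := by
      unfold Wo Sm; rw [if_pos h]
    rw [this, Sm_comm q x l f j i]
    ring

end Pool.Agent.SWD
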