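import Pool.Agent.Lib.MP_263316_co.CB.Spec
import Pool.Agent.Lib.MP_263316_co.ZK
import Pool.Agent.Lib.MP_263316_co.PC
import Pool.Agent.Lib.MP_263316_co.RK

/-!
MP_263316_co, part CB, task GU: a new clique on the two marked vertices (helper25).
-/

set_option autoImplicit false

namespace Pool.Agent.SWD

open Finset Pool.Agent.SWC Pool.Agent.SWB

namespace GUAux

variable {R : Type} [CommRing R] {N : ℕ}

/-- the edge weight -/
def ew (q : R) (i k : Fin N) : R := if i = k then 0 else if i < k then q else 1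

theorem ew_self (q : R) (i : Fin N) : ew q i i = 0 := if_pos rfl

theorem ew_ne {q : R} {i k : Fin N} (h : i ≠ k) : ew q i k = wq q i k := if_neg h

theorem pw_ew_lt {m : ℕ → ℕ} {q : R} {u v : ℕ} (h1 : u < v) (h2 : v ≤ m u) (k k' : Fin N) :
    pw m q u k v k' = ew q k k' := pw_lt h1 h2 k k'

theorem pw_ew_gt {m : ℕ → ℕ} {q : R} {u v : ℕ} (h1 : v < u) (h2 : u ≤ m v) (k k' : Fin N) :
    pw m q u k v k' = ew q k' k := by
  rw [pw_comm, pw_ew_lt h1 h2]

/-- a vertex with a fixed colour -/
theorem Z_mark {m : ℕ → ℕ} {q : R} {U : Finset ℕ} {v : ℕ} (hv : v ∈ U) {w : ℕ → Fin N → R}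
    (i : Fin N) (h : ∀ k, k ≠ i → w v k = 0) :
    Z m q U w = w v i * Z m q (U.erase v) (fun u k' => w u k' * pw m q v i u k') := by
  rw [Z_erase hv, sum_eq_single i]
  · intro k _ hk
    rw [h k hk, zero_mul]
  · intro h
    exact absurd (mem_univ _) h

/-- elementary symmetric functions of a function supported on `S` -/
theorem es_supp {y z : Fin N → R} {S : Finset (Fin N)} (h0 : ∀ k, k ∉ S → y k = 0)
    (h1 : ∀ k ∈ S, y k = z k) (l : ℕ) : es y l = ∑ C ∈ powersetCard l S, ∏ k ∈ C, z k := by
  unfold es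
  have hsub : powersetCard l S ⊆ powersetCard l (univ : Finset (Fin N)) :=
    powersetCard_mono (subset_univ _)
  rw [← sum_subset hsub]
  · refine sum_congr rfl fun C hC => prod_congr rfl fun k hk => h1 k ?_
    exact (mem_powersetCard.1 hC).1 hk
  · intro C hC hC'
    have : ∃ k ∈ C, k ∉ S := by
      by_contra hcon
      push Not at hcon
      exact hC' (mem_powersetCard.2 ⟨hcon, (mem_powersetCard.1 hC).2⟩)
    obtain ⟨k, hk, hkS⟩ := this
    exact prod_eq_zero hk (h0 k hkS)

/-- the weight of the new clique, `i`, `j` the colours of the old vertices -/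
def Wt (q : R) (x : Fin N → R) (l : ℕ) (i' j' i j : Fin N) : R :=
  ew q i i' * ew q i j' * (ew q j i' * ew q j j') *
    es (fun k => x k * (ew q i k * ew q j k * (ew q k i' * ew q k j'))) l

theorem Wt_symm (q : R) (x : Fin N → R) (l : ℕ) (i' j' i j : Fin N) :
    Wt q x l i' j' i j = Wt q x l i' j' j i := by
  unfold Wt
  have : (fun k => x k * (ew q i k * ew q j k * (ew q k i' * ew q k j'))) =
      fun k => x k * (ew q j k * ew q i k * (ew q k i' * ew q k j')) := by
    funext k; ring
  rw [this]
  ring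

theorem Wt_symm' (q : R) (x : Fin N → R) (l : ℕ) (i' j' i j : Fin N) :
    Wt q x l i' j' i j = Wt q x l j' i' i j := by
  unfold Wt
  have : (fun k => x k * (ew q i k * ew q j k * (ew q k i' * ew q k j'))) =
      fun k => x k * (ew q i k * ew q j k * (ew q k j' * ew q k i')) := by
    funext k; ring
  rw [this]
  ring

/-- symmetrization of the double sum -/
theorem sum_sg (F W : Fin N → Fin N → R) (h0 : ∀ i, F i i = 0) (hW : ∀ i j, W i j = W j i) :
    ∑ i, ∑ j, F i j * W i j = ∑ i, ∑ j, sg F i j * W i j := by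
  have h1 : ∀ i j, F i j * W i j =
      (if i < j then F i j * W i j else 0) + (if j < i then F i j * W i j else 0) := by
    intro i j
    rcases lt_trichotomy i j with h | h | h
    · rw [if_pos h, if_neg h.le.not_gt, add_zero]
    · subst h
      rw [h0, zero_mul, if_neg (lt_irrefl _), add_zero]
    · rw [if_neg h.le.not_gt, if_pos h, zero_add]
  have h2 : ∀ i j, sg F i j * W i j =
      (if i < j then F i j * W i j else 0) + (if i < j then F j i * W j i else 0) := by
    intro i j
    unfold sg
    by_cases h : i < j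
    · rw [if_pos h, if_pos h, if_pos h, hW j i]; ring
    · rw [if_neg h, if_neg h, if_neg h]; ring
  rw [sum_congr rfl fun i _ => sum_congr rfl fun j _ => h1 i j,
    sum_congr rfl fun i _ => sum_congr rfl fun j _ => h2 i j]
  simp only [sum_add_distrib]
  congr 1
  exact sum_comm

/-- the operator `UU` as a sum over all pairs -/
theorem UU_eq (q : R) (x : Fin N → R) (l : ℕ) (G : Fin N → Fin N → R) (h0 : ∀ i, G i i = 0)
    {i' j' : Fin N} (hij : i' < j') :
    UU q x l G i' j' = x i' * x j' * ∑ i, ∑ j, G i j * Wt q x l i' j' i j := by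
  unfold UU
  rw [if_pos hij]
  congr 1
  have hz : ∀ i j : Fin N, (i = i' ∨ i = j' ∨ j = i' ∨ j = j') → Wt q x l i' j' i j = 0 := by
    intro i j h
    unfold Wt
    rcases h with h | h | h | h <;> subst h <;> rw [ew_self] <;> ring
  have hne : i' ≠ j' := hij.ne
  -- outer sum
  rw [← sum_subset (subset_univ ((univ.erase i').erase j'))]
  · refine sum_congr rfl fun i hi => ?_
    have hi1 : i ≠ j' := ne_of_mem_erase hi
    have hi2 : i ≠ i' := ne_of_mem_erase (mem_of_mem_erase hi)
    rw [← sum_subset (subset_univ (((univ.erase i').erase j').erase i))]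
    · refine sum_congr rfl fun j hj => ?_
      have hj1 : j ≠ i := ne_of_mem_erase hj
      have hj2 : j ≠ j' := ne_of_mem_erase (mem_of_mem_erase hj)
      have hj3 : j ≠ i' := ne_of_mem_erase (mem_of_mem_erase (mem_of_mem_erase hj))
      unfold Wt
      rw [es_supp (S := (((univ.erase i').erase j').erase i).erase j)
        (z := fun k => x k * (wq q i k * wq q j k * wq q k i' * wq q k j')) ?_ ?_,
        ew_ne hi2, ew_ne hi1, ew_ne hj3, ew_ne hj2]
      · ring
      · intro k hk
        have : k = j ∨ k = i ∨ k = j' ∨ k = i' := by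
          by_contra hcon
          push Not at hcon
          exact hk (mem_erase.2 ⟨hcon.1, mem_erase.2 ⟨hcon.2.1, mem_erase.2 ⟨hcon.2.2.1,
            mem_erase.2 ⟨hcon.2.2.2, mem_univ _⟩⟩⟩⟩)
        rcases this with h | h | h | h <;> subst h <;> rw [ew_self] <;> ring
      · intro k hk
        have hk1 : k ≠ j := ne_of_mem_erase hk
        have hk2 : k ≠ i := ne_of_mem_erase (mem_of_mem_erase hk)
        have hk3 : k ≠ j' := ne_of_mem_erase (mem_of_mem_erase (mem_of_mem_erase hk))
        have hk4 : k ≠ i' :=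
          ne_of_mem_erase (mem_of_mem_erase (mem_of_mem_erase (mem_of_mem_erase hk)))
        rw [ew_ne hk2.symm, ew_ne hk1.symm, ew_ne hk4, ew_ne hk3]
        ring
    · intro j _ hj
      by_cases hji : j = i
      · subst hji
        rw [h0, zero_mul]
      · have : j = i' ∨ j = j' := by
          by_contra hcon
          push Not at hcon
          exact hj (mem_erase.2 ⟨hji, mem_erase.2 ⟨hcon.2, mem_erase.2 ⟨hcon.1, mem_univ _⟩⟩⟩)
        rw [hz i j (by tauto), mul_zero]
  · intro i _ hi
    have : i = i' ∨ i = j' := by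
      by_contra hcon
      push Not at hcon
      exact hi (mem_erase.2 ⟨hcon.2, mem_erase.2 ⟨hcon.1, mem_univ _⟩⟩)
    exact sum_eq_zero fun j _ => by rw [hz i j (by tauto), mul_zero]

/-- the weights of the old part -/
def wo (x f : Fin N → R) (a : ℕ) (v : ℕ) (k : Fin N) : R := if v = a then f k else x k

/-- the old part with the colours `i`, `j` of the vertices `p`, `p + 1` -/
noncomputable def Zo (m : ℕ → ℕ) (q : R) (x f : Fin N → R) (a p : ℕ) (i j : Fin N) : R :=
  Z m q (Ico a p) (fun u k => wo x f a u k * pw m q p i u k * pw m q (p + 1) j u k)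

theorem old_eq {m : ℕ → ℕ} {q : R} {x f : Fin N → R} {a p : ℕ} (hap : a ≤ p)
    (i j : Fin N) : TT2 m q x (Icc a (p + 1)) a p f i j =
      wo x f a p i * (wo x f a (p + 1) j * pw m q p i (p + 1) j) * Zo m q x f a p i j := by
  unfold TT2
  have hp : p ∈ Icc a (p + 1) := mem_Icc.2 ⟨hap, by omega⟩
  have hp1 : p + 1 ∈ (Icc a (p + 1)).erase p := mem_erase.2 ⟨by omega, mem_Icc.2 ⟨by omega, le_rfl⟩⟩
  have hpp : ¬ p = p + 1 := by omega
  have hpp' : ¬ p + 1 = p := by omega
  rw [Z_mark hp i, Z_mark hp1 j]
  · have hset : ((Icc a (p + 1)).erase p).erase (p + 1) = Ico a p := by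
      ext u
      simp only [mem_erase, mem_Icc, mem_Ico]
      omega
    rw [hset]
    rw [if_pos (rfl : p = p), if_pos (rfl : i = i), if_neg hpp, if_neg hpp',
      if_pos (rfl : p + 1 = p + 1), if_pos (rfl : j = j)]
    unfold Zo
    rw [Z_congr (w' := fun u k => wo x f a u k * pw m q p i u k * pw m q (p + 1) j u k)]
    · unfold wo
      ring
    · intro v hv k
      have hv' := mem_Ico.1 hv
      rw [if_neg (show ¬ v = p by omega), if_neg (show ¬ v = p + 1 by omega)]
      unfold wo
      ring
  · intro k hk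
    rw [if_pos (rfl : p + 1 = p + 1), if_neg hk]
    ring
  · intro k hk
    rw [if_pos (rfl : p = p), if_neg hk]
    ring

/-- the new part -/
noncomputable def Zn (m : ℕ → ℕ) (q : R) (x : Fin N → R) (p l : ℕ) (i' j' i j : Fin N) : R :=
  Z m q (Icc (p + 2) (p + l + 3)) (fun u k => x k *
    ((if u = p + l + 2 then (if k = i' then 1 else 0) else 1) *
      (if u = p + l + 2 + 1 then (if k = j' then 1 else 0) else 1)) *
    pw m q p i u k * pw m q (p + 1) j u k)

theorem new_eq {m : ℕ → ℕ} (hm : Monotone m) {q : R} {x : Fin N → R} {p l : ℕ}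
    (hp : p + l + 3 ≤ m p) (i' j' i j : Fin N) : Zn m q x p l i' j' i j =
      qf q l * (ew q i' j' * (x i' * x j' * Wt q x l i' j' i j)) := by
  have hmu : ∀ u, p ≤ u → p + l + 3 ≤ m u := fun u hu => hp.trans (hm hu)
  have hm1 : p + l + 3 ∈ Icc (p + 2) (p + l + 3) := mem_Icc.2 ⟨by omega, le_rfl⟩
  have hm2 : p + l + 2 ∈ (Icc (p + 2) (p + l + 3)).erase (p + l + 3) :=
    mem_erase.2 ⟨by omega, mem_Icc.2 ⟨by omega, by omega⟩⟩
  unfold Zn
  rw [Z_mark hm1 j', Z_mark hm2 i']
  · have hset : ((Icc (p + 2) (p + l + 3)).erase (p + l + 3)).erase (p + l + 2) =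
        Ico (p + 2) (p + 2 + l) := by
      ext u
      simp only [mem_erase, mem_Icc, mem_Ico]
      omega
    rw [hset]
    have hcl : Clq m (Ico (p + 2) (p + 2 + l)) := by
      intro u hu v hv _
      have hu' := mem_Ico.1 hu
      have hv' := mem_Ico.1 hv
      have := hmu u (by omega)
      omega
    have hcard : (Ico (p + 2) (p + 2 + l)).card = l := by simp
    have hZ := t_ZK t_PC t_RK R N m q _ hcl
      (fun k => x k * (ew q i k * ew q j k * (ew q k i' * ew q k j')))
    rw [hcard] at hZ
    rw [Z_congr (w' := fun _ k => x k * (ew q i k * ew q j k * (ew q k i' * ew q k j'))), hZ]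
    · rw [if_neg (show ¬ p + l + 3 = p + l + 2 by omega),
        if_pos (show p + l + 3 = p + l + 2 + 1 by omega), if_pos (rfl : j' = j'),
        if_pos (rfl : p + l + 2 = p + l + 2), if_pos (rfl : i' = i'),
        if_neg (show ¬ p + l + 2 = p + l + 2 + 1 by omega),
        pw_ew_lt (show p < p + l + 3 by omega) hp,
        pw_ew_lt (show p + 1 < p + l + 3 by omega) (hmu _ (by omega)),
        pw_ew_lt (show p < p + l + 2 by omega) (by omega),
        pw_ew_lt (show p + 1 < p + l + 2 by omega) (by have := hmu (p + 1) (by omega); omega),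
        pw_ew_gt (show p + l + 2 < p + l + 3 by omega) (hmu _ (by omega))]
      unfold Wt
      ring
    · intro v hv k
      have hv' := mem_Ico.1 hv
      have h3 := hmu v (by omega)
      have h4 := hmu (p + 1) (by omega)
      rw [if_neg (show ¬ v = p + l + 2 by omega),
        if_neg (show ¬ v = p + l + 2 + 1 by omega),
        pw_ew_lt (show p < v by omega) (by omega),
        pw_ew_lt (show p + 1 < v by omega) (by omega),
        pw_ew_gt (show v < p + l + 3 by omega) h3,
        pw_ew_gt (show v < p + l + 2 by omega) (by omega)]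
      ring
  · intro k hk
    rw [if_pos (rfl : p + l + 2 = p + l + 2), if_neg hk]
    ring
  · intro k hk
    rw [if_pos (show p + l + 3 = p + l + 2 + 1 by omega), if_neg hk]
    ring

/-- decomposition of the partition function -/
theorem big_eq {m : ℕ → ℕ} {q : R} {x f : Fin N → R} {a p l : ℕ} (hap : a ≤ p)
    (hmu : ∀ u, a ≤ u → u < p → m u < p + 2) (i' j' : Fin N) :
    TT2 m q x (Icc a (p + l + 3)) a (p + l + 2) f i' j' =
      ∑ i, ∑ j, TT2 m q x (Icc a (p + 1)) a p f i j * Zn m q x p l i' j' i j := by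
  have hp : p ∈ Icc a (p + l + 3) := mem_Icc.2 ⟨hap, by omega⟩
  have hp1 : p + 1 ∈ (Icc a (p + l + 3)).erase p :=
    mem_erase.2 ⟨by omega, mem_Icc.2 ⟨by omega, by omega⟩⟩
  have hset : ((Icc a (p + l + 3)).erase p).erase (p + 1) = Ico a p ∪ Icc (p + 2) (p + l + 3) := by
    ext u
    simp only [mem_erase, mem_Icc, mem_Ico, mem_union]
    omega
  have hdis : Disjoint (Ico a p) (Icc (p + 2) (p + l + 3)) := by
    rw [disjoint_left]
    intro u hu hu'
    have h1 := mem_Ico.1 hu
    have h2 := mem_Icc.1 hu'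
    omega
  unfold TT2
  rw [Z_erase hp]
  refine sum_congr rfl fun i _ => ?_
  rw [Z_erase hp1, mul_sum]
  refine sum_congr rfl fun j _ => ?_
  rw [hset, Z_union hdis]
  · have hold := old_eq (m := m) (q := q) (x := x) (f := f) hap i j
    unfold TT2 at hold
    rw [hold]
    have e1 : Z m q (Ico a p) (fun u k' => (if u = a then f k' else x k') *
        ((if u = p + l + 2 then (if k' = i' then 1 else 0) else 1) *
          (if u = p + l + 2 + 1 then (if k' = j' then 1 else 0) else 1)) *
        pw m q p i u k' * pw m q (p + 1) j u k') = Zo m q x f a p i j := by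
      unfold Zo
      refine Z_congr fun v hv k => ?_
      have hv' := mem_Ico.1 hv
      rw [if_neg (show ¬ v = p + l + 2 by omega), if_neg (show ¬ v = p + l + 2 + 1 by omega)]
      unfold wo
      ring
    have e2 : Z m q (Icc (p + 2) (p + l + 3)) (fun u k' => (if u = a then f k' else x k') *
        ((if u = p + l + 2 then (if k' = i' then 1 else 0) else 1) *
          (if u = p + l + 2 + 1 then (if k' = j' then 1 else 0) else 1)) *
        pw m q p i u k' * pw m q (p + 1) j u k') = Zn m q x p l i' j' i j := by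
      unfold Zn
      refine Z_congr fun v hv k => ?_
      have hv' := mem_Icc.1 hv
      rw [if_neg (show ¬ v = a by omega)]
    rw [e1, e2, if_neg (show ¬ p = p + l + 2 by omega), if_neg (show ¬ p = p + l + 2 + 1 by omega),
      if_neg (show ¬ p + 1 = p + l + 2 by omega), if_neg (show ¬ p + 1 = p + l + 2 + 1 by omega)]
    unfold wo
    ring
  · intro u hu v hv
    have h1 := mem_Ico.1 hu
    have h2 := mem_Icc.1 hv
    have h3 := hmu u h1.1 h1.2
    omega

end GUAux

open GUAux in
/-- TASK GU. -/
theorem t_GU : S_GU := by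
  intro R _ N m hm q x a p l hap hmu hp f
  funext i' j'
  rw [big_eq hap hmu]
  set F := TT2 m q x (Icc a (p + 1)) a p f with hF
  have hF0 : ∀ i, F i i = 0 := by
    intro i
    rw [hF, old_eq hap, pw_ew_lt (show p < p + 1 by omega) (by omega), ew_self]
    ring
  have hS0 : ∀ i, sg F i i = 0 := fun i => if_neg (lt_irrefl i)
  have h1 : ∑ i, ∑ j, F i j * Zn m q x p l i' j' i j =
      qf q l * (ew q i' j' * (x i' * x j' * ∑ i, ∑ j, sg F i j * Wt q x l i' j' i j)) := by
    rw [← sum_sg F (Wt q x l i' j') hF0 (Wt_symm q x l i' j')]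
    simp only [mul_sum, new_eq hm hp]
    refine sum_congr rfl fun i _ => sum_congr rfl fun j _ => ?_
    ring
  rw [h1]
  congr 1
  unfold iot
  rcases lt_trichotomy i' j' with h | h | h
  · rw [if_pos h, UU_eq q x l (sg F) hS0 h, ew_ne h.ne, wq_lt h]
  · subst h
    rw [if_neg (lt_irrefl _), if_neg (lt_irrefl _), ew_self, zero_mul]
  · rw [if_neg h.le.not_gt, if_pos h, UU_eq q x l (sg F) hS0 h, ew_ne h.ne', wq_ge h.le, one_mul,
      mul_comm (x i') (x j')]
    congr 1
    exact sum_congr rfl fun i _ => sum_congr rfl fun j _ => by rw [Wt_symm']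

end Pool.Agent.SWD
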