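import Pool.Agent.Lib.MP_263316_co.CB.SpecD

set_option autoImplicit false

namespace Pool.Agent.SWD

open Finset Pool.Agent.SWC Pool.Agent.SWB

/-- Task KP1. -/
theorem t_KP1 : S_KP1 := by
  intro hSY hPB F _ h h0 h1 a b l p c ha hab hl hp hpa hc hM
  obtain ⟨-, -, hodd, -, -, hadd, -, -, -⟩ := hSY F h h0 h1
  obtain ⟨P0, -, -, -, P5, -⟩ := hPB hSY F h h0 h1
  have hK : ∀ c : ℤ, Kf h a b l p c =
      syp h (c - a) * syp h (l + 2 + a - p - c) + syp h (l + 2 - c) * sy h (2 * a - c - p) := by
    intro c
    unfold Kf
    rw [if_pos (by omega : p ≤ a), if_neg (by omega : ¬ b ≤ p), add_zero]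
  have hpos : ∀ x : ℤ, 0 < x → syp h x = sy h x := fun x hx => if_pos hx
  have hneg : ∀ x : ℤ, x ≤ 0 → syp h x = 0 := fun x hx => if_neg (by omega)
  -- the basic identity
  have hid : ∀ c : ℤ, sy h (c - a) * sy h (l + 2 + a - p - c) +
      sy h (l + 2 - c) * sy h (2 * a - c - p) = sy h (a - p) * sy h (l + 2 - a) := by
    intro c
    have i1 := hadd (l + 2 + a - p - c) (c - a) (a - p)
    rw [show l + 2 + a - p - c - (a - p) = l + 2 - c by ring,
      show c - a - (a - p) = -(2 * a - c - p) by ring, hodd,
      show (l + 2 + a - p - c) + (c - a) - (a - p) = l + 2 - a by ring] at i1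
    linear_combination i1
  set c' : ℤ := a + b + l + 2 - p - 1 - c with hc'
  rw [hK c, hK c']
  by_cases c1 : c < b
  · rw [hneg (l + 2 + a - p - c') (by omega), hneg (l + 2 - c') (by omega), mul_zero, zero_mul,
      add_zero, sub_zero]
    by_cases c2 : c ≤ a
    · rw [hneg (c - a) (by omega), zero_mul, zero_add]
      by_cases c3 : c ≤ l + 1
      · rw [hpos (l + 2 - c) (by omega)]
        refine P5 _ _ _ (by omega) (by omega) (by omega) ⟨l + p, by ring⟩
      · rw [hneg (l + 2 - c) (by omega), zero_mul]
        exact P0 _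
    · rw [hpos (c - a) (by omega)]
      by_cases c3 : c ≤ l + 1
      · rw [hpos (l + 2 - c) (by omega), hpos (l + 2 + a - p - c) (by omega), hid c]
        refine P5 _ _ _ (by omega) (by omega) (by omega) ⟨a + l + p - c, by ring⟩
      · rw [hneg (l + 2 - c) (by omega), zero_mul, add_zero]
        by_cases c4 : 0 < l + 2 + a - p - c
        · rw [hpos _ c4]
          refine P5 _ _ _ (by omega) (by omega) (by omega) ⟨a + l + p - c, by ring⟩
        · rw [hneg _ (by omega), mul_zero]
          exact P0 _
  · rw [hpos (c - a) (by omega), hpos (l + 2 + a - p - c) (by omega),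
      hpos (c' - a) (by omega), hpos (l + 2 + a - p - c') (by omega)]
    by_cases c2 : l + 2 - c ≤ 0
    · rw [hneg (l + 2 - c) c2, hneg (l + 2 - c') (by omega), zero_mul, zero_mul, add_zero, add_zero]
      have key : sy h (c - a) * sy h (l + 2 + a - p - c) -
          sy h (c' - a) * sy h (l + 2 + a - p - c') =
          sy h (b - a - 1) * sy h (a + b + l + 1 - p - 2 * c) := by
        have i1 := hadd (c - a) (-(l + 2 + a - p - c)) (b - a - 1)
        rw [show c - a - (b - a - 1) = l + 2 + a - p - c' by rw [hc']; ring,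
          show -(l + 2 + a - p - c) - (b - a - 1) = -(c' - a) by rw [hc']; ring, hodd, hodd,
          show c - a + -(l + 2 + a - p - c) - (b - a - 1) =
            -(a + b + l + 1 - p - 2 * c) by ring, hodd] at i1
        linear_combination -i1
      rw [key]
      refine P5 _ _ _ (by omega) (by omega) (by omega) ⟨a + l + 1 + p - b, by ring⟩
    · rw [hpos (l + 2 - c) (by omega), hid c]
      by_cases c3 : l + 2 - c' ≤ 0
      · rw [hneg (l + 2 - c') c3, zero_mul, add_zero]
        have key : sy h (a - p) * sy h (l + 2 - a) -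
            sy h (c' - a) * sy h (l + 2 + a - p - c') =
            sy h (a + b - p - c - 1) * sy h (b - a + l + 1 - c) := by
          have i1 := hadd (a - p) (-(l + 2 - a)) (a + b - p - c - 1)
          rw [show a - p - (a + b - p - c - 1) = l + 2 + a - p - c' by rw [hc']; ring,
            show -(l + 2 - a) - (a + b - p - c - 1) = -(c' - a) by rw [hc']; ring, hodd, hodd,
            show a - p + -(l + 2 - a) - (a + b - p - c - 1) = -(b - a + l + 1 - c) by ring,
            hodd] at i1
          linear_combination -i1
        rw [key]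
        refine P5 _ _ _ (by omega) (by omega) (by omega) ⟨a + l + 1 + p - b, by ring⟩
      · rw [hpos (l + 2 - c') (by omega), hid c', sub_self]
        exact P0 _

end Pool.Agent.SWD
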