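import Pool.Agent.Lib.MP_263316_co.CB.SpecD

/-!
MP_263316_co, part CB4, task KP2 (helper51): positivity of the folded coefficients, `a ≤ p < b`.
-/

set_option autoImplicit false

namespace Pool.Agent.SWD

open Finset Pool.Agent.SWC Pool.Agent.SWB

namespace KP2X

/-- `Kf` for `a ≤ p < b` -/
theorem Kf_mid {F : Type} [Field F] {h : F} (h0 : sy h 0 = 0)
    (hn : ∀ x : ℤ, sy h (-x) = - sy h x) {a b l p c : ℤ} (hp : a ≤ p) (hb : p < b) :
    Kf h a b l p c = syp h (a - c) * syp h (l + 2 + a - p - c) := by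
  unfold Kf
  rw [if_neg (not_le.2 hb), add_zero]
  have e1 : (if p ≤ a then syp h (l + 2 - c) * sy h (2 * a - c - p)
      else syp h (l + 2 + a - c - p) * sy h (a - c)) =
      syp h (l + 2 + a - p - c) * sy h (a - c) := by
    split_ifs with h1
    · have h2 : p = a := le_antisymm h1 hp
      subst h2
      rw [show l + 2 - c = l + 2 + p - p - c by ring, show 2 * p - c - p = p - c by ring]
    · rw [show l + 2 + a - c - p = l + 2 + a - p - c by ring]
  rw [e1]
  have e2 : syp h (c - a) + sy h (a - c) = syp h (a - c) := by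
    unfold syp
    rcases lt_trichotomy a c with h1 | h1 | h1
    · rw [if_pos (by omega), if_neg (by omega), show a - c = -(c - a) by ring, hn]
      ring
    · rw [if_neg (by omega), if_neg (by omega), h1, sub_self, h0, add_zero]
    · rw [if_neg (by omega), if_pos (by omega), zero_add]
  rw [← e2]
  ring

end KP2X

open KP2X in
theorem t_KP2 : S_KP2 := by
  intro hSY hPB F _ h hh0 hh1 a b l p c ha hab hl hap hpb hc hM
  obtain ⟨s0, -, sn, -⟩ := hSY F h hh0 hh1
  obtain ⟨-, -, -, -, -, p6⟩ := hPB hSY F h hh0 hh1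
  have e1 : Kf h a b l p (a + b + l + 2 - p - 1 - c) = 0 := by
    rw [Kf_mid s0 sn hap hpb]
    unfold syp
    by_cases h1 : 0 < a - (a + b + l + 2 - p - 1 - c)
    · rw [if_neg (show ¬ 0 < l + 2 + a - p - (a + b + l + 2 - p - 1 - c) by omega), mul_zero]
    · rw [if_neg h1, zero_mul]
  rw [e1, sub_zero, Kf_mid s0 sn hap hpb]
  refine p6 _ _ _ fun _ _ => ⟨by omega, l + p, by ring⟩

end Pool.Agent.SWD
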