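import Pool.Agent.Lib.MP_263316_co.CB.SpecD

/-!
MP_263316_co, part CB4: positivity of the coefficients, the case b <= p.
-/

set_option autoImplicit false

namespace Pool.Agent.SWD

open Finset Pool.Agent.SWC Pool.Agent.SWB

private theorem syp_of_pos {F : Type} [Field F] (h : F) {x : ℤ} (hx : 0 < x) :
    syp h x = sy h x := if_pos hx

private theorem syp_of_nonpos {F : Type} [Field F] (h : F) {x : ℤ} (hx : x ≤ 0) :
    syp h x = 0 := if_neg (not_lt.2 hx)

theorem t_KP3 : S_KP3 := by
  intro hSY hPB F _ h h0 h1 a b l p c ha hab hl hbp hp hc hM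
  obtain ⟨s0, -, sneg, -, -, sid, -, -, -⟩ := hSY F h h0 h1
  obtain ⟨P0, Padd, -, -, P5, -⟩ := hPB hSY F h h0 h1
  have sid' : ∀ x y t x' y' s : ℤ, x' = x - t → y' = y - t → s = x + y - t →
      sy h x * sy h y - sy h x' * sy h y' = sy h t * sy h s := by
    intro x y t x' y' s hx hy hs
    rw [hx, hy, hs]
    exact sid x y t
  have P5' : ∀ x y : ℤ, 0 ≤ x → 0 ≤ y → (∃ k : ℤ, 0 ≤ k ∧
      2 * a + 3 * l + 2 + p - 2 * c + 2 = x + y + 2 * k) →
      Pos h (2 * a + 3 * l + 2 + p - 2 * c) (sy h x * sy h y) := by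
    rintro x y hx hy ⟨k, hk, he⟩
    refine P5 _ x y hx hy (by omega) ⟨k - 1, by omega⟩
  obtain ⟨d, hd⟩ : ∃ d, d = a + b + l + 2 - p - c := ⟨_, rfl⟩
  have hcd : c + 2 ≤ d := by omega
  have hK : ∀ x : ℤ, Kf h a b l p x = syp h (l + 2 + a - p - x) * syp h (a - x) +
      (if p - b ≤ l + 1 - x then sy h (p - b + 1) * sy h (b - l - 3)
        else syp h (l + 2 - x) * sy h (2 * b - 2 - x - p)) := by
    intro x
    unfold Kf
    rw [if_neg (show ¬ p ≤ a by omega), if_pos hbp, show l + 2 + a - x - p = l + 2 + a - p - x by ring]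
    congr 1
    rcases lt_or_ge a x with hx | hx
    · rw [syp_of_pos h (show 0 < x - a by omega), syp_of_nonpos h (show a - x ≤ 0 by omega),
        show a - x = -(x - a) by ring, sneg]
      ring
    · rcases eq_or_lt_of_le hx with rfl | hx
      · rw [sub_self, s0, syp_of_nonpos h le_rfl]
        ring
      · rw [syp_of_nonpos h (show x - a ≤ 0 by omega), syp_of_pos h (show 0 < a - x by omega)]
        ring
  have hc' : a + b + l + 2 - p - 1 - c = d - 1 := by omega
  have hz1 : syp h (l + 2 + a - p - (d - 1)) * syp h (a - (d - 1)) = 0 := by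
    rcases lt_or_ge a d with h2 | h2
    · rw [syp_of_nonpos h (show a - (d - 1) ≤ 0 by omega), mul_zero]
    · rw [syp_of_nonpos h (show l + 2 + a - p - (d - 1) ≤ 0 by omega), zero_mul]
  rw [hc', hK, hK, hz1, zero_add]
  rcases le_or_gt a c with hac | hac
  · -- c ≥ a
    rw [if_pos (show p - b ≤ l + 1 - c by omega), if_pos (show p - b ≤ l + 1 - (d - 1) by omega),
      syp_of_nonpos h (show a - c ≤ 0 by omega), mul_zero, zero_add, sub_self]
    exact P0 _
  rw [if_neg (show ¬ p - b ≤ l + 1 - (d - 1) by omega), syp_of_pos h (show 0 < a - c by omega),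
    show l + 2 + a - p - c = d - b by omega]
  rcases lt_or_ge a d with had | had
  · rw [if_pos (show p - b ≤ l + 1 - c by omega)]
    rcases le_or_gt d (l + 2) with hdl | hdl
    · -- d ≤ l + 2
      rw [syp_of_pos h (show 0 < l + 2 - (d - 1) by omega)]
      have e1 := sid' (p - b + 1) (b - l - 3) (a - c) (l + 2 - (d - 1)) (2 * b - 2 - (d - 1) - p)
        (b - d) (by omega) (by omega) (by omega)
      rw [add_sub_assoc (syp h (d - b) * sy h (a - c)), e1]
      rcases le_or_gt d b with hdb | hdb
      · rw [syp_of_nonpos h (show d - b ≤ 0 by omega), zero_mul, zero_add]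
        exact P5' _ _ (by omega) (by omega) ⟨a + 2 * l + 3 - c, by omega, by omega⟩
      · rw [syp_of_pos h (show 0 < d - b by omega), show b - d = -(d - b) by ring, sneg]
        have : sy h (d - b) * sy h (a - c) + sy h (a - c) * -sy h (d - b) = 0 := by ring
        rw [this]
        exact P0 _
    · rw [syp_of_nonpos h (show l + 2 - (d - 1) ≤ 0 by omega), zero_mul, sub_zero]
      rcases le_or_gt (l + 3) b with hbl | hbl
      · refine Padd _ _ _ ?_ (P5' _ _ (by omega) (by omega) ⟨a + 2 * l + 3 - c, by omega, by omega⟩)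
        rcases le_or_gt d b with hdb | hdb
        · rw [syp_of_nonpos h (show d - b ≤ 0 by omega), zero_mul]
          exact P0 _
        · rw [syp_of_pos h (show 0 < d - b by omega)]
          exact P5' _ _ (by omega) (by omega) ⟨l + 1 + p, by omega, by omega⟩
      · rw [syp_of_pos h (show 0 < d - b by omega)]
        have e1 := sid' (d - b) (a - c) (d - l - 3) (l + 3 - b) (p - b + 1)
          (a - c - b + l + 3) (by omega) (by omega) (by omega)
        have e2 : sy h (d - b) * sy h (a - c) + sy h (p - b + 1) * sy h (b - l - 3) =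
            sy h (d - b) * sy h (a - c) - sy h (l + 3 - b) * sy h (p - b + 1) := by
          rw [show b - l - 3 = -(l + 3 - b) by ring, sneg]
          ring
        rw [e2, e1]
        exact P5' _ _ (by omega) (by omega) ⟨l + 1 + p, by omega, by omega⟩
  · -- d ≤ a
    rw [if_neg (show ¬ p - b ≤ l + 1 - c by omega), syp_of_nonpos h (show d - b ≤ 0 by omega),
      zero_mul, zero_add]
    rcases le_or_gt d (l + 2) with hdl | hdl
    · rw [syp_of_pos h (show 0 < l + 2 - (d - 1) by omega), syp_of_pos h (show 0 < l + 2 - c by omega)]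
      have e1 := sid' (l + 2 - c) (2 * b - 2 - c - p) (d - 1 - c) (l + 2 - (d - 1))
        (2 * b - 2 - (d - 1) - p) (b - a - 1) (by omega) (by omega) (by omega)
      rw [e1]
      exact P5' _ _ (by omega) (by omega) ⟨a + l + 2 + p - b, by omega, by omega⟩
    · rw [syp_of_nonpos h (show l + 2 - (d - 1) ≤ 0 by omega), zero_mul, sub_zero]
      rcases le_or_gt (l + 2) c with hcl | hcl
      · rw [syp_of_nonpos h (show l + 2 - c ≤ 0 by omega), zero_mul]
        exact P0 _
      · rw [syp_of_pos h (show 0 < l + 2 - c by omega)]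
        exact P5' _ _ (by omega) (by omega) ⟨a + l + 2 + p - b, by omega, by omega⟩

end Pool.Agent.SWD
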