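import Pool.Agent.Lib.MP_263316_co.CB.Base

/-!
MP_263316_co, part CB: specification of the lemmas for the theorem (helper91)

  X_G(x,q) is e-positive and e-unimodal (palindromic coefficients) for every natural unit interval
  graph G all of whose blocks have independence number at most 2 or contain no induced
  K_5 minus an edge.

Part CB1: graphs (G), one-particle identities (A), cones (C). All definitions are in CB/Base.lean;
`es`, `eh`, `qn`, `qf`, `Z`, `TT`, `Cone`, `MCone`, `PU`, `qq`, `xx` are in ../Base.lean and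
../Spec.lean, `Q`, `PZ`, `Q_mul`, `Q_add`, `PZ_gen`, `qn_qq` are in AB/Base.lean.

Names in the comments: `[k] = qn q k`, `e_c = es x c`, `E_c(j) = eH q x c j` (so `E_0 = 0`,
`E_{c+1} = eh c`), `f_c(j) = fh q x c j`, `E_{c+1}(j) = x_j f_c(j)` (`eH_eq`).

Facts that are already proved in ../ and may be imported (module Pool.Agent.Lib.MP_263316_co.X):
`t_PUmul : S_PUmul`, `t_Cmul t_PUmul : S_Cmul` (product of elements of two cones), `t_Msmul : S_Cmul
→ S_Msmul` (element of a cone times element of `MCone`), `t_PC : S_PC`, `t_RK : S_RK` (sum over a set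
of `q^rank`), `t_EHsum`, `t_ZK : S_PC → S_RK → S_ZK` (partition function of a clique with constant
weights), AB/PZm: `t_PZm`, AB/PZp: `t_PZp` (`PZ` and `PU`), MAIN: `MainAux.one_mem`,
`MainAux.eh_mem`, AB/NA etc.

All statements have been checked by computer for small values.
-/

set_option autoImplicit false

namespace Pool.Agent.SWD

open Finset Pool.Agent.SWC Pool.Agent.SWB

/-! ## Part G: graphs -/

/-- TASK GS (first clique). `U = Icc a (a+l+2)` is a clique with `l + 3` vertices; `a` has the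
weight `f`, `a+l+1` has colour `i`, `a+l+2` has colour `j`. If `i = j` both sides are zero.
Use `Z_erase` for `a+l+2`, `a+l+1` and `a` (`pw_lt`, `pw_gt`): the remaining `l` vertices form a
clique with the same weight `x_r * (w(r,i) w(r,j) w(k,r))` or `0` if `r ∈ {i,j,k}` (`k` the colour
of `a`, `w(r,i) = wq q r i`), and `S_ZK` (module ZK) gives `qf q l * es y l`; compare `es y l` with
the sum over `powersetCard l` of the colours different from `i,j,k`. -/
def S_GS : Prop := ∀ (R : Type) [CommRing R] (N : ℕ) (m : ℕ → ℕ), Monotone m → ∀ (q : R)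
  (x : Fin N → R) (a l : ℕ), a + l + 2 ≤ m a → ∀ (f : Fin N → R),
  TT2 m q x (Icc a (a + l + 2)) a (a + l + 1) f = fun i j => qf q l * iot q (Wo q x l f) i j

/-- TASK GL (one new vertex). The new vertex `p+2` is adjacent exactly to `p`, `p+1`. `Z_erase`
for `p+2` (colour `k`); the vertex `p+1` has colour `j`; the mark at `p` is summed: by linearity
(`Z_vertex`, `Z_update_sum`) the left-hand side at `(j,k)` is
`x_k * [j ≠ k] w(j,k) * ∑_{i ≠ k} w(i,k) TT2 (Icc a (p+1)) a p f i j`, and the term `i = j` is zero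
since `p`, `p+1` are adjacent. -/
def S_GL : Prop := ∀ (R : Type) [CommRing R] (N : ℕ) (m : ℕ → ℕ), Monotone m → ∀ (q : R)
  (x : Fin N → R) (a p : ℕ), a ≤ p → (∀ u, a ≤ u → u < p → m u < p + 2) → p + 2 ≤ m p →
  ∀ (f : Fin N → R), TT2 m q x (Icc a (p + 2)) a (p + 1) f =
    LL q x (TT2 m q x (Icc a (p + 1)) a p f)

/-- TASK GU (a new clique). The new vertices `p+2, ..., p+l+3` are adjacent to each other and to
`p`, `p+1` only. Split with respect to the colours `i`, `j` of `p`, `p+1` (`Z_vertex` twice or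
`Z_erase`), then as in `S_GS`: the vertices `p+2, ..., p+l+1` (`l` of them) form a clique and give
`qf q l` times the sum over the sets `C` of `l` colours. The unordered pair `{i, j}`: the weight
depends on `{i,j}` only, so the sum over the ordered pairs `(i,j)` of `F i j * weight` is the sum
over the ordered pairs of `sg F i j * weight` (`sg F` is supported on `i < j`). -/
def S_GU : Prop := ∀ (R : Type) [CommRing R] (N : ℕ) (m : ℕ → ℕ), Monotone m → ∀ (q : R)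
  (x : Fin N → R) (a p l : ℕ), a ≤ p → (∀ u, a ≤ u → u < p → m u < p + 2) → p + l + 3 ≤ m p →
  ∀ (f : Fin N → R), TT2 m q x (Icc a (p + l + 3)) a (p + l + 2) f =
    fun i j => qf q l * iot q (UU q x l (sg (TT2 m q x (Icc a (p + 1)) a p f))) i j

/-- TASK GE (end). Linearity at the vertex `p` (`Z_vertex` / `Z_update_sum`); the term `i = j` is
zero since `p`, `p+1` are adjacent. -/
def S_GE : Prop := ∀ (R : Type) [CommRing R] (N : ℕ) (m : ℕ → ℕ) (q : R)
  (x : Fin N → R) (a p : ℕ), a ≤ p → p + 1 ≤ m p →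
  ∀ (f : Fin N → R), TT m q x (Icc a (p + 1)) a (p + 1) f =
    dmi (TT2 m q x (Icc a (p + 1)) a p f)

/-- TASK GN (edge numbers). `eE m U = ∑_{v ∈ U} (number of left neighbours of v in U)`. For the
vertices `v` of `Icc a (p+1)` nothing changes; the vertex `p+2+s` (`s ≤ l+1`) has the left
neighbours `p, p+1, p+2, ..., p+1+s`. -/
def S_GN : Prop := ∀ (m : ℕ → ℕ), Monotone m →
  (∀ a l : ℕ, a + l + 2 ≤ m a → 2 * eE m (Icc a (a + l + 2)) = (l + 3) * (l + 2)) ∧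
  (∀ a p : ℕ, a ≤ p → (∀ u, a ≤ u → u < p → m u < p + 2) → p + 2 ≤ m p →
    eE m (Icc a (p + 2)) = eE m (Icc a (p + 1)) + 2) ∧
  (∀ a p l : ℕ, a ≤ p → (∀ u, a ≤ u → u < p → m u < p + 2) → p + l + 3 ≤ m p →
    2 * eE m (Icc a (p + l + 3)) = 2 * eE m (Icc a (p + 1)) + 4 * (l + 2) + (l + 2) * (l + 1))

/-! ## Part A: one-particle identities -/

/-- TASK OS. Telescoping: let `g(i)` be the sum over the sets `C` of `c` colours of
`∏_{k ∈ C} (q x_k if k < i, x_k otherwise)` (threshold `i`, `0 ≤ i ≤ N`); `g(0) = e_c`,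
`g(N) = q^c e_c`, `g(i+1) - g(i) = (q - 1) E_c(i)` and `g(j) = f_c(j) + E_c(j)`,
`g(j+1) = f_c(j) + q E_c(j)`. -/
def S_OS : Prop := ∀ (R : Type) [CommRing R] (N : ℕ) (q : R) (x : Fin N → R) (c : ℕ) (j : Fin N),
  (1 - q) * ∑ i ∈ univ.filter (fun i => i < j), eH q x c i = es x c - fh q x c j - eH q x c j ∧
  (1 - q) * ∑ i ∈ univ.filter (fun i => j < i), eH q x c i =
    fh q x c j + q * eH q x c j - q ^ c * es x c ∧
  (∀ k : Fin N, j < k → (1 - q) * ∑ i ∈ univ.filter (fun i => j < i ∧ i < k), eH q x c i =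
    fh q x c j + q * eH q x c j - fh q x c k - eH q x c k)

/-- TASK A1. Put `b = n - a`, `w_r` the coefficient in `bt` (`1 ≤ r ≤ n-1`). By `S_OS`,
`(1-q) * LHS = ∑_r w_r (q (e_r - f_r - E_r) E_{n-r} + E_r (f_{n-r} + q E_{n-r} - q^{n-r} e_{n-r}))`
`= ∑_r w_r (q e_r E_{n-r} - q^{n-r} e_{n-r} E_r) + x_j ∑_r w_r (f_{r-1} f_{n-r} - q f_r f_{n-r-1})`
(`E_{c+1} = x f_c`). The last sum telescopes over `1 ≤ r ≤ a` (`w_r = q^{r-1}`) and over
`b ≤ r ≤ n - 1` (`w_r = q^{r+a-b}`; note `a < b`) and gives `(1 - q^{2a}) E_n`. In the first sum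
collect the coefficients of `e_i E_{n-i}`: `i ≤ a`: `q^i - q^{2a}`; `i = b + k`, `k < a`:
`q^{a+k+1} - q^{a+b-1}`; all others vanish. Finally `q^i - q^{2a} = (1-q) q^i [2a-i]` and so on;
cancel `1 - q`. -/
def S_A1 : Prop := S_OS → ∀ (R : Type) [CommRing R] [IsDomain R] (N : ℕ) (q : R), q ≠ 1 →
  ∀ (x : Fin N → R) (n a : ℕ), 1 ≤ a → 2 * a + 2 ≤ n → ∀ j : Fin N,
  dmi (iot q (bt q x n a)) j =
    ∑ i ∈ range (a + 1), q ^ i * qn q (2 * a - i) * es x i * eH q x (n - i) j +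
    ∑ k ∈ range a, q ^ (a + k + 1) * qn q (n - a - 2 - k) * es x (n - a + k) * eH q x (a - k) j

/-- TASK A2. The colours different from `j` form a set `C'` of `n-1` colours, one of which is `i`;
`∑_{i ∈ C'} q^{#(elements of C' smaller than i)} = [n-1]` (`S_PC`, `S_RK`); for `i < j`
(`iot` gives `q`) the total weight of the colours with respect to `j` is
`∏_{k ∈ C'} (q if k < j)`. -/
def S_A2 : Prop := ∀ (R : Type) [CommRing R] (N : ℕ) (q : R) (x : Fin N → R) (n : ℕ)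
  (j : Fin N), dmi (iot q (Cn q x n)) j = qn q (n - 1) * eH q x n j

/-- TASK A3. `j ≠ k`. In the sum over `i` the colours `C ∪ {i} = C'` form a set of `n-1` colours
different from `j`, and the term is `x_j x_k w(j,k) ∏_{c ∈ C'} (x_c w(c,j))` times
`q^{#(elements of C' smaller than i)}` times `(0 if i = k, q if i < k, 1 otherwise)`. For a set `C'`
with `n - 1` elements and a colour `k`:
`∑_{i ∈ C'} q^{rank of i} (0 if i = k, q if i < k, 1 if i > k) =
   q [n-2] + (0 if k ∈ C', else q^{#{c ∈ C' : c < k}})`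
(with `g = #{c ∈ C' : c < k}`: the `i < k` contribute `q + ... + q^g`; the `i > k` contribute
`q^g + ... + q^{n-2}` if `k ∉ C'` and `q^{g+1} + ... + q^{n-2}` if `k ∈ C'`; this is also proved in
the file ../W1.lean). -/
def S_A3 : Prop := ∀ (R : Type) [CommRing R] (N : ℕ) (q : R) (x : Fin N → R) (n : ℕ), 2 ≤ n →
  ∀ j k : Fin N, LL q x (iot q (Cn q x n)) j k =
    iot q (Cn q x (n + 1)) j k + q * qn q (n - 2) * dpl q x (eH q x n) j k

/-- TASK A4. By `S_OS`, for `j < k`: `(1-q) (q^2 ∑_{i<j} E_n(i) + q ∑_{j<i<k} E_n(i) +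
∑_{i>k} E_n(i)) = (q^2 - q^n) e_n + (q - q^2) f_n(j) + (1 - q) f_n(k)`, and the same with `j`, `k`
exchanged for `k < j`. For `n ≥ 2` one has `bt (n+2) 1 i j = E_1(i) E_{n+1}(j) + q E_{n+1}(i) E_1(j)
= x_i x_j (f_n(j) + q f_n(i))`, `Cn 2 i j = x_i x_j` (`i < j`). For `n = 1`:
`Cn 3 i j = x_i x_j (q^2 ∑_{k<i} x_k + q ∑_{i<k<j} x_k + ∑_{k>j} x_k)`, directly. -/
def S_A4 : Prop := S_OS → ∀ (R : Type) [CommRing R] [IsDomain R] (N : ℕ) (q : R), q ≠ 1 →
  ∀ (x : Fin N → R) (j k : Fin N),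
  (∀ n : ℕ, 2 ≤ n → LL q x (dpl q x (eH q x n)) j k = iot q (bt q x (n + 2) 1) j k +
    q ^ 2 * qn q (n - 2) * es x n * iot q (Cn q x 2) j k) ∧
  LL q x (dpl q x (eH q x 1)) j k = iot q (Cn q x 3) j k

/-- TASK A5a. `j ≠ k`, `b = n - a`, `w_r` as in A1. For `j < k` the left-hand side is
`q x_k (q^2 ∑_{i<j} bt(i,j) + q ∑_{j<i<k} bt(j,i) + ∑_{i>k} bt(j,i))`, for `k < j` it is
`x_k (q^2 ∑_{i<k} bt(i,j) + q ∑_{k<i<j} bt(i,j) + ∑_{i>j} bt(j,i))`; use `S_OS`, `E_{c+1} = x f_c`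
and telescoping sums as in A1, and cancel `1 - q`. (`dpl G j k = G(j) x_k w(j,k)`.) -/
def S_A5a : Prop := S_OS → ∀ (R : Type) [CommRing R] [IsDomain R] (N : ℕ) (q : R), q ≠ 1 →
  ∀ (x : Fin N → R) (n a : ℕ), 1 ≤ a → 2 * a + 2 ≤ n → ∀ j k : Fin N,
  LL q x (iot q (bt q x n a)) j k = bn q x n a j k +
    (∑ i ∈ range (a + 1), q ^ (i + 1) * qn q (2 * a - i - 1) * es x i *
      dpl q x (eH q x (n - i)) j k +
    ∑ i ∈ range a, q ^ (a + i + 2) * qn q (n - a - 3 - i) * es x (n - a + i) *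
      dpl q x (eH q x (a - i)) j k)

/-- TASK A5b. As A5a: for `j < k` the left-hand side is
`q x_k (q ∑_{i<j} bn(i,j) + q ∑_{j<i<k} bn(i,j) + ∑_{i>k} bn(i,j))`, for `k < j` it is
`x_k (q ∑_{i<k} bn(i,j) + ∑_{k<i<j} bn(i,j) + ∑_{i>j} bn(i,j))`. -/
def S_A5b : Prop := S_OS → ∀ (R : Type) [CommRing R] [IsDomain R] (N : ℕ) (q : R), q ≠ 1 →
  ∀ (x : Fin N → R) (n a : ℕ), 1 ≤ a → 2 * a + 2 ≤ n → ∀ j k : Fin N,
  LL q x (bn q x n a) j k = iot q (bt q x (n + 2) (a + 1)) j k +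
    (∑ i ∈ range (a + 1), q ^ (i + 1) * qn q (2 * a - i) * es x i *
      dpl q x (eH q x (n + 1 - i)) j k +
    ∑ i ∈ range (a + 1), q ^ (a + i + 2) * qn q (n - a - 2 - i) * es x (n - a + i) *
      dpl q x (eH q x (a + 1 - i)) j k)

/-- TASK A6. As A1 (`dmi` of `bn`: the sum over `i < j` uses the first line of the definition of
`bn`, the sum over `i > j` the second). -/
def S_A6 : Prop := S_OS → ∀ (R : Type) [CommRing R] [IsDomain R] (N : ℕ) (q : R), q ≠ 1 →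
  ∀ (x : Fin N → R) (n a : ℕ), 1 ≤ a → 2 * a + 2 ≤ n → ∀ j : Fin N,
  dmi (bn q x n a) j =
    ∑ i ∈ range (a + 1), q ^ i * qn q (2 * a + 1 - i) * es x i * eH q x (n + 1 - i) j +
    ∑ i ∈ range (a + 1), q ^ (a + i + 1) * qn q (n - a - 1 - i) * es x (n - a + i) *
      eH q x (a + 1 - i) j

/-- TASK A7. Compare the coefficients of `E_r(i) E_{n+1-r}(j)` (`i < j`; in the second term of `sg`
replace `r` by `n + 1 - r`). -/
def S_A7 : Prop := ∀ (R : Type) [CommRing R] (N : ℕ) (q : R) (x : Fin N → R) (i j : Fin N),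
  (∀ n a : ℕ, 1 ≤ a → 2 * a + 2 ≤ n →
    sg (bn q x n a) i j = bt q x (n + 1) (a + 1) i j + q * bt q x (n + 1) a i j) ∧
  (∀ c : ℕ, 1 ≤ c → sg (dpl q x (eH q x c)) i j = bt q x (c + 1) 1 i j)

/-- TASK A8. `dmi (dpl E_n) j = x_j (q ∑_{i<j} E_n(i) + ∑_{i>j} E_n(i))` and `S_OS`. -/
def S_A8 : Prop := S_OS → ∀ (R : Type) [CommRing R] [IsDomain R] (N : ℕ) (q : R), q ≠ 1 →
  ∀ (x : Fin N → R) (n : ℕ), 1 ≤ n → ∀ j : Fin N,
  dmi (dpl q x (eH q x n)) j = eH q x (n + 1) j + q * qn q (n - 1) * es x n * eH q x 1 j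

/-- TASK STR. Polynomial identity with generating functions in the polynomial ring `R[X]` (or
`PowerSeries`): with `φ_z(i) = ∏_{k<i} (1 + q z x_k) ∏_{k>i} (1 + z x_k)` one has
`∑_c z^c f_c(i) = φ_z(i)`, and for `i < j`
`φ_{qz}(i) φ_z(j) = ∏_k (1 + q z x_k) * ∏_{k<i} (1 + q^2 z x_k) ∏_{i<k<j} (1 + q z x_k)
∏_{k>j} (1 + z x_k)`; the last product is `∑_m z^m * (∑_{|C| = m, i,j ∉ C} ∏_{k ∈ C} x_k w(k,i)
w(k,j))` and `∏_k (1 + q z x_k) = ∑_c q^c e_c z^c`. Compare the coefficients of `z^{n-2}` and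
multiply by `x_i x_j` (`E_{c+1} = x f_c`, `Cn`). -/
def S_STR : Prop := ∀ (R : Type) [CommRing R] (N : ℕ) (q : R) (x : Fin N → R) (n : ℕ)
  (i j : Fin N), i < j →
  ∑ r ∈ Ico 1 n, q ^ (r - 1) * eH q x r i * eH q x (n - r) j = Sn q x n i j

/-- TASK EXT. For `i < j` compare the coefficients of `E_r(i) E_{n-r}(j)` and use `S_STR`:
`q^{2c+1-n}` times the coefficient in `bt n (n-1-c)` is `q^{2c+r-n}` for `r ≤ n-1-c` and `q^{r-1}`
for `r ≥ c+1`. -/
def S_EXT : Prop := S_STR → ∀ (R : Type) [CommRing R] (N : ℕ) (q : R) (x : Fin N → R) (n c : ℕ)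
  (i j : Fin N), n ≤ 2 * c + 1 →
  bt q x n c i j = (1 + q ^ (2 * c + 1 - n)) * Sn q x n i j -
    (if c + 1 ≤ n then q ^ (2 * c + 1 - n) * bt q x n (n - 1 - c) i j else 0)

/-! ## Part C: cones -/

/-- TASK CM. Closure induction; `S_Cmul` (module Cmul: `t_Cmul t_PUmul`) for the generators of
`SC`; for the generators of `C2` use the first part, `iot_smul`, `LL_smul`, `dpl_smul` and
`S_Msmul`. Third part: closure induction and additivity. -/
def S_CM : Prop := ∀ (N n d n' d' : ℕ) (u : AN N), u ∈ Cone N n' d' →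
  (∀ f ∈ SC N n d, (fun i j => u * f i j) ∈ SC N (n' + n) (d' + d)) ∧
  (∀ F ∈ C2 N n d, (fun i j => u * F i j) ∈ C2 N (n' + n) (d' + d))

/-- TASK CG (elements of the cones). `C p * es c` with `p ∈ PU d` is in `Cone N c d` (generator
with the multiset `{c}`), `C p ∈ Cone N 0 d`, `MCone` similarly (`E_{c+1} = eh c`), and with `u` as
in the generators of `SC`. The last statement: `Sn n = ∑_c q^c e_c C_{n-c}`, `q^c ∈ PU (2 c)`. -/
def S_CG : Prop := ∀ (N : ℕ) (d : ℕ) (p : PX), p ∈ PU d → ∀ c : ℕ,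
  (MvPolynomial.C p * es (xx N) c ∈ Cone N c d) ∧
  (∀ n : ℕ, 1 ≤ n → (fun j => MvPolynomial.C p * es (xx N) c * eH (qq N) (xx N) n j) ∈
    MCone N (c + n) (d + n - 1)) ∧
  (∀ n : ℕ, 2 ≤ n → (fun i j => MvPolynomial.C p * es (xx N) c * Cn (qq N) (xx N) n i j) ∈
    SC N (c + n) (d + 2 * n - 3)) ∧
  (∀ n a : ℕ, 1 ≤ a → 2 * a + 2 ≤ n →
    (fun i j => MvPolynomial.C p * es (xx N) c * bt (qq N) (xx N) n a i j) ∈
      SC N (c + n) (d + 2 * a + n - 2)) ∧
  (∀ n : ℕ, 2 ≤ n → (fun i j => MvPolynomial.C p * es (xx N) c * Sn (qq N) (xx N) n i j) ∈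
    SC N (c + n) (d + 2 * n - 3))

/-- TASK CL. Closure induction over the generators `F` of `C2` (`LL` is additive, `LL_add`):
`F = iot f`: then `LL F` is a generator. `F = dpl G`: by closure induction for `G = u E_n`
(`dpl_smul`, `LL_smul`), `S_A4` and `S_CG`, `S_CM`: `LL (dpl E_n)` is `iot` of an element of `SC`.
`F = LL (iot f)`: closure induction for `f`; `f = u bt(n,a)`: by `S_A5a`, `LL (iot bt) = bn + dpl
(...)`, so `LL LL (iot bt) = LL bn + LL dpl (...)`, `LL bn = iot bt(n+2,a+1) + dpl (...)` (`S_A5b`)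
and `LL dpl (...)` as above; `f = u C_n`: `LL (iot C_n) = iot C_{n+1} + q [n-2] dpl E_n` (`S_A3`).
Check the degrees: `X^i [k] ∈ PU (2 i + k - 1)` for `k ≥ 1` (and it is zero for `k = 0`); the
coefficient of `dpl (e_i E_{n-i})` has degree `2 a + i` in A5a, etc. -/
def S_CL : Prop := S_CM → S_CG → S_OS → S_A3 → S_A4 → S_A5a → S_A5b →
  ∀ (N n d : ℕ) (F : Fin N → Fin N → AN N), F ∈ C2 N n d →
  LL (qq N) (xx N) F ∈ C2 N (n + 1) (d + 2)

/-- TASK SG. Closure induction. `sg (iot f) = (1 + q) f` for `f` supported on `i < j` (all elements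
of `SC` are; prove this first by closure induction). `sg (LL (iot f))`: by `S_A5a` and `S_A7` for
`f = bt(n,a)`: `bt(n+1,a+1) + q bt(n+1,a) + ∑ (...) bt(c+1,1)`; for `n = 2 a + 2` use
`bt(2a+3,a+1) = Sn(2a+3)` (`S_EXT` with `n = 2 c + 1`: `2 bt = 2 Sn`; better directly from `S_STR`:
for `n = 2 c + 1` the coefficient is `q^{r-1}` for all `r`); `bt(3,1) = Sn 3`,
`bt(2,1) = (1+q) C_2` (`S_EXT` with `n = 2`, `c = 1`). For `f = C_n` use `S_A3`. `sg (dpl E_c) =
bt(c+1,1)` (`S_A7`). -/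
def S_SG : Prop := S_CM → S_CG → S_OS → S_A3 → S_A5a → S_A7 → S_STR → S_EXT →
  ∀ (N n d : ℕ) (F : Fin N → Fin N → AN N), F ∈ C2 N n d → sg F ∈ SC N n (d + 1)

/-- TASK CD. Closure induction: `dmi (iot bt)` is `S_A1`, `dmi (iot C_n)` is `S_A2`,
`dmi (LL (iot bt))` is `dmi bn + dmi (dpl ...)` (`S_A5a`, `S_A6`, `S_A8`), `dmi (LL (iot C_n))`:
`S_A3`, `S_A2`, `S_A8`; `dmi (dpl E_n)`: `S_A8`. Elements of the cones with `S_CG` and `S_Msmul`. -/
def S_CD : Prop := S_CG → S_OS → S_A1 → S_A2 → S_A3 → S_A5a → S_A6 → S_A8 →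
  ∀ (N n d : ℕ) (F : Fin N → Fin N → AN N), F ∈ C2 N n d → dmi F ∈ MCone N n d

/-- (no task; this is the result of the parts CB2, CB3, CB4) -/
def S_UC : Prop := ∀ (N n d l : ℕ) (f : Fin N → Fin N → AN N), f ∈ SC N n d →
  UU (qq N) (xx N) l f ∈ SC N (n + l + 2) (d + 4 * l + 4)

/-- (no task; this is the result of the parts CB2, CB3, CB4) -/
def S_CW : Prop := ∀ (N l c : ℕ),
  Wo (qq N) (xx N) l (eh (qq N) (xx N) c) ∈ SC N (c + l + 3) (c + 3 * l + 3)

/-- no induced `K_5` minus an edge in the interval `[a,b]` -/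
def K5 (m : ℕ → ℕ) (a b : ℕ) : Prop := ∀ u v w y z : ℕ, a ≤ u → u < v → v < w → w < y → y < z →
  z ≤ b → ¬ (y ≤ m u ∧ z ≤ m v ∧ m u < z)

/-- TASK BLK (a block without induced `K_5` minus an edge). If `b ≤ m a` the interval is a clique:
`S_KM` (module KM, hypothesis). Otherwise `r = m a`, `a + 2 ≤ r < b`. (`K5` means: for
`a ≤ i < b`, `m i ≤ i + 2` or `min (m i) b = min (m (i+1)) b`: take `u, v, w, y = i, i+1, i+2, i+3`,
`z = m i + 1`.)
Claim: if `a < p`, `p + 1 ≤ b` and `min (m (p-1)) b = p + 1` and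
`TT2 (Icc a (p+1)) a p (eh c) ∈ C2 N (c + (p + 2 - a)) (c + eE m (Icc a (p+1)))`, then the theorem
holds. Induction on `b - (p + 1)`: if `b = p + 1`, use `S_GE` and `S_CD`. Otherwise let
`r = min (m p) b ≥ p + 2`. If `r = p + 2`: `S_GL`, `S_CL`, `S_GN`, next `p + 1`. If
`r = p + l + 3`: `K5` gives `min (m i) b = r` for `p ≤ i ≤ r - 2`; `S_GU`, `S_SG`, `S_UC`, `S_GN`,
next `p' = r - 1 = p + l + 2`; `qf q l ∈ PU (l (l-1) / 2)` (as in the file ../KM.lean).
Start: `r = m a = a + l + 2`, `K5` gives `min (m i) b = r` for `a ≤ i ≤ r - 2`, so `p = r - 1`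
with `S_GS` and `S_CW`. -/
def S_BLK : Prop := S_GS → S_GL → S_GU → S_GE → S_GN → S_CM → S_CL → S_SG → S_CD → S_UC →
  S_CW → S_KM → ∀ (N : ℕ) (m : ℕ → ℕ), Monotone m → ∀ (a b : ℕ), a < b →
  (∀ i, a ≤ i → i < b → i + 1 ≤ m i) → (∀ i, a ≤ i → i + 2 ≤ b → i + 2 ≤ m i) → K5 m a b →
  ∀ c : ℕ, TT m (qq N) (xx N) (Icc a b) a b (eh (qq N) (xx N) c) ∈
    MCone N (c + (Icc a b).card) (c + eE m (Icc a b))

end Pool.Agent.SWD
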