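import Pool.Agent.Lib.MP_263316_co.AB.Asm7
import Pool.Agent.Lib.MP_263316_co.CB.Spec

/-!
MP_263316_co, part CB: intervals, main theorem (helper91; after AB/Asm7.lean)
-/

set_option autoImplicit false

namespace Pool.Agent.SWD

open Finset Pool.Agent.SWC Pool.Agent.SWB Pool.Agent.SWB.Asm MvPolynomial

/-- the condition for the blocks -/
def BlockCond3 (m : ℕ → ℕ) (a b : ℕ) : Prop :=
  ∀ a' b' : ℕ, a ≤ a' → a' < b' → b' ≤ b → (∀ i, a' ≤ i → i + 2 ≤ b' → i + 2 ≤ m i) →
    (∀ u v w, a' ≤ u → u < v → v < w → w ≤ b' → ¬ (m u < v ∧ m v < w)) ∨ K5 m a' b'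

/-- the block lemma (conclusion of `S_BLK`) -/
def BLKc : Prop := ∀ (N : ℕ) (m : ℕ → ℕ), Monotone m → ∀ (a b : ℕ), a < b →
  (∀ i, a ≤ i → i < b → i + 1 ≤ m i) → (∀ i, a ≤ i → i + 2 ≤ b → i + 2 ≤ m i) → K5 m a b →
  ∀ c : ℕ, TT m (qq N) (xx N) (Icc a b) a b (eh (qq N) (xx N) c) ∈
    MCone N (c + (Icc a b).card) (c + eE m (Icc a b))

open MainAux in
theorem main3 (H : HypT) (P : HypP) (B : HypB) (hBLK : BLKc) (hMlin : S_Mlin) (N : ℕ)
    (m : ℕ → ℕ) (hm : Monotone m) :
    ∀ (l a : ℕ), BlockCond3 m a (a + l) → ∀ c : ℕ,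
    TT m (qq N) (xx N) (Icc a (a + l)) a (a + l) (eh (qq N) (xx N) c) ∈
      MCone N (c + (Icc a (a + l)).card) (c + eE m (Icc a (a + l))) := by
  intro l
  induction l using Nat.strong_induction_on with
  | _ l ih =>
    intro a hbc c
    have ih' : ∀ a' b' : ℕ, a ≤ a' → a' ≤ b' → b' ≤ a + l → b' - a' < l → ∀ c : ℕ,
        TT m (qq N) (xx N) (Icc a' b') a' b' (eh (qq N) (xx N) c) ∈
          MCone N (c + (Icc a' b').card) (c + eE m (Icc a' b')) := by
      intro a' b' h1 h2 h3 h4 c
      have := ih (b' - a') h4 a' (by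
        rw [Nat.add_sub_cancel' h2]
        intro a'' b'' k1 k2 k3 k4
        exact hbc a'' b'' (by omega) k2 (by omega) k4) c
      rwa [Nat.add_sub_cancel' h2] at this
    rcases Nat.eq_zero_or_pos l with h0 | hpos
    · subst h0
      rw [Nat.add_zero, Icc_self, TT_single, eE_single, card_singleton, Nat.add_zero]
      exact eh_mem N c
    · by_cases hdis : ∃ i, a ≤ i ∧ i < a + l ∧ m i < i + 1
      · -- disconnected
        obtain ⟨i, hi1, hi2, hi3⟩ := hdis
        have hU : Icc a (a + l) = Icc a i ∪ Icc (i + 1) (a + l) := by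
          ext u; simp only [mem_union, mem_Icc]; omega
        have hno : ∀ u ∈ Icc a i, ∀ v ∈ Icc (i + 1) (a + l), u < v ∧ m u < v := by
          intro u hu v hv
          rw [mem_Icc] at hu hv
          have := hm hu.2
          omega
        have h1 := P.msum N _ _ _ (ih' a i (le_refl _) hi1 (by omega) (by omega) c)
        have h2 := ih' (i + 1) (a + l) (by omega) (by omega) (le_refl _) (by omega) 0
        rw [Nat.zero_add, Nat.zero_add, ← FF_eq] at h2
        have h3 := P.msmul N _ _ _ _ _ _ h1 h2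
        have hd : Disjoint (Icc a i) (Icc (i + 1) (a + l)) := by
          rw [disjoint_left]
          intro u hu hv
          exact lt_irrefl _ (hno u hu u hv).1
        have hTT : TT m (qq N) (xx N) (Icc a (a + l)) a (a + l) (eh (qq N) (xx N) c) = fun j =>
            (∑ k, TT m (qq N) (xx N) (Icc a i) a i (eh (qq N) (xx N) c) k) *
              FF m (qq N) (xx N) (Icc (i + 1) (a + l)) (a + l) j := by
          funext j
          rw [hU]
          exact H.dis (AN N) N m (qq N) (xx N) _ _ a i (a + l) (mem_Icc.mpr (by omega))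
            (mem_Icc.mpr (by omega)) (mem_Icc.mpr (by omega)) hno _ j
        rw [hTT, hU, card_union_of_disjoint hd, eE_union m _ _ hno, ← Nat.add_assoc,
          ← Nat.add_assoc]
        exact h3
      · by_cases hcut : ∃ v, a < v ∧ v < a + l ∧ m (v - 1) < v + 1
        · -- cut vertex
          obtain ⟨v, hv1, hv2, hv3⟩ := hcut
          have hv : v ∈ Icc a (a + l) := mem_Icc.mpr (by omega)
          have hc : ∀ x ∈ Icc a (a + l), ∀ y ∈ Icc a (a + l), x < v → v < y → m x < y := by
            intro x _ y _ h1 h2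
            have := hm (show x ≤ v - 1 by omega)
            omega
          obtain ⟨hE, hcard⟩ := eE_cut m (Icc a (a + l)) v hv hc
          have e1 : (Icc a (a + l)).filter (fun u => u ≤ v) = Icc a v := by
            ext u; simp only [mem_filter, mem_Icc]; omega
          have e2 : (Icc a (a + l)).filter (fun u => v ≤ u) = Icc v (a + l) := by
            ext u; simp only [mem_filter, mem_Icc]; omega
          have hT := H.cut (AN N) N m (qq N) (xx N) (Icc a (a + l)) a v (a + l)
            (mem_Icc.mpr (by omega)) hv (mem_Icc.mpr (by omega)) (by omega) (by omega) hc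
            (eh (qq N) (xx N) c)
          rw [e1, e2] at hT hE hcard
          have h1 := ih' a v (le_refl _) (by omega) (by omega) (by omega) c
          have h2 := ih' v (a + l) (by omega) (by omega) (le_refl _) (by omega)
          have hvH : v ∈ Icc v (a + l) := mem_Icc.mpr (by omega)
          obtain ⟨l1, hl1⟩ : ∃ l1, (Icc a v).card = l1 + 1 :=
            Nat.exists_eq_succ_of_ne_zero
              (card_ne_zero_of_mem (show a ∈ Icc a v from mem_Icc.mpr (by omega)))
          rw [hl1] at h1 hcard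
          have h3 := hMlin N (c + l1) (c + eE m (Icc a v))
            (Icc v (a + l)).card (eE m (Icc v (a + l)))
            (TT m (qq N) (xx N) (Icc v (a + l)) v (a + l))
            (fun f g => TT_add m (qq N) (xx N) _ v (a + l) hvH f g)
            (fun u f => TT_mul m (qq N) (xx N) _ v (a + l) hvH u f) h2 _ h1
          rw [hT, hE]
          rw [show c + (Icc a (a + l)).card = c + l1 + (Icc v (a + l)).card by omega,
            ← Nat.add_assoc]
          exact h3
        · -- one block
          have hcon : ∀ i, a ≤ i → i < a + l → i + 1 ≤ m i := by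
            intro i h1 h2
            by_contra h3
            exact hdis ⟨i, h1, h2, by omega⟩
          have hcon2 : ∀ i, a ≤ i → i + 2 ≤ a + l → i + 2 ≤ m i := by
            intro i h1 h2
            by_contra h3
            exact hcut ⟨i + 1, by omega, by omega, by rw [Nat.add_sub_cancel]; omega⟩
          rcases hbc a (a + l) (le_refl _) (by omega) (le_refl _) hcon2 with hind | hcl
          · exact interval H P B N c a (a + l) m hm (by omega) hcon hind
          · exact hBLK N m hm a (a + l) (by omega) hcon hcon2 hcl c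


/-- The final theorem: frozen statement S07725 for the natural unit interval graphs in which every
interval `[a,b]` of vertices with `i` and `i + 2` adjacent for `a ≤ i ≤ b - 2` (such an interval is
contained in a block) has no three pairwise nonadjacent vertices or no induced `K_5` minus an
edge. -/
def S_FINAL3 : Prop := ∀ (n : ℕ) (h : Fin n → Fin n), Monotone h → (∀ i, i ≤ h i) →
    (∀ a b : Fin n, a < b → (∀ i k : Fin n, a ≤ i → (k : ℕ) = i + 2 → k ≤ b → k ≤ h i) →
      (∀ u v w : Fin n, a ≤ u → u < v → v < w → w ≤ b → ¬ (h u < v ∧ h v < w)) ∨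
      (∀ u v w y z : Fin n, a ≤ u → u < v → v < w → w < y → y < z → z ≤ b →
        ¬ (y ≤ h u ∧ z ≤ h v ∧ h u < z))) →
    ∀ E : ℕ, E = (Finset.univ.filter (fun p : Fin n × Fin n => p.1 < p.2 ∧ p.2 ≤ h p.1)).card →
    ∃ a : Nat.Partition n → Polynomial ℤ,
      ((∑ κ ∈ (Finset.univ.filter
            (fun κ : Fin n → Fin n => ∀ i j : Fin n, i < j → j ≤ h i → κ i ≠ κ j)),
          MvPolynomial.C (Polynomial.X ^ ((Finset.univ.filter
            (fun p : Fin n × Fin n => p.1 < p.2 ∧ p.2 ≤ h p.1 ∧ κ p.1 < κ p.2)).card))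
            * ∏ i : Fin n, MvPolynomial.X (κ i) : MvPolynomial (Fin n) (Polynomial ℤ))
        = ∑ μ : Nat.Partition n, MvPolynomial.C (a μ) *
            (μ.parts.map (fun k => MvPolynomial.esymm (Fin n) (Polynomial ℤ) k)).prod)
      ∧ ∀ μ : Nat.Partition n,
          (∀ i : ℕ, 0 ≤ (a μ).coeff i)
          ∧ (∀ i : ℕ, E < i → (a μ).coeff i = 0)
          ∧ (∀ i : ℕ, i ≤ E → (a μ).coeff i = (a μ).coeff (E - i))
          ∧ (∀ i j : ℕ, i ≤ j → 2 * j ≤ E → (a μ).coeff i ≤ (a μ).coeff j)

open FinAux MainAux in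
theorem final3 (H : HypT) (P : HypP) (B : HypB) (hBLK : BLKc) (hMlin : S_Mlin)
    (hCpart : S_Cpart) (hPU : S_PUcoeff) (hFUN : S_FUN) : S_FINAL3 := by
  intro n h hm _ hg E hE
  have hX : XX (mh h) (qq n) (xx n) (range n) ∈ Cone n n E := by
    rcases Nat.eq_zero_or_pos n with h0 | hpos
    · subst h0
      have h1 : XX (mh h) (qq 0) (xx 0) (range 0) = 1 := by simp [XX]
      have h2 : E = 0 := by rw [hE]; simp
      rw [h1, h2]
      exact one_mem 0
    · obtain ⟨l, rfl⟩ : ∃ l, n = l + 1 := ⟨n - 1, by omega⟩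
      have hbc : BlockCond3 (mh h) 0 (0 + l) := by
        intro a b _ hab hb hcon
        have hbn : b < l + 1 := by omega
        have key := hg ⟨a, by omega⟩ ⟨b, hbn⟩ hab (by
          intro i k h1 h2 h3
          have h4 := hcon i h1 (by rw [← h2]; exact h3)
          rw [mh_fin] at h4
          show (k : ℕ) ≤ (h i : ℕ)
          omega)
        rcases key with key | key
        · left
          intro u v w h1 h2 h3 h4 h5
          have hw : w < l + 1 := by omega
          have hv : v < l + 1 := by omega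
          have hu : u < l + 1 := by omega
          have e1 : mh h u = (h ⟨u, hu⟩ : ℕ) := mh_fin h ⟨u, hu⟩
          have e2 : mh h v = (h ⟨v, hv⟩ : ℕ) := mh_fin h ⟨v, hv⟩
          rw [e1, e2] at h5
          exact key ⟨u, hu⟩ ⟨v, hv⟩ ⟨w, hw⟩ h1 h2 h3 h4 h5
        · right
          intro u v w y z h1 h2 h3 h4 h5 h6 h7
          have hz : z < l + 1 := by omega
          have hy : y < l + 1 := by omega
          have hw : w < l + 1 := by omega
          have hv : v < l + 1 := by omega
          have hu : u < l + 1 := by omega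
          have e1 : mh h u = (h ⟨u, hu⟩ : ℕ) := mh_fin h ⟨u, hu⟩
          have e2 : mh h v = (h ⟨v, hv⟩ : ℕ) := mh_fin h ⟨v, hv⟩
          rw [e1, e2] at h7
          exact key ⟨u, hu⟩ ⟨v, hv⟩ ⟨w, hw⟩ ⟨y, hy⟩ ⟨z, hz⟩ h1 h2 h3 h4 h5 h6 h7
      have h1 := main3 H P B hBLK hMlin (l + 1) (mh h) (mh_mono h hm) l 0 hbc 0
      have hU : Icc 0 (0 + l) = range (l + 1) := by
        ext u; simp only [mem_Icc, mem_range]; omega
      rw [hU, ← FF_eq, Nat.zero_add, Nat.zero_add, Finset.card_range, eE_mh, ← hE] at h1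
      have h2 := P.msum (l + 1) (l + 1) E _ h1
      rw [sum_FF (mh h) (qq (l + 1)) (xx (l + 1)) (range (l + 1)) (0 + l)
        (mem_range.mpr (by omega))] at h2
      exact h2
  obtain ⟨a, ha, hpu⟩ := hCpart n n E _ hX
  exact ⟨a, (sum_eq h hFUN).trans ha, fun μ => hPU E (a μ) (hpu μ)⟩

end Pool.Agent.SWD
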