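import Pool.Agent.Lib.MP_263316_co.CB.SpecD

/-!
# MP_263316_co, CB/OM1: the sums `Om` for `p < a`
-/

set_option autoImplicit false

namespace Pool.Agent.SWD

open Finset Pool.Agent.SWC Pool.Agent.SWB

section
variable {F : Type} [Field F] {h : F}

/-- The value of `Kf` for `p < a` in the coordinates `y`, `δ`. -/
private theorem OM1_Kf (h : F) {a b l p c δ y : ℤ} (hpa : p < a) (hab : a + 2 ≤ b) (hδ : δ = a - p)
    (hy : c = δ + l + 2 - y) :
    Kf h a b l p c = syp h (δ - (a - l - 2) - y) * syp h y + syp h (y - δ) * sy h (a - l - 2 + y) := by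
  unfold Kf
  rw [if_pos hpa.le, if_neg (show ¬ b ≤ p by omega), add_zero]
  have e1 : c - a = δ - (a - l - 2) - y := by omega
  have e2 : l + 2 + a - p - c = y := by omega
  have e3 : l + 2 - c = y - δ := by omega
  have e4 : 2 * a - c - p = a - l - 2 + y := by omega
  rw [e1, e2, e3, e4]

private theorem OM1_neg (h : F) {a b l p c δ y : ℤ} (hpa : p < a) (hab : a + 2 ≤ b)
    (hδ : δ = a - p) (hy : c = δ + l + 2 - y) (hy0 : y ≤ 0) : Kf h a b l p c = 0 := by
  rw [OM1_Kf h hpa hab hδ hy]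
  unfold syp
  rw [if_neg (show ¬ 0 < y by omega), if_neg (show ¬ 0 < y - δ by omega)]
  ring

private theorem OM1_pos (hSY : S_SY) (h0 : h ≠ 0) (h1 : h ^ 2 ≠ 1) {a b l p c δ y : ℤ}
    (hpa : p < a) (hab : a + 2 ≤ b) (hδ : δ = a - p) (hy : c = δ + l + 2 - y) (hy0 : 1 ≤ y)
    (hy2 : 2 * y ≤ δ - (b - l - 3)) :
    Kf h a b l p c = sy h (min y δ) * sy h (δ - (a - l - 2) - min y δ) := by
  obtain ⟨-, -, hneg, -, -, hid, -⟩ := hSY F h h0 h1
  rw [OM1_Kf h hpa hab hδ hy]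
  unfold syp
  rw [if_pos (show 0 < y by omega), if_pos (show 0 < δ - (a - l - 2) - y by omega)]
  rcases le_or_gt y δ with h2 | h2
  · rw [if_neg (show ¬ 0 < y - δ by omega), min_eq_left h2]
    ring
  · rw [if_pos (show 0 < y - δ by omega), min_eq_right h2.le]
    have h3 := hid y (δ - (a - l - 2) - y) δ
    have e1 : δ - (a - l - 2) - y - δ = -(a - l - 2 + y) := by ring
    have e2 : y + (δ - (a - l - 2) - y) - δ = δ - (a - l - 2) - δ := by ring
    rw [e1, e2, hneg] at h3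
    rw [← h3]
    ring

end

theorem t_OM1 : S_OM1 := by
  intro hSY hPHI F _ h h0 h1 a b l p ha hab hpa
  obtain ⟨δ, rfl⟩ : ∃ δ : ℕ, a = p + δ := ⟨a - p, by omega⟩
  have hδ1 : 1 ≤ δ := by omega
  have hδ : (δ : ℤ) = ((p + δ : ℕ) : ℤ) - p := by push_cast; ring
  have hpa' : (p : ℤ) < ((p + δ : ℕ) : ℤ) := by exact_mod_cast hpa
  have hab' : ((p + δ : ℕ) : ℤ) + 2 ≤ b := by exact_mod_cast hab
  have hphi := hPHI hSY F h h0 h1 δ (δ + l + 1) (((p + δ : ℕ) : ℤ) - l - 2) ((b : ℤ) - l - 3)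
    (by push_cast; omega)
  rw [← hδ, ← hphi]
  unfold Om
  have hsub : Icc 1 (δ + l + 1) ⊆ Icc 1 (l + (p + δ) + 1) := by
    intro c hc
    rw [Finset.mem_Icc] at hc ⊢
    omega
  rw [← Finset.sum_subset hsub]
  · refine Finset.sum_nbij' (fun c => δ + l + 2 - c) (fun y => δ + l + 2 - y) ?_ ?_ ?_ ?_ ?_
    · intro c hc
      rw [Finset.mem_Icc] at hc ⊢
      omega
    · intro c hc
      rw [Finset.mem_Icc] at hc ⊢
      omega
    · intro c hc
      rw [Finset.mem_Icc] at hc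
      omega
    · intro c hc
      rw [Finset.mem_Icc] at hc
      omega
    · intro c hc
      rw [Finset.mem_Icc] at hc
      obtain ⟨y, hy⟩ : ∃ y : ℕ, y = δ + l + 2 - c := ⟨_, rfl⟩
      have hyz : (c : ℤ) = δ + l + 2 - y := by omega
      rw [← hy]
      have e1 : 2 * (c : ℤ) + 1 - (((p + δ : ℕ) : ℤ) + b + l + 2 - p) =
          δ - ((b : ℤ) - l - 3) - 2 * y := by
        push_cast
        omega
      rw [e1]
      by_cases h3 : (δ : ℤ) - ((b : ℤ) - l - 3) - 2 * y < 0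
      · have h4 : ps h ((δ : ℤ) - ((b : ℤ) - l - 3) - 2 * y) = 0 := by
          unfold ps
          rw [if_pos h3]
        rw [h4, zero_mul, zero_mul]
      · rw [OM1_pos hSY h0 h1 hpa' hab' hδ hyz (by omega) (by omega)]
        rw [Nat.cast_min]
  · intro c hc hc'
    rw [Finset.mem_Icc] at hc hc'
    have h3 : Kf h ((p + δ : ℕ) : ℤ) b l p c = 0 :=
      OM1_neg h hpa' hab' hδ (y := δ + l + 2 - c) (by ring) (by omega)
    rw [h3, mul_zero]

end Pool.Agent.SWD
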