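import Pool.Agent.Lib.MP_263316_co.CB.SpecD

/-!
# MP_263316_co, CB/OM3: the sums `Om` for `b ≤ p`
-/

set_option autoImplicit false

namespace Pool.Agent.SWD

open Finset Pool.Agent.SWC Pool.Agent.SWB

section
variable {F : Type} [Field F] {h : F}

/-- The first two terms of `Kf` do not contribute for `a ≤ p`. -/
private theorem OM3_first (hSY : S_SY) (h0 : h ≠ 0) (h1 : h ^ 2 ≠ 1) {a b l p c : ℤ}
    (hab : a + 2 ≤ b) (hap : a ≤ p) :
    ps h (2 * c + 1 - (a + b + l + 2 - p)) *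
      (syp h (c - a) * syp h (l + 2 + a - p - c) +
        (if p ≤ a then syp h (l + 2 - c) * sy h (2 * a - c - p)
          else syp h (l + 2 + a - c - p) * sy h (a - c))) = 0 := by
  obtain ⟨hz, -, hneg, -⟩ := hSY F h h0 h1
  have e1 : (if p ≤ a then syp h (l + 2 - c) * sy h (2 * a - c - p)
      else syp h (l + 2 + a - c - p) * sy h (a - c)) =
      syp h (l + 2 + a - p - c) * sy h (a - c) := by
    split_ifs with h2
    · have e2 : l + 2 - c = l + 2 + a - p - c := by omega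
      have e3 : 2 * a - c - p = a - c := by omega
      rw [e2, e3]
    · have e2 : l + 2 + a - c - p = l + 2 + a - p - c := by ring
      rw [e2]
  rw [e1]
  rcases lt_trichotomy c a with h3 | h3 | h3
  · by_cases h4 : 0 < l + 2 + a - p - c
    · have h5 : ps h (2 * c + 1 - (a + b + l + 2 - p)) = 0 := by
        unfold ps
        rw [if_pos (show 2 * c + 1 - (a + b + l + 2 - p) < 0 by omega)]
      rw [h5, zero_mul]
    · have h5 : syp h (l + 2 + a - p - c) = 0 := by
        unfold syp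
        rw [if_neg h4]
      rw [h5]
      ring
  · subst h3
    have h5 : syp h (c - c) = 0 := by
      unfold syp
      rw [if_neg (show ¬ 0 < c - c by omega)]
    rw [h5, sub_self, hz]
    ring
  · have h5 : syp h (c - a) = - sy h (a - c) := by
      unfold syp
      rw [if_pos (show 0 < c - a by omega), ← hneg]
      congr 1
      ring
    rw [h5]
    ring

/-- The third term of `Kf` in the coordinates `y`, `δ`. -/
private theorem OM3_third (hSY : S_SY) (h0 : h ≠ 0) (h1 : h ^ 2 ≠ 1) {b l p c δ y : ℤ}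
    (hδ : δ = p - b + 1) (hy : c = l + 2 - y) (hy0 : 1 ≤ y) :
    (if p - b ≤ l + 1 - c then sy h (p - b + 1) * sy h (b - l - 3)
      else syp h (l + 2 - c) * sy h (2 * b - 2 - c - p)) =
    -(sy h (min y δ) * sy h (δ - (b - l - 3) - min y δ)) := by
  obtain ⟨-, -, hneg, -⟩ := hSY F h h0 h1
  split_ifs with h2
  · rw [min_eq_right (show δ ≤ y by omega)]
    have e1 : δ - (b - l - 3) - δ = -(b - l - 3) := by ring
    rw [e1, hneg, ← hδ]
    ring
  · rw [min_eq_left (show y ≤ δ by omega)]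
    have e1 : 2 * b - 2 - c - p = -(δ - (b - l - 3) - y) := by omega
    have e2 : l + 2 - c = y := by omega
    rw [e1, e2, hneg]
    unfold syp
    rw [if_pos (show 0 < y by omega)]
    ring

end

theorem t_OM3 : S_OM3 := by
  intro hSY hPHI F _ h h0 h1 a b l p ha hab hbp hpl
  obtain ⟨δ, hd⟩ : ∃ δ : ℕ, p = b + δ := ⟨p - b, by omega⟩
  have hδ : ((δ + 1 : ℕ) : ℤ) = (p : ℤ) - b + 1 := by
    rw [hd]
    push_cast
    ring
  have hab' : (a : ℤ) + 2 ≤ b := by exact_mod_cast hab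
  have hap' : (a : ℤ) ≤ p := by omega
  have hphi := hPHI hSY F h h0 h1 (δ + 1) (l + 2) ((b : ℤ) - l - 3) ((a : ℤ) - l - 2)
    (by rw [hδ]; push_cast; omega)
  rw [← hδ, ← hphi]
  rw [Finset.sum_Icc_succ_top (show 1 ≤ l + 1 + 1 by omega)]
  have hlast : ps h (((δ + 1 : ℕ) : ℤ) - ((a : ℤ) - l - 2) - 2 * ((l + 1 + 1 : ℕ) : ℤ)) = 0 := by
    unfold ps
    rw [if_pos (by rw [hδ]; push_cast; omega)]
  rw [hlast, zero_mul, add_zero, ← Finset.sum_neg_distrib]
  unfold Om
  have hterm : ∀ c : ℕ, ps h (2 * (c : ℤ) + 1 - ((a : ℤ) + b + l + 2 - p)) * Kf h a b l p c =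
      ps h (2 * (c : ℤ) + 1 - ((a : ℤ) + b + l + 2 - p)) *
        (if (p : ℤ) - b ≤ l + 1 - c then sy h ((p : ℤ) - b + 1) * sy h ((b : ℤ) - l - 3)
          else syp h ((l : ℤ) + 2 - c) * sy h (2 * (b : ℤ) - 2 - c - p)) := by
    intro c
    unfold Kf
    rw [if_pos (show (b : ℤ) ≤ p by exact_mod_cast hbp), mul_add,
      OM3_first hSY h0 h1 hab' hap', zero_add]
  rw [Finset.sum_congr rfl fun c _ => hterm c]
  have hsub : Icc 1 (l + 1) ⊆ Icc 1 (l + a + 1) := by
    intro c hc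
    rw [Finset.mem_Icc] at hc ⊢
    omega
  rw [← Finset.sum_subset hsub]
  · refine Finset.sum_nbij' (fun c => l + 2 - c) (fun y => l + 2 - y) ?_ ?_ ?_ ?_ ?_
    · intro c hc
      rw [Finset.mem_Icc] at hc ⊢
      omega
    · intro c hc
      rw [Finset.mem_Icc] at hc ⊢
      omega
    · intro c hc
      rw [Finset.mem_Icc] at hc
      omega
    · intro c hc
      rw [Finset.mem_Icc] at hc
      omega
    · intro c hc
      rw [Finset.mem_Icc] at hc
      obtain ⟨y, hy⟩ : ∃ y : ℕ, y = l + 2 - c := ⟨_, rfl⟩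
      have hyz : (c : ℤ) = l + 2 - y := by omega
      rw [← hy]
      have e1 : 2 * (c : ℤ) + 1 - ((a : ℤ) + b + l + 2 - p) =
          ((δ + 1 : ℕ) : ℤ) - ((a : ℤ) - l - 2) - 2 * y := by
        rw [hδ]
        omega
      rw [e1, OM3_third hSY h0 h1 hδ hyz (by omega), Nat.cast_min]
      ring
  · intro c hc hc'
    rw [Finset.mem_Icc] at hc hc'
    rw [if_neg (show ¬ (p : ℤ) - b ≤ l + 1 - c by omega)]
    have h3 : syp h ((l : ℤ) + 2 - c) = 0 := by
      unfold syp
      rw [if_neg (show ¬ 0 < (l : ℤ) + 2 - c by omega)]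
    rw [h3, zero_mul, mul_zero]

end Pool.Agent.SWD
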