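import Pool.Agent.Lib.MP_263316_co.CB.Spec

/-!
MP_263316_co, part CB: telescoping sums of marked elementary functions (TASK OS).
-/

set_option autoImplicit false

namespace Pool.Agent.SWD

open Finset Pool.Agent.SWC Pool.Agent.SWB

namespace OSAux

variable {R : Type} [CommRing R] {N : ℕ}

/-- the sum with threshold `t` -/
private def gt (q : R) (x : Fin N → R) (c t : ℕ) : R :=
  ∑ C ∈ powersetCard c univ, ∏ k ∈ C, (if k.val < t then q * x k else x k)

private theorem split (w : Fin N → R) (c : ℕ) (j : Fin N) :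
    ∑ C ∈ powersetCard (c + 1) univ, ∏ k ∈ C, w k =
      ∑ C ∈ powersetCard (c + 1) (univ.erase j), ∏ k ∈ C, w k +
        w j * ∑ C ∈ powersetCard c (univ.erase j), ∏ k ∈ C, w k := by
  have hj : j ∉ (univ.erase j : Finset (Fin N)) := notMem_erase j univ
  have h1 : (univ : Finset (Fin N)) = insert j (univ.erase j) := (insert_erase (mem_univ j)).symm
  rw [h1, powersetCard_succ_insert hj, ← h1, sum_union, sum_image, mul_sum]
  · congr 1
    refine sum_congr rfl fun C hC => ?_
    rw [prod_insert]
    exact fun h => hj ((mem_powersetCard.1 hC).1 h)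
  · intro C hC D hD h
    have hC' : j ∉ C := fun h => hj ((mem_powersetCard.1 hC).1 h)
    have hD' : j ∉ D := fun h => hj ((mem_powersetCard.1 hD).1 h)
    have h2 : (insert j C).erase j = (insert j D).erase j := congrArg (fun s => s.erase j) h
    rwa [erase_insert hC', erase_insert hD'] at h2
  · rw [disjoint_left]
    intro C hC hC'
    rw [mem_image] at hC'
    obtain ⟨D, _, rfl⟩ := hC'
    exact hj ((mem_powersetCard.1 hC).1 (mem_insert_self j D))

private theorem congr_w (s : Finset (Fin N)) (w w' : Fin N → R) (c : ℕ)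
    (h : ∀ k ∈ s, w k = w' k) :
    ∑ C ∈ powersetCard c s, ∏ k ∈ C, w k = ∑ C ∈ powersetCard c s, ∏ k ∈ C, w' k :=
  sum_congr rfl fun _ hC => prod_congr rfl fun k hk => h k ((mem_powersetCard.1 hC).1 hk)

private theorem gt_zero (q : R) (x : Fin N → R) (c : ℕ) : gt q x c 0 = es x c := by
  unfold gt es
  exact congr_w _ _ _ _ fun k _ => if_neg (Nat.not_lt_zero _)

private theorem gt_top (q : R) (x : Fin N → R) (c : ℕ) : gt q x c N = q ^ c * es x c := by
  unfold gt es
  rw [mul_sum]
  refine sum_congr rfl fun C hC => ?_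
  rw [← (mem_powersetCard.1 hC).2, ← prod_const, ← prod_mul_distrib]
  exact prod_congr rfl fun k _ => if_pos k.isLt

private theorem gt_j (q : R) (x : Fin N → R) (c : ℕ) (j : Fin N) :
    gt q x c j.val = fh q x c j + eH q x c j := by
  rcases c with _ | c
  · rw [eH_zero, add_zero]
    unfold gt fh
    simp
  · rw [eH_eq]
    unfold gt fh
    rw [split _ c j, if_neg (lt_irrefl _)]
    simp only [Fin.lt_def]

private theorem gt_j1 (q : R) (x : Fin N → R) (c : ℕ) (j : Fin N) :
    gt q x c (j.val + 1) = fh q x c j + q * eH q x c j := by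
  have h : ∀ k ∈ (univ.erase j : Finset (Fin N)),
      (if k.val < j.val + 1 then q * x k else x k) = if k < j then q * x k else x k := by
    intro k hk
    have hk' : k.val ≠ j.val := fun h => ne_of_mem_erase hk (Fin.ext h)
    refine if_congr ?_ rfl rfl
    rw [Fin.lt_def]
    omega
  rcases c with _ | c
  · rw [eH_zero, mul_zero, add_zero]
    unfold gt fh
    simp
  · rw [eH_eq]
    unfold gt fh
    rw [split _ c j, if_pos (Nat.lt_succ_self _), congr_w _ _ _ _ h, congr_w _ _ _ _ h]
    ring

private theorem step (q : R) (x : Fin N → R) (c : ℕ) (i : Fin N) :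
    (1 - q) * eH q x c i = gt q x c i.val - gt q x c (i.val + 1) := by
  rw [gt_j, gt_j1]
  ring

private theorem tele_Ico (F : ℕ → R) (a b : ℕ) (hab : a ≤ b) :
    ∑ t ∈ Ico a b, (F t - F (t + 1)) = F a - F b := by
  induction b, hab using Nat.le_induction with
  | base => rw [Ico_self, sum_empty, sub_self]
  | succ b hb ih => rw [sum_Ico_succ_top hb, ih]; ring

private theorem tele (F : ℕ → R) (a b : ℕ) (hab : a ≤ b) (hb : b ≤ N) :
    ∑ i ∈ univ.filter (fun i : Fin N => a ≤ i.val ∧ i.val < b), (F i.val - F (i.val + 1)) =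
      F a - F b := by
  rw [← tele_Ico F a b hab, sum_filter,
    Fin.sum_univ_eq_sum_range (fun t => if a ≤ t ∧ t < b then F t - F (t + 1) else 0) N,
    ← sum_filter]
  refine sum_congr ?_ fun _ _ => rfl
  ext t
  rw [mem_filter, mem_range, mem_Ico]
  omega

private theorem main (q : R) (x : Fin N → R) (c a b : ℕ) (hab : a ≤ b) (hb : b ≤ N)
    (p : Fin N → Prop) [DecidablePred p] (hp : ∀ i, p i ↔ a ≤ i.val ∧ i.val < b) :
    (1 - q) * ∑ i ∈ univ.filter p, eH q x c i = gt q x c a - gt q x c b := by
  rw [mul_sum, ← tele (gt q x c) a b hab hb]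
  refine sum_congr ?_ fun i _ => step q x c i
  ext i
  rw [mem_filter, mem_filter, hp]

end OSAux

open OSAux in
theorem t_OS : S_OS := by
  intro R _ N q x c j
  refine ⟨?_, ?_, ?_⟩
  · rw [main q x c 0 j.val (Nat.zero_le _) j.isLt.le _ (fun i => by rw [Fin.lt_def]; omega),
      gt_zero, gt_j]
    ring
  · rw [main q x c (j.val + 1) N j.isLt le_rfl _
      (fun i => by rw [Fin.lt_def]; have := i.isLt; omega), gt_top, gt_j1]
  · intro k hjk
    rw [Fin.lt_def] at hjk
    rw [main q x c (j.val + 1) k.val hjk k.isLt.le _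
      (fun i => by rw [Fin.lt_def, Fin.lt_def]; omega), gt_j, gt_j1]
    ring

end Pool.Agent.SWD
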