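import Pool.Agent.Lib.MP_263316_co.CB.SpecD
import Pool.Agent.Lib.MP_263316_co.AB.PZm
import Pool.Agent.Lib.MP_263316_co.AB.PZp

/-!
MP_263316_co, part CB4, task PB: positivity, basic rules.
-/

set_option autoImplicit false

namespace Pool.Agent.SWD

open Finset Pool.Agent.SWC Pool.Agent.SWB

private theorem aeval_Q {F : Type} [Field F] (x : F) (k : ℕ) :
    Polynomial.aeval x (Q k) = qn x k := by
  unfold Q qn
  simp

private theorem pos_zero {F : Type} [Field F] (h : F) (z : ℤ) : Pos h z 0 :=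
  ⟨0, (PZ z).zero_mem, by rw [map_zero, mul_zero]⟩

theorem t_PB : S_PB := by
  intro hSY F _ h h0 h1
  obtain ⟨s0, -, -, sq, -⟩ := hSY F h h0 h1
  have hQ : ∀ k : ℕ, Polynomial.aeval (h ^ 2) (Q k) = h ^ ((k : ℤ) - 1) * sy h k := fun k => by
    rw [aeval_Q, sq]
  have hX : ∀ i : ℕ, Polynomial.aeval (h ^ 2) (qX ^ i : PX) = h ^ (2 * (i : ℤ)) := fun i => by
    rw [map_pow, Polynomial.aeval_X, ← pow_mul]
    exact_mod_cast (zpow_natCast h (2 * i)).symm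
  have hQm : ∀ k : ℕ, Q k ∈ PZ ((k : ℤ) - 1) := fun k => by
    have := PZ_gen (i := 0) (k := k) (z := (k : ℤ) - 1) (by push_cast; ring)
    rwa [pow_zero, one_mul] at this
  have h5 : ∀ z x y : ℤ, 0 ≤ x → 0 ≤ y → x + y ≤ z + 2 → Even (z - x - y) →
      Pos h z (sy h x * sy h y) := by
    intro z x y hx hy hz he
    obtain ⟨a, rfl⟩ := Int.eq_ofNat_of_zero_le hx
    obtain ⟨b, rfl⟩ := Int.eq_ofNat_of_zero_le hy
    obtain ⟨w, hw⟩ := he
    obtain ⟨i, hi⟩ := Int.eq_ofNat_of_zero_le (show 0 ≤ w + 1 by omega)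
    refine ⟨qX ^ i * (Q a * Q b), ?_, ?_⟩
    · have h2 := t_PZp.2.2 _ i _ (t_PZm _ _ _ _ (hQm a) (hQm b))
      have e : (a : ℤ) - 1 + ((b : ℤ) - 1) + 2 * i = z := by omega
      rwa [e] at h2
    · rw [map_mul, map_mul, hX, hQ, hQ]
      have e : z = 2 * (i : ℤ) + (((a : ℤ) - 1) + ((b : ℤ) - 1)) := by omega
      rw [e, zpow_add₀ h0, zpow_add₀ h0]
      ring
  refine ⟨pos_zero h, ?_, ?_, ?_, h5, ?_⟩
  · rintro z y y' ⟨p, hp, hp'⟩ ⟨r, hr, hr'⟩
    exact ⟨p + r, (PZ z).add_mem hp hr, by rw [map_add, hp', hr']; ring⟩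
  · rintro z z' y y' ⟨p, hp, hp'⟩ ⟨r, hr, hr'⟩
    refine ⟨p * r, t_PZm _ _ _ _ hp hr, ?_⟩
    rw [map_mul, hp', hr', zpow_add₀ h0]
    ring
  · intro z k hk hz he
    obtain ⟨a, rfl⟩ := Int.eq_ofNat_of_zero_le hk
    obtain ⟨w, hw⟩ := he
    obtain ⟨i, hi⟩ := Int.eq_ofNat_of_zero_le (show 0 ≤ w by omega)
    refine ⟨qX ^ i * Q a, PZ_gen (by omega), ?_⟩
    rw [map_mul, hX, hQ]
    have e : z = 2 * (i : ℤ) + ((a : ℤ) - 1) := by omega
    rw [e, zpow_add₀ h0]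
    ring
  · intro z x y hxy
    unfold syp
    by_cases hx : 0 < x
    · by_cases hy : 0 < y
      · rw [if_pos hx, if_pos hy]
        obtain ⟨hz, he⟩ := hxy hx hy
        exact h5 z x y hx.le hy.le hz he
      · rw [if_neg hy, mul_zero]
        exact pos_zero h z
    · rw [if_neg hx, zero_mul]
      exact pos_zero h z

end Pool.Agent.SWD
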