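import Pool.Agent.Lib.MP_263316_co.CB.SpecD

/-!
MP_263316_co, part CB4: positivity of the differences of the sums `Pn` (TASK PD).
-/

set_option autoImplicit false

namespace Pool.Agent.SWD

open Finset Pool.Agent.SWC Pool.Agent.SWB

private theorem PD_sum {F : Type} [Field F] {h : F} {z : ℤ} (p1 : Pos h z 0)
    (p2 : ∀ y y' : F, Pos h z y → Pos h z y' → Pos h z (y + y')) (N : ℕ) (f : ℕ → F)
    (hf : ∀ k < N, Pos h z (f k)) : Pos h z (∑ k ∈ range N, f k) := by
  induction N with
  | zero =>
    rw [sum_range_zero]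
    exact p1
  | succ N ih =>
    rw [sum_range_succ]
    exact p2 _ _ (ih fun k hk => hf k (by omega)) (hf N (by omega))

theorem t_PD : S_PD := by
  intro hSY hPB F _ h h0 h1 α β z I J hαβ hI hIJ hJ hev
  obtain ⟨y0, y1, -, -, -, y6, -, -, -⟩ := hSY F h h0 h1
  obtain ⟨p1, p2, -, p4, -, p6⟩ := hPB hSY F h h0 h1
  -- one step
  have step : ∀ (N : ℕ) (n : ℤ), n = N - 1 → α + β + 2 * n ≤ z →
      Pos h z (Pn h α β (n + 1) - Pn h α β n) := by
    intro N n hn hz
    unfold Pn
    have e1 : (n + 1).toNat = N := by omega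
    have e2 : (n + 1 + 1).toNat = N + 1 := by omega
    rw [e1, e2, sum_range_succ, add_sub_right_comm, ← sum_sub_distrib]
    refine p2 _ _ _ (PD_sum (p1 z) (p2 z) N _ fun k hk => ?_) ?_
    · by_cases hs : 0 ≤ α + n - 2 * k
      · have e3 : syp h (α + (n + 1) - 2 * k) * syp h (β + (n + 1) - 2 * k) -
            syp h (α + n - 2 * k) * syp h (β + n - 2 * k) =
            sy h (α + β + 2 * (n - 2 * k) + 1) := by
          have h3 := y6 (α + (n + 1) - 2 * k) (β + (n + 1) - 2 * k) 1
          rw [y1, one_mul] at h3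
          have a1 : syp h (α + (n + 1) - 2 * k) = sy h (α + (n + 1) - 2 * k) :=
            if_pos (by omega)
          have a2 : syp h (β + (n + 1) - 2 * k) = sy h (β + (n + 1) - 2 * k) :=
            if_pos (by omega)
          have a3 : syp h (β + n - 2 * k) = sy h (β + n - 2 * k) := if_pos (by omega)
          have a4 : syp h (α + n - 2 * k) = sy h (α + n - 2 * k) := by
            unfold syp
            split_ifs with h4
            · rfl
            · have h5 : α + n - 2 * k = 0 := by omega
              rw [h5, y0]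
          have a5 : α + (n + 1) - 2 * k - 1 = α + n - 2 * k := by ring
          have a6 : β + (n + 1) - 2 * k - 1 = β + n - 2 * k := by ring
          have a7 : α + (n + 1) - 2 * k + (β + (n + 1) - 2 * k) - 1 =
            α + β + 2 * (n - 2 * k) + 1 := by ring
          rw [a5, a6, a7] at h3
          rw [a1, a2, a3, a4, h3]
        rw [e3]
        refine p4 z _ (by omega) (by omega) ?_
        obtain ⟨w, hw⟩ := hev
        exact ⟨w - (n - 2 * k), by omega⟩
      · have e3 : syp h (α + (n + 1) - 2 * k) * syp h (β + (n + 1) - 2 * k) -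
            syp h (α + n - 2 * k) * syp h (β + n - 2 * k) = 0 := by
          have a1 : syp h (α + (n + 1) - 2 * k) = 0 := if_neg (by omega)
          have a4 : syp h (α + n - 2 * k) = 0 := if_neg (by omega)
          rw [a1, a4, zero_mul, zero_mul, sub_zero]
        rw [e3]
        exact p1 z
    · refine p6 z _ _ fun _ _ => ⟨by omega, ?_⟩
      obtain ⟨w, hw⟩ := hev
      exact ⟨w - (n + 1 - 2 * N), by omega⟩
  obtain ⟨m, rfl⟩ : ∃ m : ℕ, J = I + m := ⟨(J - I).toNat, by omega⟩
  induction m with
  | zero =>
    have e : I + ((0 : ℕ) : ℤ) = I := by simp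
    rw [e, sub_self]
    exact p1 z
  | succ m ih =>
    have e : I + ((m + 1 : ℕ) : ℤ) = I + m + 1 := by push_cast; ring
    rw [e] at hJ ⊢
    have hz : α + β + 2 * (I + m) ≤ z := by
      have := hJ (by omega)
      omega
    have e3 : Pn h α β (I + m + 1) - Pn h α β I =
        (Pn h α β (I + m + 1) - Pn h α β (I + m)) + (Pn h α β (I + m) - Pn h α β I) := by ring
    rw [e3]
    exact p2 _ _ _ (step (I + m + 1).toNat (I + m) (by omega) hz)
      (ih (by omega) fun _ => by omega)

end Pool.Agent.SWD
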