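import Pool.Agent.Lib.MP_263316_co.CB.SpecD

/-!
MP_263316_co, part CB4: TASK PHI.
-/

set_option autoImplicit false

namespace Pool.Agent.SWD

open Finset Pool.Agent.SWC Pool.Agent.SWB

namespace PHIaux

variable {F : Type} [Field F] {h : F}

theorem syp_sub (h0 : sy h 0 = 0) (h1 : sy h 1 = 1)
    (h8 : ∀ x : ℤ, sy h (x + 1) - sy h (x - 1) = h ^ x + h ^ (-x)) (s : ℤ) :
    syp h (s + 1) - syp h (s - 1) = ps h s := by
  unfold syp ps
  rcases lt_trichotomy s 0 with hs | hs | hs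
  · rw [if_neg (by omega), if_neg (by omega), if_pos hs, sub_zero]
  · subst hs
    rw [if_pos (by norm_num), if_neg (by norm_num), if_neg (by norm_num), if_pos rfl, zero_add, h1,
      sub_zero]
  · rw [if_pos (by omega), if_neg (by omega : ¬ s < 0), if_neg (by omega : ¬ s = 0), ← h8 s]
    by_cases h2 : 0 < s - 1
    · rw [if_pos h2]
    · rw [if_neg h2]
      have h3 : s = 1 := by omega
      subst h3
      rw [sub_self, h0]

/-- the products on the left-hand side -/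
def gg (h : F) (δ : ℕ) (α : ℤ) (y : ℕ) : F :=
  sy h ((min y δ : ℕ) : ℤ) * sy h (δ - α - ((min y δ : ℕ) : ℤ))

theorem gg_zero (h0 : sy h 0 = 0) (δ : ℕ) (α : ℤ) : gg h δ α 0 = 0 := by
  unfold gg
  rw [Nat.zero_min, Nat.cast_zero, h0, zero_mul]

theorem gg_succ (h1 : sy h 1 = 1) (h3 : ∀ x : ℤ, sy h (-x) = - sy h x)
    (h6 : ∀ a b d : ℤ, sy h a * sy h b - sy h (a - d) * sy h (b - d) = sy h d * sy h (a + b - d))
    (δ : ℕ) (α : ℤ) (y : ℕ) :
    gg h δ α (y + 1) - gg h δ α y = if y < δ then sy h (δ - 1 - 2 * y - α) else 0 := by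
  unfold gg
  by_cases hy : y < δ
  · rw [if_pos hy, Nat.min_eq_left (by omega : y + 1 ≤ δ), Nat.min_eq_left hy.le]
    have h7 := h6 (δ - α - y) (-(y : ℤ)) 1
    rw [h1, one_mul, h3] at h7
    have e1 : -(y : ℤ) - 1 = -((y + 1 : ℕ) : ℤ) := by push_cast; ring
    rw [e1, h3] at h7
    have e2 : (δ : ℤ) - α - y - 1 = δ - α - ((y + 1 : ℕ) : ℤ) := by push_cast; ring
    have e3 : (δ : ℤ) - α - y + -(y : ℤ) - 1 = δ - 1 - 2 * y - α := by ring
    rw [e2, e3] at h7
    rw [← h7]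
    ring
  · rw [if_neg hy, Nat.min_eq_right (by omega : δ ≤ y + 1), Nat.min_eq_right (by omega : δ ≤ y),
      sub_self]

theorem ps_neg {s : ℤ} (hs : s < 0) : ps h s = 0 := if_pos hs

/-- the two ways to cut the sum -/
theorem cut (c : ℕ → F) (S : ℤ) (δ Y : ℕ) (hS : S ≤ 2 * Y) :
    ∑ y ∈ range (Y + 1), ps h (S - 2 * y) * (if y < δ then c y else 0) =
      ∑ y ∈ range δ, ps h (S - 2 * y) * c y := by
  have h1 : ∑ y ∈ range (Y + 1), ps h (S - 2 * y) * (if y < δ then c y else 0) =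
      ∑ y ∈ range (Y + 1 + δ), ps h (S - 2 * y) * (if y < δ then c y else 0) := by
    refine Finset.sum_subset (Finset.range_subset_range.2 (by omega)) fun y _ hy => ?_
    rw [Finset.mem_range, not_lt] at hy
    rw [ps_neg (by omega), zero_mul]
  have h2 : ∑ y ∈ range δ, ps h (S - 2 * y) * (if y < δ then c y else 0) =
      ∑ y ∈ range (Y + 1 + δ), ps h (S - 2 * y) * (if y < δ then c y else 0) := by
    refine Finset.sum_subset (Finset.range_subset_range.2 (by omega)) fun y _ hy => ?_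
    rw [Finset.mem_range] at hy
    rw [if_neg hy, mul_zero]
  rw [h1, ← h2]
  refine Finset.sum_congr rfl fun y hy => ?_
  rw [if_pos (Finset.mem_range.1 hy)]

theorem main (h0 : sy h 0 = 0) (h1 : sy h 1 = 1) (h3 : ∀ x : ℤ, sy h (-x) = - sy h x)
    (h6 : ∀ a b d : ℤ, sy h a * sy h b - sy h (a - d) * sy h (b - d) = sy h d * sy h (a + b - d))
    (h8 : ∀ x : ℤ, sy h (x + 1) - sy h (x - 1) = h ^ x + h ^ (-x)) (δ : ℕ) (α : ℤ) (Y : ℕ) :
    ∀ T : ℤ, T ≤ 2 * Y → ∑ y ∈ range Y, ps h (T - 2 - 2 * y) * gg h δ α (y + 1) =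
      ∑ k ∈ range δ, syp h (T - 1 - 2 * k) * sy h (δ - 1 - 2 * k - α) := by
  induction Y with
  | zero =>
    intro T hT
    rw [Finset.range_zero, Finset.sum_empty]
    refine (Finset.sum_eq_zero fun k _ => ?_).symm
    unfold syp
    rw [if_neg (by omega), zero_mul]
  | succ Y ih =>
    intro T hT
    have e1 := ih (T - 2) (by push_cast at hT; omega)
    have e2 : ∑ y ∈ range Y, ps h (T - 2 - 2 - 2 * y) * gg h δ α (y + 1) =
        ∑ y ∈ range (Y + 1), ps h (T - 2 - 2 * y) * gg h δ α y := by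
      rw [Finset.sum_range_succ', gg_zero h0, mul_zero, add_zero]
      refine Finset.sum_congr rfl fun y _ => ?_
      have e3 : T - 2 - 2 - 2 * (y : ℤ) = T - 2 - 2 * ((y + 1 : ℕ) : ℤ) := by push_cast; ring
      rw [e3]
    have e4 : ∑ y ∈ range (Y + 1), ps h (T - 2 - 2 * y) * (gg h δ α (y + 1) - gg h δ α y) =
        ∑ k ∈ range δ, ps h (T - 2 - 2 * k) * sy h (δ - 1 - 2 * k - α) := by
      simp_rw [gg_succ h1 h3 h6]
      exact cut (fun y => sy h (δ - 1 - 2 * y - α)) (T - 2) δ Y (by push_cast at hT; omega)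
    have e5 : ∀ k : ℕ, syp h (T - 1 - 2 * k) = syp h (T - 2 - 1 - 2 * k) + ps h (T - 2 - 2 * k) := by
      intro k
      rw [← syp_sub h0 h1 h8]
      have e6 : T - 2 - 2 * (k : ℤ) + 1 = T - 1 - 2 * k := by ring
      have e7 : T - 2 - 2 * (k : ℤ) - 1 = T - 2 - 1 - 2 * k := by ring
      rw [e6, e7]
      ring
    simp_rw [e5, add_mul, Finset.sum_add_distrib]
    rw [← e1, e2, ← e4, ← Finset.sum_add_distrib]
    refine Finset.sum_congr rfl fun y _ => ?_
    ring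

end PHIaux

open PHIaux in
theorem t_PHI : S_PHI := by
  intro hSY F _ h hh hh2 δ Y α β hY
  obtain ⟨h0, h1, h3, -, -, h6, -, h8, -⟩ := hSY F h hh hh2
  have e := main h0 h1 h3 h6 h8 δ α Y (δ - β) hY
  have e1 : ∑ y ∈ Icc 1 Y, ps h (δ - β - 2 * y) *
      (sy h (min y δ : ℕ) * sy h (δ - α - (min y δ : ℕ))) =
      ∑ y ∈ range Y, ps h (δ - β - 2 - 2 * y) * gg h δ α (y + 1) := by
    have hI : Icc 1 Y = Ico (0 + 1) (Y + 1) := by
      ext y
      simp only [Finset.mem_Icc, Finset.mem_Ico]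
      omega
    rw [hI, ← Finset.sum_Ico_add' (fun y : ℕ => ps h (δ - β - 2 * y) *
      (sy h (min y δ : ℕ) * sy h (δ - α - (min y δ : ℕ)))) 0 Y 1, Nat.Ico_zero_eq_range]
    refine Finset.sum_congr rfl fun y _ => ?_
    have e3 : (δ : ℤ) - β - 2 - 2 * y = δ - β - 2 * ((y + 1 : ℕ) : ℤ) := by push_cast; ring
    rw [e3]
    rfl
  rw [e1, e]
  unfold Ph2
  rw [Int.toNat_natCast]
  refine Finset.sum_congr rfl fun k _ => ?_
  have e2 : (δ : ℤ) - β - 1 - 2 * k = δ - 1 - 2 * k - β := by ring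
  rw [e2]

end Pool.Agent.SWD
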