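import Pool.Agent.Lib.MP_263316_co.CB.SpecD

/-!
MP_263316_co, part CB4, PL: reflection identities.
-/

set_option autoImplicit false

namespace Pool.Agent.SWD

open Finset Pool.Agent.SWC Pool.Agent.SWB

namespace PLX

variable {F : Type} [Field F]

theorem sy_eq {h : F} (h0 : sy h 0 = 0) (hn : ∀ x : ℤ, sy h (-x) = - sy h x) (x : ℤ) :
    sy h x = syp h x - syp h (-x) := by
  unfold syp
  rcases lt_trichotomy x 0 with hx | hx | hx
  · rw [if_neg (by omega), if_pos (by omega), hn]
    ring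
  · subst hx
    rw [if_neg (by omega), if_neg (by omega), h0]
    ring
  · rw [if_pos hx, if_neg (by omega)]
    ring

theorem refl (g : ℤ → F) (m : ℤ) :
    ∑ k ∈ range (m + 1).toNat, g (m - 2 * k) = ∑ k ∈ range (m + 1).toNat, g (-(m - 2 * k)) := by
  rw [← Finset.sum_range_reflect]
  refine Finset.sum_congr rfl fun k hk => ?_
  have h1 := Finset.mem_range.1 hk
  congr 1
  omega

theorem mul_pos_eq (h : F) {x y : ℤ} (hxy : 0 < x → 0 < y) :
    syp h x * sy h y = syp h x * syp h y := by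
  by_cases hx : 0 < x
  · have : syp h y = sy h y := if_pos (hxy hx)
    rw [this]
  · have : syp h x = 0 := if_neg hx
    rw [this, zero_mul, zero_mul]

end PLX

theorem t_PL : S_PL := by
  intro hSY F _ h h1 h2 α β m hαβ
  obtain ⟨s0, -, sn, -⟩ := hSY F h h1 h2
  have hs := PLX.sy_eq s0 sn
  have e1 : Ph2 h (m + 1) β α =
      ∑ k ∈ range (m + 1).toNat, syp h (m - 2 * k - α) * sy h (m - 2 * k - β) := by
    unfold Ph2
    refine Finset.sum_congr rfl fun k _ => ?_
    rw [show m + 1 - 1 - 2 * (k : ℤ) - α = m - 2 * k - α by ring,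
      show m + 1 - 1 - 2 * (k : ℤ) - β = m - 2 * k - β by ring]
  have e2 : Ph2 h (m + 1) α β =
      ∑ k ∈ range (m + 1).toNat, syp h (m - 2 * k - β) * sy h (m - 2 * k - α) := by
    unfold Ph2
    refine Finset.sum_congr rfl fun k _ => ?_
    rw [show m + 1 - 1 - 2 * (k : ℤ) - α = m - 2 * k - α by ring,
      show m + 1 - 1 - 2 * (k : ℤ) - β = m - 2 * k - β by ring]
  refine ⟨?_, ?_, ?_, ?_⟩
  · rw [e1, PLX.refl (fun s => syp h (s - α) * sy h (s - β)) m]
    unfold Gf Pn
    rw [← Finset.sum_sub_distrib]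
    refine Finset.sum_congr rfl fun k _ => ?_
    have a1 : -(m - 2 * (k : ℤ)) - α = -(α + m - 2 * k) := by ring
    have a2 : -(m - 2 * (k : ℤ)) - β = -(β + m - 2 * k) := by ring
    rw [a1, a2, sn (β + m - 2 * k), ← PLX.mul_pos_eq h (x := α + m - 2 * k)
      (y := β + m - 2 * k) (by omega), hs (α + m - 2 * k)]
    ring
  · rw [e2, PLX.refl (fun s => syp h (s - β) * sy h (s - α)) m]
    unfold Gf Pn
    rw [← Finset.sum_sub_distrib, ← Finset.sum_sub_distrib]
    refine Finset.sum_congr rfl fun k _ => ?_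
    have a1 : -(m - 2 * (k : ℤ)) - β = -(β + m - 2 * k) := by ring
    have a2 : -(m - 2 * (k : ℤ)) - α = -(α + m - 2 * k) := by ring
    have a3 : -α - (m - 2 * (k : ℤ)) = -(α + m - 2 * k) := by ring
    have a4 : β + (m - 2 * (k : ℤ)) = β + m - 2 * k := by ring
    rw [a1, a2, a3, a4, sn (α + m - 2 * k), hs (α + m - 2 * k), hs (β + m - 2 * k)]
    ring
  · rw [e2]
    unfold Pn
    refine Finset.sum_congr rfl fun k _ => ?_
    rw [PLX.mul_pos_eq h (by omega), show -β + m - 2 * (k : ℤ) = m - 2 * k - β by ring,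
      show -α + m - 2 * (k : ℤ) = m - 2 * k - α by ring]
  · rw [e1]
    unfold Pn
    rw [← Finset.sum_sub_distrib]
    refine Finset.sum_congr rfl fun k _ => ?_
    rw [show -β + m - 2 * (k : ℤ) = m - 2 * k - β by ring,
      show -α + m - 2 * (k : ℤ) = m - 2 * k - α by ring, hs (m - 2 * k - β),
      show -(m - 2 * (k : ℤ) - β) = β - (m - 2 * k) by ring]
    ring

end Pool.Agent.SWD
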