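import Pool.Agent.Lib.MP_263316_co.CB.SpecD

/-!
MP_263316_co, part CB4, module QP: the coefficients for `C_P`.
-/

set_option autoImplicit false

namespace Pool.Agent.SWD

open Finset Pool.Agent.SWC Pool.Agent.SWB

namespace QPX

variable {F : Type} [Field F]

theorem syp_pos {h : F} {x : ℤ} (hx : 0 < x) : syp h x = sy h x := if_pos hx

theorem syp_neg {h : F} {x : ℤ} (hx : x ≤ 0) : syp h x = 0 := if_neg (by omega)

/-- `Qf` for natural numbers, shifted -/
def Qn (h : F) (n : ℕ) : F := ∑ k ∈ range n, syp h ((n : ℤ) - 2 * k) ^ 2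

theorem Qf_eq (h : F) (m : ℤ) : Qf h m = Qn h (m + 1).toNat := by
  rcases le_or_gt (m + 1) 0 with hm | hm
  · simp [Qf, Qn, Int.toNat_of_nonpos hm]
  · rw [Qf, Qn, Int.toNat_of_nonneg hm.le]

theorem Qf_zero {h : F} {m : ℤ} (hm : m ≤ -1) : Qf h m = 0 := by
  rw [Qf_eq, Int.toNat_of_nonpos (by omega)]
  simp [Qn]

theorem Qn_succ {h : F} (s2 : sy h 1 = 1)
    (s6 : ∀ a b d : ℤ, sy h a * sy h b - sy h (a - d) * sy h (b - d) = sy h d * sy h (a + b - d))
    (n : ℕ) : Qn h (n + 1) - Qn h n =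
      ∑ k ∈ range (n + 1), if 2 * k ≤ n then sy h (2 * n + 1 - 4 * k) else 0 := by
  have e : Qn h n = ∑ k ∈ range (n + 1), syp h ((n : ℤ) - 2 * k) ^ 2 := by
    rw [sum_range_succ, syp_neg (by omega : (n : ℤ) - 2 * n ≤ 0)]
    simp [Qn]
  rw [e, Qn, ← sum_sub_distrib]
  refine sum_congr rfl fun k _ => ?_
  split_ifs with hk
  · have hk' : (2 * k : ℤ) ≤ n := by exact_mod_cast hk
    rw [syp_pos (by push_cast; omega)]
    have h6 := s6 ((n : ℤ) + 1 - 2 * k) ((n : ℤ) + 1 - 2 * k) 1
    rw [s2, one_mul] at h6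
    have e1 : ((n + 1 : ℕ) : ℤ) - 2 * k = (n : ℤ) + 1 - 2 * k := by push_cast; ring
    have e2 : (n : ℤ) + 1 - 2 * k - 1 = (n : ℤ) - 2 * k := by ring
    have e3 : (n : ℤ) + 1 - 2 * k + ((n : ℤ) + 1 - 2 * k) - 1 = 2 * n + 1 - 4 * k := by ring
    rw [e2, e3] at h6
    rw [e1, ← h6]
    rcases lt_or_eq_of_le hk' with hlt | heq
    · rw [syp_pos (by omega : 0 < (n : ℤ) - 2 * k)]
      ring
    · rw [syp_neg (by omega : (n : ℤ) - 2 * k ≤ 0)]
      have : sy h ((n : ℤ) - 2 * k) = 0 := by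
        rw [show (n : ℤ) - 2 * k = 0 by omega]
        simp [sy]
      rw [this]
      ring
  · have hk' : (n : ℤ) < 2 * k := by exact_mod_cast not_le.mp hk
    rw [syp_neg (by push_cast; omega), syp_neg (by omega)]
    ring

end QPX

open QPX

theorem t_QP : S_QP := by
  intro hSY hPB hPHI F _ h h0 h1
  obtain ⟨s1, s2, s3, -, -, s6, -, -, -⟩ := hSY F h h0 h1
  obtain ⟨p1, p2, -, p4, -, -⟩ := hPB hSY F h h0 h1
  have hstep : ∀ (z : ℤ) (n : ℕ), Even z → 2 * (n : ℤ) ≤ z → Pos h z (Qn h (n + 1) - Qn h n) := by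
    intro z n hz hn
    rw [Qn_succ s2 s6]
    have : ∀ (s : Finset ℕ), Pos h z (∑ k ∈ s, if 2 * k ≤ n then sy h (2 * n + 1 - 4 * k) else 0) := by
      intro s
      induction s using Finset.induction_on with
      | empty => rw [sum_empty]; exact p1 z
      | insert k s hk ih =>
        rw [sum_insert hk]
        refine p2 _ _ _ ?_ ih
        split_ifs with hk2
        · have hk' : (2 * k : ℤ) ≤ n := by exact_mod_cast hk2
          refine p4 _ _ (by omega) (by omega) ?_
          have e : z + 1 - (2 * (n : ℤ) + 1 - 4 * k) = z + 2 * (2 * k - n) := by ring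
          rw [e]
          exact hz.add (even_two_mul _)
        · exact p1 z
    exact this _
  have hmono : ∀ (z : ℤ) (n n' : ℕ), Even z → n' ≤ n → (1 ≤ n → 2 * ((n : ℤ) - 1) ≤ z) →
      Pos h z (Qn h n - Qn h n') := by
    intro z n n' hz hn
    induction n, hn using Nat.le_induction with
    | base => intro _; rw [sub_self]; exact p1 z
    | succ n hn ih =>
      intro hb
      have hb' := hb (by omega)
      push_cast at hb'
      have e : Qn h (n + 1) - Qn h n' = (Qn h (n + 1) - Qn h n) + (Qn h n - Qn h n') := by ring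
      rw [e]
      exact p2 _ _ _ (hstep z n hz (by linarith)) (ih fun _ => by linarith)
  refine ⟨?_, ?_, ?_, ?_⟩
  · intro z m m' hm hz hb
    rw [Qf_eq, Qf_eq]
    refine hmono z _ _ hz (Int.toNat_le_toNat (by omega)) fun h1 => ?_
    have h2 : 0 ≤ m := by
      by_contra hc
      rw [Int.toNat_of_nonpos (by omega)] at h1
      omega
    rw [Int.toNat_of_nonneg (by omega)]
    have := hb h2
    omega
  · intro l P hP
    rcases le_or_gt ((l : ℤ) + 3 - P) 0 with hT | hT
    · rw [Qf_zero (by omega), neg_zero]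
      refine sum_eq_zero fun c hc => ?_
      rw [mem_Icc] at hc
      have : ps h (2 * c + 1 - (P + l + 2 : ℤ)) = 0 := if_pos (by omega)
      rw [this, zero_mul]
    · obtain ⟨T, hTe⟩ : ∃ T : ℕ, (T : ℤ) = (l : ℤ) + 3 - P := ⟨_, Int.toNat_of_nonneg hT.le⟩
      have hT1 : 1 ≤ T := by omega
      have hphi := hPHI hSY F h h0 h1 T (l + 1) 0 0 (by push_cast; omega)
      have e1 : Ph2 h T 0 0 = Qf h (l + 1 - P) := by
        rw [show ((l : ℤ) + 1 - P) = (T : ℤ) - 2 by omega, Ph2, Int.toNat_natCast, Qf]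
        obtain ⟨t, rfl⟩ : ∃ t, T = t + 1 := ⟨T - 1, by omega⟩
        rw [sum_range_succ]
        have e2 : (((t + 1 : ℕ) : ℤ) - 2 + 1).toNat = t := by omega
        rw [e2]
        have e3 : syp h (((t + 1 : ℕ) : ℤ) - 1 - 2 * t - 0) = 0 := syp_neg (by push_cast; omega)
        rw [e3, zero_mul, add_zero]
        refine sum_congr rfl fun k _ => ?_
        have e4 : ((t + 1 : ℕ) : ℤ) - 1 - 2 * k - 0 = ((t + 1 : ℕ) : ℤ) - 2 + 1 - 2 * k := by ring
        rw [e4]
        rcases le_or_gt (((t + 1 : ℕ) : ℤ) - 2 + 1 - 2 * k) 0 with hk | hk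
        · rw [syp_neg hk]; ring
        · rw [syp_pos hk]; ring
      rw [← e1, ← hphi, ← sum_neg_distrib]
      refine sum_bij' (fun c _ => l + 2 - c) (fun y _ => l + 2 - y) ?_ ?_ ?_ ?_ ?_
      · intro c hc
        rw [mem_Icc] at hc ⊢
        omega
      · intro c hc
        rw [mem_Icc] at hc ⊢
        omega
      · intro c hc
        rw [mem_Icc] at hc
        omega
      · intro c hc
        rw [mem_Icc] at hc
        omega
      · intro c hc
        rw [mem_Icc] at hc
        have ey : ((l + 2 - c : ℕ) : ℤ) = (l : ℤ) + 2 - c := by omega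
        have e5 : (T : ℤ) - 0 - 2 * ((l + 2 - c : ℕ) : ℤ) = 2 * c + 1 - (P + l + 2 : ℤ) := by
          rw [ey]; omega
        rw [e5]
        rcases lt_or_ge (2 * (c : ℤ) + 1 - (P + l + 2)) 0 with hneg | hnn
        · have : ps h (2 * (c : ℤ) + 1 - (P + l + 2)) = 0 := if_pos hneg
          rw [this, zero_mul, zero_mul, neg_zero]
        · have hmin : min (l + 2 - c) T = l + 2 - c := by
            apply min_eq_left
            omega
          rw [hmin, ey, syp_pos (by omega)]
          have e6 : (P : ℤ) - 1 - c = -((T : ℤ) - 0 - ((l : ℤ) + 2 - c)) := by omega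
          rw [e6, s3]
          ring
  · intro l P r _
    have a1 : Qf h (l - r) + Qe h (r - l - 4) = Qf h (r - l - 4) := by
      rw [Qe]
      split_ifs with hc
      · rw [Qf_zero (by omega : l - r ≤ -1), zero_add]
      · rw [Qf_zero (by omega : r - l - 4 ≤ -1), show -4 - (r - l - 4) = l - r by ring]
        ring
    have a2 : Qe h (P - l - 5) + Qf h (l + 1 - P) = Qf h (P - l - 5) := by
      rw [Qe]
      split_ifs with hc
      · rw [Qf_zero (by omega : l + 1 - P ≤ -1), add_zero]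
      · rw [Qf_zero (by omega : P - l - 5 ≤ -1), show -4 - (P - l - 5) = l + 1 - P by ring]
        ring
    rw [← a1, ← a2]
    ring
  · intro l P c hl hP hc hM
    have e1 : l + 2 - (P + l + 2 - 1 - c) = -(P - 1 - c) := by ring
    have e2 : P - 1 - (P + l + 2 - 1 - c) = -(l + 2 - c) := by ring
    rw [e1, e2, s3 (l + 2 - c)]
    rcases lt_trichotomy (P - 1 - c) 0 with hB | hB | hB
    · rw [syp_pos (by omega : 0 < -(P - 1 - c)), syp_neg hB.le, s3 (P - 1 - c),
        syp_pos (by omega : 0 < l + 2 - c)]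
      ring
    · rw [hB, s1, syp_neg (by omega : -(0 : ℤ) ≤ 0), syp_neg (le_refl (0 : ℤ))]
      ring
    · rw [syp_neg (by omega : -(P - 1 - c) ≤ 0), syp_pos hB]
      ring

end Pool.Agent.SWD
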