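import Pool.Agent.Lib.MP_263316_co.CB.SpecC

/-! MP_263316_co, CB/RAWB: closed formula for `UU l (bt n a)` (assembly) -/

set_option autoImplicit false

namespace Pool.Agent.SWD

open Finset Pool.Agent.SWC Pool.Agent.SWB

namespace RAWB

variable {K : Type} [CommRing K]

theorem exS_add (l r m : ℕ) (s t : PS K) : exS l r m (s + t) = exS l r m s + exS l r m t := by
  unfold exS
  simp only [map_add]

theorem exS_sub (l r m : ℕ) (s t : PS K) : exS l r m (s - t) = exS l r m s - exS l r m t := by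
  unfold exS
  simp only [map_sub]

theorem exS_k (l r m : ℕ) (c : K) (s : PS K) : exS l r m (kS c * s) = c * exS l r m s := by
  have e : kS c = PowerSeries.C (PowerSeries.C (PowerSeries.C c)) := rfl
  unfold exS
  rw [e, PowerSeries.coeff_C_mul, PowerSeries.coeff_C_mul, PowerSeries.coeff_C_mul]

theorem exS_k5 (l r m : ℕ) (c : K) (A B C D : PS K) :
    exS l r m (kS c * A * B * C * D) = c * exS l r m (A * B * C * D) := by
  rw [← exS_k]
  congr 1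
  ring

end RAWB

theorem t_RAWB : S_RAWB := by
  intro hES hUGS hMP hDSt hSE hSF hTM hPU hEV hRG4 hCHB hUB hUBr hUBS hX0 hX1 hX2 hX4 hX6
    K _ N q x hq hq1 hq2 l a n ha han hn i j hij
  have h := congrArg (exS l (l + a) (l + n)) (hUBS hES hMP hDSt hSE hSF hTM hPU hEV hRG4 hCHB hUB
    hUBr K N q x hq hq1 hq2 i j hij)
  rw [hX0 hES hUGS hMP K N q x i j l a n ha hn] at h
  simp only [RAWB.exS_add, RAWB.exS_sub, RAWB.exS_k5] at h
  rw [hX1 hES hMP hSE K N q x i j l a n,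
    hX2 hES hMP hSE K N q x i j l a n q (q ^ 2) q q (fun _ => 1),
    hX2 hES hMP hSE K N q x i j l a n 1 q 1 (q ^ 2) (fun k => q ^ (2 * k)),
    hX4 hES hMP hSE K N q x i j l a n q (q ^ 2) 1 1 (fun k => q ^ (2 * k)),
    hX4 hES hMP hSE K N q x i j l a n 1 q q⁻¹ q (fun _ => 1),
    hX6 hES hMP hSE K N q x i j l a n q⁻¹ 1 1 (q ^ 2) q (fun k => (1 + q ^ (2 * k + 1)) / (1 + q)),
    hX6 hES hMP hSE K N q x i j l a n 1 (q ^ 2) q (q ^ 2) 1 (fun k => q ^ (2 * k)),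
    hX6 hES hMP hSE K N q x i j l a n q q q q q (fun _ => 1),
    hX6 hES hMP hSE K N q x i j l a n (q ^ 2) (q ^ 3) (q ^ 2) q 1
      (fun k => (1 + q ^ (2 * k + 1)) / (1 + q))] at h
  rw [h]
  have e2 : q / (1 - q) * (∑ t ∈ tri l, ∑ p ∈ antidiagonal (a + t.1), q ^ t.1 * (q ^ 2) ^ t.2.1 *
      q ^ t.2.2 * (q ^ p.1 * 1) * es x p.1 *
      (if p.1 ≤ l + n then bt q x (l + n - p.1 + 2) (t.2.2 + 1) i j else 0)) -
      1 / (1 - q) * (∑ t ∈ tri l, ∑ p ∈ antidiagonal (a + t.1), 1 ^ t.1 * q ^ t.2.1 *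
      1 ^ t.2.2 * ((q ^ 2) ^ p.1 * q ^ (2 * p.2)) * es x p.1 *
      (if p.1 ≤ l + n then bt q x (l + n - p.1 + 2) (t.2.2 + 1) i j else 0)) =
      ∑ t ∈ tri l, ∑ p ∈ antidiagonal (a + t.1),
      (q ^ (p.1 + t.2.2 + 1 + t.1 + 2 * t.2.1) - q ^ (2 * a + 2 * t.1 + t.2.1)) / (1 - q) *
      es x p.1 * bt q x (l + n - p.1 + 2) (t.2.2 + 1) i j := by
    rw [mul_sum, mul_sum, ← sum_sub_distrib]
    refine sum_congr rfl fun t ht => ?_
    rw [mul_sum, mul_sum, ← sum_sub_distrib]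
    refine sum_congr rfl fun p hp => ?_
    rw [mem_tri] at ht
    rw [HasAntidiagonal.mem_antidiagonal] at hp
    rw [if_pos (by omega)]
    have h1 : q ^ (2 * a + 2 * t.1 + t.2.1) = q ^ t.2.1 * ((q ^ 2) ^ p.1 * q ^ (2 * p.2)) := by
      rw [← pow_mul, ← pow_add, ← pow_add]
      congr 1
      omega
    rw [h1]
    ring
  have e3 : q ^ 2 / (1 - q) * (∑ t ∈ tri l, ∑ r ∈ antidiagonal (l + a - t.2.1), q ^ t.1 *
      (q ^ 2) ^ t.2.1 * 1 ^ t.2.2 * (q ^ r.1 * q ^ (2 * r.2)) *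
      (if r.1 ≤ l + n then 1 ^ (l + n - r.1) * es x (l + n - r.1) else 0) *
      bt q x (r.1 + 2) (t.2.2 + 1) i j) -
      1 / (q * (1 - q)) * (∑ t ∈ tri l, ∑ r ∈ antidiagonal (l + a - t.2.1), 1 ^ t.1 *
      q ^ t.2.1 * q⁻¹ ^ t.2.2 * (q ^ r.1 * 1) *
      (if r.1 ≤ l + n then q ^ (l + n - r.1) * es x (l + n - r.1) else 0) *
      bt q x (r.1 + 2) (t.2.2 + 1) i j) =
      ∑ t ∈ tri l, ∑ r ∈ antidiagonal (l + a - t.2.1),
      (q ^ (r.1 + 2 + t.1 + 2 * t.2.1 + 2 * r.2) - q ^ (n - 1 + t.1 + 2 * t.2.1)) / (1 - q) *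
      es x (l + n - r.1) * bt q x (r.1 + 2) (t.2.2 + 1) i j := by
    rw [mul_sum, mul_sum, ← sum_sub_distrib]
    refine sum_congr rfl fun t ht => ?_
    rw [mul_sum, mul_sum, ← sum_sub_distrib]
    refine sum_congr rfl fun r hr => ?_
    rw [mem_tri] at ht
    rw [HasAntidiagonal.mem_antidiagonal] at hr
    rw [if_pos (by omega), if_pos (by omega)]
    have h1 : q ^ (n - 1 + t.1 + 2 * t.2.1) =
        q⁻¹ * (q ^ t.2.1 * q⁻¹ ^ t.2.2 * q ^ r.1 * q ^ (l + n - r.1)) := by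
      have h2 : q ^ t.2.1 * q ^ r.1 * q ^ (l + n - r.1) =
          q ^ (n - 1 + t.1 + 2 * t.2.1) * q * q ^ t.2.2 := by
        rw [← pow_add, ← pow_add, ← pow_succ, ← pow_add]
        congr 1
        omega
      calc q ^ (n - 1 + t.1 + 2 * t.2.1) = q⁻¹ * q⁻¹ ^ t.2.2 *
            (q ^ (n - 1 + t.1 + 2 * t.2.1) * q * q ^ t.2.2) := by
            rw [inv_pow]
            field_simp
        _ = _ := by rw [← h2]; ring
    rw [h1, one_pow, one_pow, one_pow, one_div, mul_inv]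
    ring
  have e4 : 1 / (q * (1 - q) ^ 2) * (∑ t ∈ tri l, ∑ p ∈ antidiagonal (a + t.1), q⁻¹ ^ t.1 *
      1 ^ t.2.1 * 1 ^ t.2.2 * ((q ^ 2) ^ p.1 * ((1 + q ^ (2 * p.2 + 1)) / (1 + q))) * es x p.1 *
      (if p.1 + t.2.2 ≤ l + n then q ^ (l + n - p.1 - t.2.2) * es x (l + n - p.1 - t.2.2)
        else 0) * Cn q x (t.2.2 + 2) i j) -
      q ^ 2 / (1 - q) ^ 2 * (∑ t ∈ tri l, ∑ p ∈ antidiagonal (a + t.1), 1 ^ t.1 *
      (q ^ 2) ^ t.2.1 * q ^ t.2.2 * ((q ^ 2) ^ p.1 * q ^ (2 * p.2)) * es x p.1 *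
      (if p.1 + t.2.2 ≤ l + n then 1 ^ (l + n - p.1 - t.2.2) * es x (l + n - p.1 - t.2.2)
        else 0) * Cn q x (t.2.2 + 2) i j) -
      q / (1 - q) ^ 2 * (∑ t ∈ tri l, ∑ p ∈ antidiagonal (a + t.1), q ^ t.1 *
      q ^ t.2.1 * q ^ t.2.2 * (q ^ p.1 * 1) * es x p.1 *
      (if p.1 + t.2.2 ≤ l + n then q ^ (l + n - p.1 - t.2.2) * es x (l + n - p.1 - t.2.2)
        else 0) * Cn q x (t.2.2 + 2) i j) +
      q ^ 4 / (1 - q) ^ 2 * (∑ t ∈ tri l, ∑ p ∈ antidiagonal (a + t.1), (q ^ 2) ^ t.1 *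
      (q ^ 3) ^ t.2.1 * (q ^ 2) ^ t.2.2 * (q ^ p.1 * ((1 + q ^ (2 * p.2 + 1)) / (1 + q))) *
      es x p.1 *
      (if p.1 + t.2.2 ≤ l + n then 1 ^ (l + n - p.1 - t.2.2) * es x (l + n - p.1 - t.2.2)
        else 0) * Cn q x (t.2.2 + 2) i j) =
      ∑ t ∈ tri l, ∑ p ∈ antidiagonal (a + t.1),
      ((1 + q ^ (2 * p.2 + 1)) / (1 + q) *
          (q ^ (n - 1 + t.2.1 + p.1) + q ^ (2 * l + 4 + p.1 + t.2.1)) -
        q ^ (2 * a + l + 2 + t.1 + t.2.1) - q ^ (n + 1 + l + t.1 + t.2.1)) / (1 - q) ^ 2 *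
      es x p.1 * es x (l + n - p.1 - t.2.2) * Cn q x (t.2.2 + 2) i j := by
    rw [mul_sum, mul_sum, mul_sum, mul_sum, ← sum_sub_distrib, ← sum_sub_distrib,
      ← sum_add_distrib]
    refine sum_congr rfl fun t ht => ?_
    rw [mul_sum, mul_sum, mul_sum, mul_sum, ← sum_sub_distrib, ← sum_sub_distrib,
      ← sum_add_distrib]
    refine sum_congr rfl fun p hp => ?_
    rw [mem_tri] at ht
    rw [HasAntidiagonal.mem_antidiagonal] at hp
    rw [if_pos (by omega), if_pos (by omega)]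
    have h1 : q ^ (n - 1 + t.2.1 + p.1) =
        q⁻¹ * (q⁻¹ ^ t.1 * (q ^ 2) ^ p.1 * q ^ (l + n - p.1 - t.2.2)) := by
      have h2 : (q ^ 2) ^ p.1 * q ^ (l + n - p.1 - t.2.2) =
          q ^ (n - 1 + t.2.1 + p.1) * q * q ^ t.1 := by
        rw [← pow_mul, ← pow_add, ← pow_succ, ← pow_add]
        congr 1
        omega
      calc q ^ (n - 1 + t.2.1 + p.1) = q⁻¹ * q⁻¹ ^ t.1 *
            (q ^ (n - 1 + t.2.1 + p.1) * q * q ^ t.1) := by
            rw [inv_pow]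
            field_simp
        _ = _ := by rw [← h2]; ring
    have h3 : q ^ (2 * a + l + 2 + t.1 + t.2.1) =
        q ^ 2 * ((q ^ 2) ^ t.2.1 * q ^ t.2.2 * ((q ^ 2) ^ p.1 * q ^ (2 * p.2))) := by
      rw [← pow_mul, ← pow_mul, ← pow_add, ← pow_add, ← pow_add, ← pow_add]
      congr 1
      omega
    have h4 : q ^ (n + 1 + l + t.1 + t.2.1) =
        q * (q ^ t.1 * q ^ t.2.1 * q ^ t.2.2 * q ^ p.1 * q ^ (l + n - p.1 - t.2.2)) := by
      rw [← pow_add, ← pow_add, ← pow_add, ← pow_add, ← pow_succ']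
      congr 1
      omega
    have h5 : q ^ (2 * l + 4 + p.1 + t.2.1) =
        q ^ 4 * ((q ^ 2) ^ t.1 * (q ^ 3) ^ t.2.1 * (q ^ 2) ^ t.2.2 * q ^ p.1) := by
      rw [← pow_mul, ← pow_mul, ← pow_mul, ← pow_add, ← pow_add, ← pow_add, ← pow_add]
      congr 1
      omega
    rw [h1, h3, h4, h5, one_pow, one_pow, one_pow, one_pow, one_div, mul_inv]
    generalize (1 + q ^ (2 * p.2 + 1)) / (1 + q) = G
    generalize es x p.1 = E1
    generalize es x (l + n - p.1 - t.2.2) = E2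
    generalize Cn q x (t.2.2 + 2) i j = Cc
    ring
  rw [← e2, ← e3, ← e4]
  ring

end Pool.Agent.SWD
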