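import Pool.Agent.Lib.MP_263316_co.CB.SpecC

/-!
MP_263316_co, part CB3: closed formula for `UU l (Cn P)` (helper76).
-/

set_option autoImplicit false

namespace Pool.Agent.SWD

open Finset Pool.Agent.SWC Pool.Agent.SWB

namespace RAWCaux

section gen

variable {K : Type} [CommRing K]

theorem exA_add (l m : ℕ) (s t : PA K) : exA l m (s + t) = exA l m s + exA l m t := by
  simp only [exA, map_add]

theorem exA_sub (l m : ℕ) (s t : PA K) : exA l m (s - t) = exA l m s - exA l m t := by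
  simp only [exA, map_sub]

theorem exA_kA (l m : ℕ) (c : K) (s : PA K) : exA l m (kA c * s) = c * exA l m s := by
  have h : (kA c : PA K) = PowerSeries.C (PowerSeries.C c) := rfl
  simp only [exA, h, PowerSeries.coeff_C_mul]

theorem exA_LA (l P : ℕ) (E : PB K) (α γ : ℕ → K) :
    exA l (l + P) (PowerSeries.C E * PowerSeries.mk (fun m => vB ^ m * kB (α m)) *
      PowerSeries.mk (fun n => kB (γ n))) =
    ∑ r ∈ antidiagonal l, γ r.1 * PowerSeries.coeff (P + r.1) E * α r.2 := by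
  rw [exA, mul_assoc, PowerSeries.coeff_C_mul, PowerSeries.coeff_mul l, mul_sum, map_sum,
    ← Finset.Nat.sum_antidiagonal_swap]
  refine sum_congr rfl fun r hr => ?_
  rw [HasAntidiagonal.mem_antidiagonal] at hr
  simp only [Prod.fst_swap, Prod.snd_swap, PowerSeries.coeff_mk]
  have e1 : E * (vB ^ r.2 * kB (α r.2) * kB (γ r.1)) =
      PowerSeries.C (γ r.1 * α r.2) * (PowerSeries.X ^ r.2 * E) := by
    rw [map_mul]
    simp only [vB, kB]
    ring
  rw [e1, PowerSeries.coeff_C_mul, show l + P = (P + r.1) + r.2 by omega,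
    PowerSeries.coeff_X_pow_mul]
  ring

theorem exA_LB (l m : ℕ) (α γ : ℕ → K) (b : ℕ → PB K) :
    exA l m (PowerSeries.mk (fun m => kB (α m) * b m) * PowerSeries.mk (fun n => kB (γ n))) =
    ∑ r ∈ antidiagonal l, γ r.1 * α r.2 * PowerSeries.coeff m (b r.2) := by
  rw [exA, PowerSeries.coeff_mul, map_sum, ← Finset.Nat.sum_antidiagonal_swap]
  refine sum_congr rfl fun r _ => ?_
  simp only [Prod.fst_swap, Prod.snd_swap, PowerSeries.coeff_mk]
  have e1 : kB (α r.2) * b r.2 * kB (γ r.1) = PowerSeries.C (γ r.1 * α r.2) * b r.2 := by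
    rw [map_mul]
    simp only [kB]
    ring
  rw [e1, PowerSeries.coeff_C_mul]

theorem UU_sum {R : Type} [CommRing R] {N : ℕ} (q : R) (x : Fin N → R) (l : ℕ) (s : Finset ℕ)
    (u : ℕ → R) (f : ℕ → Fin N → Fin N → R) (i' j' : Fin N) :
    UU q x l (fun i j => ∑ m ∈ s, u m * f m i j) i' j' = ∑ m ∈ s, u m * UU q x l (f m) i' j' := by
  classical
  induction s using Finset.induction_on with
  | empty =>
    simp only [sum_empty]
    unfold UU
    simp
  | insert a s ha ih =>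
    simp only [sum_insert ha]
    have h := UU_add q x l (fun i j => u a * f a i j) (fun i j => ∑ m ∈ s, u m * f m i j)
    have h' := congrFun (congrFun h i') j'
    rw [Pi.add_apply, Pi.add_apply, UU_smul, ih] at h'
    exact h'

theorem qn_kB (q : K) (n : ℕ) : qn (kB q) n = kB (qn q n) := by
  simp only [qn, map_sum, map_pow]

end gen

/-- left-hand side -/
theorem lhs (hES : S_ES) (hUGS : S_UGS) (hMP : S_MP) (K : Type) [CommRing K] (N : ℕ) (q : K)
    (x : Fin N → K) (l P : ℕ) (hP : 2 ≤ P) (i j : Fin N) :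
    exA l (l + P) (vA ^ 2 * Ug (kA q) (fun k => kA (x k)) (rA * vA)
      (fun i j => PowerSeries.C (Ct (kB q) (fun k => kB (x k)) vB i j)) i j) =
    UU q x l (Cn q x P) i j := by
  obtain ⟨hU, hU0, -, -⟩ := hUGS (PA K) N (kA q) (fun k => kA (x k))
  obtain ⟨-, -, -, -, -, hCt, hCn0, -⟩ := hES (PB K) N (kB q) (fun k => kB (x k))
  obtain ⟨-, -, -, -, -, -, hCn0', -⟩ := hES K N q x
  obtain ⟨-, -, -, -, -, -, -, -, -, mUU, -, -, -, -⟩ := hMP (PB K) (PA K) PowerSeries.C N (kB q)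
    (fun k => kB (x k))
  obtain ⟨-, -, -, mCn, -, -, -, -, -, mUU', -, -, -, -⟩ := hMP K (PB K) kB N q x
  have hu : ∀ l', UU (kA q) (fun k => kA (x k)) l'
      (fun i j => PowerSeries.C (Ct (kB q) (fun k => kB (x k)) vB i j)) i j =
      PowerSeries.C (∑ m ∈ range (N + 1), vB ^ m * kB (UU q x l' (Cn q x (m + 2)) i j)) := by
    intro l'
    have h1 := mUU l' (Ct (kB q) (fun k => kB (x k)) vB) i j
    have h2 : (Ct (kB q) (fun k => kB (x k)) vB : Fin N → Fin N → PB K) =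
        fun i j => ∑ m ∈ range (N + 1), vB ^ m * Cn (kB q) (fun k => kB (x k)) (m + 2) i j := by
      funext a b
      rw [hCt]
      exact sum_congr rfl fun m _ => mul_comm _ _
    have h3 : UU (kB q) (fun k => kB (x k)) l' (Ct (kB q) (fun k => kB (x k)) vB) i j =
        ∑ m ∈ range (N + 1), vB ^ m * kB (UU q x l' (Cn q x (m + 2)) i j) := by
      rw [h2, UU_sum]
      refine sum_congr rfl fun m _ => ?_
      rw [mUU']
      congr 2
      funext a b
      exact (mCn _ a b).symm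
    rw [← h3]
    exact h1.symm
  rw [hU, mul_sum, exA, map_sum]
  have key : ∀ l' ∈ range (N + 1), PowerSeries.coeff l (vA ^ 2 *
      (UU (kA q) (fun k => kA (x k)) l'
        (fun i j => PowerSeries.C (Ct (kB q) (fun k => kB (x k)) vB i j)) i j *
          (rA * vA) ^ l')) =
      if l = l' then PowerSeries.X ^ (2 + l') *
        (∑ m ∈ range (N + 1), vB ^ m * kB (UU q x l' (Cn q x (m + 2)) i j)) else 0 := by
    intro l' _
    rw [hu]
    have e : (vA : PA K) ^ 2 * (PowerSeries.C (∑ m ∈ range (N + 1), vB ^ m *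
        kB (UU q x l' (Cn q x (m + 2)) i j)) * (rA * vA) ^ l') =
        PowerSeries.C (PowerSeries.X ^ (2 + l') * (∑ m ∈ range (N + 1), vB ^ m *
          kB (UU q x l' (Cn q x (m + 2)) i j))) * PowerSeries.X ^ l' := by
      rw [map_mul, map_pow]
      simp only [vA, rA]
      ring
    rw [e, PowerSeries.coeff_C_mul, PowerSeries.coeff_X_pow]
    split_ifs <;> simp
  rw [sum_congr rfl key]
  have hz : ∀ m, N < m → UU q x l (Cn q x (m + 2)) i j = 0 := by
    intro m hm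
    have : (Cn q x (m + 2)) = fun _ _ => 0 := by
      funext a b
      exact hCn0' a b m hm
    rw [this]
    unfold UU
    simp
  rw [sum_ite_eq]
  split_ifs with hl
  · rw [show l + P = (P - 2) + (2 + l) by omega, PowerSeries.coeff_X_pow_mul, map_sum]
    have key2 : ∀ m ∈ range (N + 1), PowerSeries.coeff (P - 2)
        (vB ^ m * kB (UU q x l (Cn q x (m + 2)) i j)) =
        if P - 2 = m then UU q x l (Cn q x (m + 2)) i j else 0 := by
      intro m _
      have e : (vB : PB K) ^ m * kB (UU q x l (Cn q x (m + 2)) i j) =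
          PowerSeries.C (UU q x l (Cn q x (m + 2)) i j) * PowerSeries.X ^ m := by
        simp only [vB, kB]
        ring
      rw [e, PowerSeries.coeff_C_mul, PowerSeries.coeff_X_pow]
      split_ifs <;> simp
    rw [sum_congr rfl key2, sum_ite_eq]
    split_ifs with hm
    · rw [show P - 2 + 2 = P by omega]
    · have := hz (P - 2) (by rw [mem_range] at hm; omega)
      rw [show P - 2 + 2 = P by omega] at this
      exact this.symm
  · rw [map_zero]
    obtain ⟨-, hU0', -, -⟩ := hUGS K N q x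
    exact (hU0' l _ i j (by rw [mem_range] at hl; omega)).symm

theorem Ez_PB (hES : S_ES) (hSE : S_SE) (K : Type) [CommRing K] (N : ℕ) (x : Fin N → K) (c : K)
    (n : ℕ) : PowerSeries.coeff n (Ez (fun k => kB (x k)) (kB c * vB)) = c ^ n * es x n := by
  have h := (((hSE hES K).2.2.2.1 N 0 x c).1)
  rw [show (kB c * vB : PB K) = PowerSeries.C c * PowerSeries.X from rfl]
  have h' : Ez (fun k => kB (x k)) (PowerSeries.C c * PowerSeries.X) =
      PowerSeries.mk (fun p => c ^ p * es x p) := h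
  rw [h', PowerSeries.coeff_mk]

theorem Ct_PB (hES : S_ES) (hSE : S_SE) (K : Type) [CommRing K] (N : ℕ) (q : K) (x : Fin N → K)
    (n : ℕ) (i j : Fin N) : PowerSeries.coeff n (Ct (kB q) (fun k => kB (x k)) vB i j) =
      Cn q x (n + 2) i j := by
  have h := (((hSE hES K).2.2.2.1 N q x 1).2.1 i j)
  rw [map_one, one_mul] at h
  have h' : Ct (kB q) (fun k => kB (x k)) vB i j =
      PowerSeries.mk (fun m => 1 ^ m * Cn q x (m + 2) i j) := h
  rw [h', PowerSeries.coeff_mk, one_pow, one_mul]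

theorem Ct_PA (hES : S_ES) (hMP : S_MP) (hSE : S_SE) (K : Type) [CommRing K] (N : ℕ) (q : K)
    (x : Fin N → K) (c : K) (i j : Fin N) :
    Ct (kA q) (fun k => kA (x k)) (kA c * (rA * vA)) i j =
      PowerSeries.mk (fun m => vB ^ m * kB (c ^ m * Cn q x (m + 2) i j)) := by
  have h := (((hSE hES (PB K)).2.2.2.1 N (kB q) (fun k => kB (x k)) (kB c * vB)).2.1 i j)
  obtain ⟨-, -, -, mCn, -, -, -, -, -, -, -, -, -, -⟩ := hMP K (PB K) kB N q x
  have e : (kA c * (rA * vA) : PA K) = PowerSeries.C (kB c * vB) * PowerSeries.X := by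
    rw [map_mul]
    have h1 : (kA c : PA K) = PowerSeries.C (kB c) := rfl
    rw [h1]
    simp only [rA, vA, vB]
    ring
  rw [e]
  refine Eq.trans h ?_
  congr 1
  funext m
  rw [map_mul, map_pow, mCn]
  ring

theorem Ez_PA (hES : S_ES) (hMP : S_MP) (hSE : S_SE) (K : Type) [CommRing K] (N : ℕ)
    (x : Fin N → K) (c : K) :
    Ez (fun k => kA (x k)) (kA c * (rA * vA)) =
      PowerSeries.mk (fun m => vB ^ m * kB (c ^ m * es x m)) := by
  have h := (((hSE hES (PB K)).2.2.2.1 N 0 (fun k => kB (x k)) (kB c * vB)).1)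
  obtain ⟨mes, -⟩ := hMP K (PB K) kB N 0 x
  have e : (kA c * (rA * vA) : PA K) = PowerSeries.C (kB c * vB) * PowerSeries.X := by
    rw [map_mul]
    have h1 : (kA c : PA K) = PowerSeries.C (kB c) := rfl
    rw [h1]
    simp only [rA, vA, vB]
    ring
  rw [e]
  refine Eq.trans h ?_
  congr 1
  funext m
  rw [map_mul, map_pow, mes]
  ring

theorem gg (hES : S_ES) (hSE : S_SE) (K : Type) [CommRing K] (c q : K) :
    (gs (kB c) * gs (kB (q * c)) : PA K) =
      PowerSeries.mk (fun n => kB (c ^ n * qn q (n + 1))) := by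
  have h := (hSE hES (PB K)).2.1 (kB c) (kB q)
  rw [← map_mul] at h
  rw [h]
  congr 1
  funext n
  rw [map_mul, map_pow, qn_kB]

theorem gg2 (hES : S_ES) (hSE : S_SE) (K : Type) [CommRing K] (c : K) :
    (gs (kB c) * gs (kB c) : PA K) =
      PowerSeries.mk (fun n => kB (((n + 1 : ℕ) : K) * c ^ n)) := by
  have h := (hSE hES (PB K)).2.2.1 (kB c)
  rw [h]
  congr 1
  funext n
  rw [map_mul, map_pow, map_natCast]

theorem DS_PB (hES : S_ES) (K : Type) [CommRing K] (N : ℕ) (q : K) (hMP : S_MP)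
    (x : Fin N → K) (a c : K) (i j : Fin N) :
    DS (kB q) (fun k => kB (x k)) (kB a) (kB c * vB) i j =
      PowerSeries.mk (fun m => kB (a ^ m) *
        PowerSeries.mk (fun n => c ^ n * bt q x (n + 2) (m + 1) i j)) := by
  obtain ⟨-, -, mbt, -, -, -, -, -, -, -, -, -, -, -⟩ := hMP K (PB K) kB N q x
  obtain ⟨-, -, -, -, -, -, -, hbt⟩ := hES K N q x
  unfold DS
  congr 1
  funext m
  rw [map_pow]
  congr 1
  ext n
  rw [PowerSeries.coeff_mk, bw, map_sum]
  have key : ∀ n' ∈ range (2 * N + 1), PowerSeries.coeff n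
      (bt (kB q) (fun k => kB (x k)) (n' + 2) (m + 1) i j * (kB c * vB) ^ n') =
      if n = n' then c ^ n' * bt q x (n' + 2) (m + 1) i j else 0 := by
    intro n' _
    rw [← mbt, mul_pow, ← map_pow]
    have e : kB (bt q x (n' + 2) (m + 1) i j) * (kB (c ^ n') * vB ^ n') =
        PowerSeries.C (c ^ n' * bt q x (n' + 2) (m + 1) i j) * PowerSeries.X ^ n' := by
      rw [map_mul]
      simp only [kB, vB]
      ring
    rw [e, PowerSeries.coeff_C_mul, PowerSeries.coeff_X_pow]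
    split_ifs <;> simp
  rw [sum_congr rfl key, sum_ite_eq]
  split_ifs with h
  · rfl
  · rw [hbt i j (n + 2) (m + 1) (by rw [mem_range] at h; omega), mul_zero]

end RAWCaux

open RAWCaux in
theorem t_RAWC : S_RAWC := by
  intro hES hUGS hMP hDSt hSE hTM hCU hEV hRG3 hCHC hUCr hUCS K _ N q x hq h1 h2 l P hP i j hij
  have main := congrArg (exA l (l + P))
    (hUCS hES hMP hDSt hSE hTM hCU hEV hRG3 hCHC hUCr K N q x hq h1 h2 i j hij)
  rw [lhs hES hUGS hMP K N q x l P hP i j] at main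
  rw [main]
  -- the geometric series
  have g1 : (gs (kB 1) * gs (kB q⁻¹) : PA K) =
      PowerSeries.mk (fun n => kB (q⁻¹ ^ n * qn q (n + 1))) := by
    have h := gg hES hSE K q⁻¹ q
    rw [mul_inv_cancel₀ hq] at h
    rw [mul_comm, h]
  have g2 : (gs (kB q) * gs (kB (q ^ 2)) : PA K) =
      PowerSeries.mk (fun n => kB (q ^ n * qn q (n + 1))) := by
    have h := gg hES hSE K q q
    rwa [← pow_two] at h
  have g3 : (gs (kB 1) * gs (kB q) : PA K) =
      PowerSeries.mk (fun n => kB (qn q (n + 1))) := by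
    have h := gg hES hSE K 1 q
    rw [mul_one] at h
    simpa using h
  have g5 : (gs (kB (q ^ 2)) * gs (kB (q ^ 3)) : PA K) =
      PowerSeries.mk (fun n => kB ((q ^ 2) ^ n * qn q (n + 1))) := by
    have h := gg hES hSE K (q ^ 2) q
    rwa [show q * q ^ 2 = q ^ 3 by ring] at h
  have g6 := gg2 hES hSE K q
  have g4 : ((gs (kB 1) * gs (kB q)) * (gs (kB q) * gs (kB (q ^ 2))) : PA K) =
      PowerSeries.mk (fun n => kB (∑ s ∈ antidiagonal n,
        qn q (s.1 + 1) * (q ^ s.2 * qn q (s.2 + 1)))) := by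
    rw [g3, g2]
    refine PowerSeries.ext fun n => ?_
    rw [PowerSeries.coeff_mul, PowerSeries.coeff_mk, map_sum]
    simp only [PowerSeries.coeff_mk, map_mul]
  -- the terms
  have T1 : exA l (l + P) (kA (1 / ((1 + q) * (1 - q) ^ 2 * q)) *
      PowerSeries.C (Ez (fun k => kB (x k)) (kB (q ^ 2) * vB)) *
      Ct (kA q) (fun k => kA (x k)) (kA 1 * (rA * vA)) i j * gs (kB 1) * gs (kB q⁻¹)) =
      1 / ((1 + q) * (1 - q) ^ 2 * q) * ∑ r ∈ antidiagonal l, (q⁻¹ ^ r.1 * qn q (r.1 + 1)) *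
        ((q ^ 2) ^ (P + r.1) * es x (P + r.1)) * (1 ^ r.2 * Cn q x (r.2 + 2) i j) := by
    rw [mul_assoc, g1, mul_assoc, mul_assoc, exA_kA, ← mul_assoc, Ct_PA hES hMP hSE, exA_LA]
    simp only [Ez_PB hES hSE]
  have T5 : exA l (l + P) (kA (q ^ 4 / ((1 - q) * (1 - q ^ 2))) *
      PowerSeries.C (Ez (fun k => kB (x k)) (kB 1 * vB)) *
      Ct (kA q) (fun k => kA (x k)) (kA (q ^ 2) * (rA * vA)) i j *
      gs (kB (q ^ 2)) * gs (kB (q ^ 3))) =
      q ^ 4 / ((1 - q) * (1 - q ^ 2)) * ∑ r ∈ antidiagonal l, ((q ^ 2) ^ r.1 * qn q (r.1 + 1)) *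
        (1 ^ (P + r.1) * es x (P + r.1)) * ((q ^ 2) ^ r.2 * Cn q x (r.2 + 2) i j) := by
    rw [mul_assoc, g5, mul_assoc, mul_assoc, exA_kA, ← mul_assoc, Ct_PA hES hMP hSE, exA_LA]
    simp only [Ez_PB hES hSE]
  have T6 : exA l (l + P) (kA (q / (1 - q) ^ 2) *
      PowerSeries.C (Ez (fun k => kB (x k)) (kB q * vB)) *
      Ct (kA q) (fun k => kA (x k)) (kA q * (rA * vA)) i j * gs (kB q) * gs (kB q)) =
      q / (1 - q) ^ 2 * ∑ r ∈ antidiagonal l, (((r.1 + 1 : ℕ) : K) * q ^ r.1) *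
        (q ^ (P + r.1) * es x (P + r.1)) * (q ^ r.2 * Cn q x (r.2 + 2) i j) := by
    rw [mul_assoc, g6, mul_assoc, mul_assoc, exA_kA, ← mul_assoc, Ct_PA hES hMP hSE, exA_LA]
    simp only [Ez_PB hES hSE]
  have T4 : exA l (l + P) (Ez (fun k => kA (x k)) (kA (q ^ 2) * (rA * vA)) *
      PowerSeries.C (Ct (kB q) (fun k => kB (x k)) vB i j) *
      (gs (kB 1) * gs (kB q)) * (gs (kB q) * gs (kB (q ^ 2)))) =
      ∑ r ∈ antidiagonal l, (∑ s ∈ antidiagonal r.1,
        qn q (s.1 + 1) * (q ^ s.2 * qn q (s.2 + 1))) * Cn q x (P + r.1 + 2) i j *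
          ((q ^ 2) ^ r.2 * es x r.2) := by
    rw [mul_assoc, g4, Ez_PA hES hMP hSE, mul_comm (PowerSeries.mk _) (PowerSeries.C _), exA_LA]
    simp only [Ct_PB hES hSE]
  have T2 : exA l (l + P) (kA (q / (1 - q)) * DS (kB q) (fun k => kB (x k)) (kB q) vB i j *
      gs (kB q) * gs (kB (q ^ 2))) = q / (1 - q) * ∑ r ∈ antidiagonal l,
        (q ^ r.1 * qn q (r.1 + 1)) * q ^ r.2 *
          (1 ^ (l + P) * bt q x (l + P + 2) (r.2 + 1) i j) := by
    have hv : (vB : PB K) = kB 1 * vB := by rw [map_one, one_mul]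
    rw [mul_assoc, g2, mul_assoc, exA_kA, hv, DS_PB hES K N q hMP, exA_LB]
    simp only [PowerSeries.coeff_mk]
  have T3 : exA l (l + P) (kA (1 / (q * (1 - q))) *
      DS (kB q) (fun k => kB (x k)) (kB q⁻¹) (kB q * vB) i j * gs (kB q) * gs (kB 1)) =
      1 / (q * (1 - q)) * ∑ r ∈ antidiagonal l,
        (qn q (r.1 + 1)) * q⁻¹ ^ r.2 *
          (q ^ (l + P) * bt q x (l + P + 2) (r.2 + 1) i j) := by
    rw [mul_assoc, mul_comm (gs (kB q)) (gs (kB 1)), g3, mul_assoc, exA_kA, DS_PB hES K N q hMP,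
      exA_LB]
    simp only [PowerSeries.coeff_mk]
  rw [exA_sub, exA_add, exA_add, exA_sub, exA_add, T1, T2, T3, T4, T5, T6]
  have h12 : 1 - q ^ 2 ≠ 0 := by
    rw [show 1 - q ^ 2 = (1 - q) * (1 + q) by ring]
    exact mul_ne_zero h1 h2
  have S1 : q / (1 - q) * ∑ r ∈ antidiagonal l, (q ^ r.1 * qn q (r.1 + 1)) * q ^ r.2 *
          (1 ^ (l + P) * bt q x (l + P + 2) (r.2 + 1) i j) -
      1 / (q * (1 - q)) * ∑ r ∈ antidiagonal l,
        (qn q (r.1 + 1)) * q⁻¹ ^ r.2 *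
          (q ^ (l + P) * bt q x (l + P + 2) (r.2 + 1) i j) =
      ∑ r ∈ antidiagonal l, (q ^ (l + 1) - q ^ (P + r.1 - 1)) / (1 - q) * qn q (r.1 + 1) *
      bt q x (P + l + 2) (r.2 + 1) i j := by
    rw [mul_sum, mul_sum, ← sum_sub_distrib]
    refine sum_congr rfl fun r hr => ?_
    rw [HasAntidiagonal.mem_antidiagonal] at hr
    obtain ⟨P', rfl⟩ := Nat.exists_eq_add_of_le hP
    rw [show 2 + P' + r.1 - 1 = P' + r.1 + 1 by omega, ← hr,
      show r.1 + r.2 + (2 + P') + 2 = 2 + P' + (r.1 + r.2) + 2 by omega]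
    simp only [inv_pow, one_pow, one_mul]
    field_simp
    ring
  have S2 : ∑ r ∈ antidiagonal l, (∑ s ∈ antidiagonal r.1,
        qn q (s.1 + 1) * (q ^ s.2 * qn q (s.2 + 1))) * Cn q x (P + r.1 + 2) i j *
          ((q ^ 2) ^ r.2 * es x r.2) =
      ∑ p ∈ antidiagonal l, q ^ (2 * p.1) * (∑ s ∈ antidiagonal p.2,
      qn q (s.1 + 1) * (q ^ s.2 * qn q (s.2 + 1))) * es x p.1 * Cn q x (P + p.2 + 2) i j := by
    rw [← Finset.Nat.sum_antidiagonal_swap]
    refine sum_congr rfl fun r _ => ?_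
    simp only [Prod.fst_swap, Prod.snd_swap]
    rw [pow_mul]
    ring
  have S3 : 1 / ((1 + q) * (1 - q) ^ 2 * q) * ∑ r ∈ antidiagonal l,
        (q⁻¹ ^ r.1 * qn q (r.1 + 1)) *
        ((q ^ 2) ^ (P + r.1) * es x (P + r.1)) * (1 ^ r.2 * Cn q x (r.2 + 2) i j) +
      q ^ 4 / ((1 - q) * (1 - q ^ 2)) * ∑ r ∈ antidiagonal l, ((q ^ 2) ^ r.1 * qn q (r.1 + 1)) *
        (1 ^ (P + r.1) * es x (P + r.1)) * ((q ^ 2) ^ r.2 * Cn q x (r.2 + 2) i j) -
      q / (1 - q) ^ 2 * ∑ r ∈ antidiagonal l, (((r.1 + 1 : ℕ) : K) * q ^ r.1) *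
        (q ^ (P + r.1) * es x (P + r.1)) * (q ^ r.2 * Cn q x (r.2 + 2) i j) =
      ∑ r ∈ antidiagonal l, (qn q (r.1 + 1) * (q ^ (2 * P + r.1 - 1) + q ^ (2 * l + 4)) / (1 + q) -
      ((r.1 + 1 : ℕ) : K) * q ^ (1 + P + r.1 + l)) / (1 - q) ^ 2 * es x (P + r.1) *
      Cn q x (r.2 + 2) i j := by
    rw [mul_sum, mul_sum, mul_sum, ← sum_add_distrib, ← sum_sub_distrib]
    refine sum_congr rfl fun r hr => ?_
    rw [HasAntidiagonal.mem_antidiagonal] at hr
    obtain ⟨P', rfl⟩ := Nat.exists_eq_add_of_le hP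
    rw [show 2 * (2 + P') + r.1 - 1 = 2 * P' + r.1 + 3 by omega, ← hr,
      show (1 - q) * (1 - q ^ 2) = (1 - q) ^ 2 * (1 + q) by ring]
    generalize ((r.1 + 1 : ℕ) : K) = c
    simp only [inv_pow, one_pow, one_mul]
    field_simp
    ring
  linear_combination S1 + S2 + S3

end Pool.Agent.SWD
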