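import Pool.Agent.Lib.MP_263316_co.CB.SpecB

/-!
MP_263316_co, part CB2, RG3: diagonalization with three states and two states.
-/

set_option autoImplicit false

namespace Pool.Agent.SWD

open Finset Pool.Agent.SWC Pool.Agent.SWB

namespace RG3X

variable {K : Type} [Field K]

private theorem base3 (q s τ : K) (h1 : 1 - q ≠ 0) (h2 : 1 + q ≠ 0)
    (h3 : q * s - τ ≠ 0) (h4 : s - τ ≠ 0) (h5 : s - q * τ ≠ 0) (W : Fin 3 → K) :
    W = rg3 q s τ 1 1 1 W := by
  have h6 : 1 - q ^ 2 = (1 - q) * (1 + q) := by ring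
  have h7 : (1 : K) / ((1 - q) * (1 - q ^ 2) * (s - q * τ) * (s - τ)) -
      1 / ((1 - q) ^ 2 * (q * s - τ) * (s - q * τ)) +
      1 / ((1 - q) * (1 - q ^ 2) * (q * s - τ) * (s - τ)) = 0 := by
    rw [h6]
    field_simp
    ring
  funext c
  fin_cases c
  · simp [rg3]
  · simp [rg3]
  · show W 2 = 1 * W 2 + (1 - 1) / ((1 - q) * (s - q * τ)) * W 1 +
      (1 / ((1 - q) * (1 - q ^ 2) * (s - q * τ) * (s - τ)) -
        1 / ((1 - q) ^ 2 * (q * s - τ) * (s - q * τ)) +
        1 / ((1 - q) * (1 - q ^ 2) * (q * s - τ) * (s - τ))) * W 0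
    rw [h7]
    ring

private theorem step3 (q s τ x p0 p1 p3 : K) (h1 : 1 - q ≠ 0) (h2 : 1 + q ≠ 0)
    (h3 : q * s - τ ≠ 0) (h4 : s - τ ≠ 0) (h5 : s - q * τ ≠ 0) (W : Fin 3 → K) :
    sp3 q s τ x (rg3 q s τ p0 p1 p3 W) =
      rg3 q s τ (p0 * ((1 + q ^ 2 * s * x) * (1 + τ * x)))
        (p1 * ((1 + q * s * x) * (1 + q * τ * x)))
        (p3 * ((1 + s * x) * (1 + q ^ 2 * τ * x))) W := by
  have h6 : 1 - q ^ 2 = (1 - q) * (1 + q) := by ring
  funext c
  fin_cases c
  · show (1 + q ^ 2 * s * x) * (1 + τ * x) * (p0 * W 0) =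
      p0 * ((1 + q ^ 2 * s * x) * (1 + τ * x)) * W 0
    ring
  · show (1 + q * s * x) * (1 + q * τ * x) *
        (p1 * W 1 + (p1 - p0) / ((1 - q) * (q * s - τ)) * W 0) + x * (p0 * W 0) =
      p1 * ((1 + q * s * x) * (1 + q * τ * x)) * W 1 +
        (p1 * ((1 + q * s * x) * (1 + q * τ * x)) -
          p0 * ((1 + q ^ 2 * s * x) * (1 + τ * x))) / ((1 - q) * (q * s - τ)) * W 0
    field_simp
    ring
  · show (1 + s * x) * (1 + q ^ 2 * τ * x) *
        (p3 * W 2 + (p3 - p1) / ((1 - q) * (s - q * τ)) * W 1 +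
          (p3 / ((1 - q) * (1 - q ^ 2) * (s - q * τ) * (s - τ)) -
            p1 / ((1 - q) ^ 2 * (q * s - τ) * (s - q * τ)) +
            p0 / ((1 - q) * (1 - q ^ 2) * (q * s - τ) * (s - τ))) * W 0) +
        x * (p1 * W 1 + (p1 - p0) / ((1 - q) * (q * s - τ)) * W 0) =
      p3 * ((1 + s * x) * (1 + q ^ 2 * τ * x)) * W 2 +
        (p3 * ((1 + s * x) * (1 + q ^ 2 * τ * x)) -
          p1 * ((1 + q * s * x) * (1 + q * τ * x))) / ((1 - q) * (s - q * τ)) * W 1 +
        (p3 * ((1 + s * x) * (1 + q ^ 2 * τ * x)) /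
            ((1 - q) * (1 - q ^ 2) * (s - q * τ) * (s - τ)) -
          p1 * ((1 + q * s * x) * (1 + q * τ * x)) /
            ((1 - q) ^ 2 * (q * s - τ) * (s - q * τ)) +
          p0 * ((1 + q ^ 2 * s * x) * (1 + τ * x)) /
            ((1 - q) * (1 - q ^ 2) * (q * s - τ) * (s - τ))) * W 0
    rw [h6]
    field_simp
    ring

private theorem base2 (q z τ : K) (W : Fin 2 → K) : W = rg2 q z τ 1 1 W := by
  funext c
  fin_cases c <;> simp [rg2]

private theorem step2 (q z τ x p0 p1 : K) (h1 : 1 - q ≠ 0) (h4 : z - τ ≠ 0) (W : Fin 2 → K) :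
    sp2 q z τ x (rg2 q z τ p0 p1 W) =
      rg2 q z τ (p0 * ((1 + q * z * x) * (1 + τ * x))) (p1 * ((1 + z * x) * (1 + q * τ * x)))
        W := by
  funext c
  fin_cases c
  · show (1 + q * z * x) * (1 + τ * x) * (p0 * W 0) =
      p0 * ((1 + q * z * x) * (1 + τ * x)) * W 0
    ring
  · show (1 + z * x) * (1 + q * τ * x) *
        (p1 * W 1 + z * (p1 - p0) / ((1 - q) * (z - τ)) * W 0) + z * x * (p0 * W 0) =
      p1 * ((1 + z * x) * (1 + q * τ * x)) * W 1 +
        z * (p1 * ((1 + z * x) * (1 + q * τ * x)) -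
          p0 * ((1 + q * z * x) * (1 + τ * x))) / ((1 - q) * (z - τ)) * W 0
    field_simp
    ring

end RG3X

open RG3X in
theorem t_RG3 : S_RG3 := by
  refine ⟨?_, ?_⟩
  · intro K _ q s τ h1 h2 h3 h4 h5 X a e hae
    induction e, hae using Nat.le_induction with
    | base =>
      intro V _
      rw [Ico_self, prod_empty, prod_empty, prod_empty]
      exact base3 q s τ h1 h2 h3 h4 h5 (V a)
    | succ e hae ih =>
      intro V hV
      rw [hV e hae (Nat.lt_succ_self e), ih V fun k h h' => hV k h (h'.trans (Nat.lt_succ_self e)),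
        prod_Ico_succ_top hae, prod_Ico_succ_top hae, prod_Ico_succ_top hae]
      exact step3 q s τ (X e) _ _ _ h1 h2 h3 h4 h5 (V a)
  · intro K _ q z τ h1 h4 X a e hae
    induction e, hae using Nat.le_induction with
    | base =>
      intro V _
      rw [Ico_self, prod_empty, prod_empty]
      exact base2 q z τ (V a)
    | succ e hae ih =>
      intro V hV
      rw [hV e hae (Nat.lt_succ_self e), ih V fun k h h' => hV k h (h'.trans (Nat.lt_succ_self e)),
        prod_Ico_succ_top hae, prod_Ico_succ_top hae]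
      exact step2 q z τ (X e) _ _ h1 h4 (V a)

end Pool.Agent.SWD
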