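import Pool.Agent.Lib.MP_263316_co.CB.SpecB

/-!
MP_263316_co, part CB2, task RG4: the diagonalization of the transfer matrix with four states.
-/

set_option autoImplicit false

namespace Pool.Agent.SWD

open Finset Pool.Agent.SWC Pool.Agent.SWB

namespace RG4

variable {K : Type} [Field K]

/-- component one -/
theorem c1 (q u v τ x p0 pu W0 W1 : K) (h1 : 1 - q ≠ 0) (h2 : v - u ≠ 0) (h3 : q * u - τ ≠ 0) :
    (1 + q * u * x) * (1 + q * v * x) * (1 + q * τ * x) *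
        (pu * W1 + (pu - p0) / ((1 - q) * (v - u) * (q * u - τ)) * W0) +
      x * (1 + q * v * x) / (v - u) * (p0 * W0) =
    pu * ((1 + q * u * x) * (1 + q * v * x) * (1 + q * τ * x)) * W1 +
      (pu * ((1 + q * u * x) * (1 + q * v * x) * (1 + q * τ * x)) -
        p0 * ((1 + q ^ 2 * u * x) * (1 + q * v * x) * (1 + τ * x))) /
        ((1 - q) * (v - u) * (q * u - τ)) * W0 := by
  field_simp
  ring

/-- component two -/
theorem c2 (q u v τ x p0 pv W0 W2 : K) (h1 : 1 - q ≠ 0) (h2 : v - q ^ 2 * u ≠ 0)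
    (h3 : v - τ ≠ 0) :
    (1 + q ^ 2 * u * x) * (1 + v * x) * (1 + q * τ * x) *
        (pv * W2 + q * (pv - p0) / ((1 - q) * (v - q ^ 2 * u) * (v - τ)) * W0) +
      q * (x * (1 + q ^ 2 * u * x)) / (v - q ^ 2 * u) * (p0 * W0) =
    pv * ((1 + q ^ 2 * u * x) * (1 + v * x) * (1 + q * τ * x)) * W2 +
      q * (pv * ((1 + q ^ 2 * u * x) * (1 + v * x) * (1 + q * τ * x)) -
        p0 * ((1 + q ^ 2 * u * x) * (1 + q * v * x) * (1 + τ * x))) /
        ((1 - q) * (v - q ^ 2 * u) * (v - τ)) * W0 := by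
  field_simp
  ring

/-- coefficient of `W 1` in component three -/
theorem k1 (q u v τ x p3 pu : K) (h1 : 1 - q ≠ 0) (h2 : v - q * τ ≠ 0) :
    (1 + q * u * x) * (1 + v * x) * (1 + q ^ 2 * τ * x) * ((p3 - pu) / ((1 - q) * (v - q * τ))) +
      x * (1 + q * u * x) * pu =
    (p3 * ((1 + q * u * x) * (1 + v * x) * (1 + q ^ 2 * τ * x)) -
      pu * ((1 + q * u * x) * (1 + q * v * x) * (1 + q * τ * x))) / ((1 - q) * (v - q * τ)) := by
  field_simp
  ring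

/-- coefficient of `W 2` in component three -/
theorem k2 (q u v τ x p3 pv : K) (h0 : q ≠ 0) (h1 : 1 - q ≠ 0) (h2 : u - τ ≠ 0) :
    (1 + q * u * x) * (1 + v * x) * (1 + q ^ 2 * τ * x) * ((p3 - pv) / ((1 - q) * q * (u - τ))) +
      x * (1 + v * x) * pv =
    (p3 * ((1 + q * u * x) * (1 + v * x) * (1 + q ^ 2 * τ * x)) -
      pv * ((1 + q ^ 2 * u * x) * (1 + v * x) * (1 + q * τ * x))) / ((1 - q) * q * (u - τ)) := by
  field_simp
  ring

/-- coefficient of `pu * W 0` in component three -/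
theorem ku (q u v τ x : K) (h1 : 1 - q ≠ 0) (h2 : v - u ≠ 0) (h3 : q * u - τ ≠ 0)
    (h4 : v - q * τ ≠ 0) :
    (1 + q * u * x) * (1 + v * x) * (1 + q ^ 2 * τ * x) *
        (1 / ((1 - q) ^ 2 * (v - u) * (q * u - τ) * (v - q * τ))) =
      (1 + q * u * x) * (1 + q * v * x) * (1 + q * τ * x) *
        (1 / ((1 - q) ^ 2 * (v - u) * (q * u - τ) * (v - q * τ))) +
      x * (1 + q * u * x) * (1 / ((1 - q) * (v - u) * (q * u - τ))) := by
  field_simp
  ring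

/-- coefficient of `pv * W 0` in component three -/
theorem kv (q u v τ x : K) (h1 : 1 - q ≠ 0) (h2 : v - q ^ 2 * u ≠ 0) (h3 : v - τ ≠ 0)
    (h4 : u - τ ≠ 0) :
    (1 + q * u * x) * (1 + v * x) * (1 + q ^ 2 * τ * x) *
        (1 / ((1 - q) ^ 2 * (v - q ^ 2 * u) * (v - τ) * (u - τ))) =
      (1 + q ^ 2 * u * x) * (1 + v * x) * (1 + q * τ * x) *
        (1 / ((1 - q) ^ 2 * (v - q ^ 2 * u) * (v - τ) * (u - τ))) +
      x * (1 + v * x) * (q / ((1 - q) * (v - q ^ 2 * u) * (v - τ))) := by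
  field_simp
  ring

/-- coefficient of `p0 * W 0` in component three -/
theorem k0 (q u v τ x : K) (h1 : 1 - q ≠ 0) (h2 : v - u ≠ 0) (h3 : v - q ^ 2 * u ≠ 0)
    (h4 : q * u - τ ≠ 0) (h5 : v - τ ≠ 0) :
    (1 + q * u * x) * (1 + v * x) * (1 + q ^ 2 * τ * x) *
        ((v - q * u) / ((1 - q) ^ 2 * (v - u) * (v - q ^ 2 * u) * (q * u - τ) * (v - τ))) -
      x * (1 + q * u * x) * (1 / ((1 - q) * (v - u) * (q * u - τ))) -
      x * (1 + v * x) * (q / ((1 - q) * (v - q ^ 2 * u) * (v - τ))) =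
    (1 + q ^ 2 * u * x) * (1 + q * v * x) * (1 + τ * x) *
      ((v - q * u) / ((1 - q) ^ 2 * (v - u) * (v - q ^ 2 * u) * (q * u - τ) * (v - τ))) := by
  field_simp
  ring

/-- one step -/
theorem step (q u v τ x p0 pu pv p3 : K) (W : Fin 4 → K) (h0 : q ≠ 0) (h1 : 1 - q ≠ 0)
    (h2 : v - u ≠ 0) (h3 : v - q ^ 2 * u ≠ 0) (h4 : q * u - τ ≠ 0) (h5 : v - τ ≠ 0)
    (h6 : u - τ ≠ 0) (h7 : v - q * τ ≠ 0) :
    sp q u v τ x (rg q u v τ p0 pu pv p3 W) =
      rg q u v τ (p0 * ((1 + q ^ 2 * u * x) * (1 + q * v * x) * (1 + τ * x)))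
        (pu * ((1 + q * u * x) * (1 + q * v * x) * (1 + q * τ * x)))
        (pv * ((1 + q ^ 2 * u * x) * (1 + v * x) * (1 + q * τ * x)))
        (p3 * ((1 + q * u * x) * (1 + v * x) * (1 + q ^ 2 * τ * x))) W := by
  have e1 := c1 q u v τ x p0 pu (W 0) (W 1) h1 h2 h4
  have e2 := c2 q u v τ x p0 pv (W 0) (W 2) h1 h3 h5
  have e3 := k1 q u v τ x p3 pu h1 h7
  have e4 := k2 q u v τ x p3 pv h0 h1 h6
  have e5 := ku q u v τ x h1 h2 h4 h7
  have e6 := kv q u v τ x h1 h3 h5 h6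
  have e7 := k0 q u v τ x h1 h2 h3 h4 h5
  have g0 : (sp q u v τ x (rg q u v τ p0 pu pv p3 W)) 0 =
      (rg q u v τ (p0 * ((1 + q ^ 2 * u * x) * (1 + q * v * x) * (1 + τ * x)))
        (pu * ((1 + q * u * x) * (1 + q * v * x) * (1 + q * τ * x)))
        (pv * ((1 + q ^ 2 * u * x) * (1 + v * x) * (1 + q * τ * x)))
        (p3 * ((1 + q * u * x) * (1 + v * x) * (1 + q ^ 2 * τ * x))) W) 0 := by
    show (1 + q ^ 2 * u * x) * (1 + q * v * x) * (1 + τ * x) * (p0 * W 0) = _ * W 0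
    ring
  have g1 : (sp q u v τ x (rg q u v τ p0 pu pv p3 W)) 1 =
      (rg q u v τ (p0 * ((1 + q ^ 2 * u * x) * (1 + q * v * x) * (1 + τ * x)))
        (pu * ((1 + q * u * x) * (1 + q * v * x) * (1 + q * τ * x)))
        (pv * ((1 + q ^ 2 * u * x) * (1 + v * x) * (1 + q * τ * x)))
        (p3 * ((1 + q * u * x) * (1 + v * x) * (1 + q ^ 2 * τ * x))) W) 1 := e1
  have g2 : (sp q u v τ x (rg q u v τ p0 pu pv p3 W)) 2 =
      (rg q u v τ (p0 * ((1 + q ^ 2 * u * x) * (1 + q * v * x) * (1 + τ * x)))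
        (pu * ((1 + q * u * x) * (1 + q * v * x) * (1 + q * τ * x)))
        (pv * ((1 + q ^ 2 * u * x) * (1 + v * x) * (1 + q * τ * x)))
        (p3 * ((1 + q * u * x) * (1 + v * x) * (1 + q ^ 2 * τ * x))) W) 2 := e2
  have g3 : (sp q u v τ x (rg q u v τ p0 pu pv p3 W)) 3 =
      (rg q u v τ (p0 * ((1 + q ^ 2 * u * x) * (1 + q * v * x) * (1 + τ * x)))
        (pu * ((1 + q * u * x) * (1 + q * v * x) * (1 + q * τ * x)))
        (pv * ((1 + q ^ 2 * u * x) * (1 + v * x) * (1 + q * τ * x)))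
        (p3 * ((1 + q * u * x) * (1 + v * x) * (1 + q ^ 2 * τ * x))) W) 3 := by
    show (1 + q * u * x) * (1 + v * x) * (1 + q ^ 2 * τ * x) *
        (p3 * W 3 + (p3 - pu) / ((1 - q) * (v - q * τ)) * W 1 +
          (p3 - pv) / ((1 - q) * q * (u - τ)) * W 2 +
          ((v - q * u) * p3 / ((1 - q) ^ 2 * (v - u) * (v - q ^ 2 * u) * (u - τ) * (v - q * τ)) -
            pu / ((1 - q) ^ 2 * (v - u) * (q * u - τ) * (v - q * τ)) -
            pv / ((1 - q) ^ 2 * (v - q ^ 2 * u) * (v - τ) * (u - τ)) +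
            (v - q * u) * p0 /
              ((1 - q) ^ 2 * (v - u) * (v - q ^ 2 * u) * (q * u - τ) * (v - τ))) * W 0) +
        x * (1 + q * u * x) * (pu * W 1 + (pu - p0) / ((1 - q) * (v - u) * (q * u - τ)) * W 0) +
        x * (1 + v * x) * (pv * W 2 + q * (pv - p0) / ((1 - q) * (v - q ^ 2 * u) * (v - τ)) * W 0) =
      p3 * ((1 + q * u * x) * (1 + v * x) * (1 + q ^ 2 * τ * x)) * W 3 +
        (p3 * ((1 + q * u * x) * (1 + v * x) * (1 + q ^ 2 * τ * x)) -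
          pu * ((1 + q * u * x) * (1 + q * v * x) * (1 + q * τ * x))) /
            ((1 - q) * (v - q * τ)) * W 1 +
        (p3 * ((1 + q * u * x) * (1 + v * x) * (1 + q ^ 2 * τ * x)) -
          pv * ((1 + q ^ 2 * u * x) * (1 + v * x) * (1 + q * τ * x))) /
            ((1 - q) * q * (u - τ)) * W 2 +
        ((v - q * u) * (p3 * ((1 + q * u * x) * (1 + v * x) * (1 + q ^ 2 * τ * x))) /
            ((1 - q) ^ 2 * (v - u) * (v - q ^ 2 * u) * (u - τ) * (v - q * τ)) -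
          pu * ((1 + q * u * x) * (1 + q * v * x) * (1 + q * τ * x)) /
            ((1 - q) ^ 2 * (v - u) * (q * u - τ) * (v - q * τ)) -
          pv * ((1 + q ^ 2 * u * x) * (1 + v * x) * (1 + q * τ * x)) /
            ((1 - q) ^ 2 * (v - q ^ 2 * u) * (v - τ) * (u - τ)) +
          (v - q * u) * (p0 * ((1 + q ^ 2 * u * x) * (1 + q * v * x) * (1 + τ * x))) /
            ((1 - q) ^ 2 * (v - u) * (v - q ^ 2 * u) * (q * u - τ) * (v - τ))) * W 0
    linear_combination (W 1) * e3 + (W 2) * e4 - (pu * W 0) * e5 - (pv * W 0) * e6 +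
      (p0 * W 0) * e7
  funext i
  fin_cases i
  · exact g0
  · exact g1
  · exact g2
  · exact g3

/-- no colour -/
theorem base (q u v τ : K) (W : Fin 4 → K) (h1 : 1 - q ≠ 0)
    (h2 : v - u ≠ 0) (h3 : v - q ^ 2 * u ≠ 0) (h4 : q * u - τ ≠ 0) (h5 : v - τ ≠ 0)
    (h6 : u - τ ≠ 0) (h7 : v - q * τ ≠ 0) : rg q u v τ 1 1 1 1 W = W := by
  have e : (v - q * u) * 1 / ((1 - q) ^ 2 * (v - u) * (v - q ^ 2 * u) * (u - τ) * (v - q * τ)) -
        1 / ((1 - q) ^ 2 * (v - u) * (q * u - τ) * (v - q * τ)) -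
        1 / ((1 - q) ^ 2 * (v - q ^ 2 * u) * (v - τ) * (u - τ)) +
        (v - q * u) * 1 / ((1 - q) ^ 2 * (v - u) * (v - q ^ 2 * u) * (q * u - τ) * (v - τ)) =
        0 := by
    field_simp
    ring
  funext i
  fin_cases i
  · show 1 * W 0 = W 0
    ring
  · show 1 * W 1 + (1 - 1) / ((1 - q) * (v - u) * (q * u - τ)) * W 0 = W 1
    simp
  · show 1 * W 2 + q * (1 - 1) / ((1 - q) * (v - q ^ 2 * u) * (v - τ)) * W 0 = W 2
    simp
  · show 1 * W 3 + (1 - 1) / ((1 - q) * (v - q * τ)) * W 1 +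
      (1 - 1) / ((1 - q) * q * (u - τ)) * W 2 +
      ((v - q * u) * 1 / ((1 - q) ^ 2 * (v - u) * (v - q ^ 2 * u) * (u - τ) * (v - q * τ)) -
        1 / ((1 - q) ^ 2 * (v - u) * (q * u - τ) * (v - q * τ)) -
        1 / ((1 - q) ^ 2 * (v - q ^ 2 * u) * (v - τ) * (u - τ)) +
        (v - q * u) * 1 / ((1 - q) ^ 2 * (v - u) * (v - q ^ 2 * u) * (q * u - τ) * (v - τ))) *
          W 0 = W 3
    rw [e]
    simp

end RG4

theorem t_RG4 : S_RG4 := by
  intro K _ q u v τ h0 h1 h2 h3 h4 h5 h6 h7 X s e hse V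
  induction e, hse using Nat.le_induction with
  | base =>
    intro _
    simp only [Ico_self, prod_empty]
    exact (RG4.base q u v τ (V s) h1 h2 h3 h4 h5 h6 h7).symm
  | succ e hse ih =>
    intro hV
    rw [hV e hse (Nat.lt_succ_self e), ih fun k hk hk' => hV k hk (Nat.lt_succ_of_lt hk'),
      RG4.step q u v τ (X e) _ _ _ _ (V s) h0 h1 h2 h3 h4 h5 h6 h7]
    simp only [prod_Ico_succ_top hse]

end Pool.Agent.SWD
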