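import Pool.Agent.Lib.MP_263316_co.CB.SpecC
import Pool.Agent.Lib.MP_263316_co.CB.MP

set_option autoImplicit false

namespace Pool.Agent.SWD

open Finset Pool.Agent.SWC Pool.Agent.SWB

private theorem se_fh {R R' : Type} [CommRing R] [CommRing R'] (φ : R →+* R') {N : ℕ} (q : R)
    (x : Fin N → R) (c : ℕ) (j : Fin N) :
    φ (fh q x c j) = fh (φ q) (fun k => φ (x k)) c j := by
  have hi : ∀ (P : Prop) [Decidable P] (a b : R),
      φ (if P then a else b) = if P then φ a else φ b := fun P _ a b => apply_ite φ P a b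
  simp only [fh, map_sum, map_prod, map_mul, hi]

private theorem se_sum {A : Type} [CommRing A] (a : ℕ → A) (M : ℕ) (ha : ∀ p, M < p → a p = 0)
    (c : A) : ∑ p ∈ range (M + 1), PowerSeries.C (a p) * (PowerSeries.C c * PowerSeries.X) ^ p =
      PowerSeries.mk (fun p => c ^ p * a p) := by
  ext n
  rw [map_sum, PowerSeries.coeff_mk]
  have h1 : ∀ p ∈ range (M + 1), PowerSeries.coeff n
      (PowerSeries.C (a p) * (PowerSeries.C c * PowerSeries.X) ^ p) =
      if n = p then c ^ p * a p else 0 := by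
    intro p _
    rw [mul_pow, ← map_pow, ← mul_assoc, ← map_mul, PowerSeries.coeff_C_mul,
      PowerSeries.coeff_X_pow]
    split_ifs
    · ring
    · ring
  rw [sum_congr rfl h1, sum_ite_eq]
  split_ifs with h
  · rfl
  · have h2 : M < n := by
      rw [mem_range] at h
      omega
    rw [ha n h2, mul_zero]

theorem t_SE : S_SE := by
  intro hES A _
  refine ⟨?_, ?_, ?_, ?_, ?_⟩
  · intro c
    ext n
    rcases n with _ | n
    · simp [gs, sub_mul, mul_assoc]
    · rw [sub_mul, one_mul, map_sub, mul_assoc, PowerSeries.coeff_C_mul,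
        PowerSeries.coeff_succ_X_mul]
      simp only [gs, PowerSeries.coeff_mk, PowerSeries.coeff_one]
      rw [if_neg (Nat.succ_ne_zero n), pow_succ]
      ring
  · intro c q
    ext n
    simp only [gs, PowerSeries.coeff_mul, PowerSeries.coeff_mk, qn]
    rw [Finset.Nat.sum_antidiagonal_eq_sum_range_succ (fun i j => c ^ i * (q * c) ^ j) n,
      mul_sum, ← sum_range_reflect]
    refine sum_congr rfl fun i hi => ?_
    rw [mem_range] at hi
    have h1 : n - (n + 1 - 1 - i) = i := by omega
    have h2 : (n + 1 - 1 - i) + i = n := by omega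
    rw [h1, mul_pow]
    calc c ^ (n + 1 - 1 - i) * (q ^ i * c ^ i) = c ^ ((n + 1 - 1 - i) + i) * q ^ i := by
          rw [pow_add]; ring
      _ = c ^ n * q ^ i := by rw [h2]
  · intro c
    ext n
    simp only [gs, PowerSeries.coeff_mul, PowerSeries.coeff_mk]
    rw [Finset.Nat.sum_antidiagonal_eq_sum_range_succ (fun i j => c ^ i * c ^ j) n]
    have h1 : ∀ i ∈ range (n + 1), c ^ i * c ^ (n - i) = c ^ n := by
      intro i hi
      rw [mem_range] at hi
      rw [← pow_add]
      congr 1
      omega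
    rw [sum_congr rfl h1, sum_const, card_range, nsmul_eq_mul]
  · intro N q x c
    refine ⟨?_, ?_, ?_⟩
    · have h := hES (PowerSeries A) N (PowerSeries.C q) (fun k => PowerSeries.C (x k))
      rw [h.1]
      have h2 := (hES A N q x).2.1
      rw [← se_sum (fun p => es x p) N h2 c]
      refine sum_congr rfl fun p _ => ?_
      have h3 := (t_MP A (PowerSeries A) PowerSeries.C N q x).1 p
      rw [← h3]
    · intro i j
      have h := hES (PowerSeries A) N (PowerSeries.C q) (fun k => PowerSeries.C (x k))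
      rw [h.2.2.2.2.2.1]
      have h2 := fun m hm => (hES A N q x).2.2.2.2.2.2.1 i j m hm
      rw [← se_sum (fun m => Cn q x (m + 2) i j) N h2 c]
      refine sum_congr rfl fun p _ => ?_
      have h3 := (t_MP A (PowerSeries A) PowerSeries.C N q x).2.2.2.1 (p + 2) i j
      rw [← h3]
    · intro i
      have h := hES (PowerSeries A) N (PowerSeries.C q) (fun k => PowerSeries.C (x k))
      rw [h.2.2.1]
      have h2 := fun m (hm : N < m) => (hES A N q x).2.2.2.1 i m hm.le
      rw [← se_sum (fun m => fh q x m i) N h2 c]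
      refine sum_congr rfl fun p _ => ?_
      have h3 := se_fh (PowerSeries.C : A →+* PowerSeries A) q x p i
      rw [← h3]
  · intro l F G H
    rw [PowerSeries.coeff_mul]
    simp only [PowerSeries.coeff_mul, sum_mul]
    rw [sum_sigma']
    refine sum_bij' (fun s _ => (s.2.1, s.2.2, s.1.2)) (fun t _ =>
      (⟨(t.1 + t.2.1, t.2.2), (t.1, t.2.1)⟩ : (_ : ℕ × ℕ) × (ℕ × ℕ))) ?_ ?_ ?_ ?_ ?_
    · rintro ⟨⟨a, b⟩, ⟨c, d⟩⟩ h
      simp only [mem_sigma, HasAntidiagonal.mem_antidiagonal] at h
      rw [mem_tri]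
      simp only
      omega
    · rintro ⟨a, b, c⟩ h
      rw [mem_tri] at h
      simp only at h
      simp only [mem_sigma, HasAntidiagonal.mem_antidiagonal]
      exact ⟨h, trivial⟩
    · rintro ⟨⟨a, b⟩, ⟨c, d⟩⟩ h
      simp only [mem_sigma, HasAntidiagonal.mem_antidiagonal] at h
      obtain ⟨h1, h2⟩ := h
      subst h2
      rfl
    · rintro ⟨a, b, c⟩ h
      rfl
    · rintro ⟨⟨a, b⟩, ⟨c, d⟩⟩ h
      rfl

end Pool.Agent.SWD
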