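import Pool.Agent.Lib.MP_263316_co.CB.SpecC

/-! MP_263316_co, CB/SF: a power series identity over a field. -/

set_option autoImplicit false

namespace Pool.Agent.SWD

open Finset Pool.Agent.SWC Pool.Agent.SWB

private theorem sf_geo (K : Type) [Field K] (q : K) (h2 : 1 + q ≠ 0) (n : ℕ) :
    ∑ j ∈ range (n + 1), (q ^ 2) ^ j - q * ∑ j ∈ range n, (q ^ 2) ^ j =
      (1 + q ^ (2 * n + 1)) / (1 + q) := by
  rw [eq_div_iff h2]
  induction n with
  | zero => simp
  | succ n ih =>
    rw [Finset.sum_range_succ (fun j => (q ^ 2) ^ j) (n + 1),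
      Finset.sum_range_succ (fun j => (q ^ 2) ^ j) n]
    have h := ih
    rw [Finset.sum_range_succ (fun j => (q ^ 2) ^ j) n] at h
    have e1 : (q ^ 2) ^ (n + 1) = q ^ (2 * n) * q ^ 2 := by rw [pow_succ, ← pow_mul]
    have e2 : (q ^ 2) ^ n = q ^ (2 * n) := by rw [← pow_mul]
    have e3 : q ^ (2 * (n + 1) + 1) = q ^ (2 * n) * q ^ 3 := by rw [← pow_add]; ring_nf
    have e4 : q ^ (2 * n + 1) = q ^ (2 * n) * q := by rw [pow_succ]
    rw [e2, e4] at h
    rw [e1, e2, e3]
    linear_combination h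

private theorem sf_P (K : Type) [Field K] (q : K) :
    gs (1 : PB K) * gs (kB (q ^ 2)) =
      PowerSeries.mk (fun n => kB (∑ j ∈ range (n + 1), (q ^ 2) ^ j)) := by
  refine PowerSeries.ext fun n => ?_
  rw [PowerSeries.coeff_mul, PowerSeries.coeff_mk, map_sum,
    Finset.Nat.sum_antidiagonal_eq_sum_range_succ_mk,
    ← Finset.sum_range_reflect (fun j => kB ((q ^ 2) ^ j)) (n + 1)]
  refine Finset.sum_congr rfl fun j hj => ?_
  simp only [gs, PowerSeries.coeff_mk, one_pow, one_mul, map_pow]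
  congr 1

theorem t_SF : S_SF := by
  intro K _ q _ h2
  rw [mul_assoc, sf_P]
  refine PowerSeries.ext fun n => ?_
  have e : (kA q * rA : PA K) = PowerSeries.X * PowerSeries.C (kB q) := by
    rw [mul_comm]; rfl
  rw [e, sub_mul, one_mul, mul_assoc, map_sub, gA, PowerSeries.coeff_mk, PowerSeries.coeff_mk]
  cases n with
  | zero =>
    rw [PowerSeries.coeff_zero_X_mul, sub_zero]
    have h := sf_geo K q h2 0
    rw [Finset.sum_range_zero, mul_zero, sub_zero] at h
    rw [h]
  | succ n =>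
    rw [PowerSeries.coeff_succ_X_mul, PowerSeries.coeff_C_mul, PowerSeries.coeff_mk, ← map_mul,
      ← map_sub, sf_geo K q h2 (n + 1)]

end Pool.Agent.SWD
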