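import Pool.Agent.Lib.MP_263316_co.CB.Spec

/-!
# MP_263316_co, part CB, module SG: symmetrization and the cones
-/

set_option autoImplicit false

namespace Pool.Agent.SWD

open Finset Pool.Agent.SWC Pool.Agent.SWB

namespace SGAux

theorem PU_gen {i k d : ℕ} (h : 2 * i + k = d + 1) : (qX ^ i * Q k : PX) ∈ PU d :=
  AddSubmonoid.subset_closure ⟨i, k, h, rfl⟩

theorem one_PU : (1 : PX) ∈ PU 0 := by
  have h := PU_gen (i := 0) (k := 1) (d := 0) (by norm_num)
  rwa [pow_zero, one_mul, Q_one] at h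

theorem X_PU : (qX : PX) ∈ PU 2 := by
  have h := PU_gen (i := 1) (k := 1) (d := 2) (by norm_num)
  rwa [pow_one, Q_one, mul_one] at h

theorem two_PU : (1 + qX : PX) ∈ PU 1 := by
  have h := PU_gen (i := 0) (k := 2) (d := 1) (by norm_num)
  rwa [pow_zero, one_mul, Q_succ, Q_one, pow_one] at h

theorem es_zero {R : Type} [CommRing R] {N : ℕ} (x : Fin N → R) : es x 0 = 1 := by
  simp [es]

theorem qq_pow (N i : ℕ) : (qq N) ^ i = MvPolynomial.C (qX ^ i) := by
  rw [map_pow]
  rfl

theorem qq_ne (N : ℕ) : qq N ≠ 1 := by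
  intro h
  have h1 : (MvPolynomial.C Polynomial.X : AN N) = MvPolynomial.C 1 := by
    rw [map_one]
    exact h
  have h2 := MvPolynomial.C_injective (Fin N) PX h1
  have h3 := congrArg (fun p : PX => p.coeff 1) h2
  simp [Polynomial.coeff_one] at h3

theorem oneq (hCG : S_CG) (N : ℕ) : (1 + qq N) ∈ Cone N 0 1 := by
  have h := (hCG N 1 (1 + qX) two_PU 0).1
  rw [es_zero, mul_one, map_add, map_one] at h
  exact h

theorem sg_zero {R : Type} [CommRing R] {N : ℕ} : sg (0 : Fin N → Fin N → R) = 0 := by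
  funext i j
  simp [sg]

theorem sg_sum {R : Type} [CommRing R] {N : ℕ} {ι : Type} (s : Finset ι)
    (F : ι → Fin N → Fin N → R) : sg (∑ i ∈ s, F i) = ∑ i ∈ s, sg (F i) := by
  classical
  induction s using Finset.induction_on with
  | empty => rw [Finset.sum_empty, Finset.sum_empty, sg_zero]
  | insert i s hi ih => rw [Finset.sum_insert hi, Finset.sum_insert hi, sg_add, ih]

theorem SC_supp {N n d : ℕ} {f : Fin N → Fin N → AN N} (hf : f ∈ SC N n d) :
    ∀ i j, ¬ i < j → f i j = 0 := by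
  unfold SC at hf
  induction hf using AddSubmonoid.closure_induction with
  | mem f hf =>
    intro i j hij
    rcases hf with ⟨n', d', n0, a, u, -, -, -, -, -, rfl⟩ | ⟨n', d', k, u, -, -, -, -, rfl⟩
    · beta_reduce
      rw [bt_of_not hij, mul_zero]
    · beta_reduce
      rw [Cn_of_not hij, mul_zero]
  | zero => intro i j _; rfl
  | add f g _ _ hf hg =>
    intro i j hij
    rw [Pi.add_apply, Pi.add_apply, hf i j hij, hg i j hij, add_zero]

theorem sg_iot {R : Type} [CommRing R] {N : ℕ} (q : R) (f : Fin N → Fin N → R)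
    (hf : ∀ i j, ¬ i < j → f i j = 0) : sg (iot q f) = fun i j => (1 + q) * f i j := by
  funext i j
  by_cases h : i < j
  · have h' : ¬ j < i := not_lt.mpr h.le
    simp only [sg, iot, if_pos h, if_neg h']
    ring
  · simp only [sg, if_neg h, hf i j h, mul_zero]

theorem sg_iot_mem (hCM : S_CM) (hCG : S_CG) {N n d : ℕ} {f : Fin N → Fin N → AN N}
    (hf : f ∈ SC N n d) : sg (iot (qq N) f) ∈ SC N n (d + 1) := by
  rw [sg_iot (qq N) f (SC_supp hf)]
  have h := (hCM N n d 0 1 (1 + qq N) (oneq hCG N)).1 f hf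
  rwa [Nat.zero_add, Nat.add_comm 1 d] at h

theorem bt_odd (hSTR : S_STR) {R : Type} [CommRing R] {N : ℕ} (q : R) (x : Fin N → R) (c : ℕ) :
    bt q x (2 * c + 1) c = Sn q x (2 * c + 1) := by
  funext i j
  by_cases h : i < j
  · rw [← hSTR R N q x (2 * c + 1) i j h, bt, if_pos h]
    refine Finset.sum_congr rfl fun r hr => ?_
    rw [Finset.mem_Ico] at hr
    by_cases hrc : r ≤ c
    · rw [if_pos hrc, if_neg (by omega), add_zero]
    · rw [if_neg hrc, if_pos (by omega), zero_add]
      congr 3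
      omega
  · rw [bt_of_not h, Sn]
    refine (Finset.sum_eq_zero fun c _ => ?_).symm
    rw [Cn_of_not h, mul_zero]

theorem bt_two {R : Type} [CommRing R] {N : ℕ} (q : R) (x : Fin N → R) :
    bt q x 2 1 = fun i j => (1 + q) * Cn q x 2 i j := by
  funext i j
  by_cases h : i < j
  · simp [bt, Cn, h, eH_one]
    ring
  · beta_reduce
    rw [bt_of_not h, Cn_of_not h, mul_zero]

theorem B1 (hCM : S_CM) (hCG : S_CG) (hSTR : S_STR) (N d : ℕ) (p : PX) (hp : p ∈ PU d)
    (y c : ℕ) (hc : 1 ≤ c) :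
    (fun i j => MvPolynomial.C p * es (xx N) y * bt (qq N) (xx N) (c + 1) 1 i j) ∈
      SC N (y + (c + 1)) (d + c + 1) := by
  rcases Nat.lt_or_ge c 3 with h3 | h3
  · rcases Nat.lt_or_ge c 2 with h2 | h2
    · have hc1 : c = 1 := by omega
      subst hc1
      have h := (hCG N d p hp y).2.2.1 2 le_rfl
      have h' := (hCM N _ _ 0 1 (1 + qq N) (oneq hCG N)).1 _ h
      have e1 : 0 + (y + 2) = y + (1 + 1) := by omega
      have e2 : 1 + (d + 2 * 2 - 3) = d + 1 + 1 := by omega
      rw [e1, e2] at h'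
      have e3 : (fun i j => MvPolynomial.C p * es (xx N) y * bt (qq N) (xx N) (1 + 1) 1 i j) =
          fun i j => (1 + qq N) * (MvPolynomial.C p * es (xx N) y *
            Cn (qq N) (xx N) 2 i j) := by
        funext i j
        rw [show (1 + 1 : ℕ) = 2 from rfl, bt_two]
        ring
      rw [e3]
      exact h'
    · have hc2 : c = 2 := by omega
      subst hc2
      have h := (hCG N d p hp y).2.2.2.2 3 (by omega)
      have e2 : d + 2 * 3 - 3 = d + 2 + 1 := by omega
      rw [e2] at h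
      have e3 : bt (qq N) (xx N) (2 + 1) 1 = Sn (qq N) (xx N) 3 :=
        bt_odd hSTR (qq N) (xx N) 1
      rw [e3]
      exact h
  · have h := (hCG N d p hp y).2.2.2.1 (c + 1) 1 le_rfl (by omega)
    have e2 : d + 2 * 1 + (c + 1) - 2 = d + c + 1 := by omega
    rwa [e2] at h

theorem sg_dpl (hA7 : S_A7) {R : Type} [CommRing R] {N : ℕ} (q : R) (x : Fin N → R) (c : ℕ)
    (hc : 1 ≤ c) : sg (dpl q x (eH q x c)) = bt q x (c + 1) 1 := by
  funext i j
  exact (hA7 R N q x i j).2 c hc

/-- the case `f = bt` -/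
theorem caseBt (hCM : S_CM) (hCG : S_CG) (hOS : S_OS) (hA5 : S_A5a) (hA7 : S_A7)
    (hSTR : S_STR) (N n0 a : ℕ) (ha : 1 ≤ a) (hn : 2 * a + 2 ≤ n0) :
    sg (LL (qq N) (xx N) (iot (qq N) (bt (qq N) (xx N) n0 a))) ∈
      SC N (n0 + 1) (2 * a + n0 + 1) := by
  have e : LL (qq N) (xx N) (iot (qq N) (bt (qq N) (xx N) n0 a)) =
      bn (qq N) (xx N) n0 a +
      ((∑ i ∈ range (a + 1), fun j k => MvPolynomial.C (qX ^ (i + 1) * Q (2 * a - i - 1)) *
          es (xx N) i * dpl (qq N) (xx N) (eH (qq N) (xx N) (n0 - i)) j k) +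
        ∑ i ∈ range a, fun j k => MvPolynomial.C (qX ^ (a + i + 2) * Q (n0 - a - 3 - i)) *
          es (xx N) (n0 - a + i) * dpl (qq N) (xx N) (eH (qq N) (xx N) (a - i)) j k) := by
    funext j k
    rw [hA5 hOS (AN N) N (qq N) (qq_ne N) (xx N) n0 a ha hn j k]
    simp only [Pi.add_apply, Finset.sum_apply, qq_pow, qn_qq, map_mul]
  rw [e, sg_add, sg_add, sg_sum, sg_sum]
  refine AddSubmonoid.add_mem _ ?_ (AddSubmonoid.add_mem _ (AddSubmonoid.sum_mem _ fun i hi => ?_)
    (AddSubmonoid.sum_mem _ fun i hi => ?_))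
  · have e2 : sg (bn (qq N) (xx N) n0 a) = bt (qq N) (xx N) (n0 + 1) (a + 1) +
        fun i j => qq N * bt (qq N) (xx N) (n0 + 1) a i j := by
      funext i j
      exact (hA7 (AN N) N (qq N) (xx N) i j).1 n0 a ha hn
    rw [e2]
    refine AddSubmonoid.add_mem _ ?_ ?_
    · rcases Nat.lt_or_ge (2 * a + 2) n0 with h | h
      · have h1 := (hCG N 0 1 one_PU 0).2.2.2.1 (n0 + 1) (a + 1) (by omega) (by omega)
        rw [map_one, es_zero, one_mul] at h1
        simp only [one_mul] at h1
        have e3 : 0 + (n0 + 1) = n0 + 1 := by omega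
        have e4 : 0 + 2 * (a + 1) + (n0 + 1) - 2 = 2 * a + n0 + 1 := by omega
        rw [e3, e4] at h1
        exact h1
      · have hn0 : n0 + 1 = 2 * (a + 1) + 1 := by omega
        have h1 := (hCG N 0 1 one_PU 0).2.2.2.2 (n0 + 1) (by omega)
        rw [map_one, es_zero, one_mul] at h1
        simp only [one_mul] at h1
        have e3 : 0 + (n0 + 1) = n0 + 1 := by omega
        have e4 : 0 + 2 * (n0 + 1) - 3 = 2 * a + n0 + 1 := by omega
        rw [e3, e4] at h1
        have e5 : bt (qq N) (xx N) (n0 + 1) (a + 1) = Sn (qq N) (xx N) (n0 + 1) := by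
          rw [hn0]
          exact bt_odd hSTR (qq N) (xx N) (a + 1)
        rw [e5]
        exact h1
    · have h1 := (hCG N 2 qX X_PU 0).2.2.2.1 (n0 + 1) a ha (by omega)
      rw [es_zero, mul_one] at h1
      have e3 : 0 + (n0 + 1) = n0 + 1 := by omega
      have e4 : 2 + 2 * a + (n0 + 1) - 2 = 2 * a + n0 + 1 := by omega
      rw [e3, e4] at h1
      exact h1
  · rw [mem_range] at hi
    rw [sg_smul, sg_dpl hA7 _ _ _ (by omega)]
    have h1 := B1 hCM hCG hSTR N (2 * a + i) (qX ^ (i + 1) * Q (2 * a - i - 1))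
      (PU_gen (by omega)) i (n0 - i) (by omega)
    have e3 : i + (n0 - i + 1) = n0 + 1 := by omega
    have e4 : 2 * a + i + (n0 - i) + 1 = 2 * a + n0 + 1 := by omega
    rw [e3, e4] at h1
    exact h1
  · rw [mem_range] at hi
    rw [sg_smul, sg_dpl hA7 _ _ _ (by omega)]
    have h1 := B1 hCM hCG hSTR N (a + i + n0) (qX ^ (a + i + 2) * Q (n0 - a - 3 - i))
      (PU_gen (by omega)) (n0 - a + i) (a - i) (by omega)
    have e3 : n0 - a + i + (a - i + 1) = n0 + 1 := by omega
    have e4 : a + i + n0 + (a - i) + 1 = 2 * a + n0 + 1 := by omega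
    rw [e3, e4] at h1
    exact h1

/-- the case `f = Cn` -/
theorem caseCn (hCM : S_CM) (hCG : S_CG) (hA3 : S_A3) (hA7 : S_A7) (hSTR : S_STR) (N k : ℕ)
    (hk : 2 ≤ k) : sg (LL (qq N) (xx N) (iot (qq N) (Cn (qq N) (xx N) k))) ∈
      SC N (k + 1) (2 * k) := by
  have e : LL (qq N) (xx N) (iot (qq N) (Cn (qq N) (xx N) k)) =
      iot (qq N) (Cn (qq N) (xx N) (k + 1)) +
        fun i j => MvPolynomial.C (qX ^ 1 * Q (k - 2)) * es (xx N) 0 *
          dpl (qq N) (xx N) (eH (qq N) (xx N) k) i j := by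
    funext i j
    rw [hA3 (AN N) N (qq N) (xx N) k hk i j, Pi.add_apply, Pi.add_apply, map_mul, ← qq_pow,
      ← qn_qq, es_zero, mul_one, pow_one]
  rw [e, sg_add]
  refine AddSubmonoid.add_mem _ ?_ ?_
  · have h1 := (hCG N 0 1 one_PU 0).2.2.1 (k + 1) (by omega)
    rw [map_one, es_zero, one_mul] at h1
    simp only [one_mul] at h1
    have e3 : 0 + (k + 1) = k + 1 := by omega
    have e4 : 0 + 2 * (k + 1) - 3 = 2 * k - 1 := by omega
    rw [e3, e4] at h1
    have h2 := sg_iot_mem hCM hCG h1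
    have e5 : 2 * k - 1 + 1 = 2 * k := by omega
    rw [e5] at h2
    exact h2
  · rw [sg_smul, sg_dpl hA7 _ _ _ (by omega)]
    have h1 := B1 hCM hCG hSTR N (k - 1) (qX ^ 1 * Q (k - 2)) (PU_gen (by omega)) 0 k (by omega)
    have e3 : 0 + (k + 1) = k + 1 := by omega
    have e4 : k - 1 + k + 1 = 2 * k := by omega
    rw [e3, e4] at h1
    exact h1

theorem LL_zero {R : Type} [CommRing R] {N : ℕ} (q : R) (x : Fin N → R) :
    LL q x (0 : Fin N → Fin N → R) = 0 := by
  funext i j
  simp [LL]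

theorem dpl_zero {R : Type} [CommRing R] {N : ℕ} (q : R) (x : Fin N → R) :
    dpl q x (0 : Fin N → R) = 0 := by
  funext i j
  simp [dpl]

end SGAux

open SGAux

theorem t_SG : S_SG := by
  intro hCM hCG hOS hA3 hA5 hA7 hSTR _ N n d F hF
  unfold C2 at hF
  induction hF using AddSubmonoid.closure_induction with
  | zero => rw [sg_zero]; exact AddSubmonoid.zero_mem _
  | add F G _ _ hF hG => rw [sg_add]; exact AddSubmonoid.add_mem _ hF hG
  | mem F hF =>
    rcases hF with (⟨f, hf, rfl⟩ | ⟨n', d', hn, hd, f, hf, rfl⟩) | ⟨n', d', hn, hd, G, hG, rfl⟩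
    · exact sg_iot_mem hCM hCG hf
    · unfold SC at hf
      induction hf using AddSubmonoid.closure_induction with
      | zero => rw [dmi_iot_zero, LL_zero, sg_zero]; exact AddSubmonoid.zero_mem _
      | add f g _ _ hf hg => rw [iot_add, LL_add, sg_add]; exact AddSubmonoid.add_mem _ hf hg
      | mem f hf =>
        rcases hf with ⟨n1, d1, n0, a, u, hu, ha, hna, h1, h2, rfl⟩ |
          ⟨n1, d1, k, u, hu, hk, h1, h2, rfl⟩
        · rw [iot_smul, LL_smul, sg_smul]
          have h := (hCM N _ _ n1 d1 u hu).1 _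
            (caseBt hCM hCG hOS hA5 hA7 hSTR N n0 a ha hna)
          have e3 : n1 + (n0 + 1) = n := by omega
          have e4 : d1 + (2 * a + n0 + 1) = d + 1 := by omega
          rw [e3, e4] at h
          exact h
        · rw [iot_smul, LL_smul, sg_smul]
          have h := (hCM N _ _ n1 d1 u hu).1 _ (caseCn hCM hCG hA3 hA7 hSTR N k hk)
          have e3 : n1 + (k + 1) = n := by omega
          have e4 : d1 + 2 * k = d + 1 := by omega
          rw [e3, e4] at h
          exact h
    · unfold MCone at hG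
      induction hG using AddSubmonoid.closure_induction with
      | zero => rw [dpl_zero, sg_zero]; exact AddSubmonoid.zero_mem _
      | add f g _ _ hf hg => rw [dpl_add, sg_add]; exact AddSubmonoid.add_mem _ hf hg
      | mem G hG =>
        obtain ⟨n1, d1, c, u, hu, h1, h2, rfl⟩ := hG
        have e5 : eh (qq N) (xx N) c = eH (qq N) (xx N) (c + 1) := by
          funext j
          rw [eH_succ]
        rw [dpl_smul, sg_smul, e5, sg_dpl hA7 _ _ _ (by omega)]
        have h3 := B1 hCM hCG hSTR N 0 1 one_PU 0 (c + 1) (by omega)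
        rw [map_one, es_zero, one_mul] at h3
        simp only [one_mul] at h3
        have h := (hCM N _ _ n1 d1 u hu).1 _ h3
        have e3 : n1 + (0 + (c + 1 + 1)) = n := by omega
        have e4 : d1 + (0 + (c + 1) + 1) = d + 1 := by omega
        rw [e3, e4] at h
        exact h

end Pool.Agent.SWD
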