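import Pool.Agent.Lib.MP_263316_co.CB.Spec

/-!
# MP_263316_co, CB: the string identity
-/

set_option autoImplicit false

namespace Pool.Agent.SWD

open Finset Pool.Agent.SWC Pool.Agent.SWB

namespace STRAux

variable {R : Type} [CommRing R] {N : ℕ}

/-- the generating polynomial of the elementary symmetric functions of the `g k`, `k ∈ S` -/
noncomputable def P (S : Finset (Fin N)) (g : Fin N → R) : Polynomial R :=
  ∏ k ∈ S, (1 + Polynomial.C (g k) * Polynomial.X)

theorem coeff_P (S : Finset (Fin N)) (g : Fin N → R) (l : ℕ) :
    (P S g).coeff l = ∑ C ∈ powersetCard l S, ∏ k ∈ C, g k := by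
  unfold P
  rw [Finset.prod_one_add, Polynomial.finsetSum_coeff, Finset.powersetCard_eq_filter,
    Finset.sum_filter]
  refine Finset.sum_congr rfl fun t _ => ?_
  rw [Finset.prod_mul_distrib, Finset.prod_const, ← map_prod, Polynomial.coeff_C_mul_X_pow]
  by_cases h : l = t.card
  · rw [if_pos h, if_pos h.symm]
  · rw [if_neg h, if_neg (fun h' => h h'.symm)]

theorem coeff_P_q (S : Finset (Fin N)) (q : R) (g : Fin N → R) (l : ℕ) :
    (P S (fun k => q * g k)).coeff l = q ^ l * ∑ C ∈ powersetCard l S, ∏ k ∈ C, g k := by
  rw [coeff_P, Finset.mul_sum]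
  refine Finset.sum_congr rfl fun t ht => ?_
  rw [Finset.prod_mul_distrib, Finset.prod_const, (Finset.mem_powersetCard.1 ht).2]

theorem main (q : R) (x : Fin N → R) {i j : Fin N} (hij : i < j) :
    P (univ.erase i) (fun k => q * (if k < i then q * x k else x k)) *
      P (univ.erase j) (fun k => if k < j then q * x k else x k) =
    P univ (fun k => q * x k) *
      P ((univ.erase i).erase j) (fun k => x k * wq q k i * wq q k j) := by
  have hji : j ∈ univ.erase i := Finset.mem_erase.2 ⟨hij.ne', Finset.mem_univ j⟩
  have hij' : i ∈ univ.erase j := Finset.mem_erase.2 ⟨hij.ne, Finset.mem_univ i⟩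
  have key : ∀ k ∈ (univ.erase i).erase j,
      (1 + Polynomial.C (q * (if k < i then q * x k else x k)) * Polynomial.X) *
        (1 + Polynomial.C (if k < j then q * x k else x k) * Polynomial.X) =
      (1 + Polynomial.C (q * x k) * Polynomial.X) *
        (1 + Polynomial.C (x k * wq q k i * wq q k j) * Polynomial.X) := by
    intro k hk
    rw [Finset.mem_erase, Finset.mem_erase] at hk
    by_cases h1 : k < i
    · rw [if_pos h1, if_pos (h1.trans hij), wq_lt h1, wq_lt (h1.trans hij)]
      simp only [map_mul]
      ring
    · rw [if_neg h1, wq_ge (not_lt.1 h1)]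
      by_cases h2 : k < j
      · rw [if_pos h2, wq_lt h2]
        simp only [map_mul, map_one]
        ring
      · rw [if_neg h2, wq_ge (not_lt.1 h2)]
        simp only [map_mul, map_one]
        ring
  unfold P
  rw [← Finset.mul_prod_erase (univ.erase i) _ hji, ← Finset.mul_prod_erase (univ.erase j) _ hij',
    ← Finset.mul_prod_erase univ (fun k => (1 + Polynomial.C (q * x k) * Polynomial.X))
      (Finset.mem_univ i),
    ← Finset.mul_prod_erase (univ.erase i) (fun k => (1 + Polynomial.C (q * x k) * Polynomial.X)) hji,
    Finset.erase_right_comm (a := j) (b := i)]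
  beta_reduce
  rw [if_neg (not_lt.2 hij.le), if_pos hij]
  have h3 := Finset.prod_congr (rfl : (univ.erase i).erase j = (univ.erase i).erase j) key
  rw [Finset.prod_mul_distrib, Finset.prod_mul_distrib] at h3
  linear_combination (1 + Polynomial.C (q * x i) * Polynomial.X) *
    (1 + Polynomial.C (q * x j) * Polynomial.X) * h3

end STRAux

open STRAux in
theorem t_STR : S_STR := by
  intro R _ N q x n i j hij
  rcases Nat.lt_or_ge n 2 with hn | hn
  · unfold Sn
    rw [Finset.Ico_eq_empty (by omega), Finset.sum_empty, show n - 1 = 0 by omega,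
      Finset.range_zero, Finset.sum_empty]
  · obtain ⟨m, rfl⟩ : ∃ m, n = m + 2 := ⟨n - 2, by omega⟩
    have h := congrArg (fun p => Polynomial.coeff p m) (main q x hij)
    simp only [Polynomial.coeff_mul] at h
    rw [Finset.Nat.sum_antidiagonal_eq_sum_range_succ (fun a b =>
        (P (univ.erase i) (fun k => q * (if k < i then q * x k else x k))).coeff a *
        (P (univ.erase j) (fun k => if k < j then q * x k else x k)).coeff b),
      Finset.Nat.sum_antidiagonal_eq_sum_range_succ (fun a b =>
        (P univ (fun k => q * x k)).coeff a *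
        (P ((univ.erase i).erase j) (fun k => x k * wq q k i * wq q k j)).coeff b)] at h
    have hL : ∑ r ∈ Ico 1 (m + 2), q ^ (r - 1) * eH q x r i * eH q x (m + 2 - r) j =
        x i * x j * ∑ k ∈ range m.succ,
          (P (univ.erase i) (fun k => q * (if k < i then q * x k else x k))).coeff k *
          (P (univ.erase j) (fun k => if k < j then q * x k else x k)).coeff (m - k) := by
      rw [Finset.sum_Ico_eq_sum_range, Finset.mul_sum]
      refine Finset.sum_congr rfl fun s hs => ?_
      rw [Finset.mem_range] at hs
      rw [coeff_P_q, coeff_P, show 1 + s = s + 1 by omega, eH_eq,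
        show m + 2 - (s + 1) = m - s + 1 by omega, eH_eq, Nat.add_sub_cancel]
      unfold fh
      ring
    have hR : Sn q x (m + 2) i j = x i * x j * ∑ k ∈ range m.succ,
        (P univ (fun k => q * x k)).coeff k *
        (P ((univ.erase i).erase j) (fun k => x k * wq q k i * wq q k j)).coeff (m - k) := by
      unfold Sn
      rw [Finset.mul_sum]
      refine Finset.sum_congr rfl fun s hs => ?_
      rw [Finset.mem_range] at hs
      rw [coeff_P_q, coeff_P]
      unfold Cn es
      rw [if_pos ⟨hij, by omega⟩, show m + 2 - s - 2 = m - s by omega]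
      ring_nf
    rw [hL, hR, h]

end Pool.Agent.SWD
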