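import Pool.Agent.Lib.MP_263316_co.CB.SpecD

/-!
MP_263316_co, part CB4, task SY: symmetric q-integers.
-/

set_option autoImplicit false

namespace Pool.Agent.SWD

open Finset Pool.Agent.SWC Pool.Agent.SWB

private theorem sy_D {F : Type} [Field F] {h : F} (h0 : h ≠ 0) (h1 : h ^ 2 ≠ 1) :
    h - h⁻¹ ≠ 0 := by
  intro hD
  apply h1
  have h2 : h = h⁻¹ := sub_eq_zero.mp hD
  calc h ^ 2 = h * h := by ring
    _ = h * h⁻¹ := by rw [← h2]
    _ = 1 := mul_inv_cancel₀ h0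

private theorem sy_mulD {F : Type} [Field F] {h : F} (hD : h - h⁻¹ ≠ 0) (x : ℤ) :
    sy h x * (h - h⁻¹) = h ^ x - h ^ (-x) := by
  unfold sy
  exact div_mul_cancel₀ _ hD

private theorem sy_9 {F : Type} [Field F] {h : F} (h0 : h ≠ 0) (hD : h - h⁻¹ ≠ 0) (a b : ℤ) :
    sy h a * sy h b * (h - h⁻¹) ^ 2 =
      h ^ (a + b) + h ^ (-(a + b)) - h ^ (a - b) - h ^ (b - a) := by
  have ha := sy_mulD hD a
  have hb := sy_mulD hD b
  have e1 : sy h a * sy h b * (h - h⁻¹) ^ 2 = (sy h a * (h - h⁻¹)) * (sy h b * (h - h⁻¹)) := by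
    ring
  rw [e1, ha, hb]
  have e2 : h ^ (a + b) = h ^ a * h ^ b := zpow_add₀ h0 a b
  have e3 : h ^ (-(a + b)) = h ^ (-a) * h ^ (-b) := by
    rw [← zpow_add₀ h0]; congr 1; ring
  have e4 : h ^ (a - b) = h ^ a * h ^ (-b) := by
    rw [← zpow_add₀ h0]; congr 1
  have e5 : h ^ (b - a) = h ^ (-a) * h ^ b := by
    rw [← zpow_add₀ h0]; congr 1; ring
  rw [e2, e3, e4, e5]
  ring

private theorem sy_6 {F : Type} [Field F] {h : F} (h0 : h ≠ 0) (hD : h - h⁻¹ ≠ 0)
    (a b d : ℤ) :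
    sy h a * sy h b - sy h (a - d) * sy h (b - d) = sy h d * sy h (a + b - d) := by
  have h2 : (h - h⁻¹) ^ 2 ≠ 0 := pow_ne_zero 2 hD
  apply mul_right_cancel₀ h2
  rw [sub_mul, sy_9 h0 hD, sy_9 h0 hD, sy_9 h0 hD]
  have e1 : a - d + (b - d) = a + b - d - d := by ring
  have e2 : a - d - (b - d) = a - b := by ring
  have e3 : b - d - (a - d) = b - a := by ring
  have e4 : d + (a + b - d) = a + b := by ring
  have e5 : d - (a + b - d) = -(a + b - d - d) := by ring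
  rw [e1, e2, e3, e4, e5]
  ring

private theorem sy_1 {F : Type} [Field F] {h : F} (hD : h - h⁻¹ ≠ 0) : sy h 1 = 1 := by
  unfold sy
  rw [zpow_one, zpow_neg, zpow_one]
  exact div_self hD

private theorem sy_5 {F : Type} [Field F] {h : F} (h0 : h ≠ 0) (h1 : h ^ 2 ≠ 1)
    (A B : ℤ) :
    (h ^ (2 * A) - h ^ (2 * B)) / (1 - h ^ 2) = h ^ (A + B - 1) * sy h (B - A) := by
  have hD := sy_D h0 h1
  have h2 : (1 : F) - h ^ 2 ≠ 0 := fun e => h1 (sub_eq_zero.mp e).symm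
  rw [div_eq_iff h2]
  have e0 : (1 : F) - h ^ 2 = -(h * (h - h⁻¹)) := by
    rw [mul_sub, mul_inv_cancel₀ h0]; ring
  rw [e0]
  have e1 : h ^ (A + B - 1) * sy h (B - A) * -(h * (h - h⁻¹)) =
      -(h ^ (A + B - 1) * h * (sy h (B - A) * (h - h⁻¹))) := by ring
  rw [e1, sy_mulD hD]
  have e2 : h ^ (A + B - 1) * h = h ^ (A + B) := by
    have := zpow_add₀ h0 (A + B - 1) 1
    rw [zpow_one] at this
    rw [← this]; congr 1; ring
  rw [e2, mul_sub, ← zpow_add₀ h0, ← zpow_add₀ h0]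
  have e3 : A + B + (B - A) = 2 * B := by ring
  have e4 : A + B + -(B - A) = 2 * A := by ring
  rw [e3, e4]
  ring

theorem t_SY : S_SY := by
  intro F _ h h0 h1
  have hD := sy_D h0 h1
  refine ⟨?_, sy_1 hD, ?_, ?_, fun A B => sy_5 h0 h1 A B, fun a b d => sy_6 h0 hD a b d, ?_, ?_,
    fun a b => sy_9 h0 hD a b⟩
  · unfold sy
    rw [neg_zero, sub_self, zero_div]
  · intro x
    unfold sy
    rw [neg_neg, ← neg_div, neg_sub]
  · intro n
    have h3 := sy_5 h0 h1 0 (n : ℤ)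
    rw [mul_zero, zpow_zero, zero_add, sub_zero] at h3
    rw [← h3]
    have h2 : (1 : F) - h ^ 2 ≠ 0 := fun e => h1 (sub_eq_zero.mp e).symm
    rw [eq_div_iff h2]
    have h4 : h ^ (2 * (n : ℤ)) = (h ^ 2) ^ n := by
      rw [← pow_mul, ← zpow_natCast h (2 * n)]
      push_cast
      rfl
    rw [h4]
    unfold qn
    exact geom_sum_mul_neg (h ^ 2) n
  · intro s n
    induction n with
    | zero =>
      rw [sum_range_zero]
      have : sy h ((0 : ℕ) : ℤ) = 0 := by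
        unfold sy
        rw [Nat.cast_zero, neg_zero, sub_self, zero_div]
      rw [this, zero_mul]
    | succ n ih =>
      rw [sum_range_succ, ih]
      have h6 := sy_6 h0 hD ((n : ℤ) + 1) (s + n) 1
      rw [sy_1 hD, one_mul] at h6
      have e1 : (n : ℤ) + 1 - 1 = n := by ring
      have e2 : (n : ℤ) + 1 + (s + n) - 1 = s + 2 * n := by ring
      have e3 : s + ((n + 1 : ℕ) : ℤ) - 1 = s + n := by push_cast; ring
      have e4 : ((n + 1 : ℕ) : ℤ) = (n : ℤ) + 1 := by push_cast; ring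
      rw [e1, e2] at h6
      rw [e3, e4, ← h6]
      ring
  · intro x
    apply mul_right_cancel₀ hD
    rw [sub_mul, sy_mulD hD, sy_mulD hD]
    have e1 : h ^ (x + 1) = h ^ x * h := by rw [zpow_add₀ h0, zpow_one]
    have e2 : h ^ (-(x + 1)) = h ^ (-x) * h⁻¹ := by
      have : -(x + 1) = -x + (-1) := by ring
      rw [this, zpow_add₀ h0, zpow_neg_one]
    have e3 : h ^ (x - 1) = h ^ x * h⁻¹ := by
      have : x - 1 = x + (-1) := by ring
      rw [this, zpow_add₀ h0, zpow_neg_one]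
    have e4 : h ^ (-(x - 1)) = h ^ (-x) * h := by
      have : -(x - 1) = -x + 1 := by ring
      rw [this, zpow_add₀ h0, zpow_one]
    rw [e1, e2, e3, e4]
    ring

end Pool.Agent.SWD
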