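import Pool.Agent.Lib.MP_263316_co.CB.SpecD

/-!
MP_263316_co, part CB4: the homomorphism to the field of fractions (TASK TH).
-/

set_option autoImplicit false

namespace Pool.Agent.SWD

open Finset Pool.Agent.SWC Pool.Agent.SWB

private theorem TH_C (N : ℕ) (p : PX) :
    thN N (MvPolynomial.C p) =
      algebraMap (AN N) (FN N) (MvPolynomial.C (Polynomial.expand ℤ 2 p)) := by
  unfold thN
  rw [RingHom.comp_apply, MvPolynomial.map_C]
  rfl

theorem t_TH : S_TH := by
  intro N
  have hinj : Function.Injective (algebraMap (AN N) (FN N)) := IsFractionRing.injective _ _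
  have hsq : hN N ^ 2 = algebraMap (AN N) (FN N) (MvPolynomial.C (Polynomial.X ^ 2)) := by
    unfold hN
    rw [← map_pow, ← map_pow]
  refine ⟨?_, ?_, ?_, ?_, ?_, ?_⟩
  · unfold thN
    rw [RingHom.coe_comp]
    refine hinj.comp (MvPolynomial.map_injective _ ?_)
    exact Polynomial.expand_injective (by norm_num)
  · unfold qq
    rw [TH_C, Polynomial.expand_X, hsq]
  · unfold hN
    rw [Ne, ← map_zero (algebraMap (AN N) (FN N)), hinj.eq_iff, MvPolynomial.C_eq_zero]
    exact Polynomial.X_ne_zero
  · rw [hsq, Ne, ← map_one (algebraMap (AN N) (FN N)), hinj.eq_iff,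
      ← map_one (MvPolynomial.C (σ := Fin N) (R := PX)), MvPolynomial.C_inj]
    intro h
    have h1 := congrArg (fun p : PX => p.coeff 2) h
    simp [Polynomial.coeff_X_pow, Polynomial.coeff_one] at h1
  · rw [hsq, Ne, ← map_one (algebraMap (AN N) (FN N)), ← map_add,
      ← map_zero (algebraMap (AN N) (FN N)), hinj.eq_iff,
      ← map_one (MvPolynomial.C (σ := Fin N) (R := PX)), ← map_add, MvPolynomial.C_eq_zero]
    intro h
    have h1 := congrArg (fun p : PX => p.coeff 2) h
    simp [Polynomial.coeff_X_pow, Polynomial.coeff_one] at h1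
  · intro p
    rw [TH_C, hsq]
    induction p using Polynomial.induction_on' with
    | add p q hp hq => rw [map_add, map_add, map_add, hp, hq, map_add]
    | monomial n a =>
      rw [Polynomial.expand_monomial, ← Polynomial.C_mul_X_pow_eq_monomial,
        ← Polynomial.C_mul_X_pow_eq_monomial, map_mul, map_mul, map_mul, Polynomial.aeval_C,
        map_pow, map_pow, map_pow, Polynomial.aeval_X, ← map_pow, ← map_pow, ← map_pow, ← map_pow,
        ← pow_mul, mul_comm n 2]
      congr 1

end Pool.Agent.SWD
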