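import Pool.Agent.Lib.MP_263316_co.CB.SpecB

set_option autoImplicit false

namespace Pool.Agent.SWD

open Finset Pool.Agent.SWC Pool.Agent.SWB

namespace TMAux

variable {R : Type} [CommRing R]

theorem PS1_zero (D0 D1 E : ℕ → R) : PS1 0 D0 D1 E = 0 := by
  simp [PS1]

theorem PS2_zero (D0 D1 D3 E F : ℕ → R) : PS2 0 D0 D1 D3 E F = 0 := by
  simp [PS2]

theorem PS1_succ (n : ℕ) (D0 D1 E : ℕ → R) :
    PS1 (n + 1) D0 D1 E = PS1 n D0 D1 E * D1 n + (∏ k ∈ range n, D0 k) * E n := by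
  unfold PS1
  rw [sum_range_succ, Ico_self, prod_empty, mul_one, sum_mul]
  congr 1
  refine sum_congr rfl fun i hi => ?_
  rw [mem_range] at hi
  rw [prod_Ico_succ_top (by omega)]
  ring

theorem PS2_succ (n : ℕ) (D0 D1 D3 E F : ℕ → R) :
    PS2 (n + 1) D0 D1 D3 E F = PS2 n D0 D1 D3 E F * D3 n + PS1 n D0 D1 E * F n := by
  unfold PS2 PS1
  rw [sum_range_succ, Ico_self, prod_empty, sum_mul, sum_mul]
  congr 1
  · refine sum_congr rfl fun j hj => ?_
    rw [mem_range] at hj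
    rw [sum_mul]
    refine sum_congr rfl fun i _ => ?_
    rw [prod_Ico_succ_top (by omega)]
    ring
  · refine sum_congr rfl fun i _ => ?_
    ring

theorem A_eq (D0 A : ℕ → R) (h0 : A 0 = 1) (h : ∀ k, A (k + 1) = A k * D0 k) (n : ℕ) :
    A n = ∏ k ∈ range n, D0 k := by
  induction n with
  | zero => rw [h0, range_zero, prod_empty]
  | succ n ih => rw [h, ih, prod_range_succ]

theorem B_eq (c : R) (D0 D1 E A B : ℕ → R) (hA0 : A 0 = 1) (hB0 : B 0 = 0)
    (hA : ∀ k, A (k + 1) = A k * D0 k) (hB : ∀ k, B (k + 1) = B k * D1 k + c * (A k * E k))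
    (n : ℕ) : B n = c * PS1 n D0 D1 E := by
  induction n with
  | zero => rw [hB0, PS1_zero, mul_zero]
  | succ n ih =>
    rw [hB, ih, PS1_succ, A_eq D0 A hA0 hA]
    ring

end TMAux

open TMAux in
theorem t_TM : S_TM := by
  intro R _
  refine ⟨?_, ?_, ?_⟩
  · intro D0 D1 E A B hA0 hB0 hA hB n
    rw [B_eq 1 D0 D1 E A B hA0 hB0 hA (fun k => by rw [hB, one_mul]) n, one_mul]
  · intro D0 D1 D3 E F A B C hA0 hB0 hC0 hA hB hC n
    induction n with
    | zero => rw [hC0, PS2_zero]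
    | succ n ih =>
      rw [hC, ih, PS2_succ,
        B_eq 1 D0 D1 E A B hA0 hB0 hA (fun k => by rw [hB, one_mul]) n, one_mul]
  · intro D0 Du Dv D3 Eu Ev Fu Fv V0 Vu Vv V3 cu cv h0 hu0 hv0 h30 h1 hu hv h3 n
    induction n with
    | zero => rw [h30, PS2_zero, PS2_zero]; ring
    | succ n ih =>
      rw [h3, ih, PS2_succ, PS2_succ, B_eq cu D0 Du Eu V0 Vu h0 hu0 h1 hu n,
        B_eq cv D0 Dv Ev V0 Vv h0 hv0 h1 hv n]
      ring

end Pool.Agent.SWD
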