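import Pool.Agent.Lib.MP_263316_co.CB.SpecB

set_option autoImplicit false

namespace Pool.Agent.SWD

open Finset Pool.Agent.SWC Pool.Agent.SWB

namespace UBAux

variable {K : Type} [Field K]

/-- the transfer sequence -/
def tr (D0 Du Dv D3 Eu Ev Fu Fv : ℕ → K) (cu cv : K) : ℕ → Fin 4 → K
  | 0 => ![1, 0, 0, 0]
  | k + 1 => ![tr D0 Du Dv D3 Eu Ev Fu Fv cu cv k 0 * D0 k,
      tr D0 Du Dv D3 Eu Ev Fu Fv cu cv k 1 * Du k +
        cu * (tr D0 Du Dv D3 Eu Ev Fu Fv cu cv k 0 * Eu k),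
      tr D0 Du Dv D3 Eu Ev Fu Fv cu cv k 2 * Dv k +
        cv * (tr D0 Du Dv D3 Eu Ev Fu Fv cu cv k 0 * Ev k),
      tr D0 Du Dv D3 Eu Ev Fu Fv cu cv k 3 * D3 k +
        tr D0 Du Dv D3 Eu Ev Fu Fv cu cv k 1 * Fu k +
        tr D0 Du Dv D3 Eu Ev Fu Fv cu cv k 2 * Fv k]

theorem Ug_Bf {N : ℕ} (x : Fin N → K) (q t u v : K) (i j : Fin N) (hij : i < j) :
    Ug q x t (Bf q x u v) i j = 1 / (v - u) * Ug q x t (pr q x (q * u) v) i j +
      q / (v - q ^ 2 * u) * Ug q x t (pr q x v (q * u)) i j := by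
  simp only [Ug, if_pos hij, Bf, mul_sum, ← sum_add_distrib]
  refine sum_congr rfl fun i _ => sum_congr rfl fun j _ => ?_
  ring

theorem wn_one {q : K} {k i j : ℕ} (h : k < i) (hij : i < j) : wn q k i j = q * q := by
  rw [wn, if_pos h, if_pos (h.trans hij)]

theorem wn_two {q : K} {k i j : ℕ} (h : i < k) (h' : k < j) : wn q k i j = q := by
  rw [wn, if_neg (by omega), if_pos h', one_mul]

theorem wn_three {q : K} {k i j : ℕ} (h : i < k) (h' : j < k) : wn q k i j = 1 := by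
  rw [wn, if_neg (by omega), if_neg (by omega), one_mul]

/-- the values of the transfer sequence -/
theorem tr_eq (hTM : S_TM) (D0 Du Dv D3 Eu Ev Fu Fv : ℕ → K) (cu cv : K) (n : ℕ) :
    tr D0 Du Dv D3 Eu Ev Fu Fv cu cv n 3 =
      cu * PS2 n D0 Du D3 Eu Fu + cv * PS2 n D0 Dv D3 Ev Fv :=
  (hTM K).2.2 D0 Du Dv D3 Eu Ev Fu Fv (fun k => tr D0 Du Dv D3 Eu Ev Fu Fv cu cv k 0)
    (fun k => tr D0 Du Dv D3 Eu Ev Fu Fv cu cv k 1)
    (fun k => tr D0 Du Dv D3 Eu Ev Fu Fv cu cv k 2)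
    (fun k => tr D0 Du Dv D3 Eu Ev Fu Fv cu cv k 3) cu cv rfl rfl rfl rfl
    (fun _ => rfl) (fun _ => rfl) (fun _ => rfl) (fun _ => rfl) n

end UBAux

open UBAux in
theorem t_UB : S_UB := by
  intro hTM hPU hEV hRG hCH K _ N x q t u v hq h1 h2 h3 h4 h5 h6 h7 h8 h9 h10 h11 i j hij
  obtain ⟨X, rfl⟩ : ∃ X : ℕ → K, x = fun k : Fin N => X k :=
    ⟨fun k => if h : k < N then x ⟨k, h⟩ else 0, by funext k; simp⟩
  have hij' : (i : ℕ) < (j : ℕ) := hij
  obtain ⟨L1, hL1⟩ : ∃ L1 : K → K, ∀ z, L1 z = ∏ k ∈ range i, (1 + z * X k) :=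
    ⟨_, fun _ => rfl⟩
  obtain ⟨L2, hL2⟩ : ∃ L2 : K → K, ∀ z, L2 z = ∏ k ∈ Ico (i + 1 : ℕ) j, (1 + z * X k) :=
    ⟨_, fun _ => rfl⟩
  obtain ⟨L3, hL3⟩ : ∃ L3 : K → K, ∀ z, L3 z = ∏ k ∈ Ico (j + 1 : ℕ) N, (1 + z * X k) :=
    ⟨_, fun _ => rfl⟩
  have hp1 : ∀ a b c : K, ∏ k ∈ Ico 0 (i : ℕ), ((1 + a * X k) * (1 + b * X k) *
      (1 + c * X k)) = L1 a * L1 b * L1 c := by
    intro a b c
    rw [prod_mul_distrib, prod_mul_distrib, Nat.Ico_zero_eq_range, hL1, hL1, hL1]
  have hp2 : ∀ a b c : K, ∏ k ∈ Ico (i + 1 : ℕ) j, ((1 + a * X k) * (1 + b * X k) *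
      (1 + c * X k)) = L2 a * L2 b * L2 c := by
    intro a b c
    rw [prod_mul_distrib, prod_mul_distrib, hL2, hL2, hL2]
  have hp3 : ∀ a b c : K, ∏ k ∈ Ico (j + 1 : ℕ) N, ((1 + a * X k) * (1 + b * X k) *
      (1 + c * X k)) = L3 a * L3 b * L3 c := by
    intro a b c
    rw [prod_mul_distrib, prod_mul_distrib, hL3, hL3, hL3]
  obtain ⟨hE, hP, hC⟩ := hEV K N X q i j hij L1 L2 L3 hL1 hL2 hL3
  set D0 : ℕ → K := fun k => (1 + q * (q * u) * X k) * (1 + q * v * X k) * sf q X i j 1 t k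
    with hD0
  set Du : ℕ → K := fun k => (1 + q * u * X k) * (1 + q * v * X k) * sf q X i j q (q * t) k
    with hDu
  set Dv : ℕ → K := fun k => (1 + v * X k) * (1 + q * (q * u) * X k) * sf q X i j q (q * t) k
    with hDv
  set D3 : ℕ → K := fun k => (1 + q * u * X k) * (1 + v * X k) *
    sf q X i j (q ^ 2) (q ^ 2 * t) k with hD3
  set V := tr D0 Du Dv D3 (em X i j (q * v)) (em X i j (q * (q * u))) (em X i j (q * u))
    (em X i j v) (1 / (v - u)) (q / (v - q ^ 2 * u)) with hV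
  have hL : Ug q (fun k => X k) t (Bf q (fun k => X k) u v) i j = X i * X j * V N 3 := by
    rw [Ug_Bf _ _ _ _ _ _ _ hij, hPU K N X q t (q * u) v i j hij,
      hPU K N X q t v (q * u) i j hij, hV, tr_eq hTM]
    have e1 : (fun k => (1 + q * v * X k) * (1 + q * (q * u) * X k) * sf q X i j 1 t k) =
        D0 := by
      funext k
      rw [hD0]
      ring
    have e2 : (fun k => (1 + v * X k) * (1 + q * u * X k) *
        sf q X i j (q ^ 2) (q ^ 2 * t) k) = D3 := by
      funext k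
      rw [hD3]
      ring
    rw [e1, e2]
    ring
  -- the ordinary sites
  have hord : ∀ (k : ℕ) (τ : K), k ≠ i → k ≠ j → τ = t * wn q k i j →
      V (k + 1) = sp q u v τ (X k) (V k) := by
    intro k τ hki hkj hτ
    have hor : ¬ (k = (i : ℕ) ∨ k = (j : ℕ)) := by
      rintro (h | h)
      · exact hki h
      · exact hkj h
    have e0 : D0 k = (1 + q ^ 2 * u * X k) * (1 + q * v * X k) * (1 + τ * X k) := by
      simp only [hD0, sf, if_neg hor]
      rw [hτ]
      ring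
    have eu : Du k = (1 + q * u * X k) * (1 + q * v * X k) * (1 + q * τ * X k) := by
      simp only [hDu, sf, if_neg hor]
      rw [hτ]
      ring
    have ev : Dv k = (1 + q ^ 2 * u * X k) * (1 + v * X k) * (1 + q * τ * X k) := by
      simp only [hDv, sf, if_neg hor]
      rw [hτ]
      ring
    have e3 : D3 k = (1 + q * u * X k) * (1 + v * X k) * (1 + q ^ 2 * τ * X k) := by
      simp only [hD3, sf, if_neg hor]
      rw [hτ]
      ring
    have eV : V (k + 1) = ![V k 0 * D0 k, V k 1 * Du k + 1 / (v - u) * (V k 0 *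
        em X i j (q * v) k), V k 2 * Dv k + q / (v - q ^ 2 * u) * (V k 0 *
        em X i j (q * (q * u)) k), V k 3 * D3 k + V k 1 * em X i j (q * u) k +
        V k 2 * em X i j v k] := rfl
    rw [eV, e0, eu, ev, e3]
    simp only [em, if_neg hor, sp]
    congr 1
    · ring
    · congr 1
      · ring
      · congr 1
        · ring
        · congr 1
          ring
  have hsite : ∀ k : ℕ, (k = i ∨ k = j) → V (k + 1) = si q u v (X k) (V k) := by
    intro k hor
    have e0 : D0 k = (1 + q ^ 2 * u * X k) * (1 + q * v * X k) := by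
      simp only [hD0, sf, if_pos hor]
      ring
    have eu : Du k = q * ((1 + q * u * X k) * (1 + q * v * X k)) := by
      simp only [hDu, sf, if_pos hor]
      ring
    have ev : Dv k = q * ((1 + q ^ 2 * u * X k) * (1 + v * X k)) := by
      simp only [hDv, sf, if_pos hor]
      ring
    have e3 : D3 k = q ^ 2 * ((1 + q * u * X k) * (1 + v * X k)) := by
      simp only [hD3, sf, if_pos hor]
      ring
    have eV : V (k + 1) = ![V k 0 * D0 k, V k 1 * Du k + 1 / (v - u) * (V k 0 *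
        em X i j (q * v) k), V k 2 * Dv k + q / (v - q ^ 2 * u) * (V k 0 *
        em X i j (q * (q * u)) k), V k 3 * D3 k + V k 1 * em X i j (q * u) k +
        V k 2 * em X i j v k] := rfl
    rw [eV, e0, eu, ev, e3]
    simp only [em, if_pos hor, si]
    congr 1
    · ring
    · congr 1
      · ring
      · congr 1
        · ring
        · congr 1
          ring
  have hjN : (j : ℕ) < N := j.2
  have r1 := hRG K q u v (q ^ 2 * t) hq h1 h10 h11
    (by rw [show q * u - q ^ 2 * t = q * (u - q * t) by ring]; exact mul_ne_zero hq h3)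
    h8 h4 (by rw [show v - q * (q ^ 2 * t) = v - q ^ 3 * t by ring]; exact h9)
    X 0 i (Nat.zero_le _) V
    (fun k _ hk => hord k _ (by omega) (by omega) (by rw [wn_one hk hij']; ring))
  have r2 := hRG K q u v (q * t) hq h1 h10 h11
    (by rw [show q * u - q * t = q * (u - t) by ring]; exact mul_ne_zero hq h2)
    h7 h3 (by rw [show v - q * (q * t) = v - q ^ 2 * t by ring]; exact h8)
    X (i + 1) j (by omega) V
    (fun k hk hk' => hord k _ (by omega) (by omega)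
      (by rw [wn_two (show (i : ℕ) < k by omega) hk']; ring))
  have r3 := hRG K q u v t hq h1 h10 h11 h5 h6 h2 h7 X (j + 1) N (by omega) V
    (fun k hk hk' => hord k _ (by omega) (by omega)
      (by rw [wn_three (show (i : ℕ) < k by omega) (show (j : ℕ) < k by omega)]; ring))
  have hV0 : V 0 = ![1, 0, 0, 0] := rfl
  simp only [hp1] at r1
  simp only [hp2] at r2
  simp only [hp3] at r3
  rw [hV0] at r1
  rw [hsite i (Or.inl rfl), r1] at r2
  rw [hsite j (Or.inr rfl), r2] at r3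
  rw [hL, r3, hCH K q t u v (X i) (X j) hq h1 h2 h3 h4 h5 h6 h7 h8 h9 h10 h11]
  have m1 : ∀ w : K, q * (q * w) = q ^ 2 * w := fun w => by ring
  have m2 : ∀ w : K, q * (q ^ 2 * w) = q ^ 3 * w := fun w => by ring
  have m3 : ∀ w : K, q ^ 2 * (q * w) = q ^ 3 * w := fun w => by ring
  have m4 : ∀ w : K, q ^ 2 * (q ^ 2 * w) = q ^ 4 * w := fun w => by ring
  simp only [Bf, hE, hP, hC, m1, m2, m3, m4]
  clear r1 r2 r3 hE hP hC hp1 hp2 hp3 hL hord hsite hV0 hL1 hL2 hL3
  clear_value V D0 Du Dv D3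
  ring

end Pool.Agent.SWD
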