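import Pool.Agent.Lib.MP_263316_co.CB.SpecB

/-!
MP_263316_co, part CB2, task UBr: the formula of `S_UB` in the variables theta, rho, v.
-/

set_option autoImplicit false

namespace Pool.Agent.SWD

open Finset Pool.Agent.SWC Pool.Agent.SWB

namespace UBrAux

variable {K : Type} [Field K] {N : ℕ}

theorem Ug_smul (q : K) (x : Fin N → K) (t c : K) (f g : Fin N → Fin N → K)
    (h : ∀ i j, f i j = c * g i j) (i' j' : Fin N) : Ug q x t f i' j' = c * Ug q x t g i' j' := by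
  have hf : f = fun i j => c * g i j := by
    funext i j
    exact h i j
  subst hf
  simp only [Ug, mul_assoc, mul_left_comm _ c, ← mul_sum]
  split_ifs <;> ring

theorem dist9 (a v T1 T2 T3 T4 T5 T6 T7 T8 T9 : K) :
    a * (v * (T1 + T2 - T3 + T4 - T5 + T6 - T7 - T8 + T9)) = a * v * T1 + a * v * T2 -
      a * v * T3 + a * v * T4 - a * v * T5 + a * v * T6 - a * v * T7 - a * v * T8 +
      a * v * T9 := by
  ring

theorem db1 (q : K) (x : Fin N → K) (ρ v : K) (hv : v ≠ 0) (h1 : 1 - ρ ≠ 0)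
    (h2 : 1 - q ^ 2 * ρ ≠ 0) (i j : Fin N) :
    Db q x ρ v i j = v * Bf q x (ρ * v) v i j := by
  unfold Db Bf
  have e1 : q * (ρ * v) = q * ρ * v := by ring
  have e2 : v - ρ * v = v * (1 - ρ) := by ring
  have e3 : v - q ^ 2 * (ρ * v) = v * (1 - q ^ 2 * ρ) := by ring
  rw [e1, e2, e3]
  field_simp

theorem db2 (q : K) (x : Fin N → K) (θ w : K) (y z : K) (hz : z ≠ 0) (hy : y = θ * z)
    (h1 : 1 - θ ≠ 0) (h2 : 1 - q ^ 2 * θ ≠ 0) (i j : Fin N) (hw : w = z) :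
    Db q x θ w i j = z * Bf q x y z i j := by
  subst hw
  subst hy
  exact db1 q x θ w hz h1 h2 i j

end UBrAux

open UBrAux in
theorem t_UBr : S_UBr := by
  intro h1 h2 h3 h4 h5 hUB K _ N x q θ ρ v hq hq1 hρ hv hθ1 hθq hθq2 hqθ ht1 ht2 ht3 ht4 hρ1 hρ2
    i j hij
  have hu : ρ * v ≠ 0 := mul_ne_zero hρ hv
  have a1 : ρ * v - θ * ρ * v = ρ * v * (1 - θ) := by ring
  have a2 : ρ * v - q * (θ * ρ * v) = ρ * v * (1 - q * θ) := by ring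
  have a3 : ρ * v - q ^ 2 * (θ * ρ * v) = ρ * v * (1 - q ^ 2 * θ) := by ring
  have a4 : q * (ρ * v) - θ * ρ * v = ρ * v * (q - θ) := by ring
  have a5 : v - θ * ρ * v = v * (1 - θ * ρ) := by ring
  have a6 : v - q * (θ * ρ * v) = v * (1 - q * θ * ρ) := by ring
  have a7 : v - q ^ 2 * (θ * ρ * v) = v * (1 - q ^ 2 * θ * ρ) := by ring
  have a8 : v - q ^ 3 * (θ * ρ * v) = v * (1 - q ^ 3 * θ * ρ) := by ring
  have a9 : v - ρ * v = v * (1 - ρ) := by ring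
  have a10 : v - q ^ 2 * (ρ * v) = v * (1 - q ^ 2 * ρ) := by ring
  have a11 : v - q * (ρ * v) = v * (1 - q * ρ) := by ring
  have key := hUB h1 h2 h3 h4 h5 K N x q (θ * ρ * v) (ρ * v) v hq hq1
    (by rw [a1]; exact mul_ne_zero hu hθ1) (by rw [a2]; exact mul_ne_zero hu hθq)
    (by rw [a3]; exact mul_ne_zero hu hθq2) (by rw [a4]; exact mul_ne_zero hu hqθ)
    (by rw [a5]; exact mul_ne_zero hv ht1) (by rw [a6]; exact mul_ne_zero hv ht2)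
    (by rw [a7]; exact mul_ne_zero hv ht3) (by rw [a8]; exact mul_ne_zero hv ht4)
    (by rw [a9]; exact mul_ne_zero hv hρ1) (by rw [a10]; exact mul_ne_zero hv hρ2) i j hij
  rw [a1, a2, a3, a4, a5, a6, a7, a8, a9, a10, a11] at key
  have hqθ' : 1 - θ / q ≠ 0 := by
    intro h
    apply hqθ
    field_simp at h
    simpa using h
  have hqθ2 : 1 - q ^ 2 * (θ / q) ≠ 0 := by
    have e : 1 - q ^ 2 * (θ / q) = 1 - q * θ := by field_simp
    rw [e]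
    exact hθq
  have b1 : ∀ i j : Fin N, Db q x ρ v i j = v * Bf q x (ρ * v) v i j :=
    db1 q x ρ v hv hρ1 hρ2
  have b2 : Db q x (q * θ * ρ) v i j = v * Bf q x (q * (θ * ρ * v)) v i j :=
    db2 q x (q * θ * ρ) v (q * (θ * ρ * v)) v hv (by ring) ht2
      (by have e : 1 - q ^ 2 * (q * θ * ρ) = 1 - q ^ 3 * θ * ρ := by ring
          rw [e]; exact ht4) i j rfl
  have b3 : Db q x (θ * ρ) v i j = v * Bf q x (θ * ρ * v) v i j :=
    db2 q x (θ * ρ) v (θ * ρ * v) v hv rfl ht1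
      (by have e : 1 - q ^ 2 * (θ * ρ) = 1 - q ^ 2 * θ * ρ := by ring
          rw [e]; exact ht3) i j rfl
  have hqu : q * (ρ * v) ≠ 0 := mul_ne_zero hq hu
  have b4 : Db q x θ (q * ρ * v) i j =
      q * (ρ * v) * Bf q x (q * (θ * ρ * v)) (q * (ρ * v)) i j :=
    db2 q x θ (q * ρ * v) (q * (θ * ρ * v)) (q * (ρ * v)) hqu (by ring) hθ1 hθq2 i j (by ring)
  have b5 : Db q x (θ / q) (q * ρ * v) i j =
      q * (ρ * v) * Bf q x (θ * ρ * v) (q * (ρ * v)) i j :=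
    db2 q x (θ / q) (q * ρ * v) (θ * ρ * v) (q * (ρ * v)) hqu (by field_simp) hqθ' hqθ2 i j
      (by ring)
  have e6 : q * (ρ * v) = q * ρ * v := by ring
  have e7 : q ^ 2 * (ρ * v) = q ^ 2 * ρ * v := by ring
  have e8 : 1 - θ / q = (q - θ) / q := by field_simp
  rw [Ug_smul q x (θ * ρ * v) v (Db q x ρ v) (Bf q x (ρ * v) v) b1 i j, key, b1 i j, b2, b3, b4,
    b5, e6, e7, e8]
  generalize Bf q x (ρ * v) v i j = B1
  generalize Bf q x (q * (θ * ρ * v)) v i j = B2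
  generalize Bf q x (θ * ρ * v) v i j = B3
  generalize Bf q x (q * (θ * ρ * v)) (q * ρ * v) i j = B4
  generalize Bf q x (θ * ρ * v) (q * ρ * v) i j = B5
  generalize Ct q x (θ * ρ * v) i j = C1
  generalize Ct q x (q * (θ * ρ * v)) i j = C2
  generalize Ct q x (q ^ 2 * (θ * ρ * v)) i j = C3
  generalize Ez x (q ^ 2 * (θ * ρ * v)) = E1
  generalize Ez x (q * ρ * v) = E2
  generalize Ez x (q ^ 2 * ρ * v) = E3
  generalize Ez x (q * v) = E4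
  generalize Ez x v = E5
  have c1 : ρ * v ^ 2 * v * (ρ * v * v * E1 * B1 / (ρ * v * (1 - θ) * (ρ * v * (1 - q * θ)) *
      (v * (1 - q * θ * ρ)) * (v * (1 - q ^ 2 * θ * ρ)))) = E1 * (v * B1) /
      ((1 - θ) * (1 - q * θ) * (1 - q * θ * ρ) * (1 - q ^ 2 * θ * ρ)) := by
    field_simp
  have c2 : ρ * v ^ 2 * v * (q * v * E2 * B2 / ((1 - q) * (ρ * v * (1 - q * θ)) *
      (v * (1 - q ^ 2 * θ * ρ)) * (v * (1 - ρ)))) = q * E2 * (v * B2) /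
      ((1 - q) * (1 - q * θ) * (1 - q ^ 2 * θ * ρ) * (1 - ρ)) := by
    field_simp
  have c3 : ρ * v ^ 2 * v * (v * E3 * B3 / ((1 - q) * (ρ * v * (1 - θ)) *
      (v * (1 - q ^ 2 * ρ)) * (v * (1 - q * θ * ρ)))) = E3 * (v * B3) /
      ((1 - q) * (1 - θ) * (1 - q ^ 2 * ρ) * (1 - q * θ * ρ)) := by
    field_simp
  have c4 : ρ * v ^ 2 * v * (q ^ 3 * (ρ * v) * E5 * B4 / ((1 - q) * (v * (1 - q ^ 2 * θ * ρ)) *
      (ρ * v * (1 - q * θ)) * (v * (1 - q ^ 2 * ρ)))) = q ^ 2 * E5 * (q * ρ * v * B4) /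
      ((1 - q) * (1 - q ^ 2 * θ * ρ) * (1 - q * θ) * (1 - q ^ 2 * ρ)) := by
    field_simp
  have c5 : ρ * v ^ 2 * v * (ρ * v * E4 * B5 / ((1 - q) * (v * (1 - q * θ * ρ)) *
      (v * (1 - ρ)) * (ρ * v * (1 - θ)))) = E4 * (q * ρ * v * B5) /
      (q * (1 - q) * (1 - q * θ * ρ) * (1 - ρ) * (1 - θ)) := by
    field_simp
  have c6 : ρ * v ^ 2 * v * (v * (1 - q * ρ) * E3 * E4 * C1 / ((1 - q) ^ 2 *
      (ρ * v * (q - θ)) * (v * (1 - θ * ρ)) * (v * (1 - q ^ 2 * ρ)) * (v * (1 - ρ)))) =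
      (1 - q * ρ) * E3 * E4 * C1 /
      (q * (1 - q) ^ 2 * ((q - θ) / q) * (1 - θ * ρ) * (1 - q ^ 2 * ρ) * (1 - ρ)) := by
    field_simp
  have c7 : ρ * v ^ 2 * v * (q ^ 2 * E3 * E5 * C2 / ((1 - q) ^ 2 * (ρ * v * (1 - θ)) *
      (v * (1 - q ^ 2 * ρ)) * (v * (1 - q ^ 2 * θ * ρ)))) = q ^ 2 * E3 * E5 * C2 /
      ((1 - q) ^ 2 * (1 - θ) * (1 - q ^ 2 * ρ) * (1 - q ^ 2 * θ * ρ)) := by
    field_simp
  have c8 : ρ * v ^ 2 * v * (q * E4 * E2 * C2 / ((1 - q) ^ 2 * (v * (1 - q * θ * ρ)) *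
      (v * (1 - ρ)) * (ρ * v * (1 - q * θ)))) = q * E4 * E2 * C2 /
      ((1 - q) ^ 2 * (1 - q * θ * ρ) * (1 - ρ) * (1 - q * θ)) := by
    field_simp
  have c9 : ρ * v ^ 2 * v * (q ^ 4 * (v * (1 - q * ρ)) * E2 * E5 * C3 / ((1 - q) ^ 2 *
      (v * (1 - ρ)) * (v * (1 - q ^ 2 * ρ)) * (ρ * v * (1 - q ^ 2 * θ)) *
      (v * (1 - q ^ 3 * θ * ρ)))) = q ^ 4 * (1 - q * ρ) * E2 * E5 * C3 /
      ((1 - q) ^ 2 * (1 - ρ) * (1 - q ^ 2 * ρ) * (1 - q ^ 2 * θ) * (1 - q ^ 3 * θ * ρ)) := by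
    field_simp
  rw [dist9, c1, c2, c3, c4, c5, c6, c7, c8, c9]

end Pool.Agent.SWD
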