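import Pool.Agent.Lib.MP_263316_co.CB.SpecD

/-!
MP_263316_co, part CB4, task UCB (helper15): the operators `UU l` applied to `bt n a`.
-/

set_option autoImplicit false

namespace Pool.Agent.SWD

open Finset Pool.Agent.SWC Pool.Agent.SWB

namespace UCBAux

/-- symmetrisation of a sum over pairs with sum at most `m` -/
theorem sym {F : Type} [AddCommMonoid F] (m : ℕ) (g : ℕ → ℕ → F) :
    ∑ p ∈ range (m + 1), ∑ r ∈ range (m + 1 - p), g p r =
      ∑ t ∈ prs m, (if t.1 = t.2 then g t.1 t.1 else g t.1 t.2 + g t.2 t.1) := by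
  have h1 : ∀ p ∈ range (m + 1), ∑ r ∈ range (m + 1 - p), g p r =
      ∑ r ∈ range (m + 1), (if p ≤ r ∧ p + r ≤ m then g p r else 0) +
        ∑ r ∈ range (m + 1), (if r < p ∧ p + r ≤ m then g p r else 0) := by
    intro p hp
    have hsub : range (m + 1 - p) ⊆ range (m + 1) := by
      intro r hr
      rw [mem_range] at hr ⊢
      omega
    rw [← sum_add_distrib, ← sum_subset hsub]
    · refine sum_congr rfl fun r hr => ?_
      rw [mem_range] at hr hp
      by_cases h : p ≤ r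
      · rw [if_pos ⟨h, by omega⟩, if_neg (by omega), add_zero]
      · rw [if_neg (by omega), if_pos ⟨by omega, by omega⟩, zero_add]
    · intro r hr hr'
      rw [mem_range] at hr hp hr'
      rw [if_neg (by omega), if_neg (by omega), add_zero]
  rw [sum_congr rfl h1, sum_add_distrib]
  have h2 : ∑ p ∈ range (m + 1), ∑ r ∈ range (m + 1), (if r < p ∧ p + r ≤ m then g p r else 0) =
      ∑ p ∈ range (m + 1), ∑ r ∈ range (m + 1), (if p < r ∧ r + p ≤ m then g r p else 0) :=
    sum_comm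
  rw [h2, ← sum_add_distrib]
  unfold prs
  rw [sum_filter, sum_product]
  refine sum_congr rfl fun p _ => ?_
  rw [← sum_add_distrib]
  refine sum_congr rfl fun r _ => ?_
  dsimp only
  by_cases h' : p + r ≤ m
  · rcases lt_trichotomy p r with h | h | h
    · rw [if_pos ⟨h.le, h'⟩, if_pos ⟨h, by omega⟩, if_pos ⟨h.le, h'⟩, if_neg h.ne]
    · subst h
      rw [if_pos ⟨le_rfl, h'⟩, if_neg (by omega), if_pos ⟨le_rfl, h'⟩, if_pos rfl, add_zero]
    · rw [if_neg (by omega), if_neg (by omega), if_neg (by omega), add_zero]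
  · rw [if_neg (by omega), if_neg (by omega), if_neg (by omega), add_zero]

section gen

variable {F : Type} [Field F]

/-- the folded coefficient -/
def ka (h : F) (a b l p c : ℤ) : F :=
  Kf h a b l p c - Kf h a b l p (a + b + l + 2 - p - 1 - c)

theorem syp_neg {h : F} {x : ℤ} (hx : x ≤ 0) : syp h x = 0 := if_neg (not_lt.2 hx)

/-- `Kf` vanishes for large `c` -/
theorem Kf_big (h : F) (a b l p c : ℤ) (ha : 1 ≤ a) (hp : 0 ≤ p) (hc : l + a + 2 ≤ c) :
    Kf h a b l p c = 0 := by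
  unfold Kf
  rw [syp_neg (show l + 2 + a - p - c ≤ 0 by omega), syp_neg (show l + 2 - c ≤ 0 by omega),
    syp_neg (show l + 2 + a - c - p ≤ 0 by omega)]
  by_cases h1 : b ≤ p
  · rw [if_pos h1, if_neg (show ¬ p - b ≤ l + 1 - c by omega)]
    simp
  · rw [if_neg h1]
    simp

theorem fold (hFO : S_FO) (hSTR : S_STR) (hEXT : S_EXT) (h : F) (h0 : h ≠ 0) (N : ℕ)
    (x : Fin N → F) (l a n : ℕ) (ha : 1 ≤ a) (hn : 2 * a + 2 ≤ n) (i j : Fin N) (hij : i < j)
    (p : ℕ) (hp : p < l + n + 1) :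
    ∑ c ∈ Icc 1 (l + a + 1), h ^ (2 * a + 3 * l + 2 + p - 2 * c : ℤ) *
        Kf h a ((n : ℤ) - a) l p c * es x p * bt (h ^ 2) x (l + n - p + 2) c i j =
      ∑ c ∈ (Icc 1 (l + a + 1)).filter (fun c => 2 * c + 2 ≤ l + n - p + 2),
        h ^ (2 * a + 3 * l + 2 + p - 2 * c : ℤ) * ka h a ((n : ℤ) - a) l p c * es x p *
          bt (h ^ 2) x (l + n - p + 2) c i j +
      ∑ r ∈ range (l + n + 1 - p), h ^ (2 * a - n + 2 * l + 1 + 2 * (p + r) : ℤ) *
        Om h a (n - a) l p * es x p * es x r * Cn (h ^ 2) x (l + n - p - r + 2) i j := by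
  have hM : ((l + n - p + 2 : ℕ) : ℤ) = a + ((n : ℤ) - a) + l + 2 - p := by omega
  have key := hFO hSTR hEXT F h h0 N x (l + a + 1) (l + n - p + 2) (2 * a + 3 * l + 2 + p)
    (fun c => Kf h a ((n : ℤ) - a) l p c) (by omega) i j hij
  have e1 : ∑ c ∈ Icc 1 (l + a + 1), h ^ (2 * a + 3 * l + 2 + p - 2 * c : ℤ) *
        Kf h a ((n : ℤ) - a) l p c * es x p * bt (h ^ 2) x (l + n - p + 2) c i j =
      (∑ c ∈ Icc 1 (l + a + 1), h ^ (2 * a + 3 * l + 2 + p - 2 * c : ℤ) *
        Kf h a ((n : ℤ) - a) l p c * bt (h ^ 2) x (l + n - p + 2) c i j) * es x p := by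
    rw [sum_mul]
    exact sum_congr rfl fun c _ => by ring
  rw [e1, key, add_mul, sum_mul]
  congr 1
  · refine sum_congr rfl fun c hc => ?_
    rw [mem_filter, mem_Icc] at hc
    have e2 : (if l + n - p + 2 - 1 - c ≤ l + a + 1 then
        Kf h a ((n : ℤ) - a) l p ((l + n - p + 2 - 1 - c : ℕ) : ℤ) else 0) =
        Kf h a ((n : ℤ) - a) l p (a + ((n : ℤ) - a) + l + 2 - p - 1 - c) := by
      have e3 : ((l + n - p + 2 - 1 - c : ℕ) : ℤ) = a + ((n : ℤ) - a) + l + 2 - p - 1 - c := by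
        omega
      by_cases h1 : l + n - p + 2 - 1 - c ≤ l + a + 1
      · rw [if_pos h1, e3]
      · rw [if_neg h1, Kf_big h a _ l p _ (by omega) (by omega) (by omega)]
    rw [e2]
    unfold ka
    ring
  · have e4 : (∑ c ∈ Icc 1 (l + a + 1), ps h (2 * c + 1 - ((l + n - p + 2 : ℕ) : ℤ)) *
        Kf h a ((n : ℤ) - a) l p c) = Om h a (n - a) l p := by
      unfold Om
      have hb : ((n - a : ℕ) : ℤ) = (n : ℤ) - a := by omega
      rw [hb, hM]
    rw [e4]
    unfold Sn
    rw [mul_sum, sum_mul, show l + n - p + 2 - 1 = l + n + 1 - p by omega]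
    refine sum_congr rfl fun r hr => ?_
    rw [mem_range] at hr
    rw [show l + n - p + 2 - r = l + n - p - r + 2 by omega]
    have e5 : h ^ (2 * a - n + 2 * l + 1 + 2 * (p + r) : ℤ) =
        h ^ (2 * a + 3 * l + 2 + p + 1 - ((l + n - p + 2 : ℕ) : ℤ) : ℤ) * (h ^ 2) ^ r := by
      rw [← pow_mul, ← zpow_natCast, ← zpow_add₀ h0]
      congr 1
      push_cast
      omega
    rw [e5]
    ring

end gen

end UCBAux

open UCBAux in
/-- Task UCB. -/
theorem t_UCB : S_UCB := by
  intro hMP hTH hDE hSY hPB hFO hSTR hEXT hRAW hFA hFB hFC hFD hF1 hKP1 hKP2 hKP3 hPHI hOM1 hOM2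
    hOM3 hPL hPD hCP N l a n ha hn
  obtain ⟨-, hq, h0, h1, h2, -⟩ := hTH N
  obtain ⟨-, -, mbt, -, -, -, -, -, -, mUU, -⟩ := hMP (AN N) (FN N) (thN N) N (qq N) (xx N)
  set x : Fin N → FN N := fun k => thN N (xx N k) with hx
  set b : ℕ := n - a with hb
  have hbz : ((n : ℤ) - a) = (b : ℤ) := by omega
  refine hDE hMP hTH N (n + l + 2) (2 * a + n + 4 * l + 2) _ ?_
    ((range (l + n + 1) ×ˢ Icc 1 (l + a + 1)).filter
      (fun t => 2 * t.2 + 2 ≤ l + n - t.1 + 2)) (prs (l + n))
    (fun p c => ka (hN N) a b l p c)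
    (fun p r => if p = r then Om (hN N) a b l p + Xf (hN N) a b l p p
      else Om (hN N) a b l p + Om (hN N) a b l r + Xf (hN N) a b l p r + Xf (hN N) a b l r p)
    ?_ ?_ ?_
  · intro i j hij
    unfold UU
    exact if_neg hij
  · intro t ht
    rw [mem_filter, mem_product, mem_range, mem_Icc] at ht
    obtain ⟨⟨ht1, ht2, ht3⟩, ht4⟩ := ht
    refine ⟨ht2, by omega, ?_⟩
    have ez : (((2 * a + n + 4 * l + 2 : ℕ) : ℤ) + 2 - 2 * t.2 - (((n + l + 2 : ℕ) : ℤ) - t.1)) =
        2 * a + 3 * l + 2 + t.1 - 2 * t.2 := by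
      push_cast
      ring
    rw [ez]
    unfold ka
    rcases lt_or_ge t.1 a with hpa | hpa
    · exact hKP1 hSY hPB (FN N) (hN N) h0 h1 a b l t.1 t.2 (by omega) (by omega) (by omega)
        (by omega) (by omega) (by omega) (by omega)
    · rcases lt_or_ge t.1 b with hpb | hpb
      · exact hKP2 hSY hPB (FN N) (hN N) h0 h1 a b l t.1 t.2 (by omega) (by omega) (by omega)
          (by omega) (by omega) (by omega) (by omega)
      · exact hKP3 hSY hPB (FN N) (hN N) h0 h1 a b l t.1 t.2 (by omega) (by omega) (by omega)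
          (by omega) (by omega) (by omega) (by omega)
  · intro t ht
    unfold prs at ht
    rw [mem_filter, mem_product, mem_range, mem_range] at ht
    obtain ⟨⟨ht1, ht2⟩, ht3, ht4⟩ := ht
    refine ⟨by omega, ?_⟩
    have ez : (((2 * a + n + 4 * l + 2 : ℕ) : ℤ) + 3 - 2 * (((n + l + 2 : ℕ) : ℤ) - t.1 - t.2)) =
        (a : ℤ) - b + 2 * l + 1 + 2 * (t.1 + t.2) := by
      push_cast
      omega
    rw [ez]
    exact hCP hSY hPB hPHI hOM1 hOM2 hOM3 hPL hPD (FN N) (hN N) h0 h1 a b l t.1 t.2 ha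
      (by omega) ht3 (by omega)
  · intro i j hij
    rw [mUU]
    simp only [mbt, hq]
    rw [hF1 hSY hRAW hFA hFB hFC hFD (FN N) (hN N) h0 h1 h2 N x l a n ha (by omega) (by omega)
      i j hij]
    rw [sum_congr rfl fun p hp => fold hFO hSTR hEXT (hN N) h0 N x l a n ha hn i j hij p
      (mem_range.1 hp), sum_add_distrib, add_assoc, ← sum_add_distrib]
    congr 1
    · rw [sum_filter, sum_product]
      refine sum_congr rfl fun p hp => ?_
      rw [sum_filter]
      rw [mem_range] at hp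
      refine sum_congr rfl fun c hc => ?_
      dsimp only
      split_ifs with hc'
      · rw [hbz, show n + l + 2 - p = l + n - p + 2 by omega]
        congr 4
        push_cast
        ring
      · rfl
    · have e1 : ∀ p ∈ range (l + n + 1),
          (∑ r ∈ range (l + n + 1 - p), hN N ^ (2 * a - n + 2 * l + 1 + 2 * (p + r) : ℤ) *
            Om (hN N) a (n - a) l p * es x p * es x r *
              Cn (hN N ^ 2) x (l + n - p - r + 2) i j) +
          (∑ r ∈ range (l + n + 1 - p), hN N ^ (2 * a - n + 2 * l + 1 + 2 * (p + r) : ℤ) *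
            Xf (hN N) a ((n : ℤ) - a) l p r * es x p * es x r *
              Cn (hN N ^ 2) x (l + n - p - r + 2) i j) =
          ∑ r ∈ range (l + n + 1 - p), hN N ^ (2 * a - n + 2 * l + 1 + 2 * (p + r) : ℤ) *
            (Om (hN N) a b l p + Xf (hN N) a b l p r) * es x p * es x r *
              Cn (hN N ^ 2) x (l + n - p - r + 2) i j := by
        intro p _
        rw [← sum_add_distrib, hbz]
        exact sum_congr rfl fun r _ => by ring
      rw [sum_congr rfl e1, sym (l + n) (fun p r =>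
        hN N ^ (2 * a - n + 2 * l + 1 + 2 * (p + r) : ℤ) *
            (Om (hN N) a b l p + Xf (hN N) a b l p r) * es x p * es x r *
              Cn (hN N ^ 2) x (l + n - p - r + 2) i j)]
      refine sum_congr rfl fun t ht => ?_
      unfold prs at ht
      rw [mem_filter, mem_product, mem_range, mem_range] at ht
      obtain ⟨⟨ht1, ht2⟩, ht3, ht4⟩ := ht
      have ez : (((2 * a + n + 4 * l + 2 : ℕ) : ℤ) + 3 -
          2 * (((n + l + 2 : ℕ) : ℤ) - t.1 - t.2)) =
          2 * a - n + 2 * l + 1 + 2 * (t.1 + t.2) := by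
        push_cast
        ring
      rw [ez, show n + l + 2 - t.1 - t.2 = l + n - t.1 - t.2 + 2 by omega]
      by_cases h : t.1 = t.2
      · rw [if_pos h, if_pos h, ← h]
        ring
      · rw [if_neg h, if_neg h, show l + n - t.2 - t.1 + 2 = l + n - t.1 - t.2 + 2 by omega,
          show (2 * (a : ℤ) - n + 2 * l + 1 + 2 * ((t.2 : ℤ) + t.1)) =
            2 * a - n + 2 * l + 1 + 2 * (t.1 + t.2) by ring]
        ring

end Pool.Agent.SWD
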