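import Pool.Agent.Lib.MP_263316_co.CB.SpecD

/-!
MP_263316_co, part CB: TASK UCC (`UU l` maps `Cn` into the cone).
-/

set_option autoImplicit false

namespace Pool.Agent.SWD

open Finset Pool.Agent.SWC Pool.Agent.SWB

namespace UCCAux

/-- the closed formula for the image of `Cn` -/
private theorem main_id {F : Type} [Field F] (h : F) (h0 : h ≠ 0) (N : ℕ) (x : Fin N → F)
    (l P : ℕ) (_hP : 2 ≤ P) (i j : Fin N)
    (hG : UU (h ^ 2) x l (Cn (h ^ 2) x P) i j =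
      ∑ c ∈ Icc 1 (l + 1), h ^ (P + 3 * l + 1 - 2 * c : ℤ) *
        (syp h (l + 2 - c) * sy h (P - 1 - c)) * bt (h ^ 2) x (P + l + 2) c i j +
      ∑ r ∈ range (P + l + 1), h ^ (2 * l + 2 * r : ℤ) *
        (Qf h (l - r) + if P ≤ r then Qe h (r - l - 4) - Qe h (P - l - 5) else 0) *
          es x r * Cn (h ^ 2) x (P + l + 2 - r) i j)
    (hF : ∑ c ∈ Icc 1 (l + 1), h ^ ((P + 3 * l + 1 : ℤ) - 2 * c) *
        (syp h (l + 2 - c) * sy h (P - 1 - c)) * bt (h ^ 2) x (P + l + 2) c i j =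
      ∑ c ∈ (Icc 1 (l + 1)).filter (fun c => 2 * c + 2 ≤ P + l + 2),
        h ^ ((P + 3 * l + 1 : ℤ) - 2 * c) * (syp h (l + 2 - c) * sy h (P - 1 - c) -
          if P + l + 2 - 1 - c ≤ l + 1 then syp h (l + 2 - (P + l + 2 - 1 - c : ℕ)) *
            sy h (P - 1 - (P + l + 2 - 1 - c : ℕ)) else 0) *
          bt (h ^ 2) x (P + l + 2) c i j +
      h ^ ((P + 3 * l + 1 : ℤ) + 1 - (P + l + 2 : ℕ)) *
        (∑ c ∈ Icc 1 (l + 1), ps h (2 * c + 1 - (P + l + 2 : ℕ)) *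
          (syp h (l + 2 - c) * sy h (P - 1 - c))) * Sn (h ^ 2) x (P + l + 2) i j)
    (q2 : ∑ c ∈ Icc 1 (l + 1), ps h (2 * c + 1 - (P + l + 2 : ℤ)) *
      (syp h (l + 2 - c) * sy h (P - 1 - c)) = - Qf h (l + 1 - P))
    (q3 : ∀ r : ℤ, (P : ℤ) ≤ r → Qf h (l - r) + (Qe h (r - l - 4) - Qe h (P - l - 5)) -
      Qf h (l + 1 - P) = Qf h (r - l - 4) - Qf h (P - l - 5))
    (q4 : ∀ c : ℤ, 1 ≤ c → 2 * c + 2 ≤ P + l + 2 →
      syp h (l + 2 - c) * sy h (P - 1 - c) -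
        syp h (l + 2 - (P + l + 2 - 1 - c)) * sy h (P - 1 - (P + l + 2 - 1 - c)) =
      syp h (l + 2 - c) * syp h (P - 1 - c)) :
    UU (h ^ 2) x l (Cn (h ^ 2) x P) i j =
      ∑ c ∈ (Icc 1 (l + 1)).filter (fun c => 2 * c + 2 ≤ P + l + 2),
        h ^ ((P + 3 * l + 1 : ℤ) - 2 * c) * (syp h (l + 2 - c) * syp h (P - 1 - c)) *
          bt (h ^ 2) x (P + l + 2) c i j +
      ∑ r ∈ range (P + l + 1), h ^ (2 * l + 2 * r : ℤ) *
        (if r < P then Qf h (l - r) - Qf h (l + 1 - P)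
          else Qf h (r - l - 4) - Qf h (P - l - 5)) *
          es x r * Cn (h ^ 2) x (P + l + 2 - r) i j := by
  rw [hG, hF]
  have e1 : ∑ c ∈ Icc 1 (l + 1), ps h (2 * c + 1 - (P + l + 2 : ℕ)) *
      (syp h (l + 2 - c) * sy h (P - 1 - c)) = - Qf h (l + 1 - P) := by
    rw [← q2]
    refine Finset.sum_congr rfl fun c _ => ?_
    push_cast
    rfl
  have e2 : Sn (h ^ 2) x (P + l + 2) i j =
      ∑ r ∈ range (P + l + 1), (h ^ 2) ^ r * es x r * Cn (h ^ 2) x (P + l + 2 - r) i j := rfl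
  have e3 : ((P + 3 * l + 1 : ℤ) + 1 - (P + l + 2 : ℕ)) = 2 * l := by push_cast; ring
  rw [e1, e2, e3, Finset.mul_sum, add_assoc, ← Finset.sum_add_distrib]
  refine congrArg₂ (· + ·) (Finset.sum_congr rfl fun c hc => ?_)
    (Finset.sum_congr rfl fun r _ => ?_)
  · rw [Finset.mem_filter, Finset.mem_Icc] at hc
    obtain ⟨⟨hc1, hc2⟩, hc3⟩ := hc
    have e4 := q4 c (by exact_mod_cast hc1) (by exact_mod_cast hc3)
    have e5 : ((P + l + 2 - 1 - c : ℕ) : ℤ) = P + l + 2 - 1 - c := by omega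
    rw [← e4]
    congr 2
    congr 1
    split_ifs with hif
    · rw [e5]
    · have e6 : syp h (l + 2 - (P + l + 2 - 1 - c)) = 0 := by
        unfold syp
        rw [if_neg]
        omega
      rw [e6, zero_mul]
  · have e7 : h ^ (2 * l : ℤ) * (h ^ 2) ^ r = h ^ (2 * l + 2 * r : ℤ) := by
      have e8 : (2 * r : ℤ) = ((2 * r : ℕ) : ℤ) := by push_cast; ring
      rw [zpow_add₀ h0, ← pow_mul, e8, zpow_natCast]
    by_cases hr : r < P
    · rw [if_neg (by omega), if_pos hr, ← e7]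
      ring
    · rw [if_pos (by omega), if_neg hr, ← e7, ← q3 r (by omega)]
      ring

end UCCAux

open UCCAux in
/-- TASK UCC -/
theorem t_UCC : S_UCC := by
  classical
  intro hMP hTH hDE hSY hPB hFO hSTR hEXT hRC hG1 hPHI hQP N l P hP
  obtain ⟨_, hq, h0, h1, h2, _⟩ := hTH N
  obtain ⟨q1, q2, q3, q4⟩ := hQP hSY hPB hPHI (FN N) (hN N) h0 h1
  obtain ⟨_, _, _, _, _, p6⟩ := hPB hSY (FN N) (hN N) h0 h1
  obtain ⟨_, _, _, m4, _, _, _, _, _, m10, _⟩ := hMP (AN N) (FN N) (thN N) N (qq N) (xx N)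
  refine hDE hMP hTH N (P + l + 2) (2 * P + 4 * l + 1) _ (fun i j hij => ?_)
    (((Icc 1 (l + 1)).filter (fun c => 2 * c + 2 ≤ P + l + 2)).image (fun c => (0, c)))
    ((range (P + l + 1)).image (fun r => (0, r)))
    (fun _ c => syp (hN N) (l + 2 - c) * syp (hN N) (P - 1 - c))
    (fun _ r => if r < P then Qf (hN N) (l - r) - Qf (hN N) (l + 1 - P)
          else Qf (hN N) (r - l - 4) - Qf (hN N) (P - l - 5)) ?_ ?_ ?_
  · unfold UU
    rw [if_neg hij]
  · intro t ht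
    obtain ⟨c, hc, rfl⟩ := Finset.mem_image.1 ht
    rw [Finset.mem_filter, Finset.mem_Icc] at hc
    refine ⟨hc.1.1, by simp only; omega, ?_⟩
    refine p6 _ _ _ fun _ _ => ⟨?_, ?_⟩
    · push_cast
      omega
    · refine ⟨l, ?_⟩
      push_cast
      ring
  · intro t ht
    obtain ⟨r, hr, rfl⟩ := Finset.mem_image.1 ht
    rw [Finset.mem_range] at hr
    refine ⟨by simp only; omega, ?_⟩
    have e : (((2 * P + 4 * l + 1 : ℕ) : ℤ) + 3 - 2 * (((P + l + 2 : ℕ) : ℤ) - ((0 : ℕ) : ℤ) - r)) =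
        2 * (l + r) := by
      push_cast
      ring
    simp only
    rw [e]
    by_cases hrP : r < P
    · rw [if_pos hrP]
      refine q1 _ _ _ (by omega) ⟨l + r, by ring⟩ (by omega)
    · rw [if_neg hrP]
      refine q1 _ _ _ (by omega) ⟨l + r, by ring⟩ (by omega)
  · intro i j hij
    have e1 : thN N (UU (qq N) (xx N) l (Cn (qq N) (xx N) P) i j) =
        UU (hN N ^ 2) (fun k => thN N (xx N k)) l
          (Cn (hN N ^ 2) (fun k => thN N (xx N k)) P) i j := by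
      rw [m10, hq]
      congr 1
      funext i j
      rw [m4, hq]
    have hG := hG1 hSY hRC (FN N) (hN N) h0 h1 h2 N (fun k => thN N (xx N k)) l P hP i j hij
    have hF := hFO hSTR hEXT (FN N) (hN N) h0 N (fun k => thN N (xx N k)) (l + 1) (P + l + 2)
      (P + 3 * l + 1) (fun c : ℕ => syp (hN N) (l + 2 - c) * sy (hN N) (P - 1 - c)) (by omega)
      i j hij
    rw [e1, main_id (hN N) h0 N _ l P hP i j hG hF (q2 l P hP) (fun r hr => q3 l P r hr)
      (fun c hc hc' => q4 l P c (by positivity) (by exact_mod_cast hP) hc hc'),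
      Finset.sum_image (fun a _ b _ hab => (Prod.ext_iff.1 hab).2),
      Finset.sum_image (fun a _ b _ hab => (Prod.ext_iff.1 hab).2)]
    refine congrArg₂ (· + ·) (Finset.sum_congr rfl fun c _ => ?_)
      (Finset.sum_congr rfl fun r _ => ?_)
    · simp only
      rw [es_zero', mul_one, Nat.sub_zero]
      congr 3
      push_cast
      ring
    · simp only
      rw [es_zero', one_mul, Nat.sub_zero]
      congr 4
      push_cast
      ring

end Pool.Agent.SWD
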