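import Pool.Agent.Lib.MP_263316_co.CB.SpecC

/-!
MP_263316_co, part CB3: the identity for `C(s)` in the ring `PA K` (helper76).
-/

set_option autoImplicit false

namespace Pool.Agent.SWD

open Finset Pool.Agent.SWC Pool.Agent.SWB

namespace UCSaux

theorem key (hES : S_ES) (hMP : S_MP) (hDSt : S_DSt) (hSE : S_SE) (hTM : S_TM) (hCU : S_CU)
    (hEV : S_EV) (hRG3 : S_RG3) (hCHC : S_CHC) (hUCr : S_UCr)
    (K : Type) [Field K] (N : ℕ) (q : K) (x : Fin N → K) (hq : q ≠ 0) (h1 : 1 - q ≠ 0)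
    (h2 : 1 + q ≠ 0) (i j : Fin N) (hij : i < j)
    (L : Type) [Field L] (φ : PA K →+* L) (hφ : Function.Injective φ) :
  φ (vA ^ 2 * Ug (kA q) (fun k => kA (x k)) (rA * vA)
      (fun i j => PowerSeries.C (Ct (kB q) (fun k => kB (x k)) vB i j)) i j) =
    φ (kA (1 / ((1 + q) * (1 - q) ^ 2 * q)) *
      PowerSeries.C (Ez (fun k => kB (x k)) (kB (q ^ 2) * vB)) *
      Ct (kA q) (fun k => kA (x k)) (kA 1 * (rA * vA)) i j * gs (kB 1) * gs (kB q⁻¹) +
    kA (q / (1 - q)) * DS (kB q) (fun k => kB (x k)) (kB q) vB i j *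
      gs (kB q) * gs (kB (q ^ 2)) -
    kA (1 / (q * (1 - q))) * DS (kB q) (fun k => kB (x k)) (kB q⁻¹) (kB q * vB) i j *
      gs (kB q) * gs (kB 1) +
    Ez (fun k => kA (x k)) (kA (q ^ 2) * (rA * vA)) *
      PowerSeries.C (Ct (kB q) (fun k => kB (x k)) vB i j) *
      (gs (kB 1) * gs (kB q)) * (gs (kB q) * gs (kB (q ^ 2))) +
    kA (q ^ 4 / ((1 - q) * (1 - q ^ 2))) *
      PowerSeries.C (Ez (fun k => kB (x k)) (kB 1 * vB)) *
      Ct (kA q) (fun k => kA (x k)) (kA (q ^ 2) * (rA * vA)) i j *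
      gs (kB (q ^ 2)) * gs (kB (q ^ 3)) -
    kA (q / (1 - q) ^ 2) * PowerSeries.C (Ez (fun k => kB (x k)) (kB q * vB)) *
      Ct (kA q) (fun k => kA (x k)) (kA q * (rA * vA)) i j * gs (kB q) * gs (kB q)) := by
  obtain ⟨ψ, hψ⟩ : ∃ ψ : K →+* L, ∀ a, φ (kA a) = ψ a := ⟨φ.comp kA, fun _ => rfl⟩
  obtain ⟨φ', hφ'⟩ : ∃ φ' : PB K →+* L, ∀ a, φ (PowerSeries.C a) = φ' a :=
    ⟨φ.comp PowerSeries.C, fun _ => rfl⟩
  have hB : ∀ a : K, φ' (kB a) = ψ a := fun a => by rw [← hφ', ← hψ]; rfl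
  obtain ⟨θ, hθ⟩ : ∃ θ : L, φ rA = θ := ⟨_, rfl⟩
  obtain ⟨s, hs⟩ : ∃ s : L, φ vA = s := ⟨_, rfl⟩
  have hX : φ PowerSeries.X = θ := hθ
  have hsB : φ' vB = s := by rw [← hφ', ← hs]; rfl
  have hgs0 : ∀ c : K, (1 - ψ c * θ) * φ (gs (kB c)) = 1 := by
    intro c
    have h := congrArg φ ((hSE hES (PB K)).1 (kB c))
    rw [map_mul, map_sub, map_one, map_mul, hφ', hB, hX] at h
    exact h
  have hne : ∀ c : K, 1 - ψ c * θ ≠ 0 := fun c h => by
    have := hgs0 c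
    rw [h, zero_mul] at this
    exact zero_ne_one this
  have hgs : ∀ c : K, φ (gs (kB c)) = (1 - ψ c * θ)⁻¹ := fun c =>
    eq_inv_of_mul_eq_one_right (hgs0 c)
  have hψ0 : ∀ a : K, a ≠ 0 → ψ a ≠ 0 := fun a ha => (map_ne_zero ψ).mpr ha
  have hs0 : s ≠ 0 := by
    rw [← hs]
    intro h
    have : (vA : PA K) = 0 := hφ (by rw [h, map_zero])
    have h' : (PowerSeries.X : PB K) = 0 := by
      have := congrArg (PowerSeries.coeff 0) this
      simp [vA] at this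
    exact PowerSeries.X_ne_zero h'
  obtain ⟨-, -, -, -, -, -, -, mCtA, -, -, -, mUgA, -, -⟩ := hMP (PA K) L φ N (kA q)
    (fun k => kA (x k))
  obtain ⟨-, -, -, -, -, mEzA, -, -, -, -, -, -, -, -⟩ := hMP (PA K) L φ N (kA q)
    (fun k => kA (x k))
  obtain ⟨-, -, -, -, -, mEzB, -, mCtB, -, -, -, -, -, -⟩ := hMP (PB K) L φ' N (kB q)
    (fun k => kB (x k))
  obtain ⟨-, -, -, -, -, -, -, -, mpr, -, -, -, -, -⟩ := hMP (PA K) L φ N
    (PowerSeries.C (kB q)) (fun k => PowerSeries.C (kB (x k)))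
  have hDS : ∀ (a : K) (w : PB K), φ (DS (kB q) (fun k => kB (x k)) (kB a) w i j) =
      Db (ψ q) (fun k => ψ (x k)) (ψ a * θ) (φ' w) i j := by
    intro a w
    have h := congrArg φ (hDSt hES (PB K) N (kB q) (fun k => kB (x k)) (kB a) w i j hij)
    simp only [map_mul, map_add, map_sub, map_one, mpr, hφ', hX, map_pow, hB] at h
    have n1 := hne a
    have n2 : 1 - (ψ q ^ 2 * ψ a) * θ ≠ 0 := by
      have := hne (q ^ 2 * a)
      rwa [map_mul, map_pow] at this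
    unfold Db
    have n2' : 1 - ψ q ^ 2 * (ψ a * θ) ≠ 0 := by rwa [← mul_assoc]
    have e1 : ψ q * (ψ a * θ) * φ' w = ψ q * ψ a * φ' w * θ := by ring
    rw [e1]
    rw [div_add_div _ _ n1 n2', eq_div_iff (mul_ne_zero n1 n2')]
    rw [show ψ q ^ 2 * (ψ a * θ) = ψ q ^ 2 * ψ a * θ by ring]
    linear_combination h
  have main := hUCr hTM hCU hEV hRG3 hCHC L N (fun k => ψ (x k)) (ψ q) θ s (hψ0 q hq)
    (by have := hψ0 _ h1; rwa [map_sub, map_one] at this)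
    (by have := hψ0 _ h2; rwa [map_add, map_one] at this) hs0
    (by have := hne 1; rwa [map_one, one_mul] at this) (hne q)
    (by have := hne (q ^ 2); rwa [map_pow] at this)
    (by have := hne (q ^ 3); rwa [map_pow] at this)
    (by
      have := mul_ne_zero (hψ0 q hq) (hne q⁻¹)
      rw [map_inv₀] at this
      intro h
      apply this
      rw [mul_sub, ← mul_assoc, mul_inv_cancel₀ (hψ0 q hq), one_mul, mul_one, h]) i j hij
  simp only [map_add, map_sub, map_mul φ, hDS, hgs]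
  simp only [map_mul, map_add, map_sub, map_pow, mUgA, mCtA, mEzA, mEzB, mCtB, hφ', hψ, hB, hθ,
    hs, hsB, map_one, map_inv₀, map_div₀, one_mul]
  rw [main]
  simp only [div_eq_mul_inv, one_mul, mul_inv, ← inv_pow]
  rw [show (θ * (ψ q)⁻¹) = (ψ q)⁻¹ * θ from mul_comm _ _]
  ring

end UCSaux

theorem t_UCS : S_UCS := by
  intro hES hMP hDSt hSE hTM hCU hEV hRG3 hCHC hUCr K _ N q x hq h1 h2 i j hij
  exact IsFractionRing.injective (PA K) (FractionRing (PA K))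
    (UCSaux.key hES hMP hDSt hSE hTM hCU hEV hRG3 hCHC hUCr K N q x hq h1 h2 i j hij
      (FractionRing (PA K)) (algebraMap (PA K) (FractionRing (PA K)))
      (IsFractionRing.injective (PA K) (FractionRing (PA K))))

end Pool.Agent.SWD
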