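import Pool.Agent.Lib.MP_263316_co.CB.SpecB

/-!
MP_263316_co, CB/UCr: the generating function of `UU` on `C(s)`.
-/

set_option autoImplicit false

namespace Pool.Agent.SWD

open Finset Pool.Agent.SWC Pool.Agent.SWB

namespace UCrX

theorem chain {K : Type} [Field K] (q θ s X Y a0 a1 a3 b0 b1 b3 c0 c1 c3 : K) (hq : q ≠ 0)
    (h1 : 1 - q ≠ 0) (h2 : 1 + q ≠ 0) (hs : s ≠ 0) (hθ : 1 - θ ≠ 0) (hθ1 : 1 - q * θ ≠ 0)
    (hθ2 : 1 - q ^ 2 * θ ≠ 0) (hθ3 : 1 - q ^ 3 * θ ≠ 0) (hqθ : q - θ ≠ 0) :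
    s ^ 2 * (a0 * b0 * c0 * ((1 + q ^ 2 * s * X) * (1 + q ^ 2 * s * Y)) /
      ((1 + q) * (1 - q) ^ 2 * (s - θ * s) * (q * s - θ * s)) +
    q * s * (a1 * b1 * c3 * (1 + q * s * X) * (1 + q ^ 2 * (θ * s) * Y) / (s - q * (θ * s)) +
      q * (a1 * b3 * c3) * (1 + q ^ 3 * (θ * s) * X) * (1 + s * Y) / (s - q ^ 3 * (θ * s))) /
      ((1 - q) * (s - q * (θ * s)) * (s - q ^ 2 * (θ * s))) -
    s * (a0 * b0 * c1 * (1 + q ^ 2 * s * X) * (1 + q * (θ * s) * Y) / (q * s - θ * s) +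
      q * (a0 * b1 * c1) * (1 + q ^ 2 * (θ * s) * X) * (1 + q * s * Y) /
        (q * s - q ^ 2 * (θ * s))) /
      ((1 - q) * (s - q * (θ * s)) * (s - θ * s)) +
    s ^ 2 * (a0 * b1 * c3) * ((1 + q ^ 2 * (θ * s) * X) * (1 + q ^ 2 * (θ * s) * Y)) /
      ((s - θ * s) * (s - q * (θ * s)) ^ 2 * (s - q ^ 2 * (θ * s))) +
    q ^ 4 * (a3 * b3 * c3) * ((1 + s * X) * (1 + s * Y)) /
      ((1 - q) * (1 - q ^ 2) * (s - q ^ 2 * (θ * s)) * (s - q ^ 3 * (θ * s))) -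
    q * (a1 * b1 * c1) * ((1 + q * s * X) * (1 + q * s * Y)) /
      ((1 - q) ^ 2 * (s - q * (θ * s)) ^ 2)) =
    a0 * b0 * c0 * ((1 + q ^ 2 * s * X) * (1 + q ^ 2 * s * Y)) /
      ((1 + q) * (1 - q) ^ 2 * q * (1 - θ) * (1 - θ / q)) +
    q * (a1 * b1 * c3 * (1 + q * s * X) * (1 + q ^ 2 * (θ * s) * Y) / (1 - q * θ) +
      q * (a1 * b3 * c3) * (1 + q ^ 3 * (θ * s) * X) * (1 + s * Y) / (1 - q ^ 3 * θ)) /
      ((1 - q) * (1 - q * θ) * (1 - q ^ 2 * θ)) -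
    (a0 * b0 * c1 * (1 + q ^ 2 * s * X) * (1 + q * (θ * s) * Y) / (1 - θ / q) +
      q * (a0 * b1 * c1) * (1 + q ^ 2 * (θ * s) * X) * (1 + q * s * Y) / (1 - q * θ)) /
      (q * (1 - q) * (1 - q * θ) * (1 - θ)) +
    (a0 * b1 * c3) * ((1 + q ^ 2 * (θ * s) * X) * (1 + q ^ 2 * (θ * s) * Y)) /
      ((1 - θ) * (1 - q * θ) ^ 2 * (1 - q ^ 2 * θ)) +
    q ^ 4 * (a3 * b3 * c3) * ((1 + s * X) * (1 + s * Y)) /
      ((1 - q) * (1 - q ^ 2) * (1 - q ^ 2 * θ) * (1 - q ^ 3 * θ)) -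
    q * (a1 * b1 * c1) * ((1 + q * s * X) * (1 + q * s * Y)) /
      ((1 - q) ^ 2 * (1 - q * θ) ^ 2) := by
  have e0 : s - θ * s = s * (1 - θ) := by ring
  have e1 : s - q * (θ * s) = s * (1 - q * θ) := by ring
  have e2 : s - q ^ 2 * (θ * s) = s * (1 - q ^ 2 * θ) := by ring
  have e3 : s - q ^ 3 * (θ * s) = s * (1 - q ^ 3 * θ) := by ring
  have e4 : q * s - θ * s = s * (q - θ) := by ring
  have e5 : q * s - q ^ 2 * (θ * s) = q * s * (1 - q * θ) := by ring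
  have e6 : 1 - θ / q = (q - θ) / q := by field_simp
  have e7 : (1 : K) - q ^ 2 ≠ 0 := by
    rw [show (1 : K) - q ^ 2 = (1 - q) * (1 + q) by ring]
    exact mul_ne_zero h1 h2
  rw [e0, e1, e2, e3, e4, e5, e6]
  generalize 1 + q ^ 2 * s * X = A1
  generalize 1 + q ^ 2 * s * Y = A2
  generalize 1 + q * s * X = A3
  generalize 1 + q ^ 2 * (θ * s) * Y = A4
  generalize 1 + q ^ 3 * (θ * s) * X = A5
  generalize 1 + s * Y = A6
  generalize 1 + q * (θ * s) * Y = A7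
  generalize 1 + q ^ 2 * (θ * s) * X = A8
  generalize 1 + q * s * Y = A9
  generalize 1 + s * X = A10
  generalize 1 - θ = d0 at *
  generalize 1 - q * θ = d1 at *
  generalize 1 - q ^ 2 * θ = d2 at *
  generalize 1 - q ^ 3 * θ = d3 at *
  generalize q - θ = d4 at *
  generalize 1 - q ^ 2 = d5 at *
  generalize 1 - q = d6 at *
  generalize 1 + q = d7 at *
  have t1 : s ^ 2 * (a0 * b0 * c0 * (A1 * A2) / (d7 * d6 ^ 2 * (s * d0) * (s * d4))) =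
      a0 * b0 * c0 * (A1 * A2) / (d7 * d6 ^ 2 * q * d0 * (d4 / q)) := by
    field_simp
  have t2 : s ^ 2 * (q * s * (a1 * b1 * c3 * A3 * A4 / (s * d1) +
      q * (a1 * b3 * c3) * A5 * A6 / (s * d3)) / (d6 * (s * d1) * (s * d2))) =
      q * (a1 * b1 * c3 * A3 * A4 / d1 + q * (a1 * b3 * c3) * A5 * A6 / d3) /
        (d6 * d1 * d2) := by
    field_simp
  have t3 : s ^ 2 * (s * (a0 * b0 * c1 * A1 * A7 / (s * d4) +
      q * (a0 * b1 * c1) * A8 * A9 / (q * s * d1)) / (d6 * (s * d1) * (s * d0))) =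
      (a0 * b0 * c1 * A1 * A7 / (d4 / q) + q * (a0 * b1 * c1) * A8 * A9 / d1) /
        (q * d6 * d1 * d0) := by
    field_simp
  have t4 : s ^ 2 * (s ^ 2 * (a0 * b1 * c3) * (A8 * A4) /
      ((s * d0) * (s * d1) ^ 2 * (s * d2))) =
      a0 * b1 * c3 * (A8 * A4) / (d0 * d1 ^ 2 * d2) := by
    field_simp
  have t5 : s ^ 2 * (q ^ 4 * (a3 * b3 * c3) * (A10 * A6) /
      (d6 * d5 * (s * d2) * (s * d3))) =
      q ^ 4 * (a3 * b3 * c3) * (A10 * A6) / (d6 * d5 * d2 * d3) := by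
    field_simp
  have t6 : s ^ 2 * (q * (a1 * b1 * c1) * (A3 * A9) / (d6 ^ 2 * (s * d1) ^ 2)) =
      q * (a1 * b1 * c1) * (A3 * A9) / (d6 ^ 2 * d1 ^ 2) := by
    field_simp
  rw [mul_sub, mul_add, mul_add, mul_sub, mul_add, t1, t2, t3, t4, t5, t6]

/-- the states -/
def VV {K : Type} [Field K] (D0 D1 D3 E F : ℕ → K) : ℕ → Fin 3 → K
  | 0 => ![1, 0, 0]
  | k + 1 => ![VV D0 D1 D3 E F k 0 * D0 k, VV D0 D1 D3 E F k 1 * D1 k + VV D0 D1 D3 E F k 0 * E k,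
      VV D0 D1 D3 E F k 2 * D3 k + VV D0 D1 D3 E F k 1 * F k]

end UCrX

open UCrX in
theorem t_UCr : S_UCr := by
  intro hTM hCU hEV hRG hCH K _ N x q θ s hq h1 h2 hs hθ hθ1 hθ2 hθ3 hqθ i j hij
  obtain ⟨X, rfl⟩ : ∃ X : ℕ → K, x = fun k : Fin N => X k :=
    ⟨fun k => if h : k < N then x ⟨k, h⟩ else 0, funext fun k => by simp⟩
  have hi : (i : ℕ) < j := hij
  have hjN : (j : ℕ) < N := j.2
  set D0 : ℕ → K := fun k => (1 + q ^ 2 * s * X k) * sf q X i j 1 (θ * s) k with hD0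
  set D1 : ℕ → K := fun k => (1 + q * s * X k) * sf q X i j q (q * (θ * s)) k with hD1
  set D3 : ℕ → K := fun k => (1 + s * X k) * sf q X i j (q ^ 2) (q ^ 2 * (θ * s)) k with hD3
  set E : ℕ → K := em X i j 0 with hE
  have hU : Ug q (fun k : Fin N => X k) (θ * s) (Ct q (fun k : Fin N => X k) s) i j =
      X i * X j * VV D0 D1 D3 E E N 2 := by
    rw [hCU K N X q (θ * s) s i j hij]
    congr 1
    exact ((hTM K).2.1 D0 D1 D3 E E (fun k => VV D0 D1 D3 E E k 0) (fun k => VV D0 D1 D3 E E k 1)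
      (fun k => VV D0 D1 D3 E E k 2) rfl rfl rfl (fun k => rfl) (fun k => rfl) (fun k => rfl)
      N).symm
  -- the steps
  have s1 : ∀ k, 0 ≤ k → k < (i : ℕ) →
      VV D0 D1 D3 E E (k + 1) = sp3 q s (q ^ 2 * (θ * s)) (X k) (VV D0 D1 D3 E E k) := by
    intro k _ hk
    have n1 : ¬ (k = (i : ℕ) ∨ k = (j : ℕ)) := by omega
    have w1 : wn q k i j = q * q := by
      unfold wn
      rw [if_pos hk, if_pos (hk.trans hi)]
    funext a
    fin_cases a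
    · change VV D0 D1 D3 E E k 0 * D0 k =
        (1 + q ^ 2 * s * X k) * (1 + q ^ 2 * (θ * s) * X k) * VV D0 D1 D3 E E k 0
      simp only [hD0, sf, if_neg n1, w1]
      ring
    · change VV D0 D1 D3 E E k 1 * D1 k + VV D0 D1 D3 E E k 0 * E k = (1 + q * s * X k) *
        (1 + q * (q ^ 2 * (θ * s)) * X k) * VV D0 D1 D3 E E k 1 + X k * VV D0 D1 D3 E E k 0
      simp only [hD1, hE, sf, em, if_neg n1, w1]
      ring
    · change VV D0 D1 D3 E E k 2 * D3 k + VV D0 D1 D3 E E k 1 * E k = (1 + s * X k) *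
        (1 + q ^ 2 * (q ^ 2 * (θ * s)) * X k) * VV D0 D1 D3 E E k 2 + X k * VV D0 D1 D3 E E k 1
      simp only [hD3, hE, sf, em, if_neg n1, w1]
      ring
  have s2 : ∀ k, (i : ℕ) + 1 ≤ k → k < (j : ℕ) →
      VV D0 D1 D3 E E (k + 1) = sp3 q s (q * (θ * s)) (X k) (VV D0 D1 D3 E E k) := by
    intro k hk1 hk
    have n1 : ¬ (k = (i : ℕ) ∨ k = (j : ℕ)) := by omega
    have w1 : wn q k i j = 1 * q := by
      unfold wn
      rw [if_neg (by omega), if_pos hk]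
    funext a
    fin_cases a
    · change VV D0 D1 D3 E E k 0 * D0 k =
        (1 + q ^ 2 * s * X k) * (1 + q * (θ * s) * X k) * VV D0 D1 D3 E E k 0
      simp only [hD0, sf, if_neg n1, w1]
      ring
    · change VV D0 D1 D3 E E k 1 * D1 k + VV D0 D1 D3 E E k 0 * E k = (1 + q * s * X k) *
        (1 + q * (q * (θ * s)) * X k) * VV D0 D1 D3 E E k 1 + X k * VV D0 D1 D3 E E k 0
      simp only [hD1, hE, sf, em, if_neg n1, w1]
      ring
    · change VV D0 D1 D3 E E k 2 * D3 k + VV D0 D1 D3 E E k 1 * E k = (1 + s * X k) *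
        (1 + q ^ 2 * (q * (θ * s)) * X k) * VV D0 D1 D3 E E k 2 + X k * VV D0 D1 D3 E E k 1
      simp only [hD3, hE, sf, em, if_neg n1, w1]
      ring
  have s3 : ∀ k, (j : ℕ) + 1 ≤ k → k < N →
      VV D0 D1 D3 E E (k + 1) = sp3 q s (θ * s) (X k) (VV D0 D1 D3 E E k) := by
    intro k hk1 hk
    have n1 : ¬ (k = (i : ℕ) ∨ k = (j : ℕ)) := by omega
    have w1 : wn q k i j = 1 * 1 := by
      unfold wn
      rw [if_neg (by omega), if_neg (by omega)]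
    funext a
    fin_cases a
    · change VV D0 D1 D3 E E k 0 * D0 k =
        (1 + q ^ 2 * s * X k) * (1 + θ * s * X k) * VV D0 D1 D3 E E k 0
      simp only [hD0, sf, if_neg n1, w1]
      ring
    · change VV D0 D1 D3 E E k 1 * D1 k + VV D0 D1 D3 E E k 0 * E k = (1 + q * s * X k) *
        (1 + q * (θ * s) * X k) * VV D0 D1 D3 E E k 1 + X k * VV D0 D1 D3 E E k 0
      simp only [hD1, hE, sf, em, if_neg n1, w1]
      ring
    · change VV D0 D1 D3 E E k 2 * D3 k + VV D0 D1 D3 E E k 1 * E k = (1 + s * X k) *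
        (1 + q ^ 2 * (θ * s) * X k) * VV D0 D1 D3 E E k 2 + X k * VV D0 D1 D3 E E k 1
      simp only [hD3, hE, sf, em, if_neg n1, w1]
      ring
  have m : ∀ k, (k = (i : ℕ) ∨ k = (j : ℕ)) →
      VV D0 D1 D3 E E (k + 1) = si3 q s (X k) (VV D0 D1 D3 E E k) := by
    intro k hk
    funext a
    fin_cases a
    · change VV D0 D1 D3 E E k 0 * D0 k = (1 + q ^ 2 * s * X k) * VV D0 D1 D3 E E k 0
      simp only [hD0, sf, if_pos hk]
      ring
    · change VV D0 D1 D3 E E k 1 * D1 k + VV D0 D1 D3 E E k 0 * E k =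
        q * (1 + q * s * X k) * VV D0 D1 D3 E E k 1
      simp only [hD1, hE, sf, em, if_pos hk]
      ring
    · change VV D0 D1 D3 E E k 2 * D3 k + VV D0 D1 D3 E E k 1 * E k =
        q ^ 2 * (1 + s * X k) * VV D0 D1 D3 E E k 2
      simp only [hD3, hE, sf, em, if_pos hk]
      ring
  have z0 : s - θ * s ≠ 0 := by
    rw [show s - θ * s = s * (1 - θ) by ring]
    exact mul_ne_zero hs hθ
  have z1 : s - q * (θ * s) ≠ 0 := by
    rw [show s - q * (θ * s) = s * (1 - q * θ) by ring]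
    exact mul_ne_zero hs hθ1
  have z2 : s - q ^ 2 * (θ * s) ≠ 0 := by
    rw [show s - q ^ 2 * (θ * s) = s * (1 - q ^ 2 * θ) by ring]
    exact mul_ne_zero hs hθ2
  have z3 : s - q ^ 3 * (θ * s) ≠ 0 := by
    rw [show s - q ^ 3 * (θ * s) = s * (1 - q ^ 3 * θ) by ring]
    exact mul_ne_zero hs hθ3
  have z4 : q * s - θ * s ≠ 0 := by
    rw [show q * s - θ * s = s * (q - θ) by ring]
    exact mul_ne_zero hs hqθ
  have z5 : q * s - q * (θ * s) ≠ 0 := by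
    rw [show q * s - q * (θ * s) = q * (s * (1 - θ)) by ring]
    exact mul_ne_zero hq (mul_ne_zero hs hθ)
  have z6 : q * s - q ^ 2 * (θ * s) ≠ 0 := by
    rw [show q * s - q ^ 2 * (θ * s) = q * (s * (1 - q * θ)) by ring]
    exact mul_ne_zero hq (mul_ne_zero hs hθ1)
  have z7 : s - q * (q ^ 2 * (θ * s)) ≠ 0 := by
    rw [show s - q * (q ^ 2 * (θ * s)) = s - q ^ 3 * (θ * s) by ring]
    exact z3
  have z8 : s - q * (q * (θ * s)) ≠ 0 := by
    rw [show s - q * (q * (θ * s)) = s - q ^ 2 * (θ * s) by ring]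
    exact z2
  have r1 := hRG.1 K q s (q ^ 2 * (θ * s)) h1 h2 z6 z2 z7 X 0 i (Nat.zero_le _)
    (VV D0 D1 D3 E E) s1
  have r2 := hRG.1 K q s (q * (θ * s)) h1 h2 z5 z1 z8 X (i + 1) j hi (VV D0 D1 D3 E E) s2
  have r3 := hRG.1 K q s (θ * s) h1 h2 z4 z0 z1 X (j + 1) N hjN (VV D0 D1 D3 E E) s3
  have hV0 : VV D0 D1 D3 E E 0 = ![1, 0, 0] := rfl
  rw [hU, r3, m j (Or.inr rfl), r2, m i (Or.inl rfl), r1, hV0,
    hCH K q (θ * s) s (X i) (X j) hq h1 h2 z0 z1 z2 z3 z4,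
    show ∀ w : K, s ^ 2 * (X i * X j * w) = X i * X j * (s ^ 2 * w) from fun w => by ring,
    chain q θ s (X i) (X j) _ _ _ _ _ _ _ _ _ hq h1 h2 hs hθ hθ1 hθ2 hθ3 hqθ]
  -- the right-hand side
  obtain ⟨v1, v2, v3⟩ := hEV K N X q i j hij (fun w => ∏ k ∈ range i, (1 + w * X k))
    (fun w => ∏ k ∈ Ico (i + 1 : ℕ) j, (1 + w * X k))
    (fun w => ∏ k ∈ Ico (j + 1 : ℕ) N, (1 + w * X k)) (fun _ => rfl) (fun _ => rfl)
    (fun _ => rfl)
  have f1 : q * (θ / q) * (q * s) = q * (θ * s) := by field_simp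
  have f2 : 1 - q ^ 2 * (θ / q) = 1 - q * θ := by field_simp
  have f3 : 1 - q ^ 2 * (q * θ) = 1 - q ^ 3 * θ := by ring
  simp only [Db, v1, v2, v3, f1, f2, f3, prod_mul_distrib, range_eq_Ico]
  have g1 : q * (q * θ) * s = q ^ 2 * (θ * s) := by ring
  have g2 : q * (q ^ 2 * (θ * s)) = q ^ 3 * (θ * s) := by ring
  have g3 : q * (q * (θ * s)) = q ^ 2 * (θ * s) := by ring
  have g4 : q ^ 2 * (q * (θ * s)) = q ^ 3 * (θ * s) := by ring
  have g5 : q * (q * s) = q ^ 2 * s := by ring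
  have g6 : q ^ 2 * (q ^ 2 * (θ * s)) = q ^ 4 * (θ * s) := by ring
  simp only [g1, g2, g3, g4, g5, g6]
  ring

end Pool.Agent.SWD
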