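import Pool.Agent.Lib.MP_263316_co.CB.SpecD

/-!
MP_263316_co, part CB4, task UCt: the operator `UU l` preserves the cone.
-/

set_option autoImplicit false

namespace Pool.Agent.SWD

open Finset Pool.Agent.SWC Pool.Agent.SWB

namespace UCtAux

theorem UU_zero (N l : ℕ) : UU (qq N) (xx N) l (0 : Fin N → Fin N → AN N) = 0 := by
  have h := UU_add (qq N) (xx N) l 0 0
  rw [add_zero] at h
  exact left_eq_add.mp h

end UCtAux

open UCtAux in
theorem t_UCt : S_UCt := by
  intro hM hB hC N n d l f hf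
  unfold SC at hf
  induction hf using AddSubmonoid.closure_induction with
  | zero =>
    rw [UU_zero]
    exact AddSubmonoid.zero_mem _
  | add a b _ _ ha hb =>
    rw [UU_add]
    exact AddSubmonoid.add_mem _ ha hb
  | mem F hF =>
    rcases hF with ⟨n1, d1, n0, a, u, hu, ha, ha2, hn, hd, rfl⟩ | ⟨n1, d1, k, u, hu, hk, hn, hd, rfl⟩
    · have h := (hM N (n0 + l + 2) (2 * a + n0 + 4 * l + 2) n1 d1 u hu).1 _ (hB N l a n0 ha ha2)
      have e1 : n + l + 2 = n1 + (n0 + l + 2) := by omega
      have e2 : d + 4 * l + 4 = d1 + (2 * a + n0 + 4 * l + 2) := by omega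
      rw [UU_smul, e1, e2]
      exact h
    · have h := (hM N (k + l + 2) (2 * k + 4 * l + 1) n1 d1 u hu).1 _ (hC N l k hk)
      have e1 : n + l + 2 = n1 + (k + l + 2) := by omega
      have e2 : d + 4 * l + 4 = d1 + (2 * k + 4 * l + 1) := by omega
      rw [UU_smul, e1, e2]
      exact h

end Pool.Agent.SWD
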