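import Pool.Agent.Lib.MP_263316_co.CB.SpecC

/-!
MP_263316_co, part CB: `Ug` and `Wg` as finite sums over `l`.
-/

set_option autoImplicit false

namespace Pool.Agent.SWD

open Finset Pool.Agent.SWC Pool.Agent.SWB

namespace UGSAux

/-- the expansion of a product -/
theorem prod_exp {R ι : Type} [CommRing R] [DecidableEq ι] (s : Finset ι) (N : ℕ)
    (hs : s.card ≤ N) (t : R) (y : ι → R) :
    ∏ k ∈ s, (1 + t * y k) =
      ∑ l ∈ range (N + 1), (∑ C ∈ powersetCard l s, ∏ k ∈ C, y k) * t ^ l := by
  have h1 : ∏ k ∈ s, (1 + t * y k) = ∑ C ∈ s.powerset, ∏ k ∈ C, (t * y k) := by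
    rw [Finset.prod_one_add]
  rw [h1, Finset.sum_powerset]
  have h2 : ∀ l, ∑ C ∈ powersetCard l s, ∏ k ∈ C, (t * y k) =
      (∑ C ∈ powersetCard l s, ∏ k ∈ C, y k) * t ^ l := by
    intro l
    rw [Finset.sum_mul]
    refine Finset.sum_congr rfl fun C hC => ?_
    rw [Finset.prod_mul_distrib, Finset.prod_const, (Finset.mem_powersetCard.1 hC).2, mul_comm]
  simp only [h2]
  refine Finset.sum_subset (Finset.range_subset_range.2 (by omega)) fun l _ hl => ?_
  rw [Finset.mem_range, not_lt] at hl
  rw [Finset.powersetCard_eq_empty.2 (by omega), Finset.sum_empty, zero_mul]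

theorem card_le {N : ℕ} (s : Finset (Fin N)) : s.card ≤ N := by
  have := Finset.card_le_univ s
  rwa [Fintype.card_fin] at this

end UGSAux

open UGSAux in
theorem t_UGS : S_UGS := by
  intro R _ N q x
  refine ⟨?_, ?_, ?_, ?_⟩
  · intro t f i' j'
    unfold Ug UU
    by_cases h : i' < j'
    · simp only [if_pos h]
      simp only [prod_exp _ N (card_le _)]
      have e : ∀ (a : R) (A : ℕ → R), (∑ l ∈ range (N + 1), (a * A l) * t ^ l) =
          a * ∑ l ∈ range (N + 1), A l * t ^ l := by
        intro a A
        rw [Finset.mul_sum]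
        exact Finset.sum_congr rfl fun l _ => by ring
      rw [e]
      congr 1
      simp only [Finset.sum_mul]
      rw [Finset.sum_comm]
      refine Finset.sum_congr rfl fun i _ => ?_
      rw [Finset.sum_comm]
      refine Finset.sum_congr rfl fun j _ => ?_
      rw [Finset.mul_sum]
      refine Finset.sum_congr rfl fun l _ => ?_
      rw [← Finset.sum_mul]
      ring
    · simp [if_neg h]
  · intro l f i' j' hl
    unfold UU
    split_ifs
    · rw [mul_eq_zero_of_right]
      refine Finset.sum_eq_zero fun i _ => Finset.sum_eq_zero fun j _ => ?_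
      rw [Finset.powersetCard_eq_empty.2 (lt_of_le_of_lt (card_le _) hl), Finset.sum_empty,
        mul_zero]
    · rfl
  · intro t G i j
    unfold Wg Wo
    by_cases h : i < j
    · simp only [if_pos h]
      simp only [prod_exp _ N (card_le _)]
      have e : ∀ (a : R) (A : ℕ → R), (∑ l ∈ range (N + 1), (a * A l) * t ^ l) =
          a * ∑ l ∈ range (N + 1), A l * t ^ l := by
        intro a A
        rw [Finset.mul_sum]
        exact Finset.sum_congr rfl fun l _ => by ring
      rw [e]
      congr 1
      simp only [Finset.sum_mul]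
      rw [Finset.sum_comm]
      refine Finset.sum_congr rfl fun k _ => ?_
      rw [Finset.mul_sum]
      refine Finset.sum_congr rfl fun l _ => ?_
      rw [← Finset.sum_mul]
      ring
    · simp [if_neg h]
  · intro l G i j hl
    unfold Wo
    split_ifs
    · rw [mul_eq_zero_of_right]
      refine Finset.sum_eq_zero fun k _ => ?_
      rw [Finset.powersetCard_eq_empty.2 (lt_of_le_of_lt (card_le _) hl), Finset.sum_empty,
        mul_zero]
    · rfl

end Pool.Agent.SWD
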