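import Pool.Agent.Lib.MP_263316_co.CB.SpecC

/-!
MP_263316_co, part CB3: the identity for `Wg` in the ring of power series (`S_WES`).
-/

set_option autoImplicit false

namespace Pool.Agent.SWD

open Finset Pool.Agent.SWC Pool.Agent.SWB

namespace WESp

/-- the image of a geometric series in a field -/
theorem gs_img (hES : S_ES) (hSE : S_SE) {K : Type} [Field K] {L : Type} [Field L]
    (φ : PA K →+* L) (c : PB K) :
    1 - φ (PowerSeries.C c) * φ PowerSeries.X ≠ 0 ∧
      φ (gs c) = 1 / (1 - φ (PowerSeries.C c) * φ PowerSeries.X) := by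
  have h := (hSE hES (PB K)).1 c
  have h2 := congrArg φ h
  rw [map_mul, map_sub, map_one, map_mul] at h2
  have h3 : 1 - φ (PowerSeries.C c) * φ PowerSeries.X ≠ 0 := by
    intro h0
    rw [h0, zero_mul] at h2
    exact zero_ne_one h2
  refine ⟨h3, ?_⟩
  rw [eq_div_iff h3, mul_comm]
  exact h2

end WESp

theorem t_WES : S_WES := by
  intro hES hMP hDSt hSE hTM hWU hEV hRG3 hWEr K _ N q x hq hq1 i j hij
  let L : Type := FractionRing (PA K)
  let φ : PA K →+* L := algebraMap (PA K) L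
  have hφ : Function.Injective φ := IsFractionRing.injective (PA K) L
  apply hφ
  -- the images of the variables
  obtain ⟨q', hq'⟩ : ∃ q', q' = φ (kA q) := ⟨_, rfl⟩
  obtain ⟨θ, hθ⟩ : ∃ θ, θ = φ rA := ⟨_, rfl⟩
  obtain ⟨z, hz⟩ : ∃ z, z = φ vA := ⟨_, rfl⟩
  obtain ⟨x', hx'⟩ : ∃ x' : Fin N → L, x' = fun k => φ (kA (x k)) := ⟨_, rfl⟩
  have e1 : φ (kA 1) = 1 := by rw [map_one, map_one]
  have hkinj : ∀ c : K, c ≠ 0 → φ (kA c) ≠ 0 := by
    intro c hc
    exact (map_ne_zero (φ.comp kA)).2 hc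
  have n1 : q' ≠ 0 := by rw [hq']; exact hkinj q hq
  have n2 : 1 - q' ≠ 0 := by
    have := hkinj (1 - q) hq1
    rwa [map_sub, map_sub, e1, ← hq'] at this
  have n3 : z ≠ 0 := by
    rw [hz]
    have hv : (vA : PA K) ≠ 0 := by
      intro h0
      have h1 : (PowerSeries.X : PowerSeries K) = 0 := by
        apply PowerSeries.C_injective
        rw [map_zero]
        exact h0
      exact PowerSeries.X_ne_zero h1
    intro h0
    apply hv
    apply hφ
    rw [h0, map_zero]
  have g1 := WESp.gs_img hES hSE φ (kB 1)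
  have g2 := WESp.gs_img hES hSE φ (kB q)
  have g3 := WESp.gs_img hES hSE φ (kB (q ^ 2))
  have c1 : φ (PowerSeries.C (kB (1 : K))) = 1 := e1
  have c2 : φ (PowerSeries.C (kB q)) = q' := hq'.symm
  have c3 : φ (PowerSeries.C (kB (q ^ 2))) = q' ^ 2 := by
    have h0 : φ (kA (q ^ 2)) = φ (kA q) ^ 2 := by rw [map_pow, map_pow]
    rw [hq', ← h0]; rfl
  have cX : φ (PowerSeries.X : PA K) = θ := hθ.symm
  rw [c1, cX, one_mul] at g1
  rw [c2, cX] at g2
  rw [c3, cX] at g3
  have cq : φ (kA (q ^ 2 / (1 - q))) = q' ^ 2 / (1 - q') := by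
    have h0 : (φ.comp kA) (q ^ 2 / (1 - q)) =
        (φ.comp kA) q ^ 2 / (1 - (φ.comp kA) q) := by
      rw [map_div₀, map_pow, map_sub, map_one]
    rw [hq']
    exact h0
  have cq1 : φ (kA (1 / (1 - q))) = 1 / (1 - q') := by
    have h0 : (φ.comp kA) (1 / (1 - q)) = 1 / (1 - (φ.comp kA) q) := by
      rw [map_div₀, map_sub, map_one]
    rw [hq']
    exact h0
  -- the functions
  obtain ⟨-, -, -, -, -, -, -, -, mPR, -, -, -, mWg, -⟩ :=
    hMP (PA K) L φ N (kA q) (fun k => kA (x k))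
  obtain ⟨-, -, -, -, -, -, -, mCt, -⟩ := hMP (PA K) L φ N (kA q) (fun k => kA (x k))
  obtain ⟨-, -, -, -, -, mEz, mph, -⟩ :=
    hMP (PB K) L (φ.comp PowerSeries.C) N (kB q) (fun k => kB (x k))
  have mEz' : ∀ y : PB K, φ (PowerSeries.C (Ez (fun k => kB (x k)) y)) =
      Ez x' (φ (PowerSeries.C y)) := by
    intro y
    rw [hx']
    exact mEz y
  have mph' : ∀ (y : PB K) (k : Fin N), φ (PowerSeries.C (ph (kB q) (fun k => kB (x k)) y k)) =
      ph q' x' (φ (PowerSeries.C y)) k := by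
    intro y k
    rw [hx', hq']
    exact mph y k
  have mCt' : ∀ t, φ (Ct (kA q) (fun k => kA (x k)) t i j) = Ct q' x' (φ t) i j := by
    intro t
    rw [hx', hq']
    exact mCt t i j
  have mPR' : ∀ y w, φ (pr (kA q) (fun k => kA (x k)) y w i j) =
      pr q' x' (φ y) (φ w) i j := by
    intro y w
    rw [hx', hq']
    exact mPR y w i j
  have mWg' : ∀ t G, φ (Wg (kA q) (fun k => kA (x k)) t G i j) =
      Wg q' x' (φ t) (fun k => φ (G k)) i j := by
    intro t G
    rw [hx', hq']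
    exact mWg t G i j
  -- the series `DS`
  have hD : φ (DS (kB q) (fun k => kB (x k)) 1 vB i j) = Db q' x' θ z i j := by
    have h := congrArg φ
      (hDSt hES (PB K) N (kB q) (fun k => kB (x k)) 1 vB i j hij)
    have a1 : (PowerSeries.C ((kB q : PB K) ^ 2 * 1) : PA K) = PowerSeries.C (kB (q ^ 2)) := by
      rw [mul_one, map_pow kB]
    have a2 : (PowerSeries.C (1 : PB K) : PA K) = PowerSeries.C (kB (1 : K)) := by
      rw [map_one kB]
    have a3 : ∀ y w, φ (pr (PowerSeries.C (kB q)) (fun k => PowerSeries.C (kB (x k))) y w i j) =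
        pr q' x' (φ y) (φ w) i j := mPR'
    have a4 : φ (PowerSeries.C ((kB q : PB K) * 1 * vB) * PowerSeries.X) = q' * θ * z := by
      have h5 : φ (PowerSeries.C (vB : PB K)) = z := hz.symm
      rw [map_mul, cX, mul_one, map_mul, map_mul, c2, h5]
      ring
    have a5 : φ (PowerSeries.C (vB : PB K)) = z := hz.symm
    rw [a1, a2] at h
    simp only [map_mul, map_add, map_sub, map_one, a3, a5, c2, c3, cX] at h
    have e2 : q' * 1 * z * θ = q' * θ * z := by ring
    rw [e2] at h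
    unfold Db
    have n4 := g1.1
    have n5 := g3.1
    rw [div_add_div _ _ n4 n5, eq_div_iff (mul_ne_zero n4 n5)]
    linear_combination h
  have hA := hWEr hTM hWU hEV hRG3 L N x' q' θ z n1 n2 n3 g1.1 g2.1 g3.1 i j hij
  have a5 : φ (PowerSeries.C (vB : PB K)) = z := hz.symm
  have b1 : φ (rA * vA) = θ * z := by rw [map_mul, ← hθ, ← hz]
  have b2 : φ (kA 1 * (rA * vA)) = θ * z := by rw [map_mul, b1, e1, one_mul]
  have b3 : φ (kA q * (rA * vA)) = q' * (θ * z) := by rw [map_mul, b1, ← hq']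
  have b4 : φ (PowerSeries.C (kB q * vB)) = q' * z := by rw [map_mul, map_mul, c2, a5]
  have b5 : φ (PowerSeries.C ((kB 1 : PB K) * vB)) = z := by rw [map_mul, map_mul, c1, a5, one_mul]
  have b6 : ∀ k, φ (PowerSeries.C (kB (x k))) = x' k := by
    intro k
    rw [hx']
    rfl
  have hL : φ (Wg (kA q) (fun k => kA (x k)) (rA * vA)
      (fun k => PowerSeries.C (vB * kB (x k) * ph (kB q) (fun k => kB (x k)) vB k)) i j) =
      Wg q' x' (θ * z) (fun k => z * x' k * ph q' x' z k) i j := by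
    rw [mWg', b1]
    congr 1
    funext k
    rw [map_mul, map_mul, map_mul, map_mul, mph', a5, b6]
  rw [hL, hA]
  rw [map_add, map_sub, map_mul, map_mul, map_mul, map_mul, map_mul, map_mul, map_mul]
  rw [hD, g2.2, cq1, cq, mEz', mEz', mCt', mCt', b2, b3, b4, b5, g1.2, g3.2]
  have n4 := g1.1
  have n5 := g3.1
  have n6 := g2.1
  rw [div_eq_mul_one_div (Db q' x' θ z i j) (1 - q' * θ)]
  congr 1
  · congr 1
    rw [div_mul_eq_mul_div, div_mul_eq_mul_div, div_mul_div_comm, one_mul, mul_one]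
  · rw [div_mul_eq_mul_div, div_mul_eq_mul_div, div_mul_div_comm, mul_one]

end Pool.Agent.SWD
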