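import Pool.Agent.Lib.MP_263316_co.CB.SpecB

/-!
MP_263316_co, CB/WEr: the generating function of `Wo`.
-/

set_option autoImplicit false

namespace Pool.Agent.SWD

open Finset Pool.Agent.SWC Pool.Agent.SWB

namespace WErX

theorem chain {K : Type} [Field K] (q θ z X Y a0 a1 b0 b1 c0 c1 : K) (h1 : 1 - q ≠ 0)
    (hz : z ≠ 0) (hθ : 1 - θ ≠ 0) (hθ1 : 1 - q * θ ≠ 0) (hθ2 : 1 - q ^ 2 * θ ≠ 0) :
    rg2 q z (θ * z) c0 c1 (si2 q z Y (rg2 q z (q * (θ * z)) b0 b1 (si2 q z X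
      (rg2 q z (q ^ 2 * (θ * z)) a0 a1 ![1, 0])))) 1 =
    (a0 * b0 * c1 * (1 + q * z * X) * (1 + q * (θ * z) * Y) / (1 - θ) +
      q * (a0 * b1 * c1) * (1 + q ^ 2 * (θ * z) * X) * (1 + z * Y) / (1 - q ^ 2 * θ)) /
        (1 - q * θ) -
      a0 * b0 * c0 * (1 + q * z * X) * (1 + q * z * Y) / ((1 - q) * (1 - θ)) +
      q ^ 2 * (a1 * b1 * c1) * (1 + z * X) * (1 + z * Y) / ((1 - q) * (1 - q ^ 2 * θ)) := by
  have e1 : z - θ * z = z * (1 - θ) := by ring
  have e2 : z - q * (θ * z) = z * (1 - q * θ) := by ring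
  have e3 : z - q ^ 2 * (θ * z) = z * (1 - q ^ 2 * θ) := by ring
  simp only [rg2, si2, Matrix.cons_val_zero, Matrix.cons_val_one, e1, e2, e3]
  field_simp
  ring

/-- the states -/
def VV {K : Type} [Field K] (D0 D1 E : ℕ → K) : ℕ → Fin 2 → K
  | 0 => ![1, 0]
  | k + 1 => ![VV D0 D1 E k 0 * D0 k, VV D0 D1 E k 1 * D1 k + VV D0 D1 E k 0 * E k]

end WErX

open WErX in
theorem t_WEr : S_WEr := by
  intro hTM hWU hEV hRG K _ N x q θ z hq h1 hz hθ hθ1 hθ2 i j hij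
  obtain ⟨X, rfl⟩ : ∃ X : ℕ → K, x = fun k : Fin N => X k :=
    ⟨fun k => if h : k < N then x ⟨k, h⟩ else 0, funext fun k => by simp⟩
  have hi : (i : ℕ) < j := hij
  have hjN : (j : ℕ) < N := j.2
  set D0 : ℕ → K := fun k => (1 + q * z * X k) * sf q X i j 1 (θ * z) k with hD0
  set D1 : ℕ → K := fun k => (1 + z * X k) * sf q X i j q (q * (θ * z)) k with hD1
  set E : ℕ → K := fun k => z * em X i j 0 k with hE
  have hW : Wg q (fun k : Fin N => X k) (θ * z)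
      (fun k => z * X k * ph q (fun k : Fin N => X k) z k) i j = X i * X j * VV D0 D1 E N 1 := by
    rw [hWU K N X q (θ * z) z i j hij]
    congr 1
    exact ((hTM K).1 D0 D1 E (fun k => VV D0 D1 E k 0) (fun k => VV D0 D1 E k 1) rfl rfl
      (fun k => rfl) (fun k => rfl) N).symm
  -- the steps
  have s1 : ∀ k, 0 ≤ k → k < (i : ℕ) →
      VV D0 D1 E (k + 1) = sp2 q z (q ^ 2 * (θ * z)) (X k) (VV D0 D1 E k) := by
    intro k _ hk
    have n1 : ¬ (k = (i : ℕ) ∨ k = (j : ℕ)) := by omega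
    have w1 : wn q k i j = q * q := by
      unfold wn
      rw [if_pos hk, if_pos (hk.trans hi)]
    funext a
    fin_cases a
    · change VV D0 D1 E k 0 * D0 k = (1 + q * z * X k) * (1 + q ^ 2 * (θ * z) * X k) * VV D0 D1 E k 0
      simp only [hD0, sf, if_neg n1, w1]
      ring
    · change VV D0 D1 E k 1 * D1 k + VV D0 D1 E k 0 * E k = (1 + z * X k) *
        (1 + q * (q ^ 2 * (θ * z)) * X k) * VV D0 D1 E k 1 + z * X k * VV D0 D1 E k 0
      simp only [hD1, hE, sf, em, if_neg n1, w1]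
      ring
  have s2 : ∀ k, (i : ℕ) + 1 ≤ k → k < (j : ℕ) →
      VV D0 D1 E (k + 1) = sp2 q z (q * (θ * z)) (X k) (VV D0 D1 E k) := by
    intro k hk1 hk
    have n1 : ¬ (k = (i : ℕ) ∨ k = (j : ℕ)) := by omega
    have w1 : wn q k i j = 1 * q := by
      unfold wn
      rw [if_neg (by omega), if_pos hk]
    funext a
    fin_cases a
    · change VV D0 D1 E k 0 * D0 k = (1 + q * z * X k) * (1 + q * (θ * z) * X k) * VV D0 D1 E k 0
      simp only [hD0, sf, if_neg n1, w1]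
      ring
    · change VV D0 D1 E k 1 * D1 k + VV D0 D1 E k 0 * E k = (1 + z * X k) *
        (1 + q * (q * (θ * z)) * X k) * VV D0 D1 E k 1 + z * X k * VV D0 D1 E k 0
      simp only [hD1, hE, sf, em, if_neg n1, w1]
      ring
  have s3 : ∀ k, (j : ℕ) + 1 ≤ k → k < N →
      VV D0 D1 E (k + 1) = sp2 q z (θ * z) (X k) (VV D0 D1 E k) := by
    intro k hk1 hk
    have n1 : ¬ (k = (i : ℕ) ∨ k = (j : ℕ)) := by omega
    have w1 : wn q k i j = 1 * 1 := by
      unfold wn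
      rw [if_neg (by omega), if_neg (by omega)]
    funext a
    fin_cases a
    · change VV D0 D1 E k 0 * D0 k = (1 + q * z * X k) * (1 + θ * z * X k) * VV D0 D1 E k 0
      simp only [hD0, sf, if_neg n1, w1]
      ring
    · change VV D0 D1 E k 1 * D1 k + VV D0 D1 E k 0 * E k = (1 + z * X k) *
        (1 + q * (θ * z) * X k) * VV D0 D1 E k 1 + z * X k * VV D0 D1 E k 0
      simp only [hD1, hE, sf, em, if_neg n1, w1]
      ring
  have m : ∀ k, (k = (i : ℕ) ∨ k = (j : ℕ)) →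
      VV D0 D1 E (k + 1) = si2 q z (X k) (VV D0 D1 E k) := by
    intro k hk
    funext a
    fin_cases a
    · change VV D0 D1 E k 0 * D0 k = (1 + q * z * X k) * VV D0 D1 E k 0
      simp only [hD0, sf, if_pos hk]
      ring
    · change VV D0 D1 E k 1 * D1 k + VV D0 D1 E k 0 * E k = q * (1 + z * X k) * VV D0 D1 E k 1
      simp only [hD1, hE, sf, em, if_pos hk]
      ring
  have z1 : z - q ^ 2 * (θ * z) ≠ 0 := by
    rw [show z - q ^ 2 * (θ * z) = z * (1 - q ^ 2 * θ) by ring]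
    exact mul_ne_zero hz hθ2
  have z2 : z - q * (θ * z) ≠ 0 := by
    rw [show z - q * (θ * z) = z * (1 - q * θ) by ring]
    exact mul_ne_zero hz hθ1
  have z3 : z - θ * z ≠ 0 := by
    rw [show z - θ * z = z * (1 - θ) by ring]
    exact mul_ne_zero hz hθ
  have r1 := hRG.2 K q z (q ^ 2 * (θ * z)) h1 z1 X 0 i (Nat.zero_le _) (VV D0 D1 E) s1
  have r2 := hRG.2 K q z (q * (θ * z)) h1 z2 X (i + 1) j hi (VV D0 D1 E) s2
  have r3 := hRG.2 K q z (θ * z) h1 z3 X (j + 1) N hjN (VV D0 D1 E) s3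
  have hV0 : VV D0 D1 E 0 = ![1, 0] := rfl
  rw [hW, r3, m j (Or.inr rfl), r2, m i (Or.inl rfl), r1, hV0,
    chain q θ z (X i) (X j) _ _ _ _ _ _ h1 hz hθ hθ1 hθ2]
  -- the right-hand side
  obtain ⟨v1, v2, v3⟩ := hEV K N X q i j hij (fun w => ∏ k ∈ range i, (1 + w * X k))
    (fun w => ∏ k ∈ Ico (i + 1 : ℕ) j, (1 + w * X k))
    (fun w => ∏ k ∈ Ico (j + 1 : ℕ) N, (1 + w * X k)) (fun _ => rfl) (fun _ => rfl)
    (fun _ => rfl)
  simp only [Db, v1, v2, v3, prod_mul_distrib, range_eq_Ico]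
  have g2 : q * (q * (θ * z)) = q ^ 2 * (θ * z) := by ring
  have g3 : q * θ * z = q * (θ * z) := by ring
  have g4 : q ^ 2 * (q * (θ * z)) = q * (q ^ 2 * (θ * z)) := by ring
  simp only [g2, g3, g4]
  ring

end Pool.Agent.SWD
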