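import Pool.Agent.Lib.MP_263316_co.CB.SpecB

/-!
MP_263316_co, part CB2, task WU (helper48): the operator `Wg` on `z x_k φ_z(k)` as a sum over one
particle.
-/

set_option autoImplicit false

namespace Pool.Agent.SWD

open Finset Pool.Agent.SWC Pool.Agent.SWB

namespace WUAux

variable {R : Type} [CommRing R] {N : ℕ}

theorem prod_erase_range (g : ℕ → R) (i : Fin N) :
    ∏ k ∈ univ.erase i, g k = (∏ k ∈ range i, g k) * ∏ k ∈ Ico ((i : ℕ) + 1) N, g k := by
  have h1 : (univ.erase i).image (fun k : Fin N => (k : ℕ)) =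
      range (i : ℕ) ∪ Ico ((i : ℕ) + 1) N := by
    ext m
    simp only [mem_image, mem_erase, mem_univ, and_true, mem_union, mem_range, mem_Ico]
    constructor
    · rintro ⟨k, hk, rfl⟩
      have h2 : (k : ℕ) ≠ i := fun h => hk (Fin.ext h)
      have := k.2
      omega
    · intro h
      have hi := i.2
      have hm : m < N := by omega
      refine ⟨⟨m, hm⟩, fun h' => ?_, rfl⟩
      have : m = (i : ℕ) := congrArg Fin.val h'
      omega
  have h2 : ∏ k ∈ univ.erase i, g k = ∏ m ∈ (univ.erase i).image (fun k : Fin N => (k : ℕ)),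
      g m := by
    rw [prod_image]
    intro a _ b _ h
    exact Fin.ext h
  rw [h2, h1, prod_union]
  rw [disjoint_left]
  intro m hm hm'
  rw [mem_range] at hm
  rw [mem_Ico] at hm'
  omega

/-- the factor at the colour `k` -/
def g (X : ℕ → R) (q t z : R) (i i' j' k : ℕ) : R :=
  (1 + (if k < i then q * z else z) * X k) *
    (if k = i' ∨ k = j' then (if i < k then q else 1)
      else 1 + t * (X k * wn q k i' j' * (if i < k then q else 1)))

theorem term (X : ℕ → R) (q t z : R) (i' j' i : Fin N) (hij : i' ≠ j') (h1 : i ≠ i')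
    (h2 : i ≠ j') :
    ph q (fun k : Fin N => X k) z i * (wq q i i' * wq q i j') *
      ∏ r ∈ ((univ.erase i').erase j').erase i,
        (1 + t * (X r * (wq q r i' * wq q r j' * wq q i r))) =
    ∏ k ∈ univ.erase i, g X q t z i i' j' k := by
  unfold g
  rw [prod_mul_distrib]
  have e1 : ∏ k ∈ univ.erase i, (1 + (if (k : ℕ) < i then q * z else z) * X k) =
      ph q (fun k : Fin N => X k) z i := by
    unfold ph
    refine prod_congr rfl fun k _ => ?_
    simp only [Fin.lt_def]
  rw [e1]
  have hi' : i' ∈ univ.erase i := mem_erase.2 ⟨Ne.symm h1, mem_univ _⟩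
  have hj' : j' ∈ (univ.erase i).erase i' :=
    mem_erase.2 ⟨Ne.symm hij, mem_erase.2 ⟨Ne.symm h2, mem_univ _⟩⟩
  rw [← mul_prod_erase _ _ hi', ← mul_prod_erase _ _ hj']
  have e2 : ((univ.erase i).erase i').erase j' = ((univ.erase i').erase j').erase i := by
    ext r
    simp only [mem_erase, mem_univ, and_true]
    tauto
  rw [e2, if_pos (Or.inl rfl), if_pos (Or.inr rfl)]
  have e3 : (if (i : ℕ) < i' then q else 1) = wq q i i' := rfl
  have e4 : (if (i : ℕ) < j' then q else 1) = wq q i j' := rfl
  rw [e3, e4]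
  have e5 : ∏ r ∈ ((univ.erase i').erase j').erase i,
        (1 + t * (X r * (wq q r i' * wq q r j' * wq q i r))) =
      ∏ r ∈ ((univ.erase i').erase j').erase i,
        (if (r : ℕ) = i' ∨ (r : ℕ) = j' then (if (i : ℕ) < r then q else 1)
      else 1 + t * (X r * wn q r i' j' * (if (i : ℕ) < r then q else 1))) := by
    refine prod_congr rfl fun r hr => ?_
    simp only [mem_erase, mem_univ, and_true] at hr
    have n1 : ¬ ((r : ℕ) = i' ∨ (r : ℕ) = j') := by
      rintro (h | h)
      · exact hr.2.2 (Fin.ext h)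
      · exact hr.2.1 (Fin.ext h)
    rw [if_neg n1]
    have e6 : wn q r i' j' = wq q r i' * wq q r j' := rfl
    have e7 : (if (i : ℕ) < r then q else 1) = wq q i r := rfl
    rw [e6, e7]
    ring
  rw [e5]
  ring

end WUAux

open WUAux in
theorem t_WU : S_WU := by
  intro R _ N X q t z i' j' hij
  have hne : i' ≠ j' := ne_of_lt hij
  unfold Wg PS1
  rw [if_pos hij]
  congr 1
  rw [← Fin.sum_univ_eq_sum_range (fun i => (∏ k ∈ range i, (1 + q * z * X k) *
    sf q X i' j' 1 t k) * (z * em X i' j' 0 i) * ∏ k ∈ Ico (i + 1) N, (1 + z * X k) *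
    sf q X i' j' q (q * t) k)]
  rw [← sum_subset (subset_univ ((univ.erase i').erase j'))]
  · refine sum_congr rfl fun i hi => ?_
    simp only [mem_erase, mem_univ, and_true] at hi
    have h1 := term X q t z i' j' i hne hi.2 hi.1
    rw [prod_erase_range] at h1
    have e1 : ∏ k ∈ range (i : ℕ), g X q t z i i' j' k =
        ∏ k ∈ range (i : ℕ), (1 + q * z * X k) * sf q X i' j' 1 t k := by
      refine prod_congr rfl fun k hk => ?_
      rw [mem_range] at hk
      unfold g sf
      rw [if_pos hk, if_neg (not_lt.2 hk.le), mul_one]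
    have e2 : ∏ k ∈ Ico ((i : ℕ) + 1) N, g X q t z i i' j' k =
        ∏ k ∈ Ico ((i : ℕ) + 1) N, (1 + z * X k) * sf q X i' j' q (q * t) k := by
      refine prod_congr rfl fun k hk => ?_
      rw [mem_Ico] at hk
      have n1 : ¬ (k < (i : ℕ)) := by omega
      have n2 : (i : ℕ) < k := by omega
      unfold g sf
      rw [if_neg n1, if_pos n2]
      congr 1
      split_ifs
      · rfl
      · ring
    rw [e1, e2] at h1
    have e3 : em X i' j' 0 i = X i := by
      unfold em
      rw [if_neg]
      · ring
      · rintro (h | h)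
        · exact hi.2 (Fin.ext h)
        · exact hi.1 (Fin.ext h)
    rw [e3]
    calc z * X i * ph q (fun k : Fin N => X k) z i * (wq q i i' * wq q i j') *
          ∏ r ∈ ((univ.erase i').erase j').erase i,
            (1 + t * (X r * (wq q r i' * wq q r j' * wq q i r)))
        = z * X i * (ph q (fun k : Fin N => X k) z i * (wq q i i' * wq q i j') *
          ∏ r ∈ ((univ.erase i').erase j').erase i,
            (1 + t * (X r * (wq q r i' * wq q r j' * wq q i r)))) := by ring
      _ = _ := by rw [h1]; ring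
  · intro i _ hi
    have e3 : em X i' j' 0 i = 0 := by
      unfold em
      rw [if_pos]
      by_contra h
      apply hi
      simp only [mem_erase, mem_univ, and_true]
      exact ⟨fun h' => h (Or.inr (by rw [h'])), fun h' => h (Or.inl (by rw [h']))⟩
    rw [e3]
    ring

end Pool.Agent.SWD
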