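import Pool.Agent.Lib.MP_263316_co.CB.SpecC

/-!
MP_263316_co, part CB3, task X1: extraction of the coefficients of the first term.
-/

set_option autoImplicit false

namespace Pool.Agent.SWD

open Finset Pool.Agent.SWC Pool.Agent.SWB

namespace X1P

section mono

variable {K : Type} [CommRing K]

theorem exA_kA_mul (c : K) (s : PA K) (r m : ℕ) : exA r m (kA c * s) = c * exA r m s := by
  unfold exA kA
  rw [RingHom.comp_apply, PowerSeries.coeff_C_mul, PowerSeries.coeff_C_mul]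

theorem exA_rA_mul (u : ℕ) (s : PA K) (r m : ℕ) : exA (r + u) m (rA ^ u * s) = exA r m s := by
  unfold exA rA
  rw [PowerSeries.coeff_X_pow_mul]

theorem exA_vA_mul (w : ℕ) (s : PA K) (r m : ℕ) : exA r (m + w) (vA ^ w * s) = exA r m s := by
  unfold exA vA
  rw [← map_pow, PowerSeries.coeff_C_mul, PowerSeries.coeff_X_pow_mul]

theorem exA_sum {ι : Type} (s : Finset ι) (f : ι → PA K) (r m : ℕ) :
    exA r m (∑ t ∈ s, f t) = ∑ t ∈ s, exA r m (f t) := by
  unfold exA
  rw [map_sum, map_sum]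

end mono

theorem coeff_bw (hES : S_ES) (hMP : S_MP) {K : Type} [CommRing K] (N : ℕ) (q : K)
    (x : Fin N → K) (c m : ℕ) (i j : Fin N) :
    PowerSeries.coeff m (bw (kB q) (fun k => kB (x k)) vB c i j) = bt q x (m + 2) c i j := by
  have h1 : ∀ n, bt (kB q) (fun k => kB (x k)) n c i j = kB (bt q x n c i j) := fun n =>
    ((hMP K (PB K) kB N q x).2.2.1 n c i j).symm
  unfold bw
  simp only [h1, map_sum]
  simp only [kB, vB, PowerSeries.coeff_C_mul, PowerSeries.coeff_X_pow, mul_ite,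
    mul_one, mul_zero]
  rw [sum_ite_eq]
  split_ifs with h
  · rfl
  · rw [mem_range, not_lt] at h
    exact ((hES K N q x).2.2.2.2.2.2.2 i j (m + 2) c (by omega)).symm

theorem exA_DS (hES : S_ES) (hMP : S_MP) {K : Type} [CommRing K] (N : ℕ) (q : K)
    (x : Fin N → K) (r m : ℕ) (i j : Fin N) :
    exA r m (DS (kB q) (fun k => kB (x k)) 1 vB i j) = bt q x (m + 2) (r + 1) i j := by
  unfold exA DS
  rw [PowerSeries.coeff_mk, one_pow, one_mul]
  exact coeff_bw hES hMP N q x (r + 1) m i j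

end X1P

open X1P

theorem t_X1 : S_X1 := by
  intro hES hMP hSE K _ N q x i j l a n
  obtain ⟨-, s2, -, s4, s5⟩ := hSE hES (PA K)
  have e1 : Ez (fun k => kS (x k)) (kS q ^ 2 * (tS * rS * vS)) =
      PowerSeries.mk (fun p => (kA q ^ 2 * (rA * vA)) ^ p * kA (es x p)) := by
    have h := (s4 N (kA q) (fun k => kA (x k)) (kA q ^ 2 * (rA * vA))).1
    have h0 : (fun p => (kA q ^ 2 * (rA * vA)) ^ p * es (fun k => kA (x k)) p) =
        fun p => (kA q ^ 2 * (rA * vA)) ^ p * kA (es x p) := by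
      funext p
      rw [(hMP K (PA K) kA N q x).1 p]
    rw [h0] at h
    rw [← h]
    have h1 : (kS q ^ 2 * (tS * rS * vS) : PS K) =
        PowerSeries.C (kA q ^ 2 * (rA * vA)) * PowerSeries.X := by
      rw [map_mul, map_mul, map_pow]
      show (kS q ^ 2 * (PowerSeries.X * rS * vS) : PS K) = kS q ^ 2 * (rS * vS) * PowerSeries.X
      ring
    rw [h1]
    rfl
  have e3 : gs (1 : PA K) * gs (kA q) = PowerSeries.mk fun n => qn (kA q) (n + 1) := by
    have h := s2 1 (kA q)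
    rw [mul_one] at h
    rw [h]
    simp only [one_pow, one_mul]
  have e4 : gs (kA q * rA) * gs (kA q ^ 2 * rA) =
      PowerSeries.mk fun n => (kA q * rA) ^ n * qn (kA q : PA K) (n + 1) := by
    have h := s2 (kA q * rA) (kA q)
    rw [← h]
    congr 2
    ring
  have hqn : ∀ n, qn (kA q : PA K) n = kA (qn q n) := by
    intro n
    unfold qn
    rw [map_sum]
    exact sum_congr rfl fun i _ => (map_pow kA q i).symm
  have hmain : PowerSeries.coeff l (Ez (fun k => kS (x k)) (kS q ^ 2 * (tS * rS * vS)) *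
      PowerSeries.C (DS (kB q) (fun k => kB (x k)) 1 vB i j) *
      (gs 1 * gs (kA q)) * (gs (kA q * rA) * gs (kA q ^ 2 * rA))) =
      ∑ t ∈ tri l, kA (q ^ (2 * t.2.2 + t.2.1) * qn q (t.1 + 1) * qn q (t.2.1 + 1) *
        es x t.2.2) * (rA ^ (t.2.1 + t.2.2) * (vA ^ t.2.2 *
          DS (kB q) (fun k => kB (x k)) 1 vB i j)) := by
    rw [e1, e3, e4]
    rw [show ∀ F1 D F3 F4 : PS K, F1 * D * F3 * F4 = D * (F3 * F4 * F1) by intros; ring]
    rw [PowerSeries.coeff_C_mul, s5, mul_sum]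
    refine sum_congr rfl fun t _ => ?_
    simp only [PowerSeries.coeff_mk, hqn, map_mul, map_pow]
    ring
  unfold exS
  rw [hmain]
  have h2 := exA_sum (tri l) (fun t => kA (q ^ (2 * t.2.2 + t.2.1) * qn q (t.1 + 1) *
    qn q (t.2.1 + 1) * es x t.2.2) * (rA ^ (t.2.1 + t.2.2) * (vA ^ t.2.2 *
          DS (kB q) (fun k => kB (x k)) 1 vB i j))) (l + a) (l + n)
  unfold exA at h2
  rw [h2]
  refine sum_congr rfl fun t ht => ?_
  rw [mem_tri] at ht
  have h3 := exA_kA_mul (q ^ (2 * t.2.2 + t.2.1) * qn q (t.1 + 1) *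
    qn q (t.2.1 + 1) * es x t.2.2) (rA ^ (t.2.1 + t.2.2) * (vA ^ t.2.2 *
          DS (kB q) (fun k => kB (x k)) 1 vB i j)) (l + a) (l + n)
  have h4 := exA_rA_mul (t.2.1 + t.2.2) (vA ^ t.2.2 *
          DS (kB q) (fun k => kB (x k)) 1 vB i j) (a + t.1) (l + n)
  have h5 := exA_vA_mul t.2.2 (DS (kB q) (fun k => kB (x k)) 1 vB i j) (a + t.1)
    (n + t.1 + t.2.1)
  rw [show l + a = a + t.1 + (t.2.1 + t.2.2) by omega] at h3 ⊢
  rw [show l + n = n + t.1 + t.2.1 + t.2.2 by omega] at h3 h4 ⊢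
  unfold exA at h3 h4 h5
  rw [h3, h4, h5]
  have h6 := exA_DS hES hMP N q x (a + t.1) (n + t.1 + t.2.1) i j
  unfold exA at h6
  rw [h6, show n + t.1 + t.2.1 + 2 = n + 2 + t.1 + t.2.1 by omega,
    show a + t.1 + 1 = a + 1 + t.1 by omega]

end Pool.Agent.SWD
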