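import Pool.Agent.Lib.MP_263316_co.CB.SpecC

/-!
MP_263316_co, part CB3: extraction of the coefficients, terms 2 and 3.
-/

set_option autoImplicit false

namespace Pool.Agent.SWD

open Finset Pool.Agent.SWC Pool.Agent.SWB

private theorem coeff_bw_aux (hES : S_ES) (hMP : S_MP) {K : Type} [CommRing K] {N : ℕ} (q : K)
    (x : Fin N → K) (c r : ℕ) (i j : Fin N) :
    PowerSeries.coeff r (bw (kB q) (fun k => kB (x k)) vB c i j) = bt q x (r + 2) c i j := by
  obtain ⟨-, -, -, -, -, -, -, hbt⟩ := hES K N q x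
  have hb : ∀ n, kB (bt q x (n + 2) c i j) = bt (kB q) (fun k => kB (x k)) (n + 2) c i j :=
    fun n => (hMP K (PB K) kB N q x).2.2.1 (n + 2) c i j
  unfold bw
  rw [map_sum]
  have h1 : ∀ n ∈ range (2 * N + 1),
      PowerSeries.coeff r (bt (kB q) (fun k => kB (x k)) (n + 2) c i j * vB ^ n) =
        if r = n then bt q x (r + 2) c i j else 0 := by
    intro n _
    rw [← hb n]
    change PowerSeries.coeff r (PowerSeries.C (bt q x (n + 2) c i j) * PowerSeries.X ^ n) = _
    rw [PowerSeries.coeff_C_mul, PowerSeries.coeff_X_pow]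
    split_ifs with h
    · rw [mul_one, h]
    · rw [mul_zero]
  rw [sum_congr rfl h1, sum_ite_eq]
  split_ifs with h
  · rfl
  · refine (hbt i j (r + 2) c ?_).symm
    rw [mem_range] at h
    omega

theorem t_X2 : S_X2 := by
  intro hES hMP hSE K _ N q x i j l a n c1 c2 η ε Γ
  -- the series of the elementary symmetric functions
  have hEz : Ez (fun k => kA (x k)) (kA ε * rA * vA) =
      PowerSeries.mk (fun p => (kB ε * vB) ^ p * kB (es x p)) := by
    have h1 := ((hSE hES (PB K)).2.2.2.1 N (kB q) (fun k => kB (x k)) (kB ε * vB)).1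
    have h2 : (kA ε * rA * vA : PA K) = PowerSeries.C (kB ε * vB) * PowerSeries.X := by
      rw [map_mul]
      change (kA ε * rA * vA : PA K) = kA ε * vA * rA
      ring
    have h3 : ∀ p, es (fun k => (kB (x k) : PB K)) p = kB (es x p) :=
      fun p => ((hMP K (PB K) kB N q x).1 p).symm
    rw [h2]
    simp only [h3] at h1
    exact h1
  -- the two-particle series is constant
  have hbw : ∀ c, bw (kA q) (fun k => kA (x k)) vA c i j =
      PowerSeries.C (bw (kB q) (fun k => kB (x k)) vB c i j) := by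
    intro c
    obtain ⟨-, -, -, -, -, -, -, -, -, -, -, -, -, h⟩ :=
      hMP (PB K) (PA K) PowerSeries.C N (kB q) (fun k => kB (x k))
    exact (h vB c i j).symm
  set P : PA K := Ez (fun k => kA (x k)) (kA ε * rA * vA) * gA Γ with hP
  have hPc : ∀ s, PowerSeries.coeff s P = ∑ p ∈ antidiagonal s,
      PowerSeries.C (ε ^ p.1 * Γ p.2 * es x p.1) * PowerSeries.X ^ p.1 := by
    intro s
    rw [hP, hEz, PowerSeries.coeff_mul]
    refine sum_congr rfl fun p _ => ?_
    unfold gA
    rw [PowerSeries.coeff_mk, PowerSeries.coeff_mk, map_mul, map_mul, map_pow, mul_pow]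
    change kB ε ^ p.1 * vB ^ p.1 * kB (es x p.1) * kB (Γ p.2) =
      kB ε ^ p.1 * kB (Γ p.2) * kB (es x p.1) * vB ^ p.1
    ring
  -- the coefficient in the last variable
  have h1 : PowerSeries.coeff l (PowerSeries.C P *
      DS (kA q) (fun k => kA (x k)) (kA η * rA) vA i j * gs (kA c1) * gs (kA c2 * rA)) =
      ∑ t ∈ tri l, PowerSeries.C (PowerSeries.C (c1 ^ t.1 * c2 ^ t.2.1 * η ^ t.2.2) *
        bw (kB q) (fun k => kB (x k)) vB (t.2.2 + 1) i j) * P * PowerSeries.X ^ (t.2.1 + t.2.2) := by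
    have h2 : PowerSeries.C P *
        DS (kA q) (fun k => kA (x k)) (kA η * rA) vA i j * gs (kA c1) * gs (kA c2 * rA) =
        PowerSeries.C P * (gs (kA c1) * gs (kA c2 * rA) *
          DS (kA q) (fun k => kA (x k)) (kA η * rA) vA i j) := by ring
    rw [h2, PowerSeries.coeff_C_mul, (hSE hES (PA K)).2.2.2.2, mul_sum]
    refine sum_congr rfl fun t _ => ?_
    unfold gs DS
    rw [PowerSeries.coeff_mk, PowerSeries.coeff_mk, PowerSeries.coeff_mk, hbw, map_mul, map_mul,
      map_mul, map_mul, map_mul, map_pow, map_pow, map_pow, map_pow, map_pow, map_pow]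
    change P * (kA c1 ^ t.1 * (kA c2 * rA) ^ t.2.1 * ((kA η * rA) ^ t.2.2 *
      PowerSeries.C (bw (kB q) (fun k => kB (x k)) vB (t.2.2 + 1) i j))) =
      kA c1 ^ t.1 * kA c2 ^ t.2.1 * kA η ^ t.2.2 *
      PowerSeries.C (bw (kB q) (fun k => kB (x k)) vB (t.2.2 + 1) i j) * P * rA ^ (t.2.1 + t.2.2)
    ring
  unfold exS
  rw [h1, map_sum, map_sum]
  refine sum_congr rfl fun t ht => ?_
  rw [mem_tri] at ht
  rw [show l + a = (a + t.1) + (t.2.1 + t.2.2) by omega, PowerSeries.coeff_mul_X_pow,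
    PowerSeries.coeff_C_mul, hPc, mul_sum, map_sum]
  refine sum_congr rfl fun p _ => ?_
  rw [show PowerSeries.C (c1 ^ t.1 * c2 ^ t.2.1 * η ^ t.2.2) *
      bw (kB q) (fun k => kB (x k)) vB (t.2.2 + 1) i j *
      (PowerSeries.C (ε ^ p.1 * Γ p.2 * es x p.1) * PowerSeries.X ^ p.1) =
      PowerSeries.C (c1 ^ t.1 * c2 ^ t.2.1 * η ^ t.2.2 * (ε ^ p.1 * Γ p.2) * es x p.1) *
      (bw (kB q) (fun k => kB (x k)) vB (t.2.2 + 1) i j * PowerSeries.X ^ p.1) by
    simp only [map_mul]
    ring]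
  rw [PowerSeries.coeff_C_mul, PowerSeries.coeff_mul_X_pow']
  congr 1
  split_ifs with h
  · rw [coeff_bw_aux hES hMP]
  · rfl

end Pool.Agent.SWD
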