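import Pool.Agent.Lib.MP_263316_co.CB.SpecC

/-! MP_263316_co, CB/X4: extraction of coefficients, terms 4 and 5 -/

set_option autoImplicit false

namespace Pool.Agent.SWD

open Finset Pool.Agent.SWC Pool.Agent.SWB

namespace X4

variable {K : Type} [CommRing K]

theorem bwk (hMP : S_MP) (hES : S_ES) {N : ℕ} (q : K) (x : Fin N → K) (c : ℕ) (i j : Fin N) :
    bw (kA q) (fun k => kA (x k)) (kA q * rA * vA) c i j =
      PowerSeries.mk fun r => PowerSeries.C (q ^ r * bt q x (r + 2) c i j) *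
        (PowerSeries.X : PB K) ^ r := by
  obtain ⟨-, -, hbt, -⟩ := hMP K (PA K) kA N q x
  obtain ⟨-, -, -, -, -, -, -, hz⟩ := hES K N q x
  have e1 : ∀ r, bt (kA q) (fun k => kA (x k)) (r + 2) c i j * (kA q * rA * vA) ^ r =
      PowerSeries.C (PowerSeries.C (q ^ r * bt q x (r + 2) c i j) * (PowerSeries.X : PB K) ^ r) *
        (PowerSeries.X : PA K) ^ r := by
    intro r
    rw [← hbt, mul_pow, mul_pow]
    unfold kA rA vA
    simp only [RingHom.comp_apply, map_mul, map_pow]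
    ring
  unfold bw
  simp only [e1]
  ext1 m
  rw [PowerSeries.coeff_mk, map_sum]
  simp only [PowerSeries.coeff_C_mul, PowerSeries.coeff_X_pow]
  rw [Finset.sum_eq_single m]
  · simp
  · intro b _ hb
    rw [if_neg fun h => hb h.symm, mul_zero]
  · intro hm
    rw [hz i j (m + 2) c (by rw [mem_range] at hm; omega)]
    simp

theorem Ek (hMP : S_MP) {N : ℕ} (x : Fin N → K) (ε : K) :
    Ez (fun k => kA (x k)) (kA ε * vA) =
      PowerSeries.C (Ez (fun k => kB (x k)) (kB ε * vB)) := by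
  obtain ⟨-, -, -, -, -, h, -⟩ := hMP (PB K) (PA K) PowerSeries.C N 0 (fun k => kB (x k))
  rw [h, map_mul]
  rfl

theorem Ec (hES : S_ES) (hSE : S_SE) {N : ℕ} (x : Fin N → K) (ε : K) (m : ℕ) :
    PowerSeries.coeff m (Ez (fun k => kB (x k)) (kB ε * vB)) = ε ^ m * es x m := by
  obtain ⟨-, -, -, h, -⟩ := hSE hES K
  have := (h N 0 x ε).1
  have e : Ez (fun k => kB (x k)) (kB ε * vB) = PowerSeries.mk (fun p => ε ^ p * es x p) := this
  rw [e, PowerSeries.coeff_mk]

end X4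

theorem t_X4 : S_X4 := by
  intro hES hMP hSE K _ N q x i j l a n c1 c2 η ε Γ
  obtain ⟨-, -, -, -, htri⟩ := hSE hES (PA K)
  have e0 : PowerSeries.C (Ez (fun k => kA (x k)) (kA ε * vA) * gA Γ) *
      DS (kA q) (fun k => kA (x k)) (kA η) (kA q * rA * vA) i j * gs (kA c1) *
      gs (kA c2 * rA) = PowerSeries.C (Ez (fun k => kA (x k)) (kA ε * vA) * gA Γ) *
      (gs (kA c1) * gs (kA c2 * rA) *
        DS (kA q) (fun k => kA (x k)) (kA η) (kA q * rA * vA) i j) := by ring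
  unfold exS
  rw [e0, PowerSeries.coeff_C_mul, htri, mul_sum, map_sum, map_sum]
  refine sum_congr rfl fun t ht => ?_
  rw [mem_tri] at ht
  have e1 : PowerSeries.coeff t.2.2 (DS (kA q) (fun k => kA (x k)) (kA η)
      (kA q * rA * vA) i j) = (kA η) ^ t.2.2 * PowerSeries.mk fun r =>
        PowerSeries.C (q ^ r * bt q x (r + 2) (t.2.2 + 1) i j) * (PowerSeries.X : PB K) ^ r := by
    unfold DS
    rw [PowerSeries.coeff_mk, X4.bwk hMP hES]
  have e2 : PowerSeries.coeff t.1 (gs (kA c1)) = (kA c1) ^ t.1 := by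
    unfold gs
    rw [PowerSeries.coeff_mk]
  have e3 : PowerSeries.coeff t.2.1 (gs (kA c2 * rA)) = (kA c2 * rA) ^ t.2.1 := by
    unfold gs
    rw [PowerSeries.coeff_mk]
  rw [e1, e2, e3, X4.Ek hMP]
  have e4 : PowerSeries.C (Ez (fun k => kB (x k)) (kB ε * vB)) * gA Γ *
      (kA c1 ^ t.1 * (kA c2 * rA) ^ t.2.1 * (kA η ^ t.2.2 * PowerSeries.mk fun r =>
        PowerSeries.C (q ^ r * bt q x (r + 2) (t.2.2 + 1) i j) * (PowerSeries.X : PB K) ^ r)) =
      PowerSeries.C (Ez (fun k => kB (x k)) (kB ε * vB) *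
        PowerSeries.C (c1 ^ t.1 * c2 ^ t.2.1 * η ^ t.2.2)) *
      ((PowerSeries.X : PA K) ^ t.2.1 * ((PowerSeries.mk fun r =>
        PowerSeries.C (q ^ r * bt q x (r + 2) (t.2.2 + 1) i j) * (PowerSeries.X : PB K) ^ r) *
          gA Γ)) := by
    unfold kA rA
    simp only [RingHom.comp_apply, map_mul, map_pow, mul_pow]
    ring
  rw [e4, PowerSeries.coeff_C_mul, PowerSeries.coeff_X_pow_mul', if_pos (by omega),
    PowerSeries.coeff_mul (l + a - t.2.1), mul_sum, map_sum]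
  refine sum_congr rfl fun r _ => ?_
  have e5 : PowerSeries.coeff r.2 (gA Γ) = PowerSeries.C (Γ r.2) := by
    unfold gA
    rw [PowerSeries.coeff_mk]
    rfl
  rw [PowerSeries.coeff_mk, e5]
  have e6 : Ez (fun k => kB (x k)) (kB ε * vB) *
      PowerSeries.C (c1 ^ t.1 * c2 ^ t.2.1 * η ^ t.2.2) *
      (PowerSeries.C (q ^ r.1 * bt q x (r.1 + 2) (t.2.2 + 1) i j) *
        (PowerSeries.X : PB K) ^ r.1 * PowerSeries.C (Γ r.2)) =
      PowerSeries.C (c1 ^ t.1 * c2 ^ t.2.1 * η ^ t.2.2 * (q ^ r.1 * Γ r.2) *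
        bt q x (r.1 + 2) (t.2.2 + 1) i j) *
        ((PowerSeries.X : PB K) ^ r.1 * Ez (fun k => kB (x k)) (kB ε * vB)) := by
    simp only [map_mul, map_pow]
    ring
  rw [e6, PowerSeries.coeff_C_mul, PowerSeries.coeff_X_pow_mul']
  split_ifs with h
  · rw [X4.Ec hES hSE]
    ring
  · ring

end Pool.Agent.SWD
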