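import Pool.Agent.Lib.MP_263316_co.CB.SpecC

/-! MP_263316_co, CB/X6: extraction of coefficients, terms 6 to 9 -/

set_option autoImplicit false

namespace Pool.Agent.SWD

open Finset Pool.Agent.SWC Pool.Agent.SWB

namespace X6

variable {K : Type} [CommRing K]

theorem Ek (hMP : S_MP) {N : ℕ} (x : Fin N → K) (ε : K) :
    Ez (fun k => kA (x k)) (kA ε * vA) =
      PowerSeries.C (Ez (fun k => kB (x k)) (kB ε * vB)) := by
  obtain ⟨-, -, -, -, -, h, -⟩ := hMP (PB K) (PA K) PowerSeries.C N 0 (fun k => kB (x k))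
  rw [h, map_mul]
  rfl

theorem Ec (hES : S_ES) (hSE : S_SE) {N : ℕ} (x : Fin N → K) (ε : K) (m : ℕ) :
    PowerSeries.coeff m (Ez (fun k => kB (x k)) (kB ε * vB)) = ε ^ m * es x m := by
  obtain ⟨-, -, -, h, -⟩ := hSE hES K
  have := (h N 0 x ε).1
  have e : Ez (fun k => kB (x k)) (kB ε * vB) = PowerSeries.mk (fun p => ε ^ p * es x p) := this
  rw [e, PowerSeries.coeff_mk]

theorem Er (hES : S_ES) (hMP : S_MP) (hSE : S_SE) {N : ℕ} (x : Fin N → K) (ε : K) (m : ℕ) :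
    PowerSeries.coeff m (Ez (fun k => kA (x k)) (kA ε * rA * vA)) =
      (kB ε * vB) ^ m * kB (es x m) := by
  obtain ⟨-, -, -, h, -⟩ := hSE hES (PB K)
  have h1 := (h N 0 (fun k => kB (x k)) (kB ε * vB)).1
  have e : Ez (fun k => kA (x k)) (kA ε * rA * vA) =
      Ez (fun k => PowerSeries.C (kB (x k))) (PowerSeries.C (kB ε * vB) * PowerSeries.X) := by
    have e1 : (kA ε * rA * vA : PA K) = PowerSeries.C (kB ε * vB) * PowerSeries.X := by
      unfold kA rA vA kB vB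
      simp only [RingHom.comp_apply, map_mul]
      ring
    rw [e1]
    rfl
  obtain ⟨h2, -⟩ := hMP K (PB K) kB N 0 x
  rw [e, h1, PowerSeries.coeff_mk, h2]

theorem Cc (hES : S_ES) (hMP : S_MP) (hSE : S_SE) {N : ℕ} (q : K) (x : Fin N → K) (η : K)
    (i j : Fin N) (m : ℕ) :
    PowerSeries.coeff m (Ct (kS q) (fun k => kS (x k)) (kS η * (tS * rS * vS)) i j) =
      (kA η * rA * vA) ^ m * kA (Cn q x (m + 2) i j) := by
  obtain ⟨-, -, -, h, -⟩ := hSE hES (PA K)
  have h1 := (h N (kA q) (fun k => kA (x k)) (kA η * rA * vA)).2.1 i j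
  have e : Ct (kS q) (fun k => kS (x k)) (kS η * (tS * rS * vS)) i j =
      Ct (PowerSeries.C (kA q)) (fun k => PowerSeries.C (kA (x k)))
        (PowerSeries.C (kA η * rA * vA) * PowerSeries.X) i j := by
    have e1 : (kS η * (tS * rS * vS) : PS K) = PowerSeries.C (kA η * rA * vA) * PowerSeries.X := by
      unfold kS tS rS vS kA rA vA
      simp only [RingHom.comp_apply, map_mul]
      ring
    rw [e1]
    rfl
  obtain ⟨-, -, -, h2, -⟩ := hMP K (PA K) kA N q x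
  rw [e, h1, PowerSeries.coeff_mk, h2]

end X6

theorem t_X6 : S_X6 := by
  intro hES hMP hSE K _ N q x i j l a n c1 c2 η ε ε' Γ
  obtain ⟨-, -, -, -, htri⟩ := hSE hES (PA K)
  have e0 : PowerSeries.C (Ez (fun k => kA (x k)) (kA ε * rA * vA) *
      Ez (fun k => kA (x k)) (kA ε' * vA) * gA Γ) *
      Ct (kS q) (fun k => kS (x k)) (kS η * (tS * rS * vS)) i j * gs (kA c1) *
      gs (kA c2 * rA) = PowerSeries.C (Ez (fun k => kA (x k)) (kA ε * rA * vA) *
      Ez (fun k => kA (x k)) (kA ε' * vA) * gA Γ) *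
      (gs (kA c1) * gs (kA c2 * rA) *
        Ct (kS q) (fun k => kS (x k)) (kS η * (tS * rS * vS)) i j) := by ring
  unfold exS
  rw [e0, PowerSeries.coeff_C_mul, htri, mul_sum, map_sum, map_sum]
  refine sum_congr rfl fun t ht => ?_
  rw [mem_tri] at ht
  have e2 : PowerSeries.coeff t.1 (gs (kA c1)) = (kA c1) ^ t.1 := by
    unfold gs
    rw [PowerSeries.coeff_mk]
  have e3 : PowerSeries.coeff t.2.1 (gs (kA c2 * rA)) = (kA c2 * rA) ^ t.2.1 := by
    unfold gs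
    rw [PowerSeries.coeff_mk]
  rw [X6.Cc hES hMP hSE, e2, e3, X6.Ek hMP]
  have e4 : Ez (fun k => kA (x k)) (kA ε * rA * vA) *
      PowerSeries.C (Ez (fun k => kB (x k)) (kB ε' * vB)) * gA Γ *
      (kA c1 ^ t.1 * (kA c2 * rA) ^ t.2.1 * ((kA η * rA * vA) ^ t.2.2 *
        kA (Cn q x (t.2.2 + 2) i j))) =
      PowerSeries.C (Ez (fun k => kB (x k)) (kB ε' * vB) *
        (PowerSeries.C (c1 ^ t.1 * c2 ^ t.2.1 * η ^ t.2.2 * Cn q x (t.2.2 + 2) i j) *
          (PowerSeries.X : PB K) ^ t.2.2)) *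
      ((PowerSeries.X : PA K) ^ (t.2.1 + t.2.2) *
        (Ez (fun k => kA (x k)) (kA ε * rA * vA) * gA Γ)) := by
    unfold kA rA vA
    simp only [RingHom.comp_apply, map_mul, map_pow, mul_pow]
    ring
  have e8 : l + a - (t.2.1 + t.2.2) = a + t.1 := by omega
  rw [e4, PowerSeries.coeff_C_mul, PowerSeries.coeff_X_pow_mul', if_pos (by omega), e8,
    PowerSeries.coeff_mul (a + t.1), mul_sum, map_sum]
  refine sum_congr rfl fun p _ => ?_
  have e5 : PowerSeries.coeff p.2 (gA Γ) = PowerSeries.C (Γ p.2) := by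
    unfold gA
    rw [PowerSeries.coeff_mk]
    rfl
  rw [X6.Er hES hMP hSE, e5]
  have e6 : Ez (fun k => kB (x k)) (kB ε' * vB) *
      (PowerSeries.C (c1 ^ t.1 * c2 ^ t.2.1 * η ^ t.2.2 * Cn q x (t.2.2 + 2) i j) *
        (PowerSeries.X : PB K) ^ t.2.2) *
      ((kB ε * vB) ^ p.1 * kB (es x p.1) * PowerSeries.C (Γ p.2)) =
      PowerSeries.C (c1 ^ t.1 * c2 ^ t.2.1 * η ^ t.2.2 * (ε ^ p.1 * Γ p.2) * es x p.1 *
        Cn q x (t.2.2 + 2) i j) *
        ((PowerSeries.X : PB K) ^ (p.1 + t.2.2) * Ez (fun k => kB (x k)) (kB ε' * vB)) := by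
    have e9 : (vB : PB K) = PowerSeries.X := rfl
    have e10 : ∀ c : K, kB c = PowerSeries.C c := fun _ => rfl
    rw [mul_pow (kB ε) vB, e10 ε, e10 (es x p.1)]
    simp only [map_mul, map_pow]
    rw [pow_add]
    generalize Ez (fun k => kB (x k)) (kB ε' * vB) = Z
    rw [e9]
    ring
  rw [e6, PowerSeries.coeff_C_mul, PowerSeries.coeff_X_pow_mul']
  split_ifs with h
  · rw [X6.Ec hES hSE, Nat.sub_add_eq]
    ring
  · ring

end Pool.Agent.SWD
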