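import Pool.Agent.Lib.MP_263316_co.AB.All
import Pool.Agent.Lib.MP_263316_co.CB.Main
import Pool.Agent.Lib.MP_263316_co.CB.A1
import Pool.Agent.Lib.MP_263316_co.CB.A2
import Pool.Agent.Lib.MP_263316_co.CB.A3
import Pool.Agent.Lib.MP_263316_co.CB.A4
import Pool.Agent.Lib.MP_263316_co.CB.A5a
import Pool.Agent.Lib.MP_263316_co.CB.A5b
import Pool.Agent.Lib.MP_263316_co.CB.A6
import Pool.Agent.Lib.MP_263316_co.CB.A7
import Pool.Agent.Lib.MP_263316_co.CB.A8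
import Pool.Agent.Lib.MP_263316_co.CB.BLK
import Pool.Agent.Lib.MP_263316_co.CB.CD
import Pool.Agent.Lib.MP_263316_co.CB.CG
import Pool.Agent.Lib.MP_263316_co.CB.CHB
import Pool.Agent.Lib.MP_263316_co.CB.CHC
import Pool.Agent.Lib.MP_263316_co.CB.CL
import Pool.Agent.Lib.MP_263316_co.CB.CM
import Pool.Agent.Lib.MP_263316_co.CB.CP
import Pool.Agent.Lib.MP_263316_co.CB.CU
import Pool.Agent.Lib.MP_263316_co.CB.CWt
import Pool.Agent.Lib.MP_263316_co.CB.DE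
import Pool.Agent.Lib.MP_263316_co.CB.DSt
import Pool.Agent.Lib.MP_263316_co.CB.ES
import Pool.Agent.Lib.MP_263316_co.CB.EV
import Pool.Agent.Lib.MP_263316_co.CB.EXT
import Pool.Agent.Lib.MP_263316_co.CB.F1
import Pool.Agent.Lib.MP_263316_co.CB.FA
import Pool.Agent.Lib.MP_263316_co.CB.FB
import Pool.Agent.Lib.MP_263316_co.CB.FC
import Pool.Agent.Lib.MP_263316_co.CB.FD
import Pool.Agent.Lib.MP_263316_co.CB.FO
import Pool.Agent.Lib.MP_263316_co.CB.G1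
import Pool.Agent.Lib.MP_263316_co.CB.GE
import Pool.Agent.Lib.MP_263316_co.CB.GL
import Pool.Agent.Lib.MP_263316_co.CB.GN
import Pool.Agent.Lib.MP_263316_co.CB.GS
import Pool.Agent.Lib.MP_263316_co.CB.GU
import Pool.Agent.Lib.MP_263316_co.CB.KP1
import Pool.Agent.Lib.MP_263316_co.CB.KP2
import Pool.Agent.Lib.MP_263316_co.CB.KP3
import Pool.Agent.Lib.MP_263316_co.CB.MP
import Pool.Agent.Lib.MP_263316_co.CB.OM1
import Pool.Agent.Lib.MP_263316_co.CB.OM2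
import Pool.Agent.Lib.MP_263316_co.CB.OM3
import Pool.Agent.Lib.MP_263316_co.CB.OS
import Pool.Agent.Lib.MP_263316_co.CB.PB
import Pool.Agent.Lib.MP_263316_co.CB.PD
import Pool.Agent.Lib.MP_263316_co.CB.PHI
import Pool.Agent.Lib.MP_263316_co.CB.PL
import Pool.Agent.Lib.MP_263316_co.CB.PU
import Pool.Agent.Lib.MP_263316_co.CB.QP
import Pool.Agent.Lib.MP_263316_co.CB.RAWB
import Pool.Agent.Lib.MP_263316_co.CB.RAWC
import Pool.Agent.Lib.MP_263316_co.CB.RAWW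
import Pool.Agent.Lib.MP_263316_co.CB.RG3
import Pool.Agent.Lib.MP_263316_co.CB.RG4
import Pool.Agent.Lib.MP_263316_co.CB.SE
import Pool.Agent.Lib.MP_263316_co.CB.SF
import Pool.Agent.Lib.MP_263316_co.CB.SG
import Pool.Agent.Lib.MP_263316_co.CB.STR
import Pool.Agent.Lib.MP_263316_co.CB.SY
import Pool.Agent.Lib.MP_263316_co.CB.TH
import Pool.Agent.Lib.MP_263316_co.CB.TM
import Pool.Agent.Lib.MP_263316_co.CB.UB
import Pool.Agent.Lib.MP_263316_co.CB.UBS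
import Pool.Agent.Lib.MP_263316_co.CB.UBr
import Pool.Agent.Lib.MP_263316_co.CB.UCB
import Pool.Agent.Lib.MP_263316_co.CB.UCC
import Pool.Agent.Lib.MP_263316_co.CB.UCS
import Pool.Agent.Lib.MP_263316_co.CB.UCr
import Pool.Agent.Lib.MP_263316_co.CB.UCt
import Pool.Agent.Lib.MP_263316_co.CB.UGS
import Pool.Agent.Lib.MP_263316_co.CB.WES
import Pool.Agent.Lib.MP_263316_co.CB.WEr
import Pool.Agent.Lib.MP_263316_co.CB.WU
import Pool.Agent.Lib.MP_263316_co.CB.X0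
import Pool.Agent.Lib.MP_263316_co.CB.X1
import Pool.Agent.Lib.MP_263316_co.CB.X2
import Pool.Agent.Lib.MP_263316_co.CB.X4
import Pool.Agent.Lib.MP_263316_co.CB.X6

/-!
MP_263316_co, part CB: assembly of all modules (helper91)
-/

set_option autoImplicit false

namespace Pool.Agent.SWD

open Pool.Agent.SWC Pool.Agent.SWB

namespace All

theorem rawb : RAWBc := t_RAWB t_ES t_UGS t_MP t_DSt t_SE t_SF t_TM t_PU t_EV t_RG4 t_CHB t_UB
  t_UBr t_UBS t_X0 t_X1 t_X2 t_X4 t_X6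

theorem rawc : RAWCc := t_RAWC t_ES t_UGS t_MP t_DSt t_SE t_TM t_CU t_EV t_RG3 t_CHC t_UCr t_UCS

theorem raww : RAWWc := t_RAWW t_ES t_UGS t_MP t_DSt t_SE t_TM t_WU t_EV t_RG3 t_WEr t_WES

theorem ucb : ∀ (N l a n : ℕ), 1 ≤ a → 2 * a + 2 ≤ n →
    UU (qq N) (xx N) l (bt (qq N) (xx N) n a) ∈ SC N (n + l + 2) (2 * a + n + 4 * l + 2) :=
  t_UCB t_MP t_TH t_DE t_SY t_PB t_FO t_STR t_EXT rawb t_FA t_FB t_FC t_FD t_F1
  t_KP1 t_KP2 t_KP3 t_PHI t_OM1 t_OM2 t_OM3 t_PL t_PD t_CP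

theorem ucc : ∀ (N l P : ℕ), 2 ≤ P →
    UU (qq N) (xx N) l (Cn (qq N) (xx N) P) ∈ SC N (P + l + 2) (2 * P + 4 * l + 1) :=
  t_UCC t_MP t_TH t_DE t_SY t_PB t_FO t_STR t_EXT rawc t_G1 t_PHI t_QP

theorem cw : S_CW := t_CWt t_MP t_TH t_DE t_SY t_PB t_FO t_STR t_EXT raww

theorem uc : S_UC := t_UCt t_CM ucb ucc

theorem blk : BLKc := t_BLK t_CG t_OS t_A1 t_A2 t_A3 t_A4 t_A5a t_A5b t_A6 t_A7 t_A8 t_STR t_EXT
  t_GS t_GL t_GU t_GE t_GN t_CM t_CL t_SG t_CD uc cw Pool.Agent.SWC.All.km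

theorem final : S_FINAL3 := final3 Pool.Agent.SWB.All.hypT Pool.Agent.SWB.All.hypP
  Pool.Agent.SWB.All.hypB blk Pool.Agent.SWC.All.mlin t_Cpart t_PUcoeff t_FUN

end All

end Pool.Agent.SWD
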