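import Pool.Agent.Lib.MP_263316_co.AB.Base

/-!
MP_263316_co, part CB (blocks without an induced K_5 minus an edge): definitions and basic lemmas.

Two-particle functions: functions of two colours `i j : Fin N`. The symmetric ones (`bt`, `Cn`, ...)
are supported on `i < j`.
-/

set_option autoImplicit false

namespace Pool.Agent.SWD

open Finset Pool.Agent.SWC Pool.Agent.SWB

section defs

variable {R : Type} [CommRing R] {N : ℕ}

/-- weight of an ordered pair of colours -/
def wq (q : R) (i j : Fin N) : R := if i < j then q else 1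

/-- `E_c`: zero for `c = 0`, and `E_{c+1} = eh c` -/
def eH (q : R) (x : Fin N → R) (c : ℕ) (j : Fin N) : R := if c = 0 then 0 else eh q x (c - 1) j

/-- `f_c`: one has `eH (c+1) j = x j * fh c j` -/
def fh (q : R) (x : Fin N → R) (c : ℕ) (j : Fin N) : R :=
  ∑ C ∈ powersetCard c (univ.erase j), ∏ k ∈ C, (if k < j then q * x k else x k)

/-- the two-particle function `β(n,a)` -/
def bt (q : R) (x : Fin N → R) (n a : ℕ) (i j : Fin N) : R :=
  if i < j then ∑ r ∈ Ico 1 n, ((if r ≤ a then q ^ (r - 1) else 0) +
    (if n ≤ r + a then q ^ (2 * a + r - n) else 0)) * eH q x r i * eH q x (n - r) j else 0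

/-- the two-particle function `C_n` (clique with `n` vertices, the last two marked) -/
def Cn (q : R) (x : Fin N → R) (n : ℕ) (i j : Fin N) : R :=
  if i < j ∧ 2 ≤ n then x i * x j * ∑ C ∈ powersetCard (n - 2) ((univ.erase i).erase j),
    ∏ k ∈ C, (x k * wq q k i * wq q k j) else 0

/-- the string `S_n = ∑_c q^c e_c C_{n-c}` -/
def Sn (q : R) (x : Fin N → R) (n : ℕ) (i j : Fin N) : R :=
  ∑ c ∈ range (n - 1), q ^ c * es x c * Cn q x (n - c) i j

/-- the ordered two-particle function `b(n,a)` -/
def bn (q : R) (x : Fin N → R) (n a : ℕ) (j k : Fin N) : R :=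
  if j < k then ∑ r ∈ Ico 1 (n + 1), ((if r ≤ a then q ^ r else 0) +
      (if n ≤ r + a then q ^ (2 * a + 1 + r - n) else 0)) * eH q x r j * eH q x (n + 1 - r) k
  else if k < j then ∑ r ∈ Ico 1 (n + 1), ((if r ≤ a then q ^ (2 * a + 1 - r) else 0) +
      (if n ≤ r + a then q ^ (n - r) else 0)) * eH q x r j * eH q x (n + 1 - r) k
  else 0

/-- from a symmetric function (supported on `i < j`) to the ordered one -/
def iot (q : R) (f : Fin N → Fin N → R) (i j : Fin N) : R :=
  if i < j then q * f i j else if j < i then f j i else 0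

/-- forget the first mark -/
def dmi (F : Fin N → Fin N → R) (j : Fin N) : R := ∑ i ∈ univ.erase j, F i j

/-- add a vertex adjacent to the marked one only -/
def dpl (q : R) (x : Fin N → R) (G : Fin N → R) (i j : Fin N) : R :=
  if i = j then 0 else G i * (x j * wq q i j)

/-- add a vertex adjacent to the two marked ones, mark the last two -/
def LL (q : R) (x : Fin N → R) (F : Fin N → Fin N → R) (j k : Fin N) : R :=
  if j = k then 0 else x k * wq q j k * ∑ i ∈ (univ.erase j).erase k, F i j * wq q i k

/-- symmetrization -/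
def sg (F : Fin N → Fin N → R) (i j : Fin N) : R := if i < j then F i j + F j i else 0

/-- add a clique with `l + 2` vertices, all adjacent to the two marked vertices, mark the last
two (divided by `[l]!`); `f` symmetric -/
def UU (q : R) (x : Fin N → R) (l : ℕ) (f : Fin N → Fin N → R) (i' j' : Fin N) : R :=
  if i' < j' then x i' * x j' *
    ∑ i ∈ (univ.erase i').erase j', ∑ j ∈ ((univ.erase i').erase j').erase i,
      f i j * (wq q i i' * wq q i j' * wq q j i' * wq q j j') *
        ∑ C ∈ powersetCard l ((((univ.erase i').erase j').erase i).erase j),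
          ∏ k ∈ C, (x k * (wq q i k * wq q j k * wq q k i' * wq q k j'))
  else 0

/-- add a clique with `l + 2` vertices, all adjacent to the marked vertex, mark the last two
(divided by `[l]!`) -/
def Wo (q : R) (x : Fin N → R) (l : ℕ) (G : Fin N → R) (i j : Fin N) : R :=
  if i < j then x i * x j *
    ∑ k ∈ (univ.erase i).erase j, G k * (wq q k i * wq q k j) *
        ∑ C ∈ powersetCard l (((univ.erase i).erase j).erase k),
          ∏ r ∈ C, (x r * (wq q r i * wq q r j * wq q k r))
  else 0

/-- transfer operator with the two last vertices `t`, `t + 1` marked -/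
noncomputable def TT2 (m : ℕ → ℕ) (q : R) (x : Fin N → R) (U : Finset ℕ) (s t : ℕ)
    (f : Fin N → R) (i j : Fin N) : R :=
  Z m q U (fun v k => (if v = s then f k else x k) *
    ((if v = t then (if k = i then 1 else 0) else 1) *
      (if v = t + 1 then (if k = j then 1 else 0) else 1)))

end defs

/-- the cone of the symmetric two-particle functions -/
noncomputable def SC (N n d : ℕ) : AddSubmonoid (Fin N → Fin N → AN N) :=
  AddSubmonoid.closure ({F | ∃ (n' d' n0 a : ℕ) (u : AN N), u ∈ Cone N n' d' ∧ 1 ≤ a ∧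
      2 * a + 2 ≤ n0 ∧ n' + n0 = n ∧ d' + 2 * a + n0 = d + 2 ∧
      F = fun i j => u * bt (qq N) (xx N) n0 a i j} ∪
    {F | ∃ (n' d' k : ℕ) (u : AN N), u ∈ Cone N n' d' ∧ 2 ≤ k ∧ n' + k = n ∧
      d' + 2 * k = d + 3 ∧ F = fun i j => u * Cn (qq N) (xx N) k i j})

/-- the cone of the ordered two-particle functions -/
noncomputable def C2 (N n d : ℕ) : AddSubmonoid (Fin N → Fin N → AN N) :=
  AddSubmonoid.closure ({F | ∃ f ∈ SC N n d, F = iot (qq N) f} ∪
    {F | ∃ n' d' : ℕ, n' + 1 = n ∧ d' + 2 = d ∧ ∃ f ∈ SC N n' d',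
      F = LL (qq N) (xx N) (iot (qq N) f)} ∪
    {F | ∃ n' d' : ℕ, n' + 1 = n ∧ d' + 1 = d ∧ ∃ G ∈ MCone N n' d',
      F = dpl (qq N) (xx N) G})

section api

variable {R : Type} [CommRing R] {N : ℕ}

theorem wq_lt {q : R} {i j : Fin N} (h : i < j) : wq q i j = q := if_pos h

theorem wq_ge {q : R} {i j : Fin N} (h : j ≤ i) : wq q i j = 1 := if_neg (not_lt.mpr h)

theorem eH_zero (q : R) (x : Fin N → R) (j : Fin N) : eH q x 0 j = 0 := if_pos rfl

theorem eH_succ (q : R) (x : Fin N → R) (c : ℕ) (j : Fin N) : eH q x (c + 1) j = eh q x c j := by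
  simp [eH]

theorem eH_eq (q : R) (x : Fin N → R) (c : ℕ) (j : Fin N) :
    eH q x (c + 1) j = x j * fh q x c j := by
  rw [eH_succ]; rfl

theorem eH_one (q : R) (x : Fin N → R) (j : Fin N) : eH q x 1 j = x j := by
  rw [show (1 : ℕ) = 0 + 1 from rfl, eH_succ]
  exact eh_zero' q x j

theorem bt_of_not {q : R} {x : Fin N → R} {n a : ℕ} {i j : Fin N} (h : ¬ i < j) :
    bt q x n a i j = 0 := if_neg h

theorem Cn_of_not {q : R} {x : Fin N → R} {n : ℕ} {i j : Fin N} (h : ¬ i < j) :
    Cn q x n i j = 0 := if_neg fun h' => h h'.1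

theorem Cn_small {q : R} {x : Fin N → R} {n : ℕ} (h : n < 2) (i j : Fin N) :
    Cn q x n i j = 0 := if_neg fun h' => by omega

theorem iot_add (q : R) (f g : Fin N → Fin N → R) : iot q (f + g) = iot q f + iot q g := by
  funext i j
  simp only [iot, Pi.add_apply]
  split_ifs <;> ring

theorem iot_smul (q u : R) (f : Fin N → Fin N → R) :
    iot q (fun i j => u * f i j) = fun i j => u * iot q f i j := by
  funext i j
  simp only [iot]
  split_ifs <;> ring

theorem dmi_add (F G : Fin N → Fin N → R) : dmi (F + G) = dmi F + dmi G := by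
  funext j
  simp only [dmi, Pi.add_apply, sum_add_distrib]

theorem dmi_smul (u : R) (F : Fin N → Fin N → R) :
    dmi (fun i j => u * F i j) = fun j => u * dmi F j := by
  funext j
  simp only [dmi, mul_sum]

theorem dpl_add (q : R) (x G H : Fin N → R) : dpl q x (G + H) = dpl q x G + dpl q x H := by
  funext i j
  simp only [dpl, Pi.add_apply]
  split_ifs <;> ring

theorem dpl_smul (q : R) (x : Fin N → R) (u : R) (G : Fin N → R) :
    dpl q x (fun j => u * G j) = fun i j => u * dpl q x G i j := by
  funext i j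
  simp only [dpl]
  split_ifs <;> ring

theorem LL_add (q : R) (x : Fin N → R) (F G : Fin N → Fin N → R) :
    LL q x (F + G) = LL q x F + LL q x G := by
  funext j k
  simp only [LL, Pi.add_apply, add_mul, sum_add_distrib]
  split_ifs <;> ring

theorem LL_smul (q : R) (x : Fin N → R) (u : R) (F : Fin N → Fin N → R) :
    LL q x (fun i j => u * F i j) = fun j k => u * LL q x F j k := by
  funext j k
  simp only [LL, mul_assoc, ← mul_sum]
  split_ifs <;> ring

theorem sg_add (F G : Fin N → Fin N → R) : sg (F + G) = sg F + sg G := by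
  funext i j
  simp only [sg, Pi.add_apply]
  split_ifs <;> ring

theorem sg_smul (u : R) (F : Fin N → Fin N → R) :
    sg (fun i j => u * F i j) = fun i j => u * sg F i j := by
  funext i j
  simp only [sg]
  split_ifs <;> ring

theorem UU_add (q : R) (x : Fin N → R) (l : ℕ) (f g : Fin N → Fin N → R) :
    UU q x l (f + g) = UU q x l f + UU q x l g := by
  funext i' j'
  simp only [UU, Pi.add_apply, add_mul, sum_add_distrib]
  split_ifs <;> ring

theorem UU_smul (q : R) (x : Fin N → R) (l : ℕ) (u : R) (f : Fin N → Fin N → R) :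
    UU q x l (fun i j => u * f i j) = fun i j => u * UU q x l f i j := by
  funext i' j'
  simp only [UU, mul_assoc, ← mul_sum]
  split_ifs <;> ring

theorem Wo_add (q : R) (x : Fin N → R) (l : ℕ) (G H : Fin N → R) :
    Wo q x l (G + H) = Wo q x l G + Wo q x l H := by
  funext i j
  simp only [Wo, Pi.add_apply, add_mul, sum_add_distrib]
  split_ifs <;> ring

theorem Wo_smul (q : R) (x : Fin N → R) (l : ℕ) (u : R) (G : Fin N → R) :
    Wo q x l (fun j => u * G j) = fun i j => u * Wo q x l G i j := by
  funext i j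
  simp only [Wo, mul_assoc, ← mul_sum]
  split_ifs <;> ring

theorem dmi_iot_zero (q : R) : iot q (0 : Fin N → Fin N → R) = 0 := by
  funext i j
  simp [iot]

end api

end Pool.Agent.SWD
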