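import Pool.Agent.Lib.MP_263316_co.CB.Base

/-!
MP_263316_co, part CB2 (generating functions of the operators UU, Wo): definitions.
-/

set_option autoImplicit false

namespace Pool.Agent.SWD

open Finset Pool.Agent.SWC Pool.Agent.SWB

section defs

variable {R : Type} [CommRing R] {N : ℕ}

/-- `E(z) = ∏_k (1 + z x_k)` -/
def Ez (x : Fin N → R) (z : R) : R := ∏ k, (1 + z * x k)

/-- `φ_z(i) = ∏_{k<i} (1 + q z x_k) ∏_{k>i} (1 + z x_k)` -/
def ph (q : R) (x : Fin N → R) (z : R) (i : Fin N) : R :=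
  ∏ k ∈ univ.erase i, (1 + (if k < i then q * z else z) * x k)

/-- `C(t) = ∑_m C_{m+2} t^m` -/
def Ct (q : R) (x : Fin N → R) (t : R) (i j : Fin N) : R :=
  if i < j then x i * x j * ∏ k ∈ (univ.erase i).erase j, (1 + t * (x k * wq q k i * wq q k j))
  else 0

/-- product states -/
def pr (q : R) (x : Fin N → R) (y z : R) (i j : Fin N) : R :=
  if i < j then x i * x j * (ph q x y i * ph q x z j) else 0

/-- `∑_l t^l UU l` -/
def Ug (q : R) (x : Fin N → R) (t : R) (f : Fin N → Fin N → R) (i' j' : Fin N) : R :=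
  if i' < j' then x i' * x j' *
    ∑ i ∈ (univ.erase i').erase j', ∑ j ∈ ((univ.erase i').erase j').erase i,
      f i j * (wq q i i' * wq q i j' * wq q j i' * wq q j j') *
        ∏ k ∈ (((univ.erase i').erase j').erase i).erase j,
          (1 + t * (x k * (wq q i k * wq q j k * wq q k i' * wq q k j')))
  else 0

/-- `∑_l t^l Wo l` -/
def Wg (q : R) (x : Fin N → R) (t : R) (G : Fin N → R) (i j : Fin N) : R :=
  if i < j then x i * x j *
    ∑ k ∈ (univ.erase i).erase j, G k * (wq q k i * wq q k j) *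
        ∏ r ∈ ((univ.erase i).erase j).erase k, (1 + t * (x r * (wq q r i * wq q r j * wq q k r)))
  else 0

/-- sums over two particles, colours `0, ..., n - 1` -/
def PS2 (n : ℕ) (D0 D1 D3 E F : ℕ → R) : R :=
  ∑ j ∈ range n, ∑ i ∈ range j, (∏ k ∈ range i, D0 k) * E i * (∏ k ∈ Ico (i + 1) j, D1 k) * F j *
    ∏ k ∈ Ico (j + 1) n, D3 k

/-- sums over one particle, colours `0, ..., n - 1` -/
def PS1 (n : ℕ) (D0 D1 E : ℕ → R) : R :=
  ∑ i ∈ range n, (∏ k ∈ range i, D0 k) * E i * ∏ k ∈ Ico (i + 1) n, D1 k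

/-- `q^{[k < i] + [k < j]}` for numbers -/
def wn (q : R) (k i j : ℕ) : R := (if k < i then q else 1) * (if k < j then q else 1)

/-- site factor: `c` at the sites `i`, `j`, and `1 + t x_k w(k)` at the others -/
def sf (q : R) (X : ℕ → R) (i j : ℕ) (c t : R) (k : ℕ) : R :=
  if k = i ∨ k = j then c else 1 + t * (X k * wn q k i j)

/-- emission: zero at the sites `i`, `j` -/
def em (X : ℕ → R) (i j : ℕ) (z : R) (k : ℕ) : R :=
  if k = i ∨ k = j then 0 else X k * (1 + z * X k)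

end defs

section field

variable {K : Type} [Field K] {N : ℕ}

/-- the Bethe combination -/
def Bf (q : K) (x : Fin N → K) (u v : K) (i j : Fin N) : K :=
  pr q x (q * u) v i j / (v - u) + q * pr q x v (q * u) i j / (v - q ^ 2 * u)

/-- the generating function `∑ β(n,a) ρ^(a-1) v^(n-2)` -/
def Db (q : K) (x : Fin N → K) (ρ v : K) (i j : Fin N) : K :=
  pr q x (q * ρ * v) v i j / (1 - ρ) + q * pr q x v (q * ρ * v) i j / (1 - q ^ 2 * ρ)

/-- one colour, four states (no particle, `u`, `v`, both) -/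
def sp (q u v τ x : K) (V : Fin 4 → K) : Fin 4 → K :=
  ![(1 + q ^ 2 * u * x) * (1 + q * v * x) * (1 + τ * x) * V 0,
    (1 + q * u * x) * (1 + q * v * x) * (1 + q * τ * x) * V 1 +
      x * (1 + q * v * x) / (v - u) * V 0,
    (1 + q ^ 2 * u * x) * (1 + v * x) * (1 + q * τ * x) * V 2 +
      q * (x * (1 + q ^ 2 * u * x)) / (v - q ^ 2 * u) * V 0,
    (1 + q * u * x) * (1 + v * x) * (1 + q ^ 2 * τ * x) * V 3 + x * (1 + q * u * x) * V 1 +
      x * (1 + v * x) * V 2]

/-- many colours (products `p0`, `pu`, `pv`, `p3` of the diagonal elements) -/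
def rg (q u v τ p0 pu pv p3 : K) (V : Fin 4 → K) : Fin 4 → K :=
  ![p0 * V 0,
    pu * V 1 + (pu - p0) / ((1 - q) * (v - u) * (q * u - τ)) * V 0,
    pv * V 2 + q * (pv - p0) / ((1 - q) * (v - q ^ 2 * u) * (v - τ)) * V 0,
    p3 * V 3 + (p3 - pu) / ((1 - q) * (v - q * τ)) * V 1 +
      (p3 - pv) / ((1 - q) * q * (u - τ)) * V 2 +
      ((v - q * u) * p3 / ((1 - q) ^ 2 * (v - u) * (v - q ^ 2 * u) * (u - τ) * (v - q * τ)) -
        pu / ((1 - q) ^ 2 * (v - u) * (q * u - τ) * (v - q * τ)) -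
        pv / ((1 - q) ^ 2 * (v - q ^ 2 * u) * (v - τ) * (u - τ)) +
        (v - q * u) * p0 / ((1 - q) ^ 2 * (v - u) * (v - q ^ 2 * u) * (q * u - τ) * (v - τ))) *
          V 0]

/-- a marked site -/
def si (q u v x : K) (V : Fin 4 → K) : Fin 4 → K :=
  ![(1 + q ^ 2 * u * x) * (1 + q * v * x) * V 0,
    q * ((1 + q * u * x) * (1 + q * v * x)) * V 1,
    q * ((1 + q ^ 2 * u * x) * (1 + v * x)) * V 2,
    q ^ 2 * ((1 + q * u * x) * (1 + v * x)) * V 3]

/-- one colour, three states (for `C(s)`) -/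
def sp3 (q s τ x : K) (V : Fin 3 → K) : Fin 3 → K :=
  ![(1 + q ^ 2 * s * x) * (1 + τ * x) * V 0,
    (1 + q * s * x) * (1 + q * τ * x) * V 1 + x * V 0,
    (1 + s * x) * (1 + q ^ 2 * τ * x) * V 2 + x * V 1]

/-- many colours, three states -/
def rg3 (q s τ p0 p1 p3 : K) (V : Fin 3 → K) : Fin 3 → K :=
  ![p0 * V 0,
    p1 * V 1 + (p1 - p0) / ((1 - q) * (q * s - τ)) * V 0,
    p3 * V 2 + (p3 - p1) / ((1 - q) * (s - q * τ)) * V 1 +
      (p3 / ((1 - q) * (1 - q ^ 2) * (s - q * τ) * (s - τ)) -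
        p1 / ((1 - q) ^ 2 * (q * s - τ) * (s - q * τ)) +
        p0 / ((1 - q) * (1 - q ^ 2) * (q * s - τ) * (s - τ))) * V 0]

/-- a marked site, three states -/
def si3 (q s x : K) (V : Fin 3 → K) : Fin 3 → K :=
  ![(1 + q ^ 2 * s * x) * V 0, q * (1 + q * s * x) * V 1, q ^ 2 * (1 + s * x) * V 2]

/-- one colour, two states (for `Wg`) -/
def sp2 (q z τ x : K) (V : Fin 2 → K) : Fin 2 → K :=
  ![(1 + q * z * x) * (1 + τ * x) * V 0,
    (1 + z * x) * (1 + q * τ * x) * V 1 + z * x * V 0]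

/-- many colours, two states -/
def rg2 (q z τ p0 p1 : K) (V : Fin 2 → K) : Fin 2 → K :=
  ![p0 * V 0, p1 * V 1 + z * (p1 - p0) / ((1 - q) * (z - τ)) * V 0]

/-- a marked site, two states -/
def si2 (q z x : K) (V : Fin 2 → K) : Fin 2 → K :=
  ![(1 + q * z * x) * V 0, q * (1 + z * x) * V 1]

end field

end Pool.Agent.SWD
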