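import Pool.Agent.Lib.MP_263316_co.CB.BaseB

/-!
MP_263316_co, part CB3 (extraction of coefficients): definitions.

Three nested rings of power series over `K`: `PB K` (variable `v`), `PA K` (variables `v`, `ρ`),
`PS K` (variables `v`, `ρ`, `θ`).
-/

set_option autoImplicit false

namespace Pool.Agent.SWD

open Finset Pool.Agent.SWC Pool.Agent.SWB

/-- power series in `v` -/
abbrev PB (K : Type) [CommRing K] : Type := PowerSeries K

/-- power series in `v`, `ρ` -/
abbrev PA (K : Type) [CommRing K] : Type := PowerSeries (PowerSeries K)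

/-- power series in `v`, `ρ`, `θ` -/
abbrev PS (K : Type) [CommRing K] : Type := PowerSeries (PowerSeries (PowerSeries K))

section rings

variable {K : Type} [CommRing K]

/-- constants in `PB` -/
noncomputable def kB : K →+* PB K := PowerSeries.C

/-- constants in `PA` -/
noncomputable def kA : K →+* PA K := (PowerSeries.C).comp PowerSeries.C

/-- constants in `PS` -/
noncomputable def kS : K →+* PS K := (PowerSeries.C).comp ((PowerSeries.C).comp PowerSeries.C)

/-- the variable `v` in `PB` -/
noncomputable def vB : PB K := PowerSeries.X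

/-- the variable `v` in `PA` -/
noncomputable def vA : PA K := PowerSeries.C PowerSeries.X

/-- the variable `ρ` in `PA` -/
noncomputable def rA : PA K := PowerSeries.X

/-- the variable `v` in `PS` -/
noncomputable def vS : PS K := PowerSeries.C (PowerSeries.C PowerSeries.X)

/-- the variable `ρ` in `PS` -/
noncomputable def rS : PS K := PowerSeries.C PowerSeries.X

/-- the variable `θ` in `PS` -/
noncomputable def tS : PS K := PowerSeries.X

/-- coefficient of `θ^l ρ^r v^m` -/
noncomputable def exS (l r m : ℕ) (s : PS K) : K :=
  PowerSeries.coeff m (PowerSeries.coeff r (PowerSeries.coeff l s))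

/-- coefficient of `ρ^l v^m` -/
noncomputable def exA (l m : ℕ) (s : PA K) : K := PowerSeries.coeff m (PowerSeries.coeff l s)

/-- the series `∑_k Γ_k ρ^k` in `PA` -/
noncomputable def gA (Γ : ℕ → K) : PA K := PowerSeries.mk fun k => kB (Γ k)

end rings

section defs

variable {A : Type} [CommRing A] {N : ℕ}

/-- the geometric series `∑ c^n X^n` -/
noncomputable def gs (c : A) : PowerSeries A := PowerSeries.mk fun n => c ^ n

/-- `∑_n β(n+2,c) w^n` (a finite sum; `β(n+2,c) = 0` for `n > 2 N`) -/
def bw (q : A) (x : Fin N → A) (w : A) (c : ℕ) (i j : Fin N) : A :=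
  ∑ n ∈ range (2 * N + 1), bt q x (n + 2) c i j * w ^ n

/-- the series `Db (η X) w = ∑_m β_{m+1}(w) (η X)^m` -/
noncomputable def DS (q : A) (x : Fin N → A) (η w : A) (i j : Fin N) : PowerSeries A :=
  PowerSeries.mk fun m => η ^ m * bw q x w (m + 1) i j

end defs

end Pool.Agent.SWD
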