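import Pool.Agent.Lib.MP_263316_co.CB.Base

/-!
MP_263316_co, part CB4 (positivity): definitions. `h` is a square root of `q`.
-/

set_option autoImplicit false

namespace Pool.Agent.SWD

open Finset Pool.Agent.SWC Pool.Agent.SWB

section defs

variable {F : Type} [Field F]

/-- symmetric q-integer `{x} = (h^x - h^(-x)) / (h - h^(-1))` -/
def sy (h : F) (x : ℤ) : F := (h ^ x - h ^ (-x)) / (h - h⁻¹)

/-- `{x}` for `x > 0`, zero otherwise -/
def syp (h : F) (x : ℤ) : F := if 0 < x then sy h x else 0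

/-- `h^s + h^(-s)` for `s > 0`, `1` for `s = 0`, zero for `s < 0` -/
def ps (h : F) (s : ℤ) : F := if s < 0 then 0 else if s = 0 then 1 else h ^ s + h ^ (-s)

/-- coefficients `K(p,c)` -/
def Kf (h : F) (a b l p c : ℤ) : F :=
  syp h (c - a) * syp h (l + 2 + a - p - c) +
  (if p ≤ a then syp h (l + 2 - c) * sy h (2 * a - c - p)
    else syp h (l + 2 + a - c - p) * sy h (a - c)) +
  (if b ≤ p then (if p - b ≤ l + 1 - c then sy h (p - b + 1) * sy h (b - l - 3)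
    else syp h (l + 2 - c) * sy h (2 * b - 2 - c - p)) else 0)

/-- `∑ {α+s} {β+s}` over `s = m, m-2, ..., -m` -/
def Gf (h : F) (α β m : ℤ) : F :=
  ∑ k ∈ range (m + 1).toNat, sy h (α + m - 2 * k) * sy h (β + m - 2 * k)

/-- coefficients `X(p,r)` -/
def Xf (h : F) (a b l p r : ℤ) : F :=
  if max 0 (a - p) ≤ r - b then Gf h (a - l - 2) (b - l - 3) (r - b) -
    Gf h (a - l - 2) (b - l - 3) (max 0 (a - p) - 1) else 0

/-- `∑ {s-β}_+ {s-α}` over `s = δ-1, δ-3, ..., 1-δ` -/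
def Ph2 (h : F) (δ α β : ℤ) : F :=
  ∑ k ∈ range δ.toNat, syp h (δ - 1 - 2 * k - β) * sy h (δ - 1 - 2 * k - α)

/-- `∑ {α+s}_+ {β+s}_+` over `s = m, m-2, ..., -m` -/
def Pn (h : F) (α β m : ℤ) : F :=
  ∑ k ∈ range (m + 1).toNat, syp h (α + m - 2 * k) * syp h (β + m - 2 * k)

/-- the sums `Ω_p` -/
def Om (h : F) (a b l p : ℕ) : F :=
  ∑ c ∈ Icc 1 (l + a + 1), ps h (2 * c + 1 - (a + b + l + 2 - p)) * Kf h a b l p c

/-- `{m+1}^2 + {m-1}^2 + ...` -/
def Qf (h : F) (m : ℤ) : F := ∑ k ∈ range (m + 1).toNat, syp h (m + 1 - 2 * k) ^ 2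

/-- continuation of `Qf` to negative integers -/
def Qe (h : F) (m : ℤ) : F := if -1 ≤ m then Qf h m else - Qf h (-4 - m)

/-- `h^z y` is the value at `q = h^2` of a polynomial in `PZ z` -/
def Pos (h : F) (z : ℤ) (y : F) : Prop :=
  ∃ p ∈ PZ z, Polynomial.aeval (h ^ 2) p = h ^ z * y

end defs

/-- the field of fractions of `AN N` -/
abbrev FN (N : ℕ) : Type := FractionRing (AN N)

/-- the square root of `q` -/
noncomputable def hN (N : ℕ) : FN N := algebraMap (AN N) (FN N) (MvPolynomial.C Polynomial.X)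

/-- the homomorphism `q ↦ h^2` -/
noncomputable def thN (N : ℕ) : AN N →+* FN N :=
  (algebraMap (AN N) (FN N)).comp
    (MvPolynomial.map ((Polynomial.expand ℤ 2 : PX →ₐ[ℤ] PX) : PX →+* PX))

/-- pairs `p ≤ r`, `p + r ≤ m` -/
def prs (m : ℕ) : Finset (ℕ × ℕ) :=
  (range (m + 1) ×ˢ range (m + 1)).filter (fun t => t.1 ≤ t.2 ∧ t.1 + t.2 ≤ m)

end Pool.Agent.SWD
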