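import Pool.Agent.Lib.MP_263316_co.CB.SpecD
import Pool.Agent.Lib.MP_263316_co.AB.PZp

/-!
MP_263316_co, part CB4: descent to the cone (`S_DE`).
-/

set_option autoImplicit false

namespace Pool.Agent.SWD

open Finset Pool.Agent.SWC Pool.Agent.SWB

namespace DEp

/-- choice of a polynomial -/
theorem choose_poly {F : Type} [Field F] {h : F} {z : ℤ} {y : F} (H : Pos h z y) :
    ∃ p : PX, (p = 0 ∨ ∃ d : ℕ, (d : ℤ) = z ∧ p ∈ PU d) ∧
      Polynomial.eval₂ (Int.castRingHom F) (h ^ 2) p = h ^ z * y := by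
  obtain ⟨p, hp, he⟩ := H
  refine ⟨p, t_PZp.1 z p hp, ?_⟩
  rw [← he, Polynomial.aeval_def, algebraMap_int_eq]

theorem choose_fam {F : Type} [Field F] {h : F} (I : Finset (ℕ × ℕ)) (z : ℕ × ℕ → ℤ)
    (y : ℕ × ℕ → F) (H : ∀ t ∈ I, Pos h (z t) (y t)) :
    ∃ P : ℕ × ℕ → PX, ∀ t ∈ I, (P t = 0 ∨ ∃ d : ℕ, (d : ℤ) = z t ∧ P t ∈ PU d) ∧
      Polynomial.eval₂ (Int.castRingHom F) (h ^ 2) (P t) = h ^ (z t) * y t := by
  classical
  have h1 : ∀ t : ℕ × ℕ, ∃ p : PX, t ∈ I → (p = 0 ∨ ∃ d : ℕ, (d : ℤ) = z t ∧ p ∈ PU d) ∧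
      Polynomial.eval₂ (Int.castRingHom F) (h ^ 2) p = h ^ (z t) * y t := by
    intro t
    by_cases ht : t ∈ I
    · obtain ⟨p, hp⟩ := choose_poly (H t ht)
      exact ⟨p, fun _ => hp⟩
    · exact ⟨0, fun h => absurd h ht⟩
  choose P hP using h1
  exact ⟨P, fun t ht => hP t ht⟩

end DEp

theorem t_DE : S_DE := by
  intro hMP hTH N n' d' f hf0 I J κ T hI hJ hf
  obtain ⟨hinj, hqq, -, -, -, hC0⟩ := hTH N
  have hC : ∀ p : PX, thN N (MvPolynomial.C p) =
      Polynomial.eval₂ (Int.castRingHom (FN N)) (hN N ^ 2) p := by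
    intro p
    rw [hC0, Polynomial.aeval_def]
    exact congrArg (fun φ : ℤ →+* FN N => Polynomial.eval₂ φ (hN N ^ 2) p)
      (Subsingleton.elim _ _)
  obtain ⟨P, hP⟩ := DEp.choose_fam I (fun t => (d' : ℤ) + 2 - 2 * t.2 - (n' - t.1))
    (fun t => κ t.1 t.2) (fun t ht => (hI t ht).2.2)
  obtain ⟨Q, hQ⟩ := DEp.choose_fam J (fun t => (d' : ℤ) + 3 - 2 * (n' - t.1 - t.2))
    (fun t => T t.1 t.2) (fun t ht => (hJ t ht).2)
  obtain ⟨mes, -, mbt, mCn, -⟩ := hMP (AN N) (FN N) (thN N) N (qq N) (xx N)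
  have hfeq : f = ∑ t ∈ I, (fun i j => MvPolynomial.C (P t) * es (xx N) t.1 *
        bt (qq N) (xx N) (n' - t.1) t.2 i j) +
      ∑ t ∈ J, (fun i j => MvPolynomial.C (Q t) * (es (xx N) t.1 * es (xx N) t.2) *
        Cn (qq N) (xx N) (n' - t.1 - t.2) i j) := by
    funext i j
    rw [Pi.add_apply, Pi.add_apply, Finset.sum_apply, Finset.sum_apply, Finset.sum_apply,
      Finset.sum_apply]
    by_cases hij : i < j
    · apply hinj
      rw [hf i j hij, map_add, map_sum, map_sum]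
      congr 1
      · refine Finset.sum_congr rfl fun t ht => ?_
        rw [map_mul, map_mul, hC, mes, mbt, hqq, (hP t ht).2]
      · refine Finset.sum_congr rfl fun t ht => ?_
        rw [map_mul, map_mul, map_mul, hC, mes, mes, mCn, hqq, (hQ t ht).2]
    · rw [hf0 i j hij, Finset.sum_eq_zero, Finset.sum_eq_zero, add_zero]
      · intro t _
        rw [Cn_of_not hij, mul_zero]
      · intro t _
        rw [bt_of_not hij, mul_zero]
  rw [hfeq]
  apply AddSubmonoid.add_mem
  · apply AddSubmonoid.sum_mem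
    intro t ht
    obtain ⟨h1, h2, -⟩ := hI t ht
    rcases (hP t ht).1 with h0 | ⟨d, hd, hPd⟩
    · have : (fun i j => MvPolynomial.C (P t) * es (xx N) t.1 *
          bt (qq N) (xx N) (n' - t.1) t.2 i j) = (0 : Fin N → Fin N → AN N) := by
        funext i j
        rw [h0, map_zero, zero_mul, zero_mul]
        rfl
      rw [this]
      exact AddSubmonoid.zero_mem _
    · apply AddSubmonoid.subset_closure
      left
      refine ⟨t.1, d, n' - t.1, t.2, MvPolynomial.C (P t) * es (xx N) t.1, ?_, h1, by omega,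
        by omega, by omega, rfl⟩
      apply AddSubmonoid.subset_closure
      refine ⟨{t.1}, P t, Multiset.sum_singleton _, hPd, ?_⟩
      rw [Multiset.map_singleton, Multiset.prod_singleton]
  · apply AddSubmonoid.sum_mem
    intro t ht
    obtain ⟨h1, -⟩ := hJ t ht
    rcases (hQ t ht).1 with h0 | ⟨d, hd, hQd⟩
    · have : (fun i j => MvPolynomial.C (Q t) * (es (xx N) t.1 * es (xx N) t.2) *
          Cn (qq N) (xx N) (n' - t.1 - t.2) i j) = (0 : Fin N → Fin N → AN N) := by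
        funext i j
        rw [h0, map_zero, zero_mul, zero_mul]
        rfl
      rw [this]
      exact AddSubmonoid.zero_mem _
    · apply AddSubmonoid.subset_closure
      right
      refine ⟨t.1 + t.2, d, n' - t.1 - t.2, MvPolynomial.C (Q t) * (es (xx N) t.1 * es (xx N) t.2),
        ?_, by omega, by omega, by omega, rfl⟩
      apply AddSubmonoid.subset_closure
      refine ⟨{t.1, t.2}, Q t, Multiset.sum_pair _ _, hQd, ?_⟩
      rw [Multiset.insert_eq_cons, Multiset.map_cons, Multiset.map_singleton, Multiset.prod_cons,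
        Multiset.prod_singleton]

end Pool.Agent.SWD
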