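import Pool.Agent.Lib.MP_263316_co.CB.SpecD

/-!
MP_263316_co, part CB4, module G1: the closed formula for `UU l (Cn P)` in terms of symmetric
q-integers.
-/

set_option autoImplicit false

namespace Pool.Agent.SWD

open Finset Pool.Agent.SWC Pool.Agent.SWB

namespace G1X

variable {F : Type} [Field F] {h : F}

private theorem dne (h0 : h ≠ 0) (h1 : h ^ 2 ≠ 1) : h - h⁻¹ ≠ 0 := by
  intro e
  apply h1
  have e2 : h * (h - h⁻¹) = 0 := by rw [e, mul_zero]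
  rw [mul_sub, mul_inv_cancel₀ h0] at e2
  rw [sq]
  exact sub_eq_zero.mp e2

private theorem L1 (h0 : h ≠ 0) (a b : ℤ) :
    sy h a * (h ^ b + h ^ (-b)) = sy h (a + b) + sy h (a - b) := by
  unfold sy
  rw [div_mul_eq_mul_div, ← add_div]
  congr 1
  have e1 : h ^ (a + b) = h ^ a * h ^ b := zpow_add₀ h0 a b
  have e2 : h ^ (-(a + b)) = h ^ (-a) * h ^ (-b) := by rw [neg_add, zpow_add₀ h0]
  have e3 : h ^ (a - b) = h ^ a * h ^ (-b) := by rw [sub_eq_add_neg, zpow_add₀ h0]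
  have e4 : h ^ (-(a - b)) = h ^ (-a) * h ^ b := by
    rw [neg_sub, sub_eq_add_neg, add_comm, zpow_add₀ h0]
  rw [e1, e2, e3, e4]
  ring

private theorem sy_zero : sy h 0 = 0 := by
  unfold sy
  rw [neg_zero, sub_self, zero_div]

private theorem sy_neg (x : ℤ) : sy h (-x) = - sy h x := by
  unfold sy
  rw [neg_neg, ← neg_sub, neg_div]

private theorem sy_one (h0 : h ≠ 0) (h1 : h ^ 2 ≠ 1) : sy h 1 = 1 := by
  unfold sy
  rw [zpow_one, zpow_neg_one, div_self (dne h0 h1)]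

private theorem sy_two (h0 : h ≠ 0) (h1 : h ^ 2 ≠ 1) : sy h 2 = h + h⁻¹ := by
  have e := L1 h0 1 1
  rw [sy_one h0 h1, zpow_one, zpow_neg_one, one_mul, sub_self, sy_zero, add_zero] at e
  rw [e]
  norm_num

private theorem sy_two_ne (h0 : h ≠ 0) (h1 : h ^ 2 ≠ 1) (h2 : 1 + h ^ 2 ≠ 0) : sy h 2 ≠ 0 := by
  rw [sy_two h0 h1]
  intro e
  apply h2
  have e2 : h * (h + h⁻¹) = 0 := by rw [e, mul_zero]
  rw [mul_add, mul_inv_cancel₀ h0] at e2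
  rw [add_comm, sq]
  exact e2

/-- `{a} {b} δ^2` -/
private theorem smul (h0 : h ≠ 0) (h1 : h ^ 2 ≠ 1) (a b : ℤ) :
    sy h a * sy h b * (h - h⁻¹) ^ 2 =
      h ^ (a + b) + h ^ (-(a + b)) - h ^ (a - b) - h ^ (b - a) := by
  have hd := dne h0 h1
  unfold sy
  have e1 : h ^ (a + b) = h ^ a * h ^ b := zpow_add₀ h0 a b
  have e2 : h ^ (-(a + b)) = h ^ (-a) * h ^ (-b) := by rw [neg_add, zpow_add₀ h0]
  have e3 : h ^ (a - b) = h ^ a * h ^ (-b) := by rw [sub_eq_add_neg, zpow_add₀ h0]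
  have e4 : h ^ (b - a) = h ^ (-a) * h ^ b := by
    rw [sub_eq_add_neg, add_comm, zpow_add₀ h0]
  rw [e1, e2, e3, e4, div_mul_div_comm, ← sq (h - h⁻¹), div_mul_cancel₀ _ (pow_ne_zero 2 hd)]
  ring

/-- the closed form of `Qf` and `Qe` -/
private def Qc (h : F) (m : ℤ) : F :=
  (sy h (2 * m + 4) / sy h 2 - ((m + 2 : ℤ) : F)) / (h - h⁻¹) ^ 2

private theorem Qc_neg (m : ℤ) : Qc h (-4 - m) = - Qc h m := by
  unfold Qc
  have e : 2 * (-4 - m) + 4 = -(2 * m + 4) := by ring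
  rw [e, sy_neg, neg_div, ← neg_div]
  push_cast
  ring

private theorem Qc_rec (h0 : h ≠ 0) (h1 : h ^ 2 ≠ 1) (h2 : 1 + h ^ 2 ≠ 0) (m : ℤ) :
    Qc h m = sy h (m + 1) ^ 2 + Qc h (m - 2) := by
  have hd := pow_ne_zero 2 (dne h0 h1)
  have h3 := sy_two_ne h0 h1 h2
  have e1 := smul h0 h1 (m + 1) (m + 1)
  have e2 := L1 h0 2 (2 * m + 2)
  have e3 : (2 : ℤ) - (2 * m + 2) = -(2 * (m - 2) + 4) := by ring
  have e4 : (2 : ℤ) + (2 * m + 2) = 2 * m + 4 := by ring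
  rw [e3, e4, sy_neg] at e2
  have e5 : m + 1 + (m + 1) = 2 * m + 2 := by ring
  rw [sub_self, zpow_zero, e5] at e1
  unfold Qc
  have e6 : sy h (2 * m + 4) = sy h 2 * (h ^ (2 * m + 2) + h ^ (-(2 * m + 2))) +
      sy h (2 * (m - 2) + 4) := by
    rw [e2]
    ring
  rw [div_eq_iff hd, add_mul, div_mul_cancel₀ _ hd, sq (sy h (m + 1)), e1, e6, add_div,
    mul_div_cancel_left₀ _ h3]
  push_cast
  ring

private theorem Qf_rec (n : ℕ) : Qf h n = sy h (n + 1) ^ 2 + Qf h ((n : ℤ) - 2) := by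
  unfold Qf
  have e1 : ((n : ℤ) + 1).toNat = n + 1 := by omega
  rw [e1, sum_range_succ', add_comm]
  congr 1
  · unfold syp
    rw [if_pos (by push_cast; omega)]
    norm_num
  · rcases n with _ | n
    · have e2 : (((0 : ℕ) : ℤ) - 2 + 1).toNat = 0 := by norm_num
      rw [e2]
      rfl
    · have e2 : (((n + 1 : ℕ) : ℤ) - 2 + 1).toNat = n := by push_cast; omega
      rw [e2, sum_range_succ]
      have e3 : syp h (((n + 1 : ℕ) : ℤ) + 1 - 2 * ((n + 1 : ℕ) : ℤ)) = 0 := by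
        unfold syp
        rw [if_neg (by push_cast; omega)]
      rw [e3, zero_pow two_ne_zero, add_zero]
      refine sum_congr rfl fun k _ => ?_
      congr 2
      push_cast
      ring

private theorem Qf_eq (h0 : h ≠ 0) (h1 : h ^ 2 ≠ 1) (h2 : 1 + h ^ 2 ≠ 0) (n : ℕ) :
    Qf h ((n : ℤ) - 2) = Qc h ((n : ℤ) - 2) := by
  induction n using Nat.twoStepInduction with
  | zero =>
    have e1 : Qf h (((0 : ℕ) : ℤ) - 2) = 0 := rfl
    rw [e1]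
    unfold Qc
    norm_num [sy_zero]
  | one =>
    have e1 : Qf h (((1 : ℕ) : ℤ) - 2) = 0 := rfl
    rw [e1]
    unfold Qc
    have e2 : 2 * (((1 : ℕ) : ℤ) - 2) + 4 = 2 := by norm_num
    have e3 : ((1 : ℕ) : ℤ) - 2 + 2 = 1 := by norm_num
    rw [e2, e3, div_self (sy_two_ne h0 h1 h2), Int.cast_one, sub_self, zero_div]
  | more n ih _ =>
    have e1 : ((n + 2 : ℕ) : ℤ) - 2 = n := by push_cast; ring
    rw [e1, Qf_rec, ih, Qc_rec h0 h1 h2 n]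

private theorem Qe_eq (h0 : h ≠ 0) (h1 : h ^ 2 ≠ 1) (h2 : 1 + h ^ 2 ≠ 0) (m : ℤ) :
    Qe h m = Qc h m := by
  unfold Qe
  split_ifs with hm
  · obtain ⟨n, hn⟩ : ∃ n : ℕ, m = (n : ℤ) - 2 := ⟨(m + 2).toNat, by omega⟩
    rw [hn, Qf_eq h0 h1 h2]
  · obtain ⟨n, hn⟩ : ∃ n : ℕ, -4 - m = (n : ℤ) - 2 := ⟨(-2 - m).toNat, by omega⟩
    rw [hn, Qf_eq h0 h1 h2, ← hn, Qc_neg, neg_neg]

private theorem Qf_zero (m : ℤ) (hm : m < 0) : Qf h m = 0 := by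
  unfold Qf
  have e : (m + 1).toNat = 0 := by omega
  rw [e, sum_range_zero]

private theorem qn_eq (h0 : h ≠ 0) (h1 : h ^ 2 ≠ 1) (n : ℕ) :
    qn (h ^ 2) n = h ^ ((n : ℤ) - 1) * sy h n := by
  have hd := dne h0 h1
  have e1 : qn (h ^ 2) n * (h ^ 2 - 1) = (h ^ 2) ^ n - 1 := by
    unfold qn
    exact geom_sum_mul _ _
  have e2 : h ^ 2 - 1 = h * (h - h⁻¹) := by
    rw [mul_sub, mul_inv_cancel₀ h0, sq]
  have e3 : h ^ 2 - 1 ≠ 0 := sub_ne_zero.mpr h1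
  apply mul_right_cancel₀ e3
  rw [e1, e2]
  unfold sy
  have e4 : h ^ ((n : ℤ) - 1) * ((h ^ (n : ℤ) - h ^ (-(n : ℤ))) / (h - h⁻¹)) * (h * (h - h⁻¹)) =
      (h ^ ((n : ℤ) - 1) * h) * (h ^ (n : ℤ) - h ^ (-(n : ℤ))) := by
    field_simp
  rw [e4, ← zpow_add_one₀ h0, sub_add_cancel, mul_sub, ← zpow_add₀ h0, ← zpow_add₀ h0,
    add_neg_cancel, zpow_zero, ← pow_mul, ← zpow_natCast]
  congr 2
  push_cast
  ring

private theorem sum_anti (x : F) (m : ℕ) :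
    ∑ s ∈ antidiagonal m, x ^ s.2 = ∑ k ∈ range (m + 1), x ^ k := by
  rw [← Finset.Nat.sum_antidiagonal_swap (f := fun s : ℕ × ℕ => x ^ s.2)]
  rw [Finset.Nat.sum_antidiagonal_eq_sum_range_succ_mk]
  rfl

private theorem geom4 (h0 : h ≠ 0) (h1 : h ^ 2 ≠ 1) (h2 : 1 + h ^ 2 ≠ 0) (m : ℕ) :
    ∑ k ∈ range (m + 1), (h ^ 4) ^ k = h ^ (2 * m : ℤ) * (sy h (2 * m + 2) / sy h 2) := by
  have hd := dne h0 h1
  have h3 := sy_two_ne h0 h1 h2
  have e1 : h ^ 4 - 1 = h ^ 2 * (h - h⁻¹) * sy h 2 := by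
    rw [sy_two h0 h1]
    have : h * h⁻¹ = 1 := mul_inv_cancel₀ h0
    linear_combination (h ^ 2 * h⁻¹ ^ 2 * 0 + h * h⁻¹ + 1) * this
  have e2 : h ^ 4 - 1 ≠ 0 := by
    rw [e1]
    exact mul_ne_zero (mul_ne_zero (pow_ne_zero 2 h0) hd) h3
  apply mul_right_cancel₀ e2
  rw [geom_sum_mul, e1]
  have e3 : h ^ (2 * m : ℤ) * (sy h (2 * m + 2) / sy h 2) * (h ^ 2 * (h - h⁻¹) * sy h 2) =
      (h ^ (2 * m : ℤ) * h ^ 2) * (sy h (2 * m + 2) * (h - h⁻¹)) := by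
    field_simp
  rw [e3]
  unfold sy
  rw [div_mul_cancel₀ _ hd, ← zpow_natCast h 2, ← zpow_add₀ h0, mul_sub, ← zpow_add₀ h0,
    ← zpow_add₀ h0, ← pow_mul, ← zpow_natCast]
  congr 1
  · congr 1
    push_cast
    ring
  · have e4 : (2 * m : ℤ) + ((2 : ℕ) : ℤ) + -(2 * m + 2) = 0 := by push_cast; ring
    rw [e4, zpow_zero]

/-- the second sum -/
private theorem inner (h0 : h ≠ 0) (h1 : h ^ 2 ≠ 1) (h2 : 1 + h ^ 2 ≠ 0) (m : ℕ) :
    ∑ s ∈ antidiagonal m, qn (h ^ 2) (s.1 + 1) * ((h ^ 2) ^ s.2 * qn (h ^ 2) (s.2 + 1)) =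
      h ^ (2 * m : ℤ) * Qf h m := by
  have hd := pow_ne_zero 2 (dne h0 h1)
  have h3 := sy_two_ne h0 h1 h2
  have hQ : Qf h m = Qc h m := by
    have e := Qf_eq h0 h1 h2 (m + 2)
    have e1 : ((m + 2 : ℕ) : ℤ) - 2 = m := by push_cast; ring
    rwa [e1] at e
  apply mul_right_cancel₀ hd
  have hsum : (∑ s ∈ antidiagonal m, qn (h ^ 2) (s.1 + 1) *
      ((h ^ 2) ^ s.2 * qn (h ^ 2) (s.2 + 1))) * (h - h⁻¹) ^ 2 =
      ∑ s ∈ antidiagonal m, ((h ^ (m : ℤ) * (h ^ ((m : ℤ) + 2) + h ^ (-((m : ℤ) + 2)))) *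
        (h ^ 2) ^ s.2 - h ^ (2 * m : ℤ) - (h ^ 4) ^ s.2) := by
    rw [sum_mul]
    refine sum_congr rfl fun s hs => ?_
    have hs' : s.1 + s.2 = m := HasAntidiagonal.mem_antidiagonal.mp hs
    have e1 := smul h0 h1 ((s.1 + 1 : ℕ) : ℤ) ((s.2 + 1 : ℕ) : ℤ)
    rw [qn_eq h0 h1, qn_eq h0 h1]
    have e2 : h ^ (((s.1 + 1 : ℕ) : ℤ) - 1) * sy h ((s.1 + 1 : ℕ) : ℤ) * ((h ^ 2) ^ s.2 *
        (h ^ (((s.2 + 1 : ℕ) : ℤ) - 1) * sy h ((s.2 + 1 : ℕ) : ℤ))) * (h - h⁻¹) ^ 2 =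
        (h ^ (((s.1 + 1 : ℕ) : ℤ) - 1) * (h ^ 2) ^ s.2 * h ^ (((s.2 + 1 : ℕ) : ℤ) - 1)) *
        (sy h ((s.1 + 1 : ℕ) : ℤ) * sy h ((s.2 + 1 : ℕ) : ℤ) * (h - h⁻¹) ^ 2) := by ring
    rw [e2, e1]
    have f1 : (h ^ 2) ^ s.2 = h ^ (2 * (s.2 : ℤ)) := by
      rw [← pow_mul, ← zpow_natCast]
      push_cast
      rfl
    have f2 : (h ^ 4) ^ s.2 = h ^ (4 * (s.2 : ℤ)) := by
      rw [← pow_mul, ← zpow_natCast]
      push_cast
      rfl
    rw [f1, f2, ← zpow_add₀ h0, ← zpow_add₀ h0, mul_sub, mul_sub, mul_add, ← zpow_add₀ h0,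
      ← zpow_add₀ h0, ← zpow_add₀ h0, ← zpow_add₀ h0, mul_add, add_mul, ← zpow_add₀ h0,
      ← zpow_add₀ h0, ← zpow_add₀ h0, ← zpow_add₀ h0]
    have hm : (m : ℤ) = s.1 + s.2 := by rw [← hs']; push_cast; ring
    rw [hm]
    push_cast
    congr 1
    · congr 1
      · congr 1
        · congr 1; ring
        · congr 1; ring
      · congr 1; ring
    · congr 1; ring
  have g1 : ∑ s ∈ antidiagonal m, (h ^ 2) ^ s.2 = h ^ (m : ℤ) * sy h (m + 1) := by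
    rw [sum_anti]
    have e := qn_eq h0 h1 (m + 1)
    unfold qn at e
    rw [e]
    push_cast
    rw [add_sub_cancel_right]
  have g2 : ∑ s ∈ antidiagonal m, (h ^ 4) ^ s.2 =
      h ^ (2 * m : ℤ) * (sy h (2 * m + 2) / sy h 2) := by
    rw [sum_anti]
    exact geom4 h0 h1 h2 m
  rw [hsum, sum_sub_distrib, sum_sub_distrib, ← mul_sum, g1, g2, hQ, sum_const,
    Finset.Nat.card_antidiagonal, nsmul_eq_mul]
  unfold Qc
  rw [mul_assoc (h ^ (2 * m : ℤ)) (_ / _) _, div_mul_cancel₀ _ hd]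
  have e1 := L1 h0 ((m : ℤ) + 1) ((m : ℤ) + 2)
  have e2 := L1 h0 (2 * (m : ℤ) + 3) 1
  have e3 : (m : ℤ) + 1 + (m + 2) = 2 * m + 3 := by ring
  have e4 : (m : ℤ) + 1 - (m + 2) = -1 := by ring
  have e5 : 2 * (m : ℤ) + 3 + 1 = 2 * m + 4 := by ring
  have e6 : 2 * (m : ℤ) + 3 - 1 = 2 * m + 2 := by ring
  rw [e3, e4, sy_neg, sy_one h0 h1] at e1
  rw [zpow_one, zpow_neg_one, ← sy_two h0 h1, e5, e6] at e2
  have e7 : sy h (2 * m + 4) / sy h 2 = sy h (2 * m + 3) - sy h (2 * m + 2) / sy h 2 := by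
    rw [eq_sub_iff_add_eq, ← add_div, div_eq_iff h3, e2]
  have e8 : h ^ (2 * m : ℤ) = h ^ (m : ℤ) * h ^ (m : ℤ) := by
    rw [← zpow_add₀ h0]
    congr 1
    ring
  rw [e7, e8]
  have e9 : h ^ (m : ℤ) * (h ^ ((m : ℤ) + 2) + h ^ (-((m : ℤ) + 2))) *
      (h ^ (m : ℤ) * sy h (m + 1)) = h ^ (m : ℤ) * h ^ (m : ℤ) *
        (sy h (m + 1) * (h ^ ((m : ℤ) + 2) + h ^ (-((m : ℤ) + 2)))) := by ring
  rw [e9, e1]
  push_cast
  ring

/-- the coefficient of the third sum -/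
private theorem third (h0 : h ≠ 0) (h1 : h ^ 2 ≠ 1) (h2 : 1 + h ^ 2 ≠ 0) (l P k : ℕ)
    (hP : 2 ≤ P) :
    (qn (h ^ 2) (k + 1) * ((h ^ 2) ^ (2 * P + k - 1) + (h ^ 2) ^ (2 * l + 4)) / (1 + h ^ 2) -
      ((k + 1 : ℕ) : F) * (h ^ 2) ^ (1 + P + k + l)) / (1 - h ^ 2) ^ 2 =
    h ^ (2 * l + 2 * ((P + k : ℕ) : ℤ)) *
      (Qe h (((P + k : ℕ) : ℤ) - l - 4) - Qe h (P - l - 5)) := by
  have hd := dne h0 h1
  have hd2 := pow_ne_zero 2 hd
  have h3 := sy_two_ne h0 h1 h2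
  rw [Qe_eq h0 h1 h2, Qe_eq h0 h1 h2, qn_eq h0 h1]
  have hb := L1 h0 ((k : ℤ) + 1) (2 * P + k - 2 * l - 5)
  have c1 : (k : ℤ) + 1 + (2 * P + k - 2 * l - 5) = 2 * (((P + k : ℕ) : ℤ) - l - 4) + 4 := by
    push_cast; ring
  have c2 : (k : ℤ) + 1 - (2 * P + k - 2 * l - 5) = -(2 * ((P : ℤ) - l - 5) + 4) := by ring
  rw [c1, c2, sy_neg] at hb
  have hp : (h ^ 2) ^ (2 * P + k - 1) + (h ^ 2) ^ (2 * l + 4) =
      h ^ (2 * P + k + 2 * l + 3 : ℤ) * (h ^ (2 * P + k - 2 * l - 5 : ℤ) +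
        h ^ (-(2 * P + k - 2 * l - 5) : ℤ)) := by
    rw [mul_add, ← zpow_add₀ h0, ← zpow_add₀ h0, ← pow_mul, ← pow_mul, ← zpow_natCast,
      ← zpow_natCast]
    congr 1
    · congr 1
      have : ((2 * P + k - 1 : ℕ) : ℤ) = 2 * P + k - 1 := by omega
      rw [Nat.cast_mul, this]
      push_cast
      ring
    · congr 1
      push_cast
      ring
  have hq : (h ^ 2) ^ (1 + P + k + l) = h ^ (2 + 2 * P + 2 * k + 2 * l : ℤ) := by
    rw [← pow_mul, ← zpow_natCast]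
    congr 1
    push_cast
    ring
  have h12 : 1 + h ^ 2 = h * sy h 2 := by
    rw [sy_two h0 h1, mul_add, mul_inv_cancel₀ h0]
    ring
  have h13 : (1 - h ^ 2) ^ 2 = h ^ 2 * (h - h⁻¹) ^ 2 := by
    rw [← mul_pow, mul_sub, mul_inv_cancel₀ h0]
    ring
  rw [hp, hq, h12, h13]
  unfold Qc
  rw [← sub_div, ← mul_div_assoc, div_eq_div_iff (mul_ne_zero (pow_ne_zero 2 h0) hd2) hd2]
  have c3 : h ^ (((k + 1 : ℕ) : ℤ) - 1) * sy h ((k + 1 : ℕ) : ℤ) *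
      (h ^ (2 * P + k + 2 * l + 3 : ℤ) * (h ^ (2 * P + k - 2 * l - 5 : ℤ) +
        h ^ (-(2 * P + k - 2 * l - 5) : ℤ))) / (h * sy h 2) =
      h ^ (2 * P + 2 * k + 2 * l + 2 : ℤ) * ((sy h (2 * (((P + k : ℕ) : ℤ) - l - 4) + 4) -
        sy h (2 * ((P : ℤ) - l - 5) + 4)) / sy h 2) := by
    rw [mul_div_assoc', div_eq_div_iff (mul_ne_zero h0 h3) h3]
    have c4 : sy h (2 * (((P + k : ℕ) : ℤ) - l - 4) + 4) - sy h (2 * ((P : ℤ) - l - 5) + 4) =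
        sy h ((k + 1 : ℕ) : ℤ) * (h ^ (2 * P + k - 2 * l - 5 : ℤ) +
          h ^ (-(2 * P + k - 2 * l - 5) : ℤ)) := by
      have c5 : ((k + 1 : ℕ) : ℤ) = (k : ℤ) + 1 := by push_cast; ring
      rw [c5, hb]
      ring
    rw [c4]
    have c6 : h ^ (((k + 1 : ℕ) : ℤ) - 1) * h ^ (2 * P + k + 2 * l + 3 : ℤ) =
        h ^ (2 * P + 2 * k + 2 * l + 2 : ℤ) * h := by
      rw [← zpow_add₀ h0, ← zpow_add_one₀ h0]
      congr 1
      push_cast
      ring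
    calc _ = (h ^ (((k + 1 : ℕ) : ℤ) - 1) * h ^ (2 * P + k + 2 * l + 3 : ℤ)) *
        (sy h ((k + 1 : ℕ) : ℤ) * (h ^ (2 * P + k - 2 * l - 5 : ℤ) +
          h ^ (-(2 * P + k - 2 * l - 5) : ℤ)) * sy h 2) := by ring
      _ = _ := by rw [c6]; ring
  rw [c3]
  have c7 : h ^ (2 * P + 2 * k + 2 * l + 2 : ℤ) = h ^ (2 * l + 2 * ((P + k : ℕ) : ℤ)) * h ^ 2 := by
    rw [← zpow_natCast h 2, ← zpow_add₀ h0]
    congr 1
    push_cast
    ring
  have c8 : h ^ (2 + 2 * P + 2 * k + 2 * l : ℤ) = h ^ (2 * l + 2 * ((P + k : ℕ) : ℤ)) * h ^ 2 := by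
    rw [← zpow_natCast h 2, ← zpow_add₀ h0]
    congr 1
    push_cast
    ring
  rw [c7, c8]
  push_cast
  ring

/-- the coefficient of the first sum -/
private theorem first (h0 : h ≠ 0) (h1 : h ^ 2 ≠ 1) (l P r1 r2 : ℕ) (hr : r1 + r2 = l)
    (hP : 2 ≤ P) :
    ((h ^ 2) ^ (l + 1) - (h ^ 2) ^ (P + r1 - 1)) / (1 - h ^ 2) * qn (h ^ 2) (r1 + 1) =
      h ^ (P + 3 * l + 1 - 2 * ((r2 + 1 : ℕ) : ℤ)) *
        (syp h (l + 2 - ((r2 + 1 : ℕ) : ℤ)) * sy h (P - 1 - ((r2 + 1 : ℕ) : ℤ))) := by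
  have hd := dne h0 h1
  have hl : (l : ℤ) = r1 + r2 := by rw [← hr]; push_cast; ring
  have e1 : syp h (l + 2 - ((r2 + 1 : ℕ) : ℤ)) = sy h ((r1 + 1 : ℕ) : ℤ) := by
    unfold syp
    rw [if_pos (by rw [hl]; push_cast; omega)]
    congr 1
    rw [hl]
    push_cast
    ring
  have h13 : 1 - h ^ 2 = -(h * (h - h⁻¹)) := by
    rw [mul_sub, mul_inv_cancel₀ h0]
    ring
  rw [e1, qn_eq h0 h1, h13]
  have e2 : (h ^ 2) ^ (l + 1) - (h ^ 2) ^ (P + r1 - 1) =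
      - (h ^ (l + P + r1 : ℤ) * (sy h (P - 1 - ((r2 + 1 : ℕ) : ℤ)) * (h - h⁻¹))) := by
    unfold sy
    rw [div_mul_cancel₀ _ hd, mul_sub, ← zpow_add₀ h0, ← zpow_add₀ h0, ← pow_mul, ← pow_mul,
      ← zpow_natCast, ← zpow_natCast, neg_sub]
    congr 1
    · congr 1
      rw [hl]
      push_cast
      rw [hl]
      ring
    · congr 1
      have e3 : ((P + r1 - 1 : ℕ) : ℤ) = P + r1 - 1 := by omega
      rw [Nat.cast_mul, e3, hl]
      push_cast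
      ring
  rw [e2, neg_div_neg_eq, div_mul_eq_mul_div, div_eq_iff (mul_ne_zero h0 hd)]
  have e4 : h ^ (l + P + r1 : ℤ) * h ^ (((r1 + 1 : ℕ) : ℤ) - 1) =
      h ^ (P + 3 * l + 1 - 2 * ((r2 + 1 : ℕ) : ℤ)) * h := by
    rw [← zpow_add₀ h0, ← zpow_add_one₀ h0]
    congr 1
    rw [hl]
    push_cast
    ring
  linear_combination (sy h (P - 1 - ((r2 + 1 : ℕ) : ℤ)) * (h - h⁻¹) *
    sy h ((r1 + 1 : ℕ) : ℤ)) * e4

end G1X

open G1X in
theorem t_G1 : S_G1 := by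
  intro _ hR F _ h h0 h1 h2 N x l P hP i j hij
  have hq0 : h ^ 2 ≠ 0 := pow_ne_zero 2 h0
  have hq1 : 1 - h ^ 2 ≠ 0 := sub_ne_zero.mpr (Ne.symm h1)
  rw [hR F N (h ^ 2) x hq0 hq1 h2 l P hP i j hij, add_assoc]
  congr 1
  · refine Finset.sum_nbij' (fun r => r.2 + 1) (fun c => (l + 1 - c, c - 1)) ?_ ?_ ?_ ?_ ?_
    · intro r hr
      have hr' := HasAntidiagonal.mem_antidiagonal.mp hr
      rw [mem_Icc]
      omega
    · intro c hc
      rw [mem_Icc] at hc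
      rw [HasAntidiagonal.mem_antidiagonal]
      simp only
      omega
    · intro r hr
      have hr' := HasAntidiagonal.mem_antidiagonal.mp hr
      ext
      · simp only
        omega
      · simp only
        omega
    · intro c hc
      rw [mem_Icc] at hc
      simp only
      omega
    · intro r hr
      have hr' : r.1 + r.2 = l := HasAntidiagonal.mem_antidiagonal.mp hr
      rw [first h0 h1 l P r.1 r.2 hr' hP]
  · have hsplit : ∀ r : ℕ, h ^ (2 * l + 2 * r : ℤ) *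
        (Qf h (l - r) + if P ≤ r then Qe h (r - l - 4) - Qe h (P - l - 5) else 0) *
          es x r * Cn (h ^ 2) x (P + l + 2 - r) i j =
        h ^ (2 * l + 2 * r : ℤ) * Qf h (l - r) * es x r * Cn (h ^ 2) x (P + l + 2 - r) i j +
        h ^ (2 * l + 2 * r : ℤ) * (if P ≤ r then Qe h (r - l - 4) - Qe h (P - l - 5) else 0) *
          es x r * Cn (h ^ 2) x (P + l + 2 - r) i j := by
      intro r
      ring
    rw [sum_congr rfl fun r _ => hsplit r, sum_add_distrib]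
    congr 1
    · have hs : ∑ r ∈ range (l + 1), h ^ (2 * l + 2 * r : ℤ) * Qf h (l - r) * es x r *
          Cn (h ^ 2) x (P + l + 2 - r) i j =
          ∑ r ∈ range (P + l + 1), h ^ (2 * l + 2 * r : ℤ) * Qf h (l - r) * es x r *
          Cn (h ^ 2) x (P + l + 2 - r) i j := by
        apply sum_subset
        · intro r hr
          rw [mem_range] at hr ⊢
          omega
        · intro r _ hr
          rw [mem_range] at hr
          rw [Qf_zero _ (by omega), mul_zero, zero_mul, zero_mul]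
      rw [← hs, Finset.Nat.sum_antidiagonal_eq_sum_range_succ_mk]
      refine sum_congr rfl fun r hr => ?_
      rw [mem_range] at hr
      simp only
      rw [inner h0 h1 h2]
      have e1 : ((l - r : ℕ) : ℤ) = l - r := by omega
      have e2 : P + (l - r) + 2 = P + l + 2 - r := by omega
      rw [e1, e2]
      congr 2
      rw [← mul_assoc, ← pow_mul, ← zpow_natCast, ← zpow_add₀ h0]
      congr 2
      push_cast
      ring
    · have e0 : P + l + 1 = P + (l + 1) := by ring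
      rw [e0, sum_range_add]
      have hz : ∑ r ∈ range P, h ^ (2 * l + 2 * r : ℤ) *
          (if P ≤ r then Qe h (r - l - 4) - Qe h (P - l - 5) else 0) *
          es x r * Cn (h ^ 2) x (P + l + 2 - r) i j = 0 := by
        refine sum_eq_zero fun r hr => ?_
        rw [mem_range] at hr
        rw [if_neg (by omega), mul_zero, zero_mul, zero_mul]
      rw [hz, zero_add, Finset.Nat.sum_antidiagonal_eq_sum_range_succ_mk]
      refine sum_congr rfl fun k hk => ?_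
      rw [mem_range] at hk
      simp only
      rw [if_pos (Nat.le_add_right P k), third h0 h1 h2 l P k hP]
      have e2 : l - k + 2 = P + l + 2 - (P + k) := by omega
      rw [e2]

end Pool.Agent.SWD
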