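import Pool.Agent.Lib.MP_263316_co.CB.SpecD

/-!
# MP_263316_co, CB/OM2: the sums `Om` for `a ≤ p < b`
-/

set_option autoImplicit false

namespace Pool.Agent.SWD

open Finset Pool.Agent.SWC Pool.Agent.SWB

section
variable {F : Type} [Field F] {h : F}

/-- The first two terms of `Kf` do not contribute for `a ≤ p`. -/
private theorem OM2_first (hSY : S_SY) (h0 : h ≠ 0) (h1 : h ^ 2 ≠ 1) {a b l p c : ℤ} (hab : a + 2 ≤ b)
    (hap : a ≤ p) :
    ps h (2 * c + 1 - (a + b + l + 2 - p)) *
      (syp h (c - a) * syp h (l + 2 + a - p - c) +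
        (if p ≤ a then syp h (l + 2 - c) * sy h (2 * a - c - p)
          else syp h (l + 2 + a - c - p) * sy h (a - c))) = 0 := by
  obtain ⟨hz, -, hneg, -⟩ := hSY F h h0 h1
  have e1 : (if p ≤ a then syp h (l + 2 - c) * sy h (2 * a - c - p)
      else syp h (l + 2 + a - c - p) * sy h (a - c)) =
      syp h (l + 2 + a - p - c) * sy h (a - c) := by
    split_ifs with h2
    · have e2 : l + 2 - c = l + 2 + a - p - c := by omega
      have e3 : 2 * a - c - p = a - c := by omega
      rw [e2, e3]
    · have e2 : l + 2 + a - c - p = l + 2 + a - p - c := by ring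
      rw [e2]
  rw [e1]
  rcases lt_trichotomy c a with h3 | h3 | h3
  · by_cases h4 : 0 < l + 2 + a - p - c
    · have h5 : ps h (2 * c + 1 - (a + b + l + 2 - p)) = 0 := by
        unfold ps
        rw [if_pos (show 2 * c + 1 - (a + b + l + 2 - p) < 0 by omega)]
      rw [h5, zero_mul]
    · have h5 : syp h (l + 2 + a - p - c) = 0 := by
        unfold syp
        rw [if_neg h4]
      rw [h5]
      ring
  · subst h3
    have h5 : syp h (c - c) = 0 := by
      unfold syp
      rw [if_neg (show ¬ 0 < c - c by omega)]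
    rw [h5, sub_self, hz]
    ring
  · have h5 : syp h (c - a) = - sy h (a - c) := by
      unfold syp
      rw [if_pos (show 0 < c - a by omega), ← hneg]
      congr 1
      ring
    rw [h5]
    ring

end

theorem t_OM2 : S_OM2 := by
  intro hSY F _ h h0 h1 a b l p ha hab hap hpb
  unfold Om
  refine Finset.sum_eq_zero fun c _ => ?_
  have hab' : (a : ℤ) + 2 ≤ b := by exact_mod_cast hab
  have hap' : (a : ℤ) ≤ p := by exact_mod_cast hap
  unfold Kf
  rw [if_neg (show ¬ (b : ℤ) ≤ p by omega), add_zero]
  exact OM2_first hSY h0 h1 hab' hap'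

end Pool.Agent.SWD
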