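import Pool.Agent.Lib.MP_263316_co.CB.SpecC

/-!
MP_263316_co, part CB3, task RAWW: closed formula for `Wo l (eH c)`. (helper72)
-/

set_option autoImplicit false

namespace Pool.Agent.SWD

open Finset Pool.Agent.SWC Pool.Agent.SWB

namespace RAWWAux

variable {K : Type} [CommRing K] {N : ℕ}

theorem kA_eq (a : K) : (kA a : PA K) = PowerSeries.C (kB a) := rfl

theorem exA_add (l m : ℕ) (s t : PA K) : exA l m (s + t) = exA l m s + exA l m t := by
  unfold exA
  rw [map_add, map_add]

theorem exA_sub (l m : ℕ) (s t : PA K) : exA l m (s - t) = exA l m s - exA l m t := by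
  unfold exA
  rw [map_sub, map_sub]

theorem wq_kB (q : K) (a b : Fin N) : wq (kB q : PB K) a b = kB (wq q a b) := by
  unfold wq
  split_ifs
  · rfl
  · rw [map_one]

/-- `Wo` with constant coefficients commutes with taking coefficients -/
theorem Wo_coeff (q : K) (x : Fin N → K) (l : ℕ) (G : Fin N → PB K) (i j : Fin N) (n : ℕ) :
    PowerSeries.coeff n (Wo (kB q) (fun k => kB (x k)) l G i j) =
      Wo q x l (fun k => PowerSeries.coeff n (G k)) i j := by
  unfold Wo
  split_ifs with h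
  · rw [mul_sum, mul_sum, map_sum]
    refine sum_congr rfl fun k _ => ?_
    have h1 : ∑ C ∈ powersetCard l (((univ.erase i).erase j).erase k), ∏ r ∈ C,
        ((kB (x r) : PB K) * (wq (kB q) r i * wq (kB q) r j * wq (kB q) k r)) =
        kB (∑ C ∈ powersetCard l (((univ.erase i).erase j).erase k), ∏ r ∈ C,
          (x r * (wq q r i * wq q r j * wq q k r))) := by
      rw [map_sum]
      refine sum_congr rfl fun C _ => ?_
      rw [map_prod]
      refine prod_congr rfl fun r _ => ?_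
      rw [wq_kB, wq_kB, wq_kB, map_mul, map_mul, map_mul]
    rw [h1, wq_kB, wq_kB]
    generalize ∑ C ∈ powersetCard l (((univ.erase i).erase j).erase k), ∏ r ∈ C,
          (x r * (wq q r i * wq q r j * wq q k r)) = S
    have h2 : (kB (x i) : PB K) * kB (x j) * (G k * (kB (wq q k i) * kB (wq q k j)) * kB S) =
        PowerSeries.C (x i * x j * (wq q k i * wq q k j) * S) * G k := by
      have h3 : (PowerSeries.C (x i * x j * (wq q k i * wq q k j) * S) : PB K) =
        kB (x i * x j * (wq q k i * wq q k j) * S) := rfl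
      rw [h3]
      simp only [map_mul]
      ring
    rw [h2, PowerSeries.coeff_C_mul]
    ring
  · rw [map_zero]

/-- one vertex of the left-hand side -/
theorem G_coeff (hSE : S_SE) (hES : S_ES) (q : K) (x : Fin N → K) (k : Fin N) (c : ℕ)
    (hc : 1 ≤ c) : PowerSeries.coeff c
      (vB * kB (x k) * ph (kB q) (fun k => kB (x k)) vB k : PB K) = eH q x c k := by
  obtain ⟨c, rfl⟩ : ∃ c', c = c' + 1 := ⟨c - 1, by omega⟩
  have h1 := ((hSE hES K).2.2.2.1 N q x 1).2.2 k
  have h2 : (PowerSeries.C (1 : K) * PowerSeries.X : PowerSeries K) = vB := by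
    rw [map_one, one_mul]
    rfl
  rw [h2] at h1
  have h3 : ph (kB q) (fun k => kB (x k)) (vB : PB K) k =
    PowerSeries.mk fun m => 1 ^ m * fh q x m k := h1
  rw [h3, mul_assoc]
  have h4 : (vB : PB K) = PowerSeries.X := rfl
  have h5 : (kB (x k) : PB K) = PowerSeries.C (x k) := rfl
  rw [h4, h5, PowerSeries.coeff_succ_X_mul, PowerSeries.coeff_C_mul, PowerSeries.coeff_mk, one_pow,
    one_mul, eH_eq]

/-- the left-hand side -/
theorem lhs (hES : S_ES) (hUGS : S_UGS) (hMP : S_MP) (hSE : S_SE) (q : K) (x : Fin N → K)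
    (i j : Fin N) (l c : ℕ) (hc : 1 ≤ c) :
    exA l (l + c) (Wg (kA q) (fun k => kA (x k)) (rA * vA)
      (fun k => PowerSeries.C (vB * kB (x k) * ph (kB q) (fun k => kB (x k)) vB k)) i j) =
    Wo q x l (eH q x c) i j := by
  set G' : Fin N → PB K := fun k => vB * kB (x k) * ph (kB q) (fun k => kB (x k)) vB k with hG'
  have hterm : ∀ l' : ℕ, Wo (kA q : PA K) (fun k => kA (x k)) l' (fun k => PowerSeries.C (G' k))
      i j = PowerSeries.C (Wo (kB q) (fun k => kB (x k)) l' G' i j) := by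
    intro l'
    exact ((hMP (PB K) (PA K) PowerSeries.C N (kB q) (fun k => kB (x k))).2.2.2.2.2.2.2.2.2.2.1
      l' G' i j).symm
  have h1 := (hUGS (PA K) N (kA q) (fun k => kA (x k))).2.2.1 (rA * vA)
    (fun k => PowerSeries.C (G' k)) i j
  rw [h1]
  have h2 : ∀ l' : ℕ, ((rA : PA K) * vA) ^ l' = PowerSeries.C (PowerSeries.X ^ l') *
      PowerSeries.X ^ l' := by
    intro l'
    have h3 : (rA : PA K) = PowerSeries.X := rfl
    have h4 : (vA : PA K) = PowerSeries.C PowerSeries.X := rfl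
    rw [h3, h4, mul_comm, mul_pow, map_pow]
  have h5 : ∀ l', exA l (l + c) (Wo (kA q : PA K) (fun k => kA (x k)) l'
      (fun k => PowerSeries.C (G' k)) i j * (rA * vA) ^ l') =
      if l' = l then Wo q x l (eH q x c) i j else 0 := by
    intro l'
    rw [hterm, h2, ← mul_assoc, ← map_mul]
    unfold exA
    rw [PowerSeries.coeff_C_mul, PowerSeries.coeff_X_pow]
    by_cases hl : l' = l
    · subst hl
      rw [if_pos rfl, if_pos rfl, mul_one, PowerSeries.coeff_mul_X_pow', if_pos (by omega),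
        Nat.add_sub_cancel_left, Wo_coeff]
      congr 1
      funext k
      rw [hG']
      exact G_coeff hSE hES q x k c hc
    · rw [if_neg (Ne.symm hl), if_neg hl, mul_zero, map_zero]
  have h6 : exA l (l + c) (∑ l' ∈ range (N + 1), Wo (kA q : PA K) (fun k => kA (x k)) l'
      (fun k => PowerSeries.C (G' k)) i j * (rA * vA) ^ l') =
      ∑ l' ∈ range (N + 1), exA l (l + c) (Wo (kA q : PA K) (fun k => kA (x k)) l'
      (fun k => PowerSeries.C (G' k)) i j * (rA * vA) ^ l') := by
    unfold exA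
    rw [map_sum, map_sum]
  rw [h6, sum_congr rfl fun l' _ => h5 l', sum_ite_eq']
  by_cases hl : l ∈ range (N + 1)
  · rw [if_pos hl]
  · rw [if_neg hl]
    rw [mem_range] at hl
    exact ((hUGS K N q x).2.2.2 l (eH q x c) i j (by omega)).symm

/-- the `DS` term -/
theorem term1 (hES : S_ES) (hMP : S_MP) (q : K) (x : Fin N → K) (i j : Fin N) (l c : ℕ) :
    exA l (l + c) (DS (kB q) (fun k => kB (x k)) 1 vB i j * gs (kB q)) =
      ∑ r ∈ antidiagonal l, q ^ r.1 * bt q x (c + l + 2) (r.2 + 1) i j := by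
  have hbw : ∀ a n : ℕ, PowerSeries.coeff n (bw (kB q) (fun k => kB (x k)) (vB : PB K) a i j) =
      bt q x (n + 2) a i j := by
    intro a n
    unfold bw
    rw [map_sum]
    have h1 : ∀ n', PowerSeries.coeff n (bt (kB q) (fun k => kB (x k)) (n' + 2) a i j *
        (vB : PB K) ^ n') = if n' = n then bt q x (n + 2) a i j else 0 := by
      intro n'
      have h2 : bt (kB q : PB K) (fun k => kB (x k)) (n' + 2) a i j =
          PowerSeries.C (bt q x (n' + 2) a i j) :=
        ((hMP K (PB K) kB N q x).2.2.1 (n' + 2) a i j).symm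
      have h3 : (vB : PB K) = PowerSeries.X := rfl
      rw [h2, h3, PowerSeries.coeff_C_mul, PowerSeries.coeff_X_pow]
      by_cases hn : n' = n
      · subst hn
        rw [if_pos rfl, if_pos rfl, mul_one]
      · rw [if_neg (Ne.symm hn), if_neg hn, mul_zero]
    rw [sum_congr rfl fun n' _ => h1 n', sum_ite_eq']
    by_cases hn : n ∈ range (2 * N + 1)
    · rw [if_pos hn]
    · rw [if_neg hn]
      rw [mem_range] at hn
      exact ((hES K N q x).2.2.2.2.2.2.2 i j (n + 2) a (by omega)).symm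
  unfold exA
  rw [PowerSeries.coeff_mul, map_sum, ← Finset.Nat.sum_antidiagonal_swap]
  refine sum_congr rfl fun r _ => ?_
  rw [Prod.fst_swap, Prod.snd_swap]
  unfold DS gs
  rw [PowerSeries.coeff_mk, PowerSeries.coeff_mk, one_pow, one_mul, mul_comm, ← map_pow]
  have h3 : (kB (q ^ r.1) : PB K) = PowerSeries.C (q ^ r.1) := rfl
  rw [h3, PowerSeries.coeff_C_mul, hbw, add_comm l c]

/-- the `Ct` terms -/
theorem term2 (hES : S_ES) (hMP : S_MP) (hSE : S_SE) (q : K) (x : Fin N → K) (i j : Fin N)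
    (l c : ℕ) (γ ε η δ : K) :
    exA l (l + c) (kA γ * PowerSeries.C (Ez (fun k => kB (x k)) (kB ε * vB)) *
      Ct (kA q) (fun k => kA (x k)) (kA η * (rA * vA)) i j * gs (kB δ)) =
      ∑ r ∈ antidiagonal l, γ * (ε ^ (c + r.1) * es x (c + r.1)) *
        (η ^ r.2 * Cn q x (r.2 + 2) i j) * δ ^ r.1 := by
  have h1 : (kA η : PA K) * (rA * vA) = PowerSeries.C (kB η * vB) * PowerSeries.X := by
    have h3 : (rA : PA K) = PowerSeries.X := rfl
    have h4 : (vA : PA K) = PowerSeries.C vB := rfl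
    rw [kA_eq, h3, h4, map_mul]
    ring
  have h2 : Ct (kA q) (fun k => kA (x k)) ((kA η : PA K) * (rA * vA)) i j =
      PowerSeries.mk fun m => (kB η * vB) ^ m * kB (Cn q x (m + 2) i j) := by
    rw [h1]
    have h3 := ((hSE hES (PB K)).2.2.2.1 N (kB q) (fun k => kB (x k)) (kB η * vB)).2.1 i j
    refine h3.trans ?_
    congr 1
    funext m
    congr 1
    exact ((hMP K (PB K) kB N q x).2.2.2.1 (m + 2) i j).symm
  have h3 : Ez (fun k => kB (x k)) ((kB ε : PB K) * vB) =
      PowerSeries.mk fun p => ε ^ p * es x p := ((hSE hES K).2.2.2.1 N q x ε).1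
  rw [h2, h3]
  unfold exA gs
  have h7 : PowerSeries.coeff l ((PowerSeries.mk fun m => (kB η * vB) ^ m *
      kB (Cn q x (m + 2) i j) : PA K) * PowerSeries.mk fun n => (kB δ : PB K) ^ n) =
      ∑ r ∈ antidiagonal l, (kB η * vB) ^ r.2 * kB (Cn q x (r.2 + 2) i j) * (kB δ : PB K) ^ r.1 := by
    rw [PowerSeries.coeff_mul, ← Finset.Nat.sum_antidiagonal_swap]
    refine sum_congr rfl fun r _ => ?_
    rw [Prod.fst_swap, Prod.snd_swap, PowerSeries.coeff_mk, PowerSeries.coeff_mk]
  rw [kA_eq, ← map_mul, mul_assoc, PowerSeries.coeff_C_mul, h7, mul_sum, map_sum]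
  refine sum_congr rfl fun r hr => ?_
  rw [Finset.HasAntidiagonal.mem_antidiagonal] at hr
  have h4 : (kB γ : PB K) * (PowerSeries.mk fun p => ε ^ p * es x p) *
      ((kB η * vB) ^ r.2 * kB (Cn q x (r.2 + 2) i j) * kB δ ^ r.1) =
      PowerSeries.C (γ * (η ^ r.2 * Cn q x (r.2 + 2) i j) * δ ^ r.1) *
        ((PowerSeries.mk fun p => ε ^ p * es x p) * PowerSeries.X ^ r.2) := by
    have h5 : (vB : PB K) = PowerSeries.X := rfl
    have h6 : (PowerSeries.C (γ * (η ^ r.2 * Cn q x (r.2 + 2) i j) * δ ^ r.1) : PB K) =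
      kB (γ * (η ^ r.2 * Cn q x (r.2 + 2) i j) * δ ^ r.1) := rfl
    rw [h6, h5, mul_pow]
    simp only [map_mul, map_pow]
    ring
  rw [h4, PowerSeries.coeff_C_mul, PowerSeries.coeff_mul_X_pow', if_pos (by omega),
    PowerSeries.coeff_mk, show l + c - r.2 = c + r.1 by omega]
  ring

end RAWWAux

open RAWWAux in
/-- TASK RAWW. -/
theorem t_RAWW : S_RAWW := by
  intro hES hUGS hMP hDSt hSE hTM hWU hEV hRG3 hWEr hWES K _ N q x hq hq1 l c hc i j hij
  have h := hWES hES hMP hDSt hSE hTM hWU hEV hRG3 hWEr K N q x hq hq1 i j hij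
  have h1 := congrArg (exA l (l + c)) h
  rw [lhs hES hUGS hMP hSE q x i j l c hc, exA_add, exA_sub, term1 hES hMP q x i j l c,
    term2 hES hMP hSE q x i j l c, term2 hES hMP hSE q x i j l c] at h1
  rw [h1, sub_add, sub_eq_add_neg]
  congr 1
  rw [← sum_sub_distrib, ← sum_neg_distrib]
  refine sum_congr rfl fun r hr => ?_
  rw [Finset.HasAntidiagonal.mem_antidiagonal] at hr
  have h2 : q ^ (l + 2 + r.1) = q ^ 2 * q ^ r.2 * (q ^ 2) ^ r.1 := by
    rw [← pow_mul, ← pow_add, ← pow_add]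
    congr 1
    omega
  rw [h2]
  simp only [one_pow]
  field_simp
  ring

end Pool.Agent.SWD
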