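import Pool.Agent.Lib.MP_263316_co.CB.BaseB

/-!
MP_263316_co, part CB2: the generating functions of the operators `UU l` and `Wo l`
(helper91). Definitions in CB/BaseB.lean.

The colours are `0, ..., N - 1`; the sum over the colours `i < j` of the two old marked vertices is
computed by a transfer matrix with four states, which is diagonalized in each of the three regions
`k < i'`, `i' < k < j'`, `k > j'` (`i' < j'` the new marked colours). All statements have been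
checked by computer in exactly this form.
-/

set_option autoImplicit false

namespace Pool.Agent.SWD

open Finset Pool.Agent.SWC Pool.Agent.SWB

/-- TASK TM. Induction on `n`: `A n = ∏_{k<n} D0 k`, `B n = PS1 n D0 D1 E`, `C n = PS2 ...`
(`sum_range_succ`, `prod_Ico_succ_top`). The second part: split `V3` into the two parts (define two
sequences by recursion and show that their sum satisfies the recursion of `V3`), or directly by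
induction. -/
def S_TM : Prop := ∀ (R : Type) [CommRing R],
  (∀ (D0 D1 E A B : ℕ → R), A 0 = 1 → B 0 = 0 → (∀ k, A (k + 1) = A k * D0 k) →
    (∀ k, B (k + 1) = B k * D1 k + A k * E k) → ∀ n, B n = PS1 n D0 D1 E) ∧
  (∀ (D0 D1 D3 E F A B C : ℕ → R), A 0 = 1 → B 0 = 0 → C 0 = 0 →
    (∀ k, A (k + 1) = A k * D0 k) → (∀ k, B (k + 1) = B k * D1 k + A k * E k) →
    (∀ k, C (k + 1) = C k * D3 k + B k * F k) → ∀ n, C n = PS2 n D0 D1 D3 E F) ∧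
  (∀ (D0 Du Dv D3 Eu Ev Fu Fv V0 Vu Vv V3 : ℕ → R) (cu cv : R), V0 0 = 1 → Vu 0 = 0 → Vv 0 = 0 →
    V3 0 = 0 → (∀ k, V0 (k + 1) = V0 k * D0 k) →
    (∀ k, Vu (k + 1) = Vu k * Du k + cu * (V0 k * Eu k)) →
    (∀ k, Vv (k + 1) = Vv k * Dv k + cv * (V0 k * Ev k)) →
    (∀ k, V3 (k + 1) = V3 k * D3 k + Vu k * Fu k + Vv k * Fv k) →
    ∀ n, V3 n = cu * PS2 n D0 Du D3 Eu Fu + cv * PS2 n D0 Dv D3 Ev Fv)

/-- TASK PU (`Ug` on a product state). The summand is zero unless `i < j` and `i`, `j` are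
different from `i'`, `j'`. For such `i < j` put all factors at the colour `k`: `ph y i * ph z j`
gives `(1+qyx)(1+qzx)` for `k < i`, `(1+yx)(1+qzx)` for `i < k < j`, `(1+yx)(1+zx)` for `k > j`,
`1 + q z x_i` for `k = i` and `1 + y x_j` for `k = j`; the last product of `Ug` gives `1 + t x w`,
`1 + q t x w`, `1 + q^2 t x w` for `k` different from `i, j, i', j'`; the weights of the pairs
`(i,i'), (j,i')` give `1, q, q^2` at `k = i'` and similarly at `k = j'`. -/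
def S_PU : Prop := ∀ (R : Type) [CommRing R] (N : ℕ) (X : ℕ → R) (q t y z : R) (i' j' : Fin N),
  i' < j' → Ug q (fun k => X k) t (pr q (fun k => X k) y z) i' j' = X i' * X j' *
    PS2 N (fun k => (1 + q * y * X k) * (1 + q * z * X k) * sf q X i' j' 1 t k)
      (fun k => (1 + y * X k) * (1 + q * z * X k) * sf q X i' j' q (q * t) k)
      (fun k => (1 + y * X k) * (1 + z * X k) * sf q X i' j' (q ^ 2) (q ^ 2 * t) k)
      (em X i' j' (q * z)) (em X i' j' y)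

/-- TASK CU (`Ug` on `C(s)`). As `S_PU`; `Ct s i j` gives `1 + q^2 s x`, `1 + q s x`, `1 + s x` for
`k < i`, `i < k < j`, `k > j` and nothing at `k = i`, `k = j`. -/
def S_CU : Prop := ∀ (R : Type) [CommRing R] (N : ℕ) (X : ℕ → R) (q t s : R) (i' j' : Fin N),
  i' < j' → Ug q (fun k => X k) t (Ct q (fun k => X k) s) i' j' = X i' * X j' *
    PS2 N (fun k => (1 + q ^ 2 * s * X k) * sf q X i' j' 1 t k)
      (fun k => (1 + q * s * X k) * sf q X i' j' q (q * t) k)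
      (fun k => (1 + s * X k) * sf q X i' j' (q ^ 2) (q ^ 2 * t) k)
      (em X i' j' 0) (em X i' j' 0)

/-- TASK WU (`Wg` on `z x_k φ_z(k)`). As `S_PU` with one particle. -/
def S_WU : Prop := ∀ (R : Type) [CommRing R] (N : ℕ) (X : ℕ → R) (q t z : R) (i' j' : Fin N),
  i' < j' → Wg q (fun k => X k) t (fun k => z * X k * ph q (fun k => X k) z k) i' j' =
    X i' * X j' * PS1 N (fun k => (1 + q * z * X k) * sf q X i' j' 1 t k)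
      (fun k => (1 + z * X k) * sf q X i' j' q (q * t) k) (fun k => z * em X i' j' 0 k)

/-- TASK EV (the right-hand sides as products over the three regions). Split `Fin N` into
`k < i'`, `i'`, `i' < k < j'`, `j'`, `k > j'` (`Fin.prod_univ_eq_prod_range`, or
`Finset.prod_range` and splitting of `range N`). -/
def S_EV : Prop := ∀ (R : Type) [CommRing R] (N : ℕ) (X : ℕ → R) (q : R) (i' j' : Fin N),
  i' < j' → ∀ L1 L2 L3 : R → R, (∀ z, L1 z = ∏ k ∈ range i', (1 + z * X k)) →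
  (∀ z, L2 z = ∏ k ∈ Ico (i' + 1 : ℕ) j', (1 + z * X k)) →
  (∀ z, L3 z = ∏ k ∈ Ico (j' + 1 : ℕ) N, (1 + z * X k)) →
  (∀ z, Ez (fun k : Fin N => X k) z =
    L1 z * (1 + z * X i') * L2 z * (1 + z * X j') * L3 z) ∧
  (∀ y z, pr q (fun k => X k) y z i' j' = X i' * X j' * (L1 (q * y) * L1 (q * z) *
    (1 + q * z * X i') * (L2 y * L2 (q * z)) * (1 + y * X j') * (L3 y * L3 z))) ∧
  (∀ t, Ct q (fun k => X k) t i' j' = X i' * X j' * (L1 (q ^ 2 * t) * L2 (q * t) * L3 t))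

/-- TASK RG4 (diagonalization, four states). Induction on `e`. With `x = X e` and the diagonal
elements `d0 = (1+q^2ux)(1+qvx)(1+τx)`, `du = (1+qux)(1+qvx)(1+qτx)`, `dv = (1+q^2ux)(1+vx)(1+qτx)`,
`d3 = (1+qux)(1+vx)(1+q^2τx)`: `du - d0 = (1-q)(qu-τ) x (1+qvx)`,
`dv - d0 = (1-q)(v-τ) x (1+q^2ux)`, `d3 - du = (1-q)(v-qτ) x (1+qux)`,
`d3 - dv = (1-q) q (u-τ) x (1+vx)`; compare the coefficients of `p0, pu, pv, p3`: four identities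
for the last component (`field_simp`, `ring`). -/
def S_RG4 : Prop := ∀ (K : Type) [Field K] (q u v τ : K), q ≠ 0 → 1 - q ≠ 0 → v - u ≠ 0 →
  v - q ^ 2 * u ≠ 0 → q * u - τ ≠ 0 → v - τ ≠ 0 → u - τ ≠ 0 → v - q * τ ≠ 0 →
  ∀ (X : ℕ → K) (s e : ℕ), s ≤ e → ∀ V : ℕ → Fin 4 → K,
  (∀ k, s ≤ k → k < e → V (k + 1) = sp q u v τ (X k) (V k)) →
  V e = rg q u v τ
    (∏ k ∈ Ico s e, ((1 + q ^ 2 * u * X k) * (1 + q * v * X k) * (1 + τ * X k)))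
    (∏ k ∈ Ico s e, ((1 + q * u * X k) * (1 + q * v * X k) * (1 + q * τ * X k)))
    (∏ k ∈ Ico s e, ((1 + q ^ 2 * u * X k) * (1 + v * X k) * (1 + q * τ * X k)))
    (∏ k ∈ Ico s e, ((1 + q * u * X k) * (1 + v * X k) * (1 + q ^ 2 * τ * X k))) (V s)

/-- TASK RG3 (diagonalization, three states and two states). As `S_RG4`:
`d1 - d0 = (1-q)(qs-τ) x`, `d3 - d1 = (1-q)(s-qτ) x`; two states: `d1 - d0 = (1-q)(z-τ) x`. -/
def S_RG3 : Prop := (∀ (K : Type) [Field K] (q s τ : K), 1 - q ≠ 0 → 1 + q ≠ 0 →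
  q * s - τ ≠ 0 → s - τ ≠ 0 → s - q * τ ≠ 0 →
  ∀ (X : ℕ → K) (a e : ℕ), a ≤ e → ∀ V : ℕ → Fin 3 → K,
  (∀ k, a ≤ k → k < e → V (k + 1) = sp3 q s τ (X k) (V k)) →
  V e = rg3 q s τ (∏ k ∈ Ico a e, ((1 + q ^ 2 * s * X k) * (1 + τ * X k)))
    (∏ k ∈ Ico a e, ((1 + q * s * X k) * (1 + q * τ * X k)))
    (∏ k ∈ Ico a e, ((1 + s * X k) * (1 + q ^ 2 * τ * X k))) (V a)) ∧
  (∀ (K : Type) [Field K] (q z τ : K), 1 - q ≠ 0 → z - τ ≠ 0 →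
  ∀ (X : ℕ → K) (a e : ℕ), a ≤ e → ∀ V : ℕ → Fin 2 → K,
  (∀ k, a ≤ k → k < e → V (k + 1) = sp2 q z τ (X k) (V k)) →
  V e = rg2 q z τ (∏ k ∈ Ico a e, ((1 + q * z * X k) * (1 + τ * X k)))
    (∏ k ∈ Ico a e, ((1 + z * X k) * (1 + q * τ * X k))) (V a))

/-- TASK CHB (identity of rational functions; 16 chains). Both sides are linear in the monomials
`a_α b_β c_γ`; the left-hand side has the monomials with `α ≤ β ≤ γ` for the order `0 < u, v < 3`.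
Compare the coefficients: 16 identities of rational functions in `q, t, u, v, X, Y`, each by
`field_simp; ring` (tested: some seconds each), then `linear_combination`. The coefficients of
`a0 b0 c3` and `a0 b3 c3` are zero. -/
def S_CHB : Prop := ∀ (K : Type) [Field K] (q t u v X Y : K), q ≠ 0 → 1 - q ≠ 0 →
  u - t ≠ 0 → u - q * t ≠ 0 → u - q ^ 2 * t ≠ 0 → q * u - t ≠ 0 →
  v - t ≠ 0 → v - q * t ≠ 0 → v - q ^ 2 * t ≠ 0 → v - q ^ 3 * t ≠ 0 →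
  v - u ≠ 0 → v - q ^ 2 * u ≠ 0 → ∀ (a0 au av a3 b0 bu bv b3 c0 cu cv c3 : K),
  rg q u v t c0 cu cv c3 (si q u v Y (rg q u v (q * t) b0 bu bv b3 (si q u v X
    (rg q u v (q ^ 2 * t) a0 au av a3 ![1, 0, 0, 0])))) 3 =
  u * v * ((1 + q ^ 2 * t * X) * (1 + q ^ 2 * t * Y)) *
      (a0 * bu * c3 * (1 + q * v * X) * (1 + q * u * Y) / (v - u) +
        q * (a0 * bv * c3) * (1 + q ^ 2 * u * X) * (1 + v * Y) / (v - q ^ 2 * u)) /
      ((u - t) * (u - q * t) * (v - q * t) * (v - q ^ 2 * t)) +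
    q * v * ((1 + q * u * X) * (1 + q * u * Y)) *
      (au * bu * c3 * (1 + q * v * X) * (1 + q ^ 2 * t * Y) / (v - q * t) +
        q * (au * b3 * c3) * (1 + q ^ 3 * t * X) * (1 + v * Y) / (v - q ^ 3 * t)) /
      ((1 - q) * (u - q * t) * (v - q ^ 2 * t) * (v - u)) -
    v * ((1 + q ^ 2 * u * X) * (1 + q ^ 2 * u * Y)) *
      (a0 * b0 * cv * (1 + q * v * X) * (1 + q * t * Y) / (v - t) +
        q * (a0 * bv * cv) * (1 + q ^ 2 * t * X) * (1 + v * Y) / (v - q ^ 2 * t)) /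
      ((1 - q) * (u - t) * (v - q ^ 2 * u) * (v - q * t)) +
    q ^ 3 * u * ((1 + v * X) * (1 + v * Y)) *
      (av * bv * c3 * (1 + q ^ 2 * u * X) * (1 + q ^ 2 * t * Y) / (q * u - q * t) +
        q * (av * b3 * c3) * (1 + q ^ 3 * t * X) * (1 + q * u * Y) / (q * u - q ^ 3 * t)) /
      ((1 - q) * (v - q ^ 2 * t) * (u - q * t) * (v - q ^ 2 * u)) -
    u * ((1 + q * v * X) * (1 + q * v * Y)) *
      (a0 * b0 * cu * (1 + q ^ 2 * u * X) * (1 + q * t * Y) / (q * u - t) +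
        q * (a0 * bu * cu) * (1 + q ^ 2 * t * X) * (1 + q * u * Y) / (q * u - q ^ 2 * t)) /
      ((1 - q) * (v - q * t) * (v - u) * (u - t)) +
    (v - q * u) * (a0 * b0 * c0) * ((1 + q ^ 2 * u * X) * (1 + q * v * X)) *
      ((1 + q ^ 2 * u * Y) * (1 + q * v * Y)) /
      ((1 - q) ^ 2 * (q * u - t) * (v - t) * (v - q ^ 2 * u) * (v - u)) -
    q ^ 2 * (av * bv * cv) * ((1 + q ^ 2 * u * X) * (1 + v * X)) *
      ((1 + q ^ 2 * u * Y) * (1 + v * Y)) /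
      ((1 - q) ^ 2 * (u - t) * (v - q ^ 2 * u) * (v - q ^ 2 * t)) -
    q * (au * bu * cu) * ((1 + q * v * X) * (1 + q * u * X)) *
      ((1 + q * v * Y) * (1 + q * u * Y)) /
      ((1 - q) ^ 2 * (v - q * t) * (v - u) * (u - q * t)) +
    q ^ 4 * (v - q * u) * (a3 * b3 * c3) * ((1 + q * u * X) * (1 + v * X)) *
      ((1 + q * u * Y) * (1 + v * Y)) /
      ((1 - q) ^ 2 * (v - u) * (v - q ^ 2 * u) * (u - q ^ 2 * t) * (v - q ^ 3 * t))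

/-- TASK UB. Fix `i' < j'`, `X : ℕ → K` with `X k = x k` for `k < N`, `x = fun k => X k`. By `S_PU`
(for `pr (q u) v` and `pr v (q u)`; `Ug` is linear) and the third part of `S_TM`, the left-hand side
is `X i' X j' V N 3`, where `V 0 = ![1,0,0,0]`, `V (k+1) = sp q u v τ_k (X k) (V k)` for
`k ≠ i', j'` with `τ_k = q^2 t, q t, t` for `k < i'`, `i' < k < j'`, `k > j'`, and
`V (k+1) = si q u v (X k) (V k)` for `k = i', j'`. `S_RG4` on the three regions; then `S_CHB` with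
`a0 = L1(q^2u) L1(qv) L1(q^2t)`, `au = L1(qu) L1(qv) L1(q^3t)`, `av = L1(q^2u) L1(v) L1(q^3t)`,
`a3 = L1(qu) L1(v) L1(q^4t)`, `b0 = L2(q^2u) L2(qv) L2(qt)`, `bu = L2(qu) L2(qv) L2(q^2t)`,
`bv = L2(q^2u) L2(v) L2(q^2t)`, `b3 = L2(qu) L2(v) L2(q^3t)`, `c0 = L3(q^2u) L3(qv) L3(t)`,
`cu = L3(qu) L3(qv) L3(qt)`, `cv = L3(q^2u) L3(v) L3(qt)`, `c3 = L3(qu) L3(v) L3(q^2t)` and
`S_EV` for the right-hand side. -/
def S_UB : Prop := S_TM → S_PU → S_EV → S_RG4 → S_CHB →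
  ∀ (K : Type) [Field K] (N : ℕ) (x : Fin N → K) (q t u v : K), q ≠ 0 → 1 - q ≠ 0 →
  u - t ≠ 0 → u - q * t ≠ 0 → u - q ^ 2 * t ≠ 0 → q * u - t ≠ 0 →
  v - t ≠ 0 → v - q * t ≠ 0 → v - q ^ 2 * t ≠ 0 → v - q ^ 3 * t ≠ 0 →
  v - u ≠ 0 → v - q ^ 2 * u ≠ 0 → ∀ i j : Fin N, i < j →
  Ug q x t (Bf q x u v) i j =
    u * v * Ez x (q ^ 2 * t) * Bf q x u v i j /
      ((u - t) * (u - q * t) * (v - q * t) * (v - q ^ 2 * t)) +
    q * v * Ez x (q * u) * Bf q x (q * t) v i j /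
      ((1 - q) * (u - q * t) * (v - q ^ 2 * t) * (v - u)) -
    v * Ez x (q ^ 2 * u) * Bf q x t v i j /
      ((1 - q) * (u - t) * (v - q ^ 2 * u) * (v - q * t)) +
    q ^ 3 * u * Ez x v * Bf q x (q * t) (q * u) i j /
      ((1 - q) * (v - q ^ 2 * t) * (u - q * t) * (v - q ^ 2 * u)) -
    u * Ez x (q * v) * Bf q x t (q * u) i j /
      ((1 - q) * (v - q * t) * (v - u) * (u - t)) +
    (v - q * u) * Ez x (q ^ 2 * u) * Ez x (q * v) * Ct q x t i j /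
      ((1 - q) ^ 2 * (q * u - t) * (v - t) * (v - q ^ 2 * u) * (v - u)) -
    q ^ 2 * Ez x (q ^ 2 * u) * Ez x v * Ct q x (q * t) i j /
      ((1 - q) ^ 2 * (u - t) * (v - q ^ 2 * u) * (v - q ^ 2 * t)) -
    q * Ez x (q * v) * Ez x (q * u) * Ct q x (q * t) i j /
      ((1 - q) ^ 2 * (v - q * t) * (v - u) * (u - q * t)) +
    q ^ 4 * (v - q * u) * Ez x (q * u) * Ez x v * Ct q x (q ^ 2 * t) i j /
      ((1 - q) ^ 2 * (v - u) * (v - q ^ 2 * u) * (u - q ^ 2 * t) * (v - q ^ 3 * t))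

/-- TASK UBr. `S_UB` with `u = ρ v`, `t = θ ρ v`: `Db ρ v = v * Bf (ρ v) v` and similarly
`Db (q θ ρ) v = v Bf (q t) v`, `Db (θ ρ) v = v Bf t v`, `Db θ (q ρ v) = q u Bf (q t) (q u)`,
`Db (θ / q) (q ρ v) = q u Bf t (q u)`; multiply by `ρ v^3`. All `Ug` are linear in the function. -/
def S_UBr : Prop := S_TM → S_PU → S_EV → S_RG4 → S_CHB → S_UB →
  ∀ (K : Type) [Field K] (N : ℕ) (x : Fin N → K) (q θ ρ v : K), q ≠ 0 → 1 - q ≠ 0 →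
  ρ ≠ 0 → v ≠ 0 → 1 - θ ≠ 0 → 1 - q * θ ≠ 0 → 1 - q ^ 2 * θ ≠ 0 → q - θ ≠ 0 →
  1 - θ * ρ ≠ 0 → 1 - q * θ * ρ ≠ 0 → 1 - q ^ 2 * θ * ρ ≠ 0 → 1 - q ^ 3 * θ * ρ ≠ 0 →
  1 - ρ ≠ 0 → 1 - q ^ 2 * ρ ≠ 0 → ∀ i j : Fin N, i < j →
  ρ * v ^ 2 * Ug q x (θ * ρ * v) (Db q x ρ v) i j =
    Ez x (q ^ 2 * (θ * ρ * v)) * Db q x ρ v i j /
      ((1 - θ) * (1 - q * θ) * (1 - q * θ * ρ) * (1 - q ^ 2 * θ * ρ)) +
    q * Ez x (q * ρ * v) * Db q x (q * θ * ρ) v i j /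
      ((1 - q) * (1 - q * θ) * (1 - q ^ 2 * θ * ρ) * (1 - ρ)) -
    Ez x (q ^ 2 * ρ * v) * Db q x (θ * ρ) v i j /
      ((1 - q) * (1 - θ) * (1 - q ^ 2 * ρ) * (1 - q * θ * ρ)) +
    q ^ 2 * Ez x v * Db q x θ (q * ρ * v) i j /
      ((1 - q) * (1 - q ^ 2 * θ * ρ) * (1 - q * θ) * (1 - q ^ 2 * ρ)) -
    Ez x (q * v) * Db q x (θ / q) (q * ρ * v) i j /
      (q * (1 - q) * (1 - q * θ * ρ) * (1 - ρ) * (1 - θ)) +
    (1 - q * ρ) * Ez x (q ^ 2 * ρ * v) * Ez x (q * v) * Ct q x (θ * ρ * v) i j /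
      (q * (1 - q) ^ 2 * (1 - θ / q) * (1 - θ * ρ) * (1 - q ^ 2 * ρ) * (1 - ρ)) -
    q ^ 2 * Ez x (q ^ 2 * ρ * v) * Ez x v * Ct q x (q * (θ * ρ * v)) i j /
      ((1 - q) ^ 2 * (1 - θ) * (1 - q ^ 2 * ρ) * (1 - q ^ 2 * θ * ρ)) -
    q * Ez x (q * v) * Ez x (q * ρ * v) * Ct q x (q * (θ * ρ * v)) i j /
      ((1 - q) ^ 2 * (1 - q * θ * ρ) * (1 - ρ) * (1 - q * θ)) +
    q ^ 4 * (1 - q * ρ) * Ez x (q * ρ * v) * Ez x v * Ct q x (q ^ 2 * (θ * ρ * v)) i j /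
      ((1 - q) ^ 2 * (1 - ρ) * (1 - q ^ 2 * ρ) * (1 - q ^ 2 * θ) * (1 - q ^ 3 * θ * ρ))

/-- TASK CHC (identity of rational functions; 10 chains). As `S_CHB`, with three states. -/
def S_CHC : Prop := ∀ (K : Type) [Field K] (q t s X Y : K), q ≠ 0 → 1 - q ≠ 0 → 1 + q ≠ 0 →
  s - t ≠ 0 → s - q * t ≠ 0 → s - q ^ 2 * t ≠ 0 → s - q ^ 3 * t ≠ 0 → q * s - t ≠ 0 →
  ∀ (a0 a1 a3 b0 b1 b3 c0 c1 c3 : K),
  rg3 q s t c0 c1 c3 (si3 q s Y (rg3 q s (q * t) b0 b1 b3 (si3 q s X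
    (rg3 q s (q ^ 2 * t) a0 a1 a3 ![1, 0, 0])))) 2 =
  a0 * b0 * c0 * ((1 + q ^ 2 * s * X) * (1 + q ^ 2 * s * Y)) /
      ((1 + q) * (1 - q) ^ 2 * (s - t) * (q * s - t)) +
    q * s * (a1 * b1 * c3 * (1 + q * s * X) * (1 + q ^ 2 * t * Y) / (s - q * t) +
      q * (a1 * b3 * c3) * (1 + q ^ 3 * t * X) * (1 + s * Y) / (s - q ^ 3 * t)) /
      ((1 - q) * (s - q * t) * (s - q ^ 2 * t)) -
    s * (a0 * b0 * c1 * (1 + q ^ 2 * s * X) * (1 + q * t * Y) / (q * s - t) +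
      q * (a0 * b1 * c1) * (1 + q ^ 2 * t * X) * (1 + q * s * Y) / (q * s - q ^ 2 * t)) /
      ((1 - q) * (s - q * t) * (s - t)) +
    s ^ 2 * (a0 * b1 * c3) * ((1 + q ^ 2 * t * X) * (1 + q ^ 2 * t * Y)) /
      ((s - t) * (s - q * t) ^ 2 * (s - q ^ 2 * t)) +
    q ^ 4 * (a3 * b3 * c3) * ((1 + s * X) * (1 + s * Y)) /
      ((1 - q) * (1 - q ^ 2) * (s - q ^ 2 * t) * (s - q ^ 3 * t)) -
    q * (a1 * b1 * c1) * ((1 + q * s * X) * (1 + q * s * Y)) /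
      ((1 - q) ^ 2 * (s - q * t) ^ 2)

/-- TASK UCr. As `S_UB` with `S_CU`, `S_RG3`, `S_CHC`: for `t = θ s`,
`Ug t (Ct s) i' j' = X i' X j' * (third component)`, with
`a0 = L1(q^2 s) L1(q^2 t)`, `a1 = L1(q s) L1(q^3 t)`, `a3 = L1(s) L1(q^4 t)`,
`b0 = L2(q^2 s) L2(q t)`, `b1 = L2(q s) L2(q^2 t)`, `b3 = L2(s) L2(q^3 t)`,
`c0 = L3(q^2 s) L3(t)`, `c1 = L3(q s) L3(q t)`, `c3 = L3(s) L3(q^2 t)`; then multiply by `s^2`
(`Db (q θ) s = s Bf (q t) s`, `Db (θ/q) (q s) = q s Bf t (q s)`). -/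
def S_UCr : Prop := S_TM → S_CU → S_EV → S_RG3 → S_CHC →
  ∀ (K : Type) [Field K] (N : ℕ) (x : Fin N → K) (q θ s : K), q ≠ 0 → 1 - q ≠ 0 →
  1 + q ≠ 0 → s ≠ 0 → 1 - θ ≠ 0 → 1 - q * θ ≠ 0 → 1 - q ^ 2 * θ ≠ 0 → 1 - q ^ 3 * θ ≠ 0 →
  q - θ ≠ 0 → ∀ i j : Fin N, i < j →
  s ^ 2 * Ug q x (θ * s) (Ct q x s) i j =
    Ez x (q ^ 2 * s) * Ct q x (θ * s) i j /
      ((1 + q) * (1 - q) ^ 2 * q * (1 - θ) * (1 - θ / q)) +
    q * Db q x (q * θ) s i j / ((1 - q) * (1 - q * θ) * (1 - q ^ 2 * θ)) -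
    Db q x (θ / q) (q * s) i j / (q * (1 - q) * (1 - q * θ) * (1 - θ)) +
    Ez x (q ^ 2 * (θ * s)) * Ct q x s i j /
      ((1 - θ) * (1 - q * θ) ^ 2 * (1 - q ^ 2 * θ)) +
    q ^ 4 * Ez x s * Ct q x (q ^ 2 * (θ * s)) i j /
      ((1 - q) * (1 - q ^ 2) * (1 - q ^ 2 * θ) * (1 - q ^ 3 * θ)) -
    q * Ez x (q * s) * Ct q x (q * (θ * s)) i j / ((1 - q) ^ 2 * (1 - q * θ) ^ 2)

/-- TASK WEr. As `S_UCr` with two states; here the chain identity is (`a0 = L1(q z) L1(q^2 t)`,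
`a1 = L1(z) L1(q^3 t)`, `b0 = L2(q z) L2(q t)`, `b1 = L2(z) L2(q^2 t)`, `c0 = L3(q z) L3(t)`,
`c1 = L3(z) L3(q t)`, `t = θ z`)
`(second component of rg2 t c (si2 Y (rg2 (q t) b (si2 X (rg2 (q^2 t) a ![1,0])))))
 = z^2 (a0 b0 c1 (1+qzX)(1+qtY)/(z-t) + q a0 b1 c1 (1+q^2tX)(1+zY)/(z-q^2t)) / (z-qt)
 - z a0 b0 c0 (1+qzX)(1+qzY) / ((1-q)(z-t)) + q^2 z a1 b1 c1 (1+zX)(1+zY) / ((1-q)(z-q^2t))`
(4 chains). -/
def S_WEr : Prop := S_TM → S_WU → S_EV → S_RG3 →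
  ∀ (K : Type) [Field K] (N : ℕ) (x : Fin N → K) (q θ z : K), q ≠ 0 → 1 - q ≠ 0 →
  z ≠ 0 → 1 - θ ≠ 0 → 1 - q * θ ≠ 0 → 1 - q ^ 2 * θ ≠ 0 → ∀ i j : Fin N, i < j →
  Wg q x (θ * z) (fun k => z * x k * ph q x z k) i j =
    Db q x θ z i j / (1 - q * θ) -
    Ez x (q * z) * Ct q x (θ * z) i j / ((1 - q) * (1 - θ)) +
    q ^ 2 * Ez x z * Ct q x (q * (θ * z)) i j / ((1 - q) * (1 - q ^ 2 * θ))

end Pool.Agent.SWD
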