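import Pool.Agent.Lib.MP_263316_co.CB.BaseC
import Pool.Agent.Lib.MP_263316_co.CB.SpecB

/-!
MP_263316_co, part CB3: extraction of coefficients from the generating functions (helper91).
Definitions in CB/BaseC.lean. The results are `S_RAWB`, `S_RAWC`, `S_RAWW` (closed formulas for
`UU l (bt n a)`, `UU l (Cn P)`, `Wo l (eH c)`); these three have been checked by computer in exactly
this form.

`tri l` (AB/Base.lean) is the finset of the triples with sum `l`, `mem_tri`.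
-/

set_option autoImplicit false

namespace Pool.Agent.SWD

open Finset Pool.Agent.SWC Pool.Agent.SWB

/-- TASK ES (finite expansions). `∏_{k ∈ s} (1 + z y_k) = ∑_{C ⊆ s} z^{|C|} ∏_{k ∈ C} y_k`
(`Finset.prod_one_add` / `prod_add`, grouped by `|C|`: `Finset.sum_powerset_apply_card` or
`Finset.sum_fiberwise`; `powersetCard n s` is empty for `n > |s|`). -/
def S_ES : Prop := ∀ (R : Type) [CommRing R] (N : ℕ) (q : R) (x : Fin N → R),
  (∀ z, Ez x z = ∑ p ∈ range (N + 1), es x p * z ^ p) ∧ (∀ p, N < p → es x p = 0) ∧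
  (∀ i z, ph q x z i = ∑ c ∈ range (N + 1), fh q x c i * z ^ c) ∧
  (∀ i c, N ≤ c → fh q x c i = 0) ∧ (∀ i c, N < c → eH q x c i = 0) ∧
  (∀ i j t, Ct q x t i j = ∑ m ∈ range (N + 1), Cn q x (m + 2) i j * t ^ m) ∧
  (∀ i j m, N < m → Cn q x (m + 2) i j = 0) ∧
  (∀ i j n a, 2 * N < n → bt q x n a i j = 0)

/-- TASK UGS (`Ug`, `Wg` as finite sums). As `S_ES`, for every pair of colours `i, j` separately,
then exchange the sums. -/
def S_UGS : Prop := ∀ (R : Type) [CommRing R] (N : ℕ) (q : R) (x : Fin N → R),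
  (∀ t f i j, Ug q x t f i j = ∑ l ∈ range (N + 1), UU q x l f i j * t ^ l) ∧
  (∀ l f i j, N < l → UU q x l f i j = 0) ∧
  (∀ t G i j, Wg q x t G i j = ∑ l ∈ range (N + 1), Wo q x l G i j * t ^ l) ∧
  (∀ l G i j, N < l → Wo q x l G i j = 0)

/-- TASK MP (compatibility with ring homomorphisms). `simp [map_sum, map_prod, map_mul, ...]`; for
`if` use `apply_ite` or `split_ifs`. -/
def S_MP : Prop := ∀ (R R' : Type) [CommRing R] [CommRing R'] (φ : R →+* R') (N : ℕ) (q : R)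
  (x : Fin N → R),
  (∀ p, φ (es x p) = es (fun k => φ (x k)) p) ∧
  (∀ c j, φ (eH q x c j) = eH (φ q) (fun k => φ (x k)) c j) ∧
  (∀ n a i j, φ (bt q x n a i j) = bt (φ q) (fun k => φ (x k)) n a i j) ∧
  (∀ n i j, φ (Cn q x n i j) = Cn (φ q) (fun k => φ (x k)) n i j) ∧
  (∀ n i j, φ (Sn q x n i j) = Sn (φ q) (fun k => φ (x k)) n i j) ∧
  (∀ z, φ (Ez x z) = Ez (fun k => φ (x k)) (φ z)) ∧
  (∀ z i, φ (ph q x z i) = ph (φ q) (fun k => φ (x k)) (φ z) i) ∧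
  (∀ t i j, φ (Ct q x t i j) = Ct (φ q) (fun k => φ (x k)) (φ t) i j) ∧
  (∀ y z i j, φ (pr q x y z i j) = pr (φ q) (fun k => φ (x k)) (φ y) (φ z) i j) ∧
  (∀ l f i j, φ (UU q x l f i j) = UU (φ q) (fun k => φ (x k)) l (fun i j => φ (f i j)) i j) ∧
  (∀ l G i j, φ (Wo q x l G i j) = Wo (φ q) (fun k => φ (x k)) l (fun k => φ (G k)) i j) ∧
  (∀ t f i j, φ (Ug q x t f i j) =
    Ug (φ q) (fun k => φ (x k)) (φ t) (fun i j => φ (f i j)) i j) ∧
  (∀ t G i j, φ (Wg q x t G i j) =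
    Wg (φ q) (fun k => φ (x k)) (φ t) (fun k => φ (G k)) i j) ∧
  (∀ w c i j, φ (bw q x w c i j) = bw (φ q) (fun k => φ (x k)) (φ w) c i j)

/-- TASK DSt (the Bethe form of the generating function of `bt`), in `A[[X]]`. Compare the
coefficients of `X^M`, for `i < j`; put `y = η X`. Left-hand side: `∑_m y^m bw(m+1)`, and
`bt (n+2) (m+1) i j = ∑_{r=1}^{n+1} ([r ≤ m+1] q^(r-1) + [n+1-r ≤ m] q^(2m+r-n)) E_r(i) E_{n+2-r}(j)`;
`(1-y) ∑_m [r ≤ m+1] y^m = y^(r-1)` and `(1-q^2y) ∑_m [n+1-r ≤ m] q^(2m+r-n) y^m =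
q (q y)^(n+1-r)`; so `(1-y)(1-q^2y) ∑_m y^m bt(n+2,m+1) = ∑_r ((1-q^2y) (qy)^(r-1) +
(1-y) q (qy)^(n+1-r)) E_r(i) E_{n+2-r}(j)`. Multiply by `w^n` and sum over `n`:
`∑_{r,s ≥ 1} E_r(i) E_s(j) w^(r+s-2) (q y)^(r-1) = x_i x_j φ_{q y w}(i) φ_w(j)` by `S_ES` and
`E_{c+1} = x f_c`. -/
def S_DSt : Prop := S_ES → ∀ (A : Type) [CommRing A] (N : ℕ) (q : A) (x : Fin N → A) (η w : A)
  (i j : Fin N), i < j →
  (1 - PowerSeries.C η * PowerSeries.X) * (1 - PowerSeries.C (q ^ 2 * η) * PowerSeries.X) *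
      DS q x η w i j =
    (1 - PowerSeries.C (q ^ 2 * η) * PowerSeries.X) *
      pr (PowerSeries.C q) (fun k => PowerSeries.C (x k))
        (PowerSeries.C (q * η * w) * PowerSeries.X) (PowerSeries.C w) i j +
    (1 - PowerSeries.C η * PowerSeries.X) * (PowerSeries.C q *
      pr (PowerSeries.C q) (fun k => PowerSeries.C (x k)) (PowerSeries.C w)
        (PowerSeries.C (q * η * w) * PowerSeries.X) i j)

/-- TASK SE (special series over a ring `A`). `PowerSeries.ext`, `PowerSeries.coeff_mul`,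
`coeff_succ_X_mul`, `coeff_C_mul`; (2) multiply by `(1 - X) (1 - C q X)`; (4) `S_ES`;
(5) product of three series: `tri l` is the set of the `(i, j, m)` with sum `l`
(`Finset.Nat.sum_antidiagonal...`; `coeff_mul` twice). -/
def S_SE : Prop := S_ES → ∀ (A : Type) [CommRing A],
  (∀ c : A, (1 - PowerSeries.C c * PowerSeries.X) * gs c = 1) ∧
  (∀ c q : A, gs c * gs (q * c) = PowerSeries.mk fun n => c ^ n * qn q (n + 1)) ∧
  (∀ c : A, gs c * gs c = PowerSeries.mk fun n => ((n + 1 : ℕ) : A) * c ^ n) ∧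
  (∀ (N : ℕ) (q : A) (x : Fin N → A) (c : A),
    Ez (fun k => PowerSeries.C (x k)) (PowerSeries.C c * PowerSeries.X) =
      PowerSeries.mk (fun p => c ^ p * es x p) ∧
    (∀ i j, Ct (PowerSeries.C q) (fun k => PowerSeries.C (x k))
      (PowerSeries.C c * PowerSeries.X) i j =
        PowerSeries.mk (fun m => c ^ m * Cn q x (m + 2) i j)) ∧
    (∀ i, ph (PowerSeries.C q) (fun k => PowerSeries.C (x k))
      (PowerSeries.C c * PowerSeries.X) i = PowerSeries.mk (fun m => c ^ m * fh q x m i))) ∧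
  (∀ (l : ℕ) (F G H : PowerSeries A), PowerSeries.coeff l (F * G * H) =
    ∑ t ∈ tri l, PowerSeries.coeff t.1 F * PowerSeries.coeff t.2.1 G *
      PowerSeries.coeff t.2.2 H)

/-- TASK SF (a series over a field). `(1 - q ρ) ∑ ρ^k ∑ (q^2 ρ)^k`: multiply by
`(1 - ρ) (1 - q^2 ρ)`, or compare coefficients:
`∑_{s ≤ k} q^(2s) - q ∑_{s ≤ k-1} q^(2s) = (1 + q^(2k+1)) / (1 + q)`. -/
def S_SF : Prop := ∀ (K : Type) [Field K] (q : K), 1 - q ≠ 0 → 1 + q ≠ 0 →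
  (1 - kA q * rA) * gs (1 : PB K) * gs (kB (q ^ 2)) =
    gA (fun k => (1 + q ^ (2 * k + 1)) / (1 + q))

/-- TASK UBS (the identity in the ring of power series). Let `L = FractionRing (PS K)` (`PS K` is a
domain). Apply `S_UBr` in `L` to the images of `kS q`, `tS`, `rS`, `vS`, `kS (x k)` (all the
hypotheses: the elements `1 - c θ` etc. have constant term 1, so they are not zero; `q - θ` has the
constant term `q`). `Db` at `(ρ, v)`, `(q θ ρ, v)`, `(θ ρ, v)`, `(θ, q ρ v)`, `(θ / q, q ρ v)` is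
the image of `C (DS (kB q) _ 1 vB)`, `DS (kA q) _ (kA q * rA) vA`, `DS (kA q) _ rA vA`,
`DS (kA q) _ 1 (kA q * rA * vA)`, `DS (kA q) _ (kA q⁻¹) (kA q * rA * vA)` by `S_DSt` (divide by
the two factors), `1 / (1 - c θ)` is the image of `gs c` by `S_SE`, and `(1 - q ρ) / ((1 - ρ)
(1 - q^2 ρ))` is the image of `C (gA ...)` by `S_SF`. `S_MP` for the ring homomorphisms `C` and
`algebraMap`. Then use the injectivity of `PS K → L`. -/
def S_UBS : Prop := S_ES → S_MP → S_DSt → S_SE → S_SF →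
  S_TM → S_PU → S_EV → S_RG4 → S_CHB → S_UB → S_UBr →
  ∀ (K : Type) [Field K] (N : ℕ) (q : K) (x : Fin N → K), q ≠ 0 → 1 - q ≠ 0 → 1 + q ≠ 0 →
  ∀ i j : Fin N, i < j →
  rS * vS ^ 2 * Ug (kS q) (fun k => kS (x k)) (tS * rS * vS)
      (fun i j => PowerSeries.C (DS (kB q) (fun k => kB (x k)) 1 vB i j)) i j =
    Ez (fun k => kS (x k)) (kS q ^ 2 * (tS * rS * vS)) *
      PowerSeries.C (DS (kB q) (fun k => kB (x k)) 1 vB i j) *
      (gs 1 * gs (kA q)) * (gs (kA q * rA) * gs (kA q ^ 2 * rA)) +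
    kS (q / (1 - q)) * PowerSeries.C (Ez (fun k => kA (x k)) (kA q * rA * vA) *
      gA (fun _ => 1)) * DS (kA q) (fun k => kA (x k)) (kA q * rA) vA i j *
      gs (kA q) * gs (kA (q ^ 2) * rA) -
    kS (1 / (1 - q)) * PowerSeries.C (Ez (fun k => kA (x k)) (kA (q ^ 2) * rA * vA) *
      gA (fun k => q ^ (2 * k))) * DS (kA q) (fun k => kA (x k)) (kA 1 * rA) vA i j *
      gs (kA 1) * gs (kA q * rA) +
    kS (q ^ 2 / (1 - q)) * PowerSeries.C (Ez (fun k => kA (x k)) (kA 1 * vA) *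
      gA (fun k => q ^ (2 * k))) *
      DS (kA q) (fun k => kA (x k)) (kA 1) (kA q * rA * vA) i j *
      gs (kA q) * gs (kA (q ^ 2) * rA) -
    kS (1 / (q * (1 - q))) * PowerSeries.C (Ez (fun k => kA (x k)) (kA q * vA) *
      gA (fun _ => 1)) *
      DS (kA q) (fun k => kA (x k)) (kA q⁻¹) (kA q * rA * vA) i j *
      gs (kA 1) * gs (kA q * rA) +
    kS (1 / (q * (1 - q) ^ 2)) * PowerSeries.C (Ez (fun k => kA (x k)) (kA (q ^ 2) * rA * vA) *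
      Ez (fun k => kA (x k)) (kA q * vA) * gA (fun k => (1 + q ^ (2 * k + 1)) / (1 + q))) *
      Ct (kS q) (fun k => kS (x k)) (kS 1 * (tS * rS * vS)) i j *
      gs (kA q⁻¹) * gs (kA 1 * rA) -
    kS (q ^ 2 / (1 - q) ^ 2) * PowerSeries.C (Ez (fun k => kA (x k)) (kA (q ^ 2) * rA * vA) *
      Ez (fun k => kA (x k)) (kA 1 * vA) * gA (fun k => q ^ (2 * k))) *
      Ct (kS q) (fun k => kS (x k)) (kS q * (tS * rS * vS)) i j *
      gs (kA 1) * gs (kA (q ^ 2) * rA) -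
    kS (q / (1 - q) ^ 2) * PowerSeries.C (Ez (fun k => kA (x k)) (kA q * rA * vA) *
      Ez (fun k => kA (x k)) (kA q * vA) * gA (fun _ => 1)) *
      Ct (kS q) (fun k => kS (x k)) (kS q * (tS * rS * vS)) i j *
      gs (kA q) * gs (kA q * rA) +
    kS (q ^ 4 / (1 - q) ^ 2) * PowerSeries.C (Ez (fun k => kA (x k)) (kA q * rA * vA) *
      Ez (fun k => kA (x k)) (kA 1 * vA) * gA (fun k => (1 + q ^ (2 * k + 1)) / (1 + q))) *
      Ct (kS q) (fun k => kS (x k)) (kS (q ^ 2) * (tS * rS * vS)) i j *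
      gs (kA (q ^ 2)) * gs (kA (q ^ 3) * rA)

/-- TASK X0 (left-hand side of `S_UBS`). `S_UGS`, and `UU l` commutes with the coefficient of
`C (DS ...)` (which is constant in `θ`): the coefficient of `θ^l` is `ρ^(l+1) v^(l+2)` times
`UU (C C q) _ l` of `(DS (kB q) _ 1 vB i j) i j`, the coefficient of `ρ^(l+a)` is `v^(l+2)` times
`UU l` of `bw (kB q) _ vB a`, and the coefficient of `v^(l+n)` is `UU l` of `bt n a` (the
coefficient of `v^(n-2)` in `bw _ _ vB a`; `bt n a = 0` for `n > 2 N`). `UU` with constant `q, x` is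
linear in `f` with coefficients in `K`: for an additive map `ψ` with
`ψ (k c * s) = c * ψ s`, `ψ (UU (k q) (k x) l f) = UU q x l (ψ f)`. -/
def S_X0 : Prop := S_ES → S_UGS → S_MP → ∀ (K : Type) [CommRing K] (N : ℕ) (q : K)
  (x : Fin N → K) (i j : Fin N) (l a n : ℕ), 1 ≤ a → 2 ≤ n →
  exS l (l + a) (l + n) (rS * vS ^ 2 * Ug (kS q) (fun k => kS (x k)) (tS * rS * vS)
    (fun i j => PowerSeries.C (DS (kB q) (fun k => kB (x k)) 1 vB i j)) i j) =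
  UU q x l (bt q x n a) i j

/-- TASK X1 (first term). By `S_SE` (with `S_MP`), the first factor is `mk (p ↦ (kA q^2 * rA *
vA)^p * kA e_p)`, the third `mk (n ↦ [n+1])`, the fourth `mk (n ↦ (kA q * rA)^n [n+1])`, the second
is constant. `(i, j, p) = t`; the coefficient of `ρ^(l+a)` selects `ρ^(a+i)` in `DS _ _ 1 vB`, that
is `bw _ _ vB (a+i+1)`. -/
def S_X1 : Prop := S_ES → S_MP → S_SE → ∀ (K : Type) [CommRing K] (N : ℕ) (q : K)
  (x : Fin N → K) (i j : Fin N) (l a n : ℕ),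
  exS l (l + a) (l + n) (Ez (fun k => kS (x k)) (kS q ^ 2 * (tS * rS * vS)) *
      PowerSeries.C (DS (kB q) (fun k => kB (x k)) 1 vB i j) *
      (gs 1 * gs (kA q)) * (gs (kA q * rA) * gs (kA q ^ 2 * rA))) =
  ∑ t ∈ tri l, q ^ (2 * t.2.2 + t.2.1) * qn q (t.1 + 1) * qn q (t.2.1 + 1) * es x t.2.2 *
    bt q x (n + 2 + t.1 + t.2.1) (a + 1 + t.1) i j

/-- TASK X2 (terms 2 and 3). The coefficient of `θ^l` is the sum over `t = (i, j, m)` of
`P * kA c1^i (kA c2 * rA)^j (kA η * rA)^m bw _ _ vA (m+1)`, `P` the constant factor,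
`P = mk (p ↦ (kB ε * vB)^p e_p) * gA Γ` in `PA` (`S_SE`); the coefficient of `ρ^(l+a)` of the
product selects `ρ^(a+i)` in `P`, and then `v^(l+n)`. -/
def S_X2 : Prop := S_ES → S_MP → S_SE → ∀ (K : Type) [CommRing K] (N : ℕ) (q : K)
  (x : Fin N → K) (i j : Fin N) (l a n : ℕ) (c1 c2 η ε : K) (Γ : ℕ → K),
  exS l (l + a) (l + n) (PowerSeries.C (Ez (fun k => kA (x k)) (kA ε * rA * vA) * gA Γ) *
      DS (kA q) (fun k => kA (x k)) (kA η * rA) vA i j * gs (kA c1) * gs (kA c2 * rA)) =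
  ∑ t ∈ tri l, ∑ p ∈ antidiagonal (a + t.1), c1 ^ t.1 * c2 ^ t.2.1 * η ^ t.2.2 *
    (ε ^ p.1 * Γ p.2) * es x p.1 *
      (if p.1 ≤ l + n then bt q x (l + n - p.1 + 2) (t.2.2 + 1) i j else 0)

/-- TASK X4 (terms 4 and 5). As `S_X2`; `bw _ _ (kA q * rA * vA) (m+1)` is the series
`∑_r (q ρ v)^r bt (r+2) (m+1)`. -/
def S_X4 : Prop := S_ES → S_MP → S_SE → ∀ (K : Type) [CommRing K] (N : ℕ) (q : K)
  (x : Fin N → K) (i j : Fin N) (l a n : ℕ) (c1 c2 η ε : K) (Γ : ℕ → K),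
  exS l (l + a) (l + n) (PowerSeries.C (Ez (fun k => kA (x k)) (kA ε * vA) * gA Γ) *
      DS (kA q) (fun k => kA (x k)) (kA η) (kA q * rA * vA) i j * gs (kA c1) *
      gs (kA c2 * rA)) =
  ∑ t ∈ tri l, ∑ r ∈ antidiagonal (l + a - t.2.1), c1 ^ t.1 * c2 ^ t.2.1 * η ^ t.2.2 *
    (q ^ r.1 * Γ r.2) *
      (if r.1 ≤ l + n then ε ^ (l + n - r.1) * es x (l + n - r.1) else 0) *
      bt q x (r.1 + 2) (t.2.2 + 1) i j

/-- TASK X6 (terms 6, 7, 8, 9). As `S_X2`; `Ct _ _ (kS η * (tS * rS * vS))` is the series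
`mk (m ↦ (kA η * rA * vA)^m * C_{m+2})` (`S_SE`). -/
def S_X6 : Prop := S_ES → S_MP → S_SE → ∀ (K : Type) [CommRing K] (N : ℕ) (q : K)
  (x : Fin N → K) (i j : Fin N) (l a n : ℕ) (c1 c2 η ε ε' : K) (Γ : ℕ → K),
  exS l (l + a) (l + n) (PowerSeries.C (Ez (fun k => kA (x k)) (kA ε * rA * vA) *
      Ez (fun k => kA (x k)) (kA ε' * vA) * gA Γ) *
      Ct (kS q) (fun k => kS (x k)) (kS η * (tS * rS * vS)) i j * gs (kA c1) *
      gs (kA c2 * rA)) =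
  ∑ t ∈ tri l, ∑ p ∈ antidiagonal (a + t.1), c1 ^ t.1 * c2 ^ t.2.1 * η ^ t.2.2 *
    (ε ^ p.1 * Γ p.2) * es x p.1 *
      (if p.1 + t.2.2 ≤ l + n then ε' ^ (l + n - p.1 - t.2.2) * es x (l + n - p.1 - t.2.2)
        else 0) * Cn q x (t.2.2 + 2) i j

/-- TASK RAWB (closed formula for `UU l (bt n a)`; CHECKED by computer). Apply `exS l (l+a) (l+n)`
to `S_UBS` (it is additive and `exS (kS c * s) = c * exS s`) and use `S_X0, S_X1, S_X2, S_X4,
S_X6`; the `if`s are true since `a ≤ n`; compare the powers of `q` (`t.1 + t.2.1 + t.2.2 = l`,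
`mem_tri`, `mem_antidiagonal`; `q⁻¹` is combined with positive powers). -/
def S_RAWB : Prop := S_ES → S_UGS → S_MP → S_DSt → S_SE → S_SF →
  S_TM → S_PU → S_EV → S_RG4 → S_CHB → S_UB → S_UBr → S_UBS → S_X0 → S_X1 → S_X2 → S_X4 →
  S_X6 → ∀ (K : Type) [Field K] (N : ℕ) (q : K) (x : Fin N → K), q ≠ 0 → 1 - q ≠ 0 →
  1 + q ≠ 0 → ∀ (l a n : ℕ), 1 ≤ a → a ≤ n → 2 ≤ n → ∀ i j : Fin N, i < j →
  UU q x l (bt q x n a) i j =
    ∑ t ∈ tri l, q ^ (2 * t.2.2 + t.2.1) * qn q (t.1 + 1) * qn q (t.2.1 + 1) * es x t.2.2 *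
      bt q x (n + 2 + t.1 + t.2.1) (a + 1 + t.1) i j +
    ∑ t ∈ tri l, ∑ p ∈ antidiagonal (a + t.1),
      (q ^ (p.1 + t.2.2 + 1 + t.1 + 2 * t.2.1) - q ^ (2 * a + 2 * t.1 + t.2.1)) / (1 - q) *
      es x p.1 * bt q x (l + n - p.1 + 2) (t.2.2 + 1) i j +
    ∑ t ∈ tri l, ∑ r ∈ antidiagonal (l + a - t.2.1),
      (q ^ (r.1 + 2 + t.1 + 2 * t.2.1 + 2 * r.2) - q ^ (n - 1 + t.1 + 2 * t.2.1)) / (1 - q) *
      es x (l + n - r.1) * bt q x (r.1 + 2) (t.2.2 + 1) i j +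
    ∑ t ∈ tri l, ∑ p ∈ antidiagonal (a + t.1),
      ((1 + q ^ (2 * p.2 + 1)) / (1 + q) *
          (q ^ (n - 1 + t.2.1 + p.1) + q ^ (2 * l + 4 + p.1 + t.2.1)) -
        q ^ (2 * a + l + 2 + t.1 + t.2.1) - q ^ (n + 1 + l + t.1 + t.2.1)) / (1 - q) ^ 2 *
      es x p.1 * es x (l + n - p.1 - t.2.2) * Cn q x (t.2.2 + 2) i j

/-- TASK UCS (the identity for `C(s)` in the ring `PA K`; `θ = rA`, `s = vA`). As `S_UBS` with
`S_UCr` in `FractionRing (PA K)`. -/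
def S_UCS : Prop := S_ES → S_MP → S_DSt → S_SE → S_TM → S_CU → S_EV → S_RG3 → S_CHC → S_UCr →
  ∀ (K : Type) [Field K] (N : ℕ) (q : K) (x : Fin N → K), q ≠ 0 → 1 - q ≠ 0 → 1 + q ≠ 0 →
  ∀ i j : Fin N, i < j →
  vA ^ 2 * Ug (kA q) (fun k => kA (x k)) (rA * vA)
      (fun i j => PowerSeries.C (Ct (kB q) (fun k => kB (x k)) vB i j)) i j =
    kA (1 / ((1 + q) * (1 - q) ^ 2 * q)) *
      PowerSeries.C (Ez (fun k => kB (x k)) (kB (q ^ 2) * vB)) *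
      Ct (kA q) (fun k => kA (x k)) (kA 1 * (rA * vA)) i j * gs (kB 1) * gs (kB q⁻¹) +
    kA (q / (1 - q)) * DS (kB q) (fun k => kB (x k)) (kB q) vB i j *
      gs (kB q) * gs (kB (q ^ 2)) -
    kA (1 / (q * (1 - q))) * DS (kB q) (fun k => kB (x k)) (kB q⁻¹) (kB q * vB) i j *
      gs (kB q) * gs (kB 1) +
    Ez (fun k => kA (x k)) (kA (q ^ 2) * (rA * vA)) *
      PowerSeries.C (Ct (kB q) (fun k => kB (x k)) vB i j) *
      (gs (kB 1) * gs (kB q)) * (gs (kB q) * gs (kB (q ^ 2))) +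
    kA (q ^ 4 / ((1 - q) * (1 - q ^ 2))) *
      PowerSeries.C (Ez (fun k => kB (x k)) (kB 1 * vB)) *
      Ct (kA q) (fun k => kA (x k)) (kA (q ^ 2) * (rA * vA)) i j *
      gs (kB (q ^ 2)) * gs (kB (q ^ 3)) -
    kA (q / (1 - q) ^ 2) * PowerSeries.C (Ez (fun k => kB (x k)) (kB q * vB)) *
      Ct (kA q) (fun k => kA (x k)) (kA q * (rA * vA)) i j * gs (kB q) * gs (kB q)

/-- TASK RAWC (closed formula for `UU l (Cn P)`; CHECKED by computer). Take the coefficient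
`exA l (l + P)` of `S_UCS`. Left-hand side: `UU l (Cn P)` (as in `S_X0`; `Ct _ _ vB` has the
coefficient `Cn P` at `v^(P-2)`). Term by term, with `S_SE` (`(r, m) ∈ antidiagonal l`):
term 1: `(1/((1+q)(1-q)^2 q)) q^(-r) [r+1] q^(2(P+r)) e_{P+r} C_{m+2}`
(`gs 1 * gs q⁻¹ = mk (q^(-n) [n+1])`), term 5: `q^4/((1-q)(1-q^2)) q^(2r) [r+1] q^(2m) e_{P+r}
C_{m+2}`, term 6: `-(q/(1-q)^2) (r+1) q^r q^m q^(P+r) e_{P+r} C_{m+2}`; term 2:
`(q/(1-q)) q^r [r+1] q^m bt (P+l+2) (m+1)`; term 3: `-(1/(q(1-q))) [r+1] q^(-m) q^(P+l)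
bt (P+l+2) (m+1)`; term 4: with `(p, r)`: `q^(2p) e_p g_r C_{P+r+2}`. -/
def S_RAWC : Prop := S_ES → S_UGS → S_MP → S_DSt → S_SE → S_TM → S_CU → S_EV → S_RG3 → S_CHC →
  S_UCr → S_UCS → ∀ (K : Type) [Field K] (N : ℕ) (q : K) (x : Fin N → K), q ≠ 0 →
  1 - q ≠ 0 → 1 + q ≠ 0 → ∀ (l P : ℕ), 2 ≤ P → ∀ i j : Fin N, i < j →
  UU q x l (Cn q x P) i j =
    ∑ r ∈ antidiagonal l, (q ^ (l + 1) - q ^ (P + r.1 - 1)) / (1 - q) * qn q (r.1 + 1) *
      bt q x (P + l + 2) (r.2 + 1) i j +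
    ∑ p ∈ antidiagonal l, q ^ (2 * p.1) * (∑ s ∈ antidiagonal p.2,
      qn q (s.1 + 1) * (q ^ s.2 * qn q (s.2 + 1))) * es x p.1 * Cn q x (P + p.2 + 2) i j +
    ∑ r ∈ antidiagonal l, (qn q (r.1 + 1) * (q ^ (2 * P + r.1 - 1) + q ^ (2 * l + 4)) / (1 + q) -
      ((r.1 + 1 : ℕ) : K) * q ^ (1 + P + r.1 + l)) / (1 - q) ^ 2 * es x (P + r.1) *
      Cn q x (r.2 + 2) i j

/-- TASK WES (the identity for `Wg` in the ring `PA K`; `θ = rA`, `z = vA`). As `S_UBS` with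
`S_WEr` in `FractionRing (PA K)`. -/
def S_WES : Prop := S_ES → S_MP → S_DSt → S_SE → S_TM → S_WU → S_EV → S_RG3 → S_WEr →
  ∀ (K : Type) [Field K] (N : ℕ) (q : K) (x : Fin N → K), q ≠ 0 → 1 - q ≠ 0 →
  ∀ i j : Fin N, i < j →
  Wg (kA q) (fun k => kA (x k)) (rA * vA)
      (fun k => PowerSeries.C (vB * kB (x k) * ph (kB q) (fun k => kB (x k)) vB k)) i j =
    DS (kB q) (fun k => kB (x k)) 1 vB i j * gs (kB q) -
    kA (1 / (1 - q)) * PowerSeries.C (Ez (fun k => kB (x k)) (kB q * vB)) *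
      Ct (kA q) (fun k => kA (x k)) (kA 1 * (rA * vA)) i j * gs (kB 1) +
    kA (q ^ 2 / (1 - q)) * PowerSeries.C (Ez (fun k => kB (x k)) (kB 1 * vB)) *
      Ct (kA q) (fun k => kA (x k)) (kA q * (rA * vA)) i j * gs (kB (q ^ 2))

/-- TASK RAWW (closed formula for `Wo l (eH c)`; CHECKED by computer). Take the coefficient
`exA l (l + c)` of `S_WES`: `vB * kB (x k) * ph _ _ vB k` is the series `∑_c E_c(k) v^c`
(`S_ES`). -/
def S_RAWW : Prop := S_ES → S_UGS → S_MP → S_DSt → S_SE → S_TM → S_WU → S_EV → S_RG3 → S_WEr →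
  S_WES → ∀ (K : Type) [Field K] (N : ℕ) (q : K) (x : Fin N → K), q ≠ 0 → 1 - q ≠ 0 →
  ∀ (l c : ℕ), 1 ≤ c → ∀ i j : Fin N, i < j →
  Wo q x l (eH q x c) i j =
    ∑ r ∈ antidiagonal l, q ^ r.1 * bt q x (c + l + 2) (r.2 + 1) i j +
    ∑ r ∈ antidiagonal l, (q ^ (l + 2 + r.1) - q ^ (c + r.1)) / (1 - q) * es x (c + r.1) *
      Cn q x (r.2 + 2) i j

end Pool.Agent.SWD
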