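import Pool.Agent.Lib.MP_263316_co.CB.BaseD
import Pool.Agent.Lib.MP_263316_co.CB.SpecC
import Pool.Agent.Lib.MP_263316_co.CB.Spec

/-!
MP_263316_co, part CB4: positivity; the operators `UU l` and `Wo l` preserve the cones (helper91).
Definitions in CB/BaseD.lean.

`h` is an element of a field `F` with `h ≠ 0`, `h^2 ≠ 1`, and `q = h^2`;
`{x} = sy h x = (h^x - h^(-x)) / (h - h^(-1))` for an integer `x`, `{x}_+ = syp h x`.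
All statements have been checked by computer.
-/

set_option autoImplicit false

namespace Pool.Agent.SWD

open Finset Pool.Agent.SWC Pool.Agent.SWB

/-! ## Basic facts -/

/-- TASK SY. Multiply by `(h - h⁻¹)` or `(h - h⁻¹)^2` (`h - h⁻¹ ≠ 0` since `h^2 ≠ 1`) and use
`zpow_add₀`, `zpow_sub₀`, `zpow_neg`; `field_simp; ring` after writing every power as a product of
powers of `h^a`, `h^b`, `h^d` (`zpow_ne_zero`). (5) is a telescoping sum: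
`(h - h⁻¹) (h^(s+2i) - h^(-s-2i)) = ...`, or induction on `n` with (4). -/
def S_SY : Prop := ∀ (F : Type) [Field F] (h : F), h ≠ 0 → h ^ 2 ≠ 1 →
  sy h 0 = 0 ∧ sy h 1 = 1 ∧ (∀ x : ℤ, sy h (-x) = - sy h x) ∧
  (∀ n : ℕ, qn (h ^ 2) n = h ^ ((n : ℤ) - 1) * sy h n) ∧
  (∀ A B : ℤ, (h ^ (2 * A) - h ^ (2 * B)) / (1 - h ^ 2) = h ^ (A + B - 1) * sy h (B - A)) ∧
  (∀ a b d : ℤ, sy h a * sy h b - sy h (a - d) * sy h (b - d) = sy h d * sy h (a + b - d)) ∧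
  (∀ (s : ℤ) (n : ℕ), ∑ i ∈ range n, sy h (s + 2 * i) = sy h n * sy h (s + n - 1)) ∧
  (∀ x : ℤ, sy h (x + 1) - sy h (x - 1) = h ^ x + h ^ (-x)) ∧
  (∀ a b : ℤ, sy h a * sy h b * (h - h⁻¹) ^ 2 =
    h ^ (a + b) + h ^ (-(a + b)) - h ^ (a - b) - h ^ (b - a))

/-- TASK PB (positivity, basic rules). `Pos h z y`: there is `p ∈ PZ z` with `p(h^2) = h^z y`.
(1) `0`, (2) sums, (3) `S_PZm` (module AB/PZm, `t_PZm`), (4) `q^i [k]` with `2 i + k = z + 1` and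
`qn (h^2) k = h^(k-1) {k}` (`S_SY`), (5) `q^i [x] [y]` with `2 i = z + 2 - x - y`: `S_PZm` and
`S_PZp` (module AB/PZp, `t_PZp`); zero if `x = 0` or `y = 0`. (6) from (5). -/
def S_PB : Prop := S_SY → ∀ (F : Type) [Field F] (h : F), h ≠ 0 → h ^ 2 ≠ 1 →
  (∀ z : ℤ, Pos h z 0) ∧ (∀ (z : ℤ) (y y' : F), Pos h z y → Pos h z y' → Pos h z (y + y')) ∧
  (∀ (z z' : ℤ) (y y' : F), Pos h z y → Pos h z' y' → Pos h (z + z') (y * y')) ∧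
  (∀ z k : ℤ, 0 ≤ k → k ≤ z + 1 → Even (z + 1 - k) → Pos h z (sy h k)) ∧
  (∀ z x y : ℤ, 0 ≤ x → 0 ≤ y → x + y ≤ z + 2 → Even (z - x - y) →
    Pos h z (sy h x * sy h y)) ∧
  (∀ z x y : ℤ, (0 < x → 0 < y → x + y ≤ z + 2 ∧ Even (z - x - y)) →
    Pos h z (syp h x * syp h y))

/-! ## From the closed formula to the coefficients `K(p,c)`, `X(p,r)` -/

/-- TASK FA. Reindex: `t = (i, j, p)`, `c = a + 1 + i` (so `i = c - a - 1`, `j = l + a + 1 - p - c`);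
`[i+1] = h^i {c-a}`, `[j+1] = h^j {l+2+a-p-c}` (`S_SY`). The terms of the right-hand side with
`c ≤ a` or `c > l + a + 1 - p` are zero. -/
def S_FA : Prop := S_SY → ∀ (F : Type) [Field F] (h : F), h ≠ 0 → h ^ 2 ≠ 1 →
  ∀ (l a n : ℕ), a ≤ n → ∀ (e : ℕ → F) (B : ℕ → ℕ → F),
  ∑ t ∈ tri l, (h ^ 2) ^ (2 * t.2.2 + t.2.1) * qn (h ^ 2) (t.1 + 1) * qn (h ^ 2) (t.2.1 + 1) *
    e t.2.2 * B (n + 2 + t.1 + t.2.1) (a + 1 + t.1) =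
  ∑ p ∈ range (l + n + 1), ∑ c ∈ Icc 1 (l + a + 1),
    h ^ (2 * a + 3 * l + 2 + p - 2 * c : ℤ) *
      (syp h (c - a) * syp h (l + 2 + a - p - c)) * e p * B (l + n - p + 2) c

/-- TASK FB. For `c = m + 1` and `p` fixed (`t = (i, j, m)`, `(p, k)` in the antidiagonal of
`a + i`), `i` runs from `max 0 (p - a)` to `l + 1 - c`, and
`(q^(p+m+1+i+2j) - q^(2a+2i+j)) / (1-q) = h^z {2a - p - l - 1 + 2i}` with `z = 2a+3l+2+p-2c`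
(`S_SY`); the sum over `i` is `{l+2-c} {2a-c-p}` for `p ≤ a` and `{l+2+a-c-p} {a-c}` for `p ≥ a`
(zero if there is no such `i`) by `S_SY` (5). -/
def S_FB : Prop := S_SY → ∀ (F : Type) [Field F] (h : F), h ≠ 0 → h ^ 2 ≠ 1 →
  ∀ (l a n : ℕ), a ≤ n → ∀ (e : ℕ → F) (B : ℕ → ℕ → F),
  ∑ t ∈ tri l, ∑ p ∈ antidiagonal (a + t.1),
    ((h ^ 2) ^ (p.1 + t.2.2 + 1 + t.1 + 2 * t.2.1) - (h ^ 2) ^ (2 * a + 2 * t.1 + t.2.1)) /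
      (1 - h ^ 2) * e p.1 * B (l + n - p.1 + 2) (t.2.2 + 1) =
  ∑ p ∈ range (l + n + 1), ∑ c ∈ Icc 1 (l + a + 1),
    h ^ (2 * a + 3 * l + 2 + p - 2 * c : ℤ) *
      (if (p : ℤ) ≤ a then syp h (l + 2 - c) * sy h (2 * a - c - p)
        else syp h (l + 2 + a - c - p) * sy h (a - c)) * e p * B (l + n - p + 2) c

/-- TASK FC. Put `p = l + n - r` (`(r, k)` in the antidiagonal of `l + a - j`), `b = n - a`,
`c = m + 1`; then `k = p - b - j`; for `p`, `c` fixed `j` runs from `0` to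
`min (l + 1 - c) (p - b)`, and the coefficient is `h^z {2b - l - 3 - p + 2j}`,
`z = 2a+3l+2+p-2c`; the sum over `j` by `S_SY` (5). -/
def S_FC : Prop := S_SY → ∀ (F : Type) [Field F] (h : F), h ≠ 0 → h ^ 2 ≠ 1 →
  ∀ (l a n : ℕ), a ≤ n → 1 ≤ n → ∀ (e : ℕ → F) (B : ℕ → ℕ → F),
  ∑ t ∈ tri l, ∑ r ∈ antidiagonal (l + a - t.2.1),
    ((h ^ 2) ^ (r.1 + 2 + t.1 + 2 * t.2.1 + 2 * r.2) - (h ^ 2) ^ (n - 1 + t.1 + 2 * t.2.1)) /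
      (1 - h ^ 2) * e (l + n - r.1) * B (r.1 + 2) (t.2.2 + 1) =
  ∑ p ∈ range (l + n + 1), ∑ c ∈ Icc 1 (l + a + 1),
    h ^ (2 * a + 3 * l + 2 + p - 2 * c : ℤ) *
      (if (n : ℤ) - a ≤ p then (if p - ((n : ℤ) - a) ≤ l + 1 - c then
          sy h (p - ((n : ℤ) - a) + 1) * sy h ((n : ℤ) - a - l - 3)
        else syp h (l + 2 - c) * sy h (2 * ((n : ℤ) - a) - 2 - c - p)) else 0) *
      e p * B (l + n - p + 2) c

/-- TASK FD. Put `P = l + n - p - m` (`t = (i, j, m)`), `b = n - a`: `k = a + i - p`,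
`j = P - b - k`, `i + j = p + P - n`; for `p`, `P` fixed `k` runs from `max 0 (a - p)` to `P - b`.
With `δ = h - h⁻¹`, `ψ_s = h^s + h^(-s)`: `(1-q)^2 = h^2 δ^2`,
`(1+q^(2k+1)) / (1+q) = h^(2k) ψ_{2k+1} / ψ_1`, and the coefficient is `h^(zE) / δ^2` times
`ψ_{2k+1} ψ_{n-2l-5} / ψ_1 - ψ_{2a+1-n}`, `zE = 2a-n+2l+1+2(p+P)`. For `m ≥ -1`
`∑_{k=0}^{m} (...) / δ^2 = Gf h α β m`, `α = a-l-2`, `β = b-l-3`: with `s = m - 2k`,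
`{α+s} {β+s} δ^2 = ψ_{α+β+2s} - ψ_{α-β}` and `∑_s h^(2s) = ∑_k ψ_{2k+1} / ψ_1` (both are
`(h^(2m+2) - h^(-2m-2)) / (h^2 - h^(-2))`). -/
def S_FD : Prop := S_SY → ∀ (F : Type) [Field F] (h : F), h ≠ 0 → h ^ 2 ≠ 1 → 1 + h ^ 2 ≠ 0 →
  ∀ (l a n : ℕ), a ≤ n → 1 ≤ n → ∀ (e C : ℕ → F),
  ∑ t ∈ tri l, ∑ p ∈ antidiagonal (a + t.1),
    ((1 + (h ^ 2) ^ (2 * p.2 + 1)) / (1 + h ^ 2) *
        ((h ^ 2) ^ (n - 1 + t.2.1 + p.1) + (h ^ 2) ^ (2 * l + 4 + p.1 + t.2.1)) -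
      (h ^ 2) ^ (2 * a + l + 2 + t.1 + t.2.1) - (h ^ 2) ^ (n + 1 + l + t.1 + t.2.1)) /
      (1 - h ^ 2) ^ 2 * e p.1 * e (l + n - p.1 - t.2.2) * C (t.2.2 + 2) =
  ∑ p ∈ range (l + n + 1), ∑ r ∈ range (l + n + 1 - p),
    h ^ (2 * a - n + 2 * l + 1 + 2 * (p + r) : ℤ) * Xf h a ((n : ℤ) - a) l p r *
      e p * e r * C (l + n - p - r + 2)

/-- the conclusion of `S_RAWB` -/
def RAWBc : Prop := ∀ (K : Type) [Field K] (N : ℕ) (q : K) (x : Fin N → K), q ≠ 0 →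
  1 - q ≠ 0 → 1 + q ≠ 0 → ∀ (l a n : ℕ), 1 ≤ a → a ≤ n → 2 ≤ n → ∀ i j : Fin N, i < j →
  UU q x l (bt q x n a) i j =
    ∑ t ∈ tri l, q ^ (2 * t.2.2 + t.2.1) * qn q (t.1 + 1) * qn q (t.2.1 + 1) * es x t.2.2 *
      bt q x (n + 2 + t.1 + t.2.1) (a + 1 + t.1) i j +
    ∑ t ∈ tri l, ∑ p ∈ antidiagonal (a + t.1),
      (q ^ (p.1 + t.2.2 + 1 + t.1 + 2 * t.2.1) - q ^ (2 * a + 2 * t.1 + t.2.1)) / (1 - q) *
      es x p.1 * bt q x (l + n - p.1 + 2) (t.2.2 + 1) i j +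
    ∑ t ∈ tri l, ∑ r ∈ antidiagonal (l + a - t.2.1),
      (q ^ (r.1 + 2 + t.1 + 2 * t.2.1 + 2 * r.2) - q ^ (n - 1 + t.1 + 2 * t.2.1)) / (1 - q) *
      es x (l + n - r.1) * bt q x (r.1 + 2) (t.2.2 + 1) i j +
    ∑ t ∈ tri l, ∑ p ∈ antidiagonal (a + t.1),
      ((1 + q ^ (2 * p.2 + 1)) / (1 + q) *
          (q ^ (n - 1 + t.2.1 + p.1) + q ^ (2 * l + 4 + p.1 + t.2.1)) -
        q ^ (2 * a + l + 2 + t.1 + t.2.1) - q ^ (n + 1 + l + t.1 + t.2.1)) / (1 - q) ^ 2 *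
      es x p.1 * es x (l + n - p.1 - t.2.2) * Cn q x (t.2.2 + 2) i j

/-- the conclusion of `S_RAWC` -/
def RAWCc : Prop := ∀ (K : Type) [Field K] (N : ℕ) (q : K) (x : Fin N → K), q ≠ 0 →
  1 - q ≠ 0 → 1 + q ≠ 0 → ∀ (l P : ℕ), 2 ≤ P → ∀ i j : Fin N, i < j →
  UU q x l (Cn q x P) i j =
    ∑ r ∈ antidiagonal l, (q ^ (l + 1) - q ^ (P + r.1 - 1)) / (1 - q) * qn q (r.1 + 1) *
      bt q x (P + l + 2) (r.2 + 1) i j +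
    ∑ p ∈ antidiagonal l, q ^ (2 * p.1) * (∑ s ∈ antidiagonal p.2,
      qn q (s.1 + 1) * (q ^ s.2 * qn q (s.2 + 1))) * es x p.1 * Cn q x (P + p.2 + 2) i j +
    ∑ r ∈ antidiagonal l, (qn q (r.1 + 1) * (q ^ (2 * P + r.1 - 1) + q ^ (2 * l + 4)) / (1 + q) -
      ((r.1 + 1 : ℕ) : K) * q ^ (1 + P + r.1 + l)) / (1 - q) ^ 2 * es x (P + r.1) *
      Cn q x (r.2 + 2) i j

/-- the conclusion of `S_RAWW` -/
def RAWWc : Prop := ∀ (K : Type) [Field K] (N : ℕ) (q : K) (x : Fin N → K), q ≠ 0 →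
  1 - q ≠ 0 → ∀ (l c : ℕ), 1 ≤ c → ∀ i j : Fin N, i < j →
  Wo q x l (eH q x c) i j =
    ∑ r ∈ antidiagonal l, q ^ r.1 * bt q x (c + l + 2) (r.2 + 1) i j +
    ∑ r ∈ antidiagonal l, (q ^ (l + 2 + r.1) - q ^ (c + r.1)) / (1 - q) * es x (c + r.1) *
      Cn q x (r.2 + 2) i j

/-- TASK F1. `RAWBc` with `q = h^2` and `S_FA`, `S_FB`, `S_FC`, `S_FD` (with `e = es x`,
`B = fun n a => bt _ _ n a i j`, `C = fun n => Cn _ _ n i j`); add. -/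
def S_F1 : Prop := S_SY → RAWBc → S_FA → S_FB → S_FC → S_FD → ∀ (F : Type) [Field F] (h : F),
  h ≠ 0 → h ^ 2 ≠ 1 → 1 + h ^ 2 ≠ 0 → ∀ (N : ℕ) (x : Fin N → F) (l a n : ℕ), 1 ≤ a → a ≤ n →
  2 ≤ n → ∀ i j : Fin N, i < j →
  UU (h ^ 2) x l (bt (h ^ 2) x n a) i j =
    ∑ p ∈ range (l + n + 1), ∑ c ∈ Icc 1 (l + a + 1),
      h ^ (2 * a + 3 * l + 2 + p - 2 * c : ℤ) * Kf h a ((n : ℤ) - a) l p c *
        es x p * bt (h ^ 2) x (l + n - p + 2) c i j +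
    ∑ p ∈ range (l + n + 1), ∑ r ∈ range (l + n + 1 - p),
      h ^ (2 * a - n + 2 * l + 1 + 2 * (p + r) : ℤ) * Xf h a ((n : ℤ) - a) l p r *
        es x p * es x r * Cn (h ^ 2) x (l + n - p - r + 2) i j

/-- TASK G1 (the same for `Cn`). `RAWCc` with `q = h^2`. First sum: `c = r.2 + 1`,
`r.1 + 1 = l + 2 - c`: `(q^(l+1) - q^(P+l-c)) / (1-q) [l+2-c] = h^(P+3l+1-2c) {l+2-c} {P-1-c}`
(also for `l + 2 - c > 0` only). Second sum (`r = p.1`): `∑_{s ∈ antidiagonal m} [s.1+1] q^(s.2)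
[s.2+1] = h^(2m) Qf h m` (`h^m ∑_s h^(2 s.2) {s.1+1} {s.2+1}`; induction on `m` in steps of 2, or
multiply by `(1-q)^2 (1-q^2)`). Third sum (`r = P + r.1`): with `δ = h - h⁻¹`,
`ψ_s = h^s + h^(-s)`, the coefficient is `h^(2P+2 r.1+2l) ({r.1+1} ψ_{2P+r.1-2l-5} / ψ_1 -
(r.1+1)) / δ^2`, and this is `Qe h (P+r.1-l-4) - Qe h (P-l-5)`: induction on `r.1`; the difference is
`{k} {k+1} / {2}` with `k = P - l - 3 + r.1` and `Qe h (k-1) - Qe h (k-2) = {k} {k+1} / {2}` for all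
integers `k`. -/
def S_G1 : Prop := S_SY → RAWCc → ∀ (F : Type) [Field F] (h : F), h ≠ 0 → h ^ 2 ≠ 1 →
  1 + h ^ 2 ≠ 0 → ∀ (N : ℕ) (x : Fin N → F) (l P : ℕ), 2 ≤ P → ∀ i j : Fin N, i < j →
  UU (h ^ 2) x l (Cn (h ^ 2) x P) i j =
    ∑ c ∈ Icc 1 (l + 1), h ^ (P + 3 * l + 1 - 2 * c : ℤ) *
      (syp h (l + 2 - c) * sy h (P - 1 - c)) * bt (h ^ 2) x (P + l + 2) c i j +
    ∑ r ∈ range (P + l + 1), h ^ (2 * l + 2 * r : ℤ) *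
      (Qf h (l - r) + if P ≤ r then Qe h (r - l - 4) - Qe h (P - l - 5) else 0) *
        es x r * Cn (h ^ 2) x (P + l + 2 - r) i j

/-! ## Folding -/

/-- TASK FO (folding). For `2c ≥ M` use `S_EXT`: `bt M c = (1 + q^(2c+1-M)) Sn M - q^(2c+1-M)
bt M (M-1-c)` (the last term is absent for `c ≥ M`, and `bt M 0 = 0`, so only `M - 1 - c ≥ 1`
matters); for `2c + 1 = M`: `bt M c = Sn M` (the case `n = 2c+1` of `S_EXT`: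
`2 bt = 2 Sn` does not suffice in characteristic 2; use `S_STR` directly). Powers:
`h^(z-2c) (1 + h^(2(2c+1-M))) = h^(z+1-M) (h^s + h^(-s))`, `s = 2c+1-M`, and
`h^(z-2c) h^(2(2c+1-M)) = h^(z-2c')` with `c' = M-1-c`; the map `c ↦ M-1-c` is a bijection
between `{c : 2c ≥ M, c ≤ M-2}` and `{c' : c' ≥ 1, 2c'+2 ≤ M}`. -/
def S_FO : Prop := S_STR → S_EXT → ∀ (F : Type) [Field F] (h : F), h ≠ 0 →
  ∀ (N : ℕ) (x : Fin N → F) (L M : ℕ) (z : ℤ) (k : ℕ → F), 2 ≤ M → ∀ i j : Fin N, i < j →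
  ∑ c ∈ Icc 1 L, h ^ (z - 2 * c) * k c * bt (h ^ 2) x M c i j =
    ∑ c ∈ (Icc 1 L).filter (fun c => 2 * c + 2 ≤ M), h ^ (z - 2 * c) *
      (k c - if M - 1 - c ≤ L then k (M - 1 - c) else 0) * bt (h ^ 2) x M c i j +
    h ^ (z + 1 - M) * (∑ c ∈ Icc 1 L, ps h (2 * c + 1 - M) * k c) * Sn (h ^ 2) x M i j

/-! ## Positivity of the coefficients -/

/-- TASK KP1. `M = a+b+l+2-p`, `d = M - c`. Show that the difference is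
`c < b`: `{2a-p-c} {l+2-c}` if `c ≤ a`, `c ≤ l+1`; `{a-p} {l+2-a}` if `a < c ≤ l+1`;
`{c-a} {d-b}` if `c ≥ l+2`, `c > a`, `d > b`; `0` otherwise (here `Kf (M-1-c) = 0`);
`c ≥ b`: `{d-1-c} {b-a-1}` if `d-b ≤ a-p`; `{a+b-p-c-1} {b-a+l+1-c}` if `d-b > a-p`,
`c+1-b ≤ a-p`; `0` otherwise. (Unfold `Kf`, `syp`, split the `if`s with `omega`; the identities
between products are cases of `{x}{y} - {x-t}{y-t} = {t}{x+y-t}`, `S_SY`; `ring_nf` for the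
arguments.) Then `S_PB` (5): all the factors have nonnegative arguments, the sum of the two
arguments is `≤ z + 2` and congruent to `z` mod 2 whenever both are positive. -/
def S_KP1 : Prop := S_SY → S_PB → ∀ (F : Type) [Field F] (h : F), h ≠ 0 → h ^ 2 ≠ 1 →
  ∀ a b l p c : ℤ, 1 ≤ a → a + 2 ≤ b → 0 ≤ l → 0 ≤ p → p < a → 1 ≤ c →
  2 * c + 2 ≤ a + b + l + 2 - p →
  Pos h (2 * a + 3 * l + 2 + p - 2 * c)
    (Kf h a b l p c - Kf h a b l p (a + b + l + 2 - p - 1 - c))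

/-- TASK KP2. The difference is `{a-c}_+ {d-b}_+`, `d = a+b+l+2-p-c`. See KP1. -/
def S_KP2 : Prop := S_SY → S_PB → ∀ (F : Type) [Field F] (h : F), h ≠ 0 → h ^ 2 ≠ 1 →
  ∀ a b l p c : ℤ, 1 ≤ a → a + 2 ≤ b → 0 ≤ l → a ≤ p → p < b → 1 ≤ c →
  2 * c + 2 ≤ a + b + l + 2 - p →
  Pos h (2 * a + 3 * l + 2 + p - 2 * c)
    (Kf h a b l p c - Kf h a b l p (a + b + l + 2 - p - 1 - c))

/-- TASK KP3. `d = a+b+l+2-p-c`. The difference is `0` if `c ≥ a`; for `c < a`: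
`{a-c} {b-d}_+` if `a+1 ≤ d ≤ l+2`; `{a-c} {d-b}_+ + {p-b+1} {b-l-3}` if `d ≥ a+1`, `d ≥ l+3`,
`b ≥ l+3`; `{d-l-3} {a-c+d-b-d+l+3}` if `d ≥ a+1`, `d ≥ l+3`, `b < l+3`; for `d ≤ a`:
`{d-1-c} {b-a-1}` if `l+2-c ≥ d-1-c`, and `{l+2-c}_+ {2b-2-c-p}` otherwise. See KP1. -/
def S_KP3 : Prop := S_SY → S_PB → ∀ (F : Type) [Field F] (h : F), h ≠ 0 → h ^ 2 ≠ 1 →
  ∀ a b l p c : ℤ, 1 ≤ a → a + 2 ≤ b → 0 ≤ l → b ≤ p → p ≤ a + b + l → 1 ≤ c →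
  2 * c + 2 ≤ a + b + l + 2 - p →
  Pos h (2 * a + 3 * l + 2 + p - 2 * c)
    (Kf h a b l p c - Kf h a b l p (a + b + l + 2 - p - 1 - c))

/-- TASK PHI. Fix `δ`, `α`; induction on `T = δ - β` in steps of 2. If `δ - β ≤ 1` both sides are
zero (left: `ps` of a negative number or no term; right: `δ - 1 - 2k - β ≤ 0`). Step `T → T + 2`
(`β → β - 2`), with `m_y = min y δ`: left-hand side, after the shift `y → y + 1` of the new sum,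
`∑_{y ≥ 0} ps (T - 2y) ({m_{y+1}} {δ-α-m_{y+1}} - {m_y} {δ-α-m_y})` `= ∑_{0 ≤ y < δ} ps (T-2y)
{δ-α-2y-1}` (for `y ≥ δ` the bracket vanishes; `{A+1} {B-1} - {A} {B} = {B-A-1}`); right-hand side:
with `s = δ-1-2k`, `{s-β+2}_+ - {s-β}_+ = ps (s-β+1)` for all integers, and `s - β + 1 = T - 2k`.
(It is convenient to prove it for all `Y` at once: the terms with `2y > δ - β` are zero.) -/
def S_PHI : Prop := S_SY → ∀ (F : Type) [Field F] (h : F), h ≠ 0 → h ^ 2 ≠ 1 →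
  ∀ (δ Y : ℕ) (α β : ℤ), δ - β ≤ 2 * Y →
  ∑ y ∈ Icc 1 Y, ps h (δ - β - 2 * y) *
    (sy h (min y δ : ℕ) * sy h (δ - α - (min y δ : ℕ))) = Ph2 h δ α β

/-- TASK OM1. `p < a`. Put `δ = a - p`, `α = a-l-2`, `β = b-l-3` and `y = δ + l + 2 - c`; then
`2c+1-M = δ-β-2y` (`M = a+b+l+2-p`) and for `y ≥ 1`, `2y ≤ δ - β`:
`Kf = {m} {δ-α-m}` with `m = min y δ` (`δ - α - y > y > 0`; for `y > δ` use
`{y} {δ-α-y} - {y-δ} {-α-y} = {δ} {-α}`); for `y ≤ 0` `Kf = 0`. Then `S_PHI`. -/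
def S_OM1 : Prop := S_SY → S_PHI → ∀ (F : Type) [Field F] (h : F), h ≠ 0 → h ^ 2 ≠ 1 →
  ∀ a b l p : ℕ, 1 ≤ a → a + 2 ≤ b → p < a →
  Om h a b l p = Ph2 h (a - p) (a - l - 2) (b - l - 3)

/-- TASK OM2. `a ≤ p < b`: for `c ≥ a`, `Kf = 0` (`{c-a} {Y}_+ + {Y}_+ {a-c}`,
`Y = l+2+a-p-c`); for `c < a` and `2c+1 ≥ a+b+l+2-p` one has `Y ≤ 0`. -/
def S_OM2 : Prop := S_SY → ∀ (F : Type) [Field F] (h : F), h ≠ 0 → h ^ 2 ≠ 1 →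
  ∀ a b l p : ℕ, 1 ≤ a → a + 2 ≤ b → a ≤ p → p < b → Om h a b l p = 0

/-- TASK OM3. `b ≤ p ≤ a+b+l`. As in OM2 the first two terms of `Kf` do not contribute. Put
`δ = p - b + 1` and `y = l + 2 - c`; then `2c+1-M = δ-α-2y` with `α = a-l-2`, and the third term of
`Kf` is `-{m} {δ-β-m}`, `m = min y δ`, `β = b-l-3`, for `y ≥ 1`, and `0` for `y ≤ 0`. The terms with
`c ≤ 0` do not occur in `S_PHI` (`2y ≤ δ - α` and `y ≥ l + 2` would give `p > a+b+l`). -/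
def S_OM3 : Prop := S_SY → S_PHI → ∀ (F : Type) [Field F] (h : F), h ≠ 0 → h ^ 2 ≠ 1 →
  ∀ a b l p : ℕ, 1 ≤ a → a + 2 ≤ b → b ≤ p → p ≤ a + b + l →
  Om h a b l p = - Ph2 h (p - b + 1) (b - l - 3) (a - l - 2)

/-- TASK PL. Reflection `k ↦ m - k` (`s ↦ -s`, `sum_range_reflect`) and
`sy h x = syp h x - syp h (-x)`; `α < β`: `{s-β}_+ ≠ 0` implies `s - α > 0`, and `{α+s}_+ ≠ 0`
implies `β + s > 0`. -/
def S_PL : Prop := S_SY → ∀ (F : Type) [Field F] (h : F), h ≠ 0 → h ^ 2 ≠ 1 →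
  ∀ α β m : ℤ, α < β →
  Gf h α β m - Ph2 h (m + 1) β α = Pn h α β m ∧
  Gf h α β m - Ph2 h (m + 1) α β = Pn h α β m -
    ∑ k ∈ range (m + 1).toNat, syp h (-α - (m - 2 * k)) * syp h (β + (m - 2 * k)) ∧
  Ph2 h (m + 1) α β = Pn h (-β) (-α) m ∧
  Ph2 h (m + 1) β α = Pn h (-β) (-α) m -
    ∑ k ∈ range (m + 1).toNat, syp h (m - 2 * k - α) * syp h (β - (m - 2 * k))

/-- TASK PD. Induction on `J - I`; for `n ≥ -1`, with `s` running over `n, n-2, ..., -n`,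
`Pn (n+1) - Pn n = {α-n-1}_+ {β-n-1}_+ + ∑_s ({α+s+1}_+ {β+s+1}_+ - {α+s}_+ {β+s}_+)` and the
bracket is `{α+β+2s+1}` for `α + s ≥ 0` and `0` otherwise (`α < β`); `S_PB` (4), (6). -/
def S_PD : Prop := S_SY → S_PB → ∀ (F : Type) [Field F] (h : F), h ≠ 0 → h ^ 2 ≠ 1 →
  ∀ α β z I J : ℤ, α < β → -1 ≤ I → I ≤ J → (0 ≤ J → α + β + 2 * J ≤ z + 2) →
  Even (z - α - β) → Pos h z (Pn h α β J - Pn h α β I)

/-- TASK CP. Put `α = a-l-2`, `β = b-l-3` (`β - α = b-a-1 ≥ 1`). `S_OM1`, `S_OM2`, `S_OM3` for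
`Om`, and by `S_PL`: (i) `r < b`: `Xf = 0`; `Om = Ph2 (a-p) α β = Pn (-β) (-α) (a-p-1)` for
`p < a`, `0` for `a ≤ p < b`. (ii) `p < a`, `b ≤ r`, `J = r-b`, `I = a-1-p`: `Xf h a b l r p = 0`;
if `J > I`: the value is `Gf J - Gf I + Ph2 (I+1) α β - Ph2 (J+1) β α =
Pn α β J - Pn α β I + ∑ {-α-s}_+ {β+s}_+` (`s` over `I, I-2, ..., -I`); if `J ≤ I`: `Xf = 0` and the
value is `Ph2 (I+1) α β - Ph2 (J+1) β α = Pn (-β) (-α) I - Pn (-β) (-α) J + ∑ {s-α}_+ {β-s}_+`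
(`s` over `J, ..., -J`). (iii) `a ≤ p < b ≤ r`: `Pn α β (r-b)`. (iv) `b ≤ p ≤ r`:
`Pn α β (p-b) + Pn α β (r-b)`, once if `p = r`. Positivity: `S_PD` (also with `I = -1`) and
`S_PB` (6); the bounds with `omega`. -/
def S_CP : Prop := S_SY → S_PB → S_PHI → S_OM1 → S_OM2 → S_OM3 → S_PL → S_PD →
  ∀ (F : Type) [Field F] (h : F), h ≠ 0 → h ^ 2 ≠ 1 →
  ∀ a b l p r : ℕ, 1 ≤ a → a + 2 ≤ b → p ≤ r → p + r ≤ a + b + l →
  Pos h ((a : ℤ) - b + 2 * l + 1 + 2 * (p + r))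
    (if p = r then Om h a b l p + Xf h a b l p p
      else Om h a b l p + Om h a b l r + Xf h a b l p r + Xf h a b l r p)

/-- TASK QP. (1) As PD: `Qf (m+1) - Qf m = {2m+3} + {2m-1} + ...` (all arguments positive; from
`{k+1}^2 - {k}^2 = {2k+1}`). (2) `S_PHI` with `δ = T`, `α = β = 0`, `T = l+3-P`: put `y = l+2-c`,
`2c+1-(P+l+2) = T-2y`, `{P-1-c} = {y-T} = -{T-y}`; if `T ≤ 0` both sides are zero. (3) Cases.
(4) Cases (`S_SY`, `{x}{y} - {x'}{y'} = 0`). -/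
def S_QP : Prop := S_SY → S_PB → S_PHI → ∀ (F : Type) [Field F] (h : F), h ≠ 0 → h ^ 2 ≠ 1 →
  (∀ z m m' : ℤ, m' ≤ m → Even z → (0 ≤ m → 2 * m + 2 ≤ z + 2) →
    Pos h z (Qf h m - Qf h m')) ∧
  (∀ l P : ℕ, 2 ≤ P → ∑ c ∈ Icc 1 (l + 1), ps h (2 * c + 1 - (P + l + 2 : ℤ)) *
    (syp h (l + 2 - c) * sy h (P - 1 - c)) = - Qf h (l + 1 - P)) ∧
  (∀ l P r : ℤ, P ≤ r → Qf h (l - r) + (Qe h (r - l - 4) - Qe h (P - l - 5)) -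
    Qf h (l + 1 - P) = Qf h (r - l - 4) - Qf h (P - l - 5)) ∧
  (∀ l P c : ℤ, 0 ≤ l → 2 ≤ P → 1 ≤ c → 2 * c + 2 ≤ P + l + 2 →
    syp h (l + 2 - c) * sy h (P - 1 - c) -
      syp h (l + 2 - (P + l + 2 - 1 - c)) * sy h (P - 1 - (P + l + 2 - 1 - c)) =
    syp h (l + 2 - c) * syp h (P - 1 - c))

/-! ## Descent to `AN N` and the cones -/

/-- TASK TH. `Polynomial.expand_injective`, `MvPolynomial.map_injective`,
`IsFractionRing.injective`; `AN N` is a domain. -/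
def S_TH : Prop := ∀ N : ℕ, Function.Injective (thN N) ∧ thN N (qq N) = hN N ^ 2 ∧
  hN N ≠ 0 ∧ hN N ^ 2 ≠ 1 ∧ 1 + hN N ^ 2 ≠ 0 ∧
  (∀ p : PX, thN N (MvPolynomial.C p) = Polynomial.aeval (hN N ^ 2) p)

/-- TASK DE (descent). Choose for every `t ∈ I` a polynomial `P_t ∈ PZ _` with `P_t(h^2) = h^z κ`,
and for every `t ∈ J` a polynomial `Q_t`. By `S_TH` and `S_MP` (for `thN N`) the hypothesis says that
`thN (f i j)` is the image of `∑_{t ∈ I} C P_t * es t.1 * bt (n'-t.1) t.2 i j +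
∑_{t ∈ J} C Q_t * (es t.1 * es t.2) * Cn (n'-t.1-t.2) i j`, and `thN` is injective. By the first part
of `S_PZp` (module AB/PZp) `P_t = 0` or `P_t ∈ PU d` with `d = z ≥ 0`; then the term is a generator of
`SC N n' d'` (the multisets `{t.1}`, `{t.1, t.2}`). -/
def S_DE : Prop := S_MP → S_TH → ∀ (N n' d' : ℕ) (f : Fin N → Fin N → AN N),
  (∀ i j, ¬ i < j → f i j = 0) → ∀ (I J : Finset (ℕ × ℕ)) (κ T : ℕ → ℕ → FN N),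
  (∀ t ∈ I, 1 ≤ t.2 ∧ t.1 + 2 * t.2 + 2 ≤ n' ∧
    Pos (hN N) ((d' : ℤ) + 2 - 2 * t.2 - (n' - t.1)) (κ t.1 t.2)) →
  (∀ t ∈ J, t.1 + t.2 + 2 ≤ n' ∧
    Pos (hN N) ((d' : ℤ) + 3 - 2 * (n' - t.1 - t.2)) (T t.1 t.2)) →
  (∀ i j : Fin N, i < j → thN N (f i j) =
    ∑ t ∈ I, hN N ^ ((d' : ℤ) + 2 - 2 * t.2 - (n' - t.1)) * κ t.1 t.2 *
      es (fun k => thN N (xx N k)) t.1 *
      bt (hN N ^ 2) (fun k => thN N (xx N k)) (n' - t.1) t.2 i j +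
    ∑ t ∈ J, hN N ^ ((d' : ℤ) + 3 - 2 * (n' - t.1 - t.2)) * T t.1 t.2 *
      (es (fun k => thN N (xx N k)) t.1 * es (fun k => thN N (xx N k)) t.2) *
      Cn (hN N ^ 2) (fun k => thN N (xx N k)) (n' - t.1 - t.2) i j) →
  f ∈ SC N n' d'

/-- TASK UCB. `h = hN N`, `x = fun k => thN N (xx N k)`, `b = n - a`. By `S_MP` and `S_TH`,
`thN (UU (qq N) (xx N) l (bt ..) i j) = UU (h^2) x l (bt (h^2) x n a) i j`; `S_F1`. For every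
`p < l+n+1` let `M = l+n-p+2` and use `S_FO` with `L = l+a+1`, `z = 2a+3l+2+p`,
`k c = Kf h a b l p c` (`Kf` vanishes for `c > L`, so the `if` may be dropped), and
`Sn M = ∑_{r < l+n+1-p} q^r e_r C_{M-r}`, `h^(z+1-M) h^(2r) = h^(2a-n+2l+1+2(p+r))`. The sum of the
`C` terms is over `p`, `r < l+n+1-p` of `(Om p + Xf p r) e_p e_r C_{l+n-p-r+2}`; the factor
`e_p e_r C` is symmetric, so it is the sum over the pairs `p ≤ r` in `prs (l+n)`. Then `S_DE` with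
`n' = n+l+2`, `d' = 2a+n+4l+2`, `I` the pairs `(p, c)` with `p < l+n+1`, `c ∈ Icc 1 (l+a+1)`,
`2c+2 ≤ M`, `J = prs (l+n)`; positivity by `S_KP1`, `S_KP2`, `S_KP3`, `S_CP`. -/
def S_UCB : Prop := S_MP → S_TH → S_DE → S_SY → S_PB → S_FO → S_STR → S_EXT →
  RAWBc → S_FA → S_FB → S_FC → S_FD → S_F1 → S_KP1 → S_KP2 → S_KP3 →
  S_PHI → S_OM1 → S_OM2 → S_OM3 → S_PL → S_PD → S_CP →
  ∀ (N l a n : ℕ), 1 ≤ a → 2 * a + 2 ≤ n →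
  UU (qq N) (xx N) l (bt (qq N) (xx N) n a) ∈ SC N (n + l + 2) (2 * a + n + 4 * l + 2)

/-- TASK UCC. As UCB with `S_G1` (one value `p = 0`): `M = P+l+2`, `L = l+1`, `z = P+3l+1`,
`k c = {l+2-c}_+ {P-1-c}`; `S_QP` (2) for the sum `∑ ps * k = -Qf (l+1-P)`, (4) for `κ`, and the
coefficient of `e_r C_{M-r}` is `h^(2l+2r)` times `Qf (l-r) - Qf (l+1-P)` for `r < P` and
`Qf (r-l-4) - Qf (P-l-5)` for `r ≥ P` (3); positive by (1). `S_DE` with `n' = P+l+2`,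
`d' = 2P+4l+1`, `J = {(0, r)}`. -/
def S_UCC : Prop := S_MP → S_TH → S_DE → S_SY → S_PB → S_FO → S_STR → S_EXT →
  RAWCc → S_G1 → S_PHI → S_QP → ∀ (N l P : ℕ), 2 ≤ P →
  UU (qq N) (xx N) l (Cn (qq N) (xx N) P) ∈ SC N (P + l + 2) (2 * P + 4 * l + 1)

/-- TASK CWt. `eh c = eH (c+1)`; write `c` for `c + 1 ≥ 1`. `RAWWc` in `FN N` with `q = h^2`
(`thN`, `S_MP`): `q^(r.1) = h^(2l+2-2c')` with `c' = r.2+1`, and `(q^(l+2+r) - q^(c+r)) / (1-q) =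
h^(l+c+1+2r) {c-l-2}` (`S_SY`). `S_FO` with `M = c+l+2`, `L = l+1`, `z = 2l+2`, `k = 1`:
`κ = 1` if `M-1-c' > L` i.e. `c' < c`, and `0` otherwise; `∑ ps (2c'+1-M) = {l+2-c}_+`
(`ps s + ps (s-2) + ... = {s+1}` for `s ≥ 0`). The coefficient of `e_j C_{M-j}` (`j < M-1`) is
`h^(l+1-c+2j)` times `{l+2-c}_+` for `j < c` and `{l+2-c}_+ - {l+2-c} = {c-l-2}_+` for `c ≤ j`.
`S_DE` with `n' = c+l+2`, `d' = c+3l+2`. -/
def S_CWt : Prop := S_MP → S_TH → S_DE → S_SY → S_PB → S_FO → S_STR → S_EXT → RAWWc → S_CW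

/-- TASK UCt. Closure induction (`UU_add`, `UU_smul`) with `S_UCB`, `S_UCC` and `S_CM`; `UU l 0 = 0`
from additivity. -/
def S_UCt : Prop := S_CM →
  (∀ (N l a n : ℕ), 1 ≤ a → 2 * a + 2 ≤ n →
    UU (qq N) (xx N) l (bt (qq N) (xx N) n a) ∈ SC N (n + l + 2) (2 * a + n + 4 * l + 2)) →
  (∀ (N l P : ℕ), 2 ≤ P →
    UU (qq N) (xx N) l (Cn (qq N) (xx N) P) ∈ SC N (P + l + 2) (2 * P + 4 * l + 1)) → S_UC

end Pool.Agent.SWD
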