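import Pool.Agent.Lib.MP_263316_co.CB.SpecC

/-!
MP_263316_co, part CB3, module UBS (helper56): the identity of `S_UBr` in the ring of power series
`PS K`, by the fraction field of `PS K`.
-/

set_option autoImplicit false

namespace Pool.Agent.SWD

open Finset Pool.Agent.SWC Pool.Agent.SWB

namespace UBSaux

/-- `DS` is the Bethe form, in a field -/
theorem DS_db (hE : S_ES) (hM : S_MP) (hD : S_DSt) {A : Type} [CommRing A] {L : Type} [Field L]
    {N : ℕ} (ψ : PowerSeries A →+* L) (q : A) (x : Fin N → A) (η w : A) (q' : L)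
    (x' : Fin N → L) (ρ' w' : L) (hq : ψ (PowerSeries.C q) = q')
    (hx : ∀ k, ψ (PowerSeries.C (x k)) = x' k)
    (hη : ψ (PowerSeries.C η * PowerSeries.X) = ρ') (hw : ψ (PowerSeries.C w) = w')
    (h1 : 1 - ρ' ≠ 0) (h2 : 1 - q' ^ 2 * ρ' ≠ 0) (i j : Fin N) :
    ψ (DS q x η w i j) = Db q' x' ρ' w' i j := by
  by_cases hij : i < j
  · have h := hD hE A N q x η w i j hij
    obtain ⟨_, _, _, _, _, _, _, _, hpr, _⟩ :=
      hM (PowerSeries A) L ψ N (PowerSeries.C q) (fun k => PowerSeries.C (x k))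
    have e1 : (PowerSeries.C (q ^ 2 * η) * PowerSeries.X : PowerSeries A) =
        PowerSeries.C q ^ 2 * (PowerSeries.C η * PowerSeries.X) := by
      rw [map_mul, map_pow]; ring
    have e2 : (PowerSeries.C (q * η * w) * PowerSeries.X : PowerSeries A) =
        PowerSeries.C q * (PowerSeries.C η * PowerSeries.X) * PowerSeries.C w := by
      rw [map_mul, map_mul]; ring
    rw [e1, e2] at h
    have hx' : (fun k => ψ (PowerSeries.C (x k))) = x' := funext hx
    have h' := congrArg ψ h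
    generalize PowerSeries.C η * PowerSeries.X = Y at h' hη
    simp only [map_mul, map_sub, map_add, map_one, map_pow, hpr, hx', hq, hη, hw] at h'
    unfold Db
    rw [div_add_div _ _ h1 h2, eq_div_iff (mul_ne_zero h1 h2)]
    linear_combination h'
  · have hb : ∀ m, bw q x w m i j = 0 := by
      intro m
      unfold bw
      exact Finset.sum_eq_zero fun n _ => by rw [bt_of_not hij, zero_mul]
    have h0 : DS q x η w i j = 0 := by
      unfold DS
      ext m
      rw [PowerSeries.coeff_mk, hb, mul_zero, map_zero]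
    rw [h0, map_zero]
    unfold Db pr
    rw [if_neg hij, if_neg hij]
    simp

/-- `gs` is the geometric series, in a field -/
theorem gs_inv (hE : S_ES) (hS : S_SE) {A : Type} [CommRing A] {L : Type} [Field L]
    (ψ : PowerSeries A →+* L) (c : A) (c' : L)
    (hc : ψ (PowerSeries.C c * PowerSeries.X) = c') : ψ (gs c) = (1 - c')⁻¹ := by
  obtain ⟨h, _⟩ := hS hE A
  have h' := congrArg ψ (h c)
  rw [map_mul, map_sub, map_one, hc] at h'
  exact eq_inv_of_mul_eq_one_right h'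

/-- the constant coefficient -/
noncomputable def cc {K : Type} [Field K] : PS K →+* K :=
  (PowerSeries.constantCoeff).comp ((PowerSeries.constantCoeff).comp PowerSeries.constantCoeff)

theorem cc_k {K : Type} [Field K] (c : K) : cc (kS c) = c := by simp [cc, kS]

theorem cc_t {K : Type} [Field K] : cc (tS : PS K) = 0 := by simp [cc, tS]

theorem cc_r {K : Type} [Field K] : cc (rS : PS K) = 0 := by simp [cc, rS]

theorem ne_of_cc {K : Type} [Field K] {L : Type} [Field L] {ι : PS K →+* L}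
    (hι : Function.Injective ι) {a : PS K} {b : L} (h : ι a = b) (hc : cc a ≠ 0) : b ≠ 0 := by
  intro hb
  rw [hb] at h
  have h0 : a = 0 := hι (h.trans (map_zero ι).symm)
  rw [h0, map_zero] at hc
  exact hc rfl

theorem nine {L : Type} [Field L] {a1 a2 a3 a4 a5 a6 a7 a8 a9 b1 b2 b3 b4 b5 b6 b7 b8 b9 : L}
    (h1 : a1 = b1) (h2 : a2 = b2) (h3 : a3 = b3) (h4 : a4 = b4) (h5 : a5 = b5) (h6 : a6 = b6)
    (h7 : a7 = b7) (h8 : a8 = b8) (h9 : a9 = b9) :
    a1 + a2 - a3 + a4 - a5 + a6 - a7 - a8 + a9 = b1 + b2 - b3 + b4 - b5 + b6 - b7 - b8 + b9 := by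
  rw [h1, h2, h3, h4, h5, h6, h7, h8, h9]

/-- the identity, for an injective homomorphism to a field -/
theorem main (hE : S_ES) (hM : S_MP) (hD : S_DSt) (hS : S_SE) (hF : S_SF) (hTM : S_TM)
    (hPU : S_PU) (hEV : S_EV) (hRG : S_RG4) (hCHB : S_CHB) (hUB : S_UB) (hUBr : S_UBr)
    {K : Type} [Field K] {L : Type} [Field L] (ι : PS K →+* L) (hι : Function.Injective ι)
    {N : ℕ} (q : K) (x : Fin N → K) (hq0 : q ≠ 0) (hq1 : 1 - q ≠ 0) (hq2 : 1 + q ≠ 0)
    (i j : Fin N) (hij : i < j) :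
  ι (rS * vS ^ 2 * Ug (kS q) (fun k => kS (x k)) (tS * rS * vS)
      (fun i j => PowerSeries.C (DS (kB q) (fun k => kB (x k)) 1 vB i j)) i j) =
  ι (Ez (fun k => kS (x k)) (kS q ^ 2 * (tS * rS * vS)) *
      PowerSeries.C (DS (kB q) (fun k => kB (x k)) 1 vB i j) *
      (gs 1 * gs (kA q)) * (gs (kA q * rA) * gs (kA q ^ 2 * rA)) +
    kS (q / (1 - q)) * PowerSeries.C (Ez (fun k => kA (x k)) (kA q * rA * vA) *
      gA (fun _ => 1)) * DS (kA q) (fun k => kA (x k)) (kA q * rA) vA i j *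
      gs (kA q) * gs (kA (q ^ 2) * rA) -
    kS (1 / (1 - q)) * PowerSeries.C (Ez (fun k => kA (x k)) (kA (q ^ 2) * rA * vA) *
      gA (fun k => q ^ (2 * k))) * DS (kA q) (fun k => kA (x k)) (kA 1 * rA) vA i j *
      gs (kA 1) * gs (kA q * rA) +
    kS (q ^ 2 / (1 - q)) * PowerSeries.C (Ez (fun k => kA (x k)) (kA 1 * vA) *
      gA (fun k => q ^ (2 * k))) *
      DS (kA q) (fun k => kA (x k)) (kA 1) (kA q * rA * vA) i j *
      gs (kA q) * gs (kA (q ^ 2) * rA) -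
    kS (1 / (q * (1 - q))) * PowerSeries.C (Ez (fun k => kA (x k)) (kA q * vA) *
      gA (fun _ => 1)) *
      DS (kA q) (fun k => kA (x k)) (kA q⁻¹) (kA q * rA * vA) i j *
      gs (kA 1) * gs (kA q * rA) +
    kS (1 / (q * (1 - q) ^ 2)) * PowerSeries.C (Ez (fun k => kA (x k)) (kA (q ^ 2) * rA * vA) *
      Ez (fun k => kA (x k)) (kA q * vA) * gA (fun k => (1 + q ^ (2 * k + 1)) / (1 + q))) *
      Ct (kS q) (fun k => kS (x k)) (kS 1 * (tS * rS * vS)) i j *
      gs (kA q⁻¹) * gs (kA 1 * rA) -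
    kS (q ^ 2 / (1 - q) ^ 2) * PowerSeries.C (Ez (fun k => kA (x k)) (kA (q ^ 2) * rA * vA) *
      Ez (fun k => kA (x k)) (kA 1 * vA) * gA (fun k => q ^ (2 * k))) *
      Ct (kS q) (fun k => kS (x k)) (kS q * (tS * rS * vS)) i j *
      gs (kA 1) * gs (kA (q ^ 2) * rA) -
    kS (q / (1 - q) ^ 2) * PowerSeries.C (Ez (fun k => kA (x k)) (kA q * rA * vA) *
      Ez (fun k => kA (x k)) (kA q * vA) * gA (fun _ => 1)) *
      Ct (kS q) (fun k => kS (x k)) (kS q * (tS * rS * vS)) i j *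
      gs (kA q) * gs (kA q * rA) +
    kS (q ^ 4 / (1 - q) ^ 2) * PowerSeries.C (Ez (fun k => kA (x k)) (kA q * rA * vA) *
      Ez (fun k => kA (x k)) (kA 1 * vA) * gA (fun k => (1 + q ^ (2 * k + 1)) / (1 + q))) *
      Ct (kS q) (fun k => kS (x k)) (kS (q ^ 2) * (tS * rS * vS)) i j *
      gs (kA (q ^ 2)) * gs (kA (q ^ 3) * rA)) := by
  set κ : K →+* L := ι.comp kS with hκ
  have kk : ∀ c : K, ι (kS c) = κ c := fun c => rfl
  have ka : ∀ c : K, ι (PowerSeries.C (kA c)) = κ c := fun c => rfl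
  have kb : ∀ c : K, ι (PowerSeries.C (PowerSeries.C (kB c))) = κ c := fun c => rfl
  obtain ⟨T, hT⟩ : ∃ T, ι tS = T := ⟨_, rfl⟩
  obtain ⟨R, hR⟩ : ∃ R, ι rS = R := ⟨_, rfl⟩
  obtain ⟨V, hV⟩ : ∃ V, ι vS = V := ⟨_, rfl⟩
  obtain ⟨X, hX⟩ : ∃ X : Fin N → L, X = fun k => κ (x k) := ⟨_, rfl⟩
  obtain ⟨Q, hQ⟩ : ∃ Q, Q = κ q := ⟨_, rfl⟩
  have hXT : ι (PowerSeries.X) = T := hT
  have hrA : ι (PowerSeries.C rA) = R := hR
  have hvA : ι (PowerSeries.C vA) = V := hV
  have hvB : ι (PowerSeries.C (PowerSeries.C vB)) = V := hV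
  have hr0 : R ≠ 0 := by
    intro h
    rw [← hR] at h
    have h0 : (rS : PS K) = 0 := hι (h.trans (map_zero ι).symm)
    have h1 : (PowerSeries.X : PA K) = 0 :=
      PowerSeries.C_injective (h0.trans (map_zero PowerSeries.C).symm)
    exact PowerSeries.X_ne_zero h1
  have hv0 : V ≠ 0 := by
    intro h
    rw [← hV] at h
    have h0 : (vS : PS K) = 0 := hι (h.trans (map_zero ι).symm)
    have h1 : (PowerSeries.C PowerSeries.X : PA K) = 0 :=
      PowerSeries.C_injective (h0.trans (map_zero PowerSeries.C).symm)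
    have h2 : (PowerSeries.X : PB K) = 0 :=
      PowerSeries.C_injective (h1.trans (map_zero PowerSeries.C).symm)
    exact PowerSeries.X_ne_zero h2
  have hQ0 : Q ≠ 0 := by rw [hQ]; exact (map_ne_zero κ).mpr hq0
  have hQ1 : 1 - Q ≠ 0 := by
    rw [hQ, ← map_one κ, ← map_sub]; exact (map_ne_zero κ).mpr hq1
  have n1 : 1 - T ≠ 0 := ne_of_cc hι (a := 1 - tS) (by rw [map_sub, map_one, hT])
    (by rw [map_sub, map_one, cc_t]; simp)
  have n2 : 1 - Q * T ≠ 0 := ne_of_cc hι (a := 1 - kS q * tS)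
    (by rw [map_sub, map_one, map_mul, hT, kk, hQ])
    (by rw [map_sub, map_one, map_mul, cc_t]; simp)
  have n3 : 1 - Q ^ 2 * T ≠ 0 := ne_of_cc hι (a := 1 - kS q ^ 2 * tS)
    (by rw [map_sub, map_one, map_mul, map_pow, hT, kk, hQ])
    (by rw [map_sub, map_one, map_mul, cc_t]; simp)
  have n4 : Q - T ≠ 0 := ne_of_cc hι (a := kS q - tS)
    (by rw [map_sub, hT, kk, hQ]) (by rw [map_sub, cc_t, cc_k]; simpa using hq0)
  have n5 : 1 - T * R ≠ 0 := ne_of_cc hι (a := 1 - tS * rS)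
    (by rw [map_sub, map_one, map_mul, hT, hR])
    (by rw [map_sub, map_one, map_mul, cc_t]; simp)
  have n6 : 1 - Q * T * R ≠ 0 := ne_of_cc hι (a := 1 - kS q * tS * rS)
    (by rw [map_sub, map_one, map_mul, map_mul, hT, hR, kk, hQ])
    (by rw [map_sub, map_one, map_mul, cc_r]; simp)
  have n7 : 1 - Q ^ 2 * T * R ≠ 0 := ne_of_cc hι (a := 1 - kS q ^ 2 * tS * rS)
    (by rw [map_sub, map_one, map_mul, map_mul, map_pow, hT, hR, kk, hQ])
    (by rw [map_sub, map_one, map_mul, cc_r]; simp)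
  have n8 : 1 - Q ^ 3 * T * R ≠ 0 := ne_of_cc hι (a := 1 - kS q ^ 3 * tS * rS)
    (by rw [map_sub, map_one, map_mul, map_mul, map_pow, hT, hR, kk, hQ])
    (by rw [map_sub, map_one, map_mul, cc_r]; simp)
  have n9 : 1 - R ≠ 0 := ne_of_cc hι (a := 1 - rS)
    (by rw [map_sub, map_one, hR]) (by rw [map_sub, map_one, cc_r]; simp)
  have n10 : 1 - Q ^ 2 * R ≠ 0 := ne_of_cc hι (a := 1 - kS q ^ 2 * rS)
    (by rw [map_sub, map_one, map_mul, map_pow, hR, kk, hQ])
    (by rw [map_sub, map_one, map_mul, cc_r]; simp)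
  -- the homomorphism on the functions
  obtain ⟨_, _, _, _, _, hEz, _, hCt, _, _, _, hUg, _, _⟩ := hM (PS K) L ι N (kS q)
    (fun k => kS (x k))
  have hcE : ∀ z : PA K, ι (PowerSeries.C (Ez (fun k => kA (x k)) z)) =
      Ez X (ι (PowerSeries.C z)) := by
    intro z
    obtain ⟨_, _, _, _, _, h, _⟩ := hM (PA K) L (ι.comp PowerSeries.C) N (kA q)
      (fun k => kA (x k))
    rw [hX]
    exact h z
  have hX' : (fun k => ι (kS (x k))) = X := by rw [hX]; rfl
  have kQ : ι (kS q) = Q := by rw [hQ]; rfl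
  have aQ : ι (PowerSeries.C (kA q)) = Q := by rw [hQ]; rfl
  -- geometric series
  have g1 : ι (gs 1) = (1 - T)⁻¹ := gs_inv hE hS ι _ _
    (by rw [map_mul, hXT, map_one, map_one, one_mul])
  have g1' : ι (gs (kA 1)) = (1 - T)⁻¹ := by rw [map_one, g1]
  have gq : ι (gs (kA q)) = (1 - Q * T)⁻¹ := gs_inv hE hS ι _ _ (by rw [map_mul, hXT, aQ])
  have gqr : ι (gs (kA q * rA)) = (1 - Q * T * R)⁻¹ := gs_inv hE hS ι _ _
    (by rw [map_mul, map_mul, map_mul, hXT, aQ, hrA]; ring)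
  have gq2r : ι (gs (kA q ^ 2 * rA)) = (1 - Q ^ 2 * T * R)⁻¹ := gs_inv hE hS ι _ _
    (by rw [map_mul, map_mul, map_mul, map_pow, map_pow, hXT, aQ, hrA]; ring)
  have gq2r' : ι (gs (kA (q ^ 2) * rA)) = (1 - Q ^ 2 * T * R)⁻¹ := by rw [map_pow, gq2r]
  have gqi : ι (gs (kA q⁻¹)) = (1 - T / Q)⁻¹ := gs_inv hE hS ι _ _
    (by rw [map_mul, hXT, ka, map_inv₀, hQ, div_eq_mul_inv, mul_comm])
  have g1r : ι (gs (kA 1 * rA)) = (1 - T * R)⁻¹ := gs_inv hE hS ι _ _
    (by rw [map_one, one_mul, map_mul, hXT, hrA, mul_comm])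
  have gq2 : ι (gs (kA (q ^ 2))) = (1 - Q ^ 2 * T)⁻¹ := gs_inv hE hS ι _ _
    (by rw [map_mul, map_pow, map_pow, map_pow, hXT, aQ])
  have gq3r : ι (gs (kA (q ^ 3) * rA)) = (1 - Q ^ 3 * T * R)⁻¹ := gs_inv hE hS ι _ _
    (by rw [map_mul, map_mul, map_mul, map_pow, map_pow, map_pow, hXT, aQ, hrA]; ring)
  -- series in ρ
  have Gg : ∀ c : K, ι (PowerSeries.C (gs (kB c))) = (1 - κ c * R)⁻¹ := fun c =>
    gs_inv hE hS (ι.comp PowerSeries.C) (kB c) _ (by
      rw [map_mul]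
      have : (ι.comp PowerSeries.C) (PowerSeries.X : PA K) = R := hR
      rw [this]
      rfl)
  have Gg1 : ι (PowerSeries.C (gs (1 : PB K))) = (1 - R)⁻¹ := by
    have := Gg 1
    rw [map_one, map_one, one_mul] at this
    exact this
  have G1 : ι (PowerSeries.C (gA (fun _ => (1 : K)))) = (1 - R)⁻¹ := by
    rw [← Gg1]
    congr 2
    unfold gA gs
    congr 1
    funext k
    rw [map_one, one_pow]
  have G2 : ι (PowerSeries.C (gA (fun k => q ^ (2 * k)))) = (1 - Q ^ 2 * R)⁻¹ := by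
    have := Gg (q ^ 2)
    rw [map_pow κ, ← hQ] at this
    rw [← this]
    congr 2
    unfold gA gs
    congr 1
    funext k
    change kB (q ^ (2 * k)) = kB (q ^ 2) ^ k
    rw [pow_mul, map_pow]
  have G3 : ι (PowerSeries.C (gA (fun k => (1 + q ^ (2 * k + 1)) / (1 + q)))) =
      (1 - Q * R) * (1 - R)⁻¹ * (1 - Q ^ 2 * R)⁻¹ := by
    have h := hF K q hq1 hq2
    rw [← h, map_mul, map_mul, map_mul, map_mul, map_sub, map_one, map_sub, map_one, map_mul,
      map_mul, aQ, hrA, Gg1, Gg, map_pow κ, ← hQ]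
  -- the Bethe forms
  have D1' : ∀ i j, ι (PowerSeries.C (DS (kB q) (fun k => kB (x k)) 1 vB i j)) =
      Db Q X R V i j := fun i j =>
    DS_db hE hM hD (ι.comp PowerSeries.C) (kB q) (fun k => kB (x k)) 1 vB Q X R V
      (by rw [hQ]; rfl) (fun k => by rw [hX]; rfl)
      (by rw [map_one, one_mul]; exact hR) hvB n9 n10 i j
  have D2 : ι (DS (kA q) (fun k => kA (x k)) (kA q * rA) vA i j) = Db Q X (Q * T * R) V i j :=
    DS_db hE hM hD ι (kA q) (fun k => kA (x k)) _ _ Q X _ _ aQ (fun k => by rw [hX]; rfl)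
      (by rw [map_mul, map_mul, map_mul, hXT, aQ, hrA]; ring) hvA n6
      (by
        have : 1 - Q ^ 2 * (Q * T * R) = 1 - Q ^ 3 * T * R := by ring
        rw [this]; exact n8) i j
  have D3 : ι (DS (kA q) (fun k => kA (x k)) (kA 1 * rA) vA i j) = Db Q X (T * R) V i j :=
    DS_db hE hM hD ι (kA q) (fun k => kA (x k)) _ _ Q X _ _ aQ (fun k => by rw [hX]; rfl)
      (by rw [map_one, one_mul, map_mul, hXT, hrA]; ring) hvA n5
      (by
        have : 1 - Q ^ 2 * (T * R) = 1 - Q ^ 2 * T * R := by ring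
        rw [this]; exact n7) i j
  have hw : ι (PowerSeries.C (kA q * rA * vA)) = Q * R * V := by
    rw [map_mul, map_mul, map_mul, map_mul, aQ, hrA, hvA]
  have D4 : ι (DS (kA q) (fun k => kA (x k)) (kA 1) (kA q * rA * vA) i j) =
      Db Q X T (Q * R * V) i j :=
    DS_db hE hM hD ι (kA q) (fun k => kA (x k)) _ _ Q X _ _ aQ (fun k => by rw [hX]; rfl)
      (by rw [map_one, map_one, one_mul, hXT]) hw n1 n3 i j
  have D5 : ι (DS (kA q) (fun k => kA (x k)) (kA q⁻¹) (kA q * rA * vA) i j) =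
      Db Q X (T / Q) (Q * R * V) i j :=
    DS_db hE hM hD ι (kA q) (fun k => kA (x k)) _ _ Q X _ _ aQ (fun k => by rw [hX]; rfl)
      (by rw [map_mul, hXT, ka, map_inv₀, hQ, div_eq_mul_inv, mul_comm]) hw
      (by
        have : 1 - T / Q = (Q - T) / Q := by field_simp
        rw [this]; exact div_ne_zero n4 hQ0)
      (by
        have : 1 - Q ^ 2 * (T / Q) = 1 - Q * T := by field_simp
        rw [this]; exact n2) i j
  -- values of E
  have E0 : ι (Ez (fun k => kS (x k)) (kS q ^ 2 * (tS * rS * vS))) =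
      Ez X (Q ^ 2 * (T * R * V)) := by
    rw [hEz, hX', map_mul, map_pow, map_mul, map_mul, kQ, hT, hR, hV]
  have E1 : ι (PowerSeries.C (Ez (fun k => kA (x k)) (kA q * rA * vA))) = Ez X (Q * R * V) := by
    rw [hcE, hw]
  have E2 : ι (PowerSeries.C (Ez (fun k => kA (x k)) (kA (q ^ 2) * rA * vA))) =
      Ez X (Q ^ 2 * R * V) := by
    rw [hcE, map_mul, map_mul, map_mul, map_mul, ka, map_pow, ← hQ, hrA, hvA]
  have E3 : ι (PowerSeries.C (Ez (fun k => kA (x k)) (kA 1 * vA))) = Ez X V := by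
    rw [hcE, map_one, one_mul, hvA]
  have E4 : ι (PowerSeries.C (Ez (fun k => kA (x k)) (kA q * vA))) = Ez X (Q * V) := by
    rw [hcE, map_mul, map_mul, aQ, hvA]
  -- values of C
  have C1 : ι (Ct (kS q) (fun k => kS (x k)) (kS 1 * (tS * rS * vS)) i j) =
      Ct Q X (T * R * V) i j := by
    rw [hCt, hX', map_mul, map_mul, map_mul, map_one, map_one, one_mul, kQ, hT, hR, hV]
  have C2 : ι (Ct (kS q) (fun k => kS (x k)) (kS q * (tS * rS * vS)) i j) =
      Ct Q X (Q * (T * R * V)) i j := by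
    rw [hCt, hX', map_mul, map_mul, map_mul, kQ, hT, hR, hV]
  have C3 : ι (Ct (kS q) (fun k => kS (x k)) (kS (q ^ 2) * (tS * rS * vS)) i j) =
      Ct Q X (Q ^ 2 * (T * R * V)) i j := by
    rw [hCt, hX', map_mul, map_mul, map_mul, map_pow, map_pow, kQ, hT, hR, hV]
  -- constants
  have k1 : ι (kS (q / (1 - q))) = Q / (1 - Q) := by
    rw [kk, map_div₀, map_sub, map_one, ← hQ]
  have k2 : ι (kS (1 / (1 - q))) = 1 / (1 - Q) := by
    rw [kk, map_div₀, map_sub, map_one, ← hQ]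
  have k3 : ι (kS (q ^ 2 / (1 - q))) = Q ^ 2 / (1 - Q) := by
    rw [kk, map_div₀, map_sub, map_one, map_pow, ← hQ]
  have k4 : ι (kS (1 / (q * (1 - q)))) = 1 / (Q * (1 - Q)) := by
    rw [kk, map_div₀, map_mul, map_sub, map_one, ← hQ]
  have k5 : ι (kS (1 / (q * (1 - q) ^ 2))) = 1 / (Q * (1 - Q) ^ 2) := by
    rw [kk, map_div₀, map_mul, map_pow, map_sub, map_one, ← hQ]
  have k6 : ι (kS (q ^ 2 / (1 - q) ^ 2)) = Q ^ 2 / (1 - Q) ^ 2 := by
    rw [kk, map_div₀, map_pow, map_pow, map_sub, map_one, ← hQ]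
  have k7 : ι (kS (q / (1 - q) ^ 2)) = Q / (1 - Q) ^ 2 := by
    rw [kk, map_div₀, map_pow, map_sub, map_one, ← hQ]
  have k8 : ι (kS (q ^ 4 / (1 - q) ^ 2)) = Q ^ 4 / (1 - Q) ^ 2 := by
    rw [kk, map_div₀, map_pow, map_pow, map_sub, map_one, ← hQ]
  have H := hUBr hTM hPU hEV hRG hCHB hUB L N X Q T R V hQ0 hQ1 hr0 hv0 n1 n2 n3 n4 n5 n6 n7 n8
    n9 n10 i j hij
  have hl : ι (rS * vS ^ 2 * Ug (kS q) (fun k => kS (x k)) (tS * rS * vS)
      (fun i j => PowerSeries.C (DS (kB q) (fun k => kB (x k)) 1 vB i j)) i j) =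
      R * V ^ 2 * Ug Q X (T * R * V) (Db Q X R V) i j := by
    rw [map_mul, map_mul, map_pow, hUg, hX', kQ, map_mul, map_mul, hT, hR, hV]
    have : (fun i j => ι (PowerSeries.C (DS (kB q) (fun k => kB (x k)) 1 vB i j))) =
        Db Q X R V := by funext a b; exact D1' a b
    rw [this]
  rw [hl, H]
  have D1 := D1' i j
  simp only [map_add ι, map_sub ι]
  refine nine ?_ ?_ ?_ ?_ ?_ ?_ ?_ ?_ ?_
  · simp only [map_mul, g1, gq, gqr, gq2r, D1, E0]
    simp only [div_eq_mul_inv, mul_inv]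
    ring1
  · simp only [map_mul, gq, gq2r', D2, E1, G1, k1]
    simp only [div_eq_mul_inv, mul_inv]
    ring1
  · simp only [map_mul, g1', gqr, D3, E2, G2, k2]
    simp only [div_eq_mul_inv, mul_inv]
    ring1
  · simp only [map_mul, gq, gq2r', D4, E3, G2, k3]
    simp only [div_eq_mul_inv, mul_inv]
    ring1
  · simp only [map_mul, g1', gqr, D5, E4, G1, k4]
    simp only [div_eq_mul_inv, mul_inv]
    ring1
  · simp only [map_mul, gqi, g1r, C1, E2, E4, G3, k5]
    simp only [div_eq_mul_inv, mul_inv]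
    ring1
  · simp only [map_mul, g1', gq2r', C2, E2, E3, G2, k6]
    simp only [div_eq_mul_inv, mul_inv]
    ring1
  · simp only [map_mul, gq, gqr, C2, E1, E4, G1, k7]
    simp only [div_eq_mul_inv, mul_inv]
    ring1
  · simp only [map_mul, gq2, gq3r, C3, E1, E3, G3, k8]
    simp only [div_eq_mul_inv, mul_inv]
    ring1

end UBSaux

/-- TASK UBS -/
theorem t_UBS : S_UBS := by
  intro hE hM hD hS hF hTM hPU hEV hRG hCHB hUB hUBr K _ N q x hq0 hq1 hq2 i j hij
  exact IsFractionRing.injective (PS K) (FractionRing (PS K))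
    (UBSaux.main hE hM hD hS hF hTM hPU hEV hRG hCHB hUB hUBr
      (algebraMap (PS K) (FractionRing (PS K)))
      (IsFractionRing.injective (PS K) (FractionRing (PS K))) q x hq0 hq1 hq2 i j hij)

end Pool.Agent.SWD
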