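import Pool.Agent.Lib.MP_263316_co.CB.SpecC

set_option autoImplicit false

namespace Pool.Agent.SWD

open Finset Pool.Agent.SWC Pool.Agent.SWB

private theorem x0_wq {R R' : Type} [CommRing R] [CommRing R'] (φ : R →+* R') {N : ℕ} (q : R)
    (i j : Fin N) : wq (φ q) i j = φ (wq q i j) := by
  unfold wq
  split_ifs
  · rfl
  · rw [map_one]

/-- the coefficients commute with `UU` with constant `q`, `x` -/
private theorem x0_coeff_UU {R : Type} [CommRing R] {N : ℕ} (q : R) (x : Fin N → R) (l m : ℕ)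
    (D : Fin N → Fin N → PowerSeries R) (i j : Fin N) :
    PowerSeries.coeff m (UU (PowerSeries.C q) (fun k => PowerSeries.C (x k)) l D i j) =
      UU q x l (fun i j => PowerSeries.coeff m (D i j)) i j := by
  unfold UU
  by_cases h : i < j
  · rw [if_pos h, if_pos h]
    simp only [x0_wq, ← map_mul, ← map_prod, ← map_sum]
    rw [PowerSeries.coeff_C_mul, map_sum]
    congr 1
    refine sum_congr rfl fun a _ => ?_
    rw [map_sum]
    refine sum_congr rfl fun b _ => ?_
    rw [PowerSeries.coeff_mul_C, PowerSeries.coeff_mul_C]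
  · rw [if_neg h, if_neg h, map_zero]

/-- the coefficients of a polynomial written as a sum over a range -/
private theorem x0_coeff_sum {R : Type} [CommRing R] (A : ℕ → R) (M m : ℕ)
    (h : M ≤ m → A m = 0) :
    PowerSeries.coeff m (∑ k ∈ range M, PowerSeries.C (A k) * PowerSeries.X ^ k) = A m := by
  rw [map_sum]
  simp only [PowerSeries.coeff_C_mul, PowerSeries.coeff_X_pow, mul_ite, mul_one, mul_zero]
  rw [Finset.sum_ite_eq]
  by_cases hm : m ∈ range M
  · rw [if_pos hm]
  · rw [if_neg hm]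
    rw [mem_range, not_lt] at hm
    exact (h hm).symm

private theorem x0_bw (hES : S_ES) (hMP : S_MP) {K : Type} [CommRing K] {N : ℕ} (q : K)
    (x : Fin N → K) (a m : ℕ) (i j : Fin N) :
    PowerSeries.coeff m (bw (kB q) (fun k => kB (x k)) vB a i j) = bt q x (m + 2) a i j := by
  have h1 : bw (kB q) (fun k => kB (x k)) vB a i j =
      ∑ n ∈ range (2 * N + 1), PowerSeries.C (bt q x (n + 2) a i j) * PowerSeries.X ^ n := by
    unfold bw
    refine sum_congr rfl fun n _ => ?_
    rw [← (hMP K (PB K) kB N q x).2.2.1 (n + 2) a i j]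
    rfl
  rw [h1]
  refine x0_coeff_sum (fun n => bt q x (n + 2) a i j) _ _ ?_
  intro hm
  exact (hES K N q x).2.2.2.2.2.2.2 i j (m + 2) a (by omega)

theorem t_X0 : S_X0 := by
  intro hES hUGS hMP K _ N q x i j l a n ha hn
  obtain ⟨a', rfl⟩ := Nat.exists_eq_add_of_le' ha
  obtain ⟨n', rfl⟩ := Nat.exists_eq_add_of_le' hn
  have h1 : rS * vS ^ 2 * Ug (kS q) (fun k => kS (x k)) (tS * rS * vS)
      (fun i j => PowerSeries.C (DS (kB q) (fun k => kB (x k)) 1 vB i j)) i j =
      ∑ l' ∈ range (N + 1), PowerSeries.C (rA * vA ^ 2 * UU (kA q) (fun k => kA (x k)) l'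
        (fun i j => DS (kB q) (fun k => kB (x k)) 1 vB i j) i j * (rA * vA) ^ l') *
          (PowerSeries.X : PS K) ^ l' := by
    rw [(hUGS (PS K) N (kS q) (fun k => kS (x k))).1, mul_sum]
    refine sum_congr rfl fun l' _ => ?_
    have h2 := (hMP (PA K) (PS K) PowerSeries.C N (kA q) (fun k => kA (x k))).2.2.2.2.2.2.2.2.2.1
      l' (fun i j => DS (kB q) (fun k => kB (x k)) 1 vB i j) i j
    have h3 : UU (kS q) (fun k => kS (x k)) l'
        (fun i j => PowerSeries.C (DS (kB q) (fun k => kB (x k)) 1 vB i j)) i j =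
        PowerSeries.C (UU (kA q) (fun k => kA (x k)) l'
          (fun i j => DS (kB q) (fun k => kB (x k)) 1 vB i j) i j) := h2.symm
    have h4 : (rS : PS K) = PowerSeries.C rA := rfl
    have h5 : (vS : PS K) = PowerSeries.C vA := rfl
    have h6 : (tS : PS K) = PowerSeries.X := rfl
    rw [h3, h4, h5, h6]
    simp only [map_mul, map_pow]
    ring
  have h2 : ∀ m : ℕ, PowerSeries.coeff m (rS * vS ^ 2 * Ug (kS q) (fun k => kS (x k))
      (tS * rS * vS)
      (fun i j => PowerSeries.C (DS (kB q) (fun k => kB (x k)) 1 vB i j)) i j) =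
      rA * vA ^ 2 * UU (kA q) (fun k => kA (x k)) m
        (fun i j => DS (kB q) (fun k => kB (x k)) 1 vB i j) i j * (rA * vA) ^ m := by
    intro m
    rw [h1]
    refine x0_coeff_sum (fun l' => rA * vA ^ 2 * UU (kA q) (fun k => kA (x k)) l'
        (fun i j => DS (kB q) (fun k => kB (x k)) 1 vB i j) i j * (rA * vA) ^ l') _ _ ?_
    intro hm
    have h3 := (hUGS (PA K) N (kA q) (fun k => kA (x k))).2.1 m
      (fun i j => DS (kB q) (fun k => kB (x k)) 1 vB i j) i j (by omega)
    rw [h3, mul_zero, zero_mul]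
  unfold exS
  rw [h2]
  have h3 : (rA * vA ^ 2 * UU (kA q) (fun k => kA (x k)) l
      (fun i j => DS (kB q) (fun k => kB (x k)) 1 vB i j) i j * (rA * vA) ^ l : PA K) =
      PowerSeries.C (PowerSeries.X ^ (l + 2)) * (UU (kA q) (fun k => kA (x k)) l
      (fun i j => DS (kB q) (fun k => kB (x k)) 1 vB i j) i j) * PowerSeries.X ^ (l + 1) := by
    have h4 : (rA : PA K) = PowerSeries.X := rfl
    have h5 : (vA : PA K) = PowerSeries.C PowerSeries.X := rfl
    rw [h4, h5, map_pow]
    ring
  have h4 : l + (a' + 1) = a' + (l + 1) := by ring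
  have h5 : l + (n' + 2) = n' + (l + 2) := by ring
  rw [h3, h4, PowerSeries.coeff_mul_X_pow, PowerSeries.coeff_C_mul, h5, mul_comm,
    PowerSeries.coeff_mul_X_pow]
  have h6 : PowerSeries.coeff a' (UU (kA q) (fun k => kA (x k)) l
      (fun i j => DS (kB q) (fun k => kB (x k)) 1 vB i j) i j) =
      UU (kB q) (fun k => kB (x k)) l
        (fun i j => bw (kB q) (fun k => kB (x k)) vB (a' + 1) i j) i j := by
    have h7 := x0_coeff_UU (kB q) (fun k => kB (x k)) l a'
      (fun i j => DS (kB q) (fun k => kB (x k)) 1 vB i j) i j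
    refine h7.trans ?_
    congr 1
    funext i j
    unfold DS
    rw [PowerSeries.coeff_mk, one_pow, one_mul]
  rw [h6]
  have h7 := x0_coeff_UU q x l n'
      (fun i j => bw (kB q) (fun k => kB (x k)) vB (a' + 1) i j) i j
  refine h7.trans ?_
  congr 1
  funext i j
  exact x0_bw hES hMP q x (a' + 1) n' i j

end Pool.Agent.SWD
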